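import Pool.Agent.Work.MP_dc37f8_rat.Interface

set_option autoImplicit false

/-! # APG: the difference set of a set of small doubling is an approximate group (helper31) -/

open Finset

namespace Pool.RAT

open scoped Pointwise

theorem apg : Stmt_APG := by
  intro K hK
  refine ⟨⌈K ^ 10⌉₊, fun Q n hn hQ hD => ?_⟩
  have hn' : (0 : ℝ) < n := by exact_mod_cast hn
  have hK0 : 0 < K := by linarith
  have hc : (0 : ℝ) < Q.card := by
    by_contra h
    have h1 : (Q.card : ℝ) = 0 := le_antisymm (not_lt.mp h) (Nat.cast_nonneg _)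
    rw [h1, mul_zero] at hQ
    linarith
  have hne : Q.Nonempty := Finset.card_pos.mp (by exact_mod_cast hc)
  have h1 : ((Q - Q).card : ℝ) / Q.card ≤ K ^ 2 := by
    rw [div_le_iff₀ hc]
    calc ((Q - Q).card : ℝ) ≤ K * n := hD
      _ ≤ K * (K * Q.card) := mul_le_mul_of_nonneg_left hQ hK0.le
      _ = K ^ 2 * Q.card := by ring
  have h2 := Finset.pluennecke_ruzsa_inequality_nsmul_sub_nsmul_sub hne Q 3 2
  have h3 : (((3 • Q - 2 • Q).card : ℚ≥0) : ℝ) ≤
      (((((Q - Q).card : ℚ≥0) / Q.card) ^ (3 + 2) * Q.card : ℚ≥0) : ℝ) := by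
    exact_mod_cast h2
  push_cast at h3
  have h4 : ((3 • Q - 2 • Q).card : ℝ) ≤ K ^ 10 * Q.card := by
    refine h3.trans ?_
    have h5 : (((Q - Q).card : ℝ) / Q.card) ^ (3 + 2) ≤ (K ^ 2) ^ 5 :=
      pow_le_pow_left₀ (by positivity) h1 5
    calc (((Q - Q).card : ℝ) / Q.card) ^ (3 + 2) * Q.card ≤ (K ^ 2) ^ 5 * Q.card :=
          mul_le_mul_of_nonneg_right h5 hc.le
      _ = K ^ 10 * Q.card := by ring
  have h6 : (Q - Q) + (Q - Q) + Q = 3 • Q - 2 • Q := by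
    have e1 : (3 : ℕ) • Q = Q + Q + Q := by rw [succ_nsmul Q 2, two_nsmul]
    have e2 : (2 : ℕ) • Q = Q + Q := two_nsmul Q
    rw [e1, e2, sub_eq_add_neg Q Q, sub_eq_add_neg (Q + Q + Q), neg_add]
    ac_rfl
  obtain ⟨F, _, hF1, hF2⟩ := Finset.ruzsa_covering_add (K := K ^ 10)
    (A := (Q - Q) + (Q - Q)) (B := Q) hne (by rw [h6]; exact h4)
  refine ⟨F, ?_, hF2⟩
  exact_mod_cast hF1.trans (Nat.le_ceil _)

end Pool.RAT
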