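import Pool.Agent.Work.MP_dc37f8_rat.ArithPlace

/-!
# MP_dc37f8_co: the arithmetic statement
-/

open Finset

namespace Pool.Agent.Work.MP_dc37f8_rat

/-- The arithmetic statement with the value of the denominators. -/
def StmtArithDen : Prop :=
  ∀ d : ℕ, Squarefree d → ∀ M : Finset (IQF d), (∀ ρ ∈ M, ‖(ρ : ℂ)‖ = 1) →
    ∃ (S : Finset ℕ) (e : IQF d → ℕ → ℤ) (U V : ℕ → ℤ → AddSubgroup (IQF d))
      (Λ' : AddSubgroup (IQF d)),
      (∀ p ∈ S, p.Prime) ∧ BallData S M e U V Λ' ∧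
      (∀ x, x ∈ OQ d ↔ x ∈ Λ' ∧ ∀ p ∈ S, x ∈ U p 0 ∧ x ∈ V p 0) ∧
      -- scaling by the primes of `S`
      (∀ p ∈ S, ∀ q ∈ S, ∀ k x, (q : IQF d) * x ∈ U p (if q = p then k + 1 else k) ↔ x ∈ U p k) ∧
      (∀ p ∈ S, ∀ q ∈ S, ∀ k x, (q : IQF d) * x ∈ V p (if q = p then k + 1 else k) ↔ x ∈ V p k) ∧
      (∀ q ∈ S, ∀ x, (q : IQF d) * x ∈ Λ' ↔ x ∈ Λ') ∧
      -- the exponents determine `ρ` up to units
      (∀ ρ ∈ M, ∀ ρ' ∈ M, (∀ p ∈ S, e ρ p = e ρ' p) → ρ / ρ' ∈ OQ d) ∧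
      -- the primes of `S` split
      (∀ p ∈ S, ¬ p ∣ d ∧ ∃ x : ZMod p, x ^ 2 = -(d : ZMod p)) ∧
      (2 ∈ S → d % 8 = 7) ∧
      -- the gaps at 2
      (∀ ρ ∈ M, ∀ ρ' ∈ M, (∀ p ∈ S, p ≠ 2 → e ρ p = e ρ' p) → 2 ∈ S → e ρ 2 ≠ e ρ' 2 →
        ∃ a f : ℤ, Odd a ∧ a ^ 2 + d * f ^ 2 = 4 ^ ((e ρ 2 - e ρ' 2).natAbs + 1)) ∧
      -- the denominator
      (∀ ρ ∈ M, ∃ a : ℤ, IsCoprime a ((∏ p ∈ S, p ^ (e ρ p).natAbs : ℕ) : ℤ) ∧
        ((∏ p ∈ S, p ^ (e ρ p).natAbs : ℕ) : ℝ) * (2 * (ρ : ℂ).re) = a)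

/-- A rational with bounded denominator which is integral at the primes of the denominator. -/
theorem rat_int {q : ℚ} {m : ℕ} (hm : m ≠ 0) (h : ∃ t : ℤ, (m : ℚ) * q = t)
    (hp : ∀ p : ℕ, p.Prime → p ∣ m → padicNorm p q ≤ 1) : ∃ t : ℤ, q = t := by
  have hden : q.den ∣ m := by
    obtain ⟨t, ht⟩ := h
    have hm' : (m : ℚ) ≠ 0 := by exact_mod_cast hm
    have e1 : q = (t : ℚ) / (m : ℤ) := by
      push_cast
      rw [← ht]; field_simp
    have h2 := Rat.den_dvd t (m : ℤ)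
    rw [Rat.divInt_eq_div, ← e1] at h2
    exact_mod_cast h2
  have h1 : q.den = 1 := by
    by_contra hne
    obtain ⟨p, hpp, hpd⟩ := Nat.exists_prime_and_dvd hne
    have h3 := hp p hpp (hpd.trans hden)
    have : Fact p.Prime := ⟨hpp⟩
    have h4 : ¬ padicNorm p q ≤ 1 := by
      rw [not_le]
      have hq0 : q ≠ 0 := by
        rintro rfl
        simp at hpd
        exact hpp.one_lt.ne' hpd
      have e2 : padicNorm p q = padicNorm p q.num / padicNorm p q.den := by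
        have e5 : q = (q.num : ℚ) / (q.den : ℚ) := (Rat.num_div_den q).symm
        have e6 := padicNorm.div (p := p) (q.num : ℚ) (q.den : ℚ)
        rw [← e5] at e6
        exact e6
      have e3 : padicNorm p (q.num : ℚ) = 1 := by
        rw [padicNorm.int_eq_one_iff]
        intro h5
        have h6 := q.reduced
        have h7 : p ∣ q.num.natAbs := Int.natCast_dvd.1 h5
        exact Nat.not_coprime_of_dvd_of_dvd hpp.one_lt h7 hpd h6
      have e4 : padicNorm p (q.den : ℚ) < 1 := by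
        have := (padicNorm.int_lt_one_iff (p := p) (q.den : ℤ)).2 (by exact_mod_cast hpd)
        simpa using this
      have e5 : 0 < padicNorm p (q.den : ℚ) := by
        rw [lt_iff_le_and_ne]
        exact ⟨padicNorm.nonneg _, (padicNorm.nonzero (by exact_mod_cast q.den_nz)).symm⟩
      rw [e2, e3, one_div]
      exact (one_lt_inv₀ e5).2 e4
    exact h4 h3
  exact ⟨q.num, by
    conv_lhs => rw [← Rat.num_div_den q, h1]
    simp⟩

/-- `d y²` integral and `d` squarefree imply `y` integral. -/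
theorem int_of_sq {d : ℕ} (hd : Squarefree d) {y : ℚ} (h : ∃ t : ℤ, (d : ℚ) * y ^ 2 = t) :
    ∃ s : ℤ, y = s := by
  obtain ⟨t, ht⟩ := h
  have h1 : y.den * y.den ∣ d := by
    have e0 : y * (y.den : ℚ) = y.num := Rat.mul_den_eq_num y
    have e1 : (d : ℚ) * y.num ^ 2 = t * (y.den : ℚ) ^ 2 := by
      rw [← ht, ← e0]
      ring
    have e2 : (d : ℤ) * y.num ^ 2 = t * (y.den : ℤ) ^ 2 := by exact_mod_cast e1
    have e3 : ((y.den : ℤ)) ^ 2 ∣ (d : ℤ) * y.num ^ 2 := ⟨t, by rw [e2]; ring⟩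
    have hcop : IsCoprime ((y.den : ℤ) ^ 2) (y.num ^ 2) := by
      apply IsCoprime.pow
      rw [Int.isCoprime_iff_gcd_eq_one, Int.gcd_comm]
      have := y.reduced
      simpa [Int.gcd] using this
    have e4 : ((y.den : ℤ)) ^ 2 ∣ (d : ℤ) := hcop.dvd_of_dvd_mul_right e3
    have e5 : y.den ^ 2 ∣ d := by exact_mod_cast e4
    rwa [pow_two] at e5
  have h2 : y.den = 1 := Nat.isUnit_iff.1 (hd _ h1)
  exact ⟨y.num, by
    conv_lhs => rw [← Rat.num_div_den y, h2]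
    simp⟩

/-- The equation for trace and norm. -/
theorem tr_nm {d : ℕ} (x : IQF d) : tr x ^ 2 + d * (2 * cB x) ^ 2 = 4 * nm x := by
  rw [tr, nm]; ring

theorem sq_mod_eight {a : ℤ} (h : a % 2 = 1) : a ^ 2 % 8 = 1 := by
  have h8 : a % 8 = 1 ∨ a % 8 = 3 ∨ a % 8 = 5 ∨ a % 8 = 7 := by omega
  rcases h8 with h8 | h8 | h8 | h8 <;> simp [pow_two, Int.mul_emod, h8]

/-- Elements of norm one: the primes of the denominator split. -/
theorem split_of_dvd {d : ℕ} (hd : Squarefree d) {ρ : IQF d} (hρ : nm ρ = 1) {p : ℕ}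
    (hp : p.Prime) (h : p ∣ (tr ρ).den) : Split d p := by
  set A : ℤ := (tr ρ).num with hA
  set N : ℕ := (tr ρ).den with hN
  have hN0 : (N : ℚ) ≠ 0 := by exact_mod_cast (tr ρ).den_nz
  have e1 := tr_nm ρ
  rw [hρ, mul_one, ← Rat.num_div_den (tr ρ), ← hA, ← hN] at e1
  have e2 : (A : ℚ) ^ 2 + d * (2 * cB ρ * N) ^ 2 = 4 * N ^ 2 := by
    have : ((A : ℚ) / N) ^ 2 * N ^ 2 = A ^ 2 := by field_simp
    linear_combination (N : ℚ) ^ 2 * e1 - this
  obtain ⟨y, hy⟩ := int_of_sq hd (y := 2 * cB ρ * N) ⟨4 * N ^ 2 - A ^ 2, by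
    push_cast; linear_combination e2⟩
  rw [hy] at e2
  have e3 : A ^ 2 + d * y ^ 2 = 4 * (N : ℤ) ^ 2 := by exact_mod_cast e2
  have hpA : ¬ (p : ℤ) ∣ A := by
    intro h5
    have h6 := (tr ρ).reduced
    have h7 : p ∣ (tr ρ).num.natAbs := Int.natCast_dvd.1 h5
    exact Nat.not_coprime_of_dvd_of_dvd hp.one_lt h7 h h6
  have hpN : (p : ℤ) ∣ (N : ℤ) := by exact_mod_cast h
  have hpi := Nat.prime_iff_prime_int.1 hp
  have hpd : ¬ p ∣ d := by
    intro h5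
    have h6 : (p : ℤ) ∣ (d : ℤ) := by exact_mod_cast h5
    apply hpA
    apply hpi.dvd_of_dvd_pow (n := 2)
    have : A ^ 2 = 4 * (N : ℤ) ^ 2 - d * y ^ 2 := by linear_combination e3
    rw [this]
    exact dvd_sub (dvd_mul_of_dvd_right (dvd_pow hpN two_ne_zero) _) (dvd_mul_of_dvd_left h6 _)
  have hpy : ¬ (p : ℤ) ∣ y := by
    intro h5
    apply hpA
    apply hpi.dvd_of_dvd_pow (n := 2)
    have : A ^ 2 = 4 * (N : ℤ) ^ 2 - d * y ^ 2 := by linear_combination e3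
    rw [this]
    exact dvd_sub (dvd_mul_of_dvd_right (dvd_pow hpN two_ne_zero) _)
      (dvd_mul_of_dvd_right (dvd_pow h5 two_ne_zero) _)
  have : Fact p.Prime := ⟨hp⟩
  refine ⟨hp, hpd, ⟨(A : ZMod p) / y, ?_⟩, ?_⟩
  · have h8 : ((A ^ 2 + d * y ^ 2 : ℤ) : ZMod p) = ((4 * (N : ℤ) ^ 2 : ℤ) : ZMod p) := by rw [e3]
    have h9 : ((N : ℤ) : ZMod p) = 0 := (ZMod.intCast_zmod_eq_zero_iff_dvd _ _).2 hpN
    have h10 : (y : ZMod p) ≠ 0 := by
      intro h11
      exact hpy ((ZMod.intCast_zmod_eq_zero_iff_dvd _ _).1 h11)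
    push_cast at h8 h9
    rw [h9] at h8
    field_simp
    linear_combination h8
  · rintro rfl
    have hAo : A % 2 = 1 := by
      have : ¬ (2 : ℤ) ∣ A := by exact_mod_cast hpA
      omega
    have hyo : y % 2 = 1 := by
      have : ¬ (2 : ℤ) ∣ y := by exact_mod_cast hpy
      omega
    obtain ⟨n, hn⟩ := hpN
    rw [hn] at e3
    have hA8 : A ^ 2 % 8 = 1 := sq_mod_eight hAo
    have hy8 : y ^ 2 % 8 = 1 := sq_mod_eight hyo
    have h12 : (A ^ 2 + d * y ^ 2) % 8 = 0 := by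
      rw [e3]
      have : 4 * (((2 : ℕ) : ℤ) * n) ^ 2 = 8 * (2 * n ^ 2) := by push_cast; ring
      rw [this]
      exact Int.mul_emod_right 8 _
    rw [Int.add_emod, Int.mul_emod, hA8, hy8] at h12
    omega

theorem padicNorm_of_dvd_den {t : ℚ} {p : ℕ} [hp : Fact p.Prime] (h : p ∣ t.den) :
    padicNorm p t = (p : ℚ) ^ (padicValNat p t.den) := by
  have hnum : ¬ (p : ℤ) ∣ t.num := by
    intro h5
    have h7 : p ∣ t.num.natAbs := Int.natCast_dvd.1 h5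
    exact Nat.not_coprime_of_dvd_of_dvd hp.out.one_lt h7 h t.reduced
  have e5 : t = (t.num : ℚ) / (t.den : ℚ) := (Rat.num_div_den t).symm
  have e6 := padicNorm.div (p := p) (t.num : ℚ) (t.den : ℚ)
  rw [← e5] at e6
  have e7 : (t.den : ℚ) ≠ 0 := by exact_mod_cast t.den_nz
  rw [e6, (padicNorm.int_eq_one_iff _).2 hnum, padicNorm.eq_zpow_of_nonzero e7,
    padicValRat.of_nat, zpow_neg, one_div, inv_inv, zpow_natCast]

theorem padicNorm_of_not_dvd_den {t : ℚ} {p : ℕ} [hp : Fact p.Prime] (h : ¬ p ∣ t.den) :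
    padicNorm p t ≤ 1 := by
  have := Padic.norm_rat_le_one (p := p) h
  rw [Padic.eq_padicNorm] at this
  exact_mod_cast this

section OQ

variable {d : ℕ}

theorem OQ_mul {x y : IQF d} (hx : x ∈ OQ d) (hy : y ∈ OQ d) : x * y ∈ OQ d :=
  IsIntegral.mul hx hy

theorem OQ_natCast (n : ℕ) : (n : IQF d) ∈ OQ d := by
  rw [mem_OQ]
  simpa using isIntegral_algebraMap (R := ℤ) (A := IQF d) (x := (n : ℤ))

theorem OQ_one : (1 : IQF d) ∈ OQ d := by simpa using OQ_natCast (d := d) 1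

theorem OQ_cj {x : IQF d} (hx : x ∈ OQ d) : cj x ∈ OQ d :=
  IsIntegral.map (cj.toIntAlgHom) hx

theorem tr_eq_of {x : IQF d} {q : ℚ} (h : x + cj x = (q : IQF d)) : tr x = q := by
  rw [add_cj] at h
  exact Rat.cast_injective h

theorem nm_eq_of {x : IQF d} {q : ℚ} (h : x * cj x = (q : IQF d)) : nm x = q := by
  rw [mul_cj] at h
  exact Rat.cast_injective h

theorem tr_natCast_mul (n : ℕ) (x : IQF d) : tr ((n : IQF d) * x) = n * tr x := by
  apply tr_eq_of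
  rw [map_mul, map_natCast]
  push_cast
  rw [← add_cj]
  ring

theorem nm_natCast_mul (n : ℕ) (x : IQF d) : nm ((n : IQF d) * x) = n ^ 2 * nm x := by
  apply nm_eq_of
  rw [map_mul, map_natCast]
  push_cast
  rw [← mul_cj]
  ring

/-- The localisation of the ring of integers at the primes outside `S`. -/
noncomputable def loc (S : Finset ℕ) (d : ℕ) : AddSubgroup (IQF d) where
  carrier := {x | ∃ m : ℕ, m ≠ 0 ∧ (∀ p : ℕ, p.Prime → p ∣ m → p ∈ S) ∧ (m : IQF d) * x ∈ OQ d}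
  zero_mem' := ⟨1, one_ne_zero, fun p hp h => absurd (Nat.dvd_one.1 h) hp.one_lt.ne', by
    rw [mul_zero]; exact (OQ d).zero_mem⟩
  add_mem' := by
    rintro x y ⟨m, hm, h1, h2⟩ ⟨m', hm', h1', h2'⟩
    refine ⟨m * m', mul_ne_zero hm hm', fun p hp h => ?_, ?_⟩
    · rcases hp.dvd_mul.1 h with h | h
      · exact h1 p hp h
      · exact h1' p hp h
    · have : ((m * m' : ℕ) : IQF d) * (x + y) =
          (m' : IQF d) * ((m : IQF d) * x) + (m : IQF d) * ((m' : IQF d) * y) := by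
        push_cast; ring
      rw [this]
      exact (OQ d).add_mem (OQ_mul (OQ_natCast _) h2) (OQ_mul (OQ_natCast _) h2')
  neg_mem' := by
    rintro x ⟨m, hm, h1, h2⟩
    refine ⟨m, hm, h1, ?_⟩
    rw [mul_neg]
    exact (OQ d).neg_mem h2

theorem mem_loc {S : Finset ℕ} {x : IQF d} : x ∈ loc S d ↔ ∃ m : ℕ, m ≠ 0 ∧
    (∀ p : ℕ, p.Prime → p ∣ m → p ∈ S) ∧ (m : IQF d) * x ∈ OQ d := Iff.rfl

theorem loc_mul {S : Finset ℕ} {x y : IQF d} (hx : x ∈ loc S d) (hy : y ∈ loc S d) :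
    x * y ∈ loc S d := by
  obtain ⟨m, hm, h1, h2⟩ := hx
  obtain ⟨m', hm', h1', h2'⟩ := hy
  refine ⟨m * m', mul_ne_zero hm hm', fun p hp h => ?_, ?_⟩
  · rcases hp.dvd_mul.1 h with h | h
    · exact h1 p hp h
    · exact h1' p hp h
  · have : ((m * m' : ℕ) : IQF d) * (x * y) =
        ((m : IQF d) * x) * ((m' : IQF d) * y) := by
      push_cast; ring
    rw [this]
    exact OQ_mul h2 h2'

theorem loc_of_OQ {S : Finset ℕ} {x : IQF d} (hx : x ∈ OQ d) : x ∈ loc S d :=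
  ⟨1, one_ne_zero, fun p hp h => absurd (Nat.dvd_one.1 h) hp.one_lt.ne', by
    rw [Nat.cast_one, one_mul]; exact hx⟩

theorem loc_cj {S : Finset ℕ} {x : IQF d} (hx : x ∈ loc S d) : cj x ∈ loc S d := by
  obtain ⟨m, hm, h1, h2⟩ := hx
  refine ⟨m, hm, h1, ?_⟩
  have := OQ_cj h2
  rwa [map_mul, map_natCast] at this

/-- Multiplication by a prime of `S`. -/
theorem loc_prime {S : Finset ℕ} {q : ℕ} (hq : q.Prime) (hqS : q ∈ S) (x : IQF d) :
    (q : IQF d) * x ∈ loc S d ↔ x ∈ loc S d := by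
  constructor
  · rintro ⟨m, hm, h1, h2⟩
    refine ⟨m * q, mul_ne_zero hm hq.ne_zero, fun p hp h => ?_, ?_⟩
    · rcases hp.dvd_mul.1 h with h | h
      · exact h1 p hp h
      · rw [(Nat.prime_dvd_prime_iff_eq hp hq).1 h]
        exact hqS
    · push_cast
      rw [mul_assoc]
      exact h2
  · exact fun h => loc_mul (loc_of_OQ (OQ_natCast q)) h

/-- Elements of norm one. -/
theorem loc_rot {S : Finset ℕ} {ρ : IQF d} (h1 : ρ * cj ρ = 1) (hρ : ρ ∈ loc S d) (x : IQF d) :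
    ρ * x ∈ loc S d ↔ x ∈ loc S d := by
  constructor
  · intro h
    have h2 := loc_mul (loc_cj hρ) h
    rwa [← mul_assoc, mul_comm (cj ρ) ρ, h1, one_mul] at h2
  · exact fun h => loc_mul hρ h

theorem den_mul_mem {ρ : IQF d} (h1 : nm ρ = 1) : ((tr ρ).den : IQF d) * ρ ∈ OQ d := by
  rw [mem_OQ_iff, tr_natCast_mul, nm_natCast_mul, h1]
  refine ⟨⟨(tr ρ).num, ?_⟩, ⟨((tr ρ).den : ℤ) ^ 2, by push_cast; ring⟩⟩
  rw [mul_comm]
  exact Rat.mul_den_eq_num _

end OQ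

section Place

variable {d p : ℕ} {u : IQF d → ℝ}

theorem Place.one (h : Place d p u) : u 1 = 1 := by
  have := h.rat 1
  rwa [Rat.cast_one, padicNorm.one, Rat.cast_one] at this

theorem Place.pow (h : Place d p u) (x : IQF d) (n : ℕ) : u (x ^ n) = u x ^ n := by
  induction n with
  | zero => rw [pow_zero, pow_zero, h.one]
  | succ n ih => rw [pow_succ, pow_succ, h.mul, ih]

theorem Place.le_one_rat (h : Place d p u) {q : ℚ} (hq : ∃ t : ℤ, q = t) :
    u (q : IQF d) ≤ 1 := by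
  obtain ⟨t, rfl⟩ := hq
  rw [h.rat]
  have : Fact p.Prime := ⟨h.prime⟩
  have h2 := padicNorm.of_int (p := p) t
  exact_mod_cast h2

theorem Place.le_one (h : Place d p u) {x : IQF d} (hx : x ∈ OQ d) : u x ≤ 1 := by
  rw [mem_OQ_iff] at hx
  have h1 := h.le_one_rat hx.1
  have h2 := h.le_one_rat hx.2
  by_contra hcon
  push Not at hcon
  have e1 : u (x * x) ≤ max (u ((tr x : IQF d) * x)) (u (-(nm x : IQF d))) := by
    rw [poly_eq, sub_eq_add_neg]
    exact h.add _ _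
  rw [h.mul, h.mul, h.neg] at e1
  have e2 : max (u (tr x : IQF d) * u x) (u (nm x : IQF d)) ≤ u x := by
    refine max_le ?_ (h2.trans hcon.le)
    calc u (tr x : IQF d) * u x ≤ 1 * u x :=
          mul_le_mul_of_nonneg_right h1 (by linarith)
      _ = u x := one_mul _
  nlinarith

/-- Local to global. -/
theorem mem_OQ_of_loc {S : Finset ℕ} {x : IQF d} (hx : x ∈ loc S d)
    (h : ∀ p ∈ S, ∃ u, Place d p u ∧ u x ≤ 1 ∧ u (cj x) ≤ 1) : x ∈ OQ d := by
  obtain ⟨m, hm, h1, h2⟩ := hx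
  rw [mem_OQ_iff] at h2 ⊢
  obtain ⟨⟨t, ht⟩, n, hn⟩ := h2
  rw [tr_natCast_mul] at ht
  rw [nm_natCast_mul] at hn
  constructor
  · refine rat_int hm ⟨t, ht⟩ fun p hp hpm => ?_
    obtain ⟨u, hu, hu1, hu2⟩ := h p (h1 p hp hpm)
    have e1 := hu.rat (tr x)
    have e2 := hu.add x (cj x)
    rw [add_cj, e1] at e2
    have e3 := e2.trans (max_le hu1 hu2)
    exact_mod_cast e3
  · refine rat_int (m := m ^ 2) (pow_ne_zero 2 hm) ⟨n, by push_cast; exact hn⟩
      fun p hp hpm => ?_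
    obtain ⟨u, hu, hu1, hu2⟩ := h p (h1 p hp (hp.dvd_of_dvd_pow hpm))
    have e1 := hu.rat (nm x)
    have e2 := hu.mul x (cj x)
    rw [mul_cj, e1] at e2
    have e4 : u (cj x) = 0 ∨ 0 ≤ u (cj x) := by
      rcases eq_or_ne (cj x) 0 with h0 | h0
      · left; rw [h0, hu.zero]
      · right
        obtain ⟨k, hk⟩ := hu.int _ h0
        rw [hk]; positivity
    have e5 : 0 ≤ u (cj x) := by
      rcases e4 with e4 | e4
      · exact e4.ge
      · exact e4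
    have e3 : u x * u (cj x) ≤ 1 := mul_le_one₀ hu1 e5 hu2
    rw [← e2] at e3
    exact_mod_cast e3

/-- The balls. -/
noncomputable def ball (u : IQF d → ℝ) (r : ℝ) : AddSubgroup (IQF d) :=
  AddSubgroup.closure {x | u x ≤ r}

theorem Place.mem_ball (h : Place d p u) {r : ℝ} (hr : 0 ≤ r) {x : IQF d} :
    x ∈ ball u r ↔ u x ≤ r := by
  constructor
  · intro hx
    refine AddSubgroup.closure_induction (p := fun x _ => u x ≤ r) (fun x hx => hx)
      (by rw [h.zero]; exact hr) (fun x y _ _ h1 h2 => (h.add x y).trans (max_le h1 h2))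
      (fun x _ h1 => by rw [h.neg]; exact h1) hx
  · exact fun hx => AddSubgroup.subset_closure hx

theorem Place.pow_pos (h : Place d p u) (k : ℤ) : 0 < (p : ℝ) ^ k := by
  have : (0 : ℝ) < p := by exact_mod_cast h.prime.pos
  positivity

theorem Place.mem_ball' (h : Place d p u) {k : ℤ} {x : IQF d} :
    x ∈ ball u ((p : ℝ) ^ (-k)) ↔ u x ≤ (p : ℝ) ^ (-k) := h.mem_ball (h.pow_pos _).le

/-- Multiplication moves the balls. -/
theorem Place.ball_mul (h : Place d p u) {y : IQF d} {e : ℤ} (hy : u y = (p : ℝ) ^ e) (k : ℤ)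
    (x : IQF d) : y * x ∈ ball u ((p : ℝ) ^ (-(k - e))) ↔ x ∈ ball u ((p : ℝ) ^ (-k)) := by
  rw [h.mem_ball', h.mem_ball', h.mul, hy]
  have hp : (p : ℝ) ≠ 0 := by exact_mod_cast h.prime.ne_zero
  rw [show (-(k - e) : ℤ) = e + -k by ring, zpow_add₀ hp]
  exact mul_le_mul_iff_right₀ (h.pow_pos e)

theorem Place.cj_eq (h : Place d p u) {ρ : IQF d} (h1 : ρ * cj ρ = 1) {e : ℤ}
    (hρ : u ρ = (p : ℝ) ^ e) : u (cj ρ) = (p : ℝ) ^ (-e) := by
  have h2 := h.mul ρ (cj ρ)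
  rw [h1, h.one, hρ] at h2
  rw [zpow_neg]
  exact eq_inv_of_mul_eq_one_right h2.symm

theorem Place.prime_eq (h : Place d p u) {q : ℕ} (hq : q.Prime) :
    u (q : IQF d) = (p : ℝ) ^ (if q = p then (-1 : ℤ) else 0) := by
  have : Fact p.Prime := ⟨h.prime⟩
  have : Fact q.Prime := ⟨hq⟩
  have e1 := h.rat (q : ℚ)
  rw [Rat.cast_natCast] at e1
  rw [e1]
  split_ifs with hqp
  · subst hqp
    rw [padicNorm.padicNorm_p_of_prime]
    push_cast
    rw [zpow_neg_one]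
  · rw [padicNorm.padicNorm_of_prime_of_ne (Ne.symm hqp)]
    simp

theorem Place.scale (h : Place d p u) {q : ℕ} (hq : q.Prime) (k : ℤ) (x : IQF d) :
    (q : IQF d) * x ∈ ball u ((p : ℝ) ^ (-(if q = p then k + 1 else k))) ↔
      x ∈ ball u ((p : ℝ) ^ (-k)) := by
  have h1 := h.ball_mul (h.prime_eq hq) k x
  rw [← h1]
  split_ifs <;> simp

end Place

/-- The value of the denominator at one prime. -/
theorem den_val {d p : ℕ} {u : IQF d → ℝ} (h : Place d p u) {ρ : IQF d} (h1 : ρ * cj ρ = 1)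
    {e : ℤ} (hρ : u ρ = (p : ℝ) ^ e) : padicValNat p (tr ρ).den = e.natAbs := by
  have hf : Fact p.Prime := ⟨h.prime⟩
  have h2 := h.cj_eq h1 hρ
  have hp1 : (1 : ℝ) < p := by exact_mod_cast h.prime.one_lt
  have h3 := h.rat (tr ρ)
  rw [← add_cj] at h3
  rcases eq_or_ne e 0 with rfl | he
  · have h4 := h.add ρ (cj ρ)
    rw [h3, hρ, h2] at h4
    simp only [zpow_zero, neg_zero, max_self] at h4
    rw [Int.natAbs_zero]
    apply padicValNat.eq_zero_of_not_dvd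
    intro h5
    have h6 := padicNorm_of_dvd_den h5
    have h7 : 1 ≤ padicValNat p (tr ρ).den :=
      one_le_padicValNat_of_dvd (tr ρ).den_nz h5
    rw [h6] at h4
    have h8 : (1 : ℚ) < (p : ℚ) ^ padicValNat p (tr ρ).den :=
      one_lt_pow₀ (by exact_mod_cast h.prime.one_lt) (by omega)
    have h9 : (p : ℚ) ^ padicValNat p (tr ρ).den ≤ 1 := by exact_mod_cast h4
    linarith
  · have hmono := zpow_right_strictMono₀ hp1
    have hne : u ρ ≠ u (cj ρ) := by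
      rw [hρ, h2]
      intro h5
      have := hmono.injective h5
      omega
    have h4 := h.addne ρ (cj ρ) hne
    rw [h3, hρ, h2, ← hmono.monotone.map_max] at h4
    have h5 : max e (-e) = (e.natAbs : ℤ) := by omega
    rw [h5, zpow_natCast] at h4
    have h6 : padicNorm p (tr ρ) = (p : ℚ) ^ e.natAbs := by
      have : ((padicNorm p (tr ρ) : ℚ) : ℝ) = (((p : ℚ) ^ e.natAbs : ℚ) : ℝ) := by
        rw [h4]; push_cast; rfl
      exact_mod_cast this
    have h7 : p ∣ (tr ρ).den := by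
      by_contra h8
      have h9 := padicNorm_of_not_dvd_den h8
      rw [h6] at h9
      have h10 : (1 : ℚ) < (p : ℚ) ^ e.natAbs :=
        one_lt_pow₀ (by exact_mod_cast h.prime.one_lt) (by omega)
      linarith
    have h8 := padicNorm_of_dvd_den h7
    rw [h6] at h8
    have h9 : (1 : ℚ) < (p : ℚ) := by exact_mod_cast h.prime.one_lt
    exact (pow_right_injective₀ (by linarith) h9.ne' h8).symm

/-- **The arithmetic statement.** -/
theorem stmt_arith_den : StmtArithDen := by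
  intro d hd M hM
  classical
  have hd0 : 0 < d := Nat.pos_of_ne_zero hd.ne_zero
  have hM1 : ∀ ρ ∈ M, ρ * cj ρ = 1 := fun ρ hρ => mul_cj_of_norm_one (hM ρ hρ)
  have hMn : ∀ ρ ∈ M, nm ρ = 1 := fun ρ hρ => nm_of_norm_one (hM ρ hρ)
  have hM0 : ∀ ρ ∈ M, ρ ≠ 0 := by
    intro ρ hρ h0
    have := hM1 ρ hρ
    rw [h0, zero_mul] at this
    exact zero_ne_one this
  set S : Finset ℕ := M.biUnion (fun ρ => (tr ρ).den.primeFactors) with hS
  have hSmem : ∀ p, p ∈ S ↔ ∃ ρ ∈ M, p.Prime ∧ p ∣ (tr ρ).den := by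
    intro p
    rw [hS, mem_biUnion]
    refine exists_congr fun ρ => and_congr_right fun _ => ?_
    rw [Nat.mem_primeFactors]
    exact ⟨fun h => ⟨h.1, h.2.1⟩, fun h => ⟨h.1, h.2, (tr ρ).den_nz⟩⟩
  have hsplit : ∀ p ∈ S, Split d p := by
    intro p hp
    obtain ⟨ρ, hρ, hp1, hp2⟩ := (hSmem p).1 hp
    exact split_of_dvd hd (hMn ρ hρ) hp1 hp2
  have hex : ∀ p ∈ S, ∃ u, Place d p u := fun p hp => (hsplit p hp).exists_place hd0
  choose! u hu using hex
  have hex2 : ∀ p ∈ S, ∀ x, x ≠ 0 → ∃ k : ℤ, u p x = (p : ℝ) ^ k := fun p hp => (hu p hp).int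
  choose! o ho using hex2
  have hloc : ∀ ρ ∈ M, ρ ∈ loc S d := by
    intro ρ hρ
    refine ⟨(tr ρ).den, (tr ρ).den_nz, fun p hp h => (hSmem p).2 ⟨ρ, hρ, hp, h⟩, ?_⟩
    exact den_mul_mem (hMn ρ hρ)
  have hρu : ∀ ρ ∈ M, ∀ p ∈ S, u p ρ = (p : ℝ) ^ (o p ρ) := fun ρ hρ p hp =>
    ho p hp ρ (hM0 ρ hρ)
  have hρv : ∀ ρ ∈ M, ∀ p ∈ S, u p (cj ρ) = (p : ℝ) ^ (-o p ρ) := fun ρ hρ p hp =>
    (hu p hp).cj_eq (hM1 ρ hρ) (hρu ρ hρ p hp)
  have hdiv : ∀ ρ ∈ M, ∀ ρ' ∈ M, ρ / ρ' = ρ * cj ρ' := by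
    intro ρ hρ ρ' hρ'
    rw [div_eq_iff (hM0 ρ' hρ')]
    linear_combination -ρ * hM1 ρ' hρ'
  have hdu : ∀ ρ ∈ M, ∀ ρ' ∈ M, ∀ p ∈ S, u p (ρ * cj ρ') = (p : ℝ) ^ (o p ρ - o p ρ') := by
    intro ρ hρ ρ' hρ' p hp
    have hp0 : (p : ℝ) ≠ 0 := by exact_mod_cast (hsplit p hp).1.ne_zero
    rw [(hu p hp).mul, hρu ρ hρ p hp, hρv ρ' hρ' p hp, ← zpow_add₀ hp0, sub_eq_add_neg]
  have hdv : ∀ ρ ∈ M, ∀ ρ' ∈ M, ∀ p ∈ S, u p (cj (ρ * cj ρ')) =
      (p : ℝ) ^ (-(o p ρ - o p ρ')) := by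
    intro ρ hρ ρ' hρ' p hp
    refine (hu p hp).cj_eq ?_ (hdu ρ hρ ρ' hρ' p hp)
    rw [map_mul, cj_cj]
    linear_combination (ρ' * cj ρ') * hM1 ρ hρ + hM1 ρ' hρ'
  refine ⟨S, fun ρ p => o p ρ, fun p k => ball (u p) ((p : ℝ) ^ (-k)),
    fun p k => ball (fun x => u p (cj x)) ((p : ℝ) ^ (-k)), loc S d,
    fun p hp => (hsplit p hp).1, ?_, ?_, ?_, ?_, ?_, ?_, ?_, ?_, ?_, ?_⟩
  · -- ball data
    refine ⟨fun p hp => (hsplit p hp).1.pos, hM0, ?_, ?_, ?_, ?_, ?_, ?_, ?_⟩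
    · intro p hp k k' hkk x hx
      have hp1 : (1 : ℝ) ≤ p := by exact_mod_cast (hsplit p hp).1.one_lt.le
      rw [(hu p hp).mem_ball'] at hx ⊢
      exact hx.trans (zpow_le_zpow_right₀ hp1 (by omega))
    · intro p hp k k' hkk x hx
      have hp1 : (1 : ℝ) ≤ p := by exact_mod_cast (hsplit p hp).1.one_lt.le
      rw [(hu p hp).conj.mem_ball'] at hx ⊢
      exact hx.trans (zpow_le_zpow_right₀ hp1 (by omega))
    · intro p hp k n T h1 h2
      refine (hu p hp).idx k n T (fun x hx => (hu p hp).mem_ball'.1 (h1 x hx)) ?_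
      intro x hx y hy hxy
      exact h2 x hx y hy ((hu p hp).mem_ball'.2 hxy)
    · intro p hp k n T h1 h2
      refine (hu p hp).conj.idx k n T (fun x hx => (hu p hp).conj.mem_ball'.1 (h1 x hx)) ?_
      intro x hx y hy hxy
      exact h2 x hx y hy ((hu p hp).conj.mem_ball'.2 hxy)
    · intro ρ hρ p hp k x
      exact (hu p hp).ball_mul (hρu ρ hρ p hp) k x
    · intro ρ hρ p hp k x
      have := (hu p hp).conj.ball_mul (hρv ρ hρ p hp) k x
      rwa [sub_neg_eq_add] at this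
    · intro ρ hρ x
      exact loc_rot (hM1 ρ hρ) (hloc ρ hρ) x
  · -- local to global
    intro x
    constructor
    · intro hx
      refine ⟨loc_of_OQ hx, fun p hp => ⟨(hu p hp).mem_ball'.2 ?_,
        (hu p hp).conj.mem_ball'.2 ?_⟩⟩
      · rw [neg_zero, zpow_zero]; exact (hu p hp).le_one hx
      · rw [neg_zero, zpow_zero]; exact (hu p hp).conj.le_one hx
    · rintro ⟨h1, h2⟩
      refine mem_OQ_of_loc h1 fun p hp => ⟨u p, hu p hp, ?_, ?_⟩
      · have := (hu p hp).mem_ball'.1 (h2 p hp).1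
        rwa [neg_zero, zpow_zero] at this
      · have := (hu p hp).conj.mem_ball'.1 (h2 p hp).2
        rwa [neg_zero, zpow_zero] at this
  · intro p hp q hq k x
    exact (hu p hp).scale (hsplit q hq).1 k x
  · intro p hp q hq k x
    exact (hu p hp).conj.scale (hsplit q hq).1 k x
  · intro q hq x
    exact loc_prime (hsplit q hq).1 hq x
  · -- units
    intro ρ hρ ρ' hρ' he
    replace he : ∀ p ∈ S, o p ρ = o p ρ' := he
    rw [hdiv ρ hρ ρ' hρ']
    refine mem_OQ_of_loc (loc_mul (hloc ρ hρ) (loc_cj (hloc ρ' hρ'))) fun p hp =>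
      ⟨u p, hu p hp, ?_, ?_⟩
    · rw [hdu ρ hρ ρ' hρ' p hp, he p hp, sub_self, zpow_zero]
    · rw [hdv ρ hρ ρ' hρ' p hp, he p hp, sub_self, neg_zero, zpow_zero]
  · intro p hp
    exact ⟨(hsplit p hp).2.1, (hsplit p hp).2.2.1⟩
  · intro h2
    exact (hsplit 2 h2).2.2.2 rfl
  · -- gaps at 2
    intro ρ hρ ρ' hρ' he h2 hne
    replace he : ∀ p ∈ S, p ≠ 2 → o p ρ = o p ρ' := he
    replace hne : o 2 ρ ≠ o 2 ρ' := hne
    show ∃ a f : ℤ, Odd a ∧ a ^ 2 + d * f ^ 2 = 4 ^ ((o 2 ρ - o 2 ρ').natAbs + 1)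
    set m : ℤ := o 2 ρ - o 2 ρ' with hm
    set n : ℕ := m.natAbs with hn
    have hn1 : 1 ≤ n := by omega
    set x : IQF d := ρ * cj ρ' with hx
    have hxx : x * cj x = 1 := by
      rw [hx, map_mul, cj_cj]
      linear_combination (ρ' * cj ρ') * hM1 ρ hρ + hM1 ρ' hρ'
    have hxl : x ∈ loc S d := loc_mul (hloc ρ hρ) (loc_cj (hloc ρ' hρ'))
    set w : IQF d := ((2 ^ n : ℕ) : IQF d) * x with hw
    have e1 : u 2 ((2 ^ n : ℕ) : IQF d) = ((2 : ℕ) : ℝ) ^ (-(n : ℤ)) := by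
      have e2 := (hu 2 h2).prime_eq Nat.prime_two
      rw [if_pos rfl] at e2
      rw [Nat.cast_pow, (hu 2 h2).pow, e2, ← zpow_natCast, ← zpow_mul]
      congr 1
      ring
    have two0 : ((2 : ℕ) : ℝ) ≠ 0 := by norm_num
    have ew : u 2 w = ((2 : ℕ) : ℝ) ^ (-(n : ℤ) + m) := by
      rw [hw, (hu 2 h2).mul, e1, hdu ρ hρ ρ' hρ' 2 h2, ← hm, zpow_add₀ two0]
    have ew' : u 2 (cj w) = ((2 : ℕ) : ℝ) ^ (-(n : ℤ) + -m) := by
      rw [hw, map_mul, map_natCast, (hu 2 h2).mul, e1, hdv ρ hρ ρ' hρ' 2 h2, ← hm,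
        zpow_add₀ two0]
    have hwO : w ∈ OQ d := by
      refine mem_OQ_of_loc (loc_mul (loc_of_OQ (OQ_natCast _)) hxl) fun p hp =>
        ⟨u p, hu p hp, ?_, ?_⟩
      · rcases eq_or_ne p 2 with rfl | hp2
        · rw [ew]
          exact zpow_le_one_of_nonpos₀ (by norm_num) (by omega)
        · rw [hw, (hu p hp).mul, hdu ρ hρ ρ' hρ' p hp, he p hp hp2, sub_self, zpow_zero, mul_one]
          exact (hu p hp).le_one (OQ_natCast _)
      · rcases eq_or_ne p 2 with rfl | hp2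
        · rw [ew']
          exact zpow_le_one_of_nonpos₀ (by norm_num) (by omega)
        · rw [hw, map_mul, map_natCast, (hu p hp).mul, hdv ρ hρ ρ' hρ' p hp, he p hp hp2,
            sub_self, neg_zero, zpow_zero, mul_one]
          exact (hu p hp).le_one (OQ_natCast _)
    obtain ⟨⟨t, ht⟩, -⟩ := (mem_OQ_iff w).1 hwO
    have hnm : nm w = 4 ^ n := by
      rw [hw, nm_natCast_mul, nm_eq_of (q := 1) (by rw [hxx, Rat.cast_one]), mul_one]
      push_cast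
      rw [← pow_mul, mul_comm, pow_mul]
      norm_num
    have hodd : Odd t := by
      have hmono := zpow_right_strictMono₀ (a := ((2 : ℕ) : ℝ)) (by norm_num)
      have hne' : u 2 w ≠ u 2 (cj w) := by
        rw [ew, ew']
        intro h5
        have := hmono.injective h5
        omega
      have h4 := (hu 2 h2).addne w (cj w) hne'
      rw [add_cj, (hu 2 h2).rat, ew, ew', ← hmono.monotone.map_max] at h4
      have h5 : max (-(n : ℤ) + m) (-(n : ℤ) + -m) = 0 := by omega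
      rw [h5, zpow_zero, ht] at h4
      have h6 : padicNorm 2 (t : ℚ) = 1 := by exact_mod_cast h4
      rw [padicNorm.int_eq_one_iff] at h6
      rw [Int.odd_iff]
      push_cast at h6
      omega
    have h7 := tr_nm w
    rw [ht, hnm] at h7
    obtain ⟨f, hf⟩ := int_of_sq hd (y := 2 * cB w) ⟨4 * 4 ^ n - t ^ 2, by
      push_cast; linear_combination h7⟩
    rw [hf] at h7
    refine ⟨t, f, hodd, ?_⟩
    have h8 : t ^ 2 + (d : ℤ) * f ^ 2 = 4 * 4 ^ n := by exact_mod_cast h7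
    rw [h8, pow_succ, mul_comm]
  · -- the denominator
    intro ρ hρ
    have hden : ∏ p ∈ S, p ^ (o p ρ).natAbs = (tr ρ).den := by
      have h1 := Nat.prod_factorization_pow_eq_self (tr ρ).den_nz
      have h2 : (tr ρ).den.factorization.support ⊆ S := by
        intro p hp
        rw [Nat.support_factorization, Nat.mem_primeFactors] at hp
        exact (hSmem p).2 ⟨ρ, hρ, hp.1, hp.2.1⟩
      rw [Finsupp.prod_of_support_subset _ h2 _ (fun p _ => pow_zero p)] at h1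
      rw [← h1]
      refine prod_congr rfl fun p hp => ?_
      rw [Nat.factorization_def _ (hsplit p hp).1, den_val (hu p hp) (hM1 ρ hρ) (hρu ρ hρ p hp)]
    refine ⟨(tr ρ).num, ?_, ?_⟩
    · rw [hden, Int.isCoprime_iff_gcd_eq_one]
      exact (tr ρ).reduced
    · rw [hden, coe_re]
      have h1 : tr ρ * (tr ρ).den = (tr ρ).num := Rat.mul_den_eq_num _
      have h2 : ((tr ρ : ℚ) : ℝ) * ((tr ρ).den : ℝ) = ((tr ρ).num : ℝ) := by exact_mod_cast h1
      rw [← h2, tr]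
      push_cast
      ring

theorem stmt_arith : StmtArith := by
  intro d hd M hM
  obtain ⟨S, e, U, V, Λ', h1, h2, h3, h4, h5, h6, h7, h8, h9, h10, h11⟩ :=
    stmt_arith_den d hd M hM
  refine ⟨S, e, U, V, Λ', h1, h2, h3, h4, h5, h6, h7, h8, h9, fun ρ hρ => ?_, h10⟩
  obtain ⟨a, ha1, ha2⟩ := h11 ρ hρ
  refine ⟨a, by push_cast at ha1; exact ha1, ?_⟩
  have hpos : (0 : ℝ) < ∏ p ∈ S, (p : ℝ) ^ (e ρ p).natAbs :=
    prod_pos fun p hp => pow_pos (by exact_mod_cast (h1 p hp).pos) _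
  rw [eq_div_iff hpos.ne', ← ha2]
  push_cast
  ring

end Pool.Agent.Work.MP_dc37f8_rat
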