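import Mathlib

/-!
# MP_dc37f8_co: the numerical statement used in the key theorem
-/

open Finset Real

namespace Pool.Agent.Work.MP_dc37f8_rat

open Classical in
/-- **The numerical statement**: `J` the rotations, `S` the split primes, `e` the exponents. -/
def StmtNumFinal : Prop :=
  ∀ (ι : Type) (J : Finset ι) (S : Finset ℕ) (e : ι → ℕ → ℤ) (d : ℕ), Squarefree d →
    (∀ p ∈ S, p.Prime) →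
    (∀ p ∈ S, ¬ p ∣ d ∧ ∃ x : ZMod p, x ^ 2 = -(d : ZMod p)) →
    (2 ∈ S → d % 8 = 7) →
    (∀ ρ ∈ J, (J.filter (fun ρ' => ∀ p ∈ S, e ρ' p = e ρ p)).card ≤
      if d = 1 then 4 else if d = 3 then 6 else 2) →
    (∀ ρ ∈ J, ∀ ρ' ∈ J, (∀ p ∈ S, p ≠ 2 → e ρ p = e ρ' p) → 2 ∈ S → e ρ 2 ≠ e ρ' 2 →
      ∃ a f : ℤ, Odd a ∧ a ^ 2 + d * f ^ 2 = 4 ^ ((e ρ 2 - e ρ' 2).natAbs + 1)) →
    ∀ f : ℕ → ℝ, ∑ ρ ∈ J, ∏ p ∈ S, ((cosh (e ρ p * log p - f p)) ^ 2)⁻¹ ≤ 7.86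

open Classical in
/-- The numerical statement with a constant `C`. -/
def StmtNumC (C : ℝ) : Prop :=
  ∀ (ι : Type) (J : Finset ι) (S : Finset ℕ) (e : ι → ℕ → ℤ) (d : ℕ), Squarefree d →
    (∀ p ∈ S, p.Prime) →
    (∀ p ∈ S, ¬ p ∣ d ∧ ∃ x : ZMod p, x ^ 2 = -(d : ZMod p)) →
    (2 ∈ S → d % 8 = 7) →
    (∀ ρ ∈ J, (J.filter (fun ρ' => ∀ p ∈ S, e ρ' p = e ρ p)).card ≤
      if d = 1 then 4 else if d = 3 then 6 else 2) →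
    (∀ ρ ∈ J, ∀ ρ' ∈ J, (∀ p ∈ S, p ≠ 2 → e ρ p = e ρ' p) → 2 ∈ S → e ρ 2 ≠ e ρ' 2 →
      ∃ a f : ℤ, Odd a ∧ a ^ 2 + d * f ^ 2 = 4 ^ ((e ρ 2 - e ρ' 2).natAbs + 1)) →
    ∀ f : ℕ → ℝ, ∑ ρ ∈ J, ∏ p ∈ S, ((cosh (e ρ p * log p - f p)) ^ 2)⁻¹ ≤ C

end Pool.Agent.Work.MP_dc37f8_rat
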