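import Pool.Agent.Work.MP_dc37f8_rat.KeyUnits
import Pool.Agent.Work.MP_dc37f8_rat.KeyNumStmt

/-!
# MP_dc37f8_co: the key theorem in the form used by the reduction (helper92's `Stmt_KEYF`)
-/

open Finset

namespace Pool.Agent.Work.MP_dc37f8_rat

/-- `θ_D`: `(1 + √-D)/2` or `√-D`. -/
noncomputable def thD (D : ℕ) : ℂ :=
  if D % 4 = 3 then (1 + (Real.sqrt D : ℂ) * Complex.I) / 2 else (Real.sqrt D : ℂ) * Complex.I

/-- `O_D = ℤ + ℤ θ_D`. -/
noncomputable def OD (D : ℕ) : AddSubgroup ℂ where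
  carrier := {x | ∃ i j : ℤ, x = i + j * thD D}
  add_mem' := by
    rintro _ _ ⟨i, j, rfl⟩ ⟨i', j', rfl⟩
    exact ⟨i + i', j + j', by push_cast; ring⟩
  zero_mem' := ⟨0, 0, by simp⟩
  neg_mem' := by
    rintro _ ⟨i, j, rfl⟩
    exact ⟨-i, -j, by push_cast; ring⟩

/-- `F_D = ℚ + ℚ θ_D`. -/
def FD (D : ℕ) : Set ℂ := {x | ∃ a b : ℚ, x = a + b * thD D}

/-- `x ∈ O + ρ O`. -/
def Lk (D : ℕ) (ρ x : ℂ) : Prop := ∃ a ∈ OD D, ∃ b ∈ OD D, x = a + ρ * b

theorem FD_subset {D : ℕ} {x : ℂ} (hx : x ∈ FD D) : x ∈ IQF D := by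
  obtain ⟨a, b, rfl⟩ := hx
  unfold thD
  split_ifs
  · refine mem_IQF.2 ⟨a + b / 2, b / 2, ?_⟩
    unfold sq
    push_cast
    ring
  · exact mem_IQF.2 ⟨a, b, rfl⟩

theorem mod4_of_squarefree {D : ℕ} (hD : Squarefree D) : D % 4 ≠ 0 := by
  intro h
  have h1 : 2 * 2 ∣ D := Nat.dvd_of_mod_eq_zero h
  have h2 := hD 2 h1
  rw [Nat.isUnit_iff] at h2
  exact absurd h2 (by norm_num)

/-- `O_D` is the set of the integral elements. -/
theorem mem_OD_iff {D : ℕ} (hD : Squarefree D) {x : ℂ} :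
    x ∈ OD D ↔ ∃ y : IQF D, y ∈ OQ D ∧ (y : ℂ) = x := by
  have hth : thD D ∈ IQF D ∧ IsIntegral ℤ (thD D) := by
    constructor
    · exact FD_subset ⟨0, 1, by simp⟩
    · unfold thD
      split_ifs with h
      · set q : ℕ := (D + 1) / 4 with hq
        have hq4 : D + 1 = 4 * q := by omega
        have hroot : ((1 + (Real.sqrt D : ℂ) * Complex.I) / 2) ^ 2 -
            (1 + (Real.sqrt D : ℂ) * Complex.I) / 2 + (q : ℂ) = 0 := by
          have h1 := sq_sq D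
          have h2 : ((D : ℂ) + 1) = 4 * q := by exact_mod_cast hq4
          unfold sq at h1
          linear_combination (1 / 4 : ℂ) * h1 - (1 / 4 : ℂ) * h2
        refine ⟨Polynomial.X ^ 2 - Polynomial.X + Polynomial.C (q : ℤ), ?_, ?_⟩
        · have : (Polynomial.X ^ 2 - Polynomial.X + Polynomial.C (q : ℤ) : Polynomial ℤ) =
            Polynomial.X ^ 2 + (-Polynomial.X + Polynomial.C (q : ℤ)) := by ring
          rw [this]
          refine Polynomial.monic_X_pow_add (n := 2) ?_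
          refine lt_of_le_of_lt (Polynomial.degree_add_le _ _) (max_lt ?_ ?_)
          · rw [Polynomial.degree_neg, Polynomial.degree_X]
            norm_num
          · exact lt_of_le_of_lt Polynomial.degree_C_le (by norm_num)
        · simp only [Polynomial.eval₂_add, Polynomial.eval₂_sub, Polynomial.eval₂_pow,
            Polynomial.eval₂_X, Polynomial.eval₂_C]
          convert hroot using 2
          simp
      · exact isIntegral_coe_iff.1 (sq_mem_OQ D)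
  constructor
  · rintro ⟨i, j, rfl⟩
    refine ⟨⟨i + j * thD D, (IQF D).add_mem (intCast_mem _ _)
      ((IQF D).mul_mem (intCast_mem _ _) hth.1)⟩, ?_, rfl⟩
    rw [isIntegral_coe_iff]
    exact (isIntegral_intCast _).add ((isIntegral_intCast _).mul hth.2)
  · rintro ⟨y, hy, rfl⟩
    obtain ⟨n, c, m, h1, h2, -⟩ := coords_of_mem hD hy
    have h4 := mod4_of_squarefree hD
    by_cases h : D % 4 = 3
    · have hpar : ∃ k : ℤ, n = c + 2 * k := by
        have e1 : (n ^ 2 + D * c ^ 2) % 4 = 0 := by rw [h2]; omega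
        have e2 : ((D : ℤ)) % 4 = 3 := by omega
        have e3 : (n ^ 2 - c ^ 2) % 4 = 0 := by
          have : (n ^ 2 - c ^ 2) = (n ^ 2 + D * c ^ 2) - (D + 1) * c ^ 2 := by ring
          rw [this]
          have e5 : (((D : ℤ) + 1) * c ^ 2) % 4 = 0 := by
            rw [Int.mul_emod, show ((D : ℤ) + 1) % 4 = 0 by omega]
            simp
          omega
        have e6 : (n - c) % 2 = 0 := by
          rcases Int.emod_two_eq_zero_or_one n with hn | hn <;>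
            rcases Int.emod_two_eq_zero_or_one c with hc | hc
          · omega
          · exfalso
            obtain ⟨u, hu⟩ : ∃ u, n = 2 * u := ⟨n / 2, by omega⟩
            obtain ⟨v, hv⟩ : ∃ v, c = 2 * v + 1 := ⟨c / 2, by omega⟩
            rw [hu, hv] at e3
            ring_nf at e3
            omega
          · exfalso
            obtain ⟨u, hu⟩ : ∃ u, n = 2 * u + 1 := ⟨n / 2, by omega⟩
            obtain ⟨v, hv⟩ : ∃ v, c = 2 * v := ⟨c / 2, by omega⟩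
            rw [hu, hv] at e3
            ring_nf at e3
            omega
          · omega
        exact ⟨(n - c) / 2, by omega⟩
      obtain ⟨k, hk⟩ := hpar
      refine ⟨k, c, ?_⟩
      rw [h1, hk]
      unfold thD sq
      rw [if_pos h]
      push_cast
      ring
    · have hev : ∃ u v : ℤ, n = 2 * u ∧ c = 2 * v := by
        have e1 : (n ^ 2 + D * c ^ 2) % 4 = 0 := by rw [h2]; omega
        obtain ⟨t, ht⟩ : ∃ t : ℤ, (D : ℤ) = 4 * t + 1 ∨ (D : ℤ) = 4 * t + 2 := by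
          refine ⟨(D : ℤ) / 4, ?_⟩
          omega
        have hu' : ∀ z : ℤ, (∃ u, z = 2 * u) ∨ ∃ u, z = 2 * u + 1 := fun z => by
          rcases Int.emod_two_eq_zero_or_one z with hz | hz
          · exact Or.inl ⟨z / 2, by omega⟩
          · exact Or.inr ⟨z / 2, by omega⟩
        rcases hu' n with ⟨u, hu⟩ | ⟨u, hu⟩ <;> rcases hu' c with ⟨v, hv⟩ | ⟨v, hv⟩
        · exact ⟨u, v, hu, hv⟩
        · exfalso
          rcases ht with ht | ht <;> rw [hu, hv, ht] at e1 <;> ring_nf at e1 <;> omega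
        · exfalso
          rcases ht with ht | ht <;> rw [hu, hv, ht] at e1 <;> ring_nf at e1 <;> omega
        · exfalso
          rcases ht with ht | ht <;> rw [hu, hv, ht] at e1 <;> ring_nf at e1 <;> omega
      obtain ⟨u, v, hu, hv⟩ := hev
      refine ⟨u, v, ?_⟩
      rw [h1, hu, hv]
      unfold thD sq
      rw [if_neg h]
      push_cast
      ring

open Classical in
/-- The number of rotations with given exponents. -/
theorem card_units_le {d : ℕ} (hd : Squarefree d) (M : Finset (IQF d))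
    (hM : ∀ ρ ∈ M, ‖(ρ : ℂ)‖ = 1) (S : Finset ℕ) (e : IQF d → ℕ → ℤ)
    (hA : ∀ ρ ∈ M, ∀ ρ' ∈ M, (∀ p ∈ S, e ρ p = e ρ' p) → ρ / ρ' ∈ OQ d) :
    ∀ ρ ∈ M, (M.filter (fun ρ' => ∀ p ∈ S, e ρ' p = e ρ p)).card ≤
      if d = 1 then 4 else if d = 3 then 6 else 2 := by
  intro ρ hρ
  have hρ0 : ρ ≠ 0 := by
    intro h
    have := hM ρ hρ
    rw [h] at this
    simp at this
  have hex : ∀ ρ' ∈ M.filter (fun ρ' => ∀ p ∈ S, e ρ' p = e ρ p), ∃ n c : ℤ,
      ((ρ' / ρ : IQF d) : ℂ) = ((n / 2 : ℚ) : ℂ) + ((c / 2 : ℚ) : ℂ) * sq d ∧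
        n ^ 2 + d * c ^ 2 = 4 := by
    intro ρ' h
    obtain ⟨h1, h2⟩ := mem_filter.1 h
    refine unit_coords hd (hA ρ' h1 ρ hρ h2) ?_
    push_cast
    rw [norm_div, hM ρ' h1, hM ρ hρ, div_one]
  choose! n c hnc using hex
  -- the solutions of `n² + d c² = 4`
  let P : Finset (ℤ × ℤ) := ((Icc (-2 : ℤ) 2) ×ˢ (Icc (-2 : ℤ) 2)).filter
    (fun z => z.1 ^ 2 + d * z.2 ^ 2 = 4)
  have hd1 : (1 : ℤ) ≤ d := by
    have := Nat.pos_of_ne_zero hd.ne_zero
    exact_mod_cast this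
  have hinj : (M.filter (fun ρ' => ∀ p ∈ S, e ρ' p = e ρ p)).card ≤ P.card := by
    refine card_le_card_of_injOn (fun ρ' => (n ρ', c ρ')) ?_ ?_
    · intro ρ' h
      have h1 := (hnc ρ' h).2
      refine mem_coe.2 (mem_filter.2 ⟨mem_product.2 ⟨mem_Icc.2 ?_, mem_Icc.2 ?_⟩, h1⟩)
      · have h3 : (n ρ') ^ 2 ≤ 4 := by nlinarith [sq_nonneg (c ρ')]
        constructor <;> nlinarith
      · have h3 : (c ρ') ^ 2 ≤ 4 := by nlinarith [sq_nonneg (n ρ'), sq_nonneg (c ρ')]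
        constructor <;> nlinarith
    · intro ρ' h ρ'' h' heq
      have h1 := (hnc ρ' h).1
      have h2 := (hnc ρ'' h').1
      simp only [Prod.mk.injEq] at heq
      rw [heq.1, heq.2, ← h2] at h1
      have h3 : ρ' / ρ = ρ'' / ρ := Subtype.ext h1
      exact (div_left_inj' hρ0).1 h3
  refine hinj.trans ?_
  split_ifs with h1 h3
  · subst h1
    decide
  · subst h3
    decide
  · -- `d ≠ 1, 3`
    have hsub : P ⊆ {(2, 0), (-2, 0)} := by
      intro z hz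
      obtain ⟨hz1, hz2⟩ := mem_filter.1 hz
      obtain ⟨hz3, hz4⟩ := mem_product.1 hz1
      obtain ⟨a, b⟩ := z
      simp only [mem_Icc] at hz3 hz4 hz2
      have h4 := mod4_of_squarefree hd
      have hb : b = 0 := by
        by_contra hb
        have hb1 : 1 ≤ b ^ 2 := by
          have : 0 < b ^ 2 := by positivity
          linarith
        have hd4 : (d : ℤ) ≤ 4 := by nlinarith [sq_nonneg a]
        have hd4' : d ≤ 4 := by exact_mod_cast hd4
        have hd2 : d = 2 := by omega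
        have hz5 : a ^ 2 + 2 * b ^ 2 = 4 := by
          rw [hd2] at hz2
          exact_mod_cast hz2
        clear hz2 hz3 hz4
        have hb3 : b ≤ 1 := by nlinarith [sq_nonneg a]
        have hb4 : -1 ≤ b := by nlinarith [sq_nonneg a]
        have hb5 : b ^ 2 = 1 := by
          have : b = 1 ∨ b = -1 := by omega
          rcases this with rfl | rfl <;> norm_num
        have ha2 : a ^ 2 = 2 := by linarith
        have ha3 : a ≤ 1 := by nlinarith
        have ha4 : -1 ≤ a := by nlinarith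
        have : a = 1 ∨ a = 0 ∨ a = -1 := by omega
        rcases this with rfl | rfl | rfl <;> norm_num at ha2
      subst hb
      have ha : a = 2 ∨ a = -2 := by
        have : (a - 2) * (a + 2) = 0 := by linarith
        rcases mul_eq_zero.1 this with h | h
        · left; linarith
        · right; linarith
      rcases ha with rfl | rfl
      · simp
      · simp
    exact (card_le_card hsub).trans (by decide)

/-- Uniqueness of the reduced denominator. -/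
theorem den_unique {x : ℝ} {N N' : ℕ} {a a' : ℤ}
    (h : IsCoprime a (N : ℤ)) (h' : IsCoprime a' (N' : ℤ)) (hx : (N : ℝ) * x = a)
    (hx' : (N' : ℝ) * x = a') : N = N' := by
  have h1 : (a : ℝ) * N' = a' * N := by rw [← hx, ← hx']; ring
  have h2 : a * N' = a' * N := by exact_mod_cast h1
  have h3 : (N : ℤ) ∣ N' := h.symm.dvd_of_dvd_mul_left ⟨a', by linarith⟩
  have h4 : (N' : ℤ) ∣ N := h'.symm.dvd_of_dvd_mul_left ⟨a, by linarith⟩
  exact Nat.dvd_antisymm (Int.natCast_dvd_natCast.1 h3) (Int.natCast_dvd_natCast.1 h4)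

open Classical in
/-- The key statement wanted by the reduction, with a constant `C`. -/
def StmtKEYFC (C : ℝ) : Prop :=
  ∀ (D : ℕ), 0 < D → Squarefree D → ∀ (M : Finset ℂ) (N : ℂ → ℕ),
    (∀ ρ ∈ M, ‖ρ‖ = 1 ∧ ρ ∈ FD D ∧ 0 < N ρ ∧
      ∃ a : ℤ, IsCoprime a (N ρ) ∧ N ρ * (2 * ρ.re) = a) →
    ∀ Z : Finset ℂ, (∀ z ∈ Z, ∀ z' ∈ Z, z - z' ∈ OD D → z = z') →
    ∀ f : ℂ → ℝ, (∀ z, 0 ≤ f z) →
      ∑ ρ ∈ M, ((N ρ : ℝ) ^ 2)⁻¹ * ∑ y ∈ Z ×ˢ Z, f y.1 * f y.2 *
          (∑ y' ∈ (Z ×ˢ Z).filter (fun y' => Lk D ρ ((y'.2 - ρ * y'.1) - (y.2 - ρ * y.1))),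
            f y'.1 * f y'.2) ^ 2 ≤
        C * (∑ z ∈ Z, f z ^ (3 / 2 : ℝ)) ^ 4

/-- **The key theorem**, from the arithmetic and the numerical statement. -/
theorem keyFC {C : ℝ} (hA : StmtArith) (hN : StmtNumC C) : StmtKEYFC C := by
  classical
  intro D hD0 hD M N hM Z hZ f hf
  -- the rotations as elements of the field
  let emb : {ρ // ρ ∈ M} ↪ IQF D :=
    ⟨fun ρ => ⟨ρ.1, FD_subset (hM ρ.1 ρ.2).2.1⟩, fun ρ ρ' h => Subtype.ext (congrArg
      (fun x : IQF D => (x : ℂ)) h)⟩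
  let M' : Finset (IQF D) := M.attach.map emb
  have hM' : ∀ ρ ∈ M', ‖(ρ : ℂ)‖ = 1 := by
    intro ρ hρ
    obtain ⟨ρ', -, rfl⟩ := mem_map.1 hρ
    exact (hM ρ'.1 ρ'.2).1
  obtain ⟨S, e, U, V, Λ', hS, hB, hO, hsU, hsV, hsΛ, hunit, hsplit, h2, htr, hgap⟩ :=
    hA D hD M' hM'
  have hcard := card_units_le hD M' hM' S e hunit
  have hC := hN (IQF D) M' S e D hD hS hsplit h2 hcard hgap
  have hC' : ∀ g : ℕ → ℝ,
      ∑ ρ ∈ M', ∏ p ∈ S, ((Real.cosh (e ρ p * Real.log p - g p)) ^ 2)⁻¹ ≤ C := hC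
  have key := key_complex hB (OQ D) (one_le_norm hD) hO C hC' 1 one_ne_zero
    (X := {z // z ∈ Z}) (fun z => (z : ℂ)) (fun x y a ha h => Subtype.ext (hZ x.1 x.2 y.1 y.2
      ((mem_OD_iff hD).2 ⟨a, ha, by rw [h, one_mul]⟩)))
    (fun z => f z ^ (1 / 4 : ℝ)) (fun z => Real.rpow_nonneg (hf z) _)
  have hs4 : ∀ z : ℂ, (f z ^ (1 / 4 : ℝ)) ^ 4 = f z := by
    intro z
    rw [← Real.rpow_natCast, ← Real.rpow_mul (hf z)]
    norm_num
  have hs6 : ∀ z : ℂ, (f z ^ (1 / 4 : ℝ)) ^ 6 = f z ^ (3 / 2 : ℝ) := by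
    intro z
    rw [← Real.rpow_natCast, ← Real.rpow_mul (hf z)]
    norm_num
  simp only [hs4, hs6] at key
  have hsum : ∑ x : {z // z ∈ Z}, f x ^ (3 / 2 : ℝ) = ∑ z ∈ Z, f z ^ (3 / 2 : ℝ) :=
    sum_coe_sort Z (fun z => f z ^ (3 / 2 : ℝ))
  rw [hsum] at key
  refine le_trans (le_of_eq ?_) key
  have hMM : ∀ G : ℂ → ℝ, ∑ ρ ∈ M', G ρ = ∑ ρ ∈ M, G ρ := by
    intro G
    rw [sum_map]
    exact sum_attach M G
  -- rewrite the left side
  have hstep : ∀ ρ ∈ M', ((∏ p ∈ S, (p : ℝ) ^ (e ρ p).natAbs) ^ 2)⁻¹ *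
      ∑ w₁ : {z // z ∈ Z} × {z // z ∈ Z}, ∑ w₂ : {z // z ∈ Z} × {z // z ∈ Z},
        ∑ w₃ : {z // z ∈ Z} × {z // z ∈ Z},
        (if (∃ a ∈ OQ D, ∃ b ∈ OQ D, ((w₂.2 : ℂ) - ρ * w₂.1) - (w₁.2 - ρ * w₁.1) =
              1 * ((a : ℂ) + ρ * b)) ∧
            (∃ a ∈ OQ D, ∃ b ∈ OQ D, ((w₃.2 : ℂ) - ρ * w₃.1) - (w₁.2 - ρ * w₁.1) =
              1 * ((a : ℂ) + ρ * b)) then
            (f w₁.1 * f w₁.2) * (f w₂.1 * f w₂.2) * (f w₃.1 * f w₃.2) else 0) =
      ((N ρ : ℝ) ^ 2)⁻¹ * ∑ y ∈ Z ×ˢ Z, f y.1 * f y.2 *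
          (∑ y' ∈ (Z ×ˢ Z).filter (fun y' => Lk D ρ ((y'.2 - ρ * y'.1) - (y.2 - ρ * y.1))),
            f y'.1 * f y'.2) ^ 2 := by
    intro ρ hρ
    congr 1
    · -- the denominators
      congr 2
      obtain ⟨ρ', -, rfl⟩ := mem_map.1 hρ
      obtain ⟨n, hn1, hn2⟩ := htr _ hρ
      obtain ⟨-, -, hN0, a, ha1, ha2⟩ := hM ρ'.1 ρ'.2
      have hP : 0 < ∏ p ∈ S, p ^ (e (emb ρ') p).natAbs :=
        prod_pos fun p hp => pow_pos (hS p hp).pos _
      have hPR : (∏ p ∈ S, (p : ℝ) ^ (e (emb ρ') p).natAbs) ≠ 0 := by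
        have : ((∏ p ∈ S, p ^ (e (emb ρ') p).natAbs : ℕ) : ℝ) ≠ 0 := by exact_mod_cast hP.ne'
        push_cast at this
        exact this
      have h5 := den_unique (x := 2 * (ρ'.1).re)
        (N := ∏ p ∈ S, p ^ (e (emb ρ') p).natAbs) (N' := N ρ'.1) (a := n) (a' := a)
        (by push_cast; exact hn1) ha1 (by
          push_cast
          have : 2 * (ρ'.1).re = n / ∏ p ∈ S, (p : ℝ) ^ (e (emb ρ') p).natAbs := hn2
          rw [this]
          field_simp) ha2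
      have h6 : ((∏ p ∈ S, p ^ (e (emb ρ') p).natAbs : ℕ) : ℝ) = (N ρ'.1 : ℝ) := by rw [h5]
      push_cast at h6
      exact h6
    · -- the sums
      have hLk : ∀ w w' : {z // z ∈ Z} × {z // z ∈ Z},
          (∃ a ∈ OQ D, ∃ b ∈ OQ D, ((w.2 : ℂ) - ρ * w.1) - (w'.2 - ρ * w'.1) =
              1 * ((a : ℂ) + ρ * b)) ↔ Lk D ρ (((w.2 : ℂ) - ρ * w.1) - (w'.2 - ρ * w'.1)) := by
        intro w w'
        constructor
        · rintro ⟨a, ha, b, hb, h⟩
          exact ⟨a, (mem_OD_iff hD).2 ⟨a, ha, rfl⟩, b, (mem_OD_iff hD).2 ⟨b, hb, rfl⟩, by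
            rw [h, one_mul]⟩
        · rintro ⟨a, ha, b, hb, h⟩
          obtain ⟨a', ha', rfl⟩ := (mem_OD_iff hD).1 ha
          obtain ⟨b', hb', rfl⟩ := (mem_OD_iff hD).1 hb
          exact ⟨a', ha', b', hb', by rw [h, one_mul]⟩
      simp only [hLk]
      have hpair : ∀ G : ℂ × ℂ → ℝ, ∑ w : {z // z ∈ Z} × {z // z ∈ Z}, G (w.1, w.2) =
          ∑ y ∈ Z ×ˢ Z, G y := by
        intro G
        rw [Fintype.sum_prod_type, sum_product]
        rw [sum_coe_sort Z (fun a => ∑ b : {z // z ∈ Z}, G (a, b))]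
        refine sum_congr rfl fun a _ => ?_
        exact sum_coe_sort Z (fun b => G (a, b))
      rw [← hpair]
      refine sum_congr rfl fun w₁ _ => ?_
      rw [sum_filter, ← hpair, pow_two, sum_mul_sum, mul_sum]
      refine sum_congr rfl fun w₂ _ => ?_
      rw [mul_sum]
      refine sum_congr rfl fun w₃ _ => ?_
      by_cases c2 : Lk D ρ (((w₂.2 : ℂ) - ρ * w₂.1) - (w₁.2 - ρ * w₁.1)) <;>
        by_cases c3 : Lk D ρ (((w₃.2 : ℂ) - ρ * w₃.1) - (w₁.2 - ρ * w₁.1)) <;>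
        simp [c2, c3, mul_assoc]
  rw [sum_congr rfl hstep]
  exact (hMM (fun ρ => ((N ρ : ℝ) ^ 2)⁻¹ * ∑ y ∈ Z ×ˢ Z, f y.1 * f y.2 *
          (∑ y' ∈ (Z ×ˢ Z).filter (fun y' => Lk D ρ ((y'.2 - ρ * y'.1) - (y.2 - ρ * y.1))),
            f y'.1 * f y'.2) ^ 2)).symm

/-- The key statement with the constant `7.86`. -/
def StmtKEYF : Prop := StmtKEYFC 7.86

theorem keyF (hA : StmtArith) (hN : StmtNumFinal) : StmtKEYF := keyFC hA hN

end Pool.Agent.Work.MP_dc37f8_rat
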