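import Pool.Agent.Work.MP_dc37f8_rat.Interface
import Pool.Agent.Work.MP_dc37f8_rat.KeyFinal
import Pool.Agent.Work.MP_dc37f8_rat.Arith

/-!
# MP_dc37f8_co: block ARL (the arithmetic of the multiplication by `w`)
-/

set_option autoImplicit false

open Finset

namespace Pool.RAT

namespace ARL

open Pool.Agent.Work.MP_dc37f8_rat

theorem Or_iff {D : ℕ} {z : ℂ} : Or (om D) z ↔ z ∈ OD D := Iff.rfl

theorem mul_mem {D : ℕ} (hD : Squarefree D) {x y : ℂ} (hx : x ∈ OD D) (hy : y ∈ OD D) :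
    x * y ∈ OD D := by
  obtain ⟨x', hx', rfl⟩ := (mem_OD_iff hD).1 hx
  obtain ⟨y', hy', rfl⟩ := (mem_OD_iff hD).1 hy
  exact (mem_OD_iff hD).2 ⟨x' * y', OQ_mul hx' hy', by push_cast; rfl⟩

theorem natCast_mem {D : ℕ} (n : ℕ) : (n : ℂ) ∈ OD D := ⟨n, 0, by push_cast; ring⟩

theorem intCast_mem {D : ℕ} (n : ℤ) : (n : ℂ) ∈ OD D := ⟨n, 0, by push_cast; ring⟩

theorem mem_IQF_of_Fd {D : ℕ} {z : ℂ} (hz : Fd D z) : z ∈ IQF D := hz

theorem w_add {w : ℂ} (hw1 : ‖w‖ = 1) {h : ℕ} {a : ℤ} (ha : (h : ℂ) * w ^ 2 - a * w + h = 0) :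
    (h : ℂ) * (w + (starRingEnd ℂ) w) = a := by
  have h1 : w * (starRingEnd ℂ) w = 1 := by
    rw [Complex.mul_conj, Complex.normSq_eq_norm_sq, hw1]; simp
  have hw0 : w ≠ 0 := by
    rintro rfl
    simp at hw1
  apply mul_left_cancel₀ hw0
  linear_combination ha + (h : ℂ) * h1

/-- `h w` is integral. -/
theorem hw_mem {D : ℕ} (hD : Squarefree D) {w : ℂ} (hw : Fd D w) {h : ℕ}
    (hden : Den w h) : (h : ℂ) * w ∈ OD D := by
  obtain ⟨-, a, -, ha⟩ := hden
  let y : IQF D := (h : IQF D) * ⟨w, hw⟩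
  refine (mem_OD_iff hD).2 ⟨y, ?_, by simp [y]⟩
  rw [mem_OQ]
  refine ⟨Polynomial.X ^ 2 - Polynomial.C a * Polynomial.X + Polynomial.C ((h : ℤ) ^ 2), ?_, ?_⟩
  · monicity!
  · simp only [Polynomial.eval₂_add, Polynomial.eval₂_sub, Polynomial.eval₂_mul,
      Polynomial.eval₂_pow, Polynomial.eval₂_X, Polynomial.eval₂_C]
    ext
    simp only [y]
    push_cast
    linear_combination (h : ℂ) * ha

/-- `j w` integral implies `h ∣ j`. -/
theorem dvd_of_mem {D : ℕ} (hD : Squarefree D) {w : ℂ} (hw : Fd D w) (hw1 : ‖w‖ = 1)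
    {h : ℕ} (hden : Den w h) {j : ℤ} (hj : (j : ℂ) * w ∈ OD D) : (h : ℤ) ∣ j := by
  obtain ⟨hpos, a, hcop, ha⟩ := hden
  obtain ⟨y, hy, hyj⟩ := (mem_OD_iff hD).1 hj
  obtain ⟨⟨t, ht⟩, -⟩ := (mem_OQ_iff y).1 hy
  have h1 := congrArg (fun x : IQF D => (x : ℂ)) (add_cj y)
  push_cast at h1
  rw [coe_cj, hyj, ht] at h1
  have h2 := w_add hw1 ha
  have h3 : (starRingEnd ℂ) ((j : ℂ) * w) = (j : ℂ) * (starRingEnd ℂ) w := by
    rw [map_mul]; simp
  rw [h3] at h1
  push_cast at h1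
  have h4 : ((j * a : ℤ) : ℂ) = ((h : ℤ) * t : ℤ) := by
    push_cast
    rw [← h2]
    linear_combination (h : ℂ) * h1
  have h5 : j * a = (h : ℤ) * t := by exact_mod_cast h4
  exact hcop.symm.dvd_of_dvd_mul_right ⟨t, h5⟩

end ARL

open Pool.Agent.Work.MP_dc37f8_rat in
theorem stmt_ARL : Stmt_ARL := by
  classical
  intro D hD w hw hw1 h B hden hhB hB1
  have hpos : 0 < h := hden.1
  have hBw : (B : ℂ) * w ∈ OD D := by
    obtain ⟨c, rfl⟩ := hhB
    have := ARL.mul_mem hD (ARL.natCast_mem c) (ARL.hw_mem hD hw hden)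
    have e : ((h * c : ℕ) : ℂ) * w = (c : ℂ) * ((h : ℂ) * w) := by push_cast; ring
    rwa [e]
  refine ⟨fun z hz => ?_, fun ζ => ?_⟩
  · rw [ARL.Or_iff] at hz ⊢
    have := ARL.mul_mem hD hBw hz
    rwa [show w * ((B : ℂ) * z) = (B : ℂ) * w * z by ring]
  · set F := (range B ×ˢ range B).filter
      (fun z => Or (om D) (w * ((z.1 : ℂ) + z.2 * om D) - ζ)) with hF
    have hcard : (range h ×ˢ F).card ≤ (range B ×ˢ range B).card := by
      refine card_le_card_of_injOn (fun q => ((q.2.1 + q.1) % B, q.2.2)) ?_ ?_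
      · rintro ⟨j, x, y⟩ hq
        have hq' : (j, (x, y)) ∈ range h ×ˢ F := hq
        rw [mem_product] at hq'
        obtain ⟨hxy, -⟩ := mem_filter.1 hq'.2
        rw [mem_product] at hxy
        show ((x + j) % B, y) ∈ ((range B ×ˢ range B : Finset (ℕ × ℕ)) : Set (ℕ × ℕ))
        rw [mem_coe, mem_product]
        exact ⟨mem_range.2 (Nat.mod_lt _ hB1), hxy.2⟩
      · rintro ⟨j, x, y⟩ hq ⟨j', x', y'⟩ hq' heq
        have hq1 : (j, (x, y)) ∈ range h ×ˢ F := hq
        have hq2 : (j', (x', y')) ∈ range h ×ˢ F := hq'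
        rw [mem_product] at hq1 hq2
        obtain ⟨hj, hr1⟩ := hq1
        obtain ⟨hj', hr2⟩ := hq2
        obtain ⟨hxy, hO⟩ := mem_filter.1 hr1
        obtain ⟨hxy', hO'⟩ := mem_filter.1 hr2
        rw [mem_product] at hxy hxy'
        simp only [mem_range] at hj hj' hxy hxy'
        simp only [Prod.mk.injEq] at heq
        obtain ⟨h1, rfl⟩ := heq
        rw [ARL.Or_iff] at hO hO'
        have h2 := (OD D).sub_mem hO hO'
        simp only at h2
        have h3 : (((x : ℤ) - x' : ℤ) : ℂ) * w ∈ OD D := by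
          have e : w * ((x : ℂ) + y * om D) - ζ - (w * ((x' : ℂ) + y * om D) - ζ) =
            (((x : ℤ) - x' : ℤ) : ℂ) * w := by push_cast; ring
          rwa [← e]
        have h4 : ((x + j : ℕ) : ℤ) ≡ ((x' + j' : ℕ) : ℤ) [ZMOD B] := by
          exact_mod_cast (show x + j ≡ x' + j' [MOD B] from h1)
        obtain ⟨c, hc⟩ := h4.dvd
        -- x' + j' - (x + j) = B c
        have h5 : (((j' : ℤ) - j : ℤ) : ℂ) * w ∈ OD D := by
          have e : (((j' : ℤ) - j : ℤ) : ℂ) * w = (((x : ℤ) - x' : ℤ) : ℂ) * w +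
              (B : ℂ) * w * (c : ℂ) := by
            have hc' : ((x' : ℂ) + j') - (x + j) = B * c := by exact_mod_cast hc
            push_cast
            linear_combination w * hc'
          rw [e]
          exact (OD D).add_mem h3 (ARL.mul_mem hD hBw (ARL.intCast_mem c))
        have h6 := ARL.dvd_of_mem hD hw hw1 hden h5
        have h7 : (j' : ℤ) - j = 0 := by
          apply Int.eq_zero_of_abs_lt_dvd h6
          rw [abs_lt]
          constructor <;> omega
        have h8 : j = j' := by omega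
        subst h8
        have h9 : x = x' := by
          have h10 : x ≡ x' [MOD B] := Nat.ModEq.add_right_cancel' j h1
          exact Nat.ModEq.eq_of_lt_of_lt h10 hxy.1 hxy'.1
        subst h9
        rfl
    rw [card_product, card_product, card_range, card_range] at hcard
    rw [pow_two]
    exact hcard

end Pool.RAT
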