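import Pool.Agent.Work.MP_dc37f8_rat.Interface

/-!
# MP_dc37f8_co, project rat: block BMLP

Brunn-Minkowski for popular differences (from PATH, REM).
-/

set_option autoImplicit false

open Finset

namespace Pool.RAT

open scoped Pointwise

namespace BMLP

theorem sq_add_sqrt {x c : ℝ} (hx : 0 ≤ x) (hc : 0 ≤ c) :
    (Real.sqrt x + Real.sqrt c) ^ 2 = x + c + 2 * Real.sqrt (x * c) := by
  rw [Real.sqrt_mul hx]
  have h1 := Real.sq_sqrt hx
  have h2 := Real.sq_sqrt hc
  nlinarith

/-- the number of lines and the number of points per line -/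
theorem rows {X : Finset ℂ} {N : ℕ} {s : ℝ} (hX : X.Nonempty)
    (h : ∀ y : ℝ, (N : ℝ) * (X.filter (fun z => z.im = y)).card ≤ s) :
    (N : ℝ) * ((X.card : ℝ) / (X.image Complex.im).card) ≤ s := by
  have hp : (0 : ℝ) < (X.image Complex.im).card := by
    exact_mod_cast (hX.image _).card_pos
  rw [← mul_div_assoc, div_le_iff₀ hp]
  have e := card_eq_sum_card_image Complex.im X
  have e2 : (X.card : ℝ) = ∑ y ∈ X.image Complex.im, ((X.filter (fun z => z.im = y)).card : ℝ) := by
    rw [e]
    push_cast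
    rfl
  rw [e2, mul_sum]
  calc ∑ y ∈ X.image Complex.im, (N : ℝ) * ((X.filter (fun z => z.im = y)).card : ℝ)
      ≤ ∑ _y ∈ X.image Complex.im, s := sum_le_sum fun y _ => h y
    _ = s * (X.image Complex.im).card := by rw [sum_const, nsmul_eq_mul, mul_comm]

open Classical in
/-- the number of pairs with difference in `E` -/
theorem pairs {X C E : Finset ℂ} {b : ℝ}
    (hE : ∀ d ∈ E, ((X.filter (fun x => x - d ∈ C)).card : ℝ) ≤ b) :
    (((X ×ˢ C).filter (fun z => z.1 - z.2 ∈ E)).card : ℝ) ≤ E.card * b := by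
  have e1 : ((X ×ˢ C).filter (fun z => z.1 - z.2 ∈ E)).card =
      ∑ d ∈ E, (((X ×ˢ C).filter (fun z => z.1 - z.2 ∈ E)).filter (fun z => z.1 - z.2 = d)).card :=
    card_eq_sum_card_fiberwise (fun z hz => (mem_filter.1 hz).2)
  rw [e1]
  push_cast
  calc ∑ d ∈ E, ((((X ×ˢ C).filter (fun z => z.1 - z.2 ∈ E)).filter
        (fun z => z.1 - z.2 = d)).card : ℝ)
      ≤ ∑ _d ∈ E, b := by
        refine sum_le_sum fun d hd => le_trans ?_ (hE d hd)
        have : (((X ×ˢ C).filter (fun z => z.1 - z.2 ∈ E)).filter (fun z => z.1 - z.2 = d)).card ≤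
            (X.filter (fun x => x - d ∈ C)).card := by
          refine card_le_card_of_injOn Prod.fst ?_ ?_
          · intro z hz
            have hz' := mem_filter.1 (mem_coe.1 hz)
            have hz1 := mem_filter.1 hz'.1
            have hz2 := mem_product.1 hz1.1
            refine mem_coe.2 (mem_filter.2 ⟨hz2.1, ?_⟩)
            have : z.1 - d = z.2 := by rw [← hz'.2]; ring
            rw [this]
            exact hz2.2
          · intro z hz z' hz' h
            have h1 := (mem_filter.1 (mem_coe.1 hz)).2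
            have h2 := (mem_filter.1 (mem_coe.1 hz')).2
            refine Prod.ext h ?_
            have e3 : z.2 = z.1 - d := by rw [← h1]; ring
            have e4 : z'.2 = z'.1 - d := by rw [← h2]; ring
            rw [e3, e4, h]
        exact_mod_cast this
    _ = E.card * b := by rw [sum_const, nsmul_eq_mul]

theorem card_le_left {X C : Finset ℂ} [DecidableEq ℂ] (hC : C.Nonempty) :
    X.card ≤ (X - C).card := by
  obtain ⟨c, hc⟩ := hC
  rw [← card_image_of_injective X (sub_left_injective (b := c))]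
  exact card_le_card fun z hz => by
    obtain ⟨x, hx, rfl⟩ := mem_image.1 hz
    exact sub_mem_sub hx hc

theorem card_le_right {X C : Finset ℂ} [DecidableEq ℂ] (hX : X.Nonempty) :
    C.card ≤ (X - C).card := by
  obtain ⟨x, hx⟩ := hX
  rw [← card_image_of_injective C (sub_right_injective (b := x))]
  exact card_le_card fun z hz => by
    obtain ⟨c, hc, rfl⟩ := mem_image.1 hz
    exact sub_mem_sub hx hc

/-- the inequality with `p`, `q` lines -/
theorem num {p q a b t S : ℝ} (hp : 0 ≤ p) (hq : 0 ≤ q) (ha : 0 ≤ a) (hb : 0 ≤ b)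
    (h1 : p ≤ t) (h2 : q ≤ t) (h3 : a ≤ t) (h4 : b ≤ t) (h : (p + q - 1) * (a + b - 1) ≤ S) :
    (Real.sqrt (a * p) + Real.sqrt (b * q)) ^ 2 - 4 * t ≤ S := by
  rw [sq_add_sqrt (mul_nonneg ha hp) (mul_nonneg hb hq)]
  have e : Real.sqrt (a * p * (b * q)) ≤ (p * b + q * a) / 2 := by
    rw [Real.sqrt_le_left (by positivity)]
    nlinarith [sq_nonneg (p * b - q * a)]
  nlinarith

/-- the square roots -/
theorem root {x c x' c' s δ : ℝ} {K : ℝ} (hK : 0 ≤ K) (hx' : 0 ≤ x') (hc' : 0 ≤ c')
    (hs : 0 ≤ s) (hδ : 0 ≤ δ) (hx : x ≤ x' + δ ^ 2 * s) (hc : c ≤ c' + δ ^ 2 * s)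
    (hxx : x' ≤ x) (hcc : c' ≤ c) (hxK : x ≤ K * s) (hcK : c ≤ K * s) :
    (Real.sqrt x + Real.sqrt c) ^ 2 ≤ (Real.sqrt x' + Real.sqrt c') ^ 2 + 2 * δ ^ 2 * s +
      4 * (K + 1) * δ * s := by
  rw [sq_add_sqrt (hx'.trans hxx) (hc'.trans hcc), sq_add_sqrt hx' hc']
  have hr : 0 ≤ Real.sqrt (x' * c') := Real.sqrt_nonneg _
  have hr2 : Real.sqrt (x' * c') ^ 2 = x' * c' := Real.sq_sqrt (mul_nonneg hx' hc')
  have ht : 0 ≤ 2 * (K + 1) * δ * s := by positivity
  have e : Real.sqrt (x * c) ≤ Real.sqrt (x' * c') + 2 * (K + 1) * δ * s := by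
    rw [Real.sqrt_le_left (by positivity)]
    have e1 : x * c - x' * c' ≤ 2 * K * s * (δ ^ 2 * s) := by
      have e2 : x * (c - c') ≤ K * s * (δ ^ 2 * s) :=
        mul_le_mul hxK (by linarith) (by linarith) (by positivity)
      have e3 : c' * (x - x') ≤ K * s * (δ ^ 2 * s) :=
        mul_le_mul (by linarith) (by linarith) (by linarith) (by positivity)
      nlinarith
    have e4 : 2 * K * s * (δ ^ 2 * s) ≤ (2 * (K + 1) * δ * s) ^ 2 := by
      have e5 : (2 * (K + 1) * δ * s) ^ 2 = (4 * (K + 1) ^ 2) * (s * (δ ^ 2 * s)) := by ring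
      rw [e5]
      have e6 : 2 * K * s * (δ ^ 2 * s) = (2 * K) * (s * (δ ^ 2 * s)) := by ring
      rw [e6]
      exact mul_le_mul_of_nonneg_right (by nlinarith) (by positivity)
    nlinarith [mul_nonneg hr ht]
  linarith

end BMLP

open Classical in
theorem stmt_BMLP (hP : Stmt_PATH) (hR : Stmt_REM) : Stmt_BMLP := by
  intro K ε hε
  have hK0 : (0 : ℝ) ≤ K := Nat.cast_nonneg K
  set δ : ℝ := min ε 1 / (20 * ((K : ℝ) + 1)) with hδ
  have hδ0 : 0 < δ := by
    have : 0 < min ε 1 := lt_min hε one_pos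
    positivity
  have hδK : 20 * ((K : ℝ) + 1) * δ = min ε 1 := by
    rw [hδ]
    field_simp
  have hδε : 20 * ((K : ℝ) + 1) * δ ≤ ε := by rw [hδK]; exact min_le_left _ _
  have hδ1 : 20 * ((K : ℝ) + 1) * δ ≤ 1 := by rw [hδK]; exact min_le_right _ _
  have hδs : δ ≤ 1 / 20 := by nlinarith
  have hδ2 : δ ^ 2 ≤ δ := by nlinarith
  obtain ⟨τ₀, hτ₀, hrem⟩ := hR K (δ ^ 2) (by positivity)
  obtain ⟨N, hN⟩ := exists_nat_gt (8 / ε)
  have hN0 : (0 : ℝ) < N := lt_trans (by positivity) hN
  refine ⟨τ₀ / ((K : ℝ) + 1), N, by positivity, fun s X C hs hX hC hXC hrows => ?_⟩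
  have hXrow := hrows X (by simp)
  have hCrow := hrows C (by simp)
  have hKpos : (0 : ℝ) < K := by
    rcases hK0.lt_or_eq with h | h
    · exact h
    · rw [← h] at hX
      linarith
  have hXn : X.Nonempty := by
    rw [nonempty_iff_ne_empty]
    rintro rfl
    simp at hX
    linarith
  have hCn : C.Nonempty := by
    rw [nonempty_iff_ne_empty]
    rintro rfl
    simp at hC
    linarith
  set τ := τ₀ / ((K : ℝ) + 1) with hτ
  set S := (X - C).filter (fun d => τ * s ≤ ((X.filter (fun x => x - d ∈ C)).card : ℝ)) with hS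
  set E := (X - C).filter (fun d => ¬ τ * s ≤ ((X.filter (fun x => x - d ∈ C)).card : ℝ)) with hE
  have hEb : (((X ×ˢ C).filter (fun z => z.1 - z.2 ∈ E)).card : ℝ) ≤ τ₀ * s ^ 2 := by
    have e1 := BMLP.pairs (X := X) (C := C) (E := E) (b := τ * s) (fun d hd => by
      have := (mem_filter.1 hd).2
      exact (not_le.1 this).le)
    have e2 : (E.card : ℝ) ≤ K * s := by
      have : (E.card : ℝ) ≤ ((X - C).card : ℝ) := by exact_mod_cast card_filter_le _ _
      exact this.trans hXC
    have hτs : 0 ≤ τ * s := by positivity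
    calc _ ≤ E.card * (τ * s) := e1
      _ ≤ (K * s) * (τ * s) := mul_le_mul_of_nonneg_right e2 hτs
      _ = (K / ((K : ℝ) + 1)) * (τ₀ * s ^ 2) := by rw [hτ]; ring
      _ ≤ 1 * (τ₀ * s ^ 2) := by
          refine mul_le_mul_of_nonneg_right ?_ (by positivity)
          rw [div_le_one (by linarith)]
          linarith
      _ = τ₀ * s ^ 2 := one_mul _
  obtain ⟨X', hX', C', hC', E', hE', hXd, hCd, hEd, hgood⟩ :=
    hrem s X C E hs hX hC hXC (filter_subset _ _) hEb
  have hXe : (X'.card : ℝ) + ((X \ X').card : ℝ) = X.card := by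
    have := card_sdiff_add_card_eq_card hX'
    have h2 : ((X \ X').card : ℝ) + (X'.card : ℝ) = X.card := by exact_mod_cast this
    linarith
  have hCe : (C'.card : ℝ) + ((C \ C').card : ℝ) = C.card := by
    have := card_sdiff_add_card_eq_card hC'
    have h2 : ((C \ C').card : ℝ) + (C'.card : ℝ) = C.card := by exact_mod_cast this
    linarith
  have hKδ : (K : ℝ) * δ ^ 2 < 1 := by nlinarith
  have hX'n : X'.Nonempty := by
    rw [nonempty_iff_ne_empty]
    rintro rfl
    rw [card_empty] at hXe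
    push_cast at hXe
    have e1 : (X.card : ℝ) ≤ δ ^ 2 * s := by linarith
    have e2 : (K : ℝ) * X.card ≤ K * (δ ^ 2 * s) := mul_le_mul_of_nonneg_left e1 hK0
    nlinarith
  have hC'n : C'.Nonempty := by
    rw [nonempty_iff_ne_empty]
    rintro rfl
    rw [card_empty] at hCe
    push_cast at hCe
    have e1 : (C.card : ℝ) ≤ δ ^ 2 * s := by linarith
    have e2 : (K : ℝ) * C.card ≤ K * (δ ^ 2 * s) := mul_le_mul_of_nonneg_left e1 hK0
    nlinarith
  -- the difference set
  have hsub : X' - C' ⊆ S ∪ E' := by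
    intro d hd
    obtain ⟨x, hx, c, hc, rfl⟩ := mem_sub.1 hd
    have hmem : x - c ∈ X - C := sub_mem_sub (hX' hx) (hC' hc)
    by_cases h : τ * s ≤ ((X.filter (fun y => y - (x - c) ∈ C)).card : ℝ)
    · exact mem_union_left _ (mem_filter.2 ⟨hmem, h⟩)
    · exact mem_union_right _ (hgood x hx c hc (mem_filter.2 ⟨hmem, h⟩))
  have hcard : ((X' - C').card : ℝ) ≤ S.card + δ ^ 2 * s := by
    have e1 : ((X' - C').card : ℝ) ≤ (S.card : ℝ) + E'.card := by
      exact_mod_cast (card_le_card hsub).trans (card_union_le _ _)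
    linarith
  -- the lines
  have hpX : (X'.image Complex.im).card ≤ (X.image Complex.im).card :=
    card_le_card (image_subset_image hX')
  have hpC : (C'.image Complex.im).card ≤ (C.image Complex.im).card :=
    card_le_card (image_subset_image hC')
  have hp0 : (0 : ℝ) < (X'.image Complex.im).card := by exact_mod_cast (hX'n.image _).card_pos
  have hq0 : (0 : ℝ) < (C'.image Complex.im).card := by exact_mod_cast (hC'n.image _).card_pos
  have h1 : ((X'.image Complex.im).card : ℝ) ≤ s / N := by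
    rw [le_div_iff₀ hN0, mul_comm]
    refine le_trans ?_ hXrow.1
    exact mul_le_mul_of_nonneg_left (by exact_mod_cast hpX) hN0.le
  have h2 : ((C'.image Complex.im).card : ℝ) ≤ s / N := by
    rw [le_div_iff₀ hN0, mul_comm]
    refine le_trans ?_ hCrow.1
    exact mul_le_mul_of_nonneg_left (by exact_mod_cast hpC) hN0.le
  have h3 : (X'.card : ℝ) / (X'.image Complex.im).card ≤ s / N := by
    rw [le_div_iff₀ hN0, mul_comm]
    refine BMLP.rows hX'n fun y => le_trans ?_ (hXrow.2 y)
    exact mul_le_mul_of_nonneg_left (by exact_mod_cast card_le_card (filter_subset_filter _ hX'))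
      hN0.le
  have h4 : (C'.card : ℝ) / (C'.image Complex.im).card ≤ s / N := by
    rw [le_div_iff₀ hN0, mul_comm]
    refine BMLP.rows hC'n fun y => le_trans ?_ (hCrow.2 y)
    exact mul_le_mul_of_nonneg_left (by exact_mod_cast card_le_card (filter_subset_filter _ hC'))
      hN0.le
  have hpath := hP X' C' hX'n hC'n
  have e5 := BMLP.num hp0.le hq0.le (by positivity) (by positivity) h1 h2 h3 h4 hpath
  rw [div_mul_cancel₀ _ hp0.ne', div_mul_cancel₀ _ hq0.ne'] at e5
  -- the square roots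
  have hXK : (X.card : ℝ) ≤ K * s := by
    have : (X.card : ℝ) ≤ ((X - C).card : ℝ) := by exact_mod_cast BMLP.card_le_left hCn
    exact this.trans hXC
  have hCK : (C.card : ℝ) ≤ K * s := by
    have : (C.card : ℝ) ≤ ((X - C).card : ℝ) := by exact_mod_cast BMLP.card_le_right hXn
    exact this.trans hXC
  have e6 := BMLP.root (x := X.card) (c := C.card) (x' := X'.card) (c' := C'.card) (s := s)
    (δ := δ) (K := K) hK0 (by positivity) (by positivity) hs.le hδ0.le (by linarith) (by linarith)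
    (by exact_mod_cast card_le_card hX') (by exact_mod_cast card_le_card hC') hXK hCK
  -- the constants
  have e7 : s / N ≤ ε / 8 * s := by
    rw [div_le_iff₀ hN0]
    have e8 : 8 / ε * (ε / 8) = 1 := by field_simp
    have e9 : 1 ≤ ε / 8 * N := by
      rw [← e8, mul_comm]
      exact mul_le_mul_of_nonneg_left hN.le (by positivity)
    nlinarith
  have e10 : (3 * δ ^ 2 + 4 * ((K : ℝ) + 1) * δ) * s ≤ ε / 2 * s := by
    refine mul_le_mul_of_nonneg_right ?_ hs.le
    nlinarith
  nlinarith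

end Pool.RAT
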