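import Pool.Agent.Work.MP_dc37f8_rat.Interface

/-!
# MP_dc37f8_co, project rat: block BMP (helper41)

The number of popular translation types (from BMLP, SQR, POLY).
-/

set_option autoImplicit false
set_option maxHeartbeats 4000000

open Finset

namespace Pool.RAT

open scoped Pointwise

namespace BMP

open Classical in
/-- the sum of all representation numbers -/
theorem sum_rep (A B : Finset ℂ) :
    (A.card : ℝ) * B.card ≤ ∑ d ∈ A - B, ((A.filter (fun a => a - d ∈ B)).card : ℝ) := by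
  have e1 : (A ×ˢ B).card =
      ∑ d ∈ A - B, ((A ×ˢ B).filter (fun z => z.1 - z.2 = d)).card :=
    card_eq_sum_card_fiberwise (fun z hz => by
      have hz' := mem_product.1 hz
      exact sub_mem_sub hz'.1 hz'.2)
  rw [card_product] at e1
  have e2 : (A.card : ℝ) * B.card =
      ∑ d ∈ A - B, (((A ×ˢ B).filter (fun z => z.1 - z.2 = d)).card : ℝ) := by
    exact_mod_cast e1
  rw [e2]
  refine sum_le_sum fun d _ => ?_
  have : ((A ×ˢ B).filter (fun z => z.1 - z.2 = d)).card ≤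
      (A.filter (fun a => a - d ∈ B)).card := by
    refine card_le_card_of_injOn Prod.fst ?_ ?_
    · intro z hz
      have hz' := mem_filter.1 hz
      have hp := mem_product.1 hz'.1
      refine mem_filter.2 ⟨hp.1, ?_⟩
      have : z.1 - d = z.2 := by rw [← hz'.2]; ring
      show z.1 - d ∈ B
      rw [this]; exact hp.2
    · intro z hz z' hz' h
      have h1 := (mem_filter.1 hz).2
      have h2 := (mem_filter.1 hz').2
      have h3 : z.1 = z'.1 := h
      refine Prod.ext h3 ?_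
      have : z.2 = z.1 - d := by rw [← h1]; ring
      rw [this, h3, ← h2]; ring
  exact_mod_cast this

/-- the final inequality between numbers -/
theorem final {a b c s k t η ε₁ T deg SD SQ D m : ℝ} (hk : 1 ≤ k) (hs : 0 < s) (ha0 : 0 < a)
    (hb0 : 0 < b) (hc0 : 0 < c) (ha : a ≤ k * s) (hb : b ≤ k * s) (hc : c ≤ k * s)
    (ha' : s ≤ k * a) (hb' : s ≤ k * b) (hc' : s ≤ k * c)
    (hη0 : 0 < η) (hη : 2400 * k ^ 4 * η = 1) (hε : 1200 * k ^ 3 * ε₁ = 1) (ht0 : 0 < t)
    (ht : t ≤ η ^ 2)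
    (hD : (Real.sqrt a + Real.sqrt b) ^ 2 - ε₁ * s ≤ D) (hD' : D ≤ k * s)
    (hSD : a * b - t * s * (k * s) ≤ SD)
    (hSQ : (Real.sqrt 2 - η) * (a * b) ^ (3 / 4 : ℝ) - Real.sqrt (t * s) * (k * s) ≤ SQ)
    (hT : SD + 2 * Real.sqrt c * SQ + c * D - ε₁ * s * D ≤ T)
    (hdeg : deg ≤ 3 * (k * s)) (hN : 3600 * k ^ 4 ≤ k * s)
    (hpoly : 7805 / 1000 * (a * b * c) ^ (2 / 3 : ℝ) ≤
      a * b + 4 * c * Real.sqrt (a * b) +
        2 * Real.sqrt 2 * Real.sqrt c * (a * b) ^ (3 / 4 : ℝ)) (hm : T - deg ≤ m) :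
    78 / 10 * (a * b * c) ^ (2 / 3 : ℝ) ≤ m := by
  have hk0 : 0 < k := by linarith
  have hks : 0 < k * s := by positivity
  -- the size of `(abc)^(2/3)`
  have hbig : s ^ 2 / k ^ 2 ≤ (a * b * c) ^ (2 / 3 : ℝ) := by
    have h1 : (s / k) ^ 3 ≤ a * b * c := by
      have ha1 : s / k ≤ a := by rw [div_le_iff₀ hk0]; linarith
      have hb1 : s / k ≤ b := by rw [div_le_iff₀ hk0]; linarith
      have hc1 : s / k ≤ c := by rw [div_le_iff₀ hk0]; linarith
      have h0 : 0 ≤ s / k := by positivity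
      calc (s / k) ^ 3 = (s / k) * (s / k) * (s / k) := by ring
        _ ≤ a * b * c := by gcongr
    have h2 : ((s / k) ^ 3) ^ (2 / 3 : ℝ) ≤ (a * b * c) ^ (2 / 3 : ℝ) :=
      Real.rpow_le_rpow (by positivity) h1 (by norm_num)
    have h3 : ((s / k) ^ 3 : ℝ) ^ (2 / 3 : ℝ) = s ^ 2 / k ^ 2 := by
      rw [← Real.rpow_natCast, ← Real.rpow_mul (by positivity)]
      norm_num
      rw [div_pow]
    rw [h3] at h2
    exact h2
  -- square roots
  have hsqc : Real.sqrt c ≤ k * Real.sqrt s := by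
    have h1 : Real.sqrt c ≤ Real.sqrt (k * s) := Real.sqrt_le_sqrt hc
    have h2 : Real.sqrt (k * s) = Real.sqrt k * Real.sqrt s := Real.sqrt_mul hk0.le s
    have h3 : Real.sqrt k ≤ k := by
      rw [Real.sqrt_le_left hk0.le]
      nlinarith
    calc Real.sqrt c ≤ Real.sqrt k * Real.sqrt s := by rw [← h2]; exact h1
      _ ≤ k * Real.sqrt s := by
        have := Real.sqrt_nonneg s
        gcongr
  have hsqt : Real.sqrt (t * s) ≤ η * Real.sqrt s := by
    rw [Real.sqrt_mul ht0.le]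
    have h3 : Real.sqrt t ≤ η := by
      rw [Real.sqrt_le_left hη0.le]
      exact ht
    have := Real.sqrt_nonneg s
    gcongr
  have hss : Real.sqrt s * Real.sqrt s = s := Real.mul_self_sqrt hs.le
  have e1 : Real.sqrt c * Real.sqrt (t * s) ≤ k * η * s := by
    calc Real.sqrt c * Real.sqrt (t * s) ≤ (k * Real.sqrt s) * (η * Real.sqrt s) := by
          have := Real.sqrt_nonneg (t * s)
          have := Real.sqrt_nonneg c
          have := Real.sqrt_nonneg s
          gcongr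
      _ = k * η * (Real.sqrt s * Real.sqrt s) := by ring
      _ = k * η * s := by rw [hss]
  -- `sqrt c (ab)^(3/4) ≤ (ks)^2`
  have e2 : Real.sqrt c * (a * b) ^ (3 / 4 : ℝ) ≤ (k * s) ^ 2 := by
    have h1 : (a * b) ^ (3 / 4 : ℝ) ≤ ((k * s) ^ 2) ^ (3 / 4 : ℝ) := by
      refine Real.rpow_le_rpow (by positivity) ?_ (by norm_num)
      calc a * b ≤ (k * s) * (k * s) := by gcongr
        _ = (k * s) ^ 2 := by ring
    have h2 : ((k * s) ^ 2 : ℝ) ^ (3 / 4 : ℝ) = (k * s) * Real.sqrt (k * s) := by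
      rw [← Real.rpow_natCast, ← Real.rpow_mul hks.le, Real.sqrt_eq_rpow]
      nth_rewrite 2 [← Real.rpow_one (k * s)]
      rw [← Real.rpow_add hks]
      norm_num
    have h4 : Real.sqrt c ≤ Real.sqrt (k * s) := Real.sqrt_le_sqrt hc
    have h5 : Real.sqrt (k * s) * Real.sqrt (k * s) = k * s := Real.mul_self_sqrt hks.le
    calc Real.sqrt c * (a * b) ^ (3 / 4 : ℝ)
        ≤ Real.sqrt (k * s) * ((k * s) * Real.sqrt (k * s)) := by
          have := Real.sqrt_nonneg (k * s)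
          rw [h2] at h1
          have h6 : 0 ≤ (a * b) ^ (3 / 4 : ℝ) := by positivity
          gcongr
      _ = (k * s) * (Real.sqrt (k * s) * Real.sqrt (k * s)) := by ring
      _ = (k * s) ^ 2 := by rw [h5]; ring
  -- `|D| ≥ 4 sqrt(ab)`
  have e3 : 4 * Real.sqrt (a * b) - ε₁ * s ≤ D := by
    have h1 := Real.sq_sqrt ha0.le
    have h2 := Real.sq_sqrt hb0.le
    rw [Real.sqrt_mul ha0.le]
    nlinarith [sq_nonneg (Real.sqrt a - Real.sqrt b)]
  have hε0 : 0 < ε₁ := by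
    by_contra h
    rw [not_lt] at h
    have : 1200 * k ^ 3 * ε₁ ≤ 0 := mul_nonpos_of_nonneg_of_nonpos (by positivity) h
    linarith
  -- the unit of error
  set q : ℝ := s ^ 2 / (1200 * k ^ 2) with hq
  have hq0 : 0 < q := by positivity
  have f1 : ε₁ * s * (k * s) = q := by
    have : ε₁ = 1 / (1200 * k ^ 3) := by
      field_simp
      linarith
    rw [hq, this]
    field_simp
  have f2 : 2 * η * (k * s) ^ 2 = q := by
    have : η = 1 / (2400 * k ^ 4) := by
      field_simp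
      linarith
    rw [hq, this]
    field_simp
    ring
  have hη1 : η ≤ 1 := by
    have : 1 ≤ k ^ 4 := one_le_pow₀ hk
    nlinarith
  have f3 : t * s * (k * s) ≤ q := by
    have h1 : t ≤ η := by nlinarith
    calc t * s * (k * s) ≤ η * s * (k * s) := by gcongr
      _ = η * k * s ^ 2 := by ring
      _ ≤ 2 * η * (k * s) ^ 2 := by
        have h5 : k ≤ k ^ 2 := by nlinarith
        have h6 : η * k * s ^ 2 ≤ η * k ^ 2 * s ^ 2 := by gcongr
        nlinarith [mul_pos (mul_pos hη0 (pow_pos hk0 2)) (pow_pos hs 2)]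
      _ = q := f2
  have f4 : 3 * (k * s) ≤ q := by
    rw [hq, le_div_iff₀ (by positivity)]
    have : 3600 * k ^ 3 ≤ s := by
      have h7 : k * (3600 * k ^ 3) ≤ k * s := by nlinarith
      exact le_of_mul_le_mul_left h7 hk0
    nlinarith
  -- collect
  have g1 : 2 * Real.sqrt c * ((Real.sqrt 2 - η) * (a * b) ^ (3 / 4 : ℝ) -
      Real.sqrt (t * s) * (k * s)) ≤ 2 * Real.sqrt c * SQ := by
    have := Real.sqrt_nonneg c
    gcongr
  have g2 : c * (4 * Real.sqrt (a * b) - ε₁ * s) ≤ c * D := by gcongr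
  have g3 : ε₁ * s * D ≤ q := by
    rw [← f1]
    gcongr
  have g4 : c * (ε₁ * s) ≤ q := by
    rw [← f1]
    calc c * (ε₁ * s) ≤ (k * s) * (ε₁ * s) := by gcongr
      _ = ε₁ * s * (k * s) := by ring
  have g5 : 2 * η * (Real.sqrt c * (a * b) ^ (3 / 4 : ℝ)) ≤ q := by
    rw [← f2]
    gcongr
  have g6 : 2 * (k * s) * (Real.sqrt c * Real.sqrt (t * s)) ≤ q := by
    rw [← f2]
    calc 2 * (k * s) * (Real.sqrt c * Real.sqrt (t * s)) ≤ 2 * (k * s) * (k * η * s) := by gcongr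
      _ = 2 * η * (k * s) ^ 2 := by ring
  have g7 : 6 * q ≤ 5 / 1000 * (a * b * c) ^ (2 / 3 : ℝ) := by
    have : 6 * q = 5 / 1000 * (s ^ 2 / k ^ 2) := by
      rw [hq]; field_simp; norm_num
    rw [this]
    gcongr
  have expand : 2 * Real.sqrt c * ((Real.sqrt 2 - η) * (a * b) ^ (3 / 4 : ℝ) -
      Real.sqrt (t * s) * (k * s)) =
      2 * Real.sqrt 2 * Real.sqrt c * (a * b) ^ (3 / 4 : ℝ) -
      2 * η * (Real.sqrt c * (a * b) ^ (3 / 4 : ℝ)) -
      2 * (k * s) * (Real.sqrt c * Real.sqrt (t * s)) := by ring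
  have expand2 : c * (4 * Real.sqrt (a * b) - ε₁ * s) =
      4 * c * Real.sqrt (a * b) - c * (ε₁ * s) := by ring
  rw [expand] at g1
  rw [expand2] at g2
  linarith

/-- the case `e = 1` -/
theorem core (h1 : Stmt_BMLP) (h2 : Stmt_SQR) (h3 : Stmt_POLY) (K : ℕ) (hK : 1 ≤ K) :
    ∃ (τ : ℝ) (N : ℕ), 0 < τ ∧ ∀ (s : ℝ) (A B C : Finset ℂ), 0 < s →
      s ≤ K * A.card → s ≤ K * B.card → s ≤ K * C.card →
      ((A - B).card : ℝ) ≤ K * s → ((A - C).card : ℝ) ≤ K * s → ((B - C).card : ℝ) ≤ K * s →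
      (∀ E : Finset ℂ, E = A ∨ E = B ∨ E = C → (N : ℝ) * (E.image Complex.im).card ≤ K * s ∧
        ∀ y : ℝ, (N : ℝ) * (E.filter (fun z => z.im = y)).card ≤ K * s) →
      78 / 10 * ((A.card : ℝ) * B.card * C.card) ^ (2 / 3 : ℝ) ≤
        ((((A - B) ×ˢ (A - C)).filter (fun θ => θ.1 ≠ 0 ∧ θ.2 ≠ 0 ∧ θ.1 ≠ θ.2 ∧
          τ * ((A.card : ℝ) * B.card * C.card) ^ (1 / 3 : ℝ) ≤ (rept A B C θ : ℝ))).card : ℝ) := by
  classical
  have hk : (1 : ℝ) ≤ K := by exact_mod_cast hK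
  have hk0 : (0 : ℝ) < K := by linarith
  set k : ℝ := (K : ℝ) with hkdef
  obtain ⟨η, hη⟩ : ∃ η : ℝ, η = 1 / (2400 * k ^ 4) := ⟨_, rfl⟩
  have hη0 : 0 < η := by rw [hη]; positivity
  have hη' : 2400 * k ^ 4 * η = 1 := by rw [hη]; field_simp
  obtain ⟨ε₁, hε⟩ : ∃ ε₁ : ℝ, ε₁ = 1 / (1200 * k ^ 3) := ⟨_, rfl⟩
  have hε0 : 0 < ε₁ := by rw [hε]; positivity
  have hε' : 1200 * k ^ 3 * ε₁ = 1 := by rw [hε]; field_simp
  obtain ⟨τ₁, N₁, hτ₁, H1⟩ := h1 K ε₁ hε0
  obtain ⟨t, ht⟩ : ∃ t : ℝ, t = min τ₁ (η ^ 2) := ⟨_, rfl⟩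
  have ht0 : 0 < t := by rw [ht]; exact lt_min hτ₁ (by positivity)
  have ht1 : t ≤ τ₁ := by rw [ht]; exact min_le_left _ _
  have ht2 : t ≤ η ^ 2 := by rw [ht]; exact min_le_right _ _
  obtain ⟨K', hK'⟩ : ∃ K' : ℕ, K' = max K ⌈1 / t⌉₊ := ⟨_, rfl⟩
  have hK'1 : k ≤ K' := by rw [hK', hkdef]; exact_mod_cast le_max_left _ _
  have hK'2 : 1 / t ≤ K' := by
    rw [hK']
    refine le_trans (Nat.le_ceil _) ?_
    exact_mod_cast le_max_right _ _
  obtain ⟨τ₂, N₂, hτ₂, H2⟩ := h1 K' ε₁ hε0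
  obtain ⟨N₃, H3⟩ := h2 K η hη0
  refine ⟨τ₂ / k, K * N₁ + K * N₂ + K * N₃ + 3600 * K ^ 4, by positivity, ?_⟩
  intro s A B C hs hsA hsB hsC hAB hAC hBC hE
  have hA0 : (0 : ℝ) < A.card := by
    by_contra h
    have : k * (A.card : ℝ) ≤ 0 := mul_nonpos_of_nonneg_of_nonpos hk0.le (not_lt.1 h)
    linarith
  have hB0 : (0 : ℝ) < B.card := by
    by_contra h
    have : k * (B.card : ℝ) ≤ 0 := mul_nonpos_of_nonneg_of_nonpos hk0.le (not_lt.1 h)
    linarith
  have hC0 : (0 : ℝ) < C.card := by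
    by_contra h
    have : k * (C.card : ℝ) ≤ 0 := mul_nonpos_of_nonneg_of_nonpos hk0.le (not_lt.1 h)
    linarith
  have hAn : A.Nonempty := card_pos.1 (by exact_mod_cast hA0)
  have hBn : B.Nonempty := card_pos.1 (by exact_mod_cast hB0)
  have hCn : C.Nonempty := card_pos.1 (by exact_mod_cast hC0)
  have hAle : (A.card : ℝ) ≤ k * s := by
    refine le_trans ?_ hAB
    exact_mod_cast card_le_card_sub_right hBn
  have hBle : (B.card : ℝ) ≤ k * s := by
    refine le_trans ?_ hAB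
    exact_mod_cast card_le_card_sub_left hAn
  have hCle : (C.card : ℝ) ≤ k * s := by
    refine le_trans ?_ hAC
    exact_mod_cast card_le_card_sub_left hAn
  -- rows
  have key : ∀ (Ni : ℕ) (x : ℝ), 0 ≤ x →
      Ni * K ≤ K * N₁ + K * N₂ + K * N₃ + 3600 * K ^ 4 →
      ((K * N₁ + K * N₂ + K * N₃ + 3600 * K ^ 4 : ℕ) : ℝ) * x ≤ k * s → (Ni : ℝ) * x ≤ s := by
    intro Ni x hx hNi hle
    have h5 : ((Ni * K : ℕ) : ℝ) * x ≤ k * s := by
      refine le_trans ?_ hle
      have : ((Ni * K : ℕ) : ℝ) ≤ ((K * N₁ + K * N₂ + K * N₃ + 3600 * K ^ 4 : ℕ) : ℝ) := by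
        exact_mod_cast hNi
      gcongr
    push_cast at h5
    rw [← hkdef] at h5
    have h6 : k * ((Ni : ℝ) * x) ≤ k * s := by linarith [mul_comm k ((Ni : ℝ) * x)]
    exact le_of_mul_le_mul_left h6 hk0
  have hN1 : N₁ * K ≤ K * N₁ + K * N₂ + K * N₃ + 3600 * K ^ 4 := by
    have h := mul_comm N₁ K
    omega
  have hN2 : N₂ * K ≤ K * N₁ + K * N₂ + K * N₃ + 3600 * K ^ 4 := by
    have h := mul_comm N₂ K
    omega
  have hN3 : N₃ * K ≤ K * N₁ + K * N₂ + K * N₃ + 3600 * K ^ 4 := by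
    have h := mul_comm N₃ K
    omega
  have rows : ∀ (Ni : ℕ), Ni * K ≤ K * N₁ + K * N₂ + K * N₃ + 3600 * K ^ 4 →
      ∀ E F : Finset ℂ, (E = A ∨ E = B ∨ E = C) → F ⊆ E →
      (Ni : ℝ) * (F.image Complex.im).card ≤ s ∧
        ∀ y : ℝ, (Ni : ℝ) * (F.filter (fun z => z.im = y)).card ≤ s := by
    intro Ni hNi E F hEE hFE
    obtain ⟨hr1, hr2⟩ := hE E hEE
    refine ⟨?_, fun y => ?_⟩
    · have h7 := key Ni _ (Nat.cast_nonneg _) hNi hr1
      refine le_trans ?_ h7
      have : (F.image Complex.im).card ≤ (E.image Complex.im).card :=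
        card_le_card (image_subset_image hFE)
      gcongr
    · have hr3 := hr2 y
      have h7 := key Ni _ (Nat.cast_nonneg _) hNi hr3
      refine le_trans ?_ h7
      have : (F.filter (fun z => z.im = y)).card ≤ (E.filter (fun z => z.im = y)).card :=
        card_le_card (filter_subset_filter _ hFE)
      gcongr
  -- the popular differences of `A` and `B`
  obtain ⟨r, hr⟩ : ∃ r : ℂ → ℝ, r = fun d => ((A.filter (fun a => a - d ∈ B)).card : ℝ) :=
    ⟨_, rfl⟩
  obtain ⟨D, hDdef⟩ : ∃ D : Finset ℂ, D = (A - B).filter (fun d => t * s ≤ r d) := ⟨_, rfl⟩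
  have hDsub : D ⊆ A - B := by rw [hDdef]; exact filter_subset _ _
  have hDle : (D.card : ℝ) ≤ k * s := le_trans (by exact_mod_cast card_le_card hDsub) hAB
  have hDge : (Real.sqrt A.card + Real.sqrt B.card) ^ 2 - ε₁ * s ≤ (D.card : ℝ) := by
    refine le_trans (H1 s A B hs hsA hsB hAB ?_) ?_
    · intro E hEE
      rw [mem_insert, mem_singleton] at hEE
      rcases hEE with rfl | rfl
      · exact rows N₁ hN1 _ _ (Or.inl rfl) (Subset.refl _)
      · exact rows N₁ hN1 _ _ (Or.inr (Or.inl rfl)) (Subset.refl _)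
    · have : ((A - B).filter
          (fun d => τ₁ * s ≤ ((A.filter (fun x => x - d ∈ B)).card : ℝ))) ⊆ D := by
        intro d hd
        have hd' := mem_filter.1 hd
        rw [hDdef, hr]
        refine mem_filter.2 ⟨hd'.1, le_trans ?_ hd'.2⟩
        gcongr
      exact_mod_cast card_le_card this
  have hr0 : ∀ d, 0 ≤ r d := by intro d; rw [hr]; positivity
  -- sums over `D`
  have hnot : ∀ d ∈ (A - B).filter (fun d => ¬ t * s ≤ r d), r d ≤ t * s := by
    intro d hd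
    exact (not_le.1 (mem_filter.1 hd).2).le
  have hsplit : ∀ f : ℂ → ℝ, ∑ d ∈ A - B, f d =
      ∑ d ∈ D, f d + ∑ d ∈ (A - B).filter (fun d => ¬ t * s ≤ r d), f d := by
    intro f
    rw [hDdef, sum_filter_add_sum_filter_not]
  have hcardnot : (((A - B).filter (fun d => ¬ t * s ≤ r d)).card : ℝ) ≤ k * s :=
    le_trans (by exact_mod_cast card_le_card (filter_subset _ _)) hAB
  have hSD : (A.card : ℝ) * B.card - t * s * (k * s) ≤ ∑ d ∈ D, r d := by
    have e1 := sum_rep A B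
    have e2 : ∑ d ∈ A - B, ((A.filter (fun a => a - d ∈ B)).card : ℝ) = ∑ d ∈ A - B, r d := by
      rw [hr]
    rw [e2, hsplit r] at e1
    have e3 : ∑ d ∈ (A - B).filter (fun d => ¬ t * s ≤ r d), r d ≤ t * s * (k * s) := by
      calc ∑ d ∈ (A - B).filter (fun d => ¬ t * s ≤ r d), r d
          ≤ ∑ _d ∈ (A - B).filter (fun d => ¬ t * s ≤ r d), t * s := sum_le_sum hnot
        _ = (((A - B).filter (fun d => ¬ t * s ≤ r d)).card : ℝ) * (t * s) := by
            rw [sum_const, nsmul_eq_mul]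
        _ ≤ (k * s) * (t * s) := by gcongr
        _ = t * s * (k * s) := by ring
    linarith
  have hSQ : (Real.sqrt 2 - η) * ((A.card : ℝ) * B.card) ^ (3 / 4 : ℝ) -
      Real.sqrt (t * s) * (k * s) ≤ ∑ d ∈ D, Real.sqrt (r d) := by
    have e1 := H3 s A B hs hsA hsB (by
      intro E hEE
      rw [mem_insert, mem_singleton] at hEE
      rcases hEE with rfl | rfl
      · exact rows N₃ hN3 _ _ (Or.inl rfl) (Subset.refl _)
      · exact rows N₃ hN3 _ _ (Or.inr (Or.inl rfl)) (Subset.refl _))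
    have e2 : ∑ d ∈ A - B, Real.sqrt ((A.filter (fun a => a - d ∈ B)).card) =
        ∑ d ∈ A - B, Real.sqrt (r d) := by rw [hr]
    rw [e2, hsplit (fun d => Real.sqrt (r d))] at e1
    have e3 : ∑ d ∈ (A - B).filter (fun d => ¬ t * s ≤ r d), Real.sqrt (r d) ≤
        Real.sqrt (t * s) * (k * s) := by
      calc ∑ d ∈ (A - B).filter (fun d => ¬ t * s ≤ r d), Real.sqrt (r d)
          ≤ ∑ _d ∈ (A - B).filter (fun d => ¬ t * s ≤ r d), Real.sqrt (t * s) :=
            sum_le_sum fun d hd => Real.sqrt_le_sqrt (hnot d hd)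
        _ = (((A - B).filter (fun d => ¬ t * s ≤ r d)).card : ℝ) * Real.sqrt (t * s) := by
            rw [sum_const, nsmul_eq_mul]
        _ ≤ (k * s) * Real.sqrt (t * s) := by
            have := Real.sqrt_nonneg (t * s)
            gcongr
        _ = Real.sqrt (t * s) * (k * s) := by ring
    linarith
  -- the popular pairs
  obtain ⟨G, hG⟩ : ∃ G : ℂ → Finset ℂ, G = fun d => (A - C).filter
    (fun z => τ₂ * s ≤ (rept A B C (d, z) : ℝ)) := ⟨_, rfl⟩
  have hGge : ∀ d ∈ D, (Real.sqrt (r d) + Real.sqrt C.card) ^ 2 - ε₁ * s ≤ ((G d).card : ℝ) := by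
    intro d hd
    have hd' : t * s ≤ r d := by
      rw [hDdef] at hd
      exact (mem_filter.1 hd).2
    have hXA : A.filter (fun a => a - d ∈ B) ⊆ A := filter_subset _ _
    have hX : s ≤ K' * ((A.filter (fun a => a - d ∈ B)).card : ℝ) := by
      have e1 : ((A.filter (fun a => a - d ∈ B)).card : ℝ) = r d := by rw [hr]
      rw [e1]
      calc s = 1 / t * (t * s) := by field_simp
        _ ≤ K' * r d := by gcongr
    have hC' : s ≤ K' * (C.card : ℝ) := by
      refine le_trans hsC ?_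
      gcongr
    have hXC : ((A.filter (fun a => a - d ∈ B) - C).card : ℝ) ≤ K' * s := by
      have e1 : (A.filter (fun a => a - d ∈ B) - C).card ≤ (A - C).card :=
        card_le_card (sub_subset_sub_right hXA)
      calc ((A.filter (fun a => a - d ∈ B) - C).card : ℝ) ≤ ((A - C).card : ℝ) := by
            exact_mod_cast e1
        _ ≤ k * s := hAC
        _ ≤ K' * s := by gcongr
    have e2 := H2 s (A.filter (fun a => a - d ∈ B)) C hs hX hC' hXC (by
      intro E hEE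
      rw [mem_insert, mem_singleton] at hEE
      rcases hEE with rfl | rfl
      · exact rows N₂ hN2 A _ (Or.inl rfl) hXA
      · exact rows N₂ hN2 _ _ (Or.inr (Or.inr rfl)) (Subset.refl _))
    have e3 : ((A.filter (fun a => a - d ∈ B)).card : ℝ) = r d := by rw [hr]
    rw [e3] at e2
    refine le_trans e2 ?_
    have e4 : ((A.filter (fun a => a - d ∈ B) - C).filter (fun z => τ₂ * s ≤
        (((A.filter (fun a => a - d ∈ B)).filter (fun x => x - z ∈ C)).card : ℝ))) ⊆ G d := by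
      intro z hz
      have hz' := mem_filter.1 hz
      rw [hG]
      refine mem_filter.2 ⟨sub_subset_sub_right hXA hz'.1, ?_⟩
      have e5 : (A.filter (fun a => a - d ∈ B)).filter (fun x => x - z ∈ C) =
          A.filter (fun a => a - d ∈ B ∧ a - z ∈ C) := by
        rw [filter_filter]
      have e6 := hz'.2
      rw [e5] at e6
      unfold rept
      convert e6 using 3
    exact_mod_cast card_le_card e4
  -- count the pairs
  obtain ⟨P, hP⟩ : ∃ P : Finset (ℂ × ℂ), P = ((A - B) ×ˢ (A - C)).filter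
    (fun θ => τ₂ * s ≤ (rept A B C θ : ℝ)) := ⟨_, rfl⟩
  have hPcard : ∑ d ∈ D, ((G d).card : ℝ) ≤ (P.card : ℝ) := by
    have e1 : ∑ d ∈ D, (G d).card ≤ P.card := by
      rw [← card_sigma]
      refine card_le_card_of_injOn (fun x => (x.1, x.2)) ?_ ?_
      · intro x hx
        have hx' := mem_sigma.1 hx
        have h8 := hx'.2
        rw [hG] at h8
        have h9 := mem_filter.1 h8
        rw [hP]
        exact mem_filter.2 ⟨mem_product.2 ⟨hDsub hx'.1, h9.1⟩, h9.2⟩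
      · rintro ⟨x1, x2⟩ _ ⟨y1, y2⟩ _ h
        have h9 : x1 = y1 ∧ x2 = y2 := by simpa using h
        rcases h9 with ⟨rfl, rfl⟩
        rfl
    exact_mod_cast e1
  obtain ⟨F, hF⟩ : ∃ F : Finset (ℂ × ℂ), F = ((A - B) ×ˢ (A - C)).filter
    (fun θ => θ.1 ≠ 0 ∧ θ.2 ≠ 0 ∧ θ.1 ≠ θ.2 ∧
      τ₂ / k * ((A.card : ℝ) * B.card * C.card) ^ (1 / 3 : ℝ) ≤ (rept A B C θ : ℝ)) := ⟨_, rfl⟩
  rw [← hF]
  obtain ⟨Z1, hZ1⟩ : ∃ Z1 : Finset (ℂ × ℂ), Z1 = ((A - B) ×ˢ (A - C)).filter
    (fun θ => θ.1 = 0) := ⟨_, rfl⟩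
  obtain ⟨Z2, hZ2⟩ : ∃ Z2 : Finset (ℂ × ℂ), Z2 = ((A - B) ×ˢ (A - C)).filter
    (fun θ => θ.2 = 0) := ⟨_, rfl⟩
  obtain ⟨Z3, hZ3⟩ : ∃ Z3 : Finset (ℂ × ℂ), Z3 = ((A - B) ×ˢ (A - C)).filter
    (fun θ => θ.1 = θ.2) := ⟨_, rfl⟩
  have hZ1c : (Z1.card : ℝ) ≤ k * s := by
    refine le_trans ?_ hAC
    have : Z1.card ≤ (A - C).card := by
      refine card_le_card_of_injOn Prod.snd ?_ ?_
      · intro z hz
        rw [hZ1] at hz
        exact (mem_product.1 (mem_filter.1 hz).1).2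
      · intro z hz z' hz' h
        rw [hZ1] at hz hz'
        exact Prod.ext ((mem_filter.1 hz).2.trans (mem_filter.1 hz').2.symm) h
    exact_mod_cast this
  have hZ2c : (Z2.card : ℝ) ≤ k * s := by
    refine le_trans ?_ hAB
    have : Z2.card ≤ (A - B).card := by
      refine card_le_card_of_injOn Prod.fst ?_ ?_
      · intro z hz
        rw [hZ2] at hz
        exact (mem_product.1 (mem_filter.1 hz).1).1
      · intro z hz z' hz' h
        rw [hZ2] at hz hz'
        exact Prod.ext h ((mem_filter.1 hz).2.trans (mem_filter.1 hz').2.symm)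
    exact_mod_cast this
  have hZ3c : (Z3.card : ℝ) ≤ k * s := by
    refine le_trans ?_ hAB
    have : Z3.card ≤ (A - B).card := by
      refine card_le_card_of_injOn Prod.fst ?_ ?_
      · intro z hz
        rw [hZ3] at hz
        exact (mem_product.1 (mem_filter.1 hz).1).1
      · intro z hz z' hz' h
        rw [hZ3] at hz hz'
        have e1 := (mem_filter.1 hz).2
        have e2 := (mem_filter.1 hz').2
        refine Prod.ext h ?_
        rw [← e1, ← e2]
        exact h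
    exact_mod_cast this
  have hthr : τ₂ / k * ((A.card : ℝ) * B.card * C.card) ^ (1 / 3 : ℝ) ≤ τ₂ * s := by
    have e1 : ((A.card : ℝ) * B.card * C.card) ^ (1 / 3 : ℝ) ≤ k * s := by
      have e2 : (A.card : ℝ) * B.card * C.card ≤ (k * s) ^ 3 := by
        calc (A.card : ℝ) * B.card * C.card ≤ (k * s) * (k * s) * (k * s) := by gcongr
          _ = (k * s) ^ 3 := by ring
      have e3 : ((A.card : ℝ) * B.card * C.card) ^ (1 / 3 : ℝ) ≤
          ((k * s) ^ 3) ^ (1 / 3 : ℝ) := Real.rpow_le_rpow (by positivity) e2 (by norm_num)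
      have e4 : ((k * s) ^ 3 : ℝ) ^ (1 / 3 : ℝ) = k * s := by
        rw [← Real.rpow_natCast, ← Real.rpow_mul (by positivity)]
        norm_num
      rw [e4] at e3
      exact e3
    calc τ₂ / k * ((A.card : ℝ) * B.card * C.card) ^ (1 / 3 : ℝ) ≤ τ₂ / k * (k * s) := by gcongr
      _ = τ₂ * s := by field_simp
  have hcover : P ⊆ F ∪ (Z1 ∪ (Z2 ∪ Z3)) := by
    intro θ hθ
    rw [hP] at hθ
    have hθ' := mem_filter.1 hθ
    rw [mem_union, mem_union, mem_union, hF, hZ1, hZ2, hZ3, mem_filter, mem_filter, mem_filter,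
      mem_filter]
    by_cases c1 : θ.1 = 0
    · exact Or.inr (Or.inl ⟨hθ'.1, c1⟩)
    by_cases c2 : θ.2 = 0
    · exact Or.inr (Or.inr (Or.inl ⟨hθ'.1, c2⟩))
    by_cases c3 : θ.1 = θ.2
    · exact Or.inr (Or.inr (Or.inr ⟨hθ'.1, c3⟩))
    exact Or.inl ⟨hθ'.1, c1, c2, c3, le_trans hthr hθ'.2⟩
  have hPF : (P.card : ℝ) ≤ F.card + (Z1.card + (Z2.card + Z3.card)) := by
    have : P.card ≤ F.card + (Z1.card + (Z2.card + Z3.card)) := by
      refine le_trans (card_le_card hcover) (le_trans (card_union_le _ _) ?_)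
      gcongr
      refine le_trans (card_union_le _ _) ?_
      gcongr
      exact card_union_le _ _
    exact_mod_cast this
  have hN : 3600 * k ^ 4 ≤ k * s := by
    have e1 := (hE A (Or.inl rfl)).1
    have e2 : (1 : ℝ) ≤ ((A.image Complex.im).card : ℝ) := by
      exact_mod_cast (hAn.image _).card_pos
    refine le_trans ?_ e1
    push_cast
    rw [← hkdef]
    have e3 : (0 : ℝ) ≤ k * N₁ := by positivity
    have e4 : (0 : ℝ) ≤ k * N₂ := by positivity
    have e5 : (0 : ℝ) ≤ k * N₃ := by positivity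
    have e6 : (0 : ℝ) ≤ 3600 * k ^ 4 := by positivity
    nlinarith
  refine final (T := ∑ d ∈ D, ((Real.sqrt (r d) + Real.sqrt C.card) ^ 2 - ε₁ * s))
    (deg := Z1.card + (Z2.card + Z3.card)) (SD := ∑ d ∈ D, r d) (SQ := ∑ d ∈ D, Real.sqrt (r d))
    (D := D.card) hk hs hA0 hB0 hC0 hAle hBle hCle hsA hsB hsC hη0 hη' hε' ht0 ht2 hDge hDle
    hSD hSQ ?_ (by linarith) hN (h3 _ _ _ hA0 hB0 hC0) ?_
  · have e1 : ∀ d ∈ D, (Real.sqrt (r d) + Real.sqrt C.card) ^ 2 - ε₁ * s =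
        r d + 2 * Real.sqrt C.card * Real.sqrt (r d) + (C.card - ε₁ * s) := by
      intro d _
      have e2 := Real.sq_sqrt (hr0 d)
      have e3 := Real.sq_sqrt hC0.le
      nlinarith
    rw [sum_congr rfl e1, sum_add_distrib, sum_add_distrib, ← mul_sum, sum_const, nsmul_eq_mul]
    linarith
  · have e1 : ∑ d ∈ D, ((Real.sqrt (r d) + Real.sqrt C.card) ^ 2 - ε₁ * s) ≤
        ∑ d ∈ D, ((G d).card : ℝ) := sum_le_sum hGge
    linarith

end BMP

open Classical in
/-- BMP: the number of popular translation types (from BMLP, SQR, POLY) -/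
theorem stmt_BMP (h1 : Stmt_BMLP) (h2 : Stmt_SQR) (h3 : Stmt_POLY) : Stmt_BMP := by
  intro K
  rcases Nat.eq_zero_or_pos K with rfl | hK
  · refine ⟨1, 0, one_pos, ?_⟩
    intro s e A B C hs _ hGd
    obtain ⟨⟨h4, _⟩, _⟩ := hGd
    simp at h4
    linarith
  obtain ⟨τ, N, hτ, H⟩ := BMP.core h1 h2 h3 K hK
  refine ⟨τ, N, hτ, ?_⟩
  intro s e A B C hs he hGd
  obtain ⟨⟨hsA, hsB, hsC⟩, ⟨hAB, hAC, hBC⟩, hE⟩ := hGd
  obtain ⟨f, hf⟩ : ∃ f : ℂ → ℂ, f = fun z => z / e := ⟨_, rfl⟩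
  have hinj : Function.Injective f := by
    intro x y h
    rw [hf] at h
    exact (div_left_inj' he).1 h
  have hfs : ∀ x y, f x - f y = f (x - y) := by
    intro x y
    rw [hf]
    exact (sub_div x y e).symm
  have hsub : ∀ X Y : Finset ℂ, X.image f - Y.image f = (X - Y).image f := by
    intro X Y
    ext z
    simp only [mem_sub, mem_image]
    constructor
    · rintro ⟨_, ⟨x, hx, rfl⟩, _, ⟨y, hy, rfl⟩, rfl⟩
      exact ⟨x - y, ⟨x, hx, y, hy, rfl⟩, (hfs x y).symm⟩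
    · rintro ⟨_, ⟨x, hx, y, hy, rfl⟩, rfl⟩
      exact ⟨f x, ⟨x, hx, rfl⟩, f y, ⟨y, hy, rfl⟩, hfs x y⟩
  have hcard : ∀ X : Finset ℂ, (X.image f).card = X.card := fun X =>
    card_image_of_injective X hinj
  have hrow : ∀ X : Finset ℂ, (X.image f).image Complex.im = X.image (fun z => (z / e).im) := by
    intro X
    rw [image_image, hf]
    rfl
  have hline : ∀ (X : Finset ℂ) (y : ℝ), ((X.image f).filter (fun z => z.im = y)).card =
      (X.filter (fun z => (z / e).im = y)).card := by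
    intro X y
    rw [filter_image, hcard]
    rw [hf]
  have hm : ∀ (X : Finset ℂ) (z : ℂ), f z ∈ X.image f ↔ z ∈ X := by
    intro X z
    constructor
    · intro h
      obtain ⟨x, hx, hxz⟩ := mem_image.1 h
      rwa [← hinj hxz]
    · exact fun h => mem_image_of_mem f h
  have main := H s (A.image f) (B.image f) (C.image f) hs (by rwa [hcard]) (by rwa [hcard])
    (by rwa [hcard]) (by rwa [hsub, hcard]) (by rwa [hsub, hcard]) (by rwa [hsub, hcard]) (by
      rintro E (rfl | rfl | rfl)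
      · obtain ⟨g1, g2⟩ := hE A (by simp)
        refine ⟨by rw [hrow]; exact g1, fun y => ?_⟩
        rw [hline]
        exact g2 y
      · obtain ⟨g1, g2⟩ := hE B (by simp)
        refine ⟨by rw [hrow]; exact g1, fun y => ?_⟩
        rw [hline]
        exact g2 y
      · obtain ⟨g1, g2⟩ := hE C (by simp)
        refine ⟨by rw [hrow]; exact g1, fun y => ?_⟩
        rw [hline]
        exact g2 y)
  rw [hcard, hcard, hcard, hsub, hsub] at main
  refine le_trans main ?_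
  have hrept : ∀ θ : ℂ × ℂ, rept (A.image f) (B.image f) (C.image f) (f θ.1, f θ.2) =
      rept A B C θ := by
    intro θ
    unfold rept
    rw [filter_image, hcard]
    congr 1
    ext a
    simp only [mem_filter, hfs, hm]
  have hf0 : ∀ z, f z = 0 → z = 0 := by
    intro z hz
    have : f z = f 0 := by rw [hz, hf]; simp
    exact hinj this
  have : (((A - B).image f ×ˢ (A - C).image f).filter (fun θ => θ.1 ≠ 0 ∧ θ.2 ≠ 0 ∧ θ.1 ≠ θ.2 ∧
      τ * ((A.card : ℝ) * B.card * C.card) ^ (1 / 3 : ℝ) ≤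
        (rept (A.image f) (B.image f) (C.image f) θ : ℝ))) ⊆
      (((A - B) ×ˢ (A - C)).filter (fun θ => θ.1 ≠ 0 ∧ θ.2 ≠ 0 ∧ θ.1 ≠ θ.2 ∧
        τ * ((A.card : ℝ) * B.card * C.card) ^ (1 / 3 : ℝ) ≤ (rept A B C θ : ℝ))).image
        (fun θ => (f θ.1, f θ.2)) := by
    rintro ⟨x, y⟩ hθ
    obtain ⟨h5, h6, h7, h8, h9⟩ := mem_filter.1 hθ
    obtain ⟨h10, h11⟩ := mem_product.1 h5
    obtain ⟨u, hu, hux⟩ := mem_image.1 h10
    obtain ⟨v, hv, hvy⟩ := mem_image.1 h11
    simp only at hux hvy h6 h7 h8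
    subst hux
    subst hvy
    refine mem_image.2 ⟨(u, v), mem_filter.2 ⟨mem_product.2 ⟨hu, hv⟩, ?_, ?_, ?_, ?_⟩, rfl⟩
    · intro h
      have h' : u = 0 := h
      exact h6 (by rw [h', hf]; simp)
    · intro h
      have h' : v = 0 := h
      exact h7 (by rw [h', hf]; simp)
    · intro h
      have h' : u = v := h
      exact h8 (by rw [h'])
    · rw [hrept (u, v)] at h9
      exact h9
  exact_mod_cast le_trans (card_le_card this) card_image_le

end Pool.RAT
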