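import Pool.Agent.Work.MP_dc37f8_rat.Interface

/-!
# MP_dc37f8_co, block BOX: `Q` is thick in the directions of a lattice (helper43)
-/

set_option autoImplicit false
set_option maxHeartbeats 4000000

open Finset

namespace Pool.RAT

open Pool.BK Pool.BD Pool.RF

open scoped Pointwise

namespace BOX

/-- `D + (D + Z) ⊆ X + D + Z` -/
theorem absorb {D X : Finset ℂ} (h : D + D ⊆ X + D) (Z : Finset ℂ) :
    Z + D + D ⊆ Z + X + D := by
  rw [add_assoc, add_assoc]
  exact Finset.add_subset_add_left h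

theorem card2 (A B : Finset ℂ) {a b : ℕ} (hA : A.card ≤ a) (hB : B.card ≤ b) :
    (A + B).card ≤ a * b :=
  Finset.card_add_le.trans (Nat.mul_le_mul hA hB)

end BOX

theorem stmt_BOX (h1 : Stmt_LONG) : Stmt_BOX := by
  intro K K'
  refine ⟨K ^ 6 * K' ^ 2 + K ^ 4, ?_⟩
  intro H N
  obtain ⟨n₀, hn₀⟩ := h1 K (2 * H * N)
  refine ⟨K * n₀ + 1, ?_⟩
  intro D Q X ω w h u f hnQ hL hX hwD hh hu hf hf0 heq
  obtain ⟨h0, hneg, hDK, ⟨X₀, hX₀, hDD⟩, ⟨Y, hY, hQY⟩⟩ := hL
  have hQD : Q.card ≤ K * D.card := (Finset.card_le_card hQY).trans (BOX.card2 Y D hY le_rfl)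
  have hDbig : n₀ ≤ D.card := by
    by_contra hcon
    have h2 : D.card ≤ n₀ := by omega
    have h3 : K * D.card ≤ K * n₀ := Nat.mul_le_mul_left _ h2
    omega
  obtain ⟨v₁, hv₁, hv⟩ := hn₀ D X₀ hDbig h0 hneg hX₀ hDD
  have hQQ : (Q - Q).card ≤ K ^ 4 * Q.card := by
    have hsub : Q - Q ⊆ (Y - Y) + X₀ + D := by
      intro z hz
      obtain ⟨a, ha, b, hb, rfl⟩ := Finset.mem_sub.1 hz
      obtain ⟨y, hy, d, hd, rfl⟩ := Finset.mem_add.1 (hQY ha)
      obtain ⟨y', hy', d', hd', rfl⟩ := Finset.mem_add.1 (hQY hb)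
      have hd'' : -d' ∈ D := by
        rw [← hneg]
        exact Finset.neg_mem_neg hd'
      obtain ⟨x, hx, e, he, hxe⟩ := Finset.mem_add.1 (hDD (Finset.add_mem_add hd hd''))
      have h2 : y + d - (y' + d') = (y - y') + x + e := by
        have : y + d - (y' + d') = (y - y') + (d + -d') := by ring
        rw [this, ← hxe]
        ring
      rw [h2]
      exact Finset.add_mem_add (Finset.add_mem_add (Finset.sub_mem_sub hy hy') hx) he
    calc (Q - Q).card ≤ ((Y - Y) + X₀ + D).card := Finset.card_le_card hsub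
      _ ≤ (K * K) * K * (K * Q.card) :=
        BOX.card2 _ _ (BOX.card2 _ _
          (Finset.card_sub_le.trans (Nat.mul_le_mul hY hY)) hX₀) hDK
      _ = K ^ 4 * Q.card := by ring
  refine ⟨hQQ.trans ?_, (f : ℂ) * v₁, ?_, ?_⟩
  · rw [add_mul]
    exact Nat.le_add_left _ _
  · exact mul_ne_zero (by exact_mod_cast hf0) hv₁
  · have hsub : Q + box ω ((f : ℂ) * v₁) N ⊆ (Y + X + X + X₀ + X₀ + X₀ + X₀) + D := by
      have hbox : box ω ((f : ℂ) * v₁) N ⊆ (D + D) + ((X + D) + (X + D)) := by
        intro z hz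
        unfold box at hz
        obtain ⟨⟨i, j⟩, hij, rfl⟩ := Finset.mem_image.1 hz
        rw [Finset.mem_product, Finset.mem_range, Finset.mem_range] at hij
        obtain ⟨hi, hj⟩ := hij
        simp only at hi hj
        have hi' : (i : ℤ) < N := by exact_mod_cast hi
        have hj' : (j : ℤ) < N := by exact_mod_cast hj
        have hi0 : (0 : ℤ) ≤ i := Int.natCast_nonneg i
        have hj0 : (0 : ℤ) ≤ j := Int.natCast_nonneg j
        have e1 : (((i : ℂ) + j * ω) * ((f : ℂ) * v₁)) =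
            (((i : ℤ) * f - (j : ℤ) * u : ℤ) : ℂ) * v₁ + w * ((((j : ℤ) * (h : ℤ) : ℤ) : ℂ) * v₁) := by
          push_cast
          have : w * ((j : ℂ) * (h : ℂ) * v₁) = (j : ℂ) * ((h : ℂ) * w) * v₁ := by ring
          rw [this, heq]
          ring
        simp only
        rw [e1]
        have b1 : |(i : ℤ) * f - (j : ℤ) * u| ≤ ((2 * H * N : ℕ) : ℤ) := by
          have c1 : |(i : ℤ) * f| ≤ N * H := by
            rw [abs_mul, abs_of_nonneg hi0]
            exact mul_le_mul hi'.le hf (abs_nonneg _) (hi0.trans hi'.le)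
          have c2 : |(j : ℤ) * u| ≤ N * H := by
            rw [abs_mul, abs_of_nonneg hj0]
            exact mul_le_mul hj'.le hu (abs_nonneg _) (hj0.trans hj'.le)
          have c3 := abs_sub ((i : ℤ) * f) ((j : ℤ) * u)
          push_cast
          linarith
        have b2 : |(j : ℤ) * (h : ℤ)| ≤ ((2 * H * N : ℕ) : ℤ) := by
          have hh' : (h : ℤ) ≤ H := by exact_mod_cast hh
          have hh0 : (0 : ℤ) ≤ h := Int.natCast_nonneg h
          rw [abs_of_nonneg (mul_nonneg hj0 hh0)]
          have c1 : (j : ℤ) * h ≤ N * H := mul_le_mul hj'.le hh' hh0 (hj0.trans hj'.le)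
          have c2 : (0 : ℤ) ≤ N * H := le_trans (mul_nonneg hj0 hh0) c1
          push_cast
          linarith
        refine Finset.add_mem_add (hv _ b1) ?_
        obtain ⟨p, hp, q, hq, hpq⟩ := Finset.mem_add.1 (hv _ b2)
        rw [← hpq, mul_add]
        exact Finset.add_mem_add (hwD (Finset.mem_image_of_mem _ hp))
          (hwD (Finset.mem_image_of_mem _ hq))
      calc Q + box ω ((f : ℂ) * v₁) N
          ⊆ (Y + D) + ((D + D) + ((X + D) + (X + D))) :=
            Finset.add_subset_add hQY hbox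
        _ = (Y + X + X) + D + D + D + D + D := by
            simp only [add_assoc, add_comm, add_left_comm]
        _ ⊆ (Y + X + X) + X₀ + D + D + D + D := by
            refine Finset.add_subset_add_right (Finset.add_subset_add_right
              (Finset.add_subset_add_right ?_))
            exact BOX.absorb hDD _
        _ ⊆ (Y + X + X + X₀) + X₀ + D + D + D := by
            refine Finset.add_subset_add_right (Finset.add_subset_add_right ?_)
            exact BOX.absorb hDD _
        _ ⊆ (Y + X + X + X₀ + X₀) + X₀ + D + D := by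
            refine Finset.add_subset_add_right ?_
            exact BOX.absorb hDD _
        _ ⊆ (Y + X + X + X₀ + X₀ + X₀) + X₀ + D := BOX.absorb hDD _
    calc (Q + box ω ((f : ℂ) * v₁) N).card
        ≤ ((Y + X + X + X₀ + X₀ + X₀ + X₀) + D).card := Finset.card_le_card hsub
      _ ≤ (K * K' * K' * K * K * K * K) * (K * Q.card) :=
        BOX.card2 _ _ (BOX.card2 _ _ (BOX.card2 _ _ (BOX.card2 _ _ (BOX.card2 _ _
          (BOX.card2 _ _ (BOX.card2 _ _ hY hX) hX) hX₀) hX₀) hX₀) hX₀) hDK
      _ = K ^ 6 * K' ^ 2 * Q.card := by ring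
      _ ≤ (K ^ 6 * K' ^ 2 + K ^ 4) * Q.card := by
        rw [add_mul]
        exact Nat.le_add_right _ _

end Pool.RAT
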