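import Pool.Agent.Work.MP_dc37f8_rat.Interface

/-!
# Block CNT (helper23)
-/

set_option autoImplicit false

open Finset

namespace Pool.RAT

namespace CNT

theorem or_zero (ω : ℂ) : Or ω 0 := ⟨0, 0, by simp⟩

theorem or_neg {ω z : ℂ} (h : Or ω z) : Or ω (-z) := by
  obtain ⟨x, y, rfl⟩ := h
  exact ⟨-x, -y, by push_cast; ring⟩

theorem or_add {ω z z' : ℂ} (h : Or ω z) (h' : Or ω z') : Or ω (z + z') := by
  obtain ⟨x, y, rfl⟩ := h
  obtain ⟨x', y', rfl⟩ := h'
  exact ⟨x + x', y + y', by push_cast; ring⟩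

theorem or_sub {ω z z' : ℂ} (h : Or ω z) (h' : Or ω z') : Or ω (z - z') := by
  rw [sub_eq_add_neg]; exact or_add h (or_neg h')

theorem or_nat {ω z : ℂ} (B : ℕ) (h : Or ω z) : Or ω (B * z) := by
  obtain ⟨x, y, rfl⟩ := h
  exact ⟨B * x, B * y, by push_cast; ring⟩

theorem or_symm {ω e a b : ℂ} (h : Or ω ((a - b) / e)) : Or ω ((b - a) / e) := by
  have := or_neg h
  rwa [← neg_div, neg_sub] at this

theorem or_trans {ω e a b c : ℂ} (h : Or ω ((a - b) / e)) (h' : Or ω ((b - c) / e)) :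
    Or ω ((a - c) / e) := by
  have := or_add h h'
  rwa [← add_div, sub_add_sub_cancel] at this

/-- fine congruence implies coarse congruence -/
theorem or_coarse {ω e a : ℂ} {B : ℕ} (hB : 1 ≤ B) (h : Or ω (a / (B * e))) : Or ω (a / e) := by
  have hB0 : (B : ℂ) ≠ 0 := by exact_mod_cast (by omega : B ≠ 0)
  have := or_nat B h
  rcases eq_or_ne e 0 with rfl | he
  · simpa using or_zero ω
  · have e1 : (B : ℂ) * (a / (B * e)) = a / e := by field_simp
    rwa [e1] at this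

theorem cls_congr {ω e : ℂ} {Q : Finset ℂ} {a b : ℂ} (h : Or ω ((a - b) / e)) :
    cls ω e Q a = cls ω e Q b := by
  classical
  unfold cls
  ext q
  simp only [mem_filter]
  constructor
  · rintro ⟨h1, h2⟩; exact ⟨h1, or_trans h2 h⟩
  · rintro ⟨h1, h2⟩; exact ⟨h1, or_trans h2 (or_symm h)⟩

theorem mem_cls {ω e : ℂ} {Q : Finset ℂ} {a q : ℂ} :
    q ∈ cls ω e Q a ↔ q ∈ Q ∧ Or ω ((q - a) / e) := by
  classical
  unfold cls
  rw [mem_filter]

theorem fine_card {ω e : ℂ} {B : ℕ} {Q : Finset ℂ} (hE : Eqd ω B e Q) {q : ℂ} (hq : q ∈ Q) :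
    B ^ 2 * (cls ω (B * e) Q q).card = (cls ω e Q q).card := by
  have := hE q hq 0 0
  simpa using this

/-- the part of a coarse class in a fine class -/
theorem fil_card {ω e : ℂ} {B : ℕ} {Q : Finset ℂ} (hB : 1 ≤ B) (hE : Eqd ω B e Q) (p i : ℂ)
    (S : Finset ℂ) (hS : ∀ b ∈ S, b ∈ Q ∧ Or ω ((b - i) / e) ∧ Or ω ((b - p) / (B * e))) :
    B ^ 2 * S.card ≤ (cls ω e Q i).card := by
  classical
  rcases S.eq_empty_or_nonempty with rfl | ⟨b, hb⟩
  · simp
  · obtain ⟨h1, h2, h3⟩ := hS b hb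
    rw [← cls_congr h2, ← fine_card hE h1]
    apply Nat.mul_le_mul_left
    apply card_le_card
    intro b' hb'
    obtain ⟨h1', h2', h3'⟩ := hS b' hb'
    rw [mem_cls]
    exact ⟨h1', or_trans h3' (or_symm h3)⟩

/-- reduction modulo `B` -/
theorem exists_res {ω e b i : ℂ} {B : ℕ} (hB : 1 ≤ B) (he : e ≠ 0) (h : Or ω ((b - i) / e)) :
    ∃ u ∈ range B ×ˢ range B,
      Or ω ((b - (i + ((u.1 : ℂ) + u.2 * ω) * e)) / (B * e)) := by
  obtain ⟨x, y, hxy⟩ := h
  have hB' : (0 : ℤ) < B := by exact_mod_cast hB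
  have hB0 : (B : ℂ) ≠ 0 := by exact_mod_cast (by omega : B ≠ 0)
  have key : ∀ x : ℤ, ∃ r < B, ∃ k : ℤ, x = B * k + r := by
    intro x
    refine ⟨(x % B).toNat, ?_, x / B, ?_⟩
    · have := Int.emod_lt_of_pos x hB'
      have h0 := Int.emod_nonneg x hB'.ne'
      omega
    · have h0 := Int.emod_nonneg x hB'.ne'
      rw [Int.toNat_of_nonneg h0]
      exact (Int.mul_ediv_add_emod x B).symm
  obtain ⟨r, hr, k, hk⟩ := key x
  obtain ⟨s, hs, l, hl⟩ := key y
  refine ⟨(r, s), by simp [hr, hs], k, l, ?_⟩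
  have hb : b = i + ((x : ℂ) + y * ω) * e := by
    rw [div_eq_iff he] at hxy
    rw [← hxy]; ring
  rw [div_eq_iff (mul_ne_zero hB0 he), hb, hk, hl]
  push_cast
  ring

/-- the part of a coarse class given by a condition on `w b` -/
theorem fil_card_w {ω e w : ℂ} {B h : ℕ} {Q : Finset ℂ} (hB : 1 ≤ B) (he : e ≠ 0)
    (hA : AR ω B h w) (hE : Eqd ω B e Q) (p i : ℂ)
    (S : Finset ℂ) (hS : ∀ b ∈ S, b ∈ Q ∧ Or ω ((b - i) / e) ∧ Or ω (w * (b / e) - p)) :
    h * S.card ≤ (cls ω e Q i).card := by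
  classical
  have hB0 : (B : ℂ) ≠ 0 := by exact_mod_cast (by omega : B ≠ 0)
  set ζ : ℂ := p - w * (i / e) with hζ
  set U := (range B ×ˢ range B).filter (fun z => Or ω (w * ((z.1 : ℂ) + z.2 * ω) - ζ)) with hU
  have hcov : S ⊆ U.biUnion (fun u => S.filter (fun b =>
      Or ω ((b - (i + ((u.1 : ℂ) + u.2 * ω) * e)) / (B * e)))) := by
    intro b hb
    obtain ⟨h1, h2, h3⟩ := hS b hb
    obtain ⟨u, hu, hu'⟩ := exists_res hB he h2
    rw [mem_biUnion]
    refine ⟨u, ?_, ?_⟩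
    · rw [hU, mem_filter]
      refine ⟨hu, ?_⟩
      have h4 := hA.1 _ hu'
      have h5 := or_sub h3 h4
      have e1 : w * (b / e) - p - w * (B * ((b - (i + ((u.1 : ℂ) + u.2 * ω) * e)) / (B * e))) =
          w * ((u.1 : ℂ) + u.2 * ω) - ζ := by
        rw [hζ]; field_simp; ring
      rwa [e1] at h5
    · rw [mem_filter]; exact ⟨hb, hu'⟩
  have h1 : B ^ 2 * S.card ≤ U.card * (cls ω e Q i).card := by
    calc B ^ 2 * S.card ≤ B ^ 2 * ∑ u ∈ U, (S.filter (fun b =>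
          Or ω ((b - (i + ((u.1 : ℂ) + u.2 * ω) * e)) / (B * e)))).card :=
          Nat.mul_le_mul_left _ ((card_le_card hcov).trans card_biUnion_le)
      _ = ∑ u ∈ U, B ^ 2 * (S.filter (fun b =>
          Or ω ((b - (i + ((u.1 : ℂ) + u.2 * ω) * e)) / (B * e)))).card := mul_sum _ _ _
      _ ≤ ∑ u ∈ U, (cls ω e Q i).card := by
          apply sum_le_sum
          intro u _
          apply fil_card hB hE (i + ((u.1 : ℂ) + u.2 * ω) * e) i
          intro b hb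
          rw [mem_filter] at hb
          obtain ⟨h1, h2, h3⟩ := hS b hb.1
          exact ⟨h1, h2, hb.2⟩
      _ = U.card * (cls ω e Q i).card := by rw [sum_const, smul_eq_mul]
  have h2 : h * U.card ≤ B ^ 2 := hA.2 ζ
  have hBp : 0 < B ^ 2 := by positivity
  have h3 : B ^ 2 * (h * S.card) ≤ B ^ 2 * (cls ω e Q i).card := by
    calc B ^ 2 * (h * S.card) = h * (B ^ 2 * S.card) := by ring
      _ ≤ h * (U.card * (cls ω e Q i).card) := Nat.mul_le_mul_left _ h1
      _ = (h * U.card) * (cls ω e Q i).card := by ring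
      _ ≤ B ^ 2 * (cls ω e Q i).card := Nat.mul_le_mul_right _ h2
  exact Nat.le_of_mul_le_mul_left h3 hBp

/-- a set of triples in the product of three classes with small fibres -/
theorem triple_card (X : Finset ℂ) (S : Finset (ℂ × ℂ × ℂ)) (k m₁ m₂ : ℕ)
    (hS : ∀ z ∈ S, z.1 ∈ X)
    (h1 : ∀ a ∈ X, k * ((S.filter (fun z => z.1 = a)).image (fun z => z.2.1)).card ≤ m₁)
    (h2 : ∀ a ∈ X, k * ((S.filter (fun z => z.1 = a)).image (fun z => z.2.2)).card ≤ m₂) :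
    k ^ 2 * S.card ≤ X.card * (m₁ * m₂) := by
  classical
  rw [card_eq_sum_card_fiberwise (f := fun z => z.1) (t := X) (fun z hz => hS z hz), mul_sum,
    ← smul_eq_mul (a := X.card), ← sum_const]
  apply sum_le_sum
  intro a ha
  set F := S.filter (fun z => z.1 = a) with hF
  have hc : F.card ≤ (F.image (fun z => z.2.1)).card * (F.image (fun z => z.2.2)).card := by
    rw [← card_product]
    apply card_le_card_of_injOn (fun z => (z.2.1, z.2.2))
    · intro z hz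
      have hz' : z ∈ F := hz
      simp only [coe_product, Set.mem_prod]
      exact ⟨mem_coe.2 (mem_image_of_mem _ hz'), mem_coe.2 (mem_image_of_mem _ hz')⟩
    · intro z hz z' hz' hzz
      have h1 : z.1 = a := (mem_filter.1 (show z ∈ F from hz)).2
      have h2 : z'.1 = a := (mem_filter.1 (show z' ∈ F from hz')).2
      simp only [Prod.mk.injEq] at hzz
      exact Prod.ext (h1.trans h2.symm) (Prod.ext hzz.1 hzz.2)
  calc k ^ 2 * F.card ≤ k ^ 2 * ((F.image (fun z => z.2.1)).card *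
        (F.image (fun z => z.2.2)).card) := Nat.mul_le_mul_left _ hc
    _ = (k * (F.image (fun z => z.2.1)).card) * (k * (F.image (fun z => z.2.2)).card) := by ring
    _ ≤ m₁ * m₂ := Nat.mul_le_mul (h1 a ha) (h2 a ha)

end CNT

open CNT

set_option maxHeartbeats 4000000 in
theorem stmt_CNT : Stmt_CNT := by
  classical
  intro ω e w B h Q c T 𝒟 i i' hω he hw hB hh hAR hE hInv hc hD hi hi'
  have hB0 : (B : ℂ) ≠ 0 := by exact_mod_cast (by omega : B ≠ 0)
  have hBr : (0 : ℝ) < B := by exact_mod_cast hB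
  have hhr : (0 : ℝ) < h := by exact_mod_cast hh
  obtain ⟨hTQ, hT1, hT2⟩ := hInv
  have hiQ := hi
  have hiQ' := hi'
  rw [mem_product, mem_product] at hiQ hiQ'
  set Ti := T.filter (fun z => Ce ω e z i) with hTi
  set Ti' := T.filter (fun z' => Ce ω e z' i') with hTi'
  -- the pairs
  set S := Ti.filter (fun z => ∃ z' ∈ Ti', ∃ θ ∈ 𝒟 z, (w * θ.1, w * θ.2) ∈ 𝒟 z') with hS
  -- the congruences
  have cong : ∀ z ∈ T, ∀ z' ∈ T, Ce ω e z' i' → ∀ θ ∈ 𝒟 z, (w * θ.1, w * θ.2) ∈ 𝒟 z' →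
      Or ω (w * ((z.1 - z.2.1) / e) - (i'.1 - i'.2.1) / e) ∧
      Or ω (w * ((z.1 - z.2.2) / e) - (i'.1 - i'.2.2) / e) := by
    intro z hz z' hz' hc' θ hθ hθ'
    obtain ⟨a1, a2⟩ := hT2 z hz θ hθ
    obtain ⟨b1, b2⟩ := hT2 z' hz' _ hθ'
    obtain ⟨c1, c2, c3⟩ := hc'
    have a1' := hAR.1 _ a1
    have a2' := hAR.1 _ a2
    have b1' := or_coarse hB b1
    have b2' := or_coarse hB b2
    constructor
    · have := or_add (or_sub b1' a1') (or_sub c1 c2)
      have e1 : (w * θ.1 - (z'.1 - z'.2.1)) / e - w * (B * ((θ.1 - (z.1 - z.2.1)) / (B * e))) +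
          ((z'.1 - i'.1) / e - (z'.2.1 - i'.2.1) / e) =
          w * ((z.1 - z.2.1) / e) - (i'.1 - i'.2.1) / e := by
        field_simp; ring
      rwa [← e1]
    · have := or_add (or_sub b2' a2') (or_sub c1 c3)
      have e1 : (w * θ.2 - (z'.1 - z'.2.2)) / e - w * (B * ((θ.2 - (z.1 - z.2.2)) / (B * e))) +
          ((z'.1 - i'.1) / e - (z'.2.2 - i'.2.2) / e) =
          w * ((z.1 - z.2.2) / e) - (i'.1 - i'.2.2) / e := by
        field_simp; ring
      rwa [← e1]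
  -- number of elements of S
  have hScard : h ^ 2 * S.card ≤ (cls ω e Q i.1).card *
      ((cls ω e Q i.2.1).card * (cls ω e Q i.2.2).card) := by
    apply triple_card
    · intro z hz
      rw [hS, mem_filter, hTi, mem_filter] at hz
      have hzQ := hTQ hz.1.1
      rw [mem_product, mem_product] at hzQ
      rw [mem_cls]
      exact ⟨hzQ.1, hz.1.2.1⟩
    · intro a _
      apply fil_card_w hB he hAR hE (w * (a / e) - (i'.1 - i'.2.1) / e) i.2.1
      intro b hb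
      rw [mem_image] at hb
      obtain ⟨z, hz, rfl⟩ := hb
      rw [mem_filter, hS, mem_filter, hTi, mem_filter] at hz
      obtain ⟨⟨⟨hzT, hzc⟩, z', hz', θ, hθ, hθ'⟩, hza⟩ := hz
      rw [hTi', mem_filter] at hz'
      have hzQ := hTQ hzT
      rw [mem_product, mem_product] at hzQ
      refine ⟨hzQ.2.1, hzc.2.1, ?_⟩
      have := or_neg (cong z hzT z' hz'.1 hz'.2 θ hθ hθ').1
      have e1 : -(w * ((z.1 - z.2.1) / e) - (i'.1 - i'.2.1) / e) =
          w * (z.2.1 / e) - (w * (a / e) - (i'.1 - i'.2.1) / e) := by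
        rw [← hza]; field_simp; ring
      rwa [← e1]
    · intro a _
      apply fil_card_w hB he hAR hE (w * (a / e) - (i'.1 - i'.2.2) / e) i.2.2
      intro b hb
      rw [mem_image] at hb
      obtain ⟨z, hz, rfl⟩ := hb
      rw [mem_filter, hS, mem_filter, hTi, mem_filter] at hz
      obtain ⟨⟨⟨hzT, hzc⟩, z', hz', θ, hθ, hθ'⟩, hza⟩ := hz
      rw [hTi', mem_filter] at hz'
      have hzQ := hTQ hzT
      rw [mem_product, mem_product] at hzQ
      refine ⟨hzQ.2.2, hzc.2.2, ?_⟩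
      have := or_neg (cong z hzT z' hz'.1 hz'.2 θ hθ hθ').2
      have e1 : -(w * ((z.1 - z.2.2) / e) - (i'.1 - i'.2.2) / e) =
          w * (z.2.2 / e) - (w * (a / e) - (i'.1 - i'.2.2) / e) := by
        rw [← hza]; field_simp; ring
      rwa [← e1]
  -- number of z' for given θ
  have hcount : ∀ θ : ℂ × ℂ, (B ^ 2) ^ 2 * (Ti'.filter (fun z' => θ ∈ 𝒟 z')).card ≤
      (cls ω e Q i'.1).card * ((cls ω e Q i'.2.1).card * (cls ω e Q i'.2.2).card) := by
    intro θ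
    apply triple_card
    · intro z hz
      rw [mem_filter, hTi', mem_filter] at hz
      have hzQ := hTQ hz.1.1
      rw [mem_product, mem_product] at hzQ
      rw [mem_cls]
      exact ⟨hzQ.1, hz.1.2.1⟩
    · intro a _
      apply fil_card hB hE (a - θ.1) i'.2.1
      intro b hb
      rw [mem_image] at hb
      obtain ⟨z, hz, rfl⟩ := hb
      rw [mem_filter, mem_filter, hTi', mem_filter] at hz
      obtain ⟨⟨⟨hzT, hzc⟩, hθ⟩, hza⟩ := hz
      have hzQ := hTQ hzT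
      rw [mem_product, mem_product] at hzQ
      refine ⟨hzQ.2.1, hzc.2.1, ?_⟩
      have := (hT2 z hzT θ hθ).1
      have e1 : θ.1 - (z.1 - z.2.1) = z.2.1 - (a - θ.1) := by rw [← hza]; ring
      rwa [← e1]
    · intro a _
      apply fil_card hB hE (a - θ.2) i'.2.2
      intro b hb
      rw [mem_image] at hb
      obtain ⟨z, hz, rfl⟩ := hb
      rw [mem_filter, mem_filter, hTi', mem_filter] at hz
      obtain ⟨⟨⟨hzT, hzc⟩, hθ⟩, hza⟩ := hz
      have hzQ := hTQ hzT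
      rw [mem_product, mem_product] at hzQ
      refine ⟨hzQ.2.2, hzc.2.2, ?_⟩
      have := (hT2 z hzT θ hθ).2
      have e1 : θ.2 - (z.1 - z.2.2) = z.2.2 - (a - θ.2) := by rw [← hza]; ring
      rwa [← e1]
  -- the inner sums
  have inner0 : ∀ z ∈ Ti, z ∉ S → ∑ z' ∈ Ti',
      (((𝒟 z).filter (fun θ => (w * θ.1, w * θ.2) ∈ 𝒟 z')).card : ℝ) = 0 := by
    intro z hz hzS
    apply sum_eq_zero
    intro z' hz'
    rw [Nat.cast_eq_zero, card_eq_zero, filter_eq_empty_iff]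
    intro θ hθ hθ'
    apply hzS
    rw [hS, mem_filter]
    exact ⟨hz, z', hz', θ, hθ, hθ'⟩
  have hmi' : 0 ≤ mm ω e Q i' := by unfold mm; positivity
  have hmi : 0 ≤ mm ω e Q i := by unfold mm; positivity
  have inner1 : ∀ z ∈ Ti, ∑ z' ∈ Ti',
      (((𝒟 z).filter (fun θ => (w * θ.1, w * θ.2) ∈ 𝒟 z')).card : ℝ) ≤
      c * (mm ω e Q i) ^ (2 / 3 : ℝ) / (B : ℝ) ^ 4 * (mm ω e Q i' / (B : ℝ) ^ 4) := by
    intro z hz
    rw [hTi, mem_filter] at hz
    have e1 : ∑ z' ∈ Ti', (((𝒟 z).filter (fun θ => (w * θ.1, w * θ.2) ∈ 𝒟 z')).card : ℝ) =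
        ∑ θ ∈ 𝒟 z, ((Ti'.filter (fun z' => (w * θ.1, w * θ.2) ∈ 𝒟 z')).card : ℝ) := by
      simp_rw [card_filter, Nat.cast_sum]
      exact sum_comm
    rw [e1]
    have hmz : mm ω e Q z = mm ω e Q i := by
      unfold mm
      rw [cls_congr hz.2.1, cls_congr hz.2.2.1, cls_congr hz.2.2.2]
    calc ∑ θ ∈ 𝒟 z, ((Ti'.filter (fun z' => (w * θ.1, w * θ.2) ∈ 𝒟 z')).card : ℝ)
        ≤ ∑ θ ∈ 𝒟 z, mm ω e Q i' / (B : ℝ) ^ 4 := by
          apply sum_le_sum
          intro θ _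
          rw [le_div_iff₀ (by positivity)]
          have := hcount (w * θ.1, w * θ.2)
          have h2 : (((B ^ 2) ^ 2 * (Ti'.filter (fun z' => (w * θ.1, w * θ.2) ∈ 𝒟 z')).card : ℕ) : ℝ)
              ≤ ((cls ω e Q i'.1).card * ((cls ω e Q i'.2.1).card * (cls ω e Q i'.2.2).card) : ℕ) :=
            Nat.cast_le.2 this
          push_cast at h2
          unfold mm
          linarith
      _ = ((𝒟 z).card : ℝ) * (mm ω e Q i' / (B : ℝ) ^ 4) := by rw [sum_const, nsmul_eq_mul]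
      _ ≤ c * (mm ω e Q i) ^ (2 / 3 : ℝ) / (B : ℝ) ^ 4 * (mm ω e Q i' / (B : ℝ) ^ 4) := by
          apply mul_le_mul_of_nonneg_right _ (by positivity)
          have := hD z hz.1
          rwa [hmz] at this
  have total : ∑ z ∈ Ti, ∑ z' ∈ Ti',
      (((𝒟 z).filter (fun θ => (w * θ.1, w * θ.2) ∈ 𝒟 z')).card : ℝ) =
      ∑ z ∈ S, ∑ z' ∈ Ti',
      (((𝒟 z).filter (fun θ => (w * θ.1, w * θ.2) ∈ 𝒟 z')).card : ℝ) := by
    symm
    apply sum_subset (filter_subset _ _)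
    intro z hz hzS
    exact inner0 z hz hzS
  rw [total]
  split_ifs with hcg
  · have hScard' : (S.card : ℝ) ≤ mm ω e Q i / (h : ℝ) ^ 2 := by
      rw [le_div_iff₀ (by positivity)]
      have h2 : ((h ^ 2 * S.card : ℕ) : ℝ) ≤
          ((cls ω e Q i.1).card * ((cls ω e Q i.2.1).card * (cls ω e Q i.2.2).card) : ℕ) :=
        Nat.cast_le.2 hScard
      push_cast at h2
      unfold mm
      linarith
    have hpos : 0 ≤ c * (mm ω e Q i) ^ (2 / 3 : ℝ) / (B : ℝ) ^ 4 *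
        (mm ω e Q i' / (B : ℝ) ^ 4) := by positivity
    calc ∑ z ∈ S, ∑ z' ∈ Ti',
          (((𝒟 z).filter (fun θ => (w * θ.1, w * θ.2) ∈ 𝒟 z')).card : ℝ)
        ≤ ∑ z ∈ S, c * (mm ω e Q i) ^ (2 / 3 : ℝ) / (B : ℝ) ^ 4 *
            (mm ω e Q i' / (B : ℝ) ^ 4) :=
          sum_le_sum (fun z hz => inner1 z (filter_subset _ _ hz))
      _ = (S.card : ℝ) * (c * (mm ω e Q i) ^ (2 / 3 : ℝ) / (B : ℝ) ^ 4 *
            (mm ω e Q i' / (B : ℝ) ^ 4)) := by rw [sum_const, nsmul_eq_mul]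
      _ ≤ mm ω e Q i / (h : ℝ) ^ 2 * (c * (mm ω e Q i) ^ (2 / 3 : ℝ) / (B : ℝ) ^ 4 *
            (mm ω e Q i' / (B : ℝ) ^ 4)) := mul_le_mul_of_nonneg_right hScard' hpos
      _ = c * (mm ω e Q i) ^ (5 / 3 : ℝ) * mm ω e Q i' / ((B : ℝ) ^ 8 * (h : ℝ) ^ 2) := by
          have e5 : (mm ω e Q i) ^ (5 / 3 : ℝ) = mm ω e Q i * (mm ω e Q i) ^ (2 / 3 : ℝ) := by
            have : (5 / 3 : ℝ) = 1 + 2 / 3 := by norm_num
            rw [this, Real.rpow_add_of_nonneg hmi (by norm_num) (by norm_num), Real.rpow_one]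
          rw [e5]
          field_simp
  · have hSe : S = ∅ := by
      rw [eq_empty_iff_forall_notMem]
      intro z hz
      apply hcg
      rw [hS, mem_filter, hTi, mem_filter] at hz
      obtain ⟨⟨hzT, hzc⟩, z', hz', θ, hθ, hθ'⟩ := hz
      rw [hTi', mem_filter] at hz'
      obtain ⟨d1, d2⟩ := cong z hzT z' hz'.1 hz'.2 θ hθ hθ'
      obtain ⟨c1, c2, c3⟩ := hzc
      constructor
      · refine ⟨-(w * ((z.1 - z.2.1) / e) - (i'.1 - i'.2.1) / e),
          (z.1 - i.1) / e - (z.2.1 - i.2.1) / e, or_neg d1, or_sub c1 c2, ?_⟩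
        field_simp; ring
      · refine ⟨-(w * ((z.1 - z.2.2) / e) - (i'.1 - i'.2.2) / e),
          (z.1 - i.1) / e - (z.2.2 - i.2.2) / e, or_neg d2, or_sub c1 c3, ?_⟩
        field_simp; ring
    rw [hSe, sum_empty]

end Pool.RAT
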