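import Pool.Agent.Work.MP_dc37f8_rat.Interface

/-!
# Block CSF (helper23)
-/

set_option autoImplicit false

open Finset

namespace Pool.RAT

open Pool.BK Pool.BD Pool.RF

open scoped Pointwise

namespace CSF

theorem or_zero (ω : ℂ) : Or ω 0 := ⟨0, 0, by simp⟩

theorem or_neg {ω z : ℂ} (h : Or ω z) : Or ω (-z) := by
  obtain ⟨x, y, rfl⟩ := h
  exact ⟨-x, -y, by push_cast; ring⟩

theorem or_add {ω z z' : ℂ} (h : Or ω z) (h' : Or ω z') : Or ω (z + z') := by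
  obtain ⟨x, y, rfl⟩ := h
  obtain ⟨x', y', rfl⟩ := h'
  exact ⟨x + x', y + y', by push_cast; ring⟩

theorem or_sub {ω z z' : ℂ} (h : Or ω z) (h' : Or ω z') : Or ω (z - z') := by
  rw [sub_eq_add_neg]; exact or_add h (or_neg h')

theorem or_symm {ω e a b : ℂ} (h : Or ω ((a - b) / e)) : Or ω ((b - a) / e) := by
  have := or_neg h
  rwa [← neg_div, neg_sub] at this

theorem or_trans {ω e a b c : ℂ} (h : Or ω ((a - b) / e)) (h' : Or ω ((b - c) / e)) :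
    Or ω ((a - c) / e) := by
  have := or_add h h'
  rwa [← add_div, sub_add_sub_cancel] at this

theorem or_refl (ω e a : ℂ) : Or ω ((a - a) / e) := by
  rw [sub_self, zero_div]; exact or_zero ω

theorem cls_congr {ω e : ℂ} {Q : Finset ℂ} {a b : ℂ} (h : Or ω ((a - b) / e)) :
    cls ω e Q a = cls ω e Q b := by
  classical
  unfold cls
  ext q
  simp only [mem_filter]
  constructor
  · rintro ⟨h1, h2⟩; exact ⟨h1, or_trans h2 h⟩
  · rintro ⟨h1, h2⟩; exact ⟨h1, or_trans h2 (or_symm h)⟩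

theorem mem_cls {ω e : ℂ} {Q : Finset ℂ} {a q : ℂ} :
    q ∈ cls ω e Q a ↔ q ∈ Q ∧ Or ω ((q - a) / e) := by
  classical
  unfold cls
  rw [mem_filter]

theorem cls_pos {ω e : ℂ} {Q : Finset ℂ} {q : ℂ} (h : q ∈ Q) :
    0 < ((cls ω e Q q).card : ℝ) := by
  have : q ∈ cls ω e Q q := mem_cls.2 ⟨h, or_refl ω e q⟩
  exact_mod_cast Finset.card_pos.2 ⟨q, this⟩

theorem mm_pos {ω e : ℂ} {Q : Finset ℂ} {z : ℂ × ℂ × ℂ} (h : z ∈ Q ×ˢ Q ×ˢ Q) :
    0 < mm ω e Q z := by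
  rw [mem_product, mem_product] at h
  unfold mm
  exact mul_pos (mul_pos (cls_pos h.1) (cls_pos h.2.1)) (cls_pos h.2.2)

theorem fine_card {ω e : ℂ} {B : ℕ} {Q : Finset ℂ} (hE : Eqd ω B e Q) {q : ℂ} (hq : q ∈ Q) :
    B ^ 2 * (cls ω (B * e) Q q).card = (cls ω e Q q).card := by
  have := hE q hq 0 0
  simpa using this

theorem mm_fine {ω e : ℂ} {B : ℕ} {Q : Finset ℂ} (hE : Eqd ω B e Q) {z : ℂ × ℂ × ℂ}
    (h : z ∈ Q ×ˢ Q ×ˢ Q) : mm ω e Q z = (B : ℝ) ^ 6 * mm ω (B * e) Q z := by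
  rw [mem_product, mem_product] at h
  unfold mm
  rw [← fine_card hE h.1, ← fine_card hE h.2.1, ← fine_card hE h.2.2]
  push_cast
  ring

theorem exists_sel (α : Type) : ∃ sel : Finset α → ℕ → Finset α,
    ∀ s n, n ≤ s.card → sel s n ⊆ s ∧ (sel s n).card = n := by
  have : ∀ (s : Finset α) (n : ℕ), ∃ t : Finset α, n ≤ s.card → t ⊆ s ∧ t.card = n := by
    intro s n
    by_cases h : n ≤ s.card
    · obtain ⟨t, h1, h2⟩ := exists_subset_card_eq h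
      exact ⟨t, fun _ => ⟨h1, h2⟩⟩
    · exact ⟨∅, fun h' => absurd h' h⟩
  choose sel hsel using this
  exact ⟨sel, hsel⟩

/-- representatives of the classes -/
theorem exists_reps (ω e : ℂ) (Q : Finset ℂ) :
    ∃ I ⊆ Q, ∀ q ∈ Q, ∃! i, i ∈ I ∧ Or ω ((q - i) / e) := by
  classical
  have h1 : ∀ s : Finset ℂ, ∃ x, s.Nonempty → x ∈ s := by
    intro s
    by_cases h : s.Nonempty
    · obtain ⟨x, hx⟩ := h
      exact ⟨x, fun _ => hx⟩
    · exact ⟨0, fun h' => absurd h' h⟩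
  choose ch hch using h1
  have hc : ∀ q ∈ Q, ch (cls ω e Q q) ∈ cls ω e Q q := fun q hq =>
    hch _ ⟨q, mem_cls.2 ⟨hq, or_refl ω e q⟩⟩
  refine ⟨Q.image (fun q => ch (cls ω e Q q)), ?_, ?_⟩
  · intro i hi
    rw [mem_image] at hi
    obtain ⟨q, hq, rfl⟩ := hi
    exact (mem_cls.1 (hc q hq)).1
  · intro q hq
    refine ⟨ch (cls ω e Q q), ⟨mem_image_of_mem _ hq, or_symm (mem_cls.1 (hc q hq)).2⟩, ?_⟩
    rintro i ⟨hi, hqi⟩
    rw [mem_image] at hi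
    obtain ⟨q', hq', rfl⟩ := hi
    have h2 := (mem_cls.1 (hc q' hq')).2
    rw [cls_congr (or_trans hqi h2)]

theorem sum_cls {ω e : ℂ} {Q I : Finset ℂ}
    (hU : ∀ q ∈ Q, ∃! i, i ∈ I ∧ Or ω ((q - i) / e)) :
    ∑ i ∈ I, ((cls ω e Q i).card : ℝ) = Q.card := by
  classical
  choose! rp hrp hrpu using hU
  rw [card_eq_sum_card_fiberwise (f := rp) (t := I) (fun q hq => (hrp q hq).1)]
  push_cast
  apply sum_congr rfl
  intro i hi
  have : cls ω e Q i = Q.filter (fun q => rp q = i) := by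
    ext q
    rw [mem_cls, mem_filter]
    constructor
    · rintro ⟨h1, h2⟩
      exact ⟨h1, (hrpu q h1 i ⟨hi, h2⟩).symm⟩
    · rintro ⟨h1, rfl⟩
      exact ⟨h1, (hrp q h1).2⟩
  rw [this]

/-- the sum over the classes of the numbers of representations -/
theorem rept_sum (ω E : ℂ) (Q : Finset ℂ) (T : Finset (ℂ × ℂ × ℂ)) (hT : T ⊆ Q ×ˢ Q ×ˢ Q)
    (θ : ℂ × ℂ) :
    ∑ z ∈ T, (rept (cls ω E Q z.1) (cls ω E Q z.2.1) (cls ω E Q z.2.2) θ : ℝ) / mm ω E Q z ≤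
      (rept Q Q Q θ : ℝ) := by
  classical
  set A := Q.filter (fun a => a - θ.1 ∈ Q ∧ a - θ.2 ∈ Q) with hA
  have hr : ∀ z : ℂ × ℂ × ℂ, rept (cls ω E Q z.1) (cls ω E Q z.2.1) (cls ω E Q z.2.2) θ =
      (A.filter (fun a => a ∈ cls ω E Q z.1 ∧ a - θ.1 ∈ cls ω E Q z.2.1 ∧
        a - θ.2 ∈ cls ω E Q z.2.2)).card := by
    intro z
    unfold rept
    apply congrArg
    ext a
    simp only [hA, mem_filter, mem_cls]
    tauto
  have hQ : rept Q Q Q θ = A.card := rfl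
  rw [hQ]
  calc ∑ z ∈ T, (rept (cls ω E Q z.1) (cls ω E Q z.2.1) (cls ω E Q z.2.2) θ : ℝ) / mm ω E Q z
      = ∑ z ∈ T, ∑ a ∈ A, (if a ∈ cls ω E Q z.1 ∧ a - θ.1 ∈ cls ω E Q z.2.1 ∧
        a - θ.2 ∈ cls ω E Q z.2.2 then 1 / mm ω E Q z else 0) := by
        apply sum_congr rfl
        intro z _
        rw [hr z, card_filter]
        push_cast
        rw [sum_div]
        apply sum_congr rfl
        intro a _
        split_ifs
        · rfl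
        · simp
    _ = ∑ a ∈ A, ∑ z ∈ T, (if a ∈ cls ω E Q z.1 ∧ a - θ.1 ∈ cls ω E Q z.2.1 ∧
        a - θ.2 ∈ cls ω E Q z.2.2 then 1 / mm ω E Q z else 0) := sum_comm
    _ ≤ ∑ a ∈ A, (1 : ℝ) := by
        apply sum_le_sum
        intro a ha
        rw [hA, mem_filter] at ha
        rw [← sum_filter]
        set m : ℝ := ((cls ω E Q a).card : ℝ) * (cls ω E Q (a - θ.1)).card *
          (cls ω E Q (a - θ.2)).card with hm
        have hmpos : 0 < m := mul_pos (mul_pos (cls_pos ha.1) (cls_pos ha.2.1)) (cls_pos ha.2.2)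
        have hmz : ∀ z ∈ T.filter (fun z => a ∈ cls ω E Q z.1 ∧ a - θ.1 ∈ cls ω E Q z.2.1 ∧
            a - θ.2 ∈ cls ω E Q z.2.2), 1 / mm ω E Q z = 1 / m := by
          intro z hz
          rw [mem_filter, mem_cls, mem_cls, mem_cls] at hz
          obtain ⟨_, ⟨_, h1⟩, ⟨_, h2⟩, ⟨_, h3⟩⟩ := hz
          rw [hm, cls_congr h1, cls_congr h2, cls_congr h3]
          rfl
        rw [sum_congr rfl hmz, sum_const, nsmul_eq_mul]
        have hcard : (T.filter (fun z => a ∈ cls ω E Q z.1 ∧ a - θ.1 ∈ cls ω E Q z.2.1 ∧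
            a - θ.2 ∈ cls ω E Q z.2.2)).card ≤
            (cls ω E Q a ×ˢ cls ω E Q (a - θ.1) ×ˢ cls ω E Q (a - θ.2)).card := by
          apply card_le_card
          intro z hz
          rw [mem_filter, mem_cls, mem_cls, mem_cls] at hz
          obtain ⟨hzT, ⟨_, h1⟩, ⟨_, h2⟩, ⟨_, h3⟩⟩ := hz
          have hzQ := hT hzT
          rw [mem_product, mem_product] at hzQ
          rw [mem_product, mem_product, mem_cls, mem_cls, mem_cls]
          exact ⟨⟨hzQ.1, or_symm h1⟩, ⟨hzQ.2.1, or_symm h2⟩, ⟨hzQ.2.2, or_symm h3⟩⟩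
        have hcard' : ((T.filter (fun z => a ∈ cls ω E Q z.1 ∧ a - θ.1 ∈ cls ω E Q z.2.1 ∧
            a - θ.2 ∈ cls ω E Q z.2.2)).card : ℝ) ≤ m := by
          rw [card_product, card_product] at hcard
          have : ((T.filter (fun z => a ∈ cls ω E Q z.1 ∧ a - θ.1 ∈ cls ω E Q z.2.1 ∧
            a - θ.2 ∈ cls ω E Q z.2.2)).card : ℝ) ≤ (((cls ω E Q a).card *
              ((cls ω E Q (a - θ.1)).card * (cls ω E Q (a - θ.2)).card) : ℕ) : ℝ) :=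
            Nat.cast_le.2 hcard
          push_cast at this
          rw [hm]
          linarith
        rw [mul_one_div, div_le_one hmpos]
        exact hcard'
    _ = (A.card : ℝ) := by simp

end CSF

open CSF

set_option maxHeartbeats 4000000 in
theorem stmt_CSF (h1 : Stmt_CSF1) (h2 : Stmt_CSF2) : Stmt_CSF := by
  classical
  intro P Q W 𝒢 ω e B N η κ τ hdir hCS hQP hη hω he hB hE hκ hτ hW hkey
  have hBr : (0 : ℝ) < B := by exact_mod_cast hB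
  -- the popular types
  set pop : ℂ × ℂ × ℂ → Finset (ℂ × ℂ) := fun z =>
    ((((cls ω (B * e) Q z.1) - (cls ω (B * e) Q z.2.1)) ×ˢ
      ((cls ω (B * e) Q z.1) - (cls ω (B * e) Q z.2.2))).filter (fun θ =>
        θ.1 ≠ 0 ∧ θ.2 ≠ 0 ∧ θ.1 ≠ θ.2 ∧ τ * (mm ω (B * e) Q z) ^ (1 / 3 : ℝ) ≤
          (rept (cls ω (B * e) Q z.1) (cls ω (B * e) Q z.2.1)
            (cls ω (B * e) Q z.2.2) θ : ℝ))) with hpop
  set T : Finset (ℂ × ℂ × ℂ) := (Q ×ˢ Q ×ˢ Q).filter (fun z =>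
      (10 : ℝ) ^ 6 ≤ mm ω (B * e) Q z ∧
      78 / 10 * (mm ω (B * e) Q z) ^ (2 / 3 : ℝ) ≤ ((pop z).card : ℝ)) with hT
  show (78 / 10 * (T.card : ℝ)) ^ 2 ≤ _
  obtain ⟨sel, hsel⟩ := exists_sel (ℂ × ℂ)
  set 𝒟 : ℂ × ℂ × ℂ → Finset (ℂ × ℂ) := fun z =>
    sel (pop z) ⌈78 / 10 * (mm ω (B * e) Q z) ^ (2 / 3 : ℝ)⌉₊ with h𝒟
  have hTQ : T ⊆ Q ×ˢ Q ×ˢ Q := filter_subset _ _
  have hD : ∀ z ∈ T, 𝒟 z ⊆ pop z ∧ (𝒟 z).card = ⌈78 / 10 * (mm ω (B * e) Q z) ^ (2 / 3 : ℝ)⌉₊ := by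
    intro z hz
    apply hsel
    rw [Nat.ceil_le]
    exact (mem_filter.1 hz).2.2
  have hDlow : ∀ z ∈ T, 78 / 10 * (mm ω (B * e) Q z) ^ (2 / 3 : ℝ) ≤ ((𝒟 z).card : ℝ) := by
    intro z hz
    rw [(hD z hz).2]
    exact Nat.le_ceil _
  have hDup : ∀ z ∈ T, ((𝒟 z).card : ℝ) ≤ 7801 / 1000 * (mm ω (B * e) Q z) ^ (2 / 3 : ℝ) := by
    intro z hz
    rw [(hD z hz).2]
    have hz6 := (mem_filter.1 hz).2.1
    have hpow : (10 : ℝ) ^ 4 ≤ (mm ω (B * e) Q z) ^ (2 / 3 : ℝ) := by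
      have h6 : ((10 : ℝ) ^ 6) ^ (2 / 3 : ℝ) = (10 : ℝ) ^ 4 := by
        rw [← Real.rpow_natCast, ← Real.rpow_mul (by norm_num)]
        rw [← Real.rpow_natCast]
        norm_num
      rw [← h6]
      exact Real.rpow_le_rpow (by positivity) hz6 (by norm_num)
    have hnn : 0 ≤ 78 / 10 * (mm ω (B * e) Q z) ^ (2 / 3 : ℝ) := by
      have : (0 : ℝ) ≤ (mm ω (B * e) Q z) ^ (2 / 3 : ℝ) := by linarith [hpow, (by norm_num : (0 : ℝ) ≤ 10 ^ 4)]
      positivity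
    have := Nat.ceil_lt_add_one hnn
    have h4 : (10 : ℝ) ^ 4 = 10000 := by norm_num
    rw [h4] at hpow
    linarith
  have hpopc : ∀ z z' : ℂ × ℂ × ℂ, cls ω (B * e) Q z.1 = cls ω (B * e) Q z'.1 →
      cls ω (B * e) Q z.2.1 = cls ω (B * e) Q z'.2.1 →
      cls ω (B * e) Q z.2.2 = cls ω (B * e) Q z'.2.2 →
      mm ω (B * e) Q z = mm ω (B * e) Q z' ∧ pop z = pop z' := by
    intro z z' e1 e2 e3
    have hm : mm ω (B * e) Q z = mm ω (B * e) Q z' := by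
      unfold mm
      rw [e1, e2, e3]
    refine ⟨hm, ?_⟩
    rw [hpop]
    simp only [e1, e2, e3, hm]
  -- invariance
  have hInv : Inv ω (B * e) Q T 𝒟 := by
    refine ⟨hTQ, ?_, ?_⟩
    · intro z hz z' hz' o1 o2 o3
      obtain ⟨hm, hp⟩ := hpopc z' z (cls_congr o1) (cls_congr o2) (cls_congr o3)
      constructor
      · rw [hT, mem_filter] at hz ⊢
        rw [hm, hp]
        exact ⟨hz', hz.2⟩
      · simp only [h𝒟, hm, hp]
    · intro z hz θ hθ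
      have hθ' := (hD z hz).1 hθ
      rw [hpop, mem_filter, mem_product] at hθ'
      obtain ⟨⟨m1, m2⟩, _⟩ := hθ'
      constructor
      · obtain ⟨a, ha, b, hb, hab⟩ := mem_sub.1 m1
        have ha' := (mem_cls.1 ha).2
        have hb' := (mem_cls.1 hb).2
        have := or_sub ha' hb'
        rw [← sub_div] at this
        have e1 : a - z.1 - (b - z.2.1) = θ.1 - (z.1 - z.2.1) := by rw [← hab]; ring
        rwa [e1] at this
      · obtain ⟨a, ha, b, hb, hab⟩ := mem_sub.1 m2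
        have ha' := (mem_cls.1 ha).2
        have hb' := (mem_cls.1 hb).2
        have := or_sub ha' hb'
        rw [← sub_div] at this
        have e1 : a - z.1 - (b - z.2.2) = θ.2 - (z.1 - z.2.2) := by rw [← hab]; ring
        rwa [e1] at this
  -- powers of `B`
  have hB6 : ((B : ℝ) ^ 6) ^ (2 / 3 : ℝ) = (B : ℝ) ^ 4 := by
    rw [← Real.rpow_natCast, ← Real.rpow_mul hBr.le, ← Real.rpow_natCast]
    norm_num
  have hmm23 : ∀ z ∈ T, (mm ω e Q z) ^ (2 / 3 : ℝ) =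
      (B : ℝ) ^ 4 * (mm ω (B * e) Q z) ^ (2 / 3 : ℝ) := by
    intro z hz
    rw [mm_fine hE (hTQ hz), Real.mul_rpow (by positivity) (mm_pos (hTQ hz)).le, hB6]
  have hmmn : ∀ z ∈ T, (mm ω e Q z) ^ (-(2 / 3) : ℝ) =
      ((B : ℝ) ^ 4)⁻¹ * ((mm ω (B * e) Q z) ^ (2 / 3 : ℝ))⁻¹ := by
    intro z hz
    rw [Real.rpow_neg (mm_pos (hTQ hz)).le, hmm23 z hz, mul_inv]
  have hDc : ∀ z ∈ T, ((𝒟 z).card : ℝ) ≤
      7801 / 1000 * (mm ω e Q z) ^ (2 / 3 : ℝ) / (B : ℝ) ^ 4 := by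
    intro z hz
    rw [hmm23 z hz]
    have := hDup z hz
    have hB4 : (B : ℝ) ^ 4 ≠ 0 := by positivity
    rw [mul_left_comm, mul_div_cancel_left₀ _ hB4]
    exact this
  -- the types
  set Θ : Finset (ℂ × ℂ) := T.biUnion 𝒟 with hΘ
  have hΘpop : ∀ θ ∈ Θ, θ.1 ≠ 0 ∧ θ.2 ≠ 0 ∧ θ.1 ≠ θ.2 := by
    intro θ hθ
    rw [hΘ, mem_biUnion] at hθ
    obtain ⟨z, hz, hθz⟩ := hθ
    have := (hD z hz).1 hθz
    rw [hpop, mem_filter] at this
    exact ⟨this.2.1, this.2.2.1, this.2.2.2.1⟩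
  have htt0 : ∀ θ, 0 ≤ tt ω e B Q T 𝒟 θ := by
    intro θ
    unfold tt
    apply mul_nonneg (by positivity)
    apply sum_nonneg
    intro z _
    apply Real.rpow_nonneg
    unfold mm
    positivity
  have httle : ∀ θ, tt ω e B Q T 𝒟 θ ≤ (B : ℝ) ^ 2 / τ * rept Q Q Q θ := by
    intro θ
    unfold tt
    set T' := T.filter (fun z => θ ∈ 𝒟 z) with hT'
    have hT'Q : T' ⊆ Q ×ˢ Q ×ˢ Q := (filter_subset _ _).trans hTQ
    have hrs := rept_sum ω (B * e) Q T' hT'Q θ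
    have hterm : ∀ z ∈ T', (mm ω e Q z) ^ (-(2 / 3) : ℝ) ≤ ((B : ℝ) ^ 4)⁻¹ * (τ⁻¹ *
        ((rept (cls ω (B * e) Q z.1) (cls ω (B * e) Q z.2.1) (cls ω (B * e) Q z.2.2) θ : ℝ) /
          mm ω (B * e) Q z)) := by
      intro z hz
      rw [hT', mem_filter] at hz
      rw [hmmn z hz.1]
      apply mul_le_mul_of_nonneg_left _ (by positivity)
      have hp := (hD z hz.1).1 hz.2
      rw [hpop, mem_filter] at hp
      have hr := hp.2.2.2.2
      have hF := mm_pos (ω := ω) (e := B * e) (hTQ hz.1)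
      set F := mm ω (B * e) Q z with hFd
      have hF1 : F ^ (1 / 3 : ℝ) * F ^ (2 / 3 : ℝ) = F := by
        rw [← Real.rpow_add hF]; norm_num
      have hF2 : 0 < F ^ (2 / 3 : ℝ) := Real.rpow_pos_of_pos hF _
      rw [← div_eq_inv_mul, le_div_iff₀ hτ, le_div_iff₀ hF]
      calc (F ^ (2 / 3 : ℝ))⁻¹ * τ * F = τ * F ^ (1 / 3 : ℝ) := by
            nth_rewrite 2 [← hF1]
            field_simp
        _ ≤ _ := hr
    calc (B : ℝ) ^ 6 * ∑ z ∈ T', (mm ω e Q z) ^ (-(2 / 3) : ℝ)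
        ≤ (B : ℝ) ^ 6 * ∑ z ∈ T', ((B : ℝ) ^ 4)⁻¹ * (τ⁻¹ *
          ((rept (cls ω (B * e) Q z.1) (cls ω (B * e) Q z.2.1) (cls ω (B * e) Q z.2.2) θ : ℝ) /
          mm ω (B * e) Q z)) := mul_le_mul_of_nonneg_left (sum_le_sum hterm) (by positivity)
      _ = (B : ℝ) ^ 2 / τ * ∑ z ∈ T',
          ((rept (cls ω (B * e) Q z.1) (cls ω (B * e) Q z.2.1) (cls ω (B * e) Q z.2.2) θ : ℝ) /
          mm ω (B * e) Q z) := by
          rw [← mul_sum, ← mul_sum]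
          field_simp
      _ ≤ (B : ℝ) ^ 2 / τ * rept Q Q Q θ := mul_le_mul_of_nonneg_left hrs (by positivity)
  -- Cauchy-Schwarz
  have hM0 : 0 ≤ (B : ℝ) ^ 2 / τ := by positivity
  have key1 := h1 P Q W 𝒢 η ((B : ℝ) ^ 2 / τ) Θ (tt ω e B Q T 𝒟) hdir hCS hQP hM0 hη
    (fun θ hθ => ⟨(hΘpop θ hθ).1, (hΘpop θ hθ).2.1, (hΘpop θ hθ).2.2, htt0 θ, httle θ⟩)
  -- the sum of the weights
  have hsum : 78 / 10 * (B : ℝ) ^ 2 * T.card ≤ ∑ θ ∈ Θ, tt ω e B Q T 𝒟 θ := by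
    unfold tt
    rw [← mul_sum]
    have hsw : ∑ θ ∈ Θ, ∑ z ∈ T.filter (fun z => θ ∈ 𝒟 z), (mm ω e Q z) ^ (-(2 / 3) : ℝ) =
        ∑ z ∈ T, ((𝒟 z).card : ℝ) * (mm ω e Q z) ^ (-(2 / 3) : ℝ) := by
      simp_rw [sum_filter]
      rw [sum_comm]
      apply sum_congr rfl
      intro z hz
      rw [← sum_filter, sum_const, nsmul_eq_mul]
      congr 3
      ext θ
      rw [mem_filter, hΘ, mem_biUnion]
      exact ⟨fun h => h.2, fun h => ⟨⟨z, hz, h⟩, h⟩⟩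
    rw [hsw]
    have hterm : ∀ z ∈ T, 78 / 10 * ((B : ℝ) ^ 4)⁻¹ ≤
        ((𝒟 z).card : ℝ) * (mm ω e Q z) ^ (-(2 / 3) : ℝ) := by
      intro z hz
      rw [hmmn z hz]
      have hF := mm_pos (ω := ω) (e := B * e) (hTQ hz)
      have hF2 : 0 < (mm ω (B * e) Q z) ^ (2 / 3 : ℝ) := Real.rpow_pos_of_pos hF _
      have := hDlow z hz
      calc 78 / 10 * ((B : ℝ) ^ 4)⁻¹ = (78 / 10 * (mm ω (B * e) Q z) ^ (2 / 3 : ℝ)) *
            (((B : ℝ) ^ 4)⁻¹ * ((mm ω (B * e) Q z) ^ (2 / 3 : ℝ))⁻¹) := by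
            field_simp
        _ ≤ _ := mul_le_mul_of_nonneg_right this (by positivity)
    calc 78 / 10 * (B : ℝ) ^ 2 * T.card = (B : ℝ) ^ 6 * ∑ z ∈ T, 78 / 10 * ((B : ℝ) ^ 4)⁻¹ := by
          rw [sum_const, nsmul_eq_mul]
          field_simp
      _ ≤ _ := mul_le_mul_of_nonneg_left (sum_le_sum hterm) (by positivity)
  -- the rotations
  obtain ⟨I, hIQ, hIU⟩ := exists_reps ω e Q
  have hinj : Set.InjOn (fun i : ℂ => i / e) (I : Set ℂ) := by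
    intro a _ b _ hab
    have : a / e = b / e := hab
    rw [div_left_inj' he] at this
    exact this
  have hIor : ∀ i ∈ I.image (fun i => i / e), ∀ j ∈ I.image (fun i => i / e),
      Or ω (i - j) → i = j := by
    intro i hi j hj hij
    rw [mem_image] at hi hj
    obtain ⟨a, ha, rfl⟩ := hi
    obtain ⟨b, hb, rfl⟩ := hj
    rw [← sub_div] at hij
    have := (hIU a (hIQ ha)).unique ⟨ha, or_refl ω e a⟩ ⟨hb, hij⟩
    rw [this]
  have hkey' := hkey (I.image (fun i => i / e)) (fun z => ((cls ω e Q (z * e)).card : ℝ)) hIor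
    (fun _ => by positivity)
  have hsI : ∑ i ∈ I.image (fun i => i / e), ((cls ω e Q (i * e)).card : ℝ) = Q.card := by
    rw [sum_image hinj, ← sum_cls hIU]
    apply sum_congr rfl
    intro i _
    rw [div_mul_cancel₀ _ he]
  rw [hsI] at hkey'
  have hWs : ∑ w ∈ W, ∑ θ ∈ Θ.filter (fun θ => (w * θ.1, w * θ.2) ∈ Θ),
      tt ω e B Q T 𝒟 θ * tt ω e B Q T 𝒟 (w * θ.1, w * θ.2) ≤
      (B : ℝ) ^ 4 * (7801 / 1000 * κ * (Q.card : ℝ) ^ 4) := by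
    calc ∑ w ∈ W, ∑ θ ∈ Θ.filter (fun θ => (w * θ.1, w * θ.2) ∈ Θ),
          tt ω e B Q T 𝒟 θ * tt ω e B Q T 𝒟 (w * θ.1, w * θ.2)
        ≤ ∑ w ∈ W, 7801 / 1000 * (B : ℝ) ^ 4 / (N w : ℝ) ^ 2 *
          keyS ω w (I.image (fun i => i / e)) (fun z => ((cls ω e Q (z * e)).card : ℝ)) := by
          apply sum_le_sum
          intro w hw
          obtain ⟨w0, w1, w2, w3⟩ := hW w hw
          exact h2 ω e w B (N w) Q I (7801 / 1000) T 𝒟 Θ hω he w0 hB w1 w2 w3 hE hIQ hIU hInv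
            (by norm_num) hDc
      _ = 7801 / 1000 * (B : ℝ) ^ 4 * ∑ w ∈ W,
          keyS ω w (I.image (fun i => i / e)) (fun z => ((cls ω e Q (z * e)).card : ℝ)) /
            (N w : ℝ) ^ 2 := by
          rw [mul_sum]
          apply sum_congr rfl
          intro w _
          ring
      _ ≤ 7801 / 1000 * (B : ℝ) ^ 4 * (κ * (Q.card : ℝ) ^ 4) :=
          mul_le_mul_of_nonneg_left hkey' (by positivity)
      _ = (B : ℝ) ^ 4 * (7801 / 1000 * κ * (Q.card : ℝ) ^ 4) := by ring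
  -- the end
  have hB4 : (0 : ℝ) < (B : ℝ) ^ 4 := by positivity
  have h3 : (78 / 10 * (B : ℝ) ^ 2 * T.card) ^ 2 ≤ (∑ θ ∈ Θ, tt ω e B Q T 𝒟 θ) ^ 2 :=
    pow_le_pow_left₀ (by positivity) hsum 2
  have h4 : (12 * (TC P).card * (∑ w ∈ W, ∑ θ ∈ Θ.filter (fun θ => (w * θ.1, w * θ.2) ∈ Θ),
      tt ω e B Q T 𝒟 θ * tt ω e B Q T 𝒟 (w * θ.1, w * θ.2) + ((B : ℝ) ^ 2 / τ) ^ 2 * η) : ℝ) ≤
      12 * (TC P).card * ((B : ℝ) ^ 4 * (7801 / 1000 * κ * (Q.card : ℝ) ^ 4) +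
        ((B : ℝ) ^ 2 / τ) ^ 2 * η) := by
    apply mul_le_mul_of_nonneg_left _ (by positivity)
    linarith
  have h5 := (h3.trans key1).trans h4
  have e5 : (78 / 10 * (B : ℝ) ^ 2 * (T.card : ℝ)) ^ 2 =
      (B : ℝ) ^ 4 * (78 / 10 * (T.card : ℝ)) ^ 2 := by ring
  have e6 : (12 * (TC P).card * ((B : ℝ) ^ 4 * (7801 / 1000 * κ * (Q.card : ℝ) ^ 4) +
        ((B : ℝ) ^ 2 / τ) ^ 2 * η) : ℝ) =
      (B : ℝ) ^ 4 * (12 * (TC P).card * (7801 / 1000 * κ * (Q.card : ℝ) ^ 4 + η / τ ^ 2)) := by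
    field_simp
  rw [e5, e6] at h5
  exact le_of_mul_le_mul_left h5 hB4

end Pool.RAT
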