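import Pool.Agent.Work.MP_dc37f8_rat.Interface

/-!
# MP_dc37f8_co: block CSF1 (Cauchy-Schwarz with weights on the translation types), helper89
-/

set_option autoImplicit false

open Finset

namespace Pool.RAT.CSF1

open Pool.RAT Pool.BK Pool.BD Pool.RF

/-- the type of a triple -/
def ty (x : ℂ × ℂ × ℂ) : ℂ × ℂ := (x.1 - x.2.1, x.1 - x.2.2)

/-- the triple of type `θ` with first point `a` -/
def mk (θ : ℂ × ℂ) (a : ℂ) : ℂ × ℂ × ℂ := (a, a - θ.1, a - θ.2)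

lemma ty_mk (θ : ℂ × ℂ) (a : ℂ) : ty (mk θ a) = θ := by
  simp [ty, mk]

lemma mk_ty (x : ℂ × ℂ × ℂ) : mk (ty x) x.1 = x := by
  simp [ty, mk]

open Classical in
/-- the first points of the triples of type `θ` -/
noncomputable def RR (Q : Finset ℂ) (θ : ℂ × ℂ) : Finset ℂ :=
  Q.filter (fun a => a - θ.1 ∈ Q ∧ a - θ.2 ∈ Q)

lemma card_RR (Q : Finset ℂ) (θ : ℂ × ℂ) : (RR Q θ).card = rept Q Q Q θ := rfl

open Classical in
/-- the triples with types in `Θ` -/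
noncomputable def XX (Q : Finset ℂ) (Θ : Finset (ℂ × ℂ)) : Finset (ℂ × ℂ × ℂ) :=
  (Q ×ˢ Q ×ˢ Q).filter (fun x => ty x ∈ Θ)

lemma mem_mk {Q : Finset ℂ} {Θ : Finset (ℂ × ℂ)} {θ : ℂ × ℂ} {a : ℂ} :
    mk θ a ∈ XX Q Θ ↔ θ ∈ Θ ∧ a ∈ RR Q θ := by
  unfold XX RR
  rw [Finset.mem_filter, ty_mk, Finset.mem_filter, Finset.mem_product, Finset.mem_product]
  simp only [mk]
  tauto

open Classical in
lemma sum_XX (Q : Finset ℂ) (Θ : Finset (ℂ × ℂ)) (F : ℂ × ℂ × ℂ → ℝ) :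
    ∑ x ∈ XX Q Θ, F x = ∑ θ ∈ Θ, ∑ a ∈ RR Q θ, F (mk θ a) := by
  have hm : ∀ x ∈ XX Q Θ, ty x ∈ Θ := fun x hx => (Finset.mem_filter.1 hx).2
  rw [← Finset.sum_fiberwise_of_maps_to hm]
  refine Finset.sum_congr rfl (fun θ hθ => ?_)
  refine Finset.sum_bij' (fun x _ => x.1) (fun a _ => mk θ a) ?_ ?_ ?_ ?_ ?_
  · intro x hx
    obtain ⟨hx1, hx2⟩ := Finset.mem_filter.1 hx
    have : mk θ x.1 ∈ XX Q Θ := by
      rw [← hx2, mk_ty]
      exact hx1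
    exact (mem_mk.1 this).2
  · intro a ha
    rw [Finset.mem_filter]
    exact ⟨mem_mk.2 ⟨hθ, ha⟩, ty_mk θ a⟩
  · intro x hx
    obtain ⟨hx1, hx2⟩ := Finset.mem_filter.1 hx
    show mk θ x.1 = x
    rw [← hx2, mk_ty]
  · intro a ha
    rfl
  · intro x hx
    obtain ⟨hx1, hx2⟩ := Finset.mem_filter.1 hx
    show F x = F (mk θ x.1)
    rw [← hx2, mk_ty]

lemma lin {g : Gp} (h : IsDir g) (z : ℂ) : g z = lp g * z + g 0 := by
  obtain ⟨w, s, _, hw⟩ := h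
  unfold lp
  rw [hw z, hw 1, hw 0]
  ring

lemma act_mk {g : Gp} (h : IsDir g) (θ : ℂ × ℂ) (a : ℂ) :
    act g (mk θ a) = mk (lp g * θ.1, lp g * θ.2) (g a) := by
  unfold act mk
  simp only
  rw [lin h (a - θ.1), lin h (a - θ.2), lin h a]
  refine Prod.ext rfl (Prod.ext ?_ ?_)
  · simp only
    ring
  · simp only
    ring

lemma inj {g g' : Gp} (h : IsDir g) (h' : IsDir g') (hw : lp g = lp g') {a : ℂ}
    (ha : g a = g' a) : g = g' := by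
  have h0 : g 0 = g' 0 := by
    rw [lin h a, lin h' a, hw] at ha
    exact add_left_cancel ha
  apply Equiv.ext
  intro z
  rw [lin h z, lin h' z, hw, h0]

open Classical in
/-- the pairs of an isometry with linear part `w` and a triple of type `θ` -/
lemma count (Q : Finset ℂ) (𝒢 : Finset Gp) (w : ℂ) (hG : ∀ g ∈ 𝒢, IsDir g ∧ lp g = w)
    (θ θ' : ℂ × ℂ) :
    ∑ g ∈ 𝒢, (((RR Q θ).filter (fun a => g a ∈ RR Q θ')).card : ℝ) ≤
      (RR Q θ).card * (RR Q θ').card := by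
  have e1 : ∀ g ∈ 𝒢, (((RR Q θ).filter (fun a => g a ∈ RR Q θ')).card : ℝ) =
      ∑ a ∈ RR Q θ, if g a ∈ RR Q θ' then (1 : ℝ) else 0 := by
    intro g _
    rw [Finset.card_filter]
    push_cast
    rfl
  rw [Finset.sum_congr rfl e1, Finset.sum_comm]
  have e2 : ∀ a ∈ RR Q θ, (∑ g ∈ 𝒢, if g a ∈ RR Q θ' then (1 : ℝ) else 0) ≤
      (RR Q θ').card := by
    intro a _
    rw [← Finset.sum_filter]
    simp only [Finset.sum_const, nsmul_eq_mul, mul_one]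
    have : (𝒢.filter (fun g => g a ∈ RR Q θ')).card ≤ (RR Q θ').card := by
      apply Finset.card_le_card_of_injOn (fun g : Gp => g a)
      · intro g hg
        exact (Finset.mem_filter.1 (Finset.mem_coe.1 hg)).2
      · intro g hg g' hg' hgg
        have k1 := hG g (Finset.mem_filter.1 (Finset.mem_coe.1 hg)).1
        have k2 := hG g' (Finset.mem_filter.1 (Finset.mem_coe.1 hg')).1
        exact inj k1.1 k2.1 (k1.2.trans k2.2.symm) hgg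
    exact_mod_cast this
  refine (Finset.sum_le_sum e2).trans ?_
  rw [Finset.sum_const, nsmul_eq_mul]

open Classical in
/-- the weight of a triple -/
noncomputable def lam (Q : Finset ℂ) (Θ : Finset (ℂ × ℂ)) (t : ℂ × ℂ → ℝ) (x : ℂ × ℂ × ℂ) : ℝ :=
  if ty x ∈ Θ then t (ty x) / rept Q Q Q (ty x) else 0

lemma lam_nonneg {Q : Finset ℂ} {Θ : Finset (ℂ × ℂ)} {t : ℂ × ℂ → ℝ} (ht : ∀ θ ∈ Θ, 0 ≤ t θ)
    (x : ℂ × ℂ × ℂ) : 0 ≤ lam Q Θ t x := by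
  unfold lam
  split_ifs with h
  · exact div_nonneg (ht _ h) (Nat.cast_nonneg _)
  · exact le_rfl

lemma lam_le {Q : Finset ℂ} {Θ : Finset (ℂ × ℂ)} {t : ℂ × ℂ → ℝ} {M : ℝ} (hM : 0 ≤ M)
    (ht : ∀ θ ∈ Θ, t θ ≤ M * rept Q Q Q θ) (x : ℂ × ℂ × ℂ) : lam Q Θ t x ≤ M := by
  unfold lam
  split_ifs with h
  · rcases Nat.eq_zero_or_pos (rept Q Q Q (ty x)) with h0 | h0
    · rw [h0]
      simpa using hM
    · rw [div_le_iff₀ (by exact_mod_cast h0)]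
      exact ht _ h
  · exact hM

lemma lam_mk {Q : Finset ℂ} {Θ : Finset (ℂ × ℂ)} {t : ℂ × ℂ → ℝ} {θ : ℂ × ℂ} (h : θ ∈ Θ)
    (a : ℂ) : lam Q Θ t (mk θ a) = t θ / rept Q Q Q θ := by
  unfold lam
  rw [ty_mk, if_pos h]

open Classical in
/-- isometries with linear part `w` -/
lemma part_w (Q : Finset ℂ) (𝒢 : Finset Gp) (w : ℂ) (hG : ∀ g ∈ 𝒢, IsDir g ∧ lp g = w)
    (Θ : Finset (ℂ × ℂ)) (t : ℂ × ℂ → ℝ) (ht : ∀ θ ∈ Θ, 0 ≤ t θ) :
    ∑ g ∈ 𝒢, ∑ x ∈ (XX Q Θ).filter (fun x => act g x ∈ XX Q Θ),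
      lam Q Θ t x * lam Q Θ t (act g x) ≤
      ∑ θ ∈ Θ.filter (fun θ => (w * θ.1, w * θ.2) ∈ Θ), t θ * t (w * θ.1, w * θ.2) := by
  have e1 : ∀ g ∈ 𝒢, ∑ x ∈ (XX Q Θ).filter (fun x => act g x ∈ XX Q Θ),
      lam Q Θ t x * lam Q Θ t (act g x) =
      ∑ θ ∈ Θ.filter (fun θ => (w * θ.1, w * θ.2) ∈ Θ),
        (((RR Q θ).filter (fun a => g a ∈ RR Q (w * θ.1, w * θ.2))).card : ℝ) *
          ((t θ / rept Q Q Q θ) * (t (w * θ.1, w * θ.2) / rept Q Q Q (w * θ.1, w * θ.2))) := by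
    intro g hg
    obtain ⟨hg1, hg2⟩ := hG g hg
    rw [Finset.sum_filter, sum_XX, Finset.sum_filter]
    refine Finset.sum_congr rfl (fun θ hθ => ?_)
    by_cases hw : (w * θ.1, w * θ.2) ∈ Θ
    · rw [if_pos hw]
      rw [← nsmul_eq_mul, ← Finset.sum_const, Finset.sum_filter]
      refine Finset.sum_congr rfl (fun a ha => ?_)
      rw [act_mk hg1, hg2, lam_mk hθ, lam_mk hw]
      by_cases hga : g a ∈ RR Q (w * θ.1, w * θ.2)
      · rw [if_pos (mem_mk.2 ⟨hw, hga⟩), if_pos hga]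
      · rw [if_neg (fun h => hga (mem_mk.1 h).2), if_neg hga]
    · rw [if_neg hw]
      refine Finset.sum_eq_zero (fun a ha => ?_)
      rw [act_mk hg1, hg2]
      rw [if_neg (fun h => hw (mem_mk.1 h).1)]
  rw [Finset.sum_congr rfl e1, Finset.sum_comm]
  refine Finset.sum_le_sum (fun θ hθ => ?_)
  obtain ⟨hθ1, hθ2⟩ := Finset.mem_filter.1 hθ
  rw [← Finset.sum_mul]
  have hn1 : 0 ≤ t θ / (rept Q Q Q θ : ℝ) := div_nonneg (ht _ hθ1) (Nat.cast_nonneg _)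
  have hn2 : 0 ≤ t (w * θ.1, w * θ.2) / (rept Q Q Q (w * θ.1, w * θ.2) : ℝ) :=
    div_nonneg (ht _ hθ2) (Nat.cast_nonneg _)
  refine (mul_le_mul_of_nonneg_right (count Q 𝒢 w hG θ (w * θ.1, w * θ.2))
    (mul_nonneg hn1 hn2)).trans ?_
  have key : ∀ θ' ∈ Θ, ((RR Q θ').card : ℝ) * (t θ' / (rept Q Q Q θ' : ℝ)) ≤ t θ' := by
    intro θ' hθ'
    rw [card_RR]
    rcases Nat.eq_zero_or_pos (rept Q Q Q θ') with h0 | h0
    · rw [h0]
      simpa using ht _ hθ'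
    · have h0' : ((rept Q Q Q θ' : ℕ) : ℝ) ≠ 0 := by
        exact_mod_cast h0.ne'
      rw [mul_div_cancel₀ _ h0']
  calc ((RR Q θ).card : ℝ) * (RR Q (w * θ.1, w * θ.2)).card *
      (t θ / rept Q Q Q θ * (t (w * θ.1, w * θ.2) / rept Q Q Q (w * θ.1, w * θ.2)))
      = ((RR Q θ).card * (t θ / rept Q Q Q θ)) * ((RR Q (w * θ.1, w * θ.2)).card *
        (t (w * θ.1, w * θ.2) / rept Q Q Q (w * θ.1, w * θ.2))) := by ring
    _ ≤ t θ * t (w * θ.1, w * θ.2) :=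
        mul_le_mul (key θ hθ1) (key _ hθ2) (mul_nonneg (Nat.cast_nonneg _) hn2) (ht _ hθ1)

open Classical in
/-- one isometry -/
lemma part_g (Q : Finset ℂ) (g : Gp) (Θ : Finset (ℂ × ℂ)) (t : ℂ × ℂ → ℝ) (M : ℝ) (hM : 0 ≤ M)
    (ht : ∀ θ ∈ Θ, 0 ≤ t θ) (ht' : ∀ θ ∈ Θ, t θ ≤ M * rept Q Q Q θ) :
    ∑ x ∈ (XX Q Θ).filter (fun x => act g x ∈ XX Q Θ), lam Q Θ t x * lam Q Θ t (act g x) ≤
      M ^ 2 * ((st Q g).card : ℝ) ^ 3 := by
  have h1 : ∑ x ∈ (XX Q Θ).filter (fun x => act g x ∈ XX Q Θ),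
      lam Q Θ t x * lam Q Θ t (act g x) ≤
      ∑ x ∈ (XX Q Θ).filter (fun x => act g x ∈ XX Q Θ), M ^ 2 := by
    refine Finset.sum_le_sum (fun x _ => ?_)
    rw [sq]
    exact mul_le_mul (lam_le hM ht' x) (lam_le hM ht' _) (lam_nonneg ht _) hM
  refine h1.trans ?_
  rw [Finset.sum_const, nsmul_eq_mul, mul_comm]
  refine mul_le_mul_of_nonneg_left ?_ (sq_nonneg M)
  have h2 : ((XX Q Θ).filter (fun x => act g x ∈ XX Q Θ)).card ≤
      (st Q g ×ˢ st Q g ×ˢ st Q g).card := by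
    apply Finset.card_le_card
    intro x hx
    obtain ⟨hx1, hx2⟩ := Finset.mem_filter.1 hx
    have k1 := (Finset.mem_filter.1 hx1).1
    have k2 := (Finset.mem_filter.1 hx2).1
    rw [Finset.mem_product, Finset.mem_product] at k1 k2 ⊢
    unfold st
    rw [Finset.mem_filter, Finset.mem_filter, Finset.mem_filter]
    exact ⟨⟨k1.1, k2.1⟩, ⟨k1.2.1, k2.2.1⟩, ⟨k1.2.2, k2.2.2⟩⟩
  rw [Finset.card_product, Finset.card_product] at h2
  have h3 : (((XX Q Θ).filter (fun x => act g x ∈ XX Q Θ)).card : ℝ) ≤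
      (((st Q g).card * ((st Q g).card * (st Q g).card) : ℕ) : ℝ) := by exact_mod_cast h2
  refine h3.trans (le_of_eq ?_)
  push_cast
  ring

end Pool.RAT.CSF1

namespace Pool.RAT

open Pool.BK Pool.BD Pool.RF

theorem stmt_CSF1 : Stmt_CSF1 := by
  classical
  intro P Q W 𝒢 η M Θ t hG hCS hQP hM hη hΘ
  have ht : ∀ θ ∈ Θ, 0 ≤ t θ := fun θ h => (hΘ θ h).2.2.2.1
  have ht' : ∀ θ ∈ Θ, t θ ≤ M * rept Q Q Q θ := fun θ h => (hΘ θ h).2.2.2.2
  have hX : CSF1.XX Q Θ ⊆ E3.T3 P := by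
    intro x hx
    obtain ⟨hx1, hx2⟩ := Finset.mem_filter.1 hx
    rw [Finset.mem_product, Finset.mem_product] at hx1
    obtain ⟨k1, k2, k3, _⟩ := hΘ _ hx2
    rw [E3.mem_T3]
    refine ⟨⟨hQP hx1.1, hQP hx1.2.1, hQP hx1.2.2⟩, ?_, ?_, ?_⟩
    · intro h
      apply k1
      show x.1 - x.2.1 = 0
      rw [h, sub_self]
    · intro h
      apply k3
      show x.1 - x.2.1 = x.1 - x.2.2
      rw [h]
    · intro h
      apply k2
      show x.1 - x.2.2 = 0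
      rw [h, sub_self]
  have h1 := hCS (CSF1.XX Q Θ) hX (CSF1.lam Q Θ t) (CSF1.lam_nonneg ht)
  have h2 : ∑ x ∈ CSF1.XX Q Θ, CSF1.lam Q Θ t x = ∑ θ ∈ Θ, t θ := by
    rw [CSF1.sum_XX]
    refine Finset.sum_congr rfl (fun θ hθ => ?_)
    rw [Finset.sum_congr rfl (fun a _ => CSF1.lam_mk hθ a), Finset.sum_const, nsmul_eq_mul,
      CSF1.card_RR]
    rcases Nat.eq_zero_or_pos (rept Q Q Q θ) with h0 | h0
    · have k1 := ht θ hθ
      have k2 := ht' θ hθ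
      rw [h0] at k2
      simp only [Nat.cast_zero, mul_zero] at k2
      rw [h0]
      simp only [Nat.cast_zero, zero_mul]
      linarith
    · have h0' : ((rept Q Q Q θ : ℕ) : ℝ) ≠ 0 := by
        exact_mod_cast h0.ne'
      rw [mul_div_cancel₀ _ h0']
  rw [h2] at h1
  refine h1.trans ?_
  refine mul_le_mul_of_nonneg_left ?_ (by positivity)
  rw [← Finset.sum_filter_add_sum_filter_not 𝒢 (fun g => lp g ∈ W)]
  refine add_le_add ?_ ?_
  · -- linear part in `W`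
    have hm : ∀ g ∈ 𝒢.filter (fun g => lp g ∈ W), lp g ∈ W := fun g hg =>
      (Finset.mem_filter.1 hg).2
    rw [← Finset.sum_fiberwise_of_maps_to hm]
    refine Finset.sum_le_sum (fun w hw => ?_)
    refine CSF1.part_w Q _ w ?_ Θ t ht
    intro g hg
    obtain ⟨hg1, hg2⟩ := Finset.mem_filter.1 hg
    exact ⟨hG g (Finset.mem_filter.1 hg1).1, hg2⟩
  · -- the others
    refine (Finset.sum_le_sum (fun g _ => CSF1.part_g Q g Θ t M hM ht ht')).trans ?_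
    rw [← Finset.mul_sum]
    exact mul_le_mul_of_nonneg_left hη (sq_nonneg M)

end Pool.RAT
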