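import Pool.Agent.Work.MP_dc37f8_rat.Interface

/-! # Block DIG (helper83): sums of powers with small digits are different -/

set_option autoImplicit false

open Finset

namespace Pool.RAT

namespace DIG

open Polynomial

/-- the polynomial `h X² - a X + h` -/
noncomputable def qp (a h : ℤ) : ℤ[X] := C h * X ^ 2 + C (-a) * X + C h

lemma qp_natDegree {a h : ℤ} (hh : h ≠ 0) : (qp a h).natDegree = 2 := by
  unfold qp
  exact natDegree_quadratic hh

lemma qp_leadingCoeff {a h : ℤ} (hh : h ≠ 0) : (qp a h).leadingCoeff = h := by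
  unfold qp
  exact leadingCoeff_quadratic hh

lemma qp_primitive {a h : ℤ} (hc : IsCoprime a h) : (qp a h).IsPrimitive := by
  intro r hr
  rw [C_dvd_iff_dvd_coeff] at hr
  have h0 : r ∣ h := by
    have := hr 0
    simpa [qp] using this
  have h1 : r ∣ a := by
    have := hr 1
    have h2 : (qp a h).coeff 1 = -a := by
      unfold qp
      rw [coeff_add, coeff_add, coeff_C_mul, coeff_C_mul, coeff_X_pow, coeff_X_one, coeff_C]
      simp
    rw [h2] at this
    exact (dvd_neg).mp this
  exact hc.isUnit_of_dvd' h1 h0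

/-- a complex number of absolute value one other than `±1` is not real -/
lemma im_ne {w : ℂ} (hw : ‖w‖ = 1) (h1 : w ≠ 1) (h2 : w ≠ -1) : w.im ≠ 0 := by
  intro him
  have hre : (w.re : ℂ) = w := by
    apply Complex.ext
    · simp
    · simp [him]
  have h3 : |w.re| = 1 := by
    rw [← hre] at hw
    simpa using hw
  rcases abs_eq (zero_le_one' ℝ) |>.mp h3 with h | h
  · apply h1
    rw [← hre, h]
    simp
  · apply h2
    rw [← hre, h]
    simp

/-- `w` is a root of the integer polynomial `f`: then `q` divides `f` -/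
lemma qp_dvd {w : ℂ} {a h : ℤ} (hh : h ≠ 0) (hc : IsCoprime a h) (him : w.im ≠ 0)
    (hq : (h : ℂ) * w ^ 2 - a * w + h = 0) (f : ℤ[X]) (hf : aeval w f = 0) : qp a h ∣ f := by
  rw [IsPrimitive.Int.dvd_iff_map_cast_dvd_map_cast _ _ (qp_primitive hc)]
  set F : ℚ[X] := f.map (Int.castRingHom ℚ) with hF
  set Q : ℚ[X] := (qp a h).map (Int.castRingHom ℚ) with hQ
  have hQd : Q.natDegree = 2 := by
    rw [hQ, natDegree_map_eq_of_injective (RingHom.injective_int _), qp_natDegree hh]
  have hQ0 : Q ≠ 0 := by
    intro h0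
    rw [h0] at hQd
    simp at hQd
  have hFw : aeval w F = 0 := by
    have h5 : aeval w F = aeval w f := by
      rw [hF]
      exact aeval_map_algebraMap ℚ w f
    rw [h5, hf]
  have hQw : aeval w Q = 0 := by
    have h5 : aeval w Q = aeval w (qp a h) := by
      rw [hQ]
      exact aeval_map_algebraMap ℚ w (qp a h)
    rw [h5]
    simp only [qp, map_add, map_mul, map_pow, aeval_X, aeval_C]
    simp only [algebraMap_int_eq, eq_intCast, Int.cast_neg]
    linear_combination hq
  have hmod : F % Q = 0 := by
    have hdeg : (F % Q).natDegree < 2 := by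
      rw [← hQd]
      exact natDegree_mod_lt F (by omega)
    have hw0 : aeval w (F % Q) = 0 := by
      have h6 : F % Q = F - Q * (F / Q) := by
        rw [EuclideanDomain.mod_eq_sub_mul_div]
      rw [h6, map_sub, map_mul, hFw, hQw]
      simp
    have h7 : F % Q = C ((F % Q).coeff 1) * X + C ((F % Q).coeff 0) :=
      eq_X_add_C_of_natDegree_le_one (by omega)
    rw [h7] at hw0
    simp only [map_add, map_mul, aeval_X, aeval_C] at hw0
    have h8 : ((F % Q).coeff 1 : ℂ) * w + ((F % Q).coeff 0 : ℂ) = 0 := by
      simpa using hw0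
    have h9 := congrArg Complex.im h8
    simp at h9
    have h10 : (F % Q).coeff 1 = 0 := by
      rcases h9 with h9 | h9
      · exact_mod_cast h9
      · exact absurd h9 him
    rw [h10] at h8
    have h11 : (F % Q).coeff 0 = 0 := by
      have : ((F % Q).coeff 0 : ℂ) = 0 := by simpa using h8
      exact_mod_cast this
    rw [h7, h10, h11]
    simp
  exact (EuclideanDomain.mod_eq_zero).mp hmod

end DIG

open Polynomial in
theorem stmt_DIG : Stmt_DIG := by
  intro w h hw hden h1 h2 m c hc hs
  obtain ⟨hpos, a, hco, heq⟩ := hden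
  have him := DIG.im_ne hw h1 h2
  have hh : (h : ℤ) ≠ 0 := by omega
  set f : ℤ[X] := ∑ k ∈ range m, C (c k) * X ^ k with hf
  have hcoe : ∀ k, f.coeff k = if k < m then c k else 0 := by
    intro k
    rw [hf, finsetSum_coeff]
    simp only [coeff_C_mul, coeff_X_pow]
    simp [Finset.mem_range]
  have hfw : aeval w f = 0 := by
    rw [hf, map_sum]
    rw [← hs]
    refine Finset.sum_congr rfl fun k _ => ?_
    simp
  have hd := DIG.qp_dvd hh hco him (by exact_mod_cast heq) f hfw
  have hf0 : f = 0 := by
    by_contra hne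
    have hl : (h : ℤ) ∣ f.leadingCoeff := by
      obtain ⟨g, hg⟩ := hd
      rw [hg, leadingCoeff_mul, DIG.qp_leadingCoeff hh]
      exact dvd_mul_right _ _
    have hlc : f.leadingCoeff ≠ 0 := leadingCoeff_ne_zero.mpr hne
    have h3 : |f.leadingCoeff| < h := by
      rw [leadingCoeff, hcoe]
      split_ifs
      · exact hc _
      · simpa using hpos
    have h4 := Int.le_of_dvd (abs_pos.mpr hlc) ((dvd_abs _ _).mpr hl)
    omega
  intro k hk
  have := hcoe k
  rw [hf0, if_pos hk] at this
  simpa using this.symm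

end Pool.RAT
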