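import Pool.Agent.Work.MP_dc37f8_rat.ENT2

/-!
# MP_dc37f8_co, block ENT1: thick sets have large entropy (helper43)
-/

set_option autoImplicit false
set_option maxHeartbeats 4000000

open Finset

namespace Pool.RAT

open Pool.BK Pool.BD Pool.RF

open scoped Pointwise

namespace ENT1

open Pool.RAT.ENT2

/-- a fine class plus the box has `M²` times as many points -/
theorem card_box (M : ℕ) (Q : Finset ℂ) (ω v q : ℂ) (hω : ω.im ≠ 0) (hv : v ≠ 0) (hM : 1 ≤ M) :
    M ^ 2 * (cls ω (M * v) Q q).card = ((cls ω (M * v) Q q) + box ω v M).card := by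
  classical
  have hM0 : (M : ℂ) ≠ 0 := by exact_mod_cast (show M ≠ 0 by omega)
  have hMv : (M : ℂ) * v ≠ 0 := mul_ne_zero hM0 hv
  have himg : (cls ω (M * v) Q q) + box ω v M =
      ((cls ω (M * v) Q q) ×ˢ (range M ×ˢ range M)).image
        (fun z => z.1 + ((z.2.1 : ℂ) + z.2.2 * ω) * v) := by
    ext z
    rw [Finset.mem_add, Finset.mem_image]
    constructor
    · rintro ⟨a, ha, b, hb, rfl⟩
      unfold box at hb
      obtain ⟨c, hc, rfl⟩ := Finset.mem_image.1 hb
      exact ⟨(a, c), Finset.mem_product.2 ⟨ha, hc⟩, rfl⟩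
    · rintro ⟨⟨a, c⟩, hac, rfl⟩
      rw [Finset.mem_product] at hac
      refine ⟨a, hac.1, ((c.1 : ℂ) + c.2 * ω) * v, ?_, rfl⟩
      unfold box
      exact Finset.mem_image.2 ⟨c, hac.2, rfl⟩
  rw [himg, Finset.card_image_of_injOn]
  · rw [Finset.card_product, Finset.card_product, Finset.card_range]
    ring
  · rintro ⟨a, i, j⟩ h1 ⟨a', i', j'⟩ h2 heq
    rw [Finset.mem_coe, Finset.mem_product, Finset.mem_product, Finset.mem_range,
      Finset.mem_range] at h1 h2
    obtain ⟨ha, hi, hj⟩ := h1
    obtain ⟨ha', hi', hj'⟩ := h2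
    simp only at ha ha' hi hi' hj hj' heq
    have hor : Or ω ((a - a') / (M * v)) :=
      or_trans (mem_cls.1 ha).2 (or_symm (mem_cls.1 ha').2)
    obtain ⟨x, y, hxy⟩ := hor
    have hxy' : a - a' = ((x : ℂ) + y * ω) * (M * v) := by
      rw [← hxy]
      field_simp
    have hsum : (((x : ℂ) + y * ω) * M + ((i : ℂ) + j * ω) - ((i' : ℂ) + j' * ω)) * v = 0 := by
      have : (((x : ℂ) + y * ω) * M + ((i : ℂ) + j * ω) - ((i' : ℂ) + j' * ω)) * v =
          (a - a') + ((i : ℂ) + j * ω) * v - ((i' : ℂ) + j' * ω) * v := by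
        rw [hxy']; ring
      rw [this]
      have : a - a' + ((i : ℂ) + j * ω) * v - ((i' : ℂ) + j' * ω) * v =
          (a + ((i : ℂ) + j * ω) * v) - (a' + ((i' : ℂ) + j' * ω) * v) := by ring
      rw [this, heq, sub_self]
    have hsum2 := (mul_eq_zero.1 hsum).resolve_right hv
    have h3 : (((x : ℝ) * M + i : ℝ) : ℂ) + (((y : ℝ) * M + j : ℝ) : ℂ) * ω =
        ((i' : ℝ) : ℂ) + ((j' : ℝ) : ℂ) * ω := by
      push_cast
      linear_combination hsum2
    obtain ⟨h4, h5⟩ := or_unique hω h3
    have h4' : x * M + i = i' := by exact_mod_cast h4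
    have h5' : y * M + j = j' := by exact_mod_cast h5
    have key : ∀ (x : ℤ) (i i' : ℕ), i < M → i' < M → x * M + i = i' → x = 0 := by
      intro x i i' hi hi' hx
      have hMz : (0 : ℤ) < M := by exact_mod_cast hM
      have hiz : (i : ℤ) < M := by exact_mod_cast hi
      have hiz' : (i' : ℤ) < M := by exact_mod_cast hi'
      have hi0 : (0 : ℤ) ≤ i := Int.natCast_nonneg i
      have hi0' : (0 : ℤ) ≤ i' := Int.natCast_nonneg i'
      rcases lt_trichotomy x 0 with hlt | he | hgt
      · have : x * M ≤ (-1) * M := mul_le_mul_of_nonneg_right (by omega) hMz.le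
        linarith
      · exact he
      · have : 1 * (M : ℤ) ≤ x * M := mul_le_mul_of_nonneg_right (by omega) hMz.le
        linarith
    have hx0 := key x i i' hi hi' h4'
    have hy0 := key y j j' hj hj' h5'
    subst hx0
    subst hy0
    have haa : a = a' := by
      have : a - a' = 0 := by rw [hxy']; simp
      exact sub_eq_zero.1 this
    have hii : i = i' := by
      have : (i : ℤ) = i' := by simpa using h4'
      exact_mod_cast this
    have hjj : j = j' := by
      have : (j : ℤ) = j' := by simpa using h5'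
      exact_mod_cast this
    rw [haa, hii, hjj]

theorem box_or {ω v z : ℂ} {M : ℕ} (hv : v ≠ 0) (hz : z ∈ box ω v M) : Or ω (z / v) := by
  unfold box at hz
  obtain ⟨c, _, rfl⟩ := Finset.mem_image.1 hz
  refine ⟨c.1, c.2, ?_⟩
  rw [mul_div_cancel_right₀ _ hv]
  push_cast
  rfl

end ENT1

open Pool.RAT.ENT2 in
theorem stmt_ENT1 : Stmt_ENT1 := by
  classical
  intro K M Q ω v hω hv hM hQ hcard
  set Z : Finset ℂ := Q + box ω v M with hZ
  have hM0 : (M : ℂ) ≠ 0 := by exact_mod_cast (show M ≠ 0 by omega)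
  have hMv : (M : ℂ) * v ≠ 0 := mul_ne_zero hM0 hv
  have hMR : (0 : ℝ) < M := by exact_mod_cast hM
  -- the box contains zero
  have h0box : (0 : ℂ) ∈ box ω v M := by
    unfold box
    refine Finset.mem_image.2 ⟨(0, 0), ?_, ?_⟩
    · rw [Finset.mem_product, Finset.mem_range]
      exact ⟨by omega, by simp; omega⟩
    · simp
  have hQZ : Q ⊆ Z := by
    intro q hq
    have := Finset.add_mem_add hq h0box
    rwa [add_zero] at this
  have hQpos : 0 < Q.card := Finset.card_pos.2 hQ
  have hKpos : 0 < K := by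
    rcases Nat.eq_zero_or_pos K with h | h
    · exfalso
      rw [h, zero_mul] at hcard
      have := Finset.card_le_card hQZ
      omega
    · exact h
  have hKR : (0 : ℝ) < K := by exact_mod_cast hKpos
  -- the sum of the ratios
  have hratio : ∑ q ∈ Q, ((M : ℝ) ^ 2 * (cls ω (M * v) Q q).card / (cls ω v Q q).card) ≤
      (Z.card : ℝ) := by
    have step1 : ∀ q ∈ Q, (M : ℝ) ^ 2 * (cls ω (M * v) Q q).card / (cls ω v Q q).card ≤
        ∑ z ∈ Z, if Or ω ((q - z) / v) then 1 / ((cls ω v Q z).card : ℝ) else 0 := by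
      intro q hq
      have hm : (0 : ℝ) < (cls ω v Q q).card := by exact_mod_cast cls_pos hq
      have e1 : (∑ z ∈ Z, if Or ω ((q - z) / v) then 1 / ((cls ω v Q z).card : ℝ) else 0) =
          ∑ z ∈ Z, if Or ω ((q - z) / v) then 1 / ((cls ω v Q q).card : ℝ) else 0 := by
        refine Finset.sum_congr rfl ?_
        intro z _
        by_cases hz : Or ω ((q - z) / v)
        · rw [if_pos hz, if_pos hz, cls_congr hz]
        · rw [if_neg hz, if_neg hz]
      rw [e1, ← Finset.sum_filter, Finset.sum_const, nsmul_eq_mul, mul_one_div]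
      refine div_le_div_of_nonneg_right ?_ hm.le
      have hsub : (cls ω (M * v) Q q) + box ω v M ⊆ Z.filter (fun z => Or ω ((q - z) / v)) := by
        intro z hz
        obtain ⟨a, ha, b, hb, rfl⟩ := Finset.mem_add.1 hz
        rw [Finset.mem_filter]
        refine ⟨Finset.add_mem_add (cls_sub q ha) hb, ?_⟩
        have h1 : Or ω ((a - q) / v) := fine_coarse hv hM (mem_cls.1 ha).2
        have h2 : Or ω (b / v) := ENT1.box_or hv hb
        have h3 := ox_neg (ox_add h1 h2)
        have e2 : -((a - q) / v + b / v) = (q - (a + b)) / v := by ring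
        rwa [e2] at h3
      have hc := Finset.card_le_card hsub
      rw [← ENT1.card_box M Q ω v q hω hv hM] at hc
      exact_mod_cast hc
    refine (Finset.sum_le_sum step1).trans ?_
    rw [Finset.sum_comm]
    have step2 : ∀ z ∈ Z, (∑ q ∈ Q, if Or ω ((q - z) / v) then 1 / ((cls ω v Q z).card : ℝ)
        else 0) ≤ 1 := by
      intro z _
      rw [← Finset.sum_filter, Finset.sum_const, nsmul_eq_mul, mul_one_div]
      have e3 : Q.filter (fun q => Or ω ((q - z) / v)) = cls ω v Q z := by
        ext q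
        rw [Finset.mem_filter, mem_cls]
      rw [e3]
      exact div_self_le_one _
    refine (Finset.sum_le_sum step2).trans ?_
    rw [Finset.sum_const, nsmul_eq_mul, mul_one]
  have hcardR : (Z.card : ℝ) ≤ K * Q.card := by exact_mod_cast hcard
  -- the tangent of the logarithm
  have hlog : ∀ q ∈ Q, Real.log ((M : ℝ) ^ 2 * (cls ω (M * v) Q q).card / (cls ω v Q q).card) ≤
      Real.log K + ((M : ℝ) ^ 2 * (cls ω (M * v) Q q).card / (cls ω v Q q).card) / K - 1 := by
    intro q hq
    have hm : (0 : ℝ) < (cls ω v Q q).card := by exact_mod_cast cls_pos hq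
    have hm' : (0 : ℝ) < (cls ω (M * v) Q q).card := by exact_mod_cast cls_pos hq
    have hx : (0 : ℝ) < (M : ℝ) ^ 2 * (cls ω (M * v) Q q).card / (cls ω v Q q).card := by
      positivity
    have h2 := Real.log_le_sub_one_of_pos (div_pos hx hKR)
    rw [Real.log_div hx.ne' hKR.ne'] at h2
    linarith
  refine (Finset.sum_le_sum hlog).trans ?_
  rw [Finset.sum_sub_distrib, Finset.sum_add_distrib, Finset.sum_const, nsmul_eq_mul,
    Finset.sum_const, nsmul_eq_mul, mul_one, ← Finset.sum_div]
  have h5 : (∑ q ∈ Q, ((M : ℝ) ^ 2 * (cls ω (M * v) Q q).card / (cls ω v Q q).card)) / K ≤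
      Q.card := by
    rw [div_le_iff₀ hKR]
    linarith
  linarith

end Pool.RAT
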