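import Pool.Agent.Work.MP_dc37f8_rat.Interface

/-! # Block ENT2: small entropy defect gives equidistribution (helper13) -/

set_option autoImplicit false

open Finset

namespace Pool.RAT.ENT2

open Pool.RAT

section
variable {ω e : ℂ} {B : ℕ} {Q : Finset ℂ}

theorem or_unique (hω : ω.im ≠ 0) {x y x' y' : ℝ} (h : (x : ℂ) + y * ω = x' + y' * ω) :
    x = x' ∧ y = y' := by
  have h1 := congrArg Complex.im h
  have h2 := congrArg Complex.re h
  simp at h1 h2
  have h3 : y = y' := by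
    rcases h1 with h1 | h1
    · exact h1
    · exact absurd h1 hω
  subst h3
  exact ⟨by linarith, rfl⟩

theorem ox_zero (ω : ℂ) : Or ω 0 := ⟨0, 0, by simp⟩

theorem ox_add {z z' : ℂ} (h : Or ω z) (h' : Or ω z') : Or ω (z + z') := by
  obtain ⟨x, y, rfl⟩ := h
  obtain ⟨x', y', rfl⟩ := h'
  exact ⟨x + x', y + y', by push_cast; ring⟩

theorem ox_neg {z : ℂ} (h : Or ω z) : Or ω (-z) := by
  obtain ⟨x, y, rfl⟩ := h
  exact ⟨-x, -y, by push_cast; ring⟩

theorem ox_mul {z : ℂ} (n : ℕ) (h : Or ω z) : Or ω (n * z) := by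
  obtain ⟨x, y, rfl⟩ := h
  exact ⟨n * x, n * y, by push_cast; ring⟩

theorem mem_cls {q z : ℂ} : q ∈ cls ω e Q z ↔ q ∈ Q ∧ Or ω ((q - z) / e) := by
  classical
  simp [cls]

theorem or_symm {q z : ℂ} (h : Or ω ((q - z) / e)) : Or ω ((z - q) / e) := by
  have := ox_neg h
  have e1 : -((q - z) / e) = (z - q) / e := by ring
  rwa [e1] at this

theorem or_trans {p q z : ℂ} (h : Or ω ((p - q) / e)) (h' : Or ω ((q - z) / e)) :
    Or ω ((p - z) / e) := by
  have := ox_add h h'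
  have e1 : (p - q) / e + (q - z) / e = (p - z) / e := by ring
  rwa [e1] at this

/-- congruent centres have the same class -/
theorem cls_congr {z z' : ℂ} (h : Or ω ((z - z') / e)) : cls ω e Q z = cls ω e Q z' := by
  ext q
  rw [mem_cls, mem_cls]
  constructor
  · rintro ⟨h1, h2⟩; exact ⟨h1, or_trans h2 h⟩
  · rintro ⟨h1, h2⟩; exact ⟨h1, or_trans h2 (or_symm h)⟩

theorem self_mem {q : ℂ} (hq : q ∈ Q) : q ∈ cls ω e Q q := by
  rw [mem_cls]
  exact ⟨hq, by rw [sub_self, zero_div]; exact ox_zero ω⟩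

theorem cls_pos {q : ℂ} (hq : q ∈ Q) : 0 < (cls ω e Q q).card :=
  card_pos.2 ⟨q, self_mem hq⟩

theorem cls_sub (z : ℂ) : cls ω e Q z ⊆ Q := fun q hq => (mem_cls.1 hq).1

/-- a fine congruence is a coarse one -/
theorem fine_coarse (he : e ≠ 0) (hB : 1 ≤ B) {z : ℂ} (h : Or ω (z / (B * e))) :
    Or ω (z / e) := by
  have hB' : (B : ℂ) ≠ 0 := by exact_mod_cast (show B ≠ 0 by omega)
  have e1 : (B : ℂ) * (z / (B * e)) = z / e := by field_simp
  have := ox_mul B h
  rwa [e1] at this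

/-- the sum over the `B ^ 2` fine classes of a coarse class -/
theorem part (hω : ω.im ≠ 0) (he : e ≠ 0) (hB : 1 ≤ B) (f : ℂ → ℝ) (q : ℂ) :
    ∑ z ∈ range B ×ˢ range B, ∑ p ∈ cls ω (B * e) Q (q + ((z.1 : ℂ) + z.2 * ω) * e), f p =
      ∑ p ∈ cls ω e Q q, f p := by
  classical
  have hB' : (B : ℂ) ≠ 0 := by exact_mod_cast (show B ≠ 0 by omega)
  have h1 : ∀ z : ℕ × ℕ, ∑ p ∈ cls ω (B * e) Q (q + ((z.1 : ℂ) + z.2 * ω) * e), f p =
      ∑ p ∈ Q, if Or ω ((p - (q + ((z.1 : ℂ) + z.2 * ω) * e)) / (B * e)) then f p else 0 :=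
    fun z => by rw [← sum_filter]; rfl
  have h2 : ∑ p ∈ cls ω e Q q, f p = ∑ p ∈ Q, if Or ω ((p - q) / e) then f p else 0 := by
    rw [← sum_filter]; rfl
  rw [h2, sum_congr rfl (fun z _ => h1 z), sum_comm]
  refine sum_congr rfl fun p _ => ?_
  by_cases hc : Or ω ((p - q) / e)
  · rw [if_pos hc]
    obtain ⟨X, Y, hXY⟩ := hc
    have hBz : (0 : ℤ) < B := by exact_mod_cast hB
    have key : ∀ x y : ℕ, Or ω ((p - (q + ((x : ℂ) + y * ω) * e)) / (B * e)) ↔
        (B : ℤ) ∣ X - x ∧ (B : ℤ) ∣ Y - y := by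
      intro x y
      have e1 : (p - (q + ((x : ℂ) + y * ω) * e)) / (B * e) =
          (((X - x : ℤ) : ℂ) + ((Y - y : ℤ) : ℂ) * ω) / B := by
        have e2 : p - q = (X + Y * ω) * e := by rw [← hXY]; field_simp
        have e3 : p - (q + ((x : ℂ) + y * ω) * e) =
            (((X - x : ℤ) : ℂ) + ((Y - y : ℤ) : ℂ) * ω) * e := by
          push_cast
          linear_combination e2
        rw [e3]; field_simp
      rw [e1]
      constructor
      · rintro ⟨k, l, hkl⟩
        rw [div_eq_iff hB'] at hkl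
        have e4 : (((X - x : ℤ) : ℝ) : ℂ) + (((Y - y : ℤ) : ℝ) : ℂ) * ω =
            (((k * B : ℤ) : ℝ) : ℂ) + (((l * B : ℤ) : ℝ) : ℂ) * ω := by
          push_cast at hkl ⊢
          linear_combination hkl
        obtain ⟨g1, g2⟩ := or_unique hω e4
        have g1' : X - x = k * B := by exact_mod_cast g1
        have g2' : Y - y = l * B := by exact_mod_cast g2
        exact ⟨⟨k, by rw [g1']; ring⟩, ⟨l, by rw [g2']; ring⟩⟩
      · rintro ⟨⟨k, hk⟩, ⟨l, hl⟩⟩
        refine ⟨k, l, ?_⟩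
        rw [hk, hl, div_eq_iff hB']
        push_cast; ring
    rw [sum_eq_single (((X % B).toNat, (Y % B).toNat) : ℕ × ℕ)]
    · rw [if_pos]
      rw [key]
      have hx : (((X % B).toNat : ℕ) : ℤ) = X % B :=
        Int.toNat_of_nonneg (Int.emod_nonneg _ hBz.ne')
      have hy : (((Y % B).toNat : ℕ) : ℤ) = Y % B :=
        Int.toNat_of_nonneg (Int.emod_nonneg _ hBz.ne')
      rw [hx, hy]
      exact ⟨Int.dvd_self_sub_emod, Int.dvd_self_sub_emod⟩
    · rintro ⟨x, y⟩ hz hne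
      rw [if_neg]
      rw [key]
      rintro ⟨h3, h4⟩
      apply hne
      rw [mem_product, mem_range, mem_range] at hz
      have hx0 : (x : ℤ) < B := by exact_mod_cast hz.1
      have hy0 : (y : ℤ) < B := by exact_mod_cast hz.2
      have ex : X % B = x := by
        have g := Int.emod_eq_emod_iff_emod_sub_eq_zero.2 (Int.emod_eq_zero_of_dvd h3)
        rwa [Int.emod_eq_of_lt (Int.natCast_nonneg x) hx0] at g
      have ey : Y % B = y := by
        have g := Int.emod_eq_emod_iff_emod_sub_eq_zero.2 (Int.emod_eq_zero_of_dvd h4)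
        rwa [Int.emod_eq_of_lt (Int.natCast_nonneg y) hy0] at g
      rw [ex, ey]
      simp
    · intro hn
      exfalso
      apply hn
      rw [mem_product, mem_range, mem_range]
      have hx := Int.emod_lt_of_pos X hBz
      have hy := Int.emod_lt_of_pos Y hBz
      have hx0 := Int.emod_nonneg X hBz.ne'
      have hy0 := Int.emod_nonneg Y hBz.ne'
      constructor
      · show (X % B).toNat < B
        omega
      · show (Y % B).toNat < B
        omega
  · rw [if_neg hc]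
    refine sum_eq_zero fun z _ => ?_
    rw [if_neg]
    intro h3
    apply hc
    have h4 := fine_coarse he hB h3
    have h5 : Or ω ((z.1 : ℂ) + z.2 * ω) := ⟨z.1, z.2, by push_cast; ring⟩
    have h6 := ox_add h4 h5
    have e1 : (p - (q + ((z.1 : ℂ) + z.2 * ω) * e)) / e + ((z.1 : ℂ) + z.2 * ω) = (p - q) / e := by
      field_simp; ring
    rwa [e1] at h6

/-- double counting over a congruence -/
theorem swap (R S : Finset ℂ) (F : ℂ → ℂ → ℝ) :
    ∑ q ∈ R, ∑ p ∈ cls ω e S q, F q p = ∑ p ∈ S, ∑ q ∈ cls ω e R p, F q p := by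
  classical
  have h1 : ∀ q : ℂ, ∑ p ∈ cls ω e S q, F q p =
      ∑ p ∈ S, if Or ω ((p - q) / e) then F q p else 0 := fun q => by
    rw [← sum_filter]; rfl
  have h2 : ∀ p : ℂ, ∑ q ∈ cls ω e R p, F q p =
      ∑ q ∈ R, if Or ω ((q - p) / e) then F q p else 0 := fun p => by
    rw [← sum_filter]; rfl
  rw [sum_congr rfl (fun q _ => h1 q), sum_congr rfl (fun p _ => h2 p), sum_comm]
  refine sum_congr rfl fun p _ => sum_congr rfl fun q _ => ?_
  by_cases h : Or ω ((p - q) / e)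
  · rw [if_pos h, if_pos (or_symm h)]
  · rw [if_neg h, if_neg fun h' => h (or_symm h')]

theorem log_ge {x : ℝ} (hx : 0 < x) : 2 * (1 - 1 / Real.sqrt x) ≤ Real.log x := by
  have hs : 0 < Real.sqrt x := Real.sqrt_pos.2 hx
  have h1 := Real.log_le_sub_one_of_pos (show 0 < 1 / Real.sqrt x by positivity)
  rw [one_div, Real.log_inv, Real.log_sqrt hx.le] at h1
  rw [one_div]
  linarith

end

end Pool.RAT.ENT2

namespace Pool.RAT

open Pool.RAT.ENT2

theorem stmt_ENT2 : Stmt_ENT2 := by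
  classical
  intro B ε Q ω e hω he hB hε0 hε1
  have hBR : (0 : ℝ) < B := by exact_mod_cast hB
  -- abbreviations
  set m : ℂ → ℝ := fun q => ((cls ω e Q q).card : ℝ) with hm
  set m' : ℂ → ℝ := fun q => ((cls ω (B * e) Q q).card : ℝ) with hm'
  have hmpos : ∀ q ∈ Q, 0 < m q := fun q hq => by
    simp only [hm]; exact_mod_cast cls_pos hq
  have hmpos' : ∀ q ∈ Q, 0 < m' q := fun q hq => by
    simp only [hm']; exact_mod_cast cls_pos hq
  have hm0' : ∀ q, 0 ≤ m' q := fun q => by simp only [hm']; positivity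
  set pt : ℂ → ℕ × ℕ → ℂ := fun q z => q + ((z.1 : ℂ) + z.2 * ω) * e with hpt
  -- the sum of the fine classes
  have hsum : ∀ q, ∑ z ∈ range B ×ˢ range B, m' (pt q z) = m q := by
    intro q
    have := part (Q := Q) hω he hB (fun _ => (1 : ℝ)) q
    simpa [hm, hm', hpt] using this
  -- the function `U`
  set U : ℂ → ℝ := fun q => ∑ z ∈ range B ×ˢ range B,
    (Real.sqrt (m' (pt q z)) / Real.sqrt (m q) - 1 / B) ^ 2 with hU
  have hUexp : ∀ q ∈ Q, U q = 2 - 2 / B * ((∑ z ∈ range B ×ˢ range B,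
      Real.sqrt (m' (pt q z))) / Real.sqrt (m q)) := by
    intro q hq
    have hs : 0 < Real.sqrt (m q) := Real.sqrt_pos.2 (hmpos q hq)
    have hs2 : Real.sqrt (m q) ^ 2 = m q := Real.sq_sqrt (hmpos q hq).le
    have e1 : ∀ z ∈ range B ×ˢ range B,
        (Real.sqrt (m' (pt q z)) / Real.sqrt (m q) - 1 / B) ^ 2 =
        m' (pt q z) / m q - 2 / B * (Real.sqrt (m' (pt q z)) / Real.sqrt (m q)) +
          1 / (B : ℝ) ^ 2 := by
      intro z _
      have h3 : Real.sqrt (m' (pt q z)) ^ 2 = m' (pt q z) := Real.sq_sqrt (hm0' _)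
      rw [sub_sq, div_pow, h3, hs2]
      ring
    simp only [hU]
    rw [sum_congr rfl e1, sum_add_distrib, sum_sub_distrib, ← sum_div, hsum q, ← mul_sum,
      ← sum_div, sum_const, card_product, card_range, div_self (hmpos q hq).ne']
    rw [nsmul_eq_mul]
    push_cast
    field_simp
    ring
  -- the double counting
  have hdc : ∑ q ∈ Q, (∑ z ∈ range B ×ˢ range B, Real.sqrt (m' (pt q z))) / Real.sqrt (m q) =
      ∑ q ∈ Q, Real.sqrt (m q) / Real.sqrt (m' q) := by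
    have h1 : ∀ z : ℂ, Real.sqrt (m' z) = ∑ p ∈ cls ω (B * e) Q z, 1 / Real.sqrt (m' p) := by
      intro z
      have h2 : ∀ p ∈ cls ω (B * e) Q z, 1 / Real.sqrt (m' p) = 1 / Real.sqrt (m' z) := by
        intro p hp
        have : m' p = m' z := by simp only [hm']; rw [cls_congr (mem_cls.1 hp).2]
        rw [this]
      rw [sum_congr rfl h2, sum_const, nsmul_eq_mul]
      have h3 : ((cls ω (B * e) Q z).card : ℝ) = m' z := rfl
      rw [h3]
      rcases (hm0' z).eq_or_lt with h4 | h4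
      · rw [← h4]; simp
      · have hs : 0 < Real.sqrt (m' z) := Real.sqrt_pos.2 h4
        have hs2 : Real.sqrt (m' z) ^ 2 = m' z := Real.sq_sqrt h4.le
        field_simp
        exact hs2
    have h2 : ∀ q ∈ Q, (∑ z ∈ range B ×ˢ range B, Real.sqrt (m' (pt q z))) / Real.sqrt (m q) =
        ∑ p ∈ cls ω e Q q, 1 / Real.sqrt (m' p) / Real.sqrt (m q) := by
      intro q _
      rw [← sum_div]
      congr 1
      rw [← part (Q := Q) hω he hB (fun p => 1 / Real.sqrt (m' p)) q]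
      exact sum_congr rfl fun z _ => h1 _
    rw [sum_congr rfl h2, swap Q Q (fun q p => 1 / Real.sqrt (m' p) / Real.sqrt (m q))]
    refine sum_congr rfl fun p hp => ?_
    have h3 : ∀ q ∈ cls ω e Q p, 1 / Real.sqrt (m' p) / Real.sqrt (m q) =
        1 / Real.sqrt (m' p) / Real.sqrt (m p) := by
      intro q hq
      have : m q = m p := by simp only [hm]; rw [cls_congr (mem_cls.1 hq).2]
      rw [this]
    rw [sum_congr rfl h3, sum_const, nsmul_eq_mul]
    have h4 : ((cls ω e Q p).card : ℝ) = m p := rfl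
    rw [h4]
    have hs : 0 < Real.sqrt (m p) := Real.sqrt_pos.2 (hmpos p hp)
    have hs' : 0 < Real.sqrt (m' p) := Real.sqrt_pos.2 (hmpos' p hp)
    have hs2 : Real.sqrt (m p) ^ 2 = m p := Real.sq_sqrt (hmpos p hp).le
    field_simp
    exact hs2.symm
  -- `∑ U ≤ ∑ log`
  have hlog : ∑ q ∈ Q, U q ≤ ∑ q ∈ Q, Real.log ((B : ℝ) ^ 2 * m' q / m q) := by
    have h1 : ∑ q ∈ Q, U q = ∑ q ∈ Q, (2 - 2 / B * (Real.sqrt (m q) / Real.sqrt (m' q))) := by
      rw [sum_congr rfl hUexp, sum_sub_distrib, sum_sub_distrib, ← mul_sum, ← mul_sum, hdc]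
    rw [h1]
    refine sum_le_sum fun q hq => ?_
    have p1 := hmpos q hq
    have p2 := hmpos' q hq
    have hs : 0 < Real.sqrt (m q) := Real.sqrt_pos.2 p1
    have hs' : 0 < Real.sqrt (m' q) := Real.sqrt_pos.2 p2
    have h2 := log_ge (x := (B : ℝ) ^ 2 * m' q / m q) (by positivity)
    have h3 : Real.sqrt ((B : ℝ) ^ 2 * m' q / m q) = B * Real.sqrt (m' q) / Real.sqrt (m q) := by
      rw [Real.sqrt_div (by positivity), Real.sqrt_mul (by positivity), Real.sqrt_sq hBR.le]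
    rw [h3] at h2
    refine le_trans (le_of_eq ?_) h2
    field_simp
  -- the bad points
  set Bad := Q.filter (fun q => ∃ x ∈ range B, ∃ y ∈ range B,
      (B : ℝ) ^ 2 * (cls ω (B * e) Q (q + (x + y * ω) * e)).card <
        (1 - ε) * (cls ω e Q q).card) with hBad
  have hU0 : ∀ q, 0 ≤ U q := fun q => sum_nonneg fun z _ => sq_nonneg _
  have hUbad : ∀ q ∈ Bad, ε ^ 2 / (4 * (B : ℝ) ^ 2) ≤ U q := by
    intro q hq
    rw [hBad, mem_filter] at hq
    obtain ⟨hqQ, x, hx, y, hy, hlt⟩ := hq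
    have p1 := hmpos q hqQ
    have hs : 0 < Real.sqrt (m q) := Real.sqrt_pos.2 p1
    have hz : ((x, y) : ℕ × ℕ) ∈ range B ×ˢ range B := mem_product.2 ⟨hx, hy⟩
    have h1 : (Real.sqrt (m' (pt q (x, y))) / Real.sqrt (m q) - 1 / B) ^ 2 ≤ U q :=
      single_le_sum (f := fun z => (Real.sqrt (m' (pt q z)) / Real.sqrt (m q) - 1 / B) ^ 2)
        (fun z _ => sq_nonneg _) hz
    refine le_trans ?_ h1
    have hlt' : (B : ℝ) ^ 2 * m' (pt q (x, y)) < (1 - ε) * m q := hlt
    -- `√m' / √m ≤ (1 - ε/2) / B`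
    have h2 : Real.sqrt (m' (pt q (x, y))) / Real.sqrt (m q) ≤ (1 - ε / 2) / B := by
      rw [div_le_div_iff₀ hs hBR]
      have h3 : Real.sqrt (m' (pt q (x, y))) * B =
          Real.sqrt ((B : ℝ) ^ 2 * m' (pt q (x, y))) := by
        rw [Real.sqrt_mul (by positivity), Real.sqrt_sq hBR.le]; ring
      have h4 : (1 - ε / 2) * Real.sqrt (m q) = Real.sqrt ((1 - ε / 2) ^ 2 * m q) := by
        rw [Real.sqrt_mul (by positivity), Real.sqrt_sq (by linarith)]
      rw [h3, h4]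
      refine Real.sqrt_le_sqrt ?_
      nlinarith [sq_nonneg ε]
    have h5 : ε / (2 * B) ≤ 1 / B - Real.sqrt (m' (pt q (x, y))) / Real.sqrt (m q) := by
      have e1 : ε / (2 * B) = 1 / B - (1 - ε / 2) / B := by field_simp; ring
      rw [e1]; linarith
    have h6 : 0 ≤ ε / (2 * B) := by positivity
    calc ε ^ 2 / (4 * (B : ℝ) ^ 2) = (ε / (2 * B)) ^ 2 := by ring
      _ ≤ (1 / B - Real.sqrt (m' (pt q (x, y))) / Real.sqrt (m q)) ^ 2 :=
        pow_le_pow_left₀ h6 h5 2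
      _ = _ := by ring
  have h7 : (Bad.card : ℝ) * (ε ^ 2 / (4 * (B : ℝ) ^ 2)) ≤ ∑ q ∈ Q, U q := by
    calc (Bad.card : ℝ) * (ε ^ 2 / (4 * (B : ℝ) ^ 2)) = ∑ q ∈ Bad, ε ^ 2 / (4 * (B : ℝ) ^ 2) := by
          rw [sum_const, nsmul_eq_mul]
      _ ≤ ∑ q ∈ Bad, U q := sum_le_sum hUbad
      _ ≤ ∑ q ∈ Q, U q := sum_le_sum_of_subset_of_nonneg (filter_subset _ _) fun q _ _ => hU0 q
  have h8 := h7.trans hlog
  have h9 : ε ^ 2 * (Bad.card : ℝ) = 4 * (B : ℝ) ^ 2 * ((Bad.card : ℝ) *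
      (ε ^ 2 / (4 * (B : ℝ) ^ 2))) := by
    field_simp
  show ε ^ 2 * (Bad.card : ℝ) ≤ 4 * (B : ℝ) ^ 2 *
    ∑ q ∈ Q, Real.log ((B : ℝ) ^ 2 * m' q / m q)
  rw [h9]
  exact mul_le_mul_of_nonneg_left h8 (by positivity)

end Pool.RAT
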