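import Pool.Agent.Work.MP_dc37f8_rat.InterfaceL

set_option autoImplicit false

/-! # FD0: the field of a rotation with rational cosine (helper31) -/

namespace Pool.RAT

theorem fd0 : Stmt_FD0 := by
  intro w hw him hq
  obtain ⟨q, hq⟩ := hq
  have h1 : w.re ^ 2 + w.im ^ 2 = 1 := by
    have h2 : Complex.normSq w = 1 := by rw [Complex.normSq_eq_norm_sq, hw, one_pow]
    rw [Complex.normSq_apply] at h2
    nlinarith
  have h2 : 0 < w.im ^ 2 := by positivity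
  set t : ℚ := 1 - q ^ 2 with ht
  have h3 : w.im ^ 2 = (t : ℝ) := by
    rw [ht]; push_cast
    rw [← hq]; linarith
  have ht0 : 0 < t := by
    have : (0 : ℝ) < (t : ℝ) := by rw [← h3]; exact h2
    exact_mod_cast this
  obtain ⟨D, c, hD⟩ := Nat.sq_mul_squarefree (t.num.natAbs * t.den)
  obtain ⟨hD1, hD2⟩ := hD
  have hden : (0 : ℝ) < t.den := by exact_mod_cast t.den_pos
  have hnum : ((t.num.natAbs : ℕ) : ℝ) = (t.num : ℝ) := by
    have h5 : (0 : ℤ) < t.num := Rat.num_pos.mpr ht0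
    have h6 : ((t.num.natAbs : ℕ) : ℤ) = t.num := Int.natAbs_of_nonneg h5.le
    calc ((t.num.natAbs : ℕ) : ℝ) = (((t.num.natAbs : ℕ) : ℤ) : ℝ) := (Int.cast_natCast _).symm
      _ = (t.num : ℝ) := by rw [h6]
  have h4 : (t : ℝ) = (t.num : ℝ) / t.den := by
    exact_mod_cast (Rat.num_div_den t).symm
  have h5 : w.im ^ 2 = ((c : ℝ) / t.den) ^ 2 * D := by
    rw [h3, h4]
    have h6 : ((c : ℝ)) ^ 2 * D = (t.num : ℝ) * t.den := by
      rw [← hnum]; exact_mod_cast hD1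
    rw [div_pow, div_mul_eq_mul_div, h6]
    field_simp
  have h6 : w.im ^ 2 = ((c : ℝ) / t.den * Real.sqrt D) ^ 2 := by
    rw [mul_pow, Real.sq_sqrt (Nat.cast_nonneg _), h5]
  have h7 : ∃ y : ℚ, w.im = (y : ℝ) * Real.sqrt D := by
    rcases sq_eq_sq_iff_eq_or_eq_neg.mp h6 with h7 | h7
    · exact ⟨(c : ℚ) / t.den, by rw [h7]; push_cast; ring⟩
    · exact ⟨-((c : ℚ) / t.den), by rw [h7]; push_cast; ring⟩
  obtain ⟨y, hy⟩ := h7
  refine ⟨D, hD2, q, y, ?_⟩
  apply Complex.ext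
  · simp [hq]
  · simp [hy]

end Pool.RAT
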