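import Pool.Agent.Work.MP_dc37f8_rat.InterfaceL

/-!
# MP_dc37f8_co, project rat: block FEWC
-/

set_option autoImplicit false

open Finset
open scoped Pointwise

namespace Pool.RAT

open Pool.BK Pool.BD Pool.RF

/-- three points of a line are not on a circle -/
theorem FEWC.three (x v z : ℂ) (ρ : ℝ) (hv : v ≠ 0) (a b c : ℝ) (hab : a ≠ b) (hac : a ≠ c)
    (hbc : b ≠ c) (ha : dist (x - a * v) z = ρ) (hb : dist (x - b * v) z = ρ)
    (hc : dist (x - c * v) z = ρ) : False := by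
  rw [Complex.dist_eq] at ha hb hc
  have key : ∀ t : ℝ, ‖x - t * v - z‖ ^ 2 =
      Complex.normSq (x - z) - 2 * t * ((x - z) * (starRingEnd ℂ) v).re +
        t ^ 2 * Complex.normSq v := by
    intro t
    rw [← Complex.normSq_eq_norm_sq]
    simp only [Complex.normSq_apply, Complex.sub_re, Complex.sub_im, Complex.mul_re,
      Complex.mul_im, Complex.ofReal_re, Complex.ofReal_im, Complex.conj_re, Complex.conj_im]
    ring
  have ea := key a
  have eb := key b
  have ec := key c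
  rw [ha] at ea
  rw [hb] at eb
  rw [hc] at ec
  set q := ((x - z) * (starRingEnd ℂ) v).re
  set V := Complex.normSq v
  have hV : 0 < V := Complex.normSq_pos.2 hv
  have h1 : (a - b) * ((a + b) * V - 2 * q) = 0 := by nlinarith
  have h2 : (a - c) * ((a + c) * V - 2 * q) = 0 := by nlinarith
  rcases mul_eq_zero.1 h1 with h | h
  · exact hab (sub_eq_zero.1 h)
  rcases mul_eq_zero.1 h2 with h' | h'
  · exact hac (sub_eq_zero.1 h')
  have h3 : (b - c) * V = 0 := by nlinarith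
  rcases mul_eq_zero.1 h3 with h4 | h4
  · exact hbc (sub_eq_zero.1 h4)
  · exact hV.ne' h4

theorem FEWC.mem_seg {v x : ℂ} {L : ℕ} : x ∈ seg v L ↔ ∃ i < L, (i : ℂ) * v = x := by
  simp [seg]

open Classical in
theorem stmt_FEWC : Stmt_FEWC := by
  intro P v z ρ L hv
  have h1 : ∀ y ∈ (range L) ×ˢ (P.filter (fun p => dist p z = ρ)),
      y.2 + (y.1 : ℂ) * v ∈ P + seg v L := by
    intro y hy
    obtain ⟨hy1, hy2⟩ := mem_product.1 hy
    exact add_mem_add (mem_filter.1 hy2).1 (FEWC.mem_seg.2 ⟨y.1, mem_range.1 hy1, rfl⟩)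
  have h2 := card_le_mul_card_image_of_maps_to (s := (range L) ×ˢ (P.filter (fun p => dist p z = ρ)))
    (f := fun y => y.2 + (y.1 : ℂ) * v) h1 2 ?_
  · rw [card_product, card_range] at h2
    exact h2
  · intro x _
    by_contra hcon
    push Not at hcon
    obtain ⟨a, b, c, ha, hb, hc, hab, hac, hbc⟩ := two_lt_card_iff.1 hcon
    have hf : ∀ y ∈ ((range L) ×ˢ (P.filter (fun p => dist p z = ρ))).filter
        (fun y => y.2 + (y.1 : ℂ) * v = x), dist (x - ((y.1 : ℝ) : ℂ) * v) z = ρ ∧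
          y.2 = x - ((y.1 : ℝ) : ℂ) * v := by
      intro y hy
      obtain ⟨hy1, hy2⟩ := mem_filter.1 hy
      have hy3 := (mem_filter.1 (mem_product.1 hy1).2).2
      have e : y.2 = x - ((y.1 : ℝ) : ℂ) * v := by
        rw [← hy2]; push_cast; ring
      exact ⟨by rw [← e]; exact hy3, e⟩
    have ne : ∀ y y' : ℕ × ℂ, y.2 = x - ((y.1 : ℝ) : ℂ) * v → y'.2 = x - ((y'.1 : ℝ) : ℂ) * v →
        y ≠ y' → (y.1 : ℝ) ≠ (y'.1 : ℝ) := by
      intro y y' h h' hne heq
      apply hne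
      have h3 : y.1 = y'.1 := by exact_mod_cast heq
      refine Prod.ext h3 ?_
      rw [h, h', h3]
    obtain ⟨a1, a2⟩ := hf a ha
    obtain ⟨b1, b2⟩ := hf b hb
    obtain ⟨c1, c2⟩ := hf c hc
    exact FEWC.three x v z ρ hv a.1 b.1 c.1 (ne a b a2 b2 hab) (ne a c a2 c2 hac)
      (ne b c b2 c2 hbc) a1 b1 c1

end Pool.RAT
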