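import Pool.Agent.Work.MP_dc37f8_rat.Interface

/-!
# MP_dc37f8_co, block FLD: elements of absolute value one of `ℚ(√-D)`
-/

set_option autoImplicit false

namespace Pool.RAT

/-- a rational number whose square times a squarefree number is an integer is an integer -/
theorem fld_int {D : ℕ} (hD : Squarefree D) {Y : ℚ} {n : ℤ} (h : (D : ℚ) * Y ^ 2 = n) :
    ∃ m : ℤ, Y = m := by
  have hden : (Y.den : ℤ) ^ 2 ∣ (D : ℤ) := by
    have h1 : (D : ℤ) * Y.num ^ 2 = n * (Y.den : ℤ) ^ 2 := by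
      have h2 : (Y.den : ℚ) ≠ 0 := by exact_mod_cast Y.den_ne_zero
      have h3 : (D : ℚ) * (Y.num : ℚ) ^ 2 = n * (Y.den : ℚ) ^ 2 := by
        rw [← h]
        have h4 : (Y.num : ℚ) = Y * Y.den := (Rat.mul_den_eq_num Y).symm
        rw [h4]; ring
      exact_mod_cast h3
    have h5 : IsCoprime ((Y.den : ℤ) ^ 2) (Y.num ^ 2) := by
      apply IsCoprime.pow
      rw [Int.isCoprime_iff_gcd_eq_one, Int.gcd_comm]
      exact Y.reduced
    exact h5.dvd_of_dvd_mul_right ⟨n, by rw [h1]; ring⟩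
  have h6 : Y.den ^ 2 ∣ D := by exact_mod_cast hden
  have h7 : IsUnit Y.den := by
    apply hD
    rw [← sq]
    exact h6
  have h8 : Y.den = 1 := Nat.isUnit_iff.mp h7
  exact ⟨Y.num, (Rat.den_eq_one_iff Y).mp h8 |>.symm⟩

theorem fld_sq_one {x : ℚ} (h : x ^ 2 = 1) : x = 1 ∨ x = -1 := by
  have h1 : (x - 1) * (x + 1) = 0 := by linear_combination h
  rcases mul_eq_zero.mp h1 with h2 | h2
  · left; linarith
  · right; linarith

theorem stmt_FLD : Stmt_FLD := by
  intro D hD w hw hn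
  obtain ⟨x, y, rfl⟩ := hw
  set s : ℝ := Real.sqrt D with hs
  have hs2 : s ^ 2 = D := Real.sq_sqrt (Nat.cast_nonneg D)
  set w : ℂ := (x : ℂ) + y * ((s : ℂ) * Complex.I) with hwdef
  have hre : w.re = x := by simp [hwdef]
  have him : w.im = y * s := by simp [hwdef]
  -- the norm equation
  have hxy : x ^ 2 + D * y ^ 2 = 1 := by
    have h1 : w.re ^ 2 + w.im ^ 2 = 1 := by
      have h2 := Complex.sq_norm w
      rw [hn, Complex.normSq_apply] at h2
      nlinarith
    rw [hre, him] at h1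
    have h3 : ((x ^ 2 + D * y ^ 2 : ℚ) : ℝ) = ((1 : ℚ) : ℝ) := by
      push_cast
      rw [← hs2]
      nlinarith
    exact_mod_cast h3
  set h : ℕ := (2 * x).den with hh
  set a : ℤ := (2 * x).num with ha
  have hpos : 0 < h := (2 * x).den_pos
  have hah : (a : ℚ) = 2 * x * h := (Rat.mul_den_eq_num (2 * x)).symm
  have hcop : IsCoprime a (h : ℤ) := by
    rw [Int.isCoprime_iff_gcd_eq_one]
    exact (2 * x).reduced
  have hahC : (a : ℂ) = 2 * x * h := by exact_mod_cast hah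
  have hsC : (s : ℂ) ^ 2 = D := by exact_mod_cast hs2
  have hxyC : (x : ℂ) ^ 2 + D * y ^ 2 = 1 := by exact_mod_cast hxy
  have hI := Complex.I_sq
  have hquad : w ^ 2 - 2 * x * w + 1 = 0 := by
    have : w ^ 2 - 2 * x * w + 1 = 1 - x ^ 2 + y ^ 2 * s ^ 2 * Complex.I ^ 2 := by
      rw [hwdef]; ring
    rw [this, hI, hsC]
    linear_combination -hxyC
  have hw0 : w ≠ 0 := by
    intro h0
    rw [h0, norm_zero] at hn
    exact zero_ne_one hn
  have hDen : Den w h := by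
    refine ⟨hpos, a, hcop, ?_⟩
    rw [hahC]
    linear_combination (h : ℂ) * hquad
  have hDen' : Den w⁻¹ h := by
    refine ⟨hpos, a, hcop, ?_⟩
    have h1 : w⁻¹ ^ 2 - 2 * x * w⁻¹ + 1 = 0 := by
      have h2 : w⁻¹ ^ 2 - 2 * x * w⁻¹ + 1 = (w ^ 2 - 2 * x * w + 1) * w⁻¹ ^ 2 := by
        field_simp
        ring
      rw [h2, hquad, zero_mul]
    rw [hahC]
    linear_combination (h : ℂ) * h1
  refine ⟨h, hDen, hDen', ?_⟩
  -- the integer `Y`
  have hY4 : (D : ℚ) * (2 * h * y) ^ 2 = ((4 * (h : ℤ) ^ 2 - a ^ 2 : ℤ) : ℚ) := by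
    push_cast
    rw [hah]
    linear_combination (4 * (h : ℚ) ^ 2) * hxy
  obtain ⟨Y, hY⟩ := fld_int hD hY4
  have heq : a ^ 2 + (D : ℤ) * Y ^ 2 = 4 * (h : ℤ) ^ 2 := by
    rw [hY] at hY4
    have : ((a ^ 2 + (D : ℤ) * Y ^ 2 : ℤ) : ℚ) = ((4 * (h : ℤ) ^ 2 : ℤ) : ℚ) := by
      push_cast at hY4 ⊢
      linear_combination hY4
    exact_mod_cast this
  have hD1 : 1 ≤ D := Nat.one_le_iff_ne_zero.mpr hD.ne_zero
  have hD1' : (1 : ℤ) ≤ D := by exact_mod_cast hD1
  have hh0 : (0 : ℤ) < h := by exact_mod_cast hpos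
  have ha2 : |a| ≤ 2 * h := by
    apply abs_le_of_sq_le_sq _ (by positivity)
    nlinarith [sq_nonneg Y]
  have hY2 : |Y| ≤ 2 * h := by
    apply abs_le_of_sq_le_sq _ (by positivity)
    nlinarith [sq_nonneg a, sq_nonneg Y]
  have hYC : (Y : ℂ) = 2 * h * y := by exact_mod_cast hY.symm
  have hhC : (h : ℂ) ≠ 0 := by exact_mod_cast hpos.ne'
  have hYne : w ≠ 1 → w ≠ -1 → Y ≠ 0 := by
    intro h1 h2 h0
    rw [h0] at hY
    have hy : y = 0 := by
      have h3 : (h : ℚ) ≠ 0 := by exact_mod_cast hpos.ne'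
      have h4 : 2 * (h : ℚ) * y = 0 := by rw [hY]; simp
      rcases mul_eq_zero.mp h4 with h5 | h5
      · exact absurd h5 (by positivity)
      · exact h5
    rw [hy] at hxy
    have h5 : x ^ 2 = 1 := by simpa using hxy
    rcases fld_sq_one h5 with h6 | h6
    · apply h1; rw [hwdef, h6, hy]; simp
    · apply h2; rw [hwdef, h6, hy]; simp
  have hmod4 : D % 4 ≠ 0 := by
    intro h0
    have h1 : 2 * 2 ∣ D := by omega
    have h2 := hD 2 h1
    exact absurd (Nat.isUnit_iff.mp h2) (by norm_num)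
  have ha01 := Int.emod_two_eq_zero_or_one a
  have hY01 := Int.emod_two_eq_zero_or_one Y
  obtain ⟨k, hk⟩ : ∃ k : ℤ, (D : ℤ) = 4 * k + (D % 4 : ℕ) := ⟨D / 4, by omega⟩
  by_cases h3 : D % 4 = 3
  · -- `D = 3 mod 4`
    have hpar : ∃ u : ℤ, a = Y + 2 * u := by
      rw [hk, h3] at heq
      rcases ha01 with h5 | h5 <;> rcases hY01 with h6 | h6
      · exact ⟨(a - Y) / 2, by omega⟩
      · exfalso
        obtain ⟨b, hb⟩ : ∃ b, a = 2 * b := ⟨a / 2, by omega⟩
        obtain ⟨c, hc⟩ : ∃ c, Y = 2 * c + 1 := ⟨Y / 2, by omega⟩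
        rw [hb, hc] at heq
        have : 2 * (2 * b ^ 2 + (4 * k + 3) * (2 * c ^ 2 + 2 * c) - 2 * (h : ℤ) ^ 2 + 2 * k + 1)
            = -1 := by push_cast at heq; linarith
        omega
      · exfalso
        obtain ⟨b, hb⟩ : ∃ b, a = 2 * b + 1 := ⟨a / 2, by omega⟩
        obtain ⟨c, hc⟩ : ∃ c, Y = 2 * c := ⟨Y / 2, by omega⟩
        rw [hb, hc] at heq
        have : 2 * (2 * b ^ 2 + 2 * b + (4 * k + 3) * (2 * c ^ 2) - 2 * (h : ℤ) ^ 2)
            = -1 := by push_cast at heq; linarith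
        omega
      · exact ⟨(a - Y) / 2, by omega⟩
    obtain ⟨u, hu⟩ := hpar
    refine ⟨u, Y, ?_, ?_, hY2, hYne⟩
    · rw [om, if_pos h3]
      have h4 : (a : ℂ) = Y + 2 * u := by exact_mod_cast hu
      have h5 : (u : ℂ) = (a - Y) / 2 := by rw [h4]; ring
      rw [h5, hahC, hYC, hwdef]
      ring
    · rw [abs_le] at ha2 hY2 ⊢
      constructor <;> linarith [ha2.1, ha2.2, hY2.1, hY2.2]
  · -- `D = 1, 2 mod 4`
    have hpar : ∃ u f : ℤ, a = 2 * u ∧ Y = 2 * f := by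
      have hcase : D % 4 = 1 ∨ D % 4 = 2 := by omega
      rcases hcase with h4 | h4
      · rw [hk, h4] at heq
        rcases ha01 with h5 | h5 <;> rcases hY01 with h6 | h6
        · exact ⟨a / 2, Y / 2, by omega, by omega⟩
        · exfalso
          obtain ⟨b, hb⟩ : ∃ b, a = 2 * b := ⟨a / 2, by omega⟩
          obtain ⟨c, hc⟩ : ∃ c, Y = 2 * c + 1 := ⟨Y / 2, by omega⟩
          rw [hb, hc] at heq
          have : 2 * (2 * b ^ 2 + (4 * k + 1) * (2 * c ^ 2 + 2 * c) - 2 * (h : ℤ) ^ 2 + 2 * k)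
              = -1 := by push_cast at heq; linarith
          omega
        · exfalso
          obtain ⟨b, hb⟩ : ∃ b, a = 2 * b + 1 := ⟨a / 2, by omega⟩
          obtain ⟨c, hc⟩ : ∃ c, Y = 2 * c := ⟨Y / 2, by omega⟩
          rw [hb, hc] at heq
          have : 2 * (2 * b ^ 2 + 2 * b + (4 * k + 1) * (2 * c ^ 2) - 2 * (h : ℤ) ^ 2)
              = -1 := by push_cast at heq; linarith
          omega
        · exfalso
          obtain ⟨b, hb⟩ : ∃ b, a = 2 * b + 1 := ⟨a / 2, by omega⟩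
          obtain ⟨c, hc⟩ : ∃ c, Y = 2 * c + 1 := ⟨Y / 2, by omega⟩
          rw [hb, hc] at heq
          have : 4 * (b ^ 2 + b + (4 * k + 1) * (c ^ 2 + c) - (h : ℤ) ^ 2 + k)
              = -2 := by push_cast at heq; linarith
          omega
      · rw [hk, h4] at heq
        rcases ha01 with h5 | h5 <;> rcases hY01 with h6 | h6
        · exact ⟨a / 2, Y / 2, by omega, by omega⟩
        · exfalso
          obtain ⟨b, hb⟩ : ∃ b, a = 2 * b := ⟨a / 2, by omega⟩
          obtain ⟨c, hc⟩ : ∃ c, Y = 2 * c + 1 := ⟨Y / 2, by omega⟩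
          rw [hb, hc] at heq
          have : 4 * (b ^ 2 + (4 * k + 2) * (c ^ 2 + c) - (h : ℤ) ^ 2 + k)
              = -2 := by push_cast at heq; linarith
          omega
        · exfalso
          obtain ⟨b, hb⟩ : ∃ b, a = 2 * b + 1 := ⟨a / 2, by omega⟩
          rw [hb] at heq
          have : 2 * (2 * b ^ 2 + 2 * b + (2 * k + 1) * Y ^ 2 - 2 * (h : ℤ) ^ 2)
              = -1 := by push_cast at heq; linarith
          omega
        · exfalso
          obtain ⟨b, hb⟩ : ∃ b, a = 2 * b + 1 := ⟨a / 2, by omega⟩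
          rw [hb] at heq
          have : 2 * (2 * b ^ 2 + 2 * b + (2 * k + 1) * Y ^ 2 - 2 * (h : ℤ) ^ 2)
              = -1 := by push_cast at heq; linarith
          omega
    obtain ⟨u, f, hu, hf⟩ := hpar
    refine ⟨u, f, ?_, ?_, ?_, ?_⟩
    · rw [om, if_neg h3]
      have h4 : (a : ℂ) = 2 * u := by exact_mod_cast hu
      have h5 : (Y : ℂ) = 2 * f := by exact_mod_cast hf
      have h6 : (u : ℂ) = a / 2 := by rw [h4]; ring
      have h7 : (f : ℂ) = Y / 2 := by rw [h5]; ring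
      rw [h6, h7, hahC, hYC, hwdef]
      ring
    · rw [hu, abs_mul] at ha2
      have := abs_nonneg u
      norm_num at ha2
      linarith
    · rw [hf, abs_mul] at hY2
      have := abs_nonneg f
      norm_num at hY2
      linarith
    · intro h1 h2 h0
      exact hYne h1 h2 (by rw [hf, h0]; ring)

end Pool.RAT
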