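import Pool.Agent.Work.MP_dc37f8_rat.Interface

/-!
# MP_dc37f8_co, project rat: block HGT

Popular linear parts have bounded denominators.
-/

set_option autoImplicit false

open Finset

namespace Pool.RAT

open scoped Pointwise

namespace HGT

open Classical in
/-- all sums with small digits are in few translates of `D` -/
theorem cover {K K' N : ℕ} {D X X' : Finset ℂ} {w v : ℂ} (h0 : 0 ∈ D) (hX : X.card ≤ K)
    (hDD : D + D ⊆ X + D) (hX' : X'.card ≤ K') (hw : D.image (fun z => w * z) ⊆ X' + D)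
    (hv : ∀ j : ℤ, |j| ≤ N → (j : ℂ) * v ∈ D + D) (m : ℕ) :
    ∃ Z : Finset ℂ, Z.card ≤ (K ^ 2 * K') ^ m ∧
      ∀ i : ℕ → ℤ, (∀ k, |i k| ≤ N) → ∑ k ∈ range m, ((i k : ℂ) * w ^ k) * v ∈ Z + D := by
  induction m with
  | zero =>
    refine ⟨{0}, by simp, fun i _ => ?_⟩
    rw [range_zero, sum_empty]
    exact mem_add.2 ⟨0, mem_singleton_self _, 0, h0, by simp⟩
  | succ m ih =>
    obtain ⟨Z, hZ, hs⟩ := ih
    refine ⟨X + Z.image (fun z => w * z) + X' + X, ?_, fun i hi => ?_⟩
    · have e1 : (Z.image (fun z => w * z)).card ≤ (K ^ 2 * K') ^ m := card_image_le.trans hZ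
      calc (X + Z.image (fun z => w * z) + X' + X).card
          ≤ (X + Z.image (fun z => w * z) + X').card * X.card := card_add_le
        _ ≤ ((X + Z.image (fun z => w * z)).card * X'.card) * X.card :=
            Nat.mul_le_mul_right _ card_add_le
        _ ≤ ((X.card * (Z.image (fun z => w * z)).card) * X'.card) * X.card :=
            Nat.mul_le_mul_right _ (Nat.mul_le_mul_right _ card_add_le)
        _ ≤ ((K * (K ^ 2 * K') ^ m) * K') * K := by gcongr
        _ = (K ^ 2 * K') ^ (m + 1) := by ring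
    · rw [sum_range_succ']
      have e1 := hs (fun k => i (k + 1)) (fun k => hi (k + 1))
      obtain ⟨z, hz, d, hd, hzd⟩ := mem_add.1 e1
      have e2 : ∑ k ∈ range m, ((i (k + 1) : ℂ) * w ^ (k + 1)) * v = w * (z + d) := by
        rw [hzd, mul_sum]
        refine sum_congr rfl fun k _ => ?_
        rw [pow_succ]
        ring
      have e3 := hv (i 0) (hi 0)
      obtain ⟨x, hx, d', hd', hxd⟩ := mem_add.1 (hDD e3)
      have e4 : w * d ∈ X' + D := hw (mem_image_of_mem (fun z => w * z) hd)
      obtain ⟨x', hx', d'', hd'', hxd'⟩ := mem_add.1 e4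
      have e5 : d' + d'' ∈ X + D := hDD (add_mem_add hd' hd'')
      obtain ⟨x'', hx'', d₃, hd₃, hxd''⟩ := mem_add.1 e5
      refine mem_add.2 ⟨x + w * z + x' + x'', ?_, d₃, hd₃, ?_⟩
      · exact add_mem_add (add_mem_add (add_mem_add hx (mem_image_of_mem (fun z => w * z) hz)) hx') hx''
      · rw [e2, pow_zero, mul_one, ← hxd, mul_add, ← hxd']
        linear_combination hxd''

theorem den_pm {w : ℂ} {h : ℕ} (hd : Den w h) (hw : w = 1 ∨ w = -1) : h = 1 := by
  obtain ⟨h0, a, hc, he⟩ := hd
  have e1 : ∃ s : ℤ, a = s * h := by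
    rcases hw with rfl | rfl
    · refine ⟨2, ?_⟩
      have : ((a : ℤ) : ℂ) = ((2 * h : ℤ) : ℂ) := by
        push_cast
        linear_combination -he
      exact_mod_cast this
    · refine ⟨-2, ?_⟩
      have : ((a : ℤ) : ℂ) = ((-2 * h : ℤ) : ℂ) := by
        push_cast
        linear_combination he
      exact_mod_cast this
  obtain ⟨s, hs⟩ := e1
  have e2 : IsCoprime (h : ℤ) (h : ℤ) := by
    rw [hs] at hc
    exact hc.of_mul_left_right
  have e3 : IsUnit (h : ℤ) := isCoprime_self.1 e2
  have e4 := Int.isUnit_iff.1 e3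
  omega

end HGT

open Classical in
theorem stmt_HGT (hL : Stmt_LONG) (hD : Stmt_DIG) : Stmt_HGT := by
  intro K K'
  set C := K ^ 2 * K' with hC
  obtain ⟨n₀, hn⟩ := hL K C
  refine ⟨C + 1, n₀, fun D X X' w h hcard h0 hneg hX hDD hX' hw hw1 hden => ?_⟩
  by_cases hpm : w = 1 ∨ w = -1
  · rw [HGT.den_pm hden hpm]
    omega
  push Not at hpm
  have hh0 : 0 < h := hden.1
  by_contra hcon
  have hCh : C + 1 < h := by omega
  obtain ⟨v, hv0, hv⟩ := hn D X hcard h0 hneg hX hDD
  -- `C ≥ 1`
  have hD0 : (0 : ℂ) ∈ D + D := mem_add.2 ⟨0, h0, 0, h0, by simp⟩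
  have hXn : X.Nonempty := by
    obtain ⟨x, hx, _, _, _⟩ := mem_add.1 (hDD hD0)
    exact ⟨x, hx⟩
  have hX'n : X'.Nonempty := by
    obtain ⟨x, hx, _, _, _⟩ := mem_add.1 (hw (mem_image_of_mem (fun z => w * z) h0))
    exact ⟨x, hx⟩
  have hC1 : 1 ≤ C := by
    have h1 : 1 ≤ K := hXn.card_pos.trans_le hX
    have h2 : 1 ≤ K' := hX'n.card_pos.trans_le hX'
    rw [hC]
    exact Nat.one_le_iff_ne_zero.2 (by positivity)
  -- counting
  have key : ∀ m : ℕ, (C + 1) ^ m ≤ C ^ m * D.card := by
    intro m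
    obtain ⟨Z, hZ, hs⟩ := HGT.cover (N := C) h0 hX hDD hX' hw hv m
    let ext : (Fin m → Fin (C + 1)) → ℕ → ℤ := fun i k => if hk : k < m then ((i ⟨k, hk⟩ : ℕ) : ℤ) else 0
    have hext : ∀ i k, 0 ≤ ext i k ∧ ext i k ≤ C := by
      intro i k
      simp only [ext]
      split_ifs with hk
      · have := (i ⟨k, hk⟩).2
        omega
      · omega
    have hmem : ∀ i : Fin m → Fin (C + 1),
        ∑ k ∈ range m, ((ext i k : ℂ) * w ^ k) * v ∈ Z + D := by
      intro i
      refine hs (ext i) fun k => ?_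
      have := hext i k
      rw [abs_le]
      constructor <;> omega
    have hinj : Function.Injective (fun i : Fin m → Fin (C + 1) =>
        ∑ k ∈ range m, ((ext i k : ℂ) * w ^ k) * v) := by
      intro i j hij
      simp only at hij
      have e1 : ∑ k ∈ range m, ((ext i k - ext j k : ℤ) : ℂ) * w ^ k = 0 := by
        have e2 : (∑ k ∈ range m, ((ext i k - ext j k : ℤ) : ℂ) * w ^ k) * v = 0 := by
          rw [sum_mul]
          have e3 : ∀ k ∈ range m, ((ext i k - ext j k : ℤ) : ℂ) * w ^ k * v =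
              ((ext i k : ℂ) * w ^ k) * v - ((ext j k : ℂ) * w ^ k) * v := by
            intro k _
            push_cast
            ring
          rw [sum_congr rfl e3, sum_sub_distrib, hij, sub_self]
        rcases mul_eq_zero.1 e2 with h | h
        · exact h
        · exact absurd h hv0
      have e4 := hD w h hw1 hden hpm.1 hpm.2 m (fun k => ext i k - ext j k) (fun k => by
        have h1 := hext i k
        have h2 := hext j k
        rw [abs_lt]
        constructor <;> omega) e1
      funext k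
      have e5 := e4 k.1 k.2
      simp only [ext, k.2, dif_pos] at e5
      apply Fin.ext
      have e6 : (⟨k.1, k.2⟩ : Fin m) = k := rfl
      rw [e6] at e5
      omega
    have e1 : (Finset.univ.image (fun i : Fin m → Fin (C + 1) =>
        ∑ k ∈ range m, ((ext i k : ℂ) * w ^ k) * v)).card = (C + 1) ^ m := by
      rw [card_image_of_injective _ hinj, card_univ, Fintype.card_fun, Fintype.card_fin,
        Fintype.card_fin]
    rw [← e1]
    calc _ ≤ (Z + D).card := card_le_card (by
          intro z hz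
          obtain ⟨i, _, rfl⟩ := mem_image.1 hz
          exact hmem i)
      _ ≤ Z.card * D.card := card_add_le
      _ ≤ C ^ m * D.card := Nat.mul_le_mul_right _ hZ
  -- contradiction
  have hk := key (C * D.card)
  have hCr : (0 : ℝ) < C := by exact_mod_cast hC1
  have e1 : ((C : ℝ) + 1) ^ (C * D.card) ≤ (C : ℝ) ^ (C * D.card) * D.card := by exact_mod_cast hk
  have e2 := one_add_mul_le_pow (show (-2 : ℝ) ≤ 1 / C by
    have : (0 : ℝ) ≤ 1 / C := by positivity
    linarith) (C * D.card)
  have e3 : (1 + 1 / (C : ℝ)) ^ (C * D.card) ≤ D.card := by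
    have e4 : (C : ℝ) + 1 = C * (1 + 1 / C) := by field_simp
    rw [e4, mul_pow] at e1
    exact le_of_mul_le_mul_left e1 (by positivity)
  have e5 : ((C * D.card : ℕ) : ℝ) * (1 / C) = D.card := by
    push_cast
    field_simp
  rw [e5] at e2
  linarith

end Pool.RAT
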