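import Pool.Agent.Work.MP_dc37f8_rat.KeyNumStmt
import Pool.Agent.Work.MP_dc37f8_h15.Numbers

/-!
# MP_dc37f8_co: proof of the numerical statement
-/

open Finset Real

namespace Pool.Agent.Work.MP_dc37f8_rat

open Pool.Agent.Work.MP_dc37f8_h15

/-- the split condition at 3 -/
theorem split_three {d : ℕ} (h : ¬ 3 ∣ d ∧ ∃ x : ZMod 3, x ^ 2 = -(d : ZMod 3)) : d % 3 = 2 := by
  obtain ⟨h1, x, hx⟩ := h
  rw [← ZMod.natCast_mod d 3] at hx
  have h2 : d % 3 < 3 := Nat.mod_lt _ (by norm_num)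
  have h3 : d % 3 ≠ 0 := fun h0 => h1 (Nat.dvd_of_mod_eq_zero h0)
  generalize d % 3 = r at *
  interval_cases r
  · exact absurd rfl h3
  · exfalso
    revert hx
    revert x
    decide
  · rfl

/-- the split condition at 5 -/
theorem split_five {d : ℕ} (h : ¬ 5 ∣ d ∧ ∃ x : ZMod 5, x ^ 2 = -(d : ZMod 5)) :
    d % 5 = 1 ∨ d % 5 = 4 := by
  obtain ⟨h1, x, hx⟩ := h
  rw [← ZMod.natCast_mod d 5] at hx
  have h2 : d % 5 < 5 := Nat.mod_lt _ (by norm_num)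
  have h3 : d % 5 ≠ 0 := fun h0 => h1 (Nat.dvd_of_mod_eq_zero h0)
  generalize d % 5 = r at *
  interval_cases r
  · exact absurd rfl h3
  · left; rfl
  · exfalso
    revert hx
    revert x
    decide
  · exfalso
    revert hx
    revert x
    decide
  · right; rfl

/-- the split condition at 7 -/
theorem split_seven {d : ℕ} (h : ¬ 7 ∣ d ∧ ∃ x : ZMod 7, x ^ 2 = -(d : ZMod 7)) :
    d % 7 = 3 ∨ d % 7 = 5 ∨ d % 7 = 6 := by
  obtain ⟨h1, x, hx⟩ := h
  rw [← ZMod.natCast_mod d 7] at hx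
  have h2 : d % 7 < 7 := Nat.mod_lt _ (by norm_num)
  have h3 : d % 7 ≠ 0 := fun h0 => h1 (Nat.dvd_of_mod_eq_zero h0)
  generalize d % 7 = r at *
  interval_cases r
  · exact absurd rfl h3
  · exfalso
    revert hx
    revert x
    decide
  · exfalso
    revert hx
    revert x
    decide
  · left; rfl
  · exfalso
    revert hx
    revert x
    decide
  · right; left; rfl
  · right; right; rfl

/-- `-3` is a square only modulo primes `≡ 1 mod 3` -/
theorem mod_three_of_split {p : ℕ} (hp : p.Prime) (h2 : p ≠ 2)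
    (h : ¬ p ∣ 3 ∧ ∃ x : ZMod p, x ^ 2 = -((3 : ℕ) : ZMod p)) : p % 3 = 1 := by
  have := Fact.mk hp
  obtain ⟨h3, x, hx⟩ := h
  have hp3 : ((3 : ℕ) : ZMod p) ≠ 0 := by
    rw [Ne, ZMod.natCast_eq_zero_iff]
    exact h3
  have hp2 : ((2 : ℕ) : ZMod p) ≠ 0 := by
    rw [Ne, ZMod.natCast_eq_zero_iff]
    intro hd
    exact h2 ((Nat.prime_dvd_prime_iff_eq hp Nat.prime_two).1 hd)
  push_cast at hp3 hp2 hx
  set ω : ZMod p := (x - 1) / 2 with hω
  have h1 : ω ^ 2 + ω + 1 = 0 := by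
    rw [hω]
    field_simp
    linear_combination hx
  have h4 : ω ^ 3 = 1 := by linear_combination (ω - 1) * h1
  have h5 : ω ≠ 1 := by
    intro h
    rw [h] at h1
    apply hp3
    linear_combination h1
  have h0 : ω ≠ 0 := by
    intro h
    rw [h] at h4
    norm_num at h4
  have : Fact (Nat.Prime 3) := ⟨Nat.prime_three⟩
  have h6 : orderOf ω = 3 := orderOf_eq_prime h4 h5
  have h7 : ω ^ (p - 1) = 1 := ZMod.pow_card_sub_one_eq_one h0
  have h8 : 3 ∣ p - 1 := by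
    rw [← h6]
    exact orderOf_dvd_of_pow_eq_one h7
  have := hp.two_le
  omega

theorem gap_nat {d : ℕ} {a f : ℤ} {n : ℕ} (ha : Odd a) (h : a ^ 2 + d * f ^ 2 = 4 ^ n) :
    ∃ A F : ℕ, A % 2 = 1 ∧ A * A + d * (F * F) = 4 ^ n := by
  refine ⟨a.natAbs, f.natAbs, ?_, ?_⟩
  · have := Int.natAbs_odd.2 ha
    exact Nat.odd_iff.1 this
  · have e1 : ((a.natAbs * a.natAbs : ℕ) : ℤ) = a ^ 2 := by
      rw [← sq]
      push_cast
      exact sq_abs a
    have e2 : ((f.natAbs * f.natAbs : ℕ) : ℤ) = f ^ 2 := by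
      rw [← sq]
      push_cast
      exact sq_abs f
    have : (((a.natAbs * a.natAbs + d * (f.natAbs * f.natAbs) : ℕ)) : ℤ) = ((4 ^ n : ℕ) : ℤ) := by
      rw [Nat.cast_add, Nat.cast_mul d, e1, e2]
      push_cast
      exact h
    exact_mod_cast this

theorem bound_AF {d A F N K L : ℕ} (h : A * A + d * (F * F) = N) (hd : 7 ≤ d) (hK : N < K * K)
    (hL : N < 7 * (L * L)) : A < K ∧ F < L := by
  constructor
  · by_contra hlt
    have : K * K ≤ A * A := Nat.mul_le_mul (by omega) (by omega)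
    omega
  · by_contra hlt
    have h1 : L * L ≤ F * F := Nat.mul_le_mul (by omega) (by omega)
    have h2 : 7 * (L * L) ≤ d * (F * F) := Nat.mul_le_mul hd h1
    omega

theorem gap_one {d A F : ℕ} (hA : A % 2 = 1) (h8 : d % 8 = 7) (h : A * A + d * (F * F) = 4 ^ 2) :
    d = 7 ∨ d = 15 := by
  obtain ⟨h1, h2⟩ := bound_AF (K := 5) (L := 2) h (by omega) (by norm_num) (by norm_num)
  interval_cases A <;> interval_cases F <;> omega

theorem gap_two {d A F : ℕ} (hA : A % 2 = 1) (h8 : d % 8 = 7) (h : A * A + d * (F * F) = 4 ^ 3) :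
    d % 3 ≠ 2 := by
  obtain ⟨h1, h2⟩ := bound_AF (K := 9) (L := 4) h (by omega) (by norm_num) (by norm_num)
  interval_cases A <;> interval_cases F <;> omega

theorem gap_three {d A F : ℕ} (hA : A % 2 = 1) (h8 : d % 8 = 7)
    (h : A * A + d * (F * F) = 4 ^ 4) : d % 3 ≠ 2 ∨ (d % 5 ≠ 1 ∧ d % 5 ≠ 4) := by
  obtain ⟨h1, h2⟩ := bound_AF (K := 17) (L := 7) h (by omega) (by norm_num) (by norm_num)
  interval_cases A <;> interval_cases F <;> omega

theorem stmt_num777 : StmtNumC (777 / 100) := by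
  classical
  intro ι J S e d _ hS hsplit h2 hw hgap f
  have hw' : ∀ T ⊆ J, (∀ r ∈ T, ∀ r' ∈ T, ∀ p ∈ S, e r p = e r' p) →
      T.card ≤ if d = 1 then 4 else if d = 3 then 6 else 2 := by
    intro T hT hTe
    rcases T.eq_empty_or_nonempty with rfl | ⟨r, hr⟩
    · simp
    · refine le_trans (card_le_card fun r' hr' => ?_) (hw r (hT hr))
      rw [mem_filter]
      exact ⟨hT hr', fun p hp => hTe r' hr' r hr p hp⟩
  by_cases hd1 : d = 1
  · rw [if_pos hd1] at hw'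
    refine fin4 S J e (fun p hp => ⟨hS p hp, ?_⟩) hw' f
    have := Fact.mk (hS p hp)
    have hp2 : p ≠ 2 := by
      intro h
      have := h2 (h ▸ hp)
      omega
    obtain ⟨_, x, hx⟩ := hsplit p hp
    have h3 : p % 4 ≠ 3 := by
      rw [← ZMod.exists_sq_eq_neg_one_iff]
      refine ⟨x, ?_⟩
      rw [← sq, hx, hd1]
      simp
    have := (hS p hp).eq_two_or_odd.resolve_left hp2
    omega
  rw [if_neg hd1] at hw'
  by_cases hd3 : d = 3
  · rw [if_pos hd3] at hw'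
    refine fin6 S J e (fun p hp => ⟨hS p hp, ?_⟩) hw' f
    refine mod_three_of_split (hS p hp) (fun h => ?_) ?_
    · have := h2 (h ▸ hp)
      omega
    · have := hsplit p hp
      rwa [hd3] at this
  rw [if_neg hd3] at hw'
  by_cases h2S : 2 ∈ S
  swap
  · exact fin2_gap4 S J e hS hw' (fun h => absurd h h2S) f
  have h8 := h2 h2S
  have h3S : 3 ∈ S → d % 3 = 2 := fun h => split_three (hsplit 3 h)
  have h5S : 5 ∈ S → d % 5 = 1 ∨ d % 5 = 4 := fun h => split_five (hsplit 5 h)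
  have h7S : 7 ∈ S → d % 7 = 3 ∨ d % 7 = 5 ∨ d % 7 = 6 := fun h => split_seven (hsplit 7 h)
  have hgap' : ∀ ρ ∈ J, ∀ ρ' ∈ J, (∀ p ∈ S, p ≠ 2 → e ρ p = e ρ' p) → e ρ 2 ≠ e ρ' 2 →
      ∃ A F : ℕ, A % 2 = 1 ∧ A * A + d * (F * F) = 4 ^ ((e ρ 2 - e ρ' 2).natAbs + 1) := by
    intro ρ hρ ρ' hρ' he hne
    obtain ⟨a, b, ha, hab⟩ := hgap ρ hρ ρ' hρ' he h2S hne
    exact gap_nat ha hab
  by_cases g1 : ∃ ρ ∈ J, ∃ ρ' ∈ J, (∀ p ∈ S, p ≠ 2 → e ρ p = e ρ' p) ∧
      (e ρ 2 - e ρ' 2).natAbs = 1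
  · obtain ⟨ρ, hρ, ρ', hρ', he, h1⟩ := g1
    obtain ⟨A, F, hA, hAF⟩ := hgap' ρ hρ ρ' hρ' he (by omega)
    rw [h1] at hAF
    have hd : d = 7 ∨ d = 15 := gap_one hA h8 hAF
    refine fin2_gap1 S J e hS hw' (fun h => ?_) (fun h => ?_) (fun h => ?_) f
    · have := h3S h
      omega
    · have := h5S h
      omega
    · have := h7S h
      omega
  by_cases g2 : ∃ ρ ∈ J, ∃ ρ' ∈ J, (∀ p ∈ S, p ≠ 2 → e ρ p = e ρ' p) ∧
      (e ρ 2 - e ρ' 2).natAbs = 2
  · obtain ⟨ρ, hρ, ρ', hρ', he, h1⟩ := g2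
    obtain ⟨A, F, hA, hAF⟩ := hgap' ρ hρ ρ' hρ' he (by omega)
    rw [h1] at hAF
    have hd : d % 3 ≠ 2 := gap_two hA h8 hAF
    refine fin2_gap2 S J e hS hw' (fun h => hd (h3S h)) (fun _ r hr r' hr' he' hne => ?_) f
    have h4 : (e r 2 - e r' 2).natAbs ≠ 1 := fun h => g1 ⟨r, hr, r', hr', he', h⟩
    rw [Int.abs_eq_natAbs]
    omega
  by_cases g3 : ∃ ρ ∈ J, ∃ ρ' ∈ J, (∀ p ∈ S, p ≠ 2 → e ρ p = e ρ' p) ∧
      (e ρ 2 - e ρ' 2).natAbs = 3
  · obtain ⟨ρ, hρ, ρ', hρ', he, h1⟩ := g3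
    obtain ⟨A, F, hA, hAF⟩ := hgap' ρ hρ ρ' hρ' he (by omega)
    rw [h1] at hAF
    have hd : d % 3 ≠ 2 ∨ (d % 5 ≠ 1 ∧ d % 5 ≠ 4) := gap_three hA h8 hAF
    have h35 : 3 ∉ S ∨ 5 ∉ S := by
      rcases hd with h | h
      · left
        exact fun h' => h (h3S h')
      · right
        intro h'
        have := h5S h'
        omega
    refine fin2_gap3 S J e hS hw' h35 (fun _ r hr r' hr' he' hne => ?_) f
    have h4 : (e r 2 - e r' 2).natAbs ≠ 1 := fun h => g1 ⟨r, hr, r', hr', he', h⟩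
    have h5 : (e r 2 - e r' 2).natAbs ≠ 2 := fun h => g2 ⟨r, hr, r', hr', he', h⟩
    rw [Int.abs_eq_natAbs]
    omega
  refine fin2_gap4 S J e hS hw' (fun _ r hr r' hr' he' hne => ?_) f
  have h4 : (e r 2 - e r' 2).natAbs ≠ 1 := fun h => g1 ⟨r, hr, r', hr', he', h⟩
  have h5 : (e r 2 - e r' 2).natAbs ≠ 2 := fun h => g2 ⟨r, hr, r', hr', he', h⟩
  have h6 : (e r 2 - e r' 2).natAbs ≠ 3 := fun h => g3 ⟨r, hr, r', hr', he', h⟩
  rw [Int.abs_eq_natAbs]
  omega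

theorem StmtNumC.mono {C C' : ℝ} (h : StmtNumC C) (hC : C ≤ C') : StmtNumC C' := by
  classical
  intro ι J S e d hd hS hsplit h2 hw hgap f
  exact (h ι J S e d hd hS hsplit h2 hw hgap f).trans hC

theorem stmt_num782 : StmtNumC (782 / 100) := stmt_num777.mono (by norm_num)

theorem stmt_numFinal : StmtNumFinal := by
  classical
  intro ι J S e d hd hS hsplit h2 hw hgap f
  exact (stmt_num777 ι J S e d hd hS hsplit h2 hw hgap f).trans (by norm_num)

end Pool.Agent.Work.MP_dc37f8_rat
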