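import Pool.Agent.Work.MP_dc37f8_rat.KEY
import Pool.Agent.Work.MP_dc37f8_rat.Arith
import Pool.Agent.Work.MP_dc37f8_rat.KeyNum

/-!
# MP_dc37f8_co, rat: block KEY, without hypotheses
-/

namespace Pool.RAT

/-- **KEY.** -/
theorem stmt_KEY : Stmt_KEY :=
  stmt_KEY_of (Pool.Agent.Work.MP_dc37f8_rat.keyFC Pool.Agent.Work.MP_dc37f8_rat.stmt_arith
    Pool.Agent.Work.MP_dc37f8_rat.stmt_num777)

end Pool.RAT
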