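import Pool.Agent.Work.MP_dc37f8_rat.Interface

/-! MAINLA: auxiliary facts for MAINL. -/

set_option autoImplicit false

open Finset

namespace Pool.RAT

open Pool.BK Pool.BD Pool.RF

open scoped Pointwise

namespace MAINL

theorem dir_eq {g h : Gp} (hg : IsDir g) (hh : IsDir h) (hl : lp g = lp h) {a : ℂ}
    (ha : g a = h a) : g = h := by
  obtain ⟨w, t, _, h1⟩ := hg
  obtain ⟨w', t', _, h2⟩ := hh
  unfold lp at hl
  rw [h1, h1, h2, h2] at hl
  have hw : w = w' := by linear_combination hl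
  rw [h1, h2, hw] at ha
  have ht : t = t' := by linear_combination ha
  ext z
  rw [h1, h2, hw, ht]

theorem dir_sub {g : Gp} (hg : IsDir g) (a b : ℂ) : g a - g b = lp g * (a - b) := by
  obtain ⟨w, t, _, h1⟩ := hg
  unfold lp
  rw [h1, h1, h1, h1]
  ring

open Classical in
theorem sx_sum (Q : Finset ℂ) (𝒢 : Finset Gp) (h𝒢 : ∀ g ∈ 𝒢, IsDir g) (w : ℂ) :
    ∑ g ∈ 𝒢.filter (fun g => lp g = w), ((st Q g).card : ℝ) ^ 3 ≤ SX Q w := by
  have h0 : ∀ g, ((st Q g).card : ℝ) ^ 3 = ((st Q g ×ˢ st Q g ×ˢ st Q g).card : ℝ) := by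
    intro g
    rw [card_product, card_product]
    push_cast
    ring
  simp only [h0]
  rw [← Nat.cast_sum, ← card_sigma]
  unfold SX
  rw [Nat.cast_le]
  refine card_le_card_of_injOn
    (fun x => ((x.2.1, x.2.2.1, x.2.2.2), (x.1 x.2.1, x.1 x.2.2.1, x.1 x.2.2.2))) ?_ ?_
  · rintro ⟨g, a, b, c⟩ hx
    simp only [coe_sigma, coe_filter, Set.mem_sigma_iff, Set.mem_setOf_eq, coe_product,
      Set.mem_prod, mem_coe] at hx
    obtain ⟨⟨hg, hw⟩, ha, hb, hc⟩ := hx
    simp only [st, mem_filter] at ha hb hc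
    simp only [coe_filter, Set.mem_setOf_eq, mem_product]
    refine ⟨⟨⟨ha.1, hb.1, hc.1⟩, ha.2, hb.2, hc.2⟩, ?_, ?_⟩
    · rw [dir_sub (h𝒢 g hg), hw]
    · rw [dir_sub (h𝒢 g hg), hw]
  · rintro ⟨g, a, b, c⟩ hx ⟨g', a', b', c'⟩ hx' he
    simp only [coe_sigma, coe_filter, Set.mem_sigma_iff, Set.mem_setOf_eq, coe_product,
      Set.mem_prod, mem_coe] at hx hx'
    simp only [Prod.mk.injEq] at he
    obtain ⟨⟨h1, h2, h3⟩, h4, h5, h6⟩ := he
    subst h1 h2 h3
    have : g = g' := dir_eq (h𝒢 g hx.1.1) (h𝒢 g' hx'.1.1) (hx.1.2.trans hx'.1.2.symm) h4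
    subst this
    rfl

open Classical in
theorem sx_mono {Q Q' : Finset ℂ} (h : Q ⊆ Q') (w : ℂ) : SX Q w ≤ SX Q' w := by
  apply card_le_card
  apply filter_subset_filter
  exact product_subset_product (product_subset_product h (product_subset_product h h))
    (product_subset_product h (product_subset_product h h))

open Classical in
/-- removing few points removes few sextuples -/
theorem sx_diff (R Q : Finset ℂ) (w : ℂ) (hw : w ≠ 0) :
    SX R w ≤ SX Q w + 6 * ((R \ Q).card * R.card ^ 3) := by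
  obtain ⟨E, hE⟩ : ∃ E, E = R \ Q := ⟨_, rfl⟩
  obtain ⟨F, hF⟩ : ∃ F : Finset (ℂ × ℂ × ℂ × ℂ), F = E ×ˢ R ×ˢ R ×ˢ R := ⟨_, rfl⟩
  have hFc : F.card = E.card * R.card ^ 3 := by
    rw [hF, card_product, card_product, card_product]
    ring
  -- the six maps
  let m : Fin 6 → (ℂ × ℂ × ℂ × ℂ) → ((ℂ × ℂ × ℂ) × (ℂ × ℂ × ℂ)) := fun i x =>
    match i with
    | 0 => ((x.1, x.2.1, x.2.2.1), (x.2.2.2, x.2.2.2 - w * (x.1 - x.2.1),
        x.2.2.2 - w * (x.1 - x.2.2.1)))
    | 1 => ((x.2.1, x.1, x.2.2.1), (x.2.2.2, x.2.2.2 - w * (x.2.1 - x.1),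
        x.2.2.2 - w * (x.2.1 - x.2.2.1)))
    | 2 => ((x.2.1, x.2.2.1, x.1), (x.2.2.2, x.2.2.2 - w * (x.2.1 - x.2.2.1),
        x.2.2.2 - w * (x.2.1 - x.1)))
    | 3 => ((x.2.1, x.2.2.1, x.2.2.2), (x.1, x.1 - w * (x.2.1 - x.2.2.1),
        x.1 - w * (x.2.1 - x.2.2.2)))
    | 4 => ((x.2.1, x.2.2.1, x.2.2.2), (x.1 + w * (x.2.1 - x.2.2.1), x.1,
        x.1 + w * (x.2.1 - x.2.2.1) - w * (x.2.1 - x.2.2.2)))
    | 5 => ((x.2.1, x.2.2.1, x.2.2.2), (x.1 + w * (x.2.1 - x.2.2.2),
        x.1 + w * (x.2.1 - x.2.2.2) - w * (x.2.1 - x.2.2.1), x.1))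
  have hsub : (((R ×ˢ R ×ˢ R) ×ˢ (R ×ˢ R ×ˢ R)).filter (fun z =>
      z.2.1 - z.2.2.1 = w * (z.1.1 - z.1.2.1) ∧ z.2.1 - z.2.2.2 = w * (z.1.1 - z.1.2.2))) ⊆
      (((Q ×ˢ Q ×ˢ Q) ×ˢ (Q ×ˢ Q ×ˢ Q)).filter (fun z =>
      z.2.1 - z.2.2.1 = w * (z.1.1 - z.1.2.1) ∧ z.2.1 - z.2.2.2 = w * (z.1.1 - z.1.2.2))) ∪
      univ.biUnion (fun i : Fin 6 => F.image (m i)) := by
    rintro ⟨⟨a, b, c⟩, ⟨a', b', c'⟩⟩ hz
    simp only [mem_filter, mem_product] at hz
    obtain ⟨⟨⟨ha, hb, hc⟩, ha', hb', hc'⟩, h1, h2⟩ := hz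
    rw [mem_union]
    by_cases q1 : a ∈ Q
    · by_cases q2 : b ∈ Q
      · by_cases q3 : c ∈ Q
        · by_cases q4 : a' ∈ Q
          · by_cases q5 : b' ∈ Q
            · by_cases q6 : c' ∈ Q
              · left
                simp only [mem_filter, mem_product]
                exact ⟨⟨⟨q1, q2, q3⟩, q4, q5, q6⟩, h1, h2⟩
              · right
                refine mem_biUnion.2 ⟨5, mem_univ _, mem_image.2 ⟨(c', a, b, c), ?_, ?_⟩⟩
                · rw [hF, hE]
                  simp only [mem_product, mem_sdiff]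
                  exact ⟨⟨hc', q6⟩, ha, hb, hc⟩
                · simp only [m, Prod.mk.injEq, true_and, and_true]
                  constructor
                  · linear_combination -h2
                  · linear_combination h1 - h2
            · right
              refine mem_biUnion.2 ⟨4, mem_univ _, mem_image.2 ⟨(b', a, b, c), ?_, ?_⟩⟩
              · rw [hF, hE]
                simp only [mem_product, mem_sdiff]
                exact ⟨⟨hb', q5⟩, ha, hb, hc⟩
              · simp only [m, Prod.mk.injEq, true_and]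
                constructor
                · linear_combination -h1
                · linear_combination h2 - h1
          · right
            refine mem_biUnion.2 ⟨3, mem_univ _, mem_image.2 ⟨(a', a, b, c), ?_, ?_⟩⟩
            · rw [hF, hE]
              simp only [mem_product, mem_sdiff]
              exact ⟨⟨ha', q4⟩, ha, hb, hc⟩
            · simp only [m, Prod.mk.injEq, true_and]
              constructor
              · linear_combination h1
              · linear_combination h2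
        · right
          refine mem_biUnion.2 ⟨2, mem_univ _, mem_image.2 ⟨(c, a, b, a'), ?_, ?_⟩⟩
          · rw [hF, hE]
            simp only [mem_product, mem_sdiff]
            exact ⟨⟨hc, q3⟩, ha, hb, ha'⟩
          · simp only [m, Prod.mk.injEq, true_and]
            constructor
            · linear_combination h1
            · linear_combination h2
      · right
        refine mem_biUnion.2 ⟨1, mem_univ _, mem_image.2 ⟨(b, a, c, a'), ?_, ?_⟩⟩
        · rw [hF, hE]
          simp only [mem_product, mem_sdiff]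
          exact ⟨⟨hb, q2⟩, ha, hc, ha'⟩
        · simp only [m, Prod.mk.injEq, true_and]
          constructor
          · linear_combination h1
          · linear_combination h2
    · right
      refine mem_biUnion.2 ⟨0, mem_univ _, mem_image.2 ⟨(a, b, c, a'), ?_, ?_⟩⟩
      · rw [hF, hE]
        simp only [mem_product, mem_sdiff]
        exact ⟨⟨ha, q1⟩, hb, hc, ha'⟩
      · simp only [m, Prod.mk.injEq, true_and]
        constructor
        · linear_combination h1
        · linear_combination h2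
  have h3 := card_le_card hsub
  unfold SX
  rw [← hE]
  refine h3.trans ((card_union_le _ _).trans (Nat.add_le_add_left ?_ _))
  refine card_biUnion_le.trans ?_
  refine (sum_le_sum fun i _ => (card_image_le.trans hFc.le)).trans ?_
  rw [sum_const, card_univ, Fintype.card_fin, smul_eq_mul]

theorem fd_inv {D : ℕ} {w : ℂ} (h : Fd D w) (hw : ‖w‖ = 1) : Fd D w⁻¹ := by
  obtain ⟨x, y, h⟩ := h
  refine ⟨x, -y, ?_⟩
  have h1 : w⁻¹ = (starRingEnd ℂ) w := by
    rw [Complex.inv_def, Complex.normSq_eq_norm_sq, hw]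
    simp
  rw [h1, h]
  simp

theorem gd_mono {K N N' : ℕ} {s : ℝ} {e : ℂ} {A B C : Finset ℂ} (h : Gd K N' s e A B C)
    (hN : N ≤ N') : Gd K N s e A B C := by
  obtain ⟨h1, h2, h3⟩ := h
  refine ⟨h1, h2, fun E hE => ⟨?_, fun y => ?_⟩⟩
  · refine le_trans ?_ (h3 E hE).1
    exact mul_le_mul_of_nonneg_right (by exact_mod_cast hN) (Nat.cast_nonneg _)
  · refine le_trans ?_ ((h3 E hE).2 y)
    exact mul_le_mul_of_nonneg_right (by exact_mod_cast hN) (Nat.cast_nonneg _)

open Classical in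
theorem gd_large {K N : ℕ} {s : ℝ} {e : ℂ} {A B C : Finset ℂ} (h : Gd K N s e A B C)
    (hs : 0 < s) (hN : 100 * K ^ 2 ≤ N) :
    (10 : ℝ) ^ 6 ≤ (A.card : ℝ) * B.card * C.card := by
  obtain ⟨⟨a1, a2, a3⟩, h2, h3⟩ := h
  have hK : (0 : ℝ) < K := by
    rcases Nat.eq_zero_or_pos K with h | h
    · rw [h] at a1; simp at a1; linarith
    · exact_mod_cast h
  have hA : 0 < A.card := by
    rcases Nat.eq_zero_or_pos A.card with h | h
    · rw [h] at a1; simp at a1; linarith
    · exact h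
  have h4 := (h3 A (by simp)).1
  have h5 : (1 : ℝ) ≤ ((A.image (fun z => (z / e).im)).card : ℝ) := by
    have : 0 < (A.image (fun z => (z / e).im)).card :=
      card_pos.2 ((card_pos.1 hA).image _)
    exact_mod_cast this
  have hN' : (100 : ℝ) * K ^ 2 ≤ N := by exact_mod_cast hN
  have h6 : (100 : ℝ) * K ^ 2 ≤ K * s := by
    calc (100 : ℝ) * K ^ 2 ≤ N := hN'
      _ = N * 1 := by ring
      _ ≤ N * ((A.image (fun z => (z / e).im)).card : ℝ) :=
          mul_le_mul_of_nonneg_left h5 (Nat.cast_nonneg _)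
      _ ≤ K * s := h4
  have h7 : (100 : ℝ) * K ≤ s := by
    have : K * (100 * K) ≤ K * s := by nlinarith
    exact le_of_mul_le_mul_left this hK
  have key : ∀ x : ℝ, s ≤ K * x → 100 ≤ x := by
    intro x hx
    have : K * 100 ≤ K * x := by linarith
    exact le_of_mul_le_mul_left this hK
  have b1 := key _ a1
  have b2 := key _ a2
  have b3 := key _ a3
  have c1 : (100 : ℝ) * 100 ≤ (A.card : ℝ) * B.card :=
    mul_le_mul b1 b2 (by norm_num) (by linarith)
  have c2 : (100 : ℝ) * 100 * 100 ≤ (A.card : ℝ) * B.card * C.card :=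
    mul_le_mul c1 b3 (by norm_num) (by positivity)
  linarith

end MAINL

end Pool.RAT
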