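import Pool.Agent.Work.MP_dc37f8_rat.InterfaceL
import Pool.Agent.Work.MP_dc37f8_rat.MAINLA

/-! LAT: sets of small doubling with a popular rotation. -/

set_option autoImplicit false

open Finset
open scoped Pointwise

namespace Pool.RAT

open Pool.BK Pool.BD Pool.RF

namespace LAT

open Classical in
theorem box_mono (ω v : ℂ) {N N' : ℕ} (h : N ≤ N') : box ω v N ⊆ box ω v N' := by
  unfold box
  apply image_subset_image
  exact product_subset_product (range_mono h) (range_mono h)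

open Classical in
theorem seg_sub (ω v : ℂ) {L N : ℕ} (h : L ≤ N) : seg v L ⊆ box ω v N := by
  intro x hx
  obtain ⟨i, hi, rfl⟩ := mem_image.1 hx
  have hi' := mem_range.1 hi
  refine mem_image.2 ⟨(i, 0), mem_product.2 ⟨mem_range.2 (by omega), mem_range.2 (by omega)⟩, ?_⟩
  simp

theorem om_im (D : ℕ) (hD : Squarefree D) : (om D).im ≠ 0 := by
  have h0 : 0 < D := Nat.pos_of_ne_zero hD.ne_zero
  have h1 : 0 < Real.sqrt D := Real.sqrt_pos.2 (by exact_mod_cast h0)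
  unfold om
  split_ifs
  · have : ((1 + (Real.sqrt D : ℂ) * Complex.I) / 2 : ℂ) =
        ((1 / 2 : ℝ) : ℂ) + ((Real.sqrt D / 2 : ℝ) : ℂ) * Complex.I := by
      push_cast
      ring
    rw [this]
    simp
    exact hD.ne_zero
  · simp
    exact hD.ne_zero

theorem not_pm_im {w : ℂ} (h : ‖w‖ = 1) (h1 : w ≠ 1) (h2 : w ≠ -1) : w.im ≠ 0 := by
  intro h0
  have h3 : w.re ^ 2 + w.im ^ 2 = 1 := by
    have := Complex.sq_norm w
    rw [h, Complex.normSq_apply] at this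
    nlinarith
  rw [h0] at h3
  have h4 : (w.re - 1) * (w.re + 1) = 0 := by nlinarith
  rcases mul_eq_zero.1 h4 with h5 | h5
  · exact h1 (Complex.ext (by simp; linarith) (by simpa using h0))
  · exact h2 (Complex.ext (by simp; linarith) (by simpa using h0))

theorem rat_of_not_irr {x : ℝ} (h : ¬ Irrational x) : ∃ q : ℚ, x = q := by
  unfold Irrational at h
  push Not at h
  obtain ⟨q, hq⟩ := h
  exact ⟨q, hq.symm⟩

theorem fd_lin {D : ℕ} {w : ℂ} (h : Fd D w) (a b : ℚ) : Fd D (a + b * w) := by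
  obtain ⟨x, y, h⟩ := h
  refine ⟨a + b * x, b * y, ?_⟩
  rw [h]
  push_cast
  ring

theorem dir_norm {g : Gp} (hg : IsDir g) : ‖lp g‖ = 1 := by
  obtain ⟨w, t, hw, h⟩ := hg
  unfold lp
  rw [h, h]
  simpa using hw

/-- the final inequality -/
theorem num {p q c T12 : ℝ} (hp : 0 < p) (hq : (1 - 1 / 10000) * p ≤ q) (hq2 : q ≤ p)
    (hc : (1 - 1 / 10000) * q ^ 3 ≤ c) (hT : 0 ≤ T12)
    (h : (78 / 10 * c) ^ 2 ≤ T12 * (7801 / 1000 * (777 / 100) * q ^ 4 + 1 / 100 * p ^ 4)) :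
    1001 / 1000 * p ^ 2 ≤ T12 := by
  by_contra hcon
  push Not at hcon
  have hq0 : 0 < q := by nlinarith
  have h1 : (78 / 10 * ((1 - 1 / 10000) * q ^ 3)) ^ 2 ≤ (78 / 10 * c) ^ 2 := by
    have : 0 ≤ 78 / 10 * ((1 - 1 / 10000) * q ^ 3) := by positivity
    exact pow_le_pow_left₀ this (by linarith) 2
  have h2 : T12 * (7801 / 1000 * (777 / 100) * q ^ 4 + 1 / 100 * p ^ 4) ≤
      1001 / 1000 * p ^ 2 * (7801 / 1000 * (777 / 100) * q ^ 4 + 1 / 100 * p ^ 4) :=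
    mul_le_mul_of_nonneg_right hcon.le (by positivity)
  have h3 : (78 / 10 * ((1 - 1 / 10000) * q ^ 3)) ^ 2 ≤
      1001 / 1000 * p ^ 2 * (7801 / 1000 * (777 / 100) * q ^ 4 + 1 / 100 * p ^ 4) :=
    h1.trans (h.trans h2)
  obtain ⟨x, hx⟩ : ∃ x, x = q / p := ⟨_, rfl⟩
  have hqx : q = x * p := by rw [hx]; field_simp
  have hx1 : 1 - 1 / 10000 ≤ x := by
    rw [hx, le_div_iff₀ hp]; exact hq
  have hx2 : x ≤ 1 := by
    rw [hx, div_le_one hp]; exact hq2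
  rw [hqx] at h3
  have h4 : (78 / 10 * (1 - 1 / 10000)) ^ 2 * x ^ 6 ≤
      1001 / 1000 * (7801 / 1000 * (777 / 100) * x ^ 4 + 1 / 100) := by
    have hp6 : 0 < p ^ 6 := by positivity
    refine le_of_mul_le_mul_right ?_ hp6
    calc (78 / 10 * (1 - 1 / 10000)) ^ 2 * x ^ 6 * p ^ 6
        = (78 / 10 * ((1 - 1 / 10000) * (x * p) ^ 3)) ^ 2 := by ring
      _ ≤ 1001 / 1000 * p ^ 2 * (7801 / 1000 * (777 / 100) * (x * p) ^ 4 + 1 / 100 * p ^ 4) := h3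
      _ = 1001 / 1000 * (7801 / 1000 * (777 / 100) * x ^ 4 + 1 / 100) * p ^ 6 := by ring
  have hx0 : 0 < x := by linarith
  have h5 : (1 - 1 / 10000) ^ 2 ≤ x ^ 2 := pow_le_pow_left₀ (by norm_num) hx1 2
  have h6 : (1 - 1 / 10000) ^ 4 ≤ x ^ 4 := pow_le_pow_left₀ (by norm_num) hx1 4
  have h7 : (1 - 1 / 10000) ^ 2 * x ^ 4 ≤ x ^ 6 := by
    calc (1 - 1 / 10000) ^ 2 * x ^ 4 ≤ x ^ 2 * x ^ 4 :=
          mul_le_mul_of_nonneg_right h5 (by positivity)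
      _ = x ^ 6 := by ring
  norm_num at h4 h6 h7
  nlinarith

end LAT

open LAT MAINL

set_option maxHeartbeats 4000000 in
open Classical in
theorem stmt_LAT (hW : Pool.RF.Stmt_WCSD) (hTR : Stmt_TAILR) (hFC : Stmt_FEWC)
    (hPR : Stmt_PROD) (hTG : Stmt_TRIG) (hFD : Stmt_FD0) (hAP : Stmt_APG) (hPW : Stmt_POPW)
    (hHG : Stmt_HGT) (hBX : Stmt_BOX) (hLV : Stmt_LEVEL) (hPA : Stmt_PAIRS) (hBM : Stmt_BMP)
    (hCS : Stmt_CSF) (hFL : Stmt_FLD) (hAR : Stmt_ARL) (hKY : Stmt_KEY) : Stmt_LAT := by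
  intro K hK
  obtain ⟨K₀, hAP⟩ := hAP (max K 1) (le_max_right _ _)
  obtain ⟨Kd, hKd⟩ : ∃ Kd : ℕ, Kd = max K₀ (⌈K⌉₊ + 1) := ⟨_, rfl⟩
  have hKd1 : K₀ ≤ Kd := by rw [hKd]; exact le_max_left _ _
  have hKd2 : 1 ≤ Kd := by rw [hKd]; exact le_trans (by omega) (le_max_right _ _)
  have hKd3 : K ≤ (Kd : ℝ) := by
    have h1 : K ≤ (⌈K⌉₊ : ℝ) := Nat.le_ceil K
    have h2 : ((⌈K⌉₊ + 1 : ℕ) : ℝ) ≤ (Kd : ℝ) := by
      rw [hKd]; exact_mod_cast le_max_right _ _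
    push_cast at h2
    linarith
  have hKi : 0 < 1 / K := by positivity
  obtain ⟨Ka, hPa⟩ := hPW Kd (1 / K) hKi
  obtain ⟨Ha, na, hHa⟩ := hHG Kd Ka
  obtain ⟨K2, hBX⟩ := hBX Kd Ka
  obtain ⟨K3, hK3⟩ : ∃ K3 : ℕ, K3 = 2 * K2 := ⟨_, rfl⟩
  obtain ⟨K4, hPA⟩ := hPA K3 (1 / 10000) (by norm_num)
  obtain ⟨τ, Nb, hτ, hBM⟩ := hBM K4
  obtain ⟨κ, b, nt, hκ, hb, hTR⟩ := hTR (τ ^ 2 / 100) (by positivity)
  obtain ⟨κm, hκm⟩ : ∃ κm : ℝ, κm = min κ (1 / K) := ⟨_, rfl⟩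
  have hκm0 : 0 < κm := by rw [hκm]; exact lt_min hκ hKi
  obtain ⟨κ', hκ', hPR⟩ := hPR K κm hK hκm0
  obtain ⟨Kb, hPb⟩ := hPW Kd κ hκ
  obtain ⟨Hb, nb, hHb⟩ := hHG Kd Kb
  obtain ⟨B, hB⟩ : ∃ B : ℕ, B = Hb.factorial := ⟨_, rfl⟩
  have hB1 : 1 ≤ B := by rw [hB]; exact Nat.factorial_pos _
  obtain ⟨N₁, hN₁⟩ : ∃ N₁ : ℕ, N₁ = max Nb (100 * K4 ^ 2) + 1 := ⟨_, rfl⟩
  have hN₁a : 1 ≤ N₁ := by omega
  have hN₁b : Nb ≤ N₁ := by rw [hN₁]; exact (le_max_left _ _).trans (Nat.le_succ _)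
  have hN₁c : 100 * K4 ^ 2 ≤ N₁ := by rw [hN₁]; exact (le_max_right _ _).trans (Nat.le_succ _)
  obtain ⟨N, hLV⟩ := hLV K2 (1 / 10000) B N₁ (by norm_num) hB1
  obtain ⟨L, hL⟩ : ∃ L : ℕ, 2 * (K2 : ℝ) / b < L := exists_nat_gt _
  obtain ⟨N', hN'⟩ : ∃ N' : ℕ, N' = max N L := ⟨_, rfl⟩
  obtain ⟨nx, hBX⟩ := hBX (2 * Ha) N'
  obtain ⟨δ, hδ⟩ : ∃ δ : ℝ, δ = min κm κ' / 2 := ⟨_, rfl⟩
  have hδ0 : 0 < δ := by rw [hδ]; have := lt_min hκm0 hκ'; linarith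
  have hδ1 : δ < κm := by
    rw [hδ]; have := lt_min hκm0 hκ'; have := min_le_left κm κ'; linarith
  have hδ2 : δ < κ' := by
    rw [hδ]; have := lt_min hκm0 hκ'; have := min_le_right κm κ'; linarith
  have hκm1 : κm ≤ κ := by rw [hκm]; exact min_le_left _ _
  have hκm2 : κm ≤ 1 / K := by rw [hκm]; exact min_le_right _ _
  refine ⟨δ, na + nt + nb + nx + 1, hδ0, ?_⟩
  rintro P hn hPP ⟨wa, hwa1, hwa2, hwa3, hwa4⟩ hirr
  have hn1 : 1 ≤ P.card := by omega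
  have hP : P.Nonempty := card_pos.1 (by omega)
  have hp0 : (0 : ℝ) < P.card := by exact_mod_cast hn1
  have hp4 : (0 : ℝ) < (P.card : ℝ) ^ 4 := by positivity
  obtain ⟨p₀, hp₀⟩ := hP
  -- the approximate group
  obtain ⟨D, hD⟩ : ∃ D : Finset ℂ, D = P - P := ⟨_, rfl⟩
  have hPD : P.card ≤ D.card := by
    have h1 : (P - {p₀}) ⊆ D := by
      rw [hD]; exact sub_subset_sub_left (singleton_subset_iff.2 hp₀)
    have h2 := card_le_card h1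
    rw [sub_singleton, card_image_of_injective _ (sub_left_injective)] at h2
    exact h2
  have hD0 : (0 : ℂ) ∈ D := by
    rw [hD, mem_sub]; exact ⟨p₀, hp₀, p₀, hp₀, sub_self _⟩
  have hDn : -D = D := by rw [hD, neg_sub]
  have hDc : (D.card : ℝ) ≤ K * P.card := by rw [hD]; exact hPP
  obtain ⟨X₀, hX₀, hX₀'⟩ := hAP P P.card hn1
    (by
      have : (1 : ℝ) ≤ max K 1 := le_max_right _ _
      nlinarith)
    (hPP.trans (mul_le_mul_of_nonneg_right (le_max_left _ _) hp0.le))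
  rw [← hD] at hX₀'
  have hDc' : D.card ≤ Kd * P.card := by
    have : (D.card : ℝ) ≤ (Kd : ℝ) * P.card :=
      hDc.trans (mul_le_mul_of_nonneg_right hKd3 hp0.le)
    exact_mod_cast this
  have hLk : Lk Kd D P := by
    refine ⟨hD0, hDn, hDc', ⟨X₀, hX₀.trans hKd1, hX₀'⟩, {p₀}, by simpa using hKd2, ?_⟩
    intro p hp
    rw [mem_add]
    refine ⟨p₀, mem_singleton_self _, p - p₀, ?_, by ring⟩
    rw [hD, mem_sub]
    exact ⟨p, hp, p₀, hp₀, rfl⟩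
  -- the popular rotation
  have hwa0 : wa ≠ 0 := by
    intro h; rw [h] at hwa1; simp at hwa1
  have hsxa : 1 / K * (P.card : ℝ) ^ 4 ≤ SX P wa := by
    rw [one_div, inv_mul_le_iff₀ hK]; exact hwa4
  have hrat : ∀ w : ℂ, ‖w‖ = 1 → δ * (P.card : ℝ) ^ 4 < SX P w → ∃ q : ℚ, w.re = q := by
    intro w hw h
    by_contra hcon
    have h1 : Irrational w.re := by
      by_contra h2
      exact hcon (rat_of_not_irr h2)
    exact absurd (hirr w hw h1) (not_le.2 h)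
  have hqa : ∃ q : ℚ, wa.re = q := by
    apply hrat wa hwa1
    refine lt_of_lt_of_le ?_ hsxa
    exact mul_lt_mul_of_pos_right (hδ1.trans_le hκm2) hp4
  have hima : wa.im ≠ 0 := not_pm_im hwa1 hwa2 hwa3
  obtain ⟨d, hd, hFda⟩ := hFD wa hwa1 hima hqa
  obtain ⟨ha, hdena, -, u, f, huf, hu, hf, hf0⟩ := hFL d hd wa hFda hwa1
  have hf0 := hf0 hwa2 hwa3
  obtain ⟨ω, hω⟩ : ∃ ω, ω = om d := ⟨_, rfl⟩
  have hωi : ω.im ≠ 0 := by rw [hω]; exact om_im d hd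
  rw [← hω] at huf
  obtain ⟨Xa, hXa, hXa'⟩ := hPa D P wa ⟨p₀, hp₀⟩ hLk hwa0 hsxa
  have hDbig : na ≤ D.card := by omega
  have hha : ha ≤ Ha := hHa D X₀ Xa wa ha hDbig hD0 hDn (hX₀.trans hKd1) hX₀' hXa hXa' hwa1 hdena
  have hPb' : nx ≤ P.card := by omega
  have hc1 : |u| ≤ ((2 * Ha : ℕ) : ℤ) := by
    refine hu.trans ?_
    push_cast
    have : (ha : ℤ) ≤ Ha := by exact_mod_cast hha
    linarith
  have hc2 : |f| ≤ ((2 * Ha : ℕ) : ℤ) := by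
    refine hf.trans ?_
    push_cast
    have : (ha : ℤ) ≤ Ha := by exact_mod_cast hha
    linarith
  obtain ⟨hPP2, v, hv, hbox⟩ := hBX D P Xa ω wa ha u f hPb' hLk hXa hXa' (by omega) hc1 hc2 hf0 huf
  -- few points on circles
  have hcirc : ∀ (z : ℂ) (ρ : ℝ),
      ((P.filter (fun p => dist p z = ρ)).card : ℝ) < b * P.card := by
    intro z ρ
    have h1 := hFC P v z ρ L hv
    have h2 : (P + seg v L).card ≤ (P + box ω v N').card :=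
      card_le_card (add_subset_add_left (seg_sub ω v (by rw [hN']; exact le_max_right _ _)))
    have h3 : L * (P.filter (fun p => dist p z = ρ)).card ≤ 2 * (K2 * P.card) :=
      h1.trans (Nat.mul_le_mul_left 2 (h2.trans hbox))
    have h4 : (L : ℝ) * ((P.filter (fun p => dist p z = ρ)).card : ℝ) ≤ 2 * (K2 * P.card) := by
      exact_mod_cast h3
    have h5 : 2 * (K2 : ℝ) < L * b := by rwa [div_lt_iff₀ hb] at hL
    have hL0 : (0 : ℝ) < L := lt_of_le_of_lt (by positivity) hL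
    by_contra hcon
    push Not at hcon
    have h6 : (L : ℝ) * (b * P.card) ≤ 2 * (K2 * P.card) :=
      le_trans (mul_le_mul_of_nonneg_left hcon hL0.le) h4
    nlinarith
  -- Cauchy-Schwarz and the third moment
  obtain ⟨𝒢, h𝒢, hCSP⟩ := hW P
  have htail := hTR P 𝒢 (by omega) h𝒢 hcirc
  obtain ⟨W, hWd⟩ : ∃ W : Finset ℂ, W = (𝒢.image lp).filter
      (fun w => κ * (P.card : ℝ) ^ 4 ≤ SX P w) := ⟨_, rfl⟩
  have hW1 : ∀ w ∈ W, ‖w‖ = 1 ∧ κ * (P.card : ℝ) ^ 4 ≤ SX P w := by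
    intro w hw
    rw [hWd] at hw
    obtain ⟨h1, h2⟩ := mem_filter.1 hw
    obtain ⟨g, hg, rfl⟩ := mem_image.1 h1
    exact ⟨dir_norm (h𝒢 g hg).1, h2⟩
  have hW2 : ∀ w ∈ W, Fd d w := by
    intro w hw
    obtain ⟨h1, h2⟩ := hW1 w hw
    have h3 : ∃ q : ℚ, w.re = q := by
      apply hrat w h1
      exact lt_of_lt_of_le (mul_lt_mul_of_pos_right (hδ1.trans_le hκm1) hp4) h2
    have h4 : κ' * (P.card : ℝ) ^ 4 ≤ SX P (wa * w) := by
      refine hPR P wa w ⟨p₀, hp₀⟩ hPP hwa1 h1 ?_ ?_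
      · exact (mul_le_mul_of_nonneg_right hκm2 hp4.le).trans hsxa
      · exact (mul_le_mul_of_nonneg_right hκm1 hp4.le).trans h2
    have h5 : ∃ q : ℚ, (wa * w).re = q := by
      apply hrat (wa * w)
      · rw [norm_mul, hwa1, h1, mul_one]
      · exact lt_of_lt_of_le (mul_lt_mul_of_pos_right hδ2 hp4) h4
    obtain ⟨a, c, h6⟩ := hTG wa w hwa1 h1 hima hqa h3 h5
    rw [h6]
    exact fd_lin hFda a c
  have hex : ∀ w : ℂ, ∃ h : ℕ, w ∈ W → Den w h ∧ Den w⁻¹ h := by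
    intro w
    by_cases hw : w ∈ W
    · obtain ⟨h, h1, h2, -⟩ := hFL d hd w (hW2 w hw) (hW1 w hw).1
      exact ⟨h, fun _ => ⟨h1, h2⟩⟩
    · exact ⟨0, fun h => absurd h hw⟩
  choose Nn hNn using hex
  have hNle : ∀ w ∈ W, Nn w ≤ Hb := by
    intro w hw
    obtain ⟨h1, h2⟩ := hW1 w hw
    have hw0 : w ≠ 0 := by
      intro h; rw [h] at h1; simp at h1
    obtain ⟨Xb, hXb, hXb'⟩ := hPb D P w ⟨p₀, hp₀⟩ hLk hw0 h2
    exact hHb D X₀ Xb w (Nn w) (by omega) hD0 hDn (hX₀.trans hKd1) hX₀' hXb hXb' h1 (hNn w hw).1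
  have hNdvd : ∀ w ∈ W, Nn w ∣ B := by
    intro w hw
    rw [hB]
    exact Nat.dvd_factorial (hNn w hw).1.1 (hNle w hw)
  -- the level
  have hbox' : (P + box ω v N).card ≤ K2 * P.card :=
    le_trans (card_le_card (add_subset_add_left (box_mono ω v
      (by rw [hN']; exact le_max_left _ _)))) hbox
  obtain ⟨e, Q, he, hQP, hQc, hEq, hQb⟩ := hLV P ω v hωi hv ⟨p₀, hp₀⟩ hbox'
  have hQle : Q.card ≤ P.card := card_le_card hQP
  have hQ0 : 0 < Q.card := by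
    have h1 : (0 : ℝ) < Q.card := lt_of_lt_of_le (mul_pos (by norm_num) hp0) hQc
    exact_mod_cast h1
  have hP2Q : P.card ≤ 2 * Q.card := by
    have h1 : (P.card : ℝ) ≤ 2 * Q.card := by
      have : (1 - 1 / 10000 : ℝ) * P.card ≤ Q.card := hQc
      linarith
    exact_mod_cast h1
  have hBe : (B : ℂ) * e ≠ 0 := by
    refine mul_ne_zero ?_ he
    exact_mod_cast (by omega : B ≠ 0)
  have hK3a : K2 * P.card ≤ K3 * Q.card := by
    rw [hK3]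
    calc K2 * P.card ≤ K2 * (2 * Q.card) := Nat.mul_le_mul_left _ hP2Q
      _ = 2 * K2 * Q.card := by ring
  have hQQ : (Q - Q).card ≤ K3 * Q.card :=
    (card_le_card (sub_subset_sub hQP hQP)).trans (hPP2.trans hK3a)
  obtain ⟨s, hs, hpairs⟩ := hPA N₁ Q ω (B * e) hN₁a hωi hBe (card_pos.1 hQ0) hQQ
    (hQb.trans hK3a)
  -- Cauchy-Schwarz
  have hthird : ∑ g ∈ 𝒢.filter (fun g => lp g ∉ W), ((st Q g).card : ℝ) ^ 3 ≤
      τ ^ 2 / 100 * (P.card : ℝ) ^ 4 := by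
    refine le_trans ?_ htail
    have h1 : ∀ g, ((st Q g).card : ℝ) ^ 3 ≤ ((st P g).card : ℝ) ^ 3 := by
      intro g
      have h2 : st Q g ⊆ st P g := by
        intro p hp
        obtain ⟨h3, h4⟩ := mem_filter.1 hp
        exact mem_filter.2 ⟨hQP h3, hQP h4⟩
      have h3 : ((st Q g).card : ℝ) ≤ ((st P g).card : ℝ) := by exact_mod_cast card_le_card h2
      exact pow_le_pow_left₀ (Nat.cast_nonneg _) h3 3
    refine (sum_le_sum fun g _ => h1 g).trans ?_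
    apply sum_le_sum_of_subset_of_nonneg
    · intro g hg
      obtain ⟨h2, h3⟩ := mem_filter.1 hg
      refine mem_filter.2 ⟨h2, ?_⟩
      by_contra hcon
      push Not at hcon
      apply h3
      rw [hWd]
      exact mem_filter.2 ⟨mem_image_of_mem _ h2, hcon⟩
    · intro g _ _
      positivity
  have hARL : ∀ w ∈ W, w ≠ 0 ∧ 1 ≤ Nn w ∧ AR ω B (Nn w) w ∧ AR ω B (Nn w) w⁻¹ := by
    intro w hw
    obtain ⟨h1, -⟩ := hW1 w hw
    have hw0 : w ≠ 0 := by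
      intro h; rw [h] at h1; simp at h1
    obtain ⟨h2, h3⟩ := hNn w hw
    refine ⟨hw0, h2.1, ?_, ?_⟩
    · rw [hω]
      exact hAR d hd w (hW2 w hw) h1 _ B h2 (hNdvd w hw) hB1
    · rw [hω]
      refine hAR d hd w⁻¹ (fd_inv (hW2 w hw) h1) ?_ _ B h3 (hNdvd w hw) hB1
      rw [norm_inv, h1, inv_one]
  have hkey : ∀ (I : Finset ℂ) (m : ℂ → ℝ), (∀ i ∈ I, ∀ j ∈ I, Or ω (i - j) → i = j) →
      (∀ i, 0 ≤ m i) →
      ∑ w ∈ W, keyS ω w I m / (Nn w : ℝ) ^ 2 ≤ 777 / 100 * (∑ i ∈ I, m i) ^ 4 := by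
    intro I m hI hm
    rw [hω] at hI ⊢
    exact hKY d hd W Nn (fun w hw => ⟨hW2 w hw, (hW1 w hw).1, (hNn w hw).1⟩) I m hI hm
  have hfin := hCS P Q W 𝒢 ω e B Nn (τ ^ 2 / 100 * (P.card : ℝ) ^ 4) (777 / 100) τ
    (fun g hg => (h𝒢 g hg).1) hCSP hQP hthird hωi he hB1 hEq (by norm_num) hτ hARL hkey
  have hsub : (Q ×ˢ Q ×ˢ Q).filter (fun z => Gd K4 N₁ s (B * e) (cls ω (B * e) Q z.1)
      (cls ω (B * e) Q z.2.1) (cls ω (B * e) Q z.2.2)) ⊆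
      (Q ×ˢ Q ×ˢ Q).filter (fun z =>
      (10 : ℝ) ^ 6 ≤ mm ω (B * e) Q z ∧
      78 / 10 * (mm ω (B * e) Q z) ^ (2 / 3 : ℝ) ≤
        (((((cls ω (B * e) Q z.1) - (cls ω (B * e) Q z.2.1)) ×ˢ
          ((cls ω (B * e) Q z.1) - (cls ω (B * e) Q z.2.2))).filter (fun θ =>
            θ.1 ≠ 0 ∧ θ.2 ≠ 0 ∧ θ.1 ≠ θ.2 ∧ τ * (mm ω (B * e) Q z) ^ (1 / 3 : ℝ) ≤
              (rept (cls ω (B * e) Q z.1) (cls ω (B * e) Q z.2.1)
                (cls ω (B * e) Q z.2.2) θ : ℝ))).card : ℝ)) := by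
    intro z hz
    obtain ⟨h1, h2⟩ := mem_filter.1 hz
    refine mem_filter.2 ⟨h1, ?_, ?_⟩
    · exact gd_large h2 hs hN₁c
    · exact hBM s (B * e) _ _ _ hs hBe (gd_mono h2 hN₁b)
  have hcard : (1 - 1 / 10000) * (Q.card : ℝ) ^ 3 ≤ (((Q ×ˢ Q ×ˢ Q).filter (fun z =>
      (10 : ℝ) ^ 6 ≤ mm ω (B * e) Q z ∧
      78 / 10 * (mm ω (B * e) Q z) ^ (2 / 3 : ℝ) ≤
        (((((cls ω (B * e) Q z.1) - (cls ω (B * e) Q z.2.1)) ×ˢ
          ((cls ω (B * e) Q z.1) - (cls ω (B * e) Q z.2.2))).filter (fun θ =>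
            θ.1 ≠ 0 ∧ θ.2 ≠ 0 ∧ θ.1 ≠ θ.2 ∧ τ * (mm ω (B * e) Q z) ^ (1 / 3 : ℝ) ≤
              (rept (cls ω (B * e) Q z.1) (cls ω (B * e) Q z.2.1)
                (cls ω (B * e) Q z.2.2) θ : ℝ))).card : ℝ))).card : ℝ) := by
    refine hpairs.trans ?_
    exact_mod_cast card_le_card hsub
  refine num hp0 hQc (by exact_mod_cast hQle) hcard (by positivity) ?_
  refine hfin.trans (le_of_eq ?_)
  have hτ2 : τ ^ 2 ≠ 0 := by positivity
  have e1 : τ ^ 2 / 100 * (P.card : ℝ) ^ 4 / τ ^ 2 = 1 / 100 * (P.card : ℝ) ^ 4 := by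
    field_simp
  rw [e1]

end Pool.RAT
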