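import Pool.Agent.Work.MP_dc37f8_rat.ENT2

/-! # Block LEVA: a level on which almost all classes are almost equidistributed (helper13) -/

set_option autoImplicit false

open Finset

namespace Pool.RAT

open Pool.RAT.ENT2

theorem stmt_LEVA (h1 : Stmt_ENT1) (h2 : Stmt_ENT2) : Stmt_LEVA := by
  classical
  intro K ε B hε hB
  rcases lt_or_ge 1 ε with hε1 | hε1
  · refine ⟨1, le_rfl, fun Q ω v hω hv hQ _ => ⟨0, by norm_num, ?_⟩⟩
    have g1 : ((Q.filter (fun q => ∃ x ∈ range B, ∃ y ∈ range B,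
      (B : ℝ) ^ 2 * (cls ω (B * ((B : ℂ) ^ 0 * v)) Q (q + (x + y * ω) * ((B : ℂ) ^ 0 * v))).card <
        (1 - ε) * (cls ω ((B : ℂ) ^ 0 * v) Q q).card)).card : ℝ) ≤ Q.card := by
      exact_mod_cast card_filter_le _ _
    have g2 : (0 : ℝ) ≤ Q.card := by positivity
    nlinarith
  have hBR : (0 : ℝ) < B := by exact_mod_cast hB
  set M : ℕ := ⌈4 * (B : ℝ) ^ 2 * Real.log K / ε ^ 3⌉₊ + 1 with hM
  have hM1 : 1 ≤ M := by omega
  have hMR : (0 : ℝ) < M := by exact_mod_cast hM1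
  have hMb : 4 * (B : ℝ) ^ 2 * Real.log K / M ≤ ε ^ 3 := by
    rw [div_le_iff₀ hMR]
    have g1 : 4 * (B : ℝ) ^ 2 * Real.log K / ε ^ 3 ≤ M := by
      rw [hM]; push_cast
      exact (Nat.le_ceil _).trans (by linarith)
    rw [div_le_iff₀ (by positivity)] at g1
    linarith
  refine ⟨M, hM1, fun Q ω v hω hv hQ hc => ?_⟩
  have hBC : (B : ℂ) ≠ 0 := by exact_mod_cast (show B ≠ 0 by omega)
  set m : ℕ → ℂ → ℝ := fun l q => ((cls ω ((B : ℂ) ^ l * v) Q q).card : ℝ) with hm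
  have hmp : ∀ l, ∀ q ∈ Q, 0 < m l q := fun l q hq => by
    simp only [hm]; exact_mod_cast cls_pos hq
  set S : ℕ → ℝ := fun l => ∑ q ∈ Q, Real.log ((B : ℝ) ^ 2 * m (l + 1) q / m l q) with hS
  have hlog : ∀ l, ∀ q ∈ Q, Real.log ((B : ℝ) ^ 2 * m (l + 1) q / m l q) =
      2 * Real.log B + (Real.log (m (l + 1) q) - Real.log (m l q)) := by
    intro l q hq
    have p1 := hmp l q hq
    have p2 := hmp (l + 1) q hq
    rw [Real.log_div (by positivity) p1.ne', Real.log_mul (by positivity) p2.ne', Real.log_pow]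
    push_cast; ring
  have htel : ∑ l ∈ range M, S l ≤ Q.card * Real.log K := by
    have g1 := h1 K (B ^ M) Q ω v hω hv (Nat.one_le_pow _ _ hB) hQ hc
    refine le_trans (le_of_eq ?_) g1
    simp only [hS]
    rw [sum_comm]
    refine sum_congr rfl fun q hq => ?_
    rw [sum_congr rfl (fun l _ => hlog l q hq), sum_add_distrib,
      sum_range_sub (fun l => Real.log (m l q)), sum_const,
      card_range, nsmul_eq_mul]
    have p1 := hmp 0 q hq
    have p2 := hmp M q hq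
    have e1 : ((cls ω (((B ^ M : ℕ) : ℂ) * v) Q q).card : ℝ) = m M q := by
      simp only [hm]; push_cast; rfl
    have e2 : ((cls ω v Q q).card : ℝ) = m 0 q := by
      simp only [hm, pow_zero, one_mul]
    rw [e1, e2, Real.log_div (by positivity) p1.ne', Real.log_mul (by positivity) p2.ne',
      Real.log_pow]
    push_cast
    rw [Real.log_pow]
    ring
  have hpig : ∃ l ∈ range M, S l ≤ Q.card * Real.log K / M := by
    apply exists_le_of_sum_le (nonempty_range_iff.2 (by omega))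
    rw [sum_const, card_range, nsmul_eq_mul]
    have : (M : ℝ) * (Q.card * Real.log K / M) = Q.card * Real.log K := by field_simp
    rw [this]
    exact htel
  obtain ⟨l, hl, hSl⟩ := hpig
  refine ⟨l, mem_range.1 hl, ?_⟩
  have g2 := h2 B ε Q ω ((B : ℂ) ^ l * v) hω (mul_ne_zero (pow_ne_zero _ hBC) hv) hB hε.le hε1
  have g3 : ∑ q ∈ Q, Real.log ((B : ℝ) ^ 2 * (cls ω (B * ((B : ℂ) ^ l * v)) Q q).card /
      (cls ω ((B : ℂ) ^ l * v) Q q).card) = S l := by
    simp only [hS, hm]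
    refine sum_congr rfl fun q _ => ?_
    rw [show (B : ℂ) * ((B : ℂ) ^ l * v) = (B : ℂ) ^ (l + 1) * v by ring]
  rw [g3] at g2
  have g4 : 4 * (B : ℝ) ^ 2 * S l ≤ ε ^ 3 * Q.card := by
    calc 4 * (B : ℝ) ^ 2 * S l ≤ 4 * (B : ℝ) ^ 2 * (Q.card * Real.log K / M) :=
          mul_le_mul_of_nonneg_left hSl (by positivity)
      _ = (4 * (B : ℝ) ^ 2 * Real.log K / M) * Q.card := by ring
      _ ≤ ε ^ 3 * Q.card := mul_le_mul_of_nonneg_right hMb (by positivity)
  have g5 := g2.trans g4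
  have g6 : ε ^ 3 * (Q.card : ℝ) = ε ^ 2 * (ε * Q.card) := by ring
  rw [g6] at g5
  exact le_of_mul_le_mul_left g5 (by positivity)

end Pool.RAT
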