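import Pool.Agent.Work.MP_dc37f8_rat.ENT2

/-! # Block LEVEL: equidistribution on a suitable level (helper13) -/

set_option autoImplicit false

open Finset

open scoped Pointwise

namespace Pool.RAT.LEVEL

open Pool.RAT Pool.RAT.ENT2

variable {ω e : ℂ} {B : ℕ} {Q : Finset ℂ}

theorem box_sub {v : ℂ} (c n N : ℕ) (h : ∀ i < n, c * i < N) :
    box ω ((c : ℂ) * v) n ⊆ box ω v N := by
  intro p hp
  rw [box, mem_image] at hp ⊢
  obtain ⟨⟨i, j⟩, hz, rfl⟩ := hp
  rw [mem_product, mem_range, mem_range] at hz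
  refine ⟨(c * i, c * j), ?_, ?_⟩
  · rw [mem_product, mem_range, mem_range]
    exact ⟨h i hz.1, h j hz.2⟩
  · push_cast; ring

theorem box_mem_or (he : e ≠ 0) {N : ℕ} {b : ℂ} (hb : b ∈ box ω e N) : Or ω (b / e) := by
  rw [box, mem_image] at hb
  obtain ⟨⟨i, j⟩, -, rfl⟩ := hb
  refine ⟨i, j, ?_⟩
  rw [mul_div_assoc, div_self he]
  push_cast; ring

theorem box_card (hω : ω.im ≠ 0) (he : e ≠ 0) (N : ℕ) : (box ω e N).card = N ^ 2 := by
  rw [box, card_image_of_injective, card_product, card_range, sq]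
  rintro ⟨i, j⟩ ⟨i', j'⟩ h
  have h1 := mul_right_cancel₀ he h
  have h2 : (((i : ℝ)) : ℂ) + ((j : ℝ) : ℂ) * ω = ((i' : ℝ) : ℂ) + ((j' : ℝ) : ℂ) * ω := by
    push_cast; exact h1
  obtain ⟨h3, h4⟩ := or_unique hω h2
  have h3' : i = i' := by exact_mod_cast h3
  have h4' : j = j' := by exact_mod_cast h4
  rw [h3', h4']

/-- the number of classes is small -/
theorem inv_sum (hω : ω.im ≠ 0) (he : e ≠ 0) (N : ℕ) :
    (N : ℝ) ^ 2 * ∑ q ∈ Q, 1 / ((cls ω e Q q).card : ℝ) ≤ (Q + box ω e N).card := by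
  classical
  have h1 : (N : ℝ) ^ 2 * ∑ q ∈ Q, 1 / ((cls ω e Q q).card : ℝ) =
      ∑ x ∈ Q ×ˢ box ω e N, 1 / ((cls ω e Q x.1).card : ℝ) := by
    rw [sum_product, mul_sum]
    refine sum_congr rfl fun q _ => ?_
    show _ = ∑ y ∈ box ω e N, 1 / ((cls ω e Q q).card : ℝ)
    rw [sum_const, box_card hω he, nsmul_eq_mul]
    push_cast; ring
  rw [h1]
  have h2 : ∀ x ∈ Q ×ˢ box ω e N, x.1 + x.2 ∈ Q + box ω e N := fun x hx =>
    add_mem_add (mem_product.1 hx).1 (mem_product.1 hx).2
  rw [← sum_fiberwise_of_maps_to h2]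
  calc ∑ p ∈ Q + box ω e N, ∑ x ∈ (Q ×ˢ box ω e N).filter (fun x => x.1 + x.2 = p),
        1 / ((cls ω e Q x.1).card : ℝ) ≤ ∑ p ∈ Q + box ω e N, (1 : ℝ) := by
        refine sum_le_sum fun p _ => ?_
        have h3 : ∀ x ∈ (Q ×ˢ box ω e N).filter (fun x => x.1 + x.2 = p),
            Or ω ((x.1 - p) / e) := by
          intro x hx
          rw [mem_filter, mem_product] at hx
          have := ox_neg (box_mem_or he hx.1.2)
          have e1 : -(x.2 / e) = (x.1 - p) / e := by rw [← hx.2]; ring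
          rwa [e1] at this
        have h4 : ∀ x ∈ (Q ×ˢ box ω e N).filter (fun x => x.1 + x.2 = p),
            1 / ((cls ω e Q x.1).card : ℝ) = 1 / ((cls ω e Q p).card : ℝ) := by
          intro x hx
          rw [cls_congr (h3 x hx)]
        rw [sum_congr rfl h4, sum_const, nsmul_eq_mul, mul_one_div]
        refine div_le_one_of_le₀ ?_ (by positivity)
        have h5 : ((Q ×ˢ box ω e N).filter (fun x => x.1 + x.2 = p)).card ≤
            (cls ω e Q p).card := by
          refine card_le_card_of_injOn (fun x => x.1) ?_ ?_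
          · intro x hx
            rw [mem_coe] at hx
            rw [mem_coe, mem_cls]
            refine ⟨?_, h3 x hx⟩
            exact (mem_product.1 (mem_filter.1 hx).1).1
          · intro x hx y hy hxy
            rw [mem_coe, mem_filter] at hx hy
            have h6 : x.1 = y.1 := hxy
            have h7 : x.2 = y.2 := by
              have := hx.2.trans hy.2.symm
              rw [h6] at this
              exact add_left_cancel this
            exact Prod.ext h6 h7
        exact_mod_cast h5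
    _ = (Q + box ω e N).card := by rw [sum_const, nsmul_eq_mul, mul_one]

theorem or_int (x y : ℤ) : Or ω ((x : ℂ) + y * ω) := ⟨x, y, rfl⟩

/-- a point of a coarse class -/
theorem or_pt (he : e ≠ 0) (q : ℂ) (x y : ℤ) : Or ω ((q + (x + y * ω) * e - q) / e) := by
  have e1 : (q + (x + y * ω) * e - q) / e = (x : ℂ) + y * ω := by
    rw [add_sub_cancel_left, mul_div_assoc, div_self he, mul_one]
  rw [e1]; exact or_int x y

/-- the selection -/
theorem exists_sel : ∃ sel : Finset ℂ → ℕ → Finset ℂ, ∀ F k, k ≤ F.card →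
    sel F k ⊆ F ∧ (sel F k).card = k := by
  classical
  have h : ∀ (F : Finset ℂ) (k : ℕ), ∃ G : Finset ℂ, k ≤ F.card → G ⊆ F ∧ G.card = k := by
    intro F k
    by_cases hk : k ≤ F.card
    · obtain ⟨G, hG⟩ := exists_subset_card_eq hk
      exact ⟨G, fun _ => hG⟩
    · exact ⟨∅, fun h => absurd h hk⟩
  choose sel hsel using h
  exact ⟨sel, hsel⟩

/-- the class of `q` is large and almost equidistributed -/
def Good (ω e : ℂ) (B : ℕ) (Q : Finset ℂ) (δ : ℝ) (q : ℂ) : Prop :=
  (∀ x y : ℤ, (1 - δ) * ((cls ω e Q q).card : ℝ) ≤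
      (B : ℝ) ^ 2 * (cls ω (B * e) Q (q + (x + y * ω) * e)).card) ∧
      (B : ℝ) ^ 2 / δ ≤ (cls ω e Q q).card

open Classical in
/-- the main construction on a fixed level -/
theorem main (hω : ω.im ≠ 0) (he : e ≠ 0) (hB : 1 ≤ B) {δ : ℝ} (hδ0 : 0 < δ) (hδ1 : 2 * δ ≤ 1)
    {bad : ℝ}
    (hbad : ((Q.filter (fun q => ¬ Good ω e B Q δ q)).card : ℝ) ≤ bad) :
    ∃ Q' : Finset ℂ, Q' ⊆ Q ∧ (1 - 2 * δ) * (Q.card - bad) ≤ (Q'.card : ℝ) ∧ Eqd ω B e Q' := by
  classical
  have hBR : (0 : ℝ) < B := by exact_mod_cast hB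
  set good : ℂ → Prop := fun q => Good ω e B Q δ q with hgood
  -- class invariance
  have hinv : ∀ p q, Or ω ((p - q) / e) → good q → good p := by
    rintro p q hpq ⟨h1, h2⟩
    have hc : cls ω e Q p = cls ω e Q q := cls_congr hpq
    obtain ⟨a, b, hab⟩ := hpq
    refine ⟨fun x y => ?_, by rw [hc]; exact h2⟩
    have h3 := h1 (a + x) (b + y)
    rw [hc]
    have e1 : q + (((a + x : ℤ) : ℂ) + ((b + y : ℤ) : ℂ) * ω) * e = p + (x + y * ω) * e := by
      have e2 : p - q = (a + b * ω) * e := by rw [← hab]; field_simp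
      push_cast
      linear_combination -e2
    rw [e1] at h3
    exact h3
  obtain ⟨sel, hsel⟩ := exists_sel
  set f : ℂ → ℕ := fun q => ⌊(1 - δ) * ((cls ω e Q q).card : ℝ) / (B : ℝ) ^ 2⌋₊ with hf
  set Q' : Finset ℂ := Q.filter (fun q => good q ∧ q ∈ sel (cls ω (B * e) Q q) (f q)) with hQ'
  have hsub : Q' ⊆ Q := filter_subset _ _
  have hfle : ∀ q, good q → ∀ x y : ℤ, f q ≤ (cls ω (B * e) Q (q + (x + y * ω) * e)).card := by
    intro q hq x y
    have h1 := hq.1 x y
    apply Nat.floor_le_of_le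
    rw [div_le_iff₀ (by positivity)]
    linarith
  have hcls : ∀ q ∈ Q, good q → ∀ x y : ℤ, cls ω (B * e) Q' (q + (x + y * ω) * e) =
      sel (cls ω (B * e) Q (q + (x + y * ω) * e)) (f q) := by
    intro q hq hg x y
    set z : ℂ := q + (x + y * ω) * e with hz
    have hzq : Or ω ((z - q) / e) := or_pt he q x y
    have key : ∀ p, Or ω ((p - z) / (B * e)) → Or ω ((p - q) / e) ∧
        cls ω (B * e) Q p = cls ω (B * e) Q z ∧ f p = f q := by
      intro p hp
      have h1 : Or ω ((p - q) / e) := or_trans (fine_coarse he hB hp) hzq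
      refine ⟨h1, cls_congr hp, ?_⟩
      simp only [hf]
      rw [cls_congr h1]
    ext p
    rw [mem_cls]
    constructor
    · rintro ⟨h1, h2⟩
      obtain ⟨k1, k2, k3⟩ := key p h2
      rw [hQ', mem_filter] at h1
      rw [← k2, ← k3]
      exact h1.2.2
    · intro hp
      have h1 := (hsel _ _ (hfle q hg x y)).1 hp
      rw [mem_cls] at h1
      obtain ⟨k1, k2, k3⟩ := key p h1.2
      refine ⟨?_, h1.2⟩
      rw [hQ', mem_filter]
      refine ⟨h1.1, hinv p q k1 hg, ?_⟩
      rw [k2, k3]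
      exact hp
  have hcard : ∀ q ∈ Q, good q → ∀ x y : ℤ,
      (cls ω (B * e) Q' (q + (x + y * ω) * e)).card = f q := by
    intro q hq hg x y
    rw [hcls q hq hg x y]
    exact (hsel _ _ (hfle q hg x y)).2
  have hcoarse : ∀ q ∈ Q, good q → (((cls ω e Q' q).card : ℕ) : ℝ) = (B : ℝ) ^ 2 * f q := by
    intro q hq hg
    have h1 := part (Q := Q') hω he hB (fun _ => (1 : ℝ)) q
    have h2 : ∀ z ∈ range B ×ˢ range B,
        ∑ p ∈ cls ω (B * e) Q' (q + ((z.1 : ℂ) + z.2 * ω) * e), (1 : ℝ) = f q := by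
      intro z _
      rw [sum_const, nsmul_eq_mul, mul_one]
      have h3 := hcard q hq hg z.1 z.2
      push_cast at h3
      rw [h3]
    rw [sum_congr rfl h2, sum_const, sum_const, nsmul_eq_mul, nsmul_eq_mul, mul_one, card_product,
      card_range] at h1
    rw [← h1]
    push_cast; ring
  refine ⟨Q', hsub, ?_, ?_⟩
  · -- the number of points
    set G : Finset ℂ := Q.filter good with hG
    have hGc : (Q.card : ℝ) - bad ≤ G.card := by
      have h1 : G.card + (Q.filter (fun q => ¬ good q)).card = Q.card := by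
        rw [hG]; exact card_filter_add_card_filter_not _
      have h2 : (G.card : ℝ) + ((Q.filter (fun q => ¬ good q)).card : ℝ) = Q.card := by
        exact_mod_cast h1
      linarith
    have h1 : ∀ q ∈ G, (1 - 2 * δ) ≤ ∑ p ∈ cls ω e Q' q, 1 / ((cls ω e Q q).card : ℝ) := by
      intro q hq
      rw [hG, mem_filter] at hq
      have p1 : (0 : ℝ) < (cls ω e Q q).card := by exact_mod_cast cls_pos hq.1
      rw [sum_const, nsmul_eq_mul, hcoarse q hq.1 hq.2, mul_one_div, le_div_iff₀ p1]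
      have h2 : (1 - δ) * ((cls ω e Q q).card : ℝ) / (B : ℝ) ^ 2 < f q + 1 :=
        Nat.lt_floor_add_one _
      rw [div_lt_iff₀ (by positivity)] at h2
      have h3 := hq.2.2
      rw [div_le_iff₀ hδ0] at h3
      nlinarith
    have h2 : (1 - 2 * δ) * G.card ≤ Q'.card := by
      calc (1 - 2 * δ) * G.card = ∑ q ∈ G, (1 - 2 * δ) := by
            rw [sum_const, nsmul_eq_mul]; ring
        _ ≤ ∑ q ∈ G, ∑ p ∈ cls ω e Q' q, 1 / ((cls ω e Q q).card : ℝ) := sum_le_sum h1
        _ = ∑ p ∈ Q', ∑ q ∈ cls ω e G p, 1 / ((cls ω e Q q).card : ℝ) :=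
            swap G Q' (fun q _ => 1 / ((cls ω e Q q).card : ℝ))
        _ ≤ ∑ p ∈ Q', (1 : ℝ) := by
            refine sum_le_sum fun p _ => ?_
            have h3 : ∀ q ∈ cls ω e G p, 1 / ((cls ω e Q q).card : ℝ) =
                1 / ((cls ω e Q p).card : ℝ) := by
              intro q hq
              rw [cls_congr (mem_cls.1 hq).2]
            rw [sum_congr rfl h3, sum_const, nsmul_eq_mul, mul_one_div]
            refine div_le_one_of_le₀ ?_ (by positivity)
            have h4 : cls ω e G p ⊆ cls ω e Q p := by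
              intro q hq
              rw [mem_cls] at hq ⊢
              exact ⟨(mem_filter.1 hq.1).1, hq.2⟩
            exact_mod_cast card_le_card h4
        _ = Q'.card := by rw [sum_const, nsmul_eq_mul, mul_one]
    refine le_trans (mul_le_mul_of_nonneg_left hGc (by linarith)) h2
  · -- equidistribution
    intro q hq x y
    rw [hQ', mem_filter] at hq
    rw [hcard q hq.1 hq.2.1 x y]
    have h1 := hcoarse q hq.1 hq.2.1
    exact_mod_cast h1.symm

end Pool.RAT.LEVEL

namespace Pool.RAT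

open Pool.RAT.ENT2 Pool.RAT.LEVEL

theorem stmt_LEVEL (h1 : Stmt_LEVA) : Stmt_LEVEL := by
  classical
  intro K ε B N₁ hε hB
  rcases le_or_gt 1 ε with hε1 | hε1
  · refine ⟨0, fun Q ω v hω hv hQ _ => ⟨v, ∅, hv, empty_subset _, ?_, ?_, ?_⟩⟩
    · have : (0 : ℝ) ≤ Q.card := by positivity
      rw [card_empty]; push_cast
      nlinarith
    · intro q hq; simp at hq
    · simp
  have hBR : (0 : ℝ) < B := by exact_mod_cast hB
  set δ : ℝ := ε / 8 with hδ
  have hδ0 : 0 < δ := by positivity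
  obtain ⟨M, hM1, hM⟩ := h1 K δ B hδ0 hB
  set N' : ℕ := N₁ + 1 + ⌈K * (B : ℝ) ^ 2 / δ ^ 2⌉₊ with hN'
  have hN'1 : 1 ≤ N' := by omega
  have hN'R : (1 : ℝ) ≤ N' := by exact_mod_cast hN'1
  have hN'2 : K * (B : ℝ) ^ 2 / δ ^ 2 ≤ (N' : ℝ) ^ 2 := by
    have g1 : K * (B : ℝ) ^ 2 / δ ^ 2 ≤ N' := by
      rw [hN']; push_cast
      have := Nat.le_ceil (K * (B : ℝ) ^ 2 / δ ^ 2)
      have : (0 : ℝ) ≤ N₁ := by positivity
      linarith
    nlinarith
  refine ⟨B ^ M * N', fun Q ω v hω hv hQ hc => ?_⟩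
  have hBC : (B : ℂ) ≠ 0 := by exact_mod_cast (show B ≠ 0 by omega)
  have hBM : 0 < B ^ M := Nat.pow_pos hB
  have hc1 : (Q + box ω v (B ^ M)).card ≤ K * Q.card := by
    refine le_trans (card_le_card (add_subset_add_left ?_)) hc
    have := box_sub (ω := ω) (v := v) 1 (B ^ M) (B ^ M * N') (fun i hi => by nlinarith)
    simpa using this
  obtain ⟨l, hl, hbad⟩ := hM Q ω v hω hv hQ hc1
  set e : ℂ := (B : ℂ) ^ l * v with he_def
  have he : e ≠ 0 := mul_ne_zero (pow_ne_zero _ hBC) hv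
  have hBl : B ^ l ≤ B ^ M := Nat.pow_le_pow_right hB hl.le
  have hBl1 : B ^ (l + 1) ≤ B ^ M := Nat.pow_le_pow_right hB hl
  have hc2 : (Q + box ω e N').card ≤ K * Q.card := by
    refine le_trans (card_le_card (add_subset_add_left ?_)) hc
    have := box_sub (ω := ω) (v := v) (B ^ l) N' (B ^ M * N')
      (fun i hi => lt_of_le_of_lt (Nat.mul_le_mul_right i hBl)
        (Nat.mul_lt_mul_of_pos_left hi hBM))
    rw [he_def]
    push_cast at this
    exact this
  have hc3 : (Q + box ω (B * e) N₁).card ≤ K * Q.card := by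
    refine le_trans (card_le_card (add_subset_add_left ?_)) hc
    have := box_sub (ω := ω) (v := v) (B ^ (l + 1)) N₁ (B ^ M * N')
      (fun i hi => lt_of_le_of_lt (Nat.mul_le_mul_right i hBl1)
        (Nat.mul_lt_mul_of_pos_left (by omega) hBM))
    rw [he_def]
    push_cast at this
    rw [show (B : ℂ) * ((B : ℂ) ^ l * v) = (B : ℂ) ^ (l + 1) * v by ring]
    exact this
  -- small classes
  set Sm : Finset ℂ := Q.filter (fun q => ((cls ω e Q q).card : ℝ) < (B : ℝ) ^ 2 / δ) with hSm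
  have hSmc : (Sm.card : ℝ) ≤ δ * Q.card := by
    have g1 := inv_sum (Q := Q) hω he N'
    have g2 : ((Q + box ω e N').card : ℝ) ≤ K * Q.card := by exact_mod_cast hc2
    have g3 : (Sm.card : ℝ) ≤ (B : ℝ) ^ 2 / δ * ∑ q ∈ Q, 1 / ((cls ω e Q q).card : ℝ) := by
      calc (Sm.card : ℝ) = ∑ q ∈ Sm, (1 : ℝ) := by rw [sum_const, nsmul_eq_mul, mul_one]
        _ ≤ ∑ q ∈ Sm, (B : ℝ) ^ 2 / δ * (1 / ((cls ω e Q q).card : ℝ)) := by
            refine sum_le_sum fun q hq => ?_
            rw [hSm, mem_filter] at hq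
            have p1 : (0 : ℝ) < (cls ω e Q q).card := by exact_mod_cast cls_pos hq.1
            rw [mul_one_div, le_div_iff₀ p1, one_mul]
            exact hq.2.le
        _ ≤ ∑ q ∈ Q, (B : ℝ) ^ 2 / δ * (1 / ((cls ω e Q q).card : ℝ)) :=
            sum_le_sum_of_subset_of_nonneg (filter_subset _ _) fun q _ _ => by positivity
        _ = _ := by rw [mul_sum]
    have g4 : K * (B : ℝ) ^ 2 ≤ δ ^ 2 * (N' : ℝ) ^ 2 := by
      rw [div_le_iff₀ (by positivity)] at hN'2
      linarith
    set T : ℝ := ∑ q ∈ Q, 1 / ((cls ω e Q q).card : ℝ) with hT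
    have hT0 : 0 ≤ T := sum_nonneg fun q _ => by positivity
    have g5 : (N' : ℝ) ^ 2 * T ≤ K * Q.card := g1.trans g2
    have g6 : (N' : ℝ) ^ 2 * ((B : ℝ) ^ 2 / δ * T) ≤ (N' : ℝ) ^ 2 * (δ * Q.card) := by
      calc (N' : ℝ) ^ 2 * ((B : ℝ) ^ 2 / δ * T) = (B : ℝ) ^ 2 / δ * ((N' : ℝ) ^ 2 * T) := by ring
        _ ≤ (B : ℝ) ^ 2 / δ * (K * Q.card) := mul_le_mul_of_nonneg_left g5 (by positivity)
        _ = (K * (B : ℝ) ^ 2) * (Q.card / δ) := by ring
        _ ≤ (δ ^ 2 * (N' : ℝ) ^ 2) * (Q.card / δ) :=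
            mul_le_mul_of_nonneg_right g4 (by positivity)
        _ = (N' : ℝ) ^ 2 * (δ * Q.card) := by field_simp
    exact g3.trans (le_of_mul_le_mul_left g6 (by positivity))
  have hBad2 : ((Q.filter (fun q => ¬ Good ω e B Q δ q)).card : ℝ) ≤ 2 * δ * Q.card := by
    set Bad : Finset ℂ := Q.filter (fun q => ∃ x ∈ range B, ∃ y ∈ range B,
      (B : ℝ) ^ 2 * (cls ω (B * e) Q (q + (x + y * ω) * e)).card <
        (1 - δ) * (cls ω e Q q).card) with hBad
    have g1 : Q.filter (fun q => ¬ Good ω e B Q δ q) ⊆ Bad ∪ Sm := by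
      intro q hq
      rw [mem_filter] at hq
      rw [mem_union]
      by_contra hcon
      rw [not_or] at hcon
      apply hq.2
      constructor
      · intro x y
        by_contra hlt
        rw [not_le] at hlt
        apply hcon.1
        rw [hBad, mem_filter]
        have hBz : (0 : ℤ) < B := by exact_mod_cast hB
        have hx := Int.emod_lt_of_pos x hBz
        have hy := Int.emod_lt_of_pos y hBz
        have hx0 := Int.emod_nonneg x hBz.ne'
        have hy0 := Int.emod_nonneg y hBz.ne'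
        refine ⟨hq.1, (x % B).toNat, mem_range.2 (by omega), (y % B).toNat,
          mem_range.2 (by omega), ?_⟩
        have ex : (((x % B).toNat : ℕ) : ℂ) = x - B * ((x / B : ℤ) : ℂ) := by
          have h3 : (((x % B).toNat : ℕ) : ℤ) = x - B * (x / B) := by
            rw [Int.toNat_of_nonneg hx0, Int.emod_def]
          have h4 : ((((x % B).toNat : ℕ) : ℤ) : ℂ) = ((x - B * (x / B) : ℤ) : ℂ) := by rw [h3]
          push_cast at h4 ⊢
          exact h4
        have ey : (((y % B).toNat : ℕ) : ℂ) = y - B * ((y / B : ℤ) : ℂ) := by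
          have h3 : (((y % B).toNat : ℕ) : ℤ) = y - B * (y / B) := by
            rw [Int.toNat_of_nonneg hy0, Int.emod_def]
          have h4 : ((((y % B).toNat : ℕ) : ℤ) : ℂ) = ((y - B * (y / B) : ℤ) : ℂ) := by rw [h3]
          push_cast at h4 ⊢
          exact h4
        have hcl : cls ω (B * e) Q (q + ((((x % B).toNat : ℕ) : ℂ) +
            (((y % B).toNat : ℕ) : ℂ) * ω) * e) = cls ω (B * e) Q (q + (x + y * ω) * e) := by
          apply cls_congr
          refine ⟨-(x / B), -(y / B), ?_⟩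
          rw [ex, ey, div_eq_iff (mul_ne_zero hBC he)]
          push_cast; ring
        rw [hcl]
        exact hlt
      · by_contra hlt
        rw [not_le] at hlt
        apply hcon.2
        rw [hSm, mem_filter]
        exact ⟨hq.1, hlt⟩
    have g2 : ((Bad ∪ Sm).card : ℝ) ≤ Bad.card + Sm.card := by exact_mod_cast card_union_le _ _
    have g3 := card_le_card g1
    have g4 : ((Q.filter (fun q => ¬ Good ω e B Q δ q)).card : ℝ) ≤ (Bad ∪ Sm).card := by
      exact_mod_cast g3
    have g5 : (Bad.card : ℝ) ≤ δ * Q.card := hbad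
    linarith
  obtain ⟨Q', hQ', hQc, hE⟩ := main hω he hB hδ0 (by rw [hδ]; linarith) hBad2
  refine ⟨e, Q', he, hQ', ?_, hE, ?_⟩
  · refine le_trans ?_ hQc
    have g0 : (0 : ℝ) ≤ Q.card := by positivity
    have e1 : (1 - 2 * δ) * ((Q.card : ℝ) - 2 * δ * Q.card) = (1 - 2 * δ) ^ 2 * Q.card := by ring
    rw [e1]
    refine mul_le_mul_of_nonneg_right ?_ g0
    rw [hδ]; nlinarith
  · exact le_trans (card_le_card (add_subset_add_right hQ')) hc3

end Pool.RAT
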