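import Pool.Agent.Work.MP_dc37f8_rat.Interface

/-!
# MP_dc37f8_co, block LONG: an approximate group contains long progressions (helper45)

The multiples `j p`, `p ∈ D`, are in few translates of `D`. Two points of `D` with the same
translates have a difference `v` all of whose multiples `j v`, `|j| ≤ N`, are in `D + D`.
-/

set_option autoImplicit false

open Finset

namespace Pool.RAT

open Pool.BK Pool.BD Pool.RF

open scoped Pointwise

namespace LONG

/-- the multiples `j p`, `p ∈ D`, are in few translates of `D` -/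
theorem mult (K : ℕ) (D X : Finset ℂ) (h0 : (0 : ℂ) ∈ D) (hX : X.card ≤ K)
    (hD : D + D ⊆ X + D) (j : ℕ) :
    ∃ Y : Finset ℂ, Y.card ≤ K ^ j ∧ ∀ p ∈ D, (j : ℂ) * p ∈ Y + D := by
  induction j with
  | zero =>
    refine ⟨{0}, by simp, ?_⟩
    intro p _
    have h1 : ((0 : ℕ) : ℂ) * p = 0 + 0 := by simp
    rw [h1]
    exact Finset.add_mem_add (Finset.mem_singleton_self 0) h0
  | succ j ih =>
    obtain ⟨Y, hY, hp⟩ := ih
    refine ⟨Y + X, ?_, ?_⟩
    · calc (Y + X).card ≤ Y.card * X.card := Finset.card_add_le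
        _ ≤ K ^ j * K := Nat.mul_le_mul hY hX
        _ = K ^ (j + 1) := (pow_succ K j).symm
    · intro p hpD
      obtain ⟨y, hy, d, hd, hyd⟩ := Finset.mem_add.1 (hp p hpD)
      have h1 : d + p ∈ X + D := hD (Finset.add_mem_add hd hpD)
      obtain ⟨x, hx, e, he, hxe⟩ := Finset.mem_add.1 h1
      have h2 : ((j + 1 : ℕ) : ℂ) * p = (y + x) + e := by
        have h3 : ((j + 1 : ℕ) : ℂ) * p = (j : ℂ) * p + p := by push_cast; ring
        rw [h3, ← hyd, add_assoc, add_assoc, hxe]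
      rw [h2]
      exact Finset.add_mem_add (Finset.add_mem_add hy hx) he

end LONG

theorem stmt_LONG : Stmt_LONG := by
  intro K N
  refine ⟨(∏ j : Fin (N + 1), K ^ (j : ℕ)) + 1, ?_⟩
  intro D X hn h0 hneg hX hD
  choose Y hY hp using fun j : ℕ => LONG.mult K D X h0 hX hD j
  have hsub : ∀ a ∈ D, -a ∈ D := by
    intro a ha
    rw [← hneg]
    exact Finset.neg_mem_neg ha
  -- labels
  have hlab : ∀ p : ℂ, ∃ f : Fin (N + 1) → ℂ, p ∈ D →
      ∀ j : Fin (N + 1), f j ∈ Y j ∧ ((j : ℕ) : ℂ) * p - f j ∈ D := by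
    intro p
    by_cases hpD : p ∈ D
    · have h1 : ∀ j : Fin (N + 1), ∃ x : ℂ, x ∈ Y j ∧ ((j : ℕ) : ℂ) * p - x ∈ D := by
        intro j
        obtain ⟨y, hy, d, hd, hyd⟩ := Finset.mem_add.1 (hp j p hpD)
        refine ⟨y, hy, ?_⟩
        have h2 : ((j : ℕ) : ℂ) * p - y = d := by rw [← hyd]; ring
        rw [h2]
        exact hd
      choose f hf using h1
      exact ⟨f, fun _ => hf⟩
    · exact ⟨fun _ => 0, fun h => absurd h hpD⟩
  choose F hF using hlab
  have hcard : (Fintype.piFinset (fun j : Fin (N + 1) => Y j)).card < D.card := by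
    rw [Fintype.card_piFinset]
    calc ∏ j : Fin (N + 1), (Y j).card ≤ ∏ j : Fin (N + 1), K ^ (j : ℕ) :=
          Finset.prod_le_prod' (fun j _ => hY j)
      _ < D.card := hn
  have hmaps : ∀ p ∈ D, F p ∈ Fintype.piFinset (fun j : Fin (N + 1) => Y j) := by
    intro p hpD
    rw [Fintype.mem_piFinset]
    intro j
    exact (hF p hpD j).1
  obtain ⟨p, hpD, q, hqD, hpq, hFpq⟩ :=
    Finset.exists_ne_map_eq_of_card_lt_of_maps_to hcard hmaps
  refine ⟨p - q, sub_ne_zero.2 hpq, ?_⟩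
  have key : ∀ n : ℕ, n ≤ N → ((n : ℂ) * (p - q) ∈ D + D ∧ -((n : ℂ) * (p - q)) ∈ D + D) := by
    intro n hn'
    have hlt : n < N + 1 := Nat.lt_succ_of_le hn'
    have h1 := (hF p hpD ⟨n, hlt⟩).2
    have h2 := (hF q hqD ⟨n, hlt⟩).2
    rw [← hFpq] at h2
    simp only at h1 h2
    constructor
    · have h3 : (n : ℂ) * (p - q) =
          ((n : ℂ) * p - F p ⟨n, hlt⟩) + -((n : ℂ) * q - F p ⟨n, hlt⟩) := by ring
      rw [h3]
      exact Finset.add_mem_add h1 (hsub _ h2)
    · have h3 : -((n : ℂ) * (p - q)) =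
          ((n : ℂ) * q - F p ⟨n, hlt⟩) + -((n : ℂ) * p - F p ⟨n, hlt⟩) := by ring
      rw [h3]
      exact Finset.add_mem_add h2 (hsub _ h1)
  intro j hj
  obtain ⟨n, hn' | hn'⟩ := Int.eq_nat_or_neg j
  · subst hn'
    have h4 : n ≤ N := by
      rw [Nat.abs_cast] at hj
      exact_mod_cast hj
    rw [Int.cast_natCast]
    exact (key n h4).1
  · subst hn'
    have h4 : n ≤ N := by
      rw [abs_neg, Nat.abs_cast] at hj
      exact_mod_cast hj
    have h5 : ((-(n : ℤ) : ℤ) : ℂ) * (p - q) = -((n : ℂ) * (p - q)) := by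
      push_cast; ring
    rw [h5]
    exact (key n h4).2

end Pool.RAT
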