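import Pool.Agent.Work.MP_dc37f8_rat.Interface

/-!
# MP_dc37f8_co, block PATH (helper88)

Brunn-Minkowski for finite sets in the plane which lie on `p` and `q` horizontal lines.
-/

set_option autoImplicit false
set_option maxHeartbeats 4000000

open Finset

open scoped Pointwise

namespace Pool.RAT.PATH

open Classical in
/-- the case of one line -/
lemma line (X C : Finset ℂ) (a b : ℝ) (hX : X.Nonempty) (hC : C.Nonempty)
    (h1 : ∀ x ∈ X, x.im = a) (h2 : ∀ c ∈ C, c.im = b) :
    X.card + C.card ≤ (X - C).card + 1 := by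
  have e1 : (X.image Complex.re).card = X.card := by
    apply Finset.card_image_of_injOn
    intro x hx y hy hxy
    exact Complex.ext hxy ((h1 x hx).trans (h1 y hy).symm)
  have e2 : (C.image (fun c => -c.re)).card = C.card := by
    apply Finset.card_image_of_injOn
    intro x hx y hy hxy
    have hxy' : x.re = y.re := neg_injective hxy
    exact Complex.ext hxy' ((h2 x hx).trans (h2 y hy).symm)
  have e3 : X.image Complex.re + C.image (fun c => -c.re) ⊆ (X - C).image Complex.re := by
    intro z hz
    obtain ⟨u, hu, v, hv, rfl⟩ := Finset.mem_add.1 hz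
    obtain ⟨x, hx, rfl⟩ := Finset.mem_image.1 hu
    obtain ⟨c, hc, rfl⟩ := Finset.mem_image.1 hv
    refine Finset.mem_image.2 ⟨x - c, Finset.sub_mem_sub hx hc, ?_⟩
    simp [sub_eq_add_neg]
  have e4 := Finset.card_le_card e3
  have e5 : ((X - C).image Complex.re).card ≤ (X - C).card := Finset.card_image_le
  have e6 := cauchy_davenport_add_of_linearOrder_isCancelAdd (hX.image Complex.re)
    (hC.image (fun c : ℂ => -c.re))
  rw [e1, e2] at e6
  omega

open Classical in
/-- the highest row of `X - C` -/
lemma top (X C Xt Cb Z : Finset ℂ) (M m : ℝ) (hX : Xt ⊆ X) (hC : Cb ⊆ C) (hZ : Z ⊆ X - C)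
    (hXt : Xt.Nonempty) (hCb : Cb.Nonempty) (h1 : ∀ x ∈ Xt, x.im = M) (h2 : ∀ c ∈ Cb, c.im = m)
    (h3 : ∀ z ∈ Z, z.im ≠ M - m) :
    (Xt.card : ℝ) + Cb.card - 1 + Z.card ≤ ((X - C).card : ℝ) := by
  have e1 := line Xt Cb M m hXt hCb h1 h2
  have e2 : Disjoint (Xt - Cb) Z := by
    rw [Finset.disjoint_left]
    intro z hz hz'
    obtain ⟨x, hx, c, hc, rfl⟩ := Finset.mem_sub.1 hz
    apply h3 _ hz'
    rw [Complex.sub_im, h1 x hx, h2 c hc]
  have e3 : (Xt - Cb) ∪ Z ⊆ X - C := Finset.union_subset (Finset.sub_subset_sub hX hC) hZ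
  have e4 := Finset.card_le_card e3
  rw [Finset.card_union_of_disjoint e2] at e4
  have e5 : ((Xt.card + Cb.card : ℕ) : ℝ) ≤ (((Xt - Cb).card + 1 : ℕ) : ℝ) := by exact_mod_cast e1
  have e6 : (((Xt - Cb).card + Z.card : ℕ) : ℝ) ≤ ((X - C).card : ℝ) := by exact_mod_cast e4
  push_cast at e5 e6
  linarith

open Classical in
lemma main (n : ℕ) : ∀ X C : Finset ℂ, X.Nonempty → C.Nonempty →
    (X.image Complex.im).card + (C.image Complex.im).card ≤ n →
    (((X.image Complex.im).card : ℝ) + (C.image Complex.im).card - 1) *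
      ((X.card : ℝ) / (X.image Complex.im).card + (C.card : ℝ) / (C.image Complex.im).card - 1) ≤
      ((X - C).card : ℝ) := by
  induction n with
  | zero =>
    intro X C hX hC h
    have := (hX.image Complex.im).card_pos
    omega
  | succ n ih =>
    intro X C hX hC h
    have hXi : (X.image Complex.im).Nonempty := hX.image _
    have hCi : (C.image Complex.im).Nonempty := hC.image _
    set M : ℝ := (X.image Complex.im).max' hXi with hM
    set m : ℝ := (C.image Complex.im).min' hCi with hm
    have hMmem : M ∈ X.image Complex.im := Finset.max'_mem _ _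
    have hmmem : m ∈ C.image Complex.im := Finset.min'_mem _ _
    have hMle : ∀ x ∈ X, x.im ≤ M := fun x hx =>
      Finset.le_max' _ _ (Finset.mem_image_of_mem _ hx)
    have hmle : ∀ c ∈ C, m ≤ c.im := fun c hc =>
      Finset.min'_le _ _ (Finset.mem_image_of_mem _ hc)
    set Xt := X.filter (fun x => x.im = M) with hXt
    set X' := X.filter (fun x => ¬ x.im = M) with hX'
    set Cb := C.filter (fun x => x.im = m) with hCb
    set C' := C.filter (fun x => ¬ x.im = m) with hC'
    have cX : Xt.card + X'.card = X.card := Finset.card_filter_add_card_filter_not _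
    have cC : Cb.card + C'.card = C.card := Finset.card_filter_add_card_filter_not _
    have iX : X'.image Complex.im = (X.image Complex.im).erase M := by
      ext y
      simp only [hX', Finset.mem_image, Finset.mem_filter, Finset.mem_erase]
      constructor
      · rintro ⟨x, ⟨hx, hne⟩, rfl⟩
        exact ⟨hne, x, hx, rfl⟩
      · rintro ⟨hne, x, hx, rfl⟩
        exact ⟨x, ⟨hx, hne⟩, rfl⟩
    have iC : C'.image Complex.im = (C.image Complex.im).erase m := by
      ext y
      simp only [hC', Finset.mem_image, Finset.mem_filter, Finset.mem_erase]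
      constructor
      · rintro ⟨x, ⟨hx, hne⟩, rfl⟩
        exact ⟨hne, x, hx, rfl⟩
      · rintro ⟨hne, x, hx, rfl⟩
        exact ⟨x, ⟨hx, hne⟩, rfl⟩
    have pX : (X'.image Complex.im).card + 1 = (X.image Complex.im).card := by
      rw [iX]; exact Finset.card_erase_add_one hMmem
    have pC : (C'.image Complex.im).card + 1 = (C.image Complex.im).card := by
      rw [iC]; exact Finset.card_erase_add_one hmmem
    have nXt : Xt.Nonempty := by
      obtain ⟨x, hx, hxM⟩ := Finset.mem_image.1 hMmem
      exact ⟨x, Finset.mem_filter.2 ⟨hx, hxM⟩⟩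
    have nCb : Cb.Nonempty := by
      obtain ⟨x, hx, hxM⟩ := Finset.mem_image.1 hmmem
      exact ⟨x, Finset.mem_filter.2 ⟨hx, hxM⟩⟩
    have hA : (Xt.card : ℝ) + Cb.card - 1 + (X' - C).card ≤ ((X - C).card : ℝ) := by
      apply top X C Xt Cb (X' - C) M m (Finset.filter_subset _ _) (Finset.filter_subset _ _)
        (Finset.sub_subset_sub_right (Finset.filter_subset _ _)) nXt nCb
        (fun x hx => (Finset.mem_filter.1 hx).2) (fun x hx => (Finset.mem_filter.1 hx).2)
      intro z hz
      obtain ⟨x, hx, c, hc, rfl⟩ := Finset.mem_sub.1 hz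
      have h1 := (Finset.mem_filter.1 hx)
      have h2 := lt_of_le_of_ne (hMle x h1.1) h1.2
      have h3 := hmle c hc
      rw [Complex.sub_im]
      intro h4
      linarith
    have hB : (Xt.card : ℝ) + Cb.card - 1 + (X - C').card ≤ ((X - C).card : ℝ) := by
      apply top X C Xt Cb (X - C') M m (Finset.filter_subset _ _) (Finset.filter_subset _ _)
        (Finset.sub_subset_sub_left (Finset.filter_subset _ _)) nXt nCb
        (fun x hx => (Finset.mem_filter.1 hx).2) (fun x hx => (Finset.mem_filter.1 hx).2)
      intro z hz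
      obtain ⟨x, hx, c, hc, rfl⟩ := Finset.mem_sub.1 hz
      have h1 := (Finset.mem_filter.1 hc)
      have h2 := lt_of_le_of_ne (hmle c h1.1) (Ne.symm h1.2)
      have h3 := hMle x hx
      rw [Complex.sub_im]
      intro h4
      linarith
    have cXr : (Xt.card : ℝ) + X'.card = X.card := by exact_mod_cast cX
    have cCr : (Cb.card : ℝ) + C'.card = C.card := by exact_mod_cast cC
    obtain ⟨p, hp⟩ : ∃ p : ℕ, (X'.image Complex.im).card = p := ⟨_, rfl⟩
    obtain ⟨q, hq⟩ : ∃ q : ℕ, (C'.image Complex.im).card = q := ⟨_, rfl⟩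
    have hp1 : (X.image Complex.im).card = p + 1 := by omega
    have hq1 : (C.image Complex.im).card = q + 1 := by omega
    have IH1 : p ≠ 0 → ((p : ℝ) + (q + 1) - 1) * ((X'.card : ℝ) / p + (C.card : ℝ) / (q + 1) - 1) ≤
        ((X' - C).card : ℝ) := by
      intro hp0
      have hne : X'.Nonempty := by
        rw [← Finset.image_nonempty (f := Complex.im), ← Finset.card_pos]
        omega
      have := ih X' C hne hC (by omega)
      rw [hp, hq1] at this
      push_cast at this
      exact this
    have IH2 : q ≠ 0 → (((p : ℝ) + 1) + q - 1) * ((X.card : ℝ) / (p + 1) + (C'.card : ℝ) / q - 1) ≤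
        ((X - C').card : ℝ) := by
      intro hq0
      have hne : C'.Nonempty := by
        rw [← Finset.image_nonempty (f := Complex.im), ← Finset.card_pos]
        omega
      have := ih X C' hX hne (by omega)
      rw [hp1, hq] at this
      push_cast at this
      exact this
    have hx0 : p = 0 → X'.card = 0 := by
      intro h0
      rw [Finset.card_eq_zero, ← Finset.image_eq_empty (f := Complex.im), ← Finset.card_eq_zero]
      omega
    have hc0 : q = 0 → C'.card = 0 := by
      intro h0
      rw [Finset.card_eq_zero, ← Finset.image_eq_empty (f := Complex.im), ← Finset.card_eq_zero]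
      omega
    rw [hp1, hq1]
    push_cast
    generalize ((X - C).card : ℝ) = T at hA hB ⊢
    have hAn : (0 : ℝ) ≤ ((X' - C).card : ℝ) := Nat.cast_nonneg _
    have hBn : (0 : ℝ) ≤ ((X - C').card : ℝ) := Nat.cast_nonneg _
    generalize ((X' - C).card : ℝ) = A at hA hAn IH1
    generalize ((X - C').card : ℝ) = B at hB hBn IH2
    rcases Nat.eq_zero_or_pos p with hp0 | hp0
    · have hx0' : (X'.card : ℝ) = 0 := by exact_mod_cast hx0 hp0
      subst hp0
      rcases Nat.eq_zero_or_pos q with hq0 | hq0
      · have hc0' : (C'.card : ℝ) = 0 := by exact_mod_cast hc0 hq0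
        subst hq0
        simp only [Nat.cast_zero, zero_add, div_one]
        linarith
      · have h2 := IH2 (by omega)
        have hqr : (0 : ℝ) < q := by exact_mod_cast hq0
        have e1 : (((0 : ℕ) : ℝ) + 1 + q - 1) *
            ((X.card : ℝ) / (((0 : ℕ) : ℝ) + 1) + (C'.card : ℝ) / q - 1) =
            q * (X.card - 1) + C'.card := by
          field_simp
          push_cast
          ring
        have e2 : (((0 : ℕ) : ℝ) + 1 + (q + 1) - 1) *
            ((X.card : ℝ) / (((0 : ℕ) : ℝ) + 1) + (C.card : ℝ) / (q + 1) - 1) =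
            (q + 1) * (X.card - 1) + C.card := by
          field_simp
          push_cast
          ring
        rw [e1] at h2
        rw [e2]
        nlinarith
    · have hpr : (0 : ℝ) < p := by exact_mod_cast hp0
      have h1 := IH1 (by omega)
      have e1 : ((p : ℝ) + (q + 1) - 1) * ((X'.card : ℝ) / p + (C.card : ℝ) / (q + 1) - 1) * p =
          (p + q) * (X'.card + p * (C.card / (q + 1) - 1)) := by
        field_simp
        ring
      have h1' : ((p : ℝ) + q) * (X'.card + p * (C.card / (q + 1) - 1)) ≤ A * p := by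
        rw [← e1]
        exact mul_le_mul_of_nonneg_right h1 hpr.le
      have h2' : ((p : ℝ) + q) * (C'.card + q * (X.card / (p + 1) - 1)) ≤ B * q := by
        rcases Nat.eq_zero_or_pos q with hq0 | hq0
        · have hc0' : (C'.card : ℝ) = 0 := by exact_mod_cast hc0 hq0
          subst hq0
          rw [hc0']
          simp
        · have hqr : (0 : ℝ) < q := by exact_mod_cast hq0
          have h2 := IH2 (by omega)
          have e2 : ((p : ℝ) + 1 + q - 1) * ((X.card : ℝ) / (p + 1) + (C'.card : ℝ) / q - 1) * q =
              (p + q) * (C'.card + q * (X.card / (p + 1) - 1)) := by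
            field_simp
            ring
          rw [← e2]
          exact mul_le_mul_of_nonneg_right h2 hqr.le
      have hqr : (0 : ℝ) ≤ q := Nat.cast_nonneg _
      have hpq : (0 : ℝ) < (p : ℝ) + q := by linarith
      have hA' := mul_le_mul_of_nonneg_right hA hpr.le
      have hB' := mul_le_mul_of_nonneg_right hB hqr
      have key : ((p : ℝ) + q) * ((((p : ℝ) + 1) + (q + 1) - 1) *
          ((X.card : ℝ) / (p + 1) + (C.card : ℝ) / (q + 1) - 1)) ≤ (p + q) * T := by
        have e3 : (((p : ℝ) + 1) + (q + 1) - 1) *
          ((X.card : ℝ) / (p + 1) + (C.card : ℝ) / (q + 1) - 1) =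
          (Xt.card + Cb.card - 1) + (X'.card + p * (C.card / (q + 1) - 1)) +
            (C'.card + q * (X.card / (p + 1) - 1)) := by
          rw [← cXr, ← cCr]
          field_simp
          ring
        rw [e3]
        nlinarith
      exact le_of_mul_le_mul_left key hpq

end Pool.RAT.PATH

namespace Pool.RAT

theorem stmt_PATH : Stmt_PATH := by
  intro X C hX hC
  exact PATH.main _ X C hX hC le_rfl

end Pool.RAT
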