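import Pool.Agent.Work.MP_dc37f8_rat.Interface

/-!
# Block POLY (helper66)
-/

set_option autoImplicit false

namespace Pool.RAT

namespace POLY

theorem one_var (t : ℝ) (ht : 0 ≤ t) :
    7805 / 1000 * t ^ 4 ≤ 1 + 4 * t ^ 6 + 2 * Real.sqrt 2 * t ^ 3 := by
  have h2 : (141421 / 100000 : ℝ) ≤ Real.sqrt 2 := by
    apply Real.le_sqrt_of_sq_le
    norm_num
  have h3 : (0 : ℝ) ≤ t ^ 3 := by positivity
  have h4 : 2 * (141421 / 100000 : ℝ) * t ^ 3 ≤ 2 * Real.sqrt 2 * t ^ 3 := by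
    apply mul_le_mul_of_nonneg_right _ h3
    linarith
  have hq : 0 ≤ (t - 967 / 1000) ^ 2 *
      (4 * t ^ 4 + 7736 / 1000 * t ^ 3 + 3416 / 1000 * t ^ 2 + 22 / 10 * t + 106 / 100) := by
    positivity
  have hr : 0 ≤ (t - 967 / 1000) ^ 2 * (1 / 1000 * t) := by positivity
  nlinarith [hq, hr, h4, sq_nonneg (t - 1443 / 1000), sq_nonneg (t * (t - 967 / 1000)), h3]

end POLY

theorem stmt_POLY : Stmt_POLY := by
  intro a b c ha hb hc
  have hab : 0 < a * b := mul_pos ha hb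
  set x : ℝ := (a * b) ^ (1 / 12 : ℝ) with hx
  set y : ℝ := c ^ (1 / 6 : ℝ) with hy
  have hx0 : 0 < x := Real.rpow_pos_of_pos hab _
  have hy0 : 0 < y := Real.rpow_pos_of_pos hc _
  have hx12 : a * b = x ^ 12 := by
    rw [hx, ← Real.rpow_natCast, ← Real.rpow_mul hab.le]
    norm_num
  have hy6 : c = y ^ 6 := by
    rw [hy, ← Real.rpow_natCast, ← Real.rpow_mul hc.le]
    norm_num
  have e1 : (a * b * c) ^ (2 / 3 : ℝ) = x ^ 8 * y ^ 4 := by
    rw [hx12, hy6, Real.mul_rpow (by positivity) (by positivity), ← Real.rpow_natCast x 12,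
      ← Real.rpow_natCast y 6, ← Real.rpow_mul hx0.le, ← Real.rpow_mul hy0.le,
      ← Real.rpow_natCast x 8, ← Real.rpow_natCast y 4]
    norm_num
  have e2 : Real.sqrt (a * b) = x ^ 6 := by
    rw [hx12, show x ^ 12 = (x ^ 6) ^ 2 by ring]
    exact Real.sqrt_sq (by positivity)
  have e3 : Real.sqrt c = y ^ 3 := by
    rw [hy6, show y ^ 6 = (y ^ 3) ^ 2 by ring]
    exact Real.sqrt_sq (by positivity)
  have e4 : (a * b) ^ (3 / 4 : ℝ) = x ^ 9 := by
    rw [hx12, ← Real.rpow_natCast x 12, ← Real.rpow_mul hx0.le, ← Real.rpow_natCast x 9]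
    norm_num
  rw [e1, e2, e3, e4, hx12, hy6]
  have h := POLY.one_var (y / x) (by positivity)
  have h2 := mul_le_mul_of_nonneg_left h (show (0 : ℝ) ≤ x ^ 12 by positivity)
  have l1 : x ^ 12 * (7805 / 1000 * (y / x) ^ 4) = 7805 / 1000 * (x ^ 8 * y ^ 4) := by
    field_simp
  have l2 : x ^ 12 * (1 + 4 * (y / x) ^ 6 + 2 * Real.sqrt 2 * (y / x) ^ 3) =
      x ^ 12 + 4 * y ^ 6 * x ^ 6 + 2 * Real.sqrt 2 * y ^ 3 * x ^ 9 := by
    field_simp
  rw [l1, l2] at h2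
  exact h2

end Pool.RAT
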