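import Pool.Agent.Work.MP_dc37f8_rat.Interface

/-!
# MP_dc37f8_co, rational cosines: block POPW (helper53)

Popular linear parts almost preserve the approximate group.
-/

set_option autoImplicit false

open Finset

namespace Pool.RAT.POPW

open Pool.BK Pool.BD Pool.RF

open scoped Pointwise

open Classical in
/-- the number of points `q` of `Q` with `w q + t` in `Q` -/
noncomputable def rr (Q : Finset ℂ) (w t : ℂ) : Finset ℂ := Q.filter (fun q => w * q + t ∈ Q)

lemma SX_le (Q : Finset ℂ) (w : ℂ) :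
    SX Q w ≤ ∑ p ∈ Q ×ˢ Q, (rr Q w (p.2 - w * p.1)).card ^ 2 := by
  classical
  unfold SX
  rw [Finset.card_eq_sum_card_fiberwise (f := fun z : (ℂ × ℂ × ℂ) × (ℂ × ℂ × ℂ) => (z.1.1, z.2.1))
    (t := Q ×ˢ Q)]
  · apply Finset.sum_le_sum
    intro p hp
    rw [pow_two, ← Finset.card_product]
    apply Finset.card_le_card_of_injOn (fun z : (ℂ × ℂ × ℂ) × (ℂ × ℂ × ℂ) => (z.1.2.1, z.1.2.2))
    · intro z hz
      simp only [Finset.coe_filter, Finset.mem_filter, Finset.mem_product, Set.mem_ofPred_eq] at hz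
      obtain ⟨⟨⟨⟨h1, h2, h3⟩, h4, h5, h6⟩, e1, e2⟩, e3⟩ := hz
      simp only [rr, Finset.coe_product, Finset.coe_filter, Set.mem_prod, Set.mem_ofPred_eq]
      have e4 : z.1.1 = p.1 := by rw [← e3]
      have e5 : z.2.1 = p.2 := by rw [← e3]
      refine ⟨⟨h2, ?_⟩, h3, ?_⟩
      · have : w * z.1.2.1 + (p.2 - w * p.1) = z.2.2.1 := by
          rw [← e4, ← e5]; linear_combination e1
        rw [this]; exact h5
      · have : w * z.1.2.2 + (p.2 - w * p.1) = z.2.2.2 := by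
          rw [← e4, ← e5]; linear_combination e2
        rw [this]; exact h6
    · intro z hz z' hz' h
      simp only [Finset.coe_filter, Finset.mem_filter, Finset.mem_product, Set.mem_ofPred_eq]
        at hz hz'
      obtain ⟨⟨-, e1, e2⟩, e3⟩ := hz
      obtain ⟨⟨-, f1, f2⟩, f3⟩ := hz'
      have a1 : z.1.1 = z'.1.1 := by
        have := e3.trans f3.symm
        exact (Prod.ext_iff.1 this).1
      have a2 : z.2.1 = z'.2.1 := by
        have := e3.trans f3.symm
        exact (Prod.ext_iff.1 this).2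
      have a3 : z.1.2.1 = z'.1.2.1 := (Prod.ext_iff.1 h).1
      have a4 : z.1.2.2 = z'.1.2.2 := (Prod.ext_iff.1 h).2
      have a5 : z.2.2.1 = z'.2.2.1 := by
        have h1 : z.2.2.1 = z.2.1 - w * (z.1.1 - z.1.2.1) := by linear_combination -e1
        have h2 : z'.2.2.1 = z'.2.1 - w * (z'.1.1 - z'.1.2.1) := by linear_combination -f1
        rw [h1, h2, a1, a2, a3]
      have a6 : z.2.2.2 = z'.2.2.2 := by
        have h1 : z.2.2.2 = z.2.1 - w * (z.1.1 - z.1.2.2) := by linear_combination -e2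
        have h2 : z'.2.2.2 = z'.2.1 - w * (z'.1.1 - z'.1.2.2) := by linear_combination -f2
        rw [h1, h2, a1, a2, a4]
      exact Prod.ext (Prod.ext a1 (Prod.ext a3 a4)) (Prod.ext a2 (Prod.ext a5 a6))
  · intro z hz
    simp only [Finset.coe_filter, Finset.mem_product, Set.mem_ofPred_eq] at hz
    simp only [Finset.coe_product, Set.mem_prod, Finset.mem_coe]
    exact ⟨hz.1.1.1, hz.1.2.1⟩

/-- some translation part is popular -/
lemma exists_pop (Q : Finset ℂ) (w : ℂ) (δ : ℝ) (hQ : Q.Nonempty)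
    (h : δ * (Q.card : ℝ) ^ 4 ≤ SX Q w) : ∃ t : ℂ, δ * (Q.card : ℝ) ≤ ((rr Q w t).card : ℝ) := by
  classical
  have h1 : ∑ p ∈ Q ×ˢ Q, δ * (Q.card : ℝ) ^ 2 ≤
      ∑ p ∈ Q ×ˢ Q, ((rr Q w (p.2 - w * p.1)).card : ℝ) ^ 2 := by
    rw [Finset.sum_const, Finset.card_product, nsmul_eq_mul]
    have h2 : ((SX Q w : ℕ) : ℝ) ≤ ∑ p ∈ Q ×ˢ Q, ((rr Q w (p.2 - w * p.1)).card : ℝ) ^ 2 := by
      exact_mod_cast SX_le Q w
    push_cast
    calc (Q.card : ℝ) * Q.card * (δ * (Q.card : ℝ) ^ 2) = δ * (Q.card : ℝ) ^ 4 := by ring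
      _ ≤ _ := h.trans h2
  obtain ⟨p, -, hp⟩ := Finset.exists_le_of_sum_le (hQ.product hQ) h1
  refine ⟨p.2 - w * p.1, ?_⟩
  have hr : ((rr Q w (p.2 - w * p.1)).card : ℝ) ≤ Q.card := by
    exact_mod_cast Finset.card_le_card (Finset.filter_subset _ _)
  have hq : (0 : ℝ) < Q.card := by exact_mod_cast hQ.card_pos
  have h3 : δ * (Q.card : ℝ) ^ 2 ≤ ((rr Q w (p.2 - w * p.1)).card : ℝ) * Q.card := by
    refine hp.trans ?_
    rw [pow_two]
    exact mul_le_mul_of_nonneg_left hr (Nat.cast_nonneg _)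
  have h4 : (δ * (Q.card : ℝ)) * Q.card ≤ ((rr Q w (p.2 - w * p.1)).card : ℝ) * Q.card := by
    calc (δ * (Q.card : ℝ)) * Q.card = δ * (Q.card : ℝ) ^ 2 := by ring
      _ ≤ _ := h3
  exact le_of_mul_le_mul_right h4 hq

/-- a large part of `D` is moved into a translate of `D` -/
lemma exists_part (K : ℕ) (D Q Y : Finset ℂ) (w t : ℂ) (hY : Y.card ≤ K) (hQY : Q ⊆ Y + D)
    (A : Finset ℂ) (hA : A ⊆ rr Q w t) (hne : A.Nonempty) :
    ∃ (D1 : Finset ℂ) (s : ℂ), D1 ⊆ D ∧ D1.Nonempty ∧ A.card ≤ K ^ 2 * D1.card ∧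
      ∀ d ∈ D1, w * d + s ∈ D := by
  classical
  have key : ∀ q ∈ A, ∃ p : ℂ × ℂ, p ∈ Y ×ˢ Y ∧ q - p.1 ∈ D ∧ w * q + t - p.2 ∈ D := by
    intro q hq
    have h1 := hA hq
    unfold rr at h1
    rw [Finset.mem_filter] at h1
    obtain ⟨y, hy, d, hd, e⟩ := Finset.mem_add.1 (hQY h1.1)
    obtain ⟨y', hy', d', hd', e'⟩ := Finset.mem_add.1 (hQY h1.2)
    refine ⟨(y, y'), Finset.mem_product.2 ⟨hy, hy'⟩, ?_, ?_⟩
    · have : q - y = d := by rw [← e]; ring
      simpa [this] using hd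
    · have : w * q + t - y' = d' := by rw [← e']; ring
      simpa [this] using hd'
  choose! f hf using key
  have hYY : (Y ×ˢ Y).card ≤ K ^ 2 := by
    rw [Finset.card_product, pow_two]; exact Nat.mul_le_mul hY hY
  have hcard : A.card = ∑ p ∈ Y ×ˢ Y, (A.filter (fun q => f q = p)).card :=
    Finset.card_eq_sum_card_fiberwise (fun q hq => (hf q hq).1)
  have hYne : (Y ×ˢ Y).Nonempty := by
    obtain ⟨q, hq⟩ := hne
    exact ⟨_, (hf q hq).1⟩
  obtain ⟨p, hp, hmax⟩ := Finset.exists_max_image (Y ×ˢ Y)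
    (fun p => (A.filter (fun q => f q = p)).card) hYne
  have hbig : A.card ≤ K ^ 2 * (A.filter (fun q => f q = p)).card := by
    calc A.card = ∑ p ∈ Y ×ˢ Y, (A.filter (fun q => f q = p)).card := hcard
      _ ≤ ∑ _p ∈ Y ×ˢ Y, (A.filter (fun q => f q = p)).card := Finset.sum_le_sum hmax
      _ = (Y ×ˢ Y).card * (A.filter (fun q => f q = p)).card := by
        rw [Finset.sum_const, smul_eq_mul]
      _ ≤ K ^ 2 * (A.filter (fun q => f q = p)).card := Nat.mul_le_mul_right _ hYY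
  have hinj : ((A.filter (fun q => f q = p)).image (fun q => q - p.1)).card =
      (A.filter (fun q => f q = p)).card :=
    Finset.card_image_of_injective _ (sub_left_injective)
  refine ⟨(A.filter (fun q => f q = p)).image (fun q => q - p.1), w * p.1 + t - p.2, ?_, ?_, ?_, ?_⟩
  · intro d hd
    obtain ⟨q, hq, rfl⟩ := Finset.mem_image.1 hd
    rw [Finset.mem_filter] at hq
    have := (hf q hq.1).2.1
    rwa [hq.2] at this
  · rw [← Finset.card_pos, hinj]
    by_contra hcon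
    have h0 : (A.filter (fun q => f q = p)).card = 0 := by omega
    rw [h0, mul_zero] at hbig
    have := hne.card_pos
    omega
  · rw [hinj]; exact hbig
  · intro d hd
    obtain ⟨q, hq, rfl⟩ := Finset.mem_image.1 hd
    rw [Finset.mem_filter] at hq
    have h2 := (hf q hq.1).2.2
    rw [hq.2] at h2
    have e : w * (q - p.1) + (w * p.1 + t - p.2) = w * q + t - p.2 := by ring
    rw [e]; exact h2

/-- Ruzsa covering -/
lemma cover (K : ℕ) (D X0 D1 : Finset ℂ) (w s : ℂ) (η : ℝ) (hη : 0 < η) (hw : w ≠ 0)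
    (h0 : 0 ∈ D) (hs : -D = D) (hX0 : X0.card ≤ K) (hDD : D + D ⊆ X0 + D) (h1 : D1 ⊆ D)
    (hbig : η * (D.card : ℝ) ≤ D1.card) (h2 : ∀ d ∈ D1, w * d + s ∈ D) :
    ∃ X : Finset ℂ, X.card ≤ ⌈(K : ℝ) ^ 2 / η⌉₊ * K ∧ D.image (fun z => w * z) ⊆ X + D := by
  classical
  have hDpos : (0 : ℝ) < D.card := by exact_mod_cast Finset.card_pos.2 ⟨0, h0⟩
  have hD1pos : (0 : ℝ) < D1.card := lt_of_lt_of_le (mul_pos hη hDpos) hbig
  have hDDc : ((D + D).card : ℝ) ≤ K * D.card := by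
    have : (D + D).card ≤ K * D.card :=
      (Finset.card_le_card hDD).trans ((Finset.card_add_le).trans (Nat.mul_le_mul_right _ hX0))
    exact_mod_cast this
  have hinj : Function.Injective (fun z : ℂ => w * z) := mul_right_injective₀ hw
  set W : Finset ℂ := D.image (fun z => w * z) with hW
  set W1 : Finset ℂ := D1.image (fun z => w * z) with hW1
  have hsub : D - D = D + D := by rw [sub_eq_add_neg, hs]
  -- the two difference sets
  have c1 : ((W - W1).card : ℝ) ≤ K * D.card := by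
    have hss : W - W1 ⊆ (D + D).image (fun z => w * z) := by
      intro z hz
      obtain ⟨a, ha, b, hb, rfl⟩ := Finset.mem_sub.1 hz
      obtain ⟨a', ha', rfl⟩ := Finset.mem_image.1 ha
      obtain ⟨b', hb', rfl⟩ := Finset.mem_image.1 hb
      refine Finset.mem_image.2 ⟨a' - b', ?_, by ring⟩
      rw [← hsub]
      exact Finset.sub_mem_sub ha' (h1 hb')
    have := (Finset.card_le_card hss).trans Finset.card_image_le
    have h' : ((W - W1).card : ℝ) ≤ ((D + D).card : ℝ) := by exact_mod_cast this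
    exact h'.trans hDDc
  have c2 : ((D - W1).card : ℝ) ≤ K * D.card := by
    have hss : D - W1 ⊆ (D + D).image (fun z => z + s) := by
      intro z hz
      obtain ⟨a, ha, b, hb, rfl⟩ := Finset.mem_sub.1 hz
      obtain ⟨b', hb', rfl⟩ := Finset.mem_image.1 hb
      refine Finset.mem_image.2 ⟨a - (w * b' + s), ?_, by ring⟩
      rw [← hsub]
      exact Finset.sub_mem_sub ha (h2 b' hb')
    have := (Finset.card_le_card hss).trans Finset.card_image_le
    have h' : ((D - W1).card : ℝ) ≤ ((D + D).card : ℝ) := by exact_mod_cast this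
    exact h'.trans hDDc
  have hW1c : W1.card = D1.card := Finset.card_image_of_injective _ hinj
  have hWne : D.Nonempty := ⟨0, h0⟩
  have tri := Finset.ruzsa_triangle_inequality_sub_sub_sub W W1 D
  rw [hW1c] at tri
  have tri' : ((W - D).card : ℝ) * D1.card ≤ (W - W1).card * (D - W1).card := by
    exact_mod_cast tri
  have hWD : ((W + D).card : ℝ) ≤ ((K : ℝ) ^ 2 / η) * D.card := by
    have e : W + D = W - D := by rw [sub_eq_add_neg, hs]
    rw [e]
    have s1 : ((W - D).card : ℝ) * (η * D.card) ≤ (K * D.card) * (K * D.card) := by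
      calc ((W - D).card : ℝ) * (η * D.card) ≤ ((W - D).card : ℝ) * D1.card :=
            mul_le_mul_of_nonneg_left hbig (Nat.cast_nonneg _)
        _ ≤ (W - W1).card * (D - W1).card := tri'
        _ ≤ (K * D.card) * (K * D.card) :=
            mul_le_mul c1 c2 (Nat.cast_nonneg _) (by positivity)
    have s2 : (((W - D).card : ℝ) * η) * D.card ≤ ((K : ℝ) ^ 2 * D.card) * D.card := by
      calc (((W - D).card : ℝ) * η) * D.card = ((W - D).card : ℝ) * (η * D.card) := by ring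
        _ ≤ (K * D.card) * (K * D.card) := s1
        _ = ((K : ℝ) ^ 2 * D.card) * D.card := by ring
    have s3 := le_of_mul_le_mul_right s2 hDpos
    calc ((W - D).card : ℝ) = (((W - D).card : ℝ) * η) / η := by field_simp
      _ ≤ ((K : ℝ) ^ 2 * D.card) / η := by gcongr
      _ = ((K : ℝ) ^ 2 / η) * D.card := by ring
  obtain ⟨F, -, hF, hcov⟩ := Finset.ruzsa_covering_add hWne hWD
  have hFc : F.card ≤ ⌈(K : ℝ) ^ 2 / η⌉₊ := by
    have : (F.card : ℝ) ≤ (⌈(K : ℝ) ^ 2 / η⌉₊ : ℝ) := hF.trans (Nat.le_ceil _)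
    exact_mod_cast this
  refine ⟨F + X0, ?_, ?_⟩
  · exact (Finset.card_add_le).trans (Nat.mul_le_mul hFc hX0)
  · calc W ⊆ F + (D - D) := hcov
      _ = F + (D + D) := by rw [hsub]
      _ ⊆ F + (X0 + D) := Finset.add_subset_add_left hDD
      _ = F + X0 + D := by rw [add_assoc]

end Pool.RAT.POPW

namespace Pool.RAT

open Pool.BK Pool.BD Pool.RF

open scoped Pointwise

theorem stmt_POPW : Stmt_POPW := by
  intro K δ hδ
  refine ⟨⌈(K : ℝ) ^ 2 / (δ / (K + 1 : ℝ) ^ 3)⌉₊ * K, ?_⟩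
  rintro D Q w hQ ⟨h0, hs, hDQ, ⟨X0, hX0, hDD⟩, Y, hY, hQY⟩ hw hpop
  obtain ⟨t, ht⟩ := POPW.exists_pop Q w δ hQ hpop
  have hq : (0 : ℝ) < Q.card := by exact_mod_cast hQ.card_pos
  have hne : (POPW.rr Q w t).Nonempty := by
    rw [← Finset.card_pos]
    have : (0 : ℝ) < ((POPW.rr Q w t).card : ℝ) := lt_of_lt_of_le (mul_pos hδ hq) ht
    exact_mod_cast this
  obtain ⟨D1, s, h1, -, hc, h2⟩ :=
    POPW.exists_part K D Q Y w t hY hQY (POPW.rr Q w t) (Finset.Subset.refl _) hne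
  refine POPW.cover K D X0 D1 w s (δ / (K + 1 : ℝ) ^ 3) (by positivity) hw h0 hs hX0 hDD h1 ?_ h2
  have k1 : (D.card : ℝ) ≤ K * Q.card := by exact_mod_cast hDQ
  have k2 : ((POPW.rr Q w t).card : ℝ) ≤ (K : ℝ) ^ 2 * D1.card := by exact_mod_cast hc
  have hK1 : (0 : ℝ) < (K + 1 : ℝ) := by positivity
  have k3 : δ * (D.card : ℝ) ≤ (K + 1 : ℝ) ^ 3 * D1.card := by
    calc δ * (D.card : ℝ) ≤ δ * (K * Q.card) := mul_le_mul_of_nonneg_left k1 hδ.le
      _ = K * (δ * Q.card) := by ring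
      _ ≤ K * ((K : ℝ) ^ 2 * D1.card) := mul_le_mul_of_nonneg_left (ht.trans k2) (Nat.cast_nonneg _)
      _ = (K : ℝ) ^ 3 * D1.card := by ring
      _ ≤ (K + 1 : ℝ) ^ 3 * D1.card := by
        gcongr
        linarith
  calc δ / (K + 1 : ℝ) ^ 3 * (D.card : ℝ) = (δ * D.card) / (K + 1 : ℝ) ^ 3 := by ring
    _ ≤ ((K + 1 : ℝ) ^ 3 * D1.card) / (K + 1 : ℝ) ^ 3 := by gcongr
    _ = D1.card := by field_simp

end Pool.RAT
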