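import Pool.Agent.Work.MP_dc37f8_rat.InterfaceL

/-!
# MP_dc37f8_co, block PROD: the product of two popular rotations (helper50)
-/

set_option autoImplicit false

open Finset
open scoped Pointwise

namespace Pool.RAT

open Pool.BK Pool.BD Pool.RF

open Classical in
/-- a popular rotation and small doubling: few differences `P - w P` -/
theorem PROD_sub (hS : Stmt_SXP) {K κ : ℝ} (hK : 0 < K) (hκ : 0 < κ) {P : Finset ℂ} {w : ℂ}
    (hP : P.Nonempty) (hD : ((P - P).card : ℝ) ≤ K * P.card) (hw : ‖w‖ = 1)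
    (h : κ * (P.card : ℝ) ^ 4 ≤ SX P w) :
    ((P - P.image (fun p => w * p)).card : ℝ) ≤ K ^ 2 / κ * P.card := by
  have hw0 : w ≠ 0 := by
    rintro rfl
    simp at hw
  have hn : (0 : ℝ) < P.card := by exact_mod_cast hP.card_pos
  obtain ⟨t, ht⟩ := hS.1 P w κ hκ hw0 h
  set B : Finset ℂ := P.filter (fun p => w * p + t ∈ P) with hB
  have hinj : Function.Injective (fun p : ℂ => w * p) := mul_right_injective₀ hw0
  have h1 := Finset.ruzsa_triangle_inequality_sub_sub_sub P (B.image (fun p => w * p))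
    (P.image (fun p => w * p))
  have h2 : (P - B.image (fun p => w * p)).card ≤ (P - P).card := by
    refine Finset.card_le_card_of_injOn (fun x => x - t) ?_ (fun x _ y _ hxy => sub_left_injective hxy)
    intro x hx
    obtain ⟨a, ha, b, hb, rfl⟩ := Finset.mem_sub.1 (Finset.mem_coe.1 hx)
    obtain ⟨c, hc, rfl⟩ := Finset.mem_image.1 hb
    refine Finset.mem_coe.2 (Finset.mem_sub.2 ⟨a, ha, w * c + t, (Finset.mem_filter.1 hc).2, ?_⟩)
    ring
  have h3 : (P.image (fun p => w * p) - B.image (fun p => w * p)).card ≤ (P - P).card := by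
    have h4 : P.image (fun p => w * p) - B.image (fun p => w * p) ⊆
        (P - P).image (fun p => w * p) := by
      intro x hx
      obtain ⟨a', ha', b', hb', rfl⟩ := Finset.mem_sub.1 hx
      obtain ⟨a, ha, rfl⟩ := Finset.mem_image.1 ha'
      obtain ⟨b, hb, rfl⟩ := Finset.mem_image.1 hb'
      exact Finset.mem_image.2 ⟨a - b, Finset.sub_mem_sub ha (Finset.mem_filter.1 hb).1, by ring⟩
    exact (Finset.card_le_card h4).trans Finset.card_image_le
  rw [Finset.card_image_of_injective _ hinj] at h1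
  have h5 : (P - P.image (fun p => w * p)).card * B.card ≤ (P - P).card * (P - P).card :=
    h1.trans (Nat.mul_le_mul h2 h3)
  have h6 : ((P - P.image (fun p => w * p)).card : ℝ) * (κ * P.card) ≤
      (K * P.card) * (K * P.card) := by
    calc ((P - P.image (fun p => w * p)).card : ℝ) * (κ * P.card) ≤
        ((P - P.image (fun p => w * p)).card : ℝ) * B.card :=
          mul_le_mul_of_nonneg_left ht (Nat.cast_nonneg _)
      _ ≤ ((P - P).card : ℝ) * (P - P).card := by exact_mod_cast h5
      _ ≤ _ := mul_le_mul hD hD (Nat.cast_nonneg _) (by positivity)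
  have h7 : ((P - P.image (fun p => w * p)).card : ℝ) ≤ (K * P.card) * (K * P.card) / (κ * P.card) :=
    (le_div_iff₀ (by positivity)).2 h6
  calc _ ≤ _ := h7
    _ = _ := by field_simp

open Classical in
theorem stmt_PROD (hS : Stmt_SXP) : Stmt_PROD := by
  intro K κ hK hκ
  refine ⟨(κ / K ^ 2) ^ 4, by positivity, ?_⟩
  intro P w w' hP hD hw hw' h h'
  have hn : (0 : ℝ) < P.card := by exact_mod_cast hP.card_pos
  have h1 := PROD_sub hS hK hκ hP hD hw h
  have h2 := PROD_sub hS hK hκ hP hD hw' h'
  have hw0 : w ≠ 0 := by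
    rintro rfl
    simp at hw
  have hw0' : w' ≠ 0 := by
    rintro rfl
    simp at hw'
  have hinj : Function.Injective (fun p : ℂ => w * p) := mul_right_injective₀ hw0
  have h3 := Finset.ruzsa_triangle_inequality_sub_sub_sub P (P.image (fun p => w * p))
    (P.image (fun p => (w * w') * p))
  have h4 : (P.image (fun p => (w * w') * p) - P.image (fun p => w * p)).card ≤
      (P - P.image (fun p => w' * p)).card := by
    have h5 : P.image (fun p => (w * w') * p) - P.image (fun p => w * p) ⊆
        (P - P.image (fun p => w' * p)).image (fun x => - (w * x)) := by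
      intro x hx
      obtain ⟨a', ha', b', hb', rfl⟩ := Finset.mem_sub.1 hx
      obtain ⟨a, ha, rfl⟩ := Finset.mem_image.1 ha'
      obtain ⟨b, hb, rfl⟩ := Finset.mem_image.1 hb'
      refine Finset.mem_image.2 ⟨b - w' * a, Finset.sub_mem_sub hb
        (Finset.mem_image_of_mem _ ha), by ring⟩
    exact (Finset.card_le_card h5).trans Finset.card_image_le
  rw [Finset.card_image_of_injective _ hinj] at h3
  have h5 : ((P - P.image (fun p => (w * w') * p)).card : ℝ) * P.card ≤
      (K ^ 2 / κ * P.card) * (K ^ 2 / κ * P.card) := by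
    calc ((P - P.image (fun p => (w * w') * p)).card : ℝ) * P.card ≤
        ((P - P.image (fun p => w * p)).card : ℝ) *
          (P.image (fun p => (w * w') * p) - P.image (fun p => w * p)).card := by
            exact_mod_cast h3
      _ ≤ ((P - P.image (fun p => w * p)).card : ℝ) * (P - P.image (fun p => w' * p)).card :=
          mul_le_mul_of_nonneg_left (by exact_mod_cast h4) (Nat.cast_nonneg _)
      _ ≤ _ := mul_le_mul h1 h2 (Nat.cast_nonneg _) (by positivity)
  have h6 : ((P - P.image (fun p => (w * w') * p)).card : ℝ) ≤ (K ^ 2 / κ) ^ 2 * P.card := by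
    have h7 : ((P - P.image (fun p => (w * w') * p)).card : ℝ) * P.card ≤
        ((K ^ 2 / κ) ^ 2 * P.card) * P.card := by
      calc _ ≤ _ := h5
        _ = _ := by ring
    exact le_of_mul_le_mul_right h7 hn
  have h7 := hS.2 P (w * w') (mul_ne_zero hw0 hw0')
  have h8 : (P.card : ℝ) ^ 6 ≤ SX P (w * w') * ((K ^ 2 / κ) ^ 2 * P.card) ^ 2 := by
    refine h7.trans (mul_le_mul_of_nonneg_left ?_ (Nat.cast_nonneg _))
    exact pow_le_pow_left₀ (Nat.cast_nonneg _) h6 2
  have h9 : (P.card : ℝ) ^ 4 * (P.card : ℝ) ^ 2 ≤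
      (SX P (w * w') * (K ^ 2 / κ) ^ 4) * (P.card : ℝ) ^ 2 := by
    calc (P.card : ℝ) ^ 4 * (P.card : ℝ) ^ 2 = (P.card : ℝ) ^ 6 := by ring
      _ ≤ _ := h8
      _ = _ := by ring
  have h10 := le_of_mul_le_mul_right h9 (by positivity)
  calc (κ / K ^ 2) ^ 4 * (P.card : ℝ) ^ 4 ≤ (κ / K ^ 2) ^ 4 * (SX P (w * w') * (K ^ 2 / κ) ^ 4) :=
        mul_le_mul_of_nonneg_left h10 (by positivity)
    _ = SX P (w * w') := by field_simp

end Pool.RAT
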