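import Pool.Agent.Work.MP_dc37f8_rat.Interface

set_option autoImplicit false
set_option linter.unusedSimpArgs false

/-! # REM: an arithmetic removal lemma from the triangle removal lemma (helper98) -/

open Finset

namespace Pool.RAT

open scoped Pointwise

namespace REM

open SimpleGraph SimpleGraph.TripartiteFromTriangles

/-- removal lemma for a set of triples which is determined by its three projections -/
theorem core {α β γ : Type*} [Fintype α] [Fintype β] [Fintype γ] [DecidableEq α] [DecidableEq β]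
    [DecidableEq γ] (t : Finset (α × β × γ))
    (hcl : ∀ a b c, (∃ c', (a, b, c') ∈ t) → (∃ b', (a, b', c) ∈ t) → (∃ a', (a', b, c) ∈ t) →
      (a, b, c) ∈ t) (ε : ℝ)
    (hcard : (t.card : ℝ) < triangleRemovalBound ε *
      ((Fintype.card α + (Fintype.card β + Fintype.card γ) : ℕ) : ℝ) ^ 3) :
    ∃ (P1 : Finset (α × β)) (P2 : Finset (β × γ)) (P3 : Finset (α × γ)),
      (P1.card : ℝ) ≤ ε * ((Fintype.card α + (Fintype.card β + Fintype.card γ) : ℕ) : ℝ) ^ 2 ∧
      (P2.card : ℝ) ≤ ε * ((Fintype.card α + (Fintype.card β + Fintype.card γ) : ℕ) : ℝ) ^ 2 ∧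
      (P3.card : ℝ) ≤ ε * ((Fintype.card α + (Fintype.card β + Fintype.card γ) : ℕ) : ℝ) ^ 2 ∧
      ∀ a b c, (a, b, c) ∈ t → (a, b) ∈ P1 ∨ (b, c) ∈ P2 ∨ (a, c) ∈ P3 := by
  classical
  have hN : Fintype.card (α ⊕ β ⊕ γ) = Fintype.card α + (Fintype.card β + Fintype.card γ) := by
    rw [Fintype.card_sum, Fintype.card_sum]
  have htri : ((graph t).cliqueFinset 3).card ≤ t.card := by
    have hsub : (graph t).cliqueFinset 3 ⊆ t.map toTriangle := by
      intro s hs
      rw [mem_cliqueFinset_iff, is3Clique_iff] at hs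
      obtain ⟨x, y, z, hxy, hxz, hyz, rfl⟩ := hs
      obtain ⟨a, b, c, habc, hab, hac, hbc⟩ := graph_triple hxy hxz hyz
      rw [Finset.mem_map]
      exact ⟨(a, b, c), hcl a b c (Graph.in₀₁_iff.1 hab) (Graph.in₀₂_iff.1 hac)
        (Graph.in₁₂_iff.1 hbc), habc⟩
    calc ((graph t).cliqueFinset 3).card ≤ (t.map toTriangle).card := card_le_card hsub
      _ = t.card := card_map _
  have h1 : (((graph t).cliqueFinset 3).card : ℝ) < triangleRemovalBound ε *
      (Fintype.card (α ⊕ β ⊕ γ) : ℝ) ^ 3 := by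
    rw [hN]
    exact lt_of_le_of_lt (by exact_mod_cast htri) hcard
  obtain ⟨G', hG', hdec, hF, hfree⟩ := triangle_removal h1
  set F := (graph t).edgeFinset \ G'.edgeFinset with hFdef
  have hFc : (F.card : ℝ) ≤ ε * ((Fintype.card α + (Fintype.card β + Fintype.card γ) : ℕ) : ℝ) ^ 2 := by
    have h2 : (F.card : ℝ) = ((graph t).edgeFinset.card : ℝ) - (G'.edgeFinset.card : ℝ) := by
      rw [hFdef, card_sdiff_of_subset (edgeFinset_mono hG'), Nat.cast_sub]
      exact card_le_card (edgeFinset_mono hG')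
    rw [h2]
    refine hF.le.trans (le_of_eq ?_)
    rw [hN]
    push_cast
    ring
  have hmemF : ∀ x y, (graph t).Adj x y → ¬ G'.Adj x y → s(x, y) ∈ F := by
    intro x y h2 h3
    rw [hFdef, Finset.mem_sdiff, mem_edgeFinset, mem_edgeFinset, SimpleGraph.mem_edgeSet,
      SimpleGraph.mem_edgeSet]
    exact ⟨h2, h3⟩
  refine ⟨Finset.univ.filter (fun p => s(Sum3.in₀ p.1, Sum3.in₁ p.2) ∈ F),
    Finset.univ.filter (fun p => s(Sum3.in₁ p.1, Sum3.in₂ p.2) ∈ F),
    Finset.univ.filter (fun p => s(Sum3.in₀ p.1, Sum3.in₂ p.2) ∈ F), ?_, ?_, ?_, ?_⟩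
  · refine le_trans ?_ hFc
    have h4 : (Finset.univ.filter (fun p : α × β =>
        (s(Sum3.in₀ p.1, Sum3.in₁ p.2) : Sym2 (α ⊕ β ⊕ γ)) ∈ F)).card ≤ F.card := by
      refine card_le_card_of_injOn (fun p => s(Sum3.in₀ p.1, Sum3.in₁ p.2)) ?_ ?_
      · intro p hp
        exact (Finset.mem_filter.1 hp).2
      · rintro ⟨a, b⟩ _ ⟨a', b'⟩ _ h5
        simp only [Sum3.in₀, Sum3.in₁, Sym2.eq_iff, Sum.inl.injEq, Sum.inr.injEq, reduceCtorEq,
          and_self, or_false, false_and, and_false] at h5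
        rw [h5.1, h5.2]
    exact_mod_cast h4
  · refine le_trans ?_ hFc
    have h4 : (Finset.univ.filter (fun p : β × γ =>
        (s(Sum3.in₁ p.1, Sum3.in₂ p.2) : Sym2 (α ⊕ β ⊕ γ)) ∈ F)).card ≤ F.card := by
      refine card_le_card_of_injOn (fun p => s(Sum3.in₁ p.1, Sum3.in₂ p.2)) ?_ ?_
      · intro p hp
        exact (Finset.mem_filter.1 hp).2
      · rintro ⟨a, b⟩ _ ⟨a', b'⟩ _ h5
        simp only [Sum3.in₂, Sum3.in₁, Sym2.eq_iff, Sum.inl.injEq, Sum.inr.injEq, reduceCtorEq,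
          and_self, or_false, false_and, and_false] at h5
        rw [h5.1, h5.2]
    exact_mod_cast h4
  · refine le_trans ?_ hFc
    have h4 : (Finset.univ.filter (fun p : α × γ =>
        (s(Sum3.in₀ p.1, Sum3.in₂ p.2) : Sym2 (α ⊕ β ⊕ γ)) ∈ F)).card ≤ F.card := by
      refine card_le_card_of_injOn (fun p => s(Sum3.in₀ p.1, Sum3.in₂ p.2)) ?_ ?_
      · intro p hp
        exact (Finset.mem_filter.1 hp).2
      · rintro ⟨a, b⟩ _ ⟨a', b'⟩ _ h5
        simp only [Sum3.in₀, Sum3.in₂, Sym2.eq_iff, Sum.inl.injEq, Sum.inr.injEq, reduceCtorEq,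
          and_self, or_false, false_and, and_false] at h5
        rw [h5.1, h5.2]
    exact_mod_cast h4
  · intro a b c habc
    simp only [Finset.mem_filter, Finset.mem_univ, true_and]
    by_contra hcon
    push Not at hcon
    obtain ⟨h5, h6, h7⟩ := hcon
    have a1 : G'.Adj (Sum3.in₀ a) (Sum3.in₁ b) := by
      by_contra h8
      exact h5 (hmemF _ _ (Graph.in₀₁_iff.2 ⟨c, habc⟩) h8)
    have a2 : G'.Adj (Sum3.in₁ b) (Sum3.in₂ c) := by
      by_contra h8
      exact h6 (hmemF _ _ (Graph.in₁₂_iff.2 ⟨a, habc⟩) h8)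
    have a3 : G'.Adj (Sum3.in₀ a) (Sum3.in₂ c) := by
      by_contra h8
      exact h7 (hmemF _ _ (Graph.in₀₂_iff.2 ⟨b, habc⟩) h8)
    exact hfree {Sum3.in₀ a, Sum3.in₁ b, Sum3.in₂ c} (is3Clique_triple_iff.2 ⟨a1, a3, a2⟩)

/-- few labels have many removed edges -/
theorem few {ι : Type*} (P : Finset ι) (l : ι → ℂ) (X : Finset ℂ) (n : ℕ) :
    ((X.filter (fun x => n ≤ 3 * (P.filter (fun p => l p = x)).card)).card : ℝ) * n ≤
      3 * P.card := by
  classical
  have h1 : (X.filter (fun x => n ≤ 3 * (P.filter (fun p => l p = x)).card)).card * n ≤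
      ∑ x ∈ X.filter (fun x => n ≤ 3 * (P.filter (fun p => l p = x)).card),
        3 * (P.filter (fun p => l p = x)).card := by
    rw [← smul_eq_mul]
    refine card_nsmul_le_sum _ _ _ ?_
    intro x hx
    exact (Finset.mem_filter.1 hx).2
  rw [← mul_sum, sum_card_fiberwise_eq_card_filter] at h1
  have h2 : (P.filter (fun i => l i ∈
      X.filter (fun x => n ≤ 3 * (P.filter (fun p => l p = x)).card))).card ≤ P.card :=
    card_le_card (Finset.filter_subset _ _)
  have h3 := h1.trans (Nat.mul_le_mul_left 3 h2)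
  exact_mod_cast h3

open Classical in
/-- the removal lemma for the sums of three finite sets -/
theorem sets (U V W X C E : Finset ℂ) (hV : ∀ u ∈ U, ∀ x ∈ X, u + x ∈ V)
    (hW : ∀ v ∈ V, ∀ c ∈ C, v - c ∈ W) (ε : ℝ)
    (hcard : ((U.card * ((X ×ˢ C).filter (fun z => z.1 - z.2 ∈ E)).card : ℕ) : ℝ) <
      triangleRemovalBound ε * ((U.card + (V.card + W.card) : ℕ) : ℝ) ^ 3) :
    ∃ X' ⊆ X, ∃ C' ⊆ C, ∃ E' ⊆ E,
      ((X \ X').card : ℝ) * U.card ≤ 3 * (ε * ((U.card + (V.card + W.card) : ℕ) : ℝ) ^ 2) ∧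
      ((C \ C').card : ℝ) * U.card ≤ 3 * (ε * ((U.card + (V.card + W.card) : ℕ) : ℝ) ^ 2) ∧
      (E'.card : ℝ) * U.card ≤ 3 * (ε * ((U.card + (V.card + W.card) : ℕ) : ℝ) ^ 2) ∧
      (0 < U.card → ∀ x ∈ X', ∀ c ∈ C', x - c ∈ E → x - c ∈ E') := by
  set t : Finset (U × V × W) := Finset.univ.filter (fun p =>
    (p.2.1 : ℂ) - p.1 ∈ X ∧ (p.2.1 : ℂ) - p.2.2 ∈ C ∧ (p.2.2 : ℂ) - p.1 ∈ E) with ht
  have hmem : ∀ (a : U) (b : V) (c : W), (a, b, c) ∈ t ↔
      (b : ℂ) - a ∈ X ∧ (b : ℂ) - c ∈ C ∧ (c : ℂ) - a ∈ E := by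
    intro a b c
    simp [ht]
  have htc : t.card ≤ U.card * ((X ×ˢ C).filter (fun z => z.1 - z.2 ∈ E)).card := by
    rw [← card_product]
    refine card_le_card_of_injOn
      (fun p => ((p.1 : ℂ), ((p.2.1 : ℂ) - p.1, (p.2.1 : ℂ) - p.2.2))) ?_ ?_
    · rintro ⟨a, b, c⟩ hp
      have h1 := (hmem a b c).1 hp
      simp only [Finset.coe_product, Set.mem_prod, Finset.mem_coe, Finset.mem_filter,
        Finset.mem_product, Finset.coe_mem, true_and]
      refine ⟨⟨h1.1, h1.2.1⟩, ?_⟩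
      have h2 : (b : ℂ) - a - (b - c) = c - a := by ring
      rw [h2]
      exact h1.2.2
    · rintro ⟨a, b, c⟩ _ ⟨a', b', c'⟩ _ h1
      simp only [Prod.mk.injEq] at h1
      obtain ⟨h2, h3, h4⟩ := h1
      have e1 : (b : ℂ) = b' := by linear_combination h3 + h2
      have e2 : (c : ℂ) = c' := by linear_combination e1 - h4
      rw [Subtype.ext h2, Subtype.ext e1, Subtype.ext e2]
  have hcU : Fintype.card U = U.card := Fintype.card_coe U
  have hcV : Fintype.card V = V.card := Fintype.card_coe V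
  have hcW : Fintype.card W = W.card := Fintype.card_coe W
  obtain ⟨P1, P2, P3, b1, b2, b3, hP⟩ := core t (by
    intro a b c h1 h2 h3
    obtain ⟨c', h1⟩ := h1
    obtain ⟨b', h2⟩ := h2
    obtain ⟨a', h3⟩ := h3
    rw [hmem] at h1 h2 h3 ⊢
    exact ⟨h1.1, h3.2.1, h2.2.2⟩) ε (by
    rw [hcU, hcV, hcW]
    exact lt_of_le_of_lt (by exact_mod_cast htc) hcard)
  rw [hcU, hcV, hcW] at b1 b2 b3
  set l1 : U × V → ℂ := fun p => (p.2 : ℂ) - p.1 with hl1
  set l2 : V × W → ℂ := fun p => (p.1 : ℂ) - p.2 with hl2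
  set l3 : U × W → ℂ := fun p => (p.2 : ℂ) - p.1 with hl3
  refine ⟨X.filter (fun x => ¬ U.card ≤ 3 * (P1.filter (fun p => l1 p = x)).card),
    Finset.filter_subset _ _,
    C.filter (fun x => ¬ U.card ≤ 3 * (P2.filter (fun p => l2 p = x)).card),
    Finset.filter_subset _ _,
    E.filter (fun x => U.card ≤ 3 * (P3.filter (fun p => l3 p = x)).card),
    Finset.filter_subset _ _, ?_, ?_, ?_, ?_⟩
  · have h1 : X \ X.filter (fun x => ¬ U.card ≤ 3 * (P1.filter (fun p => l1 p = x)).card) =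
        X.filter (fun x => U.card ≤ 3 * (P1.filter (fun p => l1 p = x)).card) := by
      ext x
      simp only [Finset.mem_sdiff, Finset.mem_filter]
      tauto
    rw [h1]
    exact (few P1 l1 X U.card).trans (by linarith)
  · have h1 : C \ C.filter (fun x => ¬ U.card ≤ 3 * (P2.filter (fun p => l2 p = x)).card) =
        C.filter (fun x => U.card ≤ 3 * (P2.filter (fun p => l2 p = x)).card) := by
      ext x
      simp only [Finset.mem_sdiff, Finset.mem_filter]
      tauto
    rw [h1]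
    exact (few P2 l2 C U.card).trans (by linarith)
  · exact (few P3 l3 E U.card).trans (by linarith)
  · intro hU x hx c hc hE
    rw [Finset.mem_filter] at hx hc ⊢
    refine ⟨hE, ?_⟩
    obtain ⟨hxX, hx⟩ := hx
    obtain ⟨hcC, hc⟩ := hc
    have hv : ∀ u : U, (u : ℂ) + x ∈ V := fun u => hV u u.2 x hxX
    have hw : ∀ u : U, (u : ℂ) + x - c ∈ W := fun u => hW _ (hv u) c hcC
    have key : ∀ u : U, (u, (⟨(u : ℂ) + x, hv u⟩ : V)) ∈ P1 ∨
        ((⟨(u : ℂ) + x, hv u⟩ : V), (⟨(u : ℂ) + x - c, hw u⟩ : W)) ∈ P2 ∨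
        (u, (⟨(u : ℂ) + x - c, hw u⟩ : W)) ∈ P3 := by
      intro u
      apply hP
      rw [hmem]
      refine ⟨?_, ?_, ?_⟩
      · have h1 : ((u : ℂ) + x) - u = x := by ring
        rw [h1]
        exact hxX
      · have h1 : ((u : ℂ) + x) - (u + x - c) = c := by ring
        rw [h1]
        exact hcC
      · have h1 : ((u : ℂ) + x - c) - u = x - c := by ring
        rw [h1]
        exact hE
    have c1 : (Finset.univ.filter (fun u : U => (u, (⟨(u : ℂ) + x, hv u⟩ : V)) ∈ P1)).card ≤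
        (P1.filter (fun p => l1 p = x)).card := by
      refine card_le_card_of_injOn (fun u => (u, (⟨(u : ℂ) + x, hv u⟩ : V))) ?_ ?_
      · intro u hu
        have hu' := (Finset.mem_filter.1 hu).2
        refine Finset.mem_coe.2 (Finset.mem_filter.2 ⟨hu', ?_⟩)
        simp only [hl1]
        ring
      · intro u _ u' _ h1
        exact (Prod.ext_iff.1 h1).1
    have c2 : (Finset.univ.filter (fun u : U => ((⟨(u : ℂ) + x, hv u⟩ : V),
        (⟨(u : ℂ) + x - c, hw u⟩ : W)) ∈ P2)).card ≤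
        (P2.filter (fun p => l2 p = c)).card := by
      refine card_le_card_of_injOn (fun u => ((⟨(u : ℂ) + x, hv u⟩ : V),
        (⟨(u : ℂ) + x - c, hw u⟩ : W))) ?_ ?_
      · intro u hu
        have hu' := (Finset.mem_filter.1 hu).2
        refine Finset.mem_coe.2 (Finset.mem_filter.2 ⟨hu', ?_⟩)
        simp only [hl2]
        ring
      · intro u _ u' _ h1
        have h2 := Subtype.ext_iff.1 (Prod.ext_iff.1 h1).1
        exact Subtype.ext (add_right_cancel h2)
    have c3 : (Finset.univ.filter (fun u : U => (u, (⟨(u : ℂ) + x - c, hw u⟩ : W)) ∈ P3)).card ≤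
        (P3.filter (fun p => l3 p = x - c)).card := by
      refine card_le_card_of_injOn (fun u => (u, (⟨(u : ℂ) + x - c, hw u⟩ : W))) ?_ ?_
      · intro u hu
        have hu' := (Finset.mem_filter.1 hu).2
        refine Finset.mem_coe.2 (Finset.mem_filter.2 ⟨hu', ?_⟩)
        simp only [hl3]
        ring
      · intro u _ u' _ h1
        exact (Prod.ext_iff.1 h1).1
    have hcov : (Finset.univ : Finset U) ⊆
        (Finset.univ.filter (fun u : U => (u, (⟨(u : ℂ) + x, hv u⟩ : V)) ∈ P1)) ∪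
        ((Finset.univ.filter (fun u : U => ((⟨(u : ℂ) + x, hv u⟩ : V),
        (⟨(u : ℂ) + x - c, hw u⟩ : W)) ∈ P2)) ∪
        (Finset.univ.filter (fun u : U => (u, (⟨(u : ℂ) + x - c, hw u⟩ : W)) ∈ P3))) := by
      intro u _
      simp only [Finset.mem_union, Finset.mem_filter, Finset.mem_univ, true_and]
      exact key u
    have h1 := (card_le_card hcov).trans ((card_union_le _ _).trans
      (Nat.add_le_add_left (card_union_le _ _) _))
    rw [Finset.card_univ, hcU] at h1
    omega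

end REM

open Classical in
theorem stmt_REM : Stmt_REM := by
  intro K ε hε
  rcases Nat.eq_zero_or_pos K with hK0 | hK0
  · refine ⟨1, one_pos, ?_⟩
    intro s X C E hs h1
    subst hK0
    simp only [Nat.cast_zero, zero_mul] at h1
    exact absurd h1 (not_le.2 hs)
  have hk : (1 : ℝ) ≤ K := by exact_mod_cast hK0
  have hk0 : (0 : ℝ) < K := by linarith
  set k : ℝ := (K : ℝ) with hkdef
  set ε' : ℝ := ε / (27 * k ^ 19) with hε'
  have hε'0 : 0 < ε' := by positivity
  have hb := SimpleGraph.triangleRemovalBound_pos hε'0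
  refine ⟨SimpleGraph.triangleRemovalBound ε' / (2 * k ^ 4), by positivity, ?_⟩
  intro s X C E hs hX hC hXC hE hpairs
  have hX0 : (0 : ℝ) < X.card := by
    by_contra h
    have h1 : (X.card : ℝ) = 0 := le_antisymm (not_lt.mp h) (Nat.cast_nonneg _)
    rw [h1, mul_zero] at hX
    linarith
  have hC0 : (0 : ℝ) < C.card := by
    by_contra h
    have h1 : (C.card : ℝ) = 0 := le_antisymm (not_lt.mp h) (Nat.cast_nonneg _)
    rw [h1, mul_zero] at hC
    linarith
  have hXne : X.Nonempty := Finset.card_pos.mp (by exact_mod_cast hX0)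
  have hCne : C.Nonempty := Finset.card_pos.mp (by exact_mod_cast hC0)
  have hCX : ((C - X).card : ℝ) ≤ k * s := by
    have h1 : C - X = -(X - C) := by rw [neg_sub]
    rw [h1, card_neg]
    exact hXC
  have hXle : (X.card : ℝ) ≤ k * s := by
    refine le_trans ?_ hXC
    have h1 : X.card ≤ (X - C).card := card_le_card_sub_right hCne
    exact_mod_cast h1
  have hCle : (C.card : ℝ) ≤ k * s := by
    refine le_trans ?_ hXC
    have h1 : C.card ≤ (X - C).card := card_le_card_sub_left hXne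
    exact_mod_cast h1
  have hα : ((C - X).card : ℝ) / C.card ≤ k ^ 2 := by
    rw [div_le_iff₀ hC0]
    calc ((C - X).card : ℝ) ≤ k * s := hCX
      _ ≤ k * (k * C.card) := mul_le_mul_of_nonneg_left hC hk0.le
      _ = k ^ 2 * C.card := by ring
  have hplu : ∀ m n : ℕ, ((m • X - n • X).card : ℝ) ≤ (k ^ 2) ^ (m + n) * (k * s) := by
    intro m n
    have h1 := pluennecke_ruzsa_inequality_nsmul_sub_nsmul_sub hCne X m n
    have h2 : (((m • X - n • X).card : ℚ≥0) : ℝ) ≤
        (((((C - X).card : ℚ≥0) / C.card) ^ (m + n) * C.card : ℚ≥0) : ℝ) := by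
      exact_mod_cast h1
    push_cast at h2
    refine h2.trans ?_
    have h3 : (0 : ℝ) ≤ ((C - X).card : ℝ) / C.card := by positivity
    have h4 : (((C - X).card : ℝ) / C.card) ^ (m + n) ≤ (k ^ 2) ^ (m + n) :=
      pow_le_pow_left₀ h3 hα _
    exact mul_le_mul h4 hCle (by positivity) (by positivity)
  set U : Finset ℂ := -X with hU
  set V : Finset ℂ := -X + X with hV
  set W : Finset ℂ := -X + X - C with hW
  have hUc : (U.card : ℝ) = X.card := by rw [hU, card_neg]
  have hVc : (V.card : ℝ) ≤ k ^ 5 * s := by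
    have h1 : V = 1 • X - 1 • X := by
      rw [hV, one_nsmul, sub_eq_add_neg, add_comm]
    rw [h1]
    refine (hplu 1 1).trans (le_of_eq ?_)
    ring
  have hWc : (W.card : ℝ) ≤ k ^ 9 * s := by
    have h1 : W = (X - X) - C := by
      rw [hW, sub_eq_add_neg X X, add_comm X (-X)]
    have h2 := ruzsa_triangle_inequality_sub_sub_sub (X - X) X C
    have h3 : (X - X) - X = 1 • X - 2 • X := by
      rw [one_nsmul, two_nsmul, sub_sub]
    rw [h3, ← h1] at h2
    have h4 : (W.card : ℝ) * X.card ≤ ((1 • X - 2 • X).card : ℝ) * ((C - X).card : ℝ) := by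
      exact_mod_cast h2
    have h5 : (W.card : ℝ) * X.card ≤ ((k ^ 2) ^ (1 + 2) * (k * s)) * (k * s) :=
      h4.trans (mul_le_mul (hplu 1 2) hCX (by positivity) (by positivity))
    have h6 : (W.card : ℝ) * s ≤ (W.card : ℝ) * (k * X.card) :=
      mul_le_mul_of_nonneg_left hX (Nat.cast_nonneg _)
    have h7 : (W.card : ℝ) * s ≤ (k ^ 9 * s) * s := by
      calc (W.card : ℝ) * s ≤ k * ((W.card : ℝ) * X.card) := by linarith
        _ ≤ k * (((k ^ 2) ^ (1 + 2) * (k * s)) * (k * s)) := mul_le_mul_of_nonneg_left h5 hk0.le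
        _ = (k ^ 9 * s) * s := by ring
    exact le_of_mul_le_mul_right h7 hs
  set N : ℝ := ((U.card + (V.card + W.card) : ℕ) : ℝ) with hN
  have hNle : N ≤ 3 * k ^ 9 * s := by
    rw [hN]
    push_cast
    have e1 : k * s ≤ k ^ 9 * s := by
      refine mul_le_mul_of_nonneg_right ?_ hs.le
      calc k = k ^ 1 := (pow_one k).symm
        _ ≤ k ^ 9 := pow_le_pow_right₀ hk (by norm_num)
    have e2 : k ^ 5 * s ≤ k ^ 9 * s :=
      mul_le_mul_of_nonneg_right (pow_le_pow_right₀ hk (by norm_num)) hs.le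
    linarith
  have hNge : s / k ≤ N := by
    rw [div_le_iff₀ hk0, hN]
    push_cast
    have e1 : (0 : ℝ) ≤ V.card := Nat.cast_nonneg _
    have e2 : (0 : ℝ) ≤ W.card := Nat.cast_nonneg _
    nlinarith
  have hN0 : 0 < N := lt_of_lt_of_le (by positivity) hNge
  have hUpos : 0 < U.card := by
    have h1 : (0 : ℝ) < U.card := by rw [hUc]; exact hX0
    exact_mod_cast h1
  obtain ⟨X', hX', C', hC', E', hE', g1, g2, g3, g4⟩ := REM.sets U V W X C E
    (fun u hu x hx => add_mem_add hu hx) (fun v hv c hc => sub_mem_sub hv hc) ε' (by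
      rw [← hN]
      have h1 : ((U.card * ((X ×ˢ C).filter (fun z => z.1 - z.2 ∈ E)).card : ℕ) : ℝ) ≤
          (k * s) * (SimpleGraph.triangleRemovalBound ε' / (2 * k ^ 4) * s ^ 2) := by
        push_cast
        refine mul_le_mul ?_ hpairs (by positivity) (by positivity)
        rw [hUc]
        exact hXle
      refine lt_of_le_of_lt h1 ?_
      have h2 : (s / k) ^ 3 ≤ N ^ 3 := pow_le_pow_left₀ (by positivity) hNge 3
      have h3 : SimpleGraph.triangleRemovalBound ε' * (s / k) ^ 3 ≤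
          SimpleGraph.triangleRemovalBound ε' * N ^ 3 := mul_le_mul_of_nonneg_left h2 hb.le
      refine lt_of_lt_of_le ?_ h3
      have h4 : (k * s) * (SimpleGraph.triangleRemovalBound ε' / (2 * k ^ 4) * s ^ 2) =
          (SimpleGraph.triangleRemovalBound ε' * (s / k) ^ 3) / 2 := by
        field_simp
      rw [h4]
      have h5 : 0 < SimpleGraph.triangleRemovalBound ε' * (s / k) ^ 3 := by positivity
      linarith)
  rw [← hN] at g1 g2 g3
  have hfin : ∀ c : ℝ, c * U.card ≤ 3 * (ε' * N ^ 2) → 0 ≤ c → c ≤ ε * s := by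
    intro c hc hc0
    have h1 : N ^ 2 ≤ (3 * k ^ 9 * s) ^ 2 := pow_le_pow_left₀ hN0.le hNle 2
    have h2 : c * s ≤ k * (c * U.card) := by
      rw [hUc]
      calc c * s ≤ c * (k * X.card) := mul_le_mul_of_nonneg_left hX hc0
        _ = k * (c * X.card) := by ring
    have h3 : c * s ≤ k * (3 * (ε' * (3 * k ^ 9 * s) ^ 2)) := by
      refine h2.trans (mul_le_mul_of_nonneg_left ?_ hk0.le)
      refine hc.trans ?_
      have h4 : ε' * N ^ 2 ≤ ε' * (3 * k ^ 9 * s) ^ 2 := mul_le_mul_of_nonneg_left h1 hε'0.le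
      linarith
    have h5 : k * (3 * (ε' * (3 * k ^ 9 * s) ^ 2)) = (ε * s) * s := by
      rw [hε']
      field_simp
      ring
    rw [h5] at h3
    exact le_of_mul_le_mul_right h3 hs
  exact ⟨X', hX', C', hC', E', hE', hfin _ g1 (Nat.cast_nonneg _), hfin _ g2 (Nat.cast_nonneg _),
    hfin _ g3 (Nat.cast_nonneg _), g4 hUpos⟩

end Pool.RAT
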