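import Pool.Agent.Work.MP_dc37f8_rat.Interface

/-!
# MP_dc37f8_co, block SQ1 (helper97)

The sum of the square roots of the numbers of representations of the differences of two finite
sets on horizontal lines.
-/

set_option autoImplicit false
set_option maxHeartbeats 4000000

open Finset

namespace Pool.RAT

open scoped Pointwise

namespace SQ1

open Classical in
/-- the number of representations -/
noncomputable def R (A B : Finset ℂ) (d : ℂ) : ℕ := (A.filter (fun a => a - d ∈ B)).card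

open Classical in
lemma R_eq (A B : Finset ℂ) (d : ℂ) :
    R A B d = ((A ×ˢ B).filter (fun p => p.1 - p.2 = d)).card := by
  unfold R
  refine Finset.card_bij (fun a _ => (a, a - d)) ?_ ?_ ?_
  · intro a ha
    rw [mem_filter] at ha
    rw [mem_filter, mem_product]
    exact ⟨⟨ha.1, ha.2⟩, by simp⟩
  · intro a _ b _ h
    exact (Prod.ext_iff.1 h).1
  · rintro ⟨a, b⟩ h
    rw [mem_filter, mem_product] at h
    refine ⟨a, ?_, ?_⟩
    · rw [mem_filter]
      refine ⟨h.1.1, ?_⟩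
      have : a - d = b := by rw [← h.2]; simp
      rw [this]; exact h.1.2
    · have : a - d = b := by rw [← h.2]; simp
      simp [this]

open Classical in
lemma R_pos (A B : Finset ℂ) {x y : ℂ} (hx : x ∈ A) (hy : y ∈ B) : 0 < R A B (x - y) := by
  unfold R
  rw [Finset.card_pos]
  exact ⟨x, by rw [mem_filter]; exact ⟨hx, by simpa using hy⟩⟩

open Classical in
/-- the sum as a sum over the pairs -/
lemma sum_eq (A B : Finset ℂ) :
    ∑ d ∈ A - B, Real.sqrt (R A B d) = ∑ x ∈ A, ∑ y ∈ B, (Real.sqrt (R A B (x - y)))⁻¹ := by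
  rw [← Finset.sum_product']
  have hmap : ∀ p ∈ A ×ˢ B, p.1 - p.2 ∈ A - B := by
    intro p hp
    rw [mem_product] at hp
    exact Finset.sub_mem_sub hp.1 hp.2
  rw [← Finset.sum_fiberwise_of_maps_to hmap]
  refine Finset.sum_congr rfl (fun d _ => ?_)
  have h1 : ∑ p ∈ (A ×ˢ B).filter (fun p => p.1 - p.2 = d), (Real.sqrt (R A B (p.1 - p.2)))⁻¹
      = ∑ p ∈ (A ×ˢ B).filter (fun p => p.1 - p.2 = d), (Real.sqrt (R A B d))⁻¹ := by
    refine Finset.sum_congr rfl (fun p hp => ?_)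
    rw [mem_filter] at hp
    rw [hp.2]
  rw [h1, Finset.sum_const, nsmul_eq_mul, ← R_eq]
  rcases Nat.eq_zero_or_pos (R A B d) with h0 | h0
  · rw [h0]; simp
  · have hpos : (0 : ℝ) < R A B d := by exact_mod_cast h0
    have hs : 0 < Real.sqrt (R A B d) := Real.sqrt_pos.2 hpos
    field_simp
    rw [Real.sq_sqrt hpos.le]

open Classical in
lemma sum_symm (A B : Finset ℂ) :
    ∑ d ∈ A - B, Real.sqrt (R A B d) = ∑ d ∈ B - A, Real.sqrt (R B A d) := by
  rw [sum_eq, sum_eq, Finset.sum_comm]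
  refine Finset.sum_congr rfl (fun y _ => Finset.sum_congr rfl (fun x _ => ?_))
  have : R A B (x - y) = R B A (y - x) := by
    rw [R_eq, R_eq]
    refine Finset.card_bij (fun p _ => (p.2, p.1)) ?_ ?_ ?_
    · rintro ⟨a, b⟩ h
      rw [mem_filter, mem_product] at h ⊢
      refine ⟨⟨h.1.2, h.1.1⟩, ?_⟩
      have h2 : a - b = x - y := h.2
      show b - a = y - x
      rw [← neg_sub a b, h2, neg_sub]
    · rintro ⟨a, b⟩ _ ⟨c, d⟩ _ h
      simp only [Prod.mk.injEq] at h ⊢
      exact ⟨h.2, h.1⟩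
    · rintro ⟨a, b⟩ h
      rw [mem_filter, mem_product] at h
      refine ⟨(b, a), ?_, rfl⟩
      rw [mem_filter, mem_product]
      refine ⟨⟨h.1.2, h.1.1⟩, ?_⟩
      have h2 : a - b = y - x := h.2
      show b - a = x - y
      rw [← neg_sub a b, h2, neg_sub]
  rw [this]

open Classical in
/-- the rank -/
noncomputable def rk (A : Finset ℂ) (x : ℂ) : ℕ := (A.filter (fun a => a.re ≤ x.re)).card

open Classical in
/-- the rank bound for the number of representations -/
lemma R_le (A B : Finset ℂ) (x y : ℂ) :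
    R A B (x - y) ≤ min (rk A x) (rk B y) + min (A.card - rk A x) (B.card - rk B y) := by
  have hA : (A.filter (fun a => ¬ a.re ≤ x.re)).card = A.card - rk A x := by
    have := Finset.card_filter_add_card_filter_not (s := A) (fun a => a.re ≤ x.re)
    unfold rk; omega
  have hB : (B.filter (fun a => ¬ a.re ≤ y.re)).card = B.card - rk B y := by
    have := Finset.card_filter_add_card_filter_not (s := B) (fun a => a.re ≤ y.re)
    unfold rk; omega
  rw [← hA, ← hB]
  unfold R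
  rw [← Finset.card_filter_add_card_filter_not (s := A.filter (fun a => a - (x - y) ∈ B))
    (fun a => a.re ≤ x.re)]
  have hinj : Set.InjOn (fun a : ℂ => a - (x - y)) Set.univ := by
    intro a _ b _ h
    simpa using h
  refine Nat.add_le_add (le_min ?_ ?_) (le_min ?_ ?_)
  · refine Finset.card_le_card ?_
    intro a ha
    simp only [mem_filter] at ha ⊢
    exact ⟨ha.1.1, ha.2⟩
  · refine Finset.card_le_card_of_injOn (fun a => a - (x - y)) ?_
      (hinj.mono (Set.subset_univ _))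
    intro a ha
    simp only [coe_filter, mem_filter, Set.mem_ofPred_eq] at ha ⊢
    refine ⟨ha.1.2, ?_⟩
    simp only [Complex.sub_re]
    linarith [ha.2]
  · refine Finset.card_le_card ?_
    intro a ha
    simp only [mem_filter] at ha ⊢
    exact ⟨ha.1.1, ha.2⟩
  · refine Finset.card_le_card_of_injOn (fun a => a - (x - y)) ?_
      (hinj.mono (Set.subset_univ _))
    intro a ha
    simp only [coe_filter, mem_filter, Set.mem_ofPred_eq] at ha ⊢
    refine ⟨ha.1.2, ?_⟩
    simp only [Complex.sub_re]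
    have := ha.2
    push Not at this ⊢
    linarith

open Classical in
lemma rk_sum (A : Finset ℂ) (y : ℝ) (hA : ∀ a ∈ A, a.im = y) (f : ℕ → ℝ) :
    ∑ x ∈ A, f (rk A x) = ∑ i ∈ range A.card, f (i + 1) := by
  have hinj : Set.InjOn (rk A) A := by
    intro a ha b hb h
    have key : ∀ a ∈ A, ∀ b ∈ A, a.re < b.re → rk A a < rk A b := by
      intro a _ b hb hab
      unfold rk
      refine Finset.card_lt_card ?_
      rw [Finset.ssubset_iff_of_subset]
      · exact ⟨b, by rw [mem_filter]; exact ⟨hb, le_rfl⟩, by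
          rw [mem_filter]; rintro ⟨_, h⟩; linarith⟩
      · intro c hc
        rw [mem_filter] at hc ⊢
        exact ⟨hc.1, by linarith [hc.2]⟩
    rcases lt_trichotomy a.re b.re with h1 | h1 | h1
    · have := key a ha b hb h1; omega
    · exact Complex.ext h1 (by rw [hA a ha, hA b hb])
    · have := key b hb a ha h1; omega
  have himg : A.image (rk A) = Finset.Icc 1 A.card := by
    refine Finset.eq_of_subset_of_card_le ?_ ?_
    · intro i hi
      rw [mem_image] at hi
      obtain ⟨a, ha, rfl⟩ := hi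
      rw [Finset.mem_Icc]
      constructor
      · unfold rk
        rw [Nat.one_le_iff_ne_zero, ← Nat.pos_iff_ne_zero, Finset.card_pos]
        exact ⟨a, by rw [mem_filter]; exact ⟨ha, le_rfl⟩⟩
      · unfold rk
        exact Finset.card_filter_le _ _
    · rw [Finset.card_image_of_injOn hinj]
      simp
  rw [← Finset.sum_image (f := f) (g := rk A) hinj, himg]
  have : Finset.Icc 1 A.card = (range A.card).image (fun i => i + 1) := by
    ext i
    simp only [Finset.mem_Icc, mem_image, mem_range]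
    constructor
    · intro h; exact ⟨i - 1, by omega, by omega⟩
    · rintro ⟨j, h1, h2⟩; omega
  rw [this, Finset.sum_image]
  intro i _ j _ h
  simpa using h

/-- sum of triangle -/
lemma tri_sum (f : ℕ → ℝ) (a : ℕ) :
    ∑ i ∈ range a, ∑ m ∈ range i, f m = ∑ m ∈ range a, ((a : ℝ) - 1 - m) * f m := by
  induction a with
  | zero => simp
  | succ a ih =>
    rw [Finset.sum_range_succ, ih, Finset.sum_range_succ, ← Finset.sum_add_distrib]
    push_cast
    have : ((a : ℝ) + 1 - 1 - a) * f a = 0 := by ring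
    rw [this, add_zero]
    refine Finset.sum_congr rfl (fun m _ => ?_)
    ring

/-- the row sum -/
lemma row_sum (a b i : ℕ) (hab : a ≤ b) (hi : i < a) :
    ∑ j ∈ range b, (Real.sqrt ((min (i + 1) (j + 1) + min (a - (i + 1)) (b - (j + 1)) : ℕ)))⁻¹ =
      ∑ m ∈ range i, (Real.sqrt ((a - 1 - m : ℕ)))⁻¹ + (((b - a : ℕ) : ℝ) + 1) * (Real.sqrt a)⁻¹ +
        ∑ m ∈ range (a - 1 - i), (Real.sqrt ((a - 1 - m : ℕ)))⁻¹ := by
  have hb : b = i + ((b - a + 1) + (a - 1 - i)) := by omega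
  have hrange : range b = range (i + ((b - a + 1) + (a - 1 - i))) := by rw [← hb]
  rw [hrange, Finset.sum_range_add, Finset.sum_range_add, ← add_assoc]
  congr 1
  · congr 1
    · rw [← Finset.sum_range_reflect]
      refine Finset.sum_congr rfl (fun j hj => ?_)
      rw [mem_range] at hj
      congr 3
      omega
    · rw [Finset.sum_congr rfl (g := fun _ => (Real.sqrt a)⁻¹)]
      · rw [Finset.sum_const, card_range, nsmul_eq_mul]
        push_cast
        ring
      · intro j hj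
        rw [mem_range] at hj
        congr 3
        omega
  · refine Finset.sum_congr rfl (fun j hj => ?_)
    rw [mem_range] at hj
    congr 3
    omega

lemma sqrt_sum (a : ℕ) : 2 / 3 * ((a : ℝ) * Real.sqrt a) ≤ ∑ t ∈ range a, Real.sqrt ((t : ℝ) + 1) := by
  induction a with
  | zero => simp
  | succ a ih =>
    rw [Finset.sum_range_succ]
    push_cast
    have hs : Real.sqrt ((a : ℝ) + 1) ^ 2 = a + 1 := Real.sq_sqrt (by positivity)
    have hr : Real.sqrt (a : ℝ) ^ 2 = a := Real.sq_sqrt (by positivity)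
    set s := Real.sqrt ((a : ℝ) + 1) with hsdef
    set r := Real.sqrt (a : ℝ) with hrdef
    have hs0 : 0 ≤ s := Real.sqrt_nonneg _
    have hr0 : 0 ≤ r := Real.sqrt_nonneg _
    have h1 : 0 ≤ (s - r) ^ 2 * (s + 2 * r) := by positivity
    have h2 : ((a : ℝ) + 1) * s = s ^ 3 := by rw [← hs]; ring
    have h3 : (a : ℝ) * r = r ^ 3 := by rw [← hr]; ring
    have h4 : s = s * (s ^ 2 - r ^ 2) := by rw [hs, hr]; ring
    rw [h2]
    rw [h3] at ih
    nlinarith [h1, h4, ih]

lemma diag_sum (a b : ℕ) (hab : a ≤ b) (ha : 1 ≤ a) :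
    Real.sqrt a * (b + a / 3 - 1) ≤ ∑ i ∈ range a, ∑ j ∈ range b,
      (Real.sqrt ((min (i + 1) (j + 1) + min (a - (i + 1)) (b - (j + 1)) : ℕ)))⁻¹ := by
  have hcast : ((b - a : ℕ) : ℝ) = b - a := by rw [Nat.cast_sub hab]
  have ha' : (0 : ℝ) < a := by exact_mod_cast ha
  rw [Finset.sum_congr rfl (fun i hi => row_sum a b i hab (mem_range.1 hi))]
  rw [Finset.sum_add_distrib, Finset.sum_add_distrib, Finset.sum_const, card_range, nsmul_eq_mul]
  have hrefl : ∑ i ∈ range a, ∑ m ∈ range (a - 1 - i), (Real.sqrt ((a - 1 - m : ℕ)))⁻¹ =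
      ∑ i ∈ range a, ∑ m ∈ range i, (Real.sqrt ((a - 1 - m : ℕ)))⁻¹ :=
    Finset.sum_range_reflect (fun i => ∑ m ∈ range i, (Real.sqrt ((a - 1 - m : ℕ)))⁻¹) a
  rw [hrefl, tri_sum]
  have h1 : ∑ m ∈ range a, ((a : ℝ) - 1 - m) * (Real.sqrt ((a - 1 - m : ℕ)))⁻¹ =
      ∑ t ∈ range a, Real.sqrt (t : ℝ) := by
    rw [← Finset.sum_range_reflect (fun t => Real.sqrt ((t : ℕ) : ℝ))]
    refine Finset.sum_congr rfl (fun m hm => ?_)
    rw [mem_range] at hm
    have : ((a : ℝ) - 1 - m) = ((a - 1 - m : ℕ) : ℝ) := by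
      rw [Nat.cast_sub (by omega), Nat.cast_sub (by omega)]; push_cast; ring
    rw [this]
    rcases Nat.eq_zero_or_pos (a - 1 - m) with h0 | h0
    · rw [h0]; simp
    · have hpos : (0 : ℝ) < ((a - 1 - m : ℕ) : ℝ) := by exact_mod_cast h0
      have hs : 0 < Real.sqrt ((a - 1 - m : ℕ) : ℝ) := Real.sqrt_pos.2 hpos
      field_simp
      rw [Real.sq_sqrt hpos.le]
  rw [h1]
  have h2 : 2 / 3 * ((a : ℝ) * Real.sqrt a) - Real.sqrt a ≤ ∑ t ∈ range a, Real.sqrt (t : ℝ) := by
    have h3 := sqrt_sum a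
    have h4 : ∑ t ∈ range a, Real.sqrt ((t : ℝ) + 1) + Real.sqrt ((0 : ℕ) : ℝ) =
        ∑ t ∈ range a, Real.sqrt (t : ℝ) + Real.sqrt a := by
      rw [← Finset.sum_range_succ (fun t => Real.sqrt ((t : ℕ) : ℝ)),
        Finset.sum_range_succ' (fun t => Real.sqrt ((t : ℕ) : ℝ))]
      push_cast
      ring
    simp only [Nat.cast_zero, Real.sqrt_zero, add_zero] at h4
    linarith
  have h5 : (a : ℝ) * (((b - a : ℕ) + 1) * (Real.sqrt a)⁻¹) = Real.sqrt a * (b - a + 1) := by
    rw [hcast]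
    have hs : 0 < Real.sqrt (a : ℝ) := Real.sqrt_pos.2 ha'
    have hsq : Real.sqrt (a : ℝ) ^ 2 = a := Real.sq_sqrt ha'.le
    field_simp
    rw [hsq]
    ring
  rw [h5]
  nlinarith [h2]

/-- AM-GM -/
lemma amgm (a b : ℝ) (ha : 0 < a) (hb : 0 < b) :
    4 / 3 * (a * b) ^ (3 / 4 : ℝ) ≤ Real.sqrt a * (b + a / 3) := by
  have h := Real.geom_mean_le_arith_mean2_weighted (w₁ := 3 / 4) (w₂ := 1 / 4) (p₁ := b) (p₂ := a)
    (by norm_num) (by norm_num) hb.le ha.le (by norm_num)
  have h1 : (a * b) ^ (3 / 4 : ℝ) = Real.sqrt a * (b ^ (3 / 4 : ℝ) * a ^ (1 / 4 : ℝ)) := by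
    rw [Real.mul_rpow ha.le hb.le, Real.sqrt_eq_rpow]
    have : a ^ (3 / 4 : ℝ) = a ^ (1 / 2 : ℝ) * a ^ (1 / 4 : ℝ) := by
      rw [← Real.rpow_add ha]; norm_num
    rw [this]; ring
  rw [h1]
  have hs : 0 ≤ Real.sqrt a := Real.sqrt_nonneg _
  have h2 : Real.sqrt a * (b ^ (3 / 4 : ℝ) * a ^ (1 / 4 : ℝ)) ≤
      Real.sqrt a * (3 / 4 * b + 1 / 4 * a) := mul_le_mul_of_nonneg_left h hs
  nlinarith [h2]

open Classical in
lemma main_le (A B : Finset ℂ) (y z : ℝ) (M : ℕ) (hM : 1 ≤ M) (hA : ∀ a ∈ A, a.im = y)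
    (hB : ∀ b ∈ B, b.im = z) (hMA : M ≤ A.card) (hMB : M ≤ B.card) (hAB : A.card ≤ B.card) :
    4 / 3 * (1 - 1 / (M : ℝ)) * ((A.card : ℝ) * B.card) ^ (3 / 4 : ℝ) ≤
      ∑ d ∈ A - B, Real.sqrt (R A B d) := by
  rw [sum_eq]
  have h1 : ∑ x ∈ A, ∑ y ∈ B, (Real.sqrt ((min (rk A x) (rk B y) +
      min (A.card - rk A x) (B.card - rk B y) : ℕ)))⁻¹ ≤
      ∑ x ∈ A, ∑ y ∈ B, (Real.sqrt (R A B (x - y)))⁻¹ := by
    refine Finset.sum_le_sum (fun x hx => Finset.sum_le_sum (fun y hy => ?_))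
    have hp : (0 : ℝ) < R A B (x - y) := by exact_mod_cast R_pos A B hx hy
    refine inv_anti₀ (Real.sqrt_pos.2 hp) (Real.sqrt_le_sqrt ?_)
    exact_mod_cast R_le A B x y
  refine le_trans ?_ h1
  have h2 : ∑ x ∈ A, ∑ y ∈ B, (Real.sqrt ((min (rk A x) (rk B y) +
      min (A.card - rk A x) (B.card - rk B y) : ℕ)))⁻¹ = ∑ i ∈ range A.card, ∑ j ∈ range B.card,
      (Real.sqrt ((min (i + 1) (j + 1) + min (A.card - (i + 1)) (B.card - (j + 1)) : ℕ)))⁻¹ := by
    rw [← rk_sum A y hA (fun i => ∑ j ∈ range B.card,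
      (Real.sqrt ((min i (j + 1) + min (A.card - i) (B.card - (j + 1)) : ℕ)))⁻¹)]
    refine Finset.sum_congr rfl (fun x _ => ?_)
    rw [← rk_sum B z hB (fun j =>
      (Real.sqrt ((min (rk A x) j + min (A.card - rk A x) (B.card - j) : ℕ)))⁻¹)]
  rw [h2]
  refine le_trans ?_ (diag_sum A.card B.card hAB (le_trans hM hMA))
  have ha : (0 : ℝ) < A.card := by
    have : 0 < A.card := by omega
    exact_mod_cast this
  have hb : (0 : ℝ) < B.card := by
    have : 0 < B.card := by omega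
    exact_mod_cast this
  have hm : (0 : ℝ) < M := by exact_mod_cast hM
  have hmb : (M : ℝ) ≤ B.card := by exact_mod_cast hMB
  have hm1 : (1 : ℝ) ≤ M := by exact_mod_cast hM
  have h3 := amgm A.card B.card ha hb
  have h4 : (0 : ℝ) ≤ 1 - 1 / M := by
    rw [sub_nonneg, div_le_one hm]; exact hm1
  have h5 := mul_le_mul_of_nonneg_left h3 h4
  have h6 : (1 - 1 / (M : ℝ)) * (B.card + A.card / 3) ≤ B.card + A.card / 3 - 1 := by
    have : 1 ≤ 1 / (M : ℝ) * (B.card + A.card / 3) := by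
      rw [one_div, inv_mul_eq_div, le_div_iff₀ hm]
      linarith
    linarith
  have h7 := mul_le_mul_of_nonneg_left h6 (Real.sqrt_nonneg (A.card : ℝ))
  calc 4 / 3 * (1 - 1 / (M : ℝ)) * ((A.card : ℝ) * B.card) ^ (3 / 4 : ℝ)
      = (1 - 1 / (M : ℝ)) * (4 / 3 * ((A.card : ℝ) * B.card) ^ (3 / 4 : ℝ)) := by ring
    _ ≤ (1 - 1 / (M : ℝ)) * (Real.sqrt A.card * (B.card + A.card / 3)) := h5
    _ = Real.sqrt A.card * ((1 - 1 / (M : ℝ)) * (B.card + A.card / 3)) := by ring
    _ ≤ _ := h7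

end SQ1

open Classical in
theorem stmt_SQ1 : Stmt_SQ1 := by
  intro A B y z M hM hA hB hMA hMB
  rcases le_total A.card B.card with h | h
  · exact SQ1.main_le A B y z M hM hA hB hMA hMB h
  · have h1 := SQ1.main_le B A z y M hM hB hA hMB hMA h
    rw [← SQ1.sum_symm, mul_comm (B.card : ℝ)] at h1
    exact h1

end Pool.RAT
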