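import Pool.Agent.Work.MP_dc37f8_rat.Interface

/-!
# MP_dc37f8_co: block SQA (from the lines to the plane), helper89
-/

set_option autoImplicit false

open Finset

namespace Pool.RAT.SQA

open Pool.RAT

open scoped Pointwise

lemma mink {ι κ : Type} (I : Finset ι) (S : Finset κ) (f : ι → κ → ℝ) :
    Real.sqrt (∑ p ∈ I, (∑ d ∈ S, f p d) ^ 2) ≤ ∑ d ∈ S, Real.sqrt (∑ p ∈ I, f p d ^ 2) := by
  have h0 : 0 ≤ ∑ d ∈ S, Real.sqrt (∑ p ∈ I, f p d ^ 2) :=
    Finset.sum_nonneg (fun _ _ => Real.sqrt_nonneg _)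
  rcases eq_or_lt_of_le (Real.sqrt_nonneg (∑ p ∈ I, (∑ d ∈ S, f p d) ^ 2)) with h | h
  · rw [← h]
    exact h0
  · have h1 : Real.sqrt (∑ p ∈ I, (∑ d ∈ S, f p d) ^ 2) *
        Real.sqrt (∑ p ∈ I, (∑ d ∈ S, f p d) ^ 2) ≤
        Real.sqrt (∑ p ∈ I, (∑ d ∈ S, f p d) ^ 2) *
          ∑ d ∈ S, Real.sqrt (∑ p ∈ I, f p d ^ 2) := by
      rw [Real.mul_self_sqrt (Finset.sum_nonneg (fun _ _ => sq_nonneg _))]
      have e2 : ∑ p ∈ I, (∑ d ∈ S, f p d) ^ 2 =
          ∑ d ∈ S, ∑ p ∈ I, (∑ d ∈ S, f p d) * f p d := by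
        rw [Finset.sum_comm]
        refine Finset.sum_congr rfl (fun p _ => ?_)
        rw [← Finset.mul_sum, sq]
      rw [Finset.mul_sum]
      refine le_trans (le_of_eq e2) (Finset.sum_le_sum (fun d _ => ?_))
      exact Real.sum_mul_le_sqrt_mul_sqrt I (fun p => ∑ d ∈ S, f p d) (fun p => f p d)
    exact le_of_mul_le_mul_left h1 h

open Classical in
/-- one row of differences -/
lemma row (h1 : Stmt_SQ1) (A B : Finset ℂ) (M : ℕ) (hM : 1 ≤ M)
    (hA : ∀ a ∈ A, M ≤ (A.filter (fun z => z.im = a.im)).card)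
    (hB : ∀ b ∈ B, M ≤ (B.filter (fun z => z.im = b.im)).card) (δ : ℝ) :
    4 / 3 * (1 - 1 / (M : ℝ)) * Real.sqrt (∑ y ∈ (A.image Complex.im ×ˢ B.image Complex.im).filter
        (fun y => y.1 - y.2 = δ), (((A.filter (fun z => z.im = y.1)).card : ℝ) *
          (B.filter (fun z => z.im = y.2)).card) ^ (3 / 2 : ℝ)) ≤
      ∑ d ∈ (A - B).filter (fun d => d.im = δ),
        Real.sqrt ((A.filter (fun a => a - d ∈ B)).card) := by
  have hM' : (1 : ℝ) ≤ M := by exact_mod_cast hM
  have hc : 0 ≤ 4 / 3 * (1 - 1 / (M : ℝ)) := by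
    have : 1 / (M : ℝ) ≤ 1 := by
      rw [div_le_one (by linarith)]
      exact hM'
    linarith
  set I := (A.image Complex.im ×ˢ B.image Complex.im).filter
    (fun y : ℝ × ℝ => y.1 - y.2 = δ) with hI
  set S := (A - B).filter (fun d => d.im = δ) with hS
  set f : ℝ × ℝ → ℂ → ℝ := fun y d => Real.sqrt
    (((A.filter (fun z => z.im = y.1)).filter
      (fun a => a - d ∈ B.filter (fun z => z.im = y.2))).card) with hf
  -- the number of representations
  have hrep : ∀ d ∈ S, (((A.filter (fun a => a - d ∈ B)).card : ℕ) : ℝ) = ∑ y ∈ I, f y d ^ 2 := by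
    intro d hd
    have hdi : d.im = δ := (Finset.mem_filter.1 hd).2
    have e1 : ∀ y ∈ I, f y d ^ 2 = (((A.filter (fun a => a - d ∈ B)).filter
        (fun a => (a.im, (a - d).im) = y)).card : ℝ) := by
      intro y hy
      rw [hf]
      simp only
      rw [Real.sq_sqrt (Nat.cast_nonneg _)]
      have : (A.filter (fun z => z.im = y.1)).filter
          (fun a => a - d ∈ B.filter (fun z => z.im = y.2)) =
          (A.filter (fun a => a - d ∈ B)).filter (fun a => (a.im, (a - d).im) = y) := by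
        ext a
        simp only [Finset.mem_filter, Prod.ext_iff]
        tauto
      rw [this]
    rw [Finset.sum_congr rfl e1]
    have e2 : (A.filter (fun a => a - d ∈ B)).card = ∑ y ∈ I,
        ((A.filter (fun a => a - d ∈ B)).filter (fun a => (a.im, (a - d).im) = y)).card := by
      apply Finset.card_eq_sum_card_fiberwise
      intro a ha
      have ha' := Finset.mem_filter.1 (Finset.mem_coe.1 ha)
      rw [Finset.mem_coe, hI, Finset.mem_filter, Finset.mem_product]
      refine ⟨⟨Finset.mem_image_of_mem _ ha'.1, Finset.mem_image_of_mem _ ha'.2⟩, ?_⟩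
      simp only [Complex.sub_im]
      rw [← hdi]
      ring
    rw [e2]
    push_cast
    rfl
  -- the rows
  have hrow : ∀ y ∈ I, 4 / 3 * (1 - 1 / (M : ℝ)) *
      (((A.filter (fun z => z.im = y.1)).card : ℝ) *
        (B.filter (fun z => z.im = y.2)).card) ^ (3 / 4 : ℝ) ≤ ∑ d ∈ S, f y d := by
    intro y hy
    have hy' := Finset.mem_filter.1 hy
    rw [Finset.mem_product] at hy'
    obtain ⟨⟨hyA, hyB⟩, hyd⟩ := hy'
    obtain ⟨a, ha, hay⟩ := Finset.mem_image.1 hyA
    obtain ⟨b, hb, hbz⟩ := Finset.mem_image.1 hyB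
    have k1 := h1 (A.filter (fun z => z.im = y.1)) (B.filter (fun z => z.im = y.2)) y.1 y.2 M hM
      (fun z hz => (Finset.mem_filter.1 hz).2) (fun z hz => (Finset.mem_filter.1 hz).2)
      (by rw [← hay]; exact hA a ha) (by rw [← hbz]; exact hB b hb)
    refine k1.trans ?_
    have hsub : A.filter (fun z => z.im = y.1) - B.filter (fun z => z.im = y.2) ⊆ S := by
      intro d hd
      obtain ⟨a', ha', b', hb', rfl⟩ := Finset.mem_sub.1 hd
      rw [Finset.mem_filter] at ha' hb'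
      rw [hS, Finset.mem_filter]
      refine ⟨Finset.sub_mem_sub ha'.1 hb'.1, ?_⟩
      rw [Complex.sub_im, ha'.2, hb'.2]
      exact hyd
    exact Finset.sum_le_sum_of_subset_of_nonneg hsub (fun _ _ _ => Real.sqrt_nonneg _)
  -- Minkowski
  calc 4 / 3 * (1 - 1 / (M : ℝ)) * Real.sqrt (∑ y ∈ I, (((A.filter (fun z => z.im = y.1)).card : ℝ) *
          (B.filter (fun z => z.im = y.2)).card) ^ (3 / 2 : ℝ))
      = Real.sqrt (∑ y ∈ I, (4 / 3 * (1 - 1 / (M : ℝ)) *
          (((A.filter (fun z => z.im = y.1)).card : ℝ) *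
            (B.filter (fun z => z.im = y.2)).card) ^ (3 / 4 : ℝ)) ^ 2) := by
        have e3 : ∀ y ∈ I, (4 / 3 * (1 - 1 / (M : ℝ)) *
          (((A.filter (fun z => z.im = y.1)).card : ℝ) *
            (B.filter (fun z => z.im = y.2)).card) ^ (3 / 4 : ℝ)) ^ 2 =
            (4 / 3 * (1 - 1 / (M : ℝ))) ^ 2 * ((((A.filter (fun z => z.im = y.1)).card : ℝ) *
            (B.filter (fun z => z.im = y.2)).card) ^ (3 / 2 : ℝ)) := by
          intro y _
          have hx : (0 : ℝ) ≤ ((A.filter (fun z => z.im = y.1)).card : ℝ) *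
            (B.filter (fun z => z.im = y.2)).card := by positivity
          rw [mul_pow, ← Real.rpow_natCast
            ((((A.filter (fun z => z.im = y.1)).card : ℝ) *
            (B.filter (fun z => z.im = y.2)).card) ^ (3 / 4 : ℝ)) 2, ← Real.rpow_mul hx]
          norm_num
        rw [Finset.sum_congr rfl e3, ← Finset.mul_sum, Real.sqrt_mul (sq_nonneg _),
          Real.sqrt_sq hc]
    _ ≤ Real.sqrt (∑ y ∈ I, (∑ d ∈ S, f y d) ^ 2) := by
        apply Real.sqrt_le_sqrt
        refine Finset.sum_le_sum (fun y hy => ?_)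
        apply pow_le_pow_left₀ _ (hrow y hy)
        positivity
    _ ≤ ∑ d ∈ S, Real.sqrt (∑ y ∈ I, f y d ^ 2) := mink I S f
    _ = ∑ d ∈ S, Real.sqrt ((A.filter (fun a => a - d ∈ B)).card) := by
        refine Finset.sum_congr rfl (fun d hd => ?_)
        rw [hrep d hd]

end Pool.RAT.SQA

namespace Pool.RAT

open scoped Pointwise

theorem stmt_SQA (h1 : Stmt_SQ1) : Stmt_SQA := by
  classical
  intro A B M hM hA hB
  rw [Finset.mul_sum]
  have hmaps : ∀ d ∈ A - B, d.im ∈ A.image Complex.im - B.image Complex.im := by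
    intro d hd
    obtain ⟨a, ha, b, hb, rfl⟩ := Finset.mem_sub.1 hd
    rw [Complex.sub_im]
    exact Finset.sub_mem_sub (Finset.mem_image_of_mem _ ha) (Finset.mem_image_of_mem _ hb)
  rw [← Finset.sum_fiberwise_of_maps_to hmaps]
  refine Finset.sum_le_sum (fun δ _ => ?_)
  exact SQA.row h1 A B M hM hA hB δ

end Pool.RAT
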