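import Pool.Agent.Work.MP_dc37f8_rat.Interface

/-!
# MP_dc37f8_co, block SQB (helper97)

An inequality for masses on two finite sets of real numbers.
-/

set_option autoImplicit false
set_option maxHeartbeats 4000000

open Finset

namespace Pool.RAT

open scoped Pointwise

namespace SQB

/-- convexity of the function `x ^ (3/2)` -/
lemma step (A α : ℝ) (hA : 0 ≤ A) (hα : 0 ≤ α) :
    α * Real.sqrt A ≤ 2 / 3 * ((α + A) * Real.sqrt (α + A)) - 2 / 3 * (A * Real.sqrt A) := by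
  have hs : Real.sqrt (α + A) ^ 2 = α + A := Real.sq_sqrt (by linarith)
  have hr : Real.sqrt A ^ 2 = A := Real.sq_sqrt hA
  have hs0 : 0 ≤ Real.sqrt (α + A) := Real.sqrt_nonneg _
  have hr0 : 0 ≤ Real.sqrt A := Real.sqrt_nonneg _
  generalize Real.sqrt (α + A) = s at hs hs0 ⊢
  generalize Real.sqrt A = r at hr hr0 ⊢
  have h1 : 0 ≤ (s - r) ^ 2 * (2 * s + r) := by positivity
  have hA' : A = r ^ 2 := hr.symm
  have hα' : α = s ^ 2 - r ^ 2 := by linarith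
  subst hA'
  subst hα'
  nlinarith [h1]

open Classical in
/-- the sum of the masses below, with the point itself -/
lemma sum_low (Y : Finset ℝ) (α : ℝ → ℝ) (c : ℝ) (hα : ∀ y ∈ Y, 0 ≤ α y ∧ α y ≤ c) :
    ∑ y ∈ Y, α y * Real.sqrt (∑ y' ∈ Y.filter (fun y' => y' ≤ y), α y') ≤
      2 / 3 * ((∑ y ∈ Y, α y) * Real.sqrt (∑ y ∈ Y, α y)) + c * Real.sqrt (∑ y ∈ Y, α y) := by
  induction Y using Finset.induction_on_max with
  | empty => simp
  | insert m Y hm ih =>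
    have hmY : m ∉ Y := fun h => lt_irrefl _ (hm m h)
    have hY : ∀ y ∈ Y, 0 ≤ α y ∧ α y ≤ c := fun y hy => hα y (mem_insert_of_mem hy)
    have hmm := hα m (mem_insert_self _ _)
    have ih' := ih hY
    rw [Finset.sum_insert hmY, Finset.sum_insert hmY]
    have h1 : (insert m Y).filter (fun y' => y' ≤ m) = insert m Y := by
      rw [Finset.filter_eq_self]
      intro x hx
      rcases mem_insert.1 hx with h | h
      · exact h.le
      · exact (hm x h).le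
    have h2 : ∀ y ∈ Y, (insert m Y).filter (fun y' => y' ≤ y) = Y.filter (fun y' => y' ≤ y) := by
      intro y hy
      rw [Finset.filter_insert, if_neg]
      have := hm y hy
      exact not_le.2 this
    rw [h1, Finset.sum_insert hmY]
    have h3 : ∑ x ∈ Y, α x * Real.sqrt (∑ y' ∈ (insert m Y).filter (fun y' => y' ≤ x), α y') =
        ∑ x ∈ Y, α x * Real.sqrt (∑ y' ∈ Y.filter (fun y' => y' ≤ x), α y') :=
      Finset.sum_congr rfl (fun y hy => by rw [h2 y hy])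
    rw [h3]
    set A := ∑ y ∈ Y, α y with hAdef
    have hA : 0 ≤ A := Finset.sum_nonneg (fun y hy => (hY y hy).1)
    have h4 := step A (α m) hA hmm.1
    have h5 : Real.sqrt A ≤ Real.sqrt (α m + A) := Real.sqrt_le_sqrt (by linarith [hmm.1])
    have h6 : 0 ≤ (c - α m) * (Real.sqrt (α m + A) - Real.sqrt A) :=
      mul_nonneg (by linarith [hmm.2]) (by linarith)
    nlinarith [h4, h6, ih']

open Classical in
/-- the sum of the masses above -/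
lemma sum_high (Y : Finset ℝ) (α : ℝ → ℝ) (hα : ∀ y ∈ Y, 0 ≤ α y) :
    ∑ y ∈ Y, α y * Real.sqrt (∑ y' ∈ Y.filter (fun y' => y < y'), α y') ≤
      2 / 3 * ((∑ y ∈ Y, α y) * Real.sqrt (∑ y ∈ Y, α y)) := by
  induction Y using Finset.induction_on_min with
  | empty => simp
  | insert m Y hm ih =>
    have hmY : m ∉ Y := fun h => lt_irrefl _ (hm m h)
    have hY : ∀ y ∈ Y, 0 ≤ α y := fun y hy => hα y (mem_insert_of_mem hy)
    have hmm := hα m (mem_insert_self _ _)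
    have ih' := ih hY
    rw [Finset.sum_insert hmY, Finset.sum_insert hmY]
    have h1 : (insert m Y).filter (fun y' => m < y') = Y := by
      rw [Finset.filter_insert, if_neg (lt_irrefl _), Finset.filter_eq_self]
      exact hm
    have h2 : ∀ y ∈ Y, (insert m Y).filter (fun y' => y < y') = Y.filter (fun y' => y < y') := by
      intro y hy
      rw [Finset.filter_insert, if_neg]
      have := hm y hy
      exact not_lt.2 this.le
    rw [h1]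
    have h3 : ∑ x ∈ Y, α x * Real.sqrt (∑ y' ∈ (insert m Y).filter (fun y' => x < y'), α y') =
        ∑ x ∈ Y, α x * Real.sqrt (∑ y' ∈ Y.filter (fun y' => x < y'), α y') :=
      Finset.sum_congr rfl (fun y hy => by rw [h2 y hy])
    rw [h3]
    set A := ∑ y ∈ Y, α y with hAdef
    have hA : 0 ≤ A := Finset.sum_nonneg (fun y hy => hY y hy)
    have h4 := step A (α m) hA hmm
    linarith [h4, ih']

open Classical in
/-- Cauchy-Schwarz for a set of pairs with given difference -/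
lemma cs_pairs (P : Finset (ℝ × ℝ)) (Y Z : Finset ℝ) (α β : ℝ → ℝ) (δ : ℝ)
    (hα : ∀ y ∈ Y, 0 ≤ α y) (hβ : ∀ z ∈ Z, 0 ≤ β z)
    (hP : ∀ p ∈ P, p.1 ∈ Y ∧ p.2 ∈ Z ∧ p.1 - p.2 = δ) :
    ∑ p ∈ P, Real.sqrt (α p.1 * β p.2) ≤ Real.sqrt (∑ y ∈ Y, α y) * Real.sqrt (∑ z ∈ Z, β z) := by
  have h1 : ∑ p ∈ P, Real.sqrt (α p.1 * β p.2) =
      ∑ p ∈ P, Real.sqrt (α p.1) * Real.sqrt (β p.2) :=
    Finset.sum_congr rfl (fun p hp => Real.sqrt_mul (hα _ (hP p hp).1) _)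
  rw [h1]
  refine (Real.sum_mul_le_sqrt_mul_sqrt P _ _).trans ?_
  refine mul_le_mul (Real.sqrt_le_sqrt ?_) (Real.sqrt_le_sqrt ?_) (Real.sqrt_nonneg _)
    (Real.sqrt_nonneg _)
  · have h2 : ∑ p ∈ P, Real.sqrt (α p.1) ^ 2 = ∑ y ∈ P.image Prod.fst, α y := by
      rw [Finset.sum_image]
      · exact Finset.sum_congr rfl (fun p hp => Real.sq_sqrt (hα _ (hP p hp).1))
      · intro p hp q hq h
        have e1 := (hP p hp).2.2
        have e2 := (hP q hq).2.2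
        have h' : p.1 = q.1 := h
        exact Prod.ext h' (by linarith)
    rw [h2]
    refine Finset.sum_le_sum_of_subset_of_nonneg ?_ (fun y hy _ => hα y hy)
    intro y hy
    rw [mem_image] at hy
    obtain ⟨p, hp, rfl⟩ := hy
    exact (hP p hp).1
  · have h2 : ∑ p ∈ P, Real.sqrt (β p.2) ^ 2 = ∑ z ∈ P.image Prod.snd, β z := by
      rw [Finset.sum_image]
      · exact Finset.sum_congr rfl (fun p hp => Real.sq_sqrt (hβ _ (hP p hp).2.1))
      · intro p hp q hq h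
        have e1 := (hP p hp).2.2
        have e2 := (hP q hq).2.2
        have h' : p.2 = q.2 := h
        exact Prod.ext (by linarith) h'
    rw [h2]
    refine Finset.sum_le_sum_of_subset_of_nonneg ?_ (fun z hz _ => hβ z hz)
    intro z hz
    rw [mem_image] at hz
    obtain ⟨p, hp, rfl⟩ := hz
    exact (hP p hp).2.1

open Classical in
/-- the sum of the square roots -/
noncomputable def N (Y Z : Finset ℝ) (α β : ℝ → ℝ) (δ : ℝ) : ℝ :=
  ∑ p ∈ (Y ×ˢ Z).filter (fun p => p.1 - p.2 = δ), Real.sqrt (α p.1 * β p.2)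

open Classical in
lemma N_le (Y Z : Finset ℝ) (α β : ℝ → ℝ) (hα : ∀ y ∈ Y, 0 ≤ α y) (hβ : ∀ z ∈ Z, 0 ≤ β z)
    (y z : ℝ) :
    N Y Z α β (y - z) ≤ Real.sqrt (∑ y' ∈ Y.filter (fun y' => y' ≤ y), α y') *
        Real.sqrt (∑ z' ∈ Z.filter (fun z' => z' ≤ z), β z') +
      Real.sqrt (∑ y' ∈ Y.filter (fun y' => y < y'), α y') *
        Real.sqrt (∑ z' ∈ Z.filter (fun z' => z < z'), β z') := by
  unfold N
  rw [← Finset.sum_filter_add_sum_filter_not ((Y ×ˢ Z).filter (fun p => p.1 - p.2 = y - z))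
    (fun p => p.1 ≤ y)]
  refine add_le_add ?_ ?_
  · refine cs_pairs _ _ _ α β (y - z) (fun y hy => hα y (mem_filter.1 hy).1)
      (fun z hz => hβ z (mem_filter.1 hz).1) ?_
    intro p hp
    rw [mem_filter, mem_filter, mem_product] at hp
    refine ⟨mem_filter.2 ⟨hp.1.1.1, hp.2⟩, mem_filter.2 ⟨hp.1.1.2, ?_⟩, hp.1.2⟩
    linarith [hp.1.2, hp.2]
  · refine cs_pairs _ _ _ α β (y - z) (fun y hy => hα y (mem_filter.1 hy).1)
      (fun z hz => hβ z (mem_filter.1 hz).1) ?_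
    intro p hp
    rw [mem_filter, mem_filter, mem_product] at hp
    have h2 := not_le.1 hp.2
    refine ⟨mem_filter.2 ⟨hp.1.1.1, h2⟩, mem_filter.2 ⟨hp.1.1.2, ?_⟩, hp.1.2⟩
    linarith [hp.1.2]

open Classical in
lemma mean_le (Y Z : Finset ℝ) (α β : ℝ → ℝ) (μ : ℝ) (hμ : 0 ≤ μ) (hμ1 : μ ≤ 1)
    (hα : ∀ y ∈ Y, 0 < α y ∧ α y ≤ μ * ∑ y ∈ Y, α y)
    (hβ : ∀ z ∈ Z, 0 < β z ∧ β z ≤ μ * ∑ z ∈ Z, β z) :
    ∑ y ∈ Y, ∑ z ∈ Z, α y * β z * N Y Z α β (y - z) ≤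
      (8 / 9 + 3 * μ) * (((∑ y ∈ Y, α y) * Real.sqrt (∑ y ∈ Y, α y)) *
        ((∑ z ∈ Z, β z) * Real.sqrt (∑ z ∈ Z, β z))) := by
  set a := ∑ y ∈ Y, α y with ha
  set b := ∑ z ∈ Z, β z with hb
  have ha0 : 0 ≤ a := Finset.sum_nonneg (fun y hy => (hα y hy).1.le)
  have hb0 : 0 ≤ b := Finset.sum_nonneg (fun y hy => (hβ y hy).1.le)
  have hα0 : ∀ y ∈ Y, 0 ≤ α y := fun y hy => (hα y hy).1.le
  have hβ0 : ∀ z ∈ Z, 0 ≤ β z := fun z hz => (hβ z hz).1.le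
  have h1 : ∑ y ∈ Y, ∑ z ∈ Z, α y * β z * N Y Z α β (y - z) ≤
      ∑ y ∈ Y, ∑ z ∈ Z, ((α y * Real.sqrt (∑ y' ∈ Y.filter (fun y' => y' ≤ y), α y')) *
        (β z * Real.sqrt (∑ z' ∈ Z.filter (fun z' => z' ≤ z), β z')) +
      (α y * Real.sqrt (∑ y' ∈ Y.filter (fun y' => y < y'), α y')) *
        (β z * Real.sqrt (∑ z' ∈ Z.filter (fun z' => z < z'), β z'))) := by
    refine Finset.sum_le_sum (fun y hy => Finset.sum_le_sum (fun z hz => ?_))
    have h := mul_le_mul_of_nonneg_left (N_le Y Z α β hα0 hβ0 y z)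
      (mul_nonneg (hα0 y hy) (hβ0 z hz))
    refine h.trans (le_of_eq ?_)
    ring
  refine h1.trans ?_
  simp only [Finset.sum_add_distrib]
  rw [← Finset.sum_mul_sum, ← Finset.sum_mul_sum]
  have l1 := sum_low Y α (μ * a) (fun y hy => ⟨(hα y hy).1.le, (hα y hy).2⟩)
  have l2 := sum_low Z β (μ * b) (fun y hy => ⟨(hβ y hy).1.le, (hβ y hy).2⟩)
  have l3 := sum_high Y α hα0
  have l4 := sum_high Z β hβ0
  rw [← ha] at l1 l3
  rw [← hb] at l2 l4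
  have n1 : 0 ≤ ∑ y ∈ Y, α y * Real.sqrt (∑ y' ∈ Y.filter (fun y' => y' ≤ y), α y') :=
    Finset.sum_nonneg (fun y hy => mul_nonneg (hα0 y hy) (Real.sqrt_nonneg _))
  have n2 : 0 ≤ ∑ z ∈ Z, β z * Real.sqrt (∑ z' ∈ Z.filter (fun z' => z' ≤ z), β z') :=
    Finset.sum_nonneg (fun y hy => mul_nonneg (hβ0 y hy) (Real.sqrt_nonneg _))
  have n3 : 0 ≤ ∑ y ∈ Y, α y * Real.sqrt (∑ y' ∈ Y.filter (fun y' => y < y'), α y') :=
    Finset.sum_nonneg (fun y hy => mul_nonneg (hα0 y hy) (Real.sqrt_nonneg _))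
  have n4 : 0 ≤ ∑ z ∈ Z, β z * Real.sqrt (∑ z' ∈ Z.filter (fun z' => z < z'), β z') :=
    Finset.sum_nonneg (fun y hy => mul_nonneg (hβ0 y hy) (Real.sqrt_nonneg _))
  have m1 := mul_le_mul l1 l2 n2 (n1.trans l1)
  have m2 := mul_le_mul l3 l4 n4 (n3.trans l3)
  have hp : 0 ≤ (a * Real.sqrt a) * (b * Real.sqrt b) := by positivity
  have hq : 0 ≤ (5 / 3 * μ - μ ^ 2) * ((a * Real.sqrt a) * (b * Real.sqrt b)) := by
    refine mul_nonneg ?_ hp
    nlinarith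
  nlinarith [m1, m2, hq]

open Classical in
/-- Cauchy-Schwarz on a fiber -/
lemma fiber (P : Finset (ℝ × ℝ)) (w : ℝ × ℝ → ℝ) (hw : ∀ p ∈ P, 0 < w p) (hP : P.Nonempty) :
    (∑ p ∈ P, w p) * (Real.sqrt (∑ p ∈ P, Real.sqrt (w p)))⁻¹ ≤
      Real.sqrt (∑ p ∈ P, (w p) ^ (3 / 2 : ℝ)) := by
  have hN : 0 < ∑ p ∈ P, Real.sqrt (w p) :=
    Finset.sum_pos (fun p hp => Real.sqrt_pos.2 (hw p hp)) hP
  rw [mul_inv_le_iff₀ (Real.sqrt_pos.2 hN), ← Real.sqrt_mul (Finset.sum_nonneg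
    (fun p hp => Real.rpow_nonneg (hw p hp).le _))]
  refine Real.le_sqrt_of_sq_le ?_
  have h := Finset.sum_mul_sq_le_sq_mul_sq P (fun p => (w p) ^ (3 / 4 : ℝ))
    (fun p => (w p) ^ (1 / 4 : ℝ))
  have h1 : ∑ p ∈ P, (w p) ^ (3 / 4 : ℝ) * (w p) ^ (1 / 4 : ℝ) = ∑ p ∈ P, w p := by
    refine Finset.sum_congr rfl (fun p hp => ?_)
    rw [← Real.rpow_add (hw p hp)]
    norm_num
  have h2 : ∑ p ∈ P, ((w p) ^ (3 / 4 : ℝ)) ^ 2 = ∑ p ∈ P, (w p) ^ (3 / 2 : ℝ) := by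
    refine Finset.sum_congr rfl (fun p hp => ?_)
    rw [← Real.rpow_natCast, ← Real.rpow_mul (hw p hp).le]
    norm_num
  have h3 : ∑ p ∈ P, ((w p) ^ (1 / 4 : ℝ)) ^ 2 = ∑ p ∈ P, Real.sqrt (w p) := by
    refine Finset.sum_congr rfl (fun p hp => ?_)
    rw [← Real.rpow_natCast, ← Real.rpow_mul (hw p hp).le, Real.sqrt_eq_rpow]
    norm_num
  rw [h1, h2, h3] at h
  exact h

/-- the tangent of `x ^ (-1/2)` -/
lemma tangent (x r : ℝ) (hx : 0 < x) (hr : 0 < r) :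
    3 / 2 * r⁻¹ - 1 / 2 * x * (r⁻¹) ^ 3 ≤ (Real.sqrt x)⁻¹ := by
  have hs : 0 < Real.sqrt x := Real.sqrt_pos.2 hx
  have hsq : Real.sqrt x ^ 2 = x := Real.sq_sqrt hx.le
  generalize Real.sqrt x = s at hs hsq ⊢
  subst hsq
  have h1 : 0 ≤ (s - r) ^ 2 * (s + 2 * r) := by positivity
  have h2 : s⁻¹ - (3 / 2 * r⁻¹ - 1 / 2 * s ^ 2 * (r⁻¹) ^ 3) =
      ((s - r) ^ 2 * (s + 2 * r)) / (2 * s * r ^ 3) := by
    field_simp
    ring
  have h3 : 0 ≤ ((s - r) ^ 2 * (s + 2 * r)) / (2 * s * r ^ 3) := div_nonneg h1 (by positivity)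
  linarith

end SQB

open Classical in
theorem stmt_SQB : Stmt_SQB := by
  intro Y Z α β μ hY hZ hμ hμ1 hα hβ
  set a := ∑ y ∈ Y, α y with ha
  set b := ∑ z ∈ Z, β z with hb
  have ha0 : 0 < a := Finset.sum_pos (fun y hy => (hα y hy).1) hY
  have hb0 : 0 < b := Finset.sum_pos (fun y hy => (hβ y hy).1) hZ
  -- the lower bound by the sum over the pairs
  have h1 : ∑ y ∈ Y, ∑ z ∈ Z, α y * β z * (Real.sqrt (SQB.N Y Z α β (y - z)))⁻¹ ≤
      ∑ δ ∈ Y - Z, Real.sqrt (∑ y ∈ (Y ×ˢ Z).filter (fun y => y.1 - y.2 = δ),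
        (α y.1 * β y.2) ^ (3 / 2 : ℝ)) := by
    rw [← Finset.sum_product']
    have hmap : ∀ p ∈ Y ×ˢ Z, p.1 - p.2 ∈ Y - Z := by
      intro p hp
      rw [mem_product] at hp
      exact Finset.sub_mem_sub hp.1 hp.2
    rw [← Finset.sum_fiberwise_of_maps_to hmap]
    refine Finset.sum_le_sum (fun δ hδ => ?_)
    have e1 : ∑ p ∈ (Y ×ˢ Z).filter (fun p => p.1 - p.2 = δ),
        α p.1 * β p.2 * (Real.sqrt (SQB.N Y Z α β (p.1 - p.2)))⁻¹ =
        (∑ p ∈ (Y ×ˢ Z).filter (fun p => p.1 - p.2 = δ), α p.1 * β p.2) *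
          (Real.sqrt (SQB.N Y Z α β δ))⁻¹ := by
      rw [Finset.sum_mul]
      refine Finset.sum_congr rfl (fun p hp => ?_)
      rw [mem_filter] at hp
      rw [hp.2]
    rw [e1]
    refine SQB.fiber _ (fun p => α p.1 * β p.2) ?_ ?_
    · intro p hp
      rw [mem_filter, mem_product] at hp
      exact mul_pos (hα _ hp.1.1).1 (hβ _ hp.1.2).1
    · rw [Finset.mem_sub] at hδ
      obtain ⟨y, hy, z, hz, h⟩ := hδ
      exact ⟨(y, z), by rw [mem_filter, mem_product]; exact ⟨⟨hy, hz⟩, h⟩⟩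
  refine le_trans ?_ h1
  -- Jensen
  have h89 : 0 < 8 / 9 + 3 * μ := by linarith
  set m := (8 / 9 + 3 * μ) * Real.sqrt (a * b) with hm
  have hab : 0 < a * b := mul_pos ha0 hb0
  have hm0 : 0 < m := mul_pos h89 (Real.sqrt_pos.2 hab)
  set r := Real.sqrt m with hr
  have hr0 : 0 < r := Real.sqrt_pos.2 hm0
  have hrm : r ^ 2 = m := Real.sq_sqrt hm0.le
  have h2 := SQB.mean_le Y Z α β μ hμ hμ1 hα hβ
  rw [← ha, ← hb] at h2
  have h2' : ∑ y ∈ Y, ∑ z ∈ Z, α y * β z * SQB.N Y Z α β (y - z) ≤ r ^ 2 * (a * b) := by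
    refine h2.trans (le_of_eq ?_)
    rw [hrm, hm, Real.sqrt_mul ha0.le]
    ring
  have h3 : ∑ y ∈ Y, ∑ z ∈ Z, (3 / 2 * r⁻¹ * (α y * β z) -
      1 / 2 * (r⁻¹) ^ 3 * (α y * β z * SQB.N Y Z α β (y - z))) ≤
      ∑ y ∈ Y, ∑ z ∈ Z, α y * β z * (Real.sqrt (SQB.N Y Z α β (y - z)))⁻¹ := by
    refine Finset.sum_le_sum (fun y hy => Finset.sum_le_sum (fun z hz => ?_))
    have hN : 0 < SQB.N Y Z α β (y - z) := by
      unfold SQB.N
      refine Finset.sum_pos ?_ ?_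
      · intro p hp
        rw [mem_filter, mem_product] at hp
        exact Real.sqrt_pos.2 (mul_pos (hα _ hp.1.1).1 (hβ _ hp.1.2).1)
      · exact ⟨(y, z), by rw [mem_filter, mem_product]; exact ⟨⟨hy, hz⟩, rfl⟩⟩
    have := mul_le_mul_of_nonneg_left (SQB.tangent _ r hN hr0)
      (mul_pos (hα y hy).1 (hβ z hz).1).le
    refine le_trans (le_of_eq ?_) this
    ring
  refine le_trans ?_ h3
  have h4 : ∑ y ∈ Y, ∑ z ∈ Z, (3 / 2 * r⁻¹ * (α y * β z) -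
      1 / 2 * (r⁻¹) ^ 3 * (α y * β z * SQB.N Y Z α β (y - z))) =
      3 / 2 * r⁻¹ * (a * b) -
        1 / 2 * (r⁻¹) ^ 3 * ∑ y ∈ Y, ∑ z ∈ Z, α y * β z * SQB.N Y Z α β (y - z) := by
    simp only [Finset.sum_sub_distrib]
    rw [ha, hb, Finset.sum_mul_sum, Finset.mul_sum, Finset.mul_sum]
    simp only [Finset.mul_sum]
  rw [h4]
  have h5 : 1 / 2 * (r⁻¹) ^ 3 * ∑ y ∈ Y, ∑ z ∈ Z, α y * β z * SQB.N Y Z α β (y - z) ≤
      1 / 2 * (r⁻¹) ^ 3 * (r ^ 2 * (a * b)) :=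
    mul_le_mul_of_nonneg_left h2' (by positivity)
  have h6 : 1 / 2 * (r⁻¹) ^ 3 * (r ^ 2 * (a * b)) = 1 / 2 * r⁻¹ * (a * b) := by
    field_simp
  have h7 : (a * b) ^ (3 / 4 : ℝ) / Real.sqrt (8 / 9 + 3 * μ) = r⁻¹ * (a * b) := by
    rw [hr, hm, Real.sqrt_mul h89.le, mul_inv, div_eq_mul_inv]
    have h8 : (Real.sqrt (Real.sqrt (a * b)))⁻¹ * (a * b) = (a * b) ^ (3 / 4 : ℝ) := by
      rw [Real.sqrt_eq_rpow, Real.sqrt_eq_rpow, ← Real.rpow_mul hab.le, ← Real.rpow_neg hab.le]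
      nth_rewrite 2 [← Real.rpow_one (a * b)]
      rw [← Real.rpow_add hab]
      norm_num
    rw [← h8]
    ring
  rw [h7]
  linarith [h5, h6]

end Pool.RAT
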