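import Pool.Agent.Work.MP_dc37f8_rat.Interface

/-!
# MP_dc37f8_co, block SQR (helper97)

The sum of the square roots of the numbers of representations, for sets on few horizontal lines
with few points on each line.
-/

set_option autoImplicit false
set_option maxHeartbeats 4000000

open Finset

namespace Pool.RAT

open scoped Pointwise

namespace SQR

open Classical in
/-- the points on the lines with at least `M` points -/
noncomputable def big (E : Finset ℂ) (M : ℕ) : Finset ℂ :=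
  E.filter (fun e => M ≤ (E.filter (fun z => z.im = e.im)).card)

open Classical in
lemma big_row (E : Finset ℂ) (M : ℕ) (e : ℂ) (he : e ∈ big E M) :
    M ≤ ((big E M).filter (fun z => z.im = e.im)).card := by
  unfold big at he
  rw [mem_filter] at he
  have h : (big E M).filter (fun z => z.im = e.im) = E.filter (fun z => z.im = e.im) := by
    ext z
    unfold big
    simp only [mem_filter]
    constructor
    · intro h; exact ⟨h.1.1, h.2⟩
    · intro h
      refine ⟨⟨h.1, ?_⟩, h.2⟩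
      rw [h.2]; exact he.2
  rw [h]; exact he.2

open Classical in
lemma card_big (E : Finset ℂ) (M : ℕ) :
    E.card ≤ (big E M).card + M * (E.image Complex.im).card := by
  have h1 := Finset.card_filter_add_card_filter_not (s := E)
    (fun e => M ≤ (E.filter (fun z => z.im = e.im)).card)
  have h2 : (E.filter (fun e => ¬ M ≤ (E.filter (fun z => z.im = e.im)).card)).card ≤
      M * ((E.filter (fun e => ¬ M ≤ (E.filter (fun z => z.im = e.im)).card)).image
        Complex.im).card := by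
    refine Finset.card_le_mul_card_image _ _ ?_
    intro y hy
    rw [mem_image] at hy
    obtain ⟨e, he, rfl⟩ := hy
    rw [mem_filter] at he
    have h3 := not_le.1 he.2
    refine le_trans (Finset.card_le_card ?_) h3.le
    intro z hz
    rw [mem_filter, mem_filter] at hz
    rw [mem_filter]
    exact ⟨hz.1.1, hz.2⟩
  have h4 : ((E.filter (fun e => ¬ M ≤ (E.filter (fun z => z.im = e.im)).card)).image
      Complex.im).card ≤ (E.image Complex.im).card :=
    Finset.card_le_card (Finset.image_subset_image (Finset.filter_subset _ _))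
  have h5 := Nat.mul_le_mul_left M h4
  unfold big
  omega

open Classical in
/-- the estimates for one set -/
lemma one (E : Finset ℂ) (M N K : ℕ) (s v : ℝ) (hM : 1 ≤ M) (hs : 0 < s) (hv : 0 < v)
    (hv1 : v ≤ 1 / 2) (hN : (M : ℝ) * K ≤ v * N) (hN0 : (0 : ℝ) < N) (hE : s ≤ K * E.card)
    (hl : (N : ℝ) * (E.image Complex.im).card ≤ s)
    (hr : ∀ y : ℝ, (N : ℝ) * (E.filter (fun z => z.im = y)).card ≤ s) :
    0 < E.card ∧ (1 - v) * E.card ≤ ((big E M).card : ℝ) ∧
      (∀ y : ℝ, ((((big E M).filter (fun z => z.im = y)).card : ℕ) : ℝ) ≤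
        2 * v * (big E M).card) := by
  have hE0 : (0 : ℝ) ≤ E.card := Nat.cast_nonneg _
  have hK0 : (0 : ℝ) ≤ K := Nat.cast_nonneg _
  have hEp : 0 < E.card := by
    rcases Nat.eq_zero_or_pos E.card with h | h
    · rw [h] at hE; simp at hE; linarith
    · exact h
  have hEp' : (0 : ℝ) < E.card := by exact_mod_cast hEp
  have h1 : (E.card : ℝ) ≤ (big E M).card + M * (E.image Complex.im).card := by
    exact_mod_cast card_big E M
  have hM' : (1 : ℝ) ≤ M := by exact_mod_cast hM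
  -- M times the number of lines is at most v |E|
  have h2 : (M : ℝ) * (E.image Complex.im).card ≤ v * E.card := by
    have h3 : (M : ℝ) * (N * (E.image Complex.im).card) ≤ M * (K * E.card) :=
      mul_le_mul_of_nonneg_left (hl.trans hE) (by linarith)
    have h4 : (M : ℝ) * K * E.card ≤ v * N * E.card := mul_le_mul_of_nonneg_right hN hE0
    have h5 : (N : ℝ) * (M * (E.image Complex.im).card) ≤ N * (v * E.card) := by linarith
    exact le_of_mul_le_mul_left h5 hN0
  have h6 : (1 - v) * E.card ≤ ((big E M).card : ℝ) := by linarith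
  refine ⟨hEp, h6, ?_⟩
  intro y
  have h7 : (((((big E M).filter (fun z => z.im = y)).card : ℕ) : ℝ)) ≤
      (E.filter (fun z => z.im = y)).card := by
    have : ((big E M).filter (fun z => z.im = y)).card ≤ (E.filter (fun z => z.im = y)).card := by
      refine Finset.card_le_card ?_
      unfold big
      exact Finset.filter_subset_filter _ (Finset.filter_subset _ _)
    exact_mod_cast this
  have h8 : (N : ℝ) * (E.filter (fun z => z.im = y)).card ≤ N * (v * E.card) := by
    have h9 := (hr y).trans hE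
    have h10 : (K : ℝ) * E.card ≤ M * K * E.card := by
      have : (K : ℝ) * E.card * 1 ≤ K * E.card * M :=
        mul_le_mul_of_nonneg_left hM' (mul_nonneg hK0 hE0)
      linarith
    have h4 : (M : ℝ) * K * E.card ≤ v * N * E.card := mul_le_mul_of_nonneg_right hN hE0
    linarith
  have h9 : (((E.filter (fun z => z.im = y)).card : ℕ) : ℝ) ≤ v * E.card :=
    le_of_mul_le_mul_left h8 hN0
  have h10 : v * (E.card : ℝ) ≤ v * (2 * (big E M).card) := by
    refine mul_le_mul_of_nonneg_left ?_ hv.le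
    have : (1 / 2 : ℝ) * E.card ≤ (1 - v) * E.card :=
      mul_le_mul_of_nonneg_right (by linarith) hE0
    linarith
  linarith

/-- the constants -/
lemma const (u v P : ℝ) (hu : 0 ≤ u) (hu1 : u ≤ 1) (hv : 0 ≤ v) (hv1 : v ≤ 1 / 24) (hP : 0 ≤ P) :
    Real.sqrt 2 * (1 - u - 6 * v) * P ^ (3 / 4 : ℝ) ≤
      4 / 3 * (1 - u) * (((1 - v) ^ 2 * P) ^ (3 / 4 : ℝ) / Real.sqrt (8 / 9 + 3 * (2 * v))) := by
  have hP' : 0 ≤ P ^ (3 / 4 : ℝ) := Real.rpow_nonneg hP _
  have h1 : (1 - v) ^ 2 ≤ ((1 - v) ^ 2) ^ (3 / 4 : ℝ) := by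
    have h2 : 0 < (1 - v) ^ 2 := by
      have : 0 < 1 - v := by linarith
      positivity
    have h3 : (1 - v) ^ 2 ≤ 1 := by nlinarith
    have h4 := Real.rpow_le_rpow_of_exponent_ge h2 h3 (by norm_num : (3 / 4 : ℝ) ≤ 1)
    rwa [Real.rpow_one] at h4
  rw [Real.mul_rpow (sq_nonneg _) hP]
  have h5 : 1 - 2 * v ≤ ((1 - v) ^ 2) ^ (3 / 4 : ℝ) := by nlinarith
  have hD : 0 < 8 / 9 + 3 * (2 * v) := by linarith
  have hsD : 0 < Real.sqrt (8 / 9 + 3 * (2 * v)) := Real.sqrt_pos.2 hD
  have h2p : 0 < Real.sqrt 2 := Real.sqrt_pos.2 (by norm_num)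
  have h2q : Real.sqrt 2 ^ 2 = 2 := Real.sq_sqrt (by norm_num)
  -- sqrt 2 (1 - 27 v / 8) ≤ (4 / 3) / sqrt D
  have h6 : Real.sqrt 2 * (1 - 27 * v / 8) ≤ 4 / 3 / Real.sqrt (8 / 9 + 3 * (2 * v)) := by
    rw [le_div_iff₀ hsD]
    refine (sq_le_sq₀ (by
      exact mul_nonneg (mul_nonneg h2p.le (by linarith)) hsD.le) (by norm_num)).1 ?_
    have e1 : (Real.sqrt 2 * (1 - 27 * v / 8) * Real.sqrt (8 / 9 + 3 * (2 * v))) ^ 2 =
        2 * (1 - 27 * v / 8) ^ 2 * (8 / 9 + 3 * (2 * v)) := by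
      rw [mul_pow, mul_pow, h2q, Real.sq_sqrt hD.le]
    rw [e1]
    have e2 : (4 / 3 : ℝ) ^ 2 - 2 * (1 - 27 * v / 8) ^ 2 * (8 / 9 + 3 * (2 * v)) =
        16 / 9 * (27 * v / 8) ^ 2 * (3 - 2 * (27 * v / 8)) := by ring
    have e3 : 0 ≤ 16 / 9 * (27 * v / 8) ^ 2 * (3 - 2 * (27 * v / 8)) := by
      refine mul_nonneg (by positivity) (by linarith)
    linarith
  have h7 : (1 - u) * ((1 - 2 * v) * (Real.sqrt 2 * (1 - 27 * v / 8))) ≤
      (1 - u) * (((1 - v) ^ 2) ^ (3 / 4 : ℝ) * (4 / 3 / Real.sqrt (8 / 9 + 3 * (2 * v)))) := by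
    refine mul_le_mul_of_nonneg_left ?_ (by linarith)
    refine mul_le_mul h5 h6 (mul_nonneg h2p.le (by linarith)) (Real.rpow_nonneg (sq_nonneg _) _)
  have h8 : Real.sqrt 2 * (1 - u - 6 * v) ≤
      (1 - u) * ((1 - 2 * v) * (Real.sqrt 2 * (1 - 27 * v / 8))) := by
    have h9 : 1 - u - 6 * v ≤ (1 - u) * ((1 - 2 * v) * (1 - 27 * v / 8)) := by
      have h10 : 1 - 2 * v - 27 * v / 8 ≤ (1 - 2 * v) * (1 - 27 * v / 8) := by nlinarith
      have h11 := mul_le_mul_of_nonneg_left h10 (by linarith : 0 ≤ 1 - u)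
      nlinarith [mul_nonneg hu hv]
    have h12 := mul_le_mul_of_nonneg_left h9 h2p.le
    linarith
  have h13 := mul_le_mul_of_nonneg_right (h8.trans h7) hP'
  refine h13.trans (le_of_eq ?_)
  ring

end SQR

open Classical in
theorem stmt_SQR (hA : Stmt_SQA) (hB : Stmt_SQB) : Stmt_SQR := by
  intro K ε hε
  -- the constants
  set ε' := min ε 1 with hε'
  have hε'0 : 0 < ε' := lt_min hε one_pos
  have hε'1 : ε' ≤ 1 := min_le_right _ _
  have hε'2 : ε' ≤ ε := min_le_left _ _
  set M := ⌈4 / ε'⌉₊ with hM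
  have hM1 : 4 / ε' ≤ M := Nat.le_ceil _
  have hM4 : (4 : ℝ) ≤ M := by
    refine le_trans ?_ hM1
    rw [le_div_iff₀ hε'0]; linarith
  have hM0 : 1 ≤ M := by
    have : (1 : ℝ) ≤ M := by linarith
    exact_mod_cast this
  set v := ε' / 24 with hv
  have hv0 : 0 < v := by positivity
  have hv1 : v ≤ 1 / 24 := by rw [hv]; linarith
  refine ⟨⌈(M : ℝ) * K / v⌉₊ + 1, ?_⟩
  set N := ⌈(M : ℝ) * K / v⌉₊ + 1 with hN
  have hN1 : (M : ℝ) * K ≤ v * N := by
    have h1 : (M : ℝ) * K / v ≤ N := by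
      refine (Nat.le_ceil _).trans ?_
      rw [hN]; push_cast; linarith
    rw [div_le_iff₀ hv0] at h1
    linarith
  have hN0 : (0 : ℝ) < N := by rw [hN]; push_cast; positivity
  intro s A B hs hKA hKB hE
  obtain ⟨hAl, hAr⟩ := hE A (by simp)
  obtain ⟨hBl, hBr⟩ := hE B (by simp)
  obtain ⟨hAp, hA1, hA2⟩ := SQR.one A M N K s v hM0 hs hv0 (by linarith) hN1 hN0 hKA hAl hAr
  obtain ⟨hBp, hB1, hB2⟩ := SQR.one B M N K s v hM0 hs hv0 (by linarith) hN1 hN0 hKB hBl hBr
  have hAp' : (0 : ℝ) < A.card := by exact_mod_cast hAp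
  have hBp' : (0 : ℝ) < B.card := by exact_mod_cast hBp
  set A' := SQR.big A M with hA'
  set B' := SQR.big B M with hB'
  have hA'p : (0 : ℝ) < A'.card := by
    refine lt_of_lt_of_le ?_ hA1
    exact mul_pos (by linarith) hAp'
  have hB'p : (0 : ℝ) < B'.card := by
    refine lt_of_lt_of_le ?_ hB1
    exact mul_pos (by linarith) hBp'
  have hA'n : A'.Nonempty := by
    rw [← Finset.card_pos]; exact_mod_cast hA'p
  have hB'n : B'.Nonempty := by
    rw [← Finset.card_pos]; exact_mod_cast hB'p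
  have k1 := hA A' B' M hM0 (fun a ha => SQR.big_row A M a ha) (fun b hb => SQR.big_row B M b hb)
  -- SQB
  have sA : ∑ y ∈ A'.image Complex.im, (((A'.filter (fun z => z.im = y)).card : ℕ) : ℝ) =
      A'.card := by
    rw [← Nat.cast_sum, ← Finset.card_eq_sum_card_image]
  have sB : ∑ y ∈ B'.image Complex.im, (((B'.filter (fun z => z.im = y)).card : ℕ) : ℝ) =
      B'.card := by
    rw [← Nat.cast_sum, ← Finset.card_eq_sum_card_image]
  have k2 := hB (A'.image Complex.im) (B'.image Complex.im)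
    (fun y => (((A'.filter (fun z => z.im = y)).card : ℕ) : ℝ))
    (fun y => (((B'.filter (fun z => z.im = y)).card : ℕ) : ℝ)) (2 * v)
    (hA'n.image _) (hB'n.image _) (by linarith) (by linarith)
    (by
      intro y hy
      refine ⟨?_, ?_⟩
      · rw [mem_image] at hy
        obtain ⟨a, ha, rfl⟩ := hy
        have : 0 < (A'.filter (fun z => z.im = a.im)).card := by
          rw [Finset.card_pos]
          exact ⟨a, by rw [mem_filter]; exact ⟨ha, rfl⟩⟩
        exact_mod_cast this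
      · rw [sA]; exact hA2 y)
    (by
      intro y hy
      refine ⟨?_, ?_⟩
      · rw [mem_image] at hy
        obtain ⟨a, ha, rfl⟩ := hy
        have : 0 < (B'.filter (fun z => z.im = a.im)).card := by
          rw [Finset.card_pos]
          exact ⟨a, by rw [mem_filter]; exact ⟨ha, rfl⟩⟩
        exact_mod_cast this
      · rw [sB]; exact hB2 y)
  rw [sA, sB] at k2
  -- the sum for the smaller sets
  have k3 : ∑ d ∈ A' - B', Real.sqrt (((A'.filter (fun a => a - d ∈ B')).card : ℕ) : ℝ) ≤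
      ∑ d ∈ A - B, Real.sqrt (((A.filter (fun a => a - d ∈ B)).card : ℕ) : ℝ) := by
    have hsA : A' ⊆ A := Finset.filter_subset _ _
    have hsB : B' ⊆ B := Finset.filter_subset _ _
    refine (Finset.sum_le_sum (fun d _ => ?_)).trans
      (Finset.sum_le_sum_of_subset_of_nonneg (Finset.sub_subset_sub hsA hsB)
        (fun d _ _ => Real.sqrt_nonneg _))
    refine Real.sqrt_le_sqrt ?_
    have : (A'.filter (fun a => a - d ∈ B')).card ≤ (A.filter (fun a => a - d ∈ B)).card := by
      refine Finset.card_le_card ?_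
      intro a ha
      rw [mem_filter] at ha ⊢
      exact ⟨hsA ha.1, hsB ha.2⟩
    exact_mod_cast this
  refine le_trans ?_ (k1.trans k3)
  have hu0 : (0 : ℝ) ≤ 1 / M := by positivity
  have hMp : (0 : ℝ) < M := by linarith
  have hu1 : 1 / (M : ℝ) ≤ ε' / 4 := by
    rw [div_le_iff₀ hMp]
    rw [div_le_iff₀ hε'0] at hM1
    linarith
  have k4 := mul_le_mul_of_nonneg_left k2 (by
    have : 1 / (M : ℝ) ≤ 1 := by linarith
    linarith : (0 : ℝ) ≤ 4 / 3 * (1 - 1 / M))
  refine le_trans ?_ k4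
  have k5 := SQR.const (1 / M) v ((A.card : ℝ) * B.card) hu0 (by linarith) hv0.le hv1
    (by positivity)
  have k6 : 4 / 3 * (1 - 1 / (M : ℝ)) * ((((1 - v) ^ 2 * ((A.card : ℝ) * B.card)) ^ (3 / 4 : ℝ)) /
      Real.sqrt (8 / 9 + 3 * (2 * v))) ≤ 4 / 3 * (1 - 1 / (M : ℝ)) *
      (((A'.card : ℝ) * B'.card) ^ (3 / 4 : ℝ) / Real.sqrt (8 / 9 + 3 * (2 * v))) := by
    refine mul_le_mul_of_nonneg_left ?_ (by
      have : 1 / (M : ℝ) ≤ 1 := by linarith
      linarith)
    refine div_le_div_of_nonneg_right ?_ (Real.sqrt_nonneg _)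
    refine Real.rpow_le_rpow (by positivity) ?_ (by norm_num)
    have h1 : (1 - v) * A.card * ((1 - v) * B.card) ≤ (A'.card : ℝ) * B'.card :=
      mul_le_mul hA1 hB1 (mul_nonneg (by linarith) hBp'.le) hA'p.le
    refine le_trans (le_of_eq ?_) h1
    ring
  refine le_trans ?_ (k5.trans k6)
  refine mul_le_mul_of_nonneg_right ?_ (Real.rpow_nonneg (by positivity) _)
  have h2q : Real.sqrt 2 ^ 2 = 2 := Real.sq_sqrt (by norm_num)
  have h2p : 0 ≤ Real.sqrt 2 := Real.sqrt_nonneg _
  have h22 : Real.sqrt 2 ≤ 2 := by nlinarith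
  have h23 : 1 / (M : ℝ) + 6 * v ≤ ε' / 2 := by rw [hv]; linarith
  have h24 : Real.sqrt 2 * (1 / (M : ℝ) + 6 * v) ≤ 2 * (ε' / 2) :=
    mul_le_mul h22 h23 (by positivity) (by norm_num)
  linarith

end Pool.RAT
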