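import Pool.Agent.Work.MP_dc37f8_rat.InterfaceL

/-!
# MP_dc37f8_co, block SXP: popular rotations (helper50)
-/

set_option autoImplicit false

open Finset
open scoped Pointwise

namespace Pool.RF.SXL

open Classical in
/-- the set of shifts -/
noncomputable def T (P : Finset ℂ) (w : ℂ) : Finset ℂ := P - P.image (fun p => w * p)

open Classical in
/-- the points moved into `P` -/
noncomputable def B (P : Finset ℂ) (w t : ℂ) : Finset ℂ := P.filter (fun p => w * p + t ∈ P)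

theorem mem_T {P : Finset ℂ} {w t : ℂ} : t ∈ T P w ↔ ∃ p ∈ P, w * p + t ∈ P := by
  classical
  unfold T
  rw [Finset.mem_sub]
  constructor
  · rintro ⟨a, ha, b, hb, rfl⟩
    obtain ⟨p, hp, rfl⟩ := Finset.mem_image.1 hb
    exact ⟨p, hp, by simpa using ha⟩
  · rintro ⟨p, hp, h⟩
    exact ⟨w * p + t, h, w * p, Finset.mem_image_of_mem _ hp, by ring⟩

theorem card_fib {P : Finset ℂ} {w : ℂ} : ∑ t ∈ T P w, (B P w t).card = P.card ^ 2 := by
  classical
  have h := Finset.card_eq_sum_card_fiberwise (s := P ×ˢ P) (t := T P w)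
    (f := fun z => z.2 - w * z.1) (by
      intro z hz
      have hz' := Finset.mem_product.1 (Finset.mem_coe.1 hz)
      exact Finset.mem_coe.2 (mem_T.2 ⟨z.1, hz'.1, by simpa using hz'.2⟩))
  rw [Finset.card_product] at h
  rw [pow_two, h]
  refine Finset.sum_congr rfl fun t ht => ?_
  refine Finset.card_bij (fun p _ => (p, w * p + t)) ?_ ?_ ?_
  · intro p hp
    obtain ⟨hp1, hp2⟩ := Finset.mem_filter.1 hp
    exact Finset.mem_filter.2 ⟨Finset.mem_product.2 ⟨hp1, hp2⟩, by simp⟩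
  · intro p _ q _ h
    exact (Prod.mk.inj h).1
  · intro z hz
    obtain ⟨hz1, hz2⟩ := Finset.mem_filter.1 hz
    obtain ⟨h1, h2⟩ := Finset.mem_product.1 hz1
    have h3 : w * z.1 + t = z.2 := by rw [← hz2]; ring
    refine ⟨z.1, Finset.mem_filter.2 ⟨h1, ?_⟩, ?_⟩
    · rw [h3]; exact h2
    · exact Prod.ext rfl h3

theorem SX_eq {P : Finset ℂ} {w : ℂ} : SX P w = ∑ t ∈ T P w, (B P w t).card ^ 3 := by
  classical
  unfold SX
  rw [Finset.card_eq_sum_card_fiberwise (t := T P w)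
    (f := fun z : (ℂ × ℂ × ℂ) × (ℂ × ℂ × ℂ) => z.2.1 - w * z.1.1) (by
      intro z hz
      have hz' := Finset.mem_filter.1 (Finset.mem_coe.1 hz)
      have h1 := Finset.mem_product.1 hz'.1
      exact Finset.mem_coe.2 (mem_T.2 ⟨z.1.1, (Finset.mem_product.1 h1.1).1, by
        simpa using (Finset.mem_product.1 h1.2).1⟩))]
  refine Finset.sum_congr rfl fun t ht => ?_
  have h3 : (B P w t).card ^ 3 = (B P w t ×ˢ B P w t ×ˢ B P w t).card := by
    rw [Finset.card_product, Finset.card_product]; ring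
  rw [h3]
  symm
  refine Finset.card_bij
    (fun x _ => (x, (w * x.1 + t, w * x.2.1 + t, w * x.2.2 + t))) ?_ ?_ ?_
  · intro x hx
    obtain ⟨h1, h2⟩ := Finset.mem_product.1 hx
    obtain ⟨h2, h3⟩ := Finset.mem_product.1 h2
    obtain ⟨a1, b1⟩ := Finset.mem_filter.1 h1
    obtain ⟨a2, b2⟩ := Finset.mem_filter.1 h2
    obtain ⟨a3, b3⟩ := Finset.mem_filter.1 h3
    refine Finset.mem_filter.2 ⟨Finset.mem_filter.2 ⟨?_, ?_, ?_⟩, ?_⟩
    · exact Finset.mem_product.2 ⟨Finset.mem_product.2 ⟨a1, Finset.mem_product.2 ⟨a2, a3⟩⟩,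
        Finset.mem_product.2 ⟨b1, Finset.mem_product.2 ⟨b2, b3⟩⟩⟩
    · dsimp only; ring
    · dsimp only; ring
    · dsimp only; ring
  · intro x _ y _ h
    exact (Prod.mk.inj h).1
  · intro z hz
    obtain ⟨hz1, hz2⟩ := Finset.mem_filter.1 hz
    obtain ⟨hz0, hz3, hz4⟩ := Finset.mem_filter.1 hz1
    obtain ⟨h1, h2⟩ := Finset.mem_product.1 hz0
    obtain ⟨a1, h1⟩ := Finset.mem_product.1 h1
    obtain ⟨a2, a3⟩ := Finset.mem_product.1 h1
    obtain ⟨b1, h2⟩ := Finset.mem_product.1 h2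
    obtain ⟨b2, b3⟩ := Finset.mem_product.1 h2
    have e1 : w * z.1.1 + t = z.2.1 := by rw [← hz2]; ring
    have e2 : w * z.1.2.1 + t = z.2.2.1 := by linear_combination e1 + hz3
    have e3 : w * z.1.2.2 + t = z.2.2.2 := by linear_combination e1 + hz4
    refine ⟨z.1, Finset.mem_product.2 ⟨Finset.mem_filter.2 ⟨a1, ?_⟩,
      Finset.mem_product.2 ⟨Finset.mem_filter.2 ⟨a2, ?_⟩, Finset.mem_filter.2 ⟨a3, ?_⟩⟩⟩, ?_⟩
    · rw [e1]; exact b1
    · rw [e2]; exact b2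
    · rw [e3]; exact b3
    · exact Prod.ext rfl (Prod.ext e1 (Prod.ext e2 e3))

/-- a popular rotation has a popular shift -/
theorem pop {P : Finset ℂ} {w : ℂ} {κ : ℝ} (h : κ * (P.card : ℝ) ^ 4 ≤ SX P w) :
    ∃ t : ℂ, κ * P.card ≤ ((B P w t).card : ℝ) := by
  classical
  rcases P.eq_empty_or_nonempty with rfl | hP
  · exact ⟨0, by simp⟩
  have hn : (0 : ℝ) < P.card := by exact_mod_cast hP.card_pos
  have hT : (T P w).Nonempty := by
    obtain ⟨p, hp⟩ := hP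
    exact ⟨p - w * p, mem_T.2 ⟨p, hp, by simpa using hp⟩⟩
  obtain ⟨t₀, _, ht₀⟩ := (T P w).exists_max_image (fun t => (B P w t).card) hT
  refine ⟨t₀, ?_⟩
  have h1 : (SX P w : ℝ) ≤ (B P w t₀).card * (P.card : ℝ) ^ 3 := by
    have h2 : SX P w ≤ ∑ t ∈ T P w, (B P w t₀).card * P.card * (B P w t).card := by
      rw [SX_eq]
      refine Finset.sum_le_sum fun t ht => ?_
      have h3 : (B P w t).card ≤ P.card := Finset.card_le_card (Finset.filter_subset _ _)
      calc (B P w t).card ^ 3 = (B P w t).card * (B P w t).card * (B P w t).card := by ring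
        _ ≤ _ := Nat.mul_le_mul_right _ (Nat.mul_le_mul (ht₀ t ht) h3)
    rw [← Finset.mul_sum, card_fib] at h2
    calc (SX P w : ℝ) ≤ ((((B P w t₀).card * P.card * P.card ^ 2 : ℕ)) : ℝ) := by
          exact_mod_cast h2
      _ = _ := by push_cast; ring
  have h2 : κ * P.card * (P.card : ℝ) ^ 3 ≤ (B P w t₀).card * (P.card : ℝ) ^ 3 := by
    calc κ * P.card * (P.card : ℝ) ^ 3 = κ * (P.card : ℝ) ^ 4 := by ring
      _ ≤ (SX P w : ℝ) := h
      _ ≤ _ := h1
  exact le_of_mul_le_mul_right h2 (pow_pos hn 3)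

/-- Hölder -/
theorem hol {P : Finset ℂ} {w : ℂ} :
    (P.card : ℝ) ^ 6 ≤ SX P w * ((T P w).card : ℝ) ^ 2 := by
  have h1 : (∑ t ∈ T P w, ((B P w t).card : ℝ)) ^ 3 / ((T P w).card : ℝ) ^ 2 ≤
      ∑ t ∈ T P w, ((B P w t).card : ℝ) ^ 3 :=
    pow_sum_div_card_le_sum_pow (fun i _ => Nat.cast_nonneg _) 2
  have h2 : ∑ t ∈ T P w, ((B P w t).card : ℝ) = (P.card : ℝ) ^ 2 := by
    exact_mod_cast (card_fib (P := P) (w := w))
  have h3 : ∑ t ∈ T P w, ((B P w t).card : ℝ) ^ 3 = SX P w := by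
    rw [SX_eq]; push_cast; rfl
  rw [h2, h3] at h1
  rcases Nat.eq_zero_or_pos (T P w).card with h0 | h0
  · have h4 : T P w = ∅ := Finset.card_eq_zero.1 h0
    rw [h4] at h2
    have h5 : (P.card : ℝ) = 0 := by
      have h6 : (P.card : ℝ) ^ 2 = 0 := by rw [← h2]; simp
      exact pow_eq_zero_iff (two_ne_zero) |>.1 h6
    rw [h5, h0]; norm_num
  · have h4 : (0 : ℝ) < ((T P w).card : ℝ) ^ 2 := by
      have : (0 : ℝ) < (T P w).card := by exact_mod_cast h0
      positivity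
    rw [div_le_iff₀ h4] at h1
    calc (P.card : ℝ) ^ 6 = ((P.card : ℝ) ^ 2) ^ 3 := by ring
      _ ≤ _ := h1

end Pool.RF.SXL

namespace Pool.RAT

open Pool.BK Pool.BD Pool.RF

theorem stmt_SXP : Stmt_SXP := by
  refine ⟨fun P w κ _ _ h => Pool.RF.SXL.pop h, fun P w _ => Pool.RF.SXL.hol⟩

end Pool.RAT
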