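import Pool.Agent.Work.MP_dc37f8_rat.InterfaceL

/-!
# Block TRIG (helper24)
-/

set_option autoImplicit false

namespace Pool.RAT

theorem stmt_TRIG : Stmt_TRIG := by
  rintro w w' hw hw' him ⟨c, hc⟩ ⟨c', hc'⟩ ⟨r, hr⟩
  have h1 : w.re ^ 2 + w.im ^ 2 = 1 := by
    have h := Complex.sq_norm w
    rw [hw, Complex.normSq_apply] at h
    nlinarith
  rw [Complex.mul_re, hc, hc'] at hr
  rw [hc] at h1
  have hs : w.im ^ 2 = 1 - (c : ℝ) ^ 2 := by linarith
  have hne : (1 - (c : ℝ) ^ 2) ≠ 0 := by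
    rw [← hs]
    exact pow_ne_zero 2 him
  have hss : w.im * w'.im = c * c' - r := by linarith
  refine ⟨c' - (c * c' - r) / (1 - c ^ 2) * c, (c * c' - r) / (1 - c ^ 2), ?_⟩
  have hb : (((c * c' - r) / (1 - c ^ 2) : ℚ) : ℝ) * w.im = w'.im := by
    push_cast
    rw [← hss, ← hs]
    field_simp
  generalize hβ : (c * c' - r) / (1 - c ^ 2) = β at hb ⊢
  have e1 : ((c' - β * c : ℚ) : ℂ) = (((c' - β * c : ℚ) : ℝ) : ℂ) := by push_cast; rfl
  have e2 : ((β : ℚ) : ℂ) = (((β : ℚ) : ℝ) : ℂ) := by push_cast; rfl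
  rw [e1, e2]
  apply Complex.ext
  · rw [Complex.add_re, Complex.re_ofReal_mul, Complex.ofReal_re, hc, hc']
    push_cast
    ring
  · rw [Complex.add_im, Complex.im_ofReal_mul, Complex.ofReal_im, hb]
    ring

end Pool.RAT
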