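import Pool.Agent.Work.MP_dc37f8_rf.All
import Pool.Agent.Work.MP_dc37f8_rat.APG
import Pool.Agent.Work.MP_dc37f8_rat.FD0
import Pool.Agent.Work.MP_dc37f8_rat.ARL
import Pool.Agent.Work.MP_dc37f8_rat.BMLP
import Pool.Agent.Work.MP_dc37f8_rat.BMP
import Pool.Agent.Work.MP_dc37f8_rat.BOX
import Pool.Agent.Work.MP_dc37f8_rat.CNT
import Pool.Agent.Work.MP_dc37f8_rat.CSF
import Pool.Agent.Work.MP_dc37f8_rat.CSF1
import Pool.Agent.Work.MP_dc37f8_rat.CSF2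
import Pool.Agent.Work.MP_dc37f8_rat.DIG
import Pool.Agent.Work.MP_dc37f8_rat.ENT1
import Pool.Agent.Work.MP_dc37f8_rat.ENT2
import Pool.Agent.Work.MP_dc37f8_rat.FEWC
import Pool.Agent.Work.MP_dc37f8_rat.FLD
import Pool.Agent.Work.MP_dc37f8_rat.HGT
import Pool.Agent.Work.MP_dc37f8_rat.KEYALL
import Pool.Agent.Work.MP_dc37f8_rat.LEVA
import Pool.Agent.Work.MP_dc37f8_rat.LEVEL
import Pool.Agent.Work.MP_dc37f8_rat.LONG
import Pool.Agent.Work.MP_dc37f8_rat.PAIRS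
import Pool.Agent.Work.MP_dc37f8_rat.PATH
import Pool.Agent.Work.MP_dc37f8_rat.POLY
import Pool.Agent.Work.MP_dc37f8_rat.POPW
import Pool.Agent.Work.MP_dc37f8_rat.PROD
import Pool.Agent.Work.MP_dc37f8_rat.REM
import Pool.Agent.Work.MP_dc37f8_rat.SQ1
import Pool.Agent.Work.MP_dc37f8_rat.SQA
import Pool.Agent.Work.MP_dc37f8_rat.SQB
import Pool.Agent.Work.MP_dc37f8_rat.SQR
import Pool.Agent.Work.MP_dc37f8_rat.SXP
import Pool.Agent.Work.MP_dc37f8_rat.TAILR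
import Pool.Agent.Work.MP_dc37f8_rat.TRIG
import Pool.Agent.Work.MP_dc37f8_rat.LAT

/-!
# MP_dc37f8_rat: the lattice part of the theorem on rational rotations

Everything from the blocks: `full_LAT : Stmt_LAT`.
-/

namespace Pool.RAT

theorem full_HGT : Stmt_HGT := stmt_HGT stmt_LONG stmt_DIG
theorem full_BOX : Stmt_BOX := stmt_BOX stmt_LONG
theorem full_LEVEL : Stmt_LEVEL := stmt_LEVEL (stmt_LEVA stmt_ENT1 stmt_ENT2)
theorem full_SQR : Stmt_SQR := stmt_SQR (stmt_SQA stmt_SQ1) stmt_SQB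
theorem full_BMLP : Stmt_BMLP := stmt_BMLP stmt_PATH stmt_REM
theorem full_BMP : Stmt_BMP := stmt_BMP full_BMLP full_SQR stmt_POLY
theorem full_CSF : Stmt_CSF := stmt_CSF stmt_CSF1 (stmt_CSF2 stmt_CNT)
theorem full_PROD : Stmt_PROD := stmt_PROD stmt_SXP
theorem full_TAILR : Stmt_TAILR :=
  stmt_TAILR Pool.RF.full_TAIL Pool.RF.full_SEL Pool.RF.full_RB Pool.RF.stmt_CENZ

theorem full_LAT : Stmt_LAT :=
  stmt_LAT Pool.RF.stmt_WCSD full_TAILR stmt_FEWC full_PROD stmt_TRIG fd0 apg stmt_POPW full_HGT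
    full_BOX full_LEVEL stmt_PAIRS full_BMP full_CSF stmt_FLD stmt_ARL stmt_KEY

end Pool.RAT
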