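import Pool.Agent.Work.MP_dc37f8_rf.FINALQ

/-!
# MP_dc37f8_co: sets almost all of whose points lie in a plane `o + ℚ u + ℚ v`

If `φ` has irrational cosine, then the vectors `x` of `ℚ u + ℚ v` whose image under the rotation
by `φ` lies in `ℚ u + ℚ v` again are all parallel, so the rotation energy of the points which are
on no rich line is small.
-/

set_option autoImplicit false

open Finset

namespace Pool.RAT

namespace RATL

open Pool.Agent.ConvTri (Plane)
open Pool.RF.FINAL Pool.RF.FINALQ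

theorem rot0 (φ : ℝ) (v : Plane) : rot φ v 0 = Real.cos φ * v 0 - Real.sin φ * v 1 := by
  simp [rot]

theorem rot1 (φ : ℝ) (v : Plane) : rot φ v 1 = Real.sin φ * v 0 + Real.cos φ * v 1 := by
  simp [rot]

/-- the determinant -/
noncomputable def dt (x y : Plane) : ℝ := x 0 * y 1 - x 1 * y 0

theorem dt_trace (φ : ℝ) (x y : Plane) :
    dt (rot φ x) y + dt x (rot φ y) = 2 * Real.cos φ * dt x y := by
  simp only [dt, rot0, rot1]; ring

theorem dt_lin (u v : Plane) (a b c d : ℝ) :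
    dt (a • u + b • v) (c • u + d • v) = (a * d - b * c) * dt u v := by
  simp only [dt, PiLp.add_apply, PiLp.smul_apply, smul_eq_mul]; ring

theorem parallel {φ : ℝ} (hφ : Irrational (Real.cos φ)) {u v x y : Plane}
    {a b c d a' b' c' d' : ℚ} (hx : x = (a : ℝ) • u + (b : ℝ) • v)
    (hx' : rot φ x = (a' : ℝ) • u + (b' : ℝ) • v) (hy : y = (c : ℝ) • u + (d : ℝ) • v)
    (hy' : rot φ y = (c' : ℝ) • u + (d' : ℝ) • v) : dt x y = 0 := by
  by_contra h
  have h1 := dt_trace φ x y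
  rw [hx', hy'] at h1
  have h2 : dt x y = ((a : ℝ) * d - b * c) * dt u v := by rw [hx, hy, dt_lin]
  have h3 : dt ((a' : ℝ) • u + (b' : ℝ) • v) y = ((a' : ℝ) * d - b' * c) * dt u v := by
    rw [hy, dt_lin]
  have h4 : dt x ((c' : ℝ) • u + (d' : ℝ) • v) = ((a : ℝ) * d' - b * c') * dt u v := by
    rw [hx, dt_lin]
  rw [h3, h4, h2] at h1
  rw [h2] at h
  have hD : dt u v ≠ 0 := fun h0 => h (by rw [h0, mul_zero])
  have hq : (a : ℝ) * d - b * c ≠ 0 := fun h0 => h (by rw [h0, zero_mul])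
  have h5 : ((a' : ℝ) * d - b' * c) + ((a : ℝ) * d' - b * c') =
      2 * Real.cos φ * ((a : ℝ) * d - b * c) := by
    have : (((a' : ℝ) * d - b' * c) + ((a : ℝ) * d' - b * c')) * dt u v =
        (2 * Real.cos φ * ((a : ℝ) * d - b * c)) * dt u v := by linarith
    exact mul_right_cancel₀ hD this
  apply hφ
  refine ⟨((a' * d - b' * c) + (a * d' - b * c')) / (2 * (a * d - b * c)), ?_⟩
  push_cast
  rw [div_eq_iff (by positivity), h5]
  ring

open Classical in
theorem energy_le {β : ℝ} (hβ : 0 < β) (P : Finset Plane) (o u v : Plane)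
    (hP : ∀ p ∈ P, ∃ x y : ℚ, p = o + ((x : ℝ) • u + (y : ℝ) • v)) {φ : ℝ}
    (hφ : Irrational (Real.cos φ)) :
    (rotEnergy (poorPoints β P) φ : ℝ) ≤ β * (P.card : ℝ) ^ 3 := by
  obtain ⟨Q, hQd⟩ : ∃ Q, Q = poorPoints β P := ⟨_, rfl⟩
  have hQP : Q ⊆ P := by rw [hQd]; exact filter_subset _ _
  obtain ⟨S, hSd⟩ : ∃ S, S = (Q ×ˢ Q ×ˢ Q ×ˢ Q).filter
    (fun z => z.2.2.1 - z.2.2.2 = rot φ (z.1 - z.2.1)) := ⟨_, rfl⟩
  have hdiff : ∀ p ∈ Q, ∀ q ∈ Q, ∃ x y : ℚ, p - q = (x : ℝ) • u + (y : ℝ) • v := by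
    intro p hp q hq
    obtain ⟨x, y, h1⟩ := hP p (hQP hp)
    obtain ⟨x', y', h2⟩ := hP q (hQP hq)
    refine ⟨x - x', y - y', ?_⟩
    rw [h1, h2]; push_cast; module
  -- the direction
  obtain ⟨w, hw, hpar⟩ : ∃ w : Plane, w ≠ 0 ∧ ∀ z ∈ S, dt w (z.1 - z.2.1) = 0 := by
    by_cases hex : ∃ z ∈ S, z.1 - z.2.1 ≠ 0
    · obtain ⟨z, hz, hne⟩ := hex
      refine ⟨z.1 - z.2.1, hne, ?_⟩
      intro z' hz'
      rw [hSd, mem_filter, mem_product, mem_product, mem_product] at hz hz'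
      obtain ⟨⟨ha, hb, hc, hd⟩, he⟩ := hz
      obtain ⟨⟨ha', hb', hc', hd'⟩, he'⟩ := hz'
      obtain ⟨x1, y1, h1⟩ := hdiff _ ha _ hb
      obtain ⟨x2, y2, h2⟩ := hdiff _ hc _ hd
      obtain ⟨x3, y3, h3⟩ := hdiff _ ha' _ hb'
      obtain ⟨x4, y4, h4⟩ := hdiff _ hc' _ hd'
      exact parallel hφ h1 (he ▸ h2) h3 (he' ▸ h4)
    · simp only [not_exists, not_and, not_not, ne_eq] at hex
      refine ⟨!₂[1, 0], ?_, ?_⟩
      · intro h
        have := congrArg (fun p : Plane => p 0) h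
        simp at this
      · intro z hz
        rw [hex z hz]; simp [dt]
  obtain ⟨ℓ, hℓ⟩ : ∃ ℓ : Submodule ℝ Plane, ℓ = Submodule.span ℝ {w} := ⟨_, rfl⟩
  have hfin : Module.finrank ℝ ℓ = 1 := by rw [hℓ]; exact finrank_span_singleton hw
  have hmem : ∀ x : Plane, dt w x = 0 → x ∈ ℓ := by
    intro x hx
    rw [hℓ, Submodule.mem_span_singleton]
    unfold dt at hx
    by_cases h0 : w 0 = 0
    · have h1 : w 1 ≠ 0 := by
        intro h1
        apply hw
        ext i; fin_cases i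
        · simpa using h0
        · simpa using h1
      have hx0 : x 0 = 0 := by
        rw [h0, zero_mul, zero_sub, neg_eq_zero] at hx
        rcases mul_eq_zero.1 hx with h | h
        · exact absurd h h1
        · exact h
      refine ⟨x 1 / w 1, ?_⟩
      ext i; fin_cases i
      · simp [h0, hx0]
      · simp [h1]
    · refine ⟨x 0 / w 0, ?_⟩
      ext i; fin_cases i
      · simp [h0]
      · simp only [Fin.mk_one, Fin.isValue, PiLp.smul_apply, smul_eq_mul]
        field_simp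
        linarith
  -- count
  have hcard : rotEnergy (poorPoints β P) φ = S.card := by
    rw [hSd, hQd]; unfold rotEnergy; rfl
  rw [hcard]
  have hinj : S.card ≤ ((Q ×ˢ Q).sigma
      (fun z => P.filter (fun b => z.1 - b ∈ ℓ))).card := by
    apply card_le_card_of_injOn (fun z => ⟨(z.1, z.2.2.2), z.2.1⟩)
    · intro z hz
      have hz0 : z ∈ S := hz
      have hp := hpar z hz0
      rw [hSd, mem_filter, mem_product, mem_product, mem_product] at hz0
      obtain ⟨⟨ha, hb, hc, hd⟩, he⟩ := hz0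
      rw [mem_coe, mem_sigma]
      refine ⟨mem_product.2 ⟨ha, hd⟩, mem_filter.2 ⟨hQP hb, hmem _ hp⟩⟩
    · rintro ⟨a, b, c, d⟩ hz ⟨a', b', c', d'⟩ hz' heq
      have hz0 : (a, b, c, d) ∈ S := hz
      have hz0' : (a', b', c', d') ∈ S := hz'
      rw [hSd, mem_filter] at hz0 hz0'
      simp only [Sigma.mk.injEq, Prod.mk.injEq, heq_eq_eq] at heq
      obtain ⟨⟨rfl, rfl⟩, rfl⟩ := heq
      have h1 := hz0.2
      have h2 := hz0'.2
      simp only at h1 h2
      have : c = c' := by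
        have := h1.trans h2.symm
        exact sub_left_injective this
      rw [this]
  have hle : ∀ a ∈ Q, (((P.filter (fun b => a - b ∈ ℓ)).card : ℕ) : ℝ) ≤ β * P.card := by
    intro a ha
    have ha' := ha
    rw [hQd, poorPoints, mem_filter] at ha'
    have h1 := ha'.2 (AffineSubspace.mk' a ℓ) (by rw [AffineSubspace.direction_mk']; exact hfin)
      (AffineSubspace.self_mem_mk' _ _)
    have h2 : ((P : Set Plane) ∩ (AffineSubspace.mk' a ℓ : Set Plane)) =
        ((P.filter (fun b => a - b ∈ ℓ) : Finset Plane) : Set Plane) := by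
      ext b
      simp only [Set.mem_inter_iff, SetLike.mem_coe, coe_filter, Set.mem_ofPred_eq,
        AffineSubspace.mem_mk', vsub_eq_sub, and_congr_right_iff]
      intro _
      rw [← neg_mem_iff, neg_sub]
    rw [h2, Set.ncard_coe_finset] at h1
    exact h1.le
  calc (S.card : ℝ) ≤ (((Q ×ˢ Q).sigma (fun z => P.filter (fun b => z.1 - b ∈ ℓ))).card : ℝ) := by
        exact_mod_cast hinj
    _ = ∑ z ∈ Q ×ˢ Q, ((P.filter (fun b => z.1 - b ∈ ℓ)).card : ℝ) := by
        rw [card_sigma]; push_cast; rfl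
    _ ≤ ∑ _z ∈ Q ×ˢ Q, β * (P.card : ℝ) :=
        sum_le_sum (fun z hz => hle _ (mem_product.1 hz).1)
    _ = (Q.card : ℝ) * Q.card * (β * P.card) := by
        rw [sum_const, nsmul_eq_mul, card_product]; push_cast; ring
    _ ≤ (P.card : ℝ) * P.card * (β * P.card) := by
        have : (Q.card : ℝ) ≤ P.card := by exact_mod_cast card_le_card hQP
        have h0 : (0 : ℝ) ≤ Q.card := by positivity
        gcongr
    _ = β * (P.card : ℝ) ^ 3 := by ring

end RATL

open Pool.Agent.ConvTri Pool.RF.FINAL Pool.RF.FINALQ in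
/-- **Points of rational planes.** -/
theorem lattice_cor
    (h : ∃ δ : ℝ, 0 < δ ∧ ∀ β : ℝ, 0 < β → ∃ n0 : ℕ, ∀ P P' : Finset Plane, P' ⊆ P →
      n0 ≤ P.card → (1 - δ) * (P.card : ℝ) ≤ P'.card →
      (∀ φ : ℝ, Irrational (Real.cos φ) →
        (rotEnergy (poorPoints β P') φ : ℝ) ≤ δ * (P.card : ℝ) ^ 3) →
      round ((P.card : ℝ) ^ 2 / 12) ≤ ((TC P).card : ℤ) ∧
      (((TC P).card : ℤ) = round ((P.card : ℝ) ^ 2 / 12) →
        ∃ c, Conc.IsRegularPolygon P.card c P)) :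
    ∃ (δ : ℝ) (n0 : ℕ), 0 < δ ∧ ∀ (P P' : Finset Plane) (o u v : Plane), P' ⊆ P →
      n0 ≤ P.card → (1 - δ) * (P.card : ℝ) ≤ P'.card →
      (∀ p ∈ P', ∃ x y : ℚ, p = o + ((x : ℝ) • u + (y : ℝ) • v)) →
      round ((P.card : ℝ) ^ 2 / 12) ≤ ((TC P).card : ℤ) ∧
      (((TC P).card : ℤ) = round ((P.card : ℝ) ^ 2 / 12) →
        ∃ c, Conc.IsRegularPolygon P.card c P) := by
  obtain ⟨δ, hδ, h1⟩ := h
  obtain ⟨n0, h2⟩ := h1 δ hδ
  refine ⟨δ, n0, hδ, ?_⟩
  intro P P' o u v hsub hn hm hrat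
  refine h2 P P' hsub hn hm ?_
  intro φ hφ
  refine (RATL.energy_le hδ P' o u v hrat hφ).trans ?_
  have : (P'.card : ℝ) ≤ P.card := by exact_mod_cast card_le_card hsub
  gcongr

end Pool.RAT
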