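import Pool.Agent.Work.MP_dc37f8_rat.KeyField

/-!
# MP_dc37f8_co: coordinates, conjugation, trace and norm in `ℚ(√-d) ⊂ ℂ`
-/

open Finset

namespace Pool.Agent.Work.MP_dc37f8_rat

/-- The rational coordinate of an element. -/
noncomputable def cA {d : ℕ} (x : IQF d) : ℚ := Classical.choose x.2

/-- The coordinate of `√-d` of an element. -/
noncomputable def cB {d : ℕ} (x : IQF d) : ℚ := Classical.choose (Classical.choose_spec x.2)

theorem c_eq {d : ℕ} (x : IQF d) : (x : ℂ) = cA x + cB x * sq d :=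
  Classical.choose_spec (Classical.choose_spec x.2)

theorem sq_re (d : ℕ) : (sq d).re = 0 := by simp [sq]

theorem sq_im (d : ℕ) : (sq d).im = Real.sqrt d := by simp [sq]

theorem coe_re {d : ℕ} (x : IQF d) : (x : ℂ).re = cA x := by
  rw [c_eq x]
  simp [sq_re, sq_im]

theorem coe_im {d : ℕ} (x : IQF d) : (x : ℂ).im = cB x * Real.sqrt d := by
  rw [c_eq x]
  simp [sq_re, sq_im]

theorem c_unique {d : ℕ} (hd : 0 < d) {x : IQF d} {a b : ℚ} (h : (x : ℂ) = a + b * sq d) :
    cA x = a ∧ cB x = b := by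
  have h1 : ((cA x : ℝ)) = a := by
    rw [← coe_re, h]; simp [sq_re, sq_im]
  have h2 : ((cB x : ℝ)) * Real.sqrt d = b * Real.sqrt d := by
    rw [← coe_im, h]; simp [sq_re, sq_im]
  have h3 : Real.sqrt d ≠ 0 := (Real.sqrt_pos.2 (by exact_mod_cast hd)).ne'
  have h4 := mul_right_cancel₀ h3 h2
  exact ⟨by exact_mod_cast h1, by exact_mod_cast h4⟩

/-- The ring hom `a + b √-d ↦ a + b r` for a square root `r` of `-d`. -/
noncomputable def emb {d : ℕ} (hd : 0 < d) {R : Type*} [Field R] [CharZero R] (r : R)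
    (hr : r * r = -(d : R)) : IQF d →+* R where
  toFun x := (cA x : R) + cB x * r
  map_one' := by
    have h := c_unique hd (x := 1) (a := 1) (b := 0) (by simp)
    rw [h.1, h.2]; simp
  map_zero' := by
    have h := c_unique hd (x := 0) (a := 0) (b := 0) (by simp)
    rw [h.1, h.2]; simp
  map_add' x y := by
    have h := c_unique hd (x := x + y) (a := cA x + cA y) (b := cB x + cB y) (by
      push_cast
      linear_combination c_eq x + c_eq y)
    rw [h.1, h.2]; push_cast; ring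
  map_mul' x y := by
    have h := c_unique hd (x := x * y) (a := cA x * cA y - d * (cB x * cB y))
      (b := cA x * cB y + cA y * cB x) (by
      push_cast
      rw [c_eq x, c_eq y]
      linear_combination (cB x : ℂ) * cB y * sq_sq d)
    rw [h.1, h.2]; push_cast
    linear_combination -(cB x : R) * cB y * hr

theorem emb_apply {d : ℕ} (hd : 0 < d) {R : Type*} [Field R] [CharZero R] (r : R)
    (hr : r * r = -(d : R)) (x : IQF d) : emb hd r hr x = cA x + cB x * r := rfl

/-- Conjugation. -/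
noncomputable def cj {d : ℕ} : IQF d →+* IQF d where
  toFun x := ⟨(starRingEnd ℂ) x, by
    refine ⟨cA x, -cB x, ?_⟩
    rw [c_eq x]
    simp [sq]⟩
  map_one' := by ext; simp
  map_zero' := by ext; simp
  map_add' x y := by ext; simp
  map_mul' x y := by ext; simp

theorem coe_cj {d : ℕ} (x : IQF d) : ((cj x : IQF d) : ℂ) = (starRingEnd ℂ) (x : ℂ) := rfl

theorem cj_cj {d : ℕ} (x : IQF d) : cj (cj x) = x := by
  ext; simp [coe_cj]

/-- The trace. -/
noncomputable def tr {d : ℕ} (x : IQF d) : ℚ := 2 * cA x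

/-- The norm. -/
noncomputable def nm {d : ℕ} (x : IQF d) : ℚ := cA x ^ 2 + d * cB x ^ 2

theorem add_cj {d : ℕ} (x : IQF d) : x + cj x = (tr x : IQF d) := by
  ext
  push_cast
  rw [coe_cj, c_eq x, tr]
  simp [sq]
  ring

theorem mul_cj {d : ℕ} (x : IQF d) : x * cj x = (nm x : IQF d) := by
  ext
  push_cast
  rw [coe_cj, c_eq x, nm]
  have h := sq_sq d
  have h2 : (starRingEnd ℂ) (sq d) = - sq d := by simp [sq]
  rw [map_add, map_mul, h2]
  simp only [map_ratCast]
  push_cast
  linear_combination -(cB x : ℂ) ^ 2 * h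

theorem norm_sq_eq {d : ℕ} (x : IQF d) : ‖(x : ℂ)‖ ^ 2 = (nm x : ℝ) := by
  rw [← Complex.normSq_eq_norm_sq, Complex.normSq_apply, coe_re, coe_im, nm]
  have h : Real.sqrt d * Real.sqrt d = d := Real.mul_self_sqrt (Nat.cast_nonneg d)
  push_cast
  linear_combination (cB x : ℝ) ^ 2 * h

theorem nm_of_norm_one {d : ℕ} {x : IQF d} (h : ‖(x : ℂ)‖ = 1) : nm x = 1 := by
  have := norm_sq_eq x
  rw [h, one_pow] at this
  exact_mod_cast this.symm

theorem mul_cj_of_norm_one {d : ℕ} {x : IQF d} (h : ‖(x : ℂ)‖ = 1) : x * cj x = 1 := by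
  rw [mul_cj, nm_of_norm_one h, Rat.cast_one]

theorem poly_eq {d : ℕ} (x : IQF d) : x * x = (tr x : IQF d) * x - (nm x : IQF d) := by
  rw [← add_cj, ← mul_cj]; ring

/-- Integrality in terms of trace and norm. -/
theorem mem_OQ_iff {d : ℕ} (x : IQF d) :
    x ∈ OQ d ↔ (∃ t : ℤ, tr x = t) ∧ ∃ n : ℤ, nm x = n := by
  have hQ : ∀ q : ℚ, IsIntegral ℤ (q : IQF d) → ∃ t : ℤ, q = t := by
    intro q hq
    have h1 : IsIntegral ℤ ((algebraMap ℚ (IQF d)) q) := by simpa using hq
    rw [isIntegral_algebraMap_iff (algebraMap ℚ (IQF d)).injective] at h1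
    obtain ⟨t, ht⟩ := IsIntegrallyClosed.isIntegral_iff.1 h1
    exact ⟨t, by rw [← ht]; simp⟩
  rw [mem_OQ]
  constructor
  · intro h
    have h' : IsIntegral ℤ (cj x) := h.map (cj.toIntAlgHom)
    refine ⟨hQ _ ?_, hQ _ ?_⟩
    · rw [← add_cj]; exact h.add h'
    · rw [← mul_cj]; exact h.mul h'
  · rintro ⟨⟨t, ht⟩, n, hn⟩
    have h := poly_eq x
    rw [ht, hn] at h
    refine ⟨Polynomial.X ^ 2 - Polynomial.C t * Polynomial.X + Polynomial.C n, ?_, ?_⟩
    · monicity!
    · simp only [Polynomial.eval₂_add, Polynomial.eval₂_sub, Polynomial.eval₂_mul,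
        Polynomial.eval₂_pow, Polynomial.eval₂_X, Polynomial.eval₂_C]
      rw [pow_two, h]
      push_cast
      simp

end Pool.Agent.Work.MP_dc37f8_rat
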