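import Pool.Agent.Work.MP_dc37f8_rat.ArithField

/-!
# MP_dc37f8_co: places of degree one of `ℚ(√-d)`
-/

open Finset

namespace Pool.Agent.Work.MP_dc37f8_rat

/-- An absolute value of `ℚ(√-d)` of degree one above `p`. -/
structure Place (d p : ℕ) (u : IQF d → ℝ) : Prop where
  prime : p.Prime
  mul : ∀ x y, u (x * y) = u x * u y
  add : ∀ x y, u (x + y) ≤ max (u x) (u y)
  addne : ∀ x y, u x ≠ u y → u (x + y) = max (u x) (u y)
  neg : ∀ x, u (-x) = u x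
  zero : u 0 = 0
  int : ∀ x, x ≠ 0 → ∃ k : ℤ, u x = (p : ℝ) ^ k
  rat : ∀ q : ℚ, u (q : IQF d) = (padicNorm p q : ℝ)
  idx : ∀ (k : ℤ) (n : ℕ) (T : Finset (IQF d)), (∀ x ∈ T, u x ≤ (p : ℝ) ^ (-k)) →
    (∀ x ∈ T, ∀ y ∈ T, u (x - y) ≤ (p : ℝ) ^ (-(k + n)) → x = y) → T.card ≤ p ^ n

/-- Separated sets in a ball of `ℚ_p`. -/
theorem padic_idx (p : ℕ) [Fact p.Prime] {ι : Type*} (T : Finset ι) (g : ι → ℚ_[p]) (k : ℤ) (n : ℕ)
    (h1 : ∀ x ∈ T, ‖g x‖ ≤ (p : ℝ) ^ (-k))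
    (h2 : ∀ x ∈ T, ∀ y ∈ T, ‖g x - g y‖ ≤ (p : ℝ) ^ (-(k + n)) → x = y) : T.card ≤ p ^ n := by
  have hp0 : (0 : ℝ) < p := by exact_mod_cast (Fact.out : p.Prime).pos
  have hz : ∀ x ∈ T, ‖g x * (p : ℚ_[p]) ^ (-k)‖ ≤ 1 := by
    intro x hx
    rw [norm_mul, norm_zpow, Padic.norm_p, inv_zpow', neg_neg]
    calc ‖g x‖ * (p : ℝ) ^ k ≤ (p : ℝ) ^ (-k) * (p : ℝ) ^ k :=
          mul_le_mul_of_nonneg_right (h1 x hx) (by positivity)
      _ = 1 := by rw [← zpow_add₀ hp0.ne']; simp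
  classical
  let φ : ι → ZMod (p ^ n) := fun x =>
    if hx : x ∈ T then PadicInt.toZModPow n ⟨g x * (p : ℚ_[p]) ^ (-k), hz x hx⟩ else 0
  have hcard : T.card ≤ (univ : Finset (ZMod (p ^ n))).card := by
    have : NeZero (p ^ n) := ⟨pow_ne_zero _ (Fact.out : p.Prime).ne_zero⟩
    refine card_le_card_of_injOn φ (fun x _ => mem_univ _) ?_
    intro x hx y hy hxy
    have hx' : x ∈ T := hx
    have hy' : y ∈ T := hy
    simp only [φ, dif_pos hx', dif_pos hy'] at hxy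
    refine h2 x hx' y hy' ?_
    rw [← sub_eq_zero, ← map_sub, ← RingHom.mem_ker, PadicInt.ker_toZModPow,
      ← PadicInt.norm_le_pow_iff_mem_span_pow] at hxy
    have h3 : ‖(g x - g y) * (p : ℚ_[p]) ^ (-k)‖ ≤ (p : ℝ) ^ (-(n : ℤ)) := by
      have : (g x - g y) * (p : ℚ_[p]) ^ (-k) =
          ((⟨g x * (p : ℚ_[p]) ^ (-k), hz x hx'⟩ - ⟨g y * (p : ℚ_[p]) ^ (-k), hz y hy'⟩ : ℤ_[p]) :
            ℚ_[p]) := by
        push_cast; ring
      rw [this]
      exact hxy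
    rw [norm_mul, norm_zpow, Padic.norm_p, inv_zpow', neg_neg] at h3
    calc ‖g x - g y‖ = (‖g x - g y‖ * (p : ℝ) ^ k) * (p : ℝ) ^ (-k) := by
          rw [mul_assoc, ← zpow_add₀ hp0.ne']; simp
      _ ≤ (p : ℝ) ^ (-(n : ℤ)) * (p : ℝ) ^ (-k) := mul_le_mul_of_nonneg_right h3 (by positivity)
      _ = (p : ℝ) ^ (-(k + n)) := by rw [← zpow_add₀ hp0.ne']; congr 1; ring
  have : NeZero (p ^ n) := ⟨pow_ne_zero _ (Fact.out : p.Prime).ne_zero⟩
  rwa [card_univ, ZMod.card] at hcard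

/-- A place from a square root of `-d` in `ℚ_p`. -/
theorem place_of_root {d p : ℕ} (hd : 0 < d) [hp : Fact p.Prime] (r : ℚ_[p])
    (hr : r * r = -(d : ℚ_[p])) : Place d p (fun x => ‖emb hd r hr x‖) where
  prime := hp.out
  mul x y := by rw [map_mul, norm_mul]
  add x y := by rw [map_add]; exact Padic.nonarchimedean _ _
  addne x y h := by rw [map_add]; exact Padic.add_eq_max_of_ne h
  neg x := by rw [map_neg, norm_neg]
  zero := by simp
  int x hx := ⟨-(emb hd r hr x).valuation, Padic.norm_eq_zpow_neg_valuation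
    ((map_ne_zero _).2 hx)⟩
  rat q := by rw [map_ratCast, Padic.eq_padicNorm]
  idx k n T h1 h2 := padic_idx p T (fun x => emb hd r hr x) k n h1 (fun x hx y hy h =>
    h2 x hx y hy (by rw [map_sub]; exact h))

/-- The conjugate place. -/
theorem Place.conj {d p : ℕ} {u : IQF d → ℝ} (h : Place d p u) :
    Place d p (fun x => u (cj x)) where
  prime := h.prime
  mul x y := by rw [map_mul, h.mul]
  add x y := by rw [map_add]; exact h.add _ _
  addne x y hne := by rw [map_add]; exact h.addne _ _ hne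
  neg x := by rw [map_neg, h.neg]
  zero := by rw [map_zero, h.zero]
  int x hx := h.int _ ((map_ne_zero _).2 hx)
  rat q := by rw [map_ratCast, h.rat]
  idx k n T h1 h2 := by
    classical
    have hinj : Function.Injective (cj : IQF d →+* IQF d) := RingHom.injective _
    rw [← card_image_of_injective T hinj]
    refine h.idx k n _ ?_ ?_
    · intro x hx
      obtain ⟨y, hy, rfl⟩ := mem_image.1 hx
      exact h1 y hy
    · intro x hx y hy hxy
      obtain ⟨x', hx', rfl⟩ := mem_image.1 hx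
      obtain ⟨y', hy', rfl⟩ := mem_image.1 hy
      rw [← map_sub] at hxy
      rw [h2 x' hx' y' hy' hxy]

/-- Hensel: a square root of `-d` in `ℚ_p`, `p` odd. -/
theorem root_odd {d p : ℕ} [hp : Fact p.Prime] (h2 : p ≠ 2) (hd : ¬ p ∣ d)
    (h : ∃ x : ZMod p, x ^ 2 = -(d : ZMod p)) : ∃ r : ℚ_[p], r * r = -(d : ℚ_[p]) := by
  obtain ⟨x, hx⟩ := h
  obtain ⟨a, rfl⟩ := ZMod.intCast_surjective x
  have hdvd : (p : ℤ) ∣ a ^ 2 + d := by
    rw [← ZMod.intCast_zmod_eq_zero_iff_dvd]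
    push_cast
    rw [hx, neg_add_cancel]
  have hpa : ¬ (p : ℤ) ∣ 2 * a := by
    intro hcon
    rcases (Nat.prime_iff_prime_int.1 hp.out).dvd_or_dvd hcon with h3 | h3
    · have : p ∣ 2 := by exact_mod_cast h3
      exact h2 ((Nat.prime_dvd_prime_iff_eq hp.out Nat.prime_two).1 this)
    · have h4 : (p : ℤ) ∣ (d : ℤ) := by
        have h5 : (p : ℤ) ∣ a ^ 2 := dvd_pow h3 two_ne_zero
        have h6 := dvd_sub hdvd h5
        simpa using h6
      exact hd (by exact_mod_cast h4)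
  let F : Polynomial ℤ := Polynomial.X ^ 2 + Polynomial.C (d : ℤ)
  have e1 : F.aeval ((a : ℤ) : ℤ_[p]) = ((a ^ 2 + d : ℤ) : ℤ_[p]) := by
    simp [F]
  have e0 : F.derivative = Polynomial.C 2 * Polynomial.X := by
    simp [F]
  have e2 : F.derivative.aeval ((a : ℤ) : ℤ_[p]) = ((2 * a : ℤ) : ℤ_[p]) := by
    rw [e0, map_mul, Polynomial.aeval_C, Polynomial.aeval_X]
    simp
  have n1 : ‖((a ^ 2 + d : ℤ) : ℤ_[p])‖ < 1 := (PadicInt.norm_int_lt_one_iff_dvd _).2 hdvd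
  have n2 : ‖((2 * a : ℤ) : ℤ_[p])‖ = 1 := by
    refine le_antisymm (PadicInt.norm_le_one _) ?_
    rw [← not_lt, PadicInt.norm_int_lt_one_iff_dvd]
    exact hpa
  obtain ⟨z, hz, -⟩ := hensels_lemma (p := p) (F := F) (a := ((a : ℤ) : ℤ_[p])) (by
    rw [e1, e2, n2, one_pow]
    exact n1)
  refine ⟨(z : ℚ_[p]), ?_⟩
  have hz' : z ^ 2 + (d : ℤ_[p]) = 0 := by simpa [F] using hz
  have : ((z ^ 2 + (d : ℤ_[p]) : ℤ_[p]) : ℚ_[p]) = 0 := by rw [hz']; simp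
  push_cast at this
  linear_combination this

/-- Hensel: a square root of `-d` in `ℚ_2`. -/
theorem root_two {d : ℕ} (h : d % 8 = 7) : ∃ r : ℚ_[2], r * r = -(d : ℚ_[2]) := by
  let F : Polynomial ℤ := Polynomial.X ^ 2 + Polynomial.C (d : ℤ)
  have e1 : F.aeval ((1 : ℤ) : ℤ_[2]) = ((1 + d : ℤ) : ℤ_[2]) := by
    simp [F]
  have e0 : F.derivative = Polynomial.C 2 * Polynomial.X := by
    simp [F]
  have e2 : F.derivative.aeval ((1 : ℤ) : ℤ_[2]) = ((2 : ℤ) : ℤ_[2]) := by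
    rw [e0, map_mul, Polynomial.aeval_C, Polynomial.aeval_X]
    simp
  have n1 : ‖((1 + d : ℤ) : ℤ_[2])‖ ≤ (2 : ℝ) ^ (-(3 : ℤ)) := by
    have := (PadicInt.norm_int_le_pow_iff_dvd (p := 2) (k := (1 + d : ℤ)) (n := 3)).2 (by
      push_cast
      omega)
    simpa using this
  have n2 : ‖((2 : ℤ) : ℤ_[2])‖ = 2⁻¹ := by
    have := PadicInt.norm_p (p := 2)
    simpa using this
  obtain ⟨z, hz, -⟩ := hensels_lemma (p := 2) (F := F) (a := ((1 : ℤ) : ℤ_[2])) (by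
    rw [e1, e2, n2]
    refine lt_of_le_of_lt n1 ?_
    norm_num)
  refine ⟨(z : ℚ_[2]), ?_⟩
  have hz' : z ^ 2 + (d : ℤ_[2]) = 0 := by simpa [F] using hz
  have : ((z ^ 2 + (d : ℤ_[2]) : ℤ_[2]) : ℚ_[2]) = 0 := by rw [hz']; simp
  push_cast at this
  linear_combination this

/-- The splitting condition. -/
def Split (d p : ℕ) : Prop :=
  p.Prime ∧ ¬ p ∣ d ∧ (∃ x : ZMod p, x ^ 2 = -(d : ZMod p)) ∧ (p = 2 → d % 8 = 7)

theorem Split.exists_place {d p : ℕ} (hd : 0 < d) (h : Split d p) : ∃ u, Place d p u := by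
  obtain ⟨hp, h1, h2, h3⟩ := h
  have : Fact p.Prime := ⟨hp⟩
  rcases eq_or_ne p 2 with rfl | hne
  · obtain ⟨r, hr⟩ := root_two (h3 rfl)
    exact ⟨_, place_of_root hd r hr⟩
  · obtain ⟨r, hr⟩ := root_odd hne h1 h2
    exact ⟨_, place_of_root hd r hr⟩

end Pool.Agent.Work.MP_dc37f8_rat
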