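import Pool.Agent.Work.MP_dc37f8_rat.Interface

/-!
# Block CSF2 (helper66)
-/

set_option autoImplicit false

open Finset

namespace Pool.RAT

namespace CSF2

theorem or_zero (ω : ℂ) : Or ω 0 := ⟨0, 0, by simp⟩

theorem or_neg {ω z : ℂ} (h : Or ω z) : Or ω (-z) := by
  obtain ⟨x, y, rfl⟩ := h
  exact ⟨-x, -y, by push_cast; ring⟩

theorem or_add {ω z z' : ℂ} (h : Or ω z) (h' : Or ω z') : Or ω (z + z') := by
  obtain ⟨x, y, rfl⟩ := h
  obtain ⟨x', y', rfl⟩ := h'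
  exact ⟨x + x', y + y', by push_cast; ring⟩

theorem or_symm {ω e a b : ℂ} (h : Or ω ((a - b) / e)) : Or ω ((b - a) / e) := by
  have := or_neg h
  rwa [← neg_div, neg_sub] at this

theorem or_trans {ω e a b c : ℂ} (h : Or ω ((a - b) / e)) (h' : Or ω ((b - c) / e)) :
    Or ω ((a - c) / e) := by
  have := or_add h h'
  rwa [← add_div, sub_add_sub_cancel] at this

theorem cls_congr {ω e : ℂ} {Q : Finset ℂ} {a b : ℂ} (h : Or ω ((a - b) / e)) :
    cls ω e Q a = cls ω e Q b := by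
  classical
  unfold cls
  ext q
  simp only [mem_filter]
  constructor
  · rintro ⟨h1, h2⟩; exact ⟨h1, or_trans h2 h⟩
  · rintro ⟨h1, h2⟩; exact ⟨h1, or_trans h2 (or_symm h)⟩

theorem mm_congr {ω e : ℂ} {Q : Finset ℂ} {z i : ℂ × ℂ × ℂ} (h : Ce ω e z i) :
    mm ω e Q z = mm ω e Q i := by
  unfold mm
  rw [cls_congr h.1, cls_congr h.2.1, cls_congr h.2.2]

theorem cls_pos {ω e : ℂ} {Q : Finset ℂ} {q : ℂ} (h : q ∈ Q) :
    0 < ((cls ω e Q q).card : ℝ) := by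
  classical
  have : q ∈ cls ω e Q q := by
    unfold cls
    rw [mem_filter]
    refine ⟨h, ?_⟩
    rw [sub_self, zero_div]
    exact or_zero ω
  exact_mod_cast Finset.card_pos.2 ⟨q, this⟩

theorem mm_pos {ω e : ℂ} {Q : Finset ℂ} {z : ℂ × ℂ × ℂ} (h : z ∈ Q ×ˢ Q ×ˢ Q) :
    0 < mm ω e Q z := by
  rw [mem_product, mem_product] at h
  unfold mm
  exact mul_pos (mul_pos (cls_pos h.1) (cls_pos h.2.1)) (cls_pos h.2.2)

/-- the minimum of the two bounds -/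
theorem min_bound (m m' : ℝ) (hm : 0 < m) (hm' : 0 < m') :
    min (m ^ (5 / 3 : ℝ) * m') (m' ^ (5 / 3 : ℝ) * m) ≤ (m * m') ^ (4 / 3 : ℝ) := by
  have key : ∀ a b : ℝ, 0 < a → 0 < b → a ≤ b → a ^ (5 / 3 : ℝ) * b ≤ (a * b) ^ (4 / 3 : ℝ) := by
    intro a b ha hb hab
    rw [Real.mul_rpow ha.le hb.le]
    have h1 : a ^ (5 / 3 : ℝ) = a ^ (4 / 3 : ℝ) * a ^ (1 / 3 : ℝ) := by
      rw [← Real.rpow_add ha]; norm_num
    have h2 : b ^ (4 / 3 : ℝ) = b ^ (1 / 3 : ℝ) * b := by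
      nth_rewrite 3 [← Real.rpow_one b]
      rw [← Real.rpow_add hb]; norm_num
    rw [h1, h2, mul_assoc]
    apply mul_le_mul_of_nonneg_left _ (Real.rpow_nonneg ha.le _)
    apply mul_le_mul_of_nonneg_right _ hb.le
    exact Real.rpow_le_rpow ha.le hab (by norm_num)
  rcases le_total m m' with h | h
  · exact (min_le_left _ _).trans (key m m' hm hm' h)
  · refine (min_le_right _ _).trans ?_
    rw [mul_comm m m']
    exact key m' m hm' hm h

theorem rpow_fold (m m' : ℝ) (hm : 0 < m) (hm' : 0 < m') :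
    m ^ (-(2 / 3) : ℝ) * m' ^ (-(2 / 3) : ℝ) * (m * m') ^ (4 / 3 : ℝ) = (m * m') ^ (2 / 3 : ℝ) := by
  rw [← Real.mul_rpow hm.le hm'.le, ← Real.rpow_add (mul_pos hm hm')]
  norm_num

end CSF2

open CSF2

set_option maxHeartbeats 4000000 in
theorem stmt_CSF2 (hC : Stmt_CNT) : Stmt_CSF2 := by
  classical
  intro ω e w B h Q I c T 𝒟 Θ hω he hw hB hh hAR hAR' hE hI hU hInv hc hD
  have hB0 : (0 : ℝ) < B := by exact_mod_cast hB
  have hh0 : (0 : ℝ) < h := by exact_mod_cast hh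
  have hTQ : T ⊆ Q ×ˢ Q ×ˢ Q := hInv.1
  -- the representatives
  choose! rp hrp hrpu using hU
  set r : ℂ × ℂ × ℂ → ℂ × ℂ × ℂ := fun z => (rp z.1, rp z.2.1, rp z.2.2) with hr
  have hrI : ∀ z ∈ T, r z ∈ I ×ˢ I ×ˢ I := by
    intro z hz
    have := hTQ hz
    rw [mem_product, mem_product] at this ⊢
    exact ⟨(hrp _ this.1).1, (hrp _ this.2.1).1, (hrp _ this.2.2).1⟩
  have hrC : ∀ z ∈ T, ∀ i ∈ I ×ˢ I ×ˢ I, (r z = i ↔ Ce ω e z i) := by
    intro z hz i hi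
    have hzQ := hTQ hz
    rw [mem_product, mem_product] at hzQ hi
    constructor
    · rintro rfl
      exact ⟨(hrp _ hzQ.1).2, (hrp _ hzQ.2.1).2, (hrp _ hzQ.2.2).2⟩
    · rintro ⟨h1, h2, h3⟩
      have e1 := hrpu _ hzQ.1 _ ⟨hi.1, h1⟩
      have e2 := hrpu _ hzQ.2.1 _ ⟨hi.2.1, h2⟩
      have e3 := hrpu _ hzQ.2.2 _ ⟨hi.2.2, h3⟩
      rw [hr]
      simp only [← e1, ← e2, ← e3]
  have hIQ : I ×ˢ I ×ˢ I ⊆ Q ×ˢ Q ×ˢ Q := product_subset_product hI (product_subset_product hI hI)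
  -- grouping
  have group : ∀ f : ℂ × ℂ × ℂ → ℝ, ∑ z ∈ T, f z =
      ∑ i ∈ I ×ˢ I ×ˢ I, ∑ z ∈ T.filter (fun z => Ce ω e z i), f z := by
    intro f
    rw [← sum_fiberwise_of_maps_to hrI]
    apply sum_congr rfl
    intro i hi
    apply sum_congr _ (fun _ _ => rfl)
    apply filter_congr
    intro z hz
    exact hrC z hz i hi
  -- the number of pairs of types
  set ν : ℂ × ℂ × ℂ → ℂ × ℂ × ℂ → ℝ := fun z z' =>
    (((𝒟 z).filter (fun θ => (w * θ.1, w * θ.2) ∈ 𝒟 z')).card : ℝ) with hν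
  set M : ℂ × ℂ × ℂ → ℝ := fun z => mm ω e Q z with hM
  have hMn : ∀ z, 0 ≤ M z ^ (-(2 / 3) : ℝ) := by
    intro z
    apply Real.rpow_nonneg
    rw [hM]
    simp only [mm]
    positivity
  -- step 1
  have s1 : ∑ θ ∈ Θ.filter (fun θ => (w * θ.1, w * θ.2) ∈ Θ),
      tt ω e B Q T 𝒟 θ * tt ω e B Q T 𝒟 (w * θ.1, w * θ.2) ≤
      (B : ℝ) ^ 12 * ∑ z ∈ T, ∑ z' ∈ T, M z ^ (-(2 / 3) : ℝ) * M z' ^ (-(2 / 3) : ℝ) * ν z z' := by
    have e1 : ∀ θ : ℂ × ℂ, tt ω e B Q T 𝒟 θ * tt ω e B Q T 𝒟 (w * θ.1, w * θ.2) =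
        (B : ℝ) ^ 12 * ∑ z ∈ T, ∑ z' ∈ T, M z ^ (-(2 / 3) : ℝ) * M z' ^ (-(2 / 3) : ℝ) *
          (if θ ∈ 𝒟 z ∧ (w * θ.1, w * θ.2) ∈ 𝒟 z' then 1 else 0) := by
      intro θ
      unfold tt
      rw [sum_filter, sum_filter]
      rw [show ∀ a b : ℝ, (B : ℝ) ^ 6 * a * ((B : ℝ) ^ 6 * b) = (B : ℝ) ^ 12 * (a * b) from
        fun a b => by ring]
      rw [sum_mul_sum]
      congr 1
      apply sum_congr rfl
      intro z _
      apply sum_congr rfl
      intro z' _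
      by_cases h1 : θ ∈ 𝒟 z <;> by_cases h2 : (w * θ.1, w * θ.2) ∈ 𝒟 z' <;> simp [h1, h2, hM]
    simp only [e1]
    rw [← mul_sum]
    apply mul_le_mul_of_nonneg_left _ (by positivity)
    rw [sum_comm]
    apply sum_le_sum
    intro z _
    rw [sum_comm]
    apply sum_le_sum
    intro z' _
    rw [← mul_sum]
    apply mul_le_mul_of_nonneg_left _ (mul_nonneg (hMn z) (hMn z'))
    rw [sum_boole, hν]
    simp only [Nat.cast_le]
    apply card_le_card
    intro θ hθ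
    rw [mem_filter] at hθ ⊢
    exact hθ.2
  -- the double sum over the coarse classes
  set Z : ℂ × ℂ × ℂ → ℂ × ℂ × ℂ → ℝ := fun i i' =>
    ∑ z ∈ T.filter (fun z => Ce ω e z i), ∑ z' ∈ T.filter (fun z' => Ce ω e z' i'), ν z z' with hZ
  have s2 : ∑ z ∈ T, ∑ z' ∈ T, M z ^ (-(2 / 3) : ℝ) * M z' ^ (-(2 / 3) : ℝ) * ν z z' =
      ∑ i ∈ I ×ˢ I ×ˢ I, ∑ i' ∈ I ×ˢ I ×ˢ I,
        M i ^ (-(2 / 3) : ℝ) * M i' ^ (-(2 / 3) : ℝ) * Z i i' := by
    rw [group]
    apply sum_congr rfl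
    intro i _
    have : ∀ z ∈ T.filter (fun z => Ce ω e z i),
        ∑ z' ∈ T, M z ^ (-(2 / 3) : ℝ) * M z' ^ (-(2 / 3) : ℝ) * ν z z' =
        ∑ i' ∈ I ×ˢ I ×ˢ I, M i ^ (-(2 / 3) : ℝ) * M i' ^ (-(2 / 3) : ℝ) *
          ∑ z' ∈ T.filter (fun z' => Ce ω e z' i'), ν z z' := by
      intro z hz
      rw [group]
      apply sum_congr rfl
      intro i' _
      rw [mul_sum]
      apply sum_congr rfl
      intro z' hz'
      have hz2 := (mem_filter.1 hz).2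
      have hz2' := (mem_filter.1 hz').2
      rw [hM]
      simp only [mm_congr hz2, mm_congr hz2']
    rw [sum_congr rfl this, sum_comm]
    apply sum_congr rfl
    intro i' _
    rw [hZ]
    simp only [mul_sum]
  -- the bounds for Z
  have s3 : ∀ i ∈ I ×ˢ I ×ˢ I, ∀ i' ∈ I ×ˢ I ×ˢ I, Z i i' ≤
      if Cg ω w (((i'.1 - w * i.1) - (i'.2.1 - w * i.2.1)) / e) ∧
        Cg ω w (((i'.1 - w * i.1) - (i'.2.2 - w * i.2.2)) / e)
      then c * (M i * M i') ^ (4 / 3 : ℝ) / ((B : ℝ) ^ 8 * (h : ℝ) ^ 2) else 0 := by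
    intro i hi i' hi'
    have b1 := hC ω e w B h Q c T 𝒟 i i' hω he hw hB hh hAR hE hInv hc hD (hIQ hi) (hIQ hi')
    have b2 := hC ω e w⁻¹ B h Q c T 𝒟 i' i hω he (inv_ne_zero hw) hB hh hAR' hE hInv hc hD
      (hIQ hi') (hIQ hi)
    have hsw : ∑ z ∈ T.filter (fun z => Ce ω e z i'), ∑ z' ∈ T.filter (fun z' => Ce ω e z' i),
        (((𝒟 z).filter (fun θ => (w⁻¹ * θ.1, w⁻¹ * θ.2) ∈ 𝒟 z')).card : ℝ) = Z i i' := by
      rw [hZ, sum_comm]
      apply sum_congr rfl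
      intro z _
      apply sum_congr rfl
      intro z' _
      rw [hν]
      simp only [Nat.cast_inj]
      apply card_nbij' (fun θ => (w⁻¹ * θ.1, w⁻¹ * θ.2)) (fun θ => (w * θ.1, w * θ.2))
      · intro θ hθ
        simp only [coe_filter, Set.mem_ofPred_eq] at hθ ⊢
        refine ⟨hθ.2, ?_⟩
        rw [mul_inv_cancel_left₀ hw, mul_inv_cancel_left₀ hw]
        exact hθ.1
      · intro θ hθ
        simp only [coe_filter, Set.mem_ofPred_eq] at hθ ⊢
        refine ⟨hθ.2, ?_⟩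
        rw [inv_mul_cancel_left₀ hw, inv_mul_cancel_left₀ hw]
        exact hθ.1
      · intro θ _
        simp only [mul_inv_cancel_left₀ hw]
      · intro θ _
        simp only [inv_mul_cancel_left₀ hw]
    rw [hsw] at b2
    have b1' : Z i i' ≤ if Cg ω w (((i'.1 - w * i.1) - (i'.2.1 - w * i.2.1)) / e) ∧
        Cg ω w (((i'.1 - w * i.1) - (i'.2.2 - w * i.2.2)) / e)
      then c * (M i) ^ (5 / 3 : ℝ) * M i' / ((B : ℝ) ^ 8 * (h : ℝ) ^ 2) else 0 := b1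
    have hM0 : 0 < M i := mm_pos (hIQ hi)
    have hM0' : 0 < M i' := mm_pos (hIQ hi')
    split_ifs at b1' ⊢ with hcg
    · have b2' : Z i i' ≤ c * (M i') ^ (5 / 3 : ℝ) * M i / ((B : ℝ) ^ 8 * (h : ℝ) ^ 2) := by
        refine b2.trans ?_
        split_ifs
        · exact le_rfl
        · positivity
      have hmin := min_bound (M i) (M i') hM0 hM0'
      have hd : (0 : ℝ) < (B : ℝ) ^ 8 * (h : ℝ) ^ 2 := by positivity
      rcases min_le_iff.1 hmin with h1 | h1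
      · refine b1'.trans ?_
        rw [mul_assoc]
        exact div_le_div_of_nonneg_right (mul_le_mul_of_nonneg_left h1 hc) hd.le
      · refine b2'.trans ?_
        rw [mul_assoc]
        exact div_le_div_of_nonneg_right (mul_le_mul_of_nonneg_left h1 hc) hd.le
    · exact b1'
  -- the sum over the coarse classes
  have s4 : ∑ i ∈ I ×ˢ I ×ˢ I, ∑ i' ∈ I ×ˢ I ×ˢ I,
        M i ^ (-(2 / 3) : ℝ) * M i' ^ (-(2 / 3) : ℝ) * Z i i' ≤
      ∑ i ∈ I ×ˢ I ×ˢ I, ∑ i' ∈ I ×ˢ I ×ˢ I, c / ((B : ℝ) ^ 8 * (h : ℝ) ^ 2) *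
        (if Cg ω w (((i'.1 - w * i.1) - (i'.2.1 - w * i.2.1)) / e) ∧
          Cg ω w (((i'.1 - w * i.1) - (i'.2.2 - w * i.2.2)) / e)
        then (M i * M i') ^ (2 / 3 : ℝ) else 0) := by
    apply sum_le_sum
    intro i hi
    apply sum_le_sum
    intro i' hi'
    refine (mul_le_mul_of_nonneg_left (s3 i hi i' hi') (mul_nonneg (hMn i) (hMn i'))).trans ?_
    have hM0 : 0 < M i := mm_pos (hIQ hi)
    have hM0' : 0 < M i' := mm_pos (hIQ hi')
    split_ifs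
    · rw [← rpow_fold (M i) (M i') hM0 hM0']
      apply le_of_eq
      ring
    · simp
  have s5 : keyS ω w (I.image (fun i => i / e)) (fun z => ((cls ω e Q (z * e)).card : ℝ)) =
      ∑ i ∈ I ×ˢ I ×ˢ I, ∑ i' ∈ I ×ˢ I ×ˢ I,
        (if Cg ω w (((i'.1 - w * i.1) - (i'.2.1 - w * i.2.1)) / e) ∧
          Cg ω w (((i'.1 - w * i.1) - (i'.2.2 - w * i.2.2)) / e)
        then (M i * M i') ^ (2 / 3 : ℝ) else 0) := by
    unfold keyS
    have hinj : Function.Injective (fun i : ℂ => i / e) := fun a b hab => by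
      field_simp at hab
      exact hab
    simp only [sum_product, sum_image (fun a _ b _ hab => hinj hab)]
    apply sum_congr rfl
    intro i1 _
    rw [sum_comm]
    apply sum_congr rfl
    intro i2 _
    have : ∀ x ∈ I, ∑ y ∈ I, ∑ z ∈ I, ∑ z' ∈ I,
        (if Cg ω w ((x / e - w * (i1 / e)) - (y / e - w * (i2 / e))) ∧
            Cg ω w ((x / e - w * (i1 / e)) - (z' / e - w * (z / e)))
          then (((cls ω e Q (i1 / e * e)).card : ℝ) * ((cls ω e Q (x / e * e)).card : ℝ) *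
            (((cls ω e Q (i2 / e * e)).card : ℝ) * ((cls ω e Q (y / e * e)).card : ℝ)) *
            (((cls ω e Q (z / e * e)).card : ℝ) * ((cls ω e Q (z' / e * e)).card : ℝ))) ^ (2 / 3 : ℝ)
          else 0) =
        ∑ z ∈ I, ∑ y ∈ I, ∑ z' ∈ I,
        (if Cg ω w (((x - w * i1) - (y - w * i2)) / e) ∧
          Cg ω w (((x - w * i1) - (z' - w * z)) / e)
        then (M (i1, i2, z) * M (x, y, z')) ^ (2 / 3 : ℝ) else 0) := by
      intro x _
      rw [sum_comm]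
      apply sum_congr rfl
      intro z _
      apply sum_congr rfl
      intro y _
      apply sum_congr rfl
      intro z' _
      have c1 : (x / e - w * (i1 / e)) - (y / e - w * (i2 / e)) =
          ((x - w * i1) - (y - w * i2)) / e := by ring
      have c2 : (x / e - w * (i1 / e)) - (z' / e - w * (z / e)) =
          ((x - w * i1) - (z' - w * z)) / e := by ring
      rw [c1, c2]
      simp only [div_mul_cancel₀ _ he, hM, mm]
      congr 2
      ring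
    rw [sum_congr rfl this, sum_comm]
  rw [s5, mul_sum]
  refine s1.trans ?_
  rw [s2]
  refine (mul_le_mul_of_nonneg_left s4 (by positivity)).trans ?_
  rw [mul_sum]
  apply le_of_eq
  apply sum_congr rfl
  intro i _
  rw [mul_sum, mul_sum]
  apply sum_congr rfl
  intro i' _
  rw [← mul_assoc]
  congr 1
  field_simp

end Pool.RAT
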