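import Pool.Agent.Work.MP_dc37f8_rf.InterfaceC

/-!
# MP_dc37f8_co: large sets whose popular rotations have rational cosine (helper96)

The statements of the blocks. Proofs on paper: BLUEPRINT.md.
-/

set_option autoImplicit false

open Finset

namespace Pool.RAT

open Pool.BK Pool.BD Pool.RF

open scoped Pointwise

/-! ### Definitions -/

/-- the linear part of a direct isometry -/
noncomputable def lp (g : Gp) : ℂ := g 1 - g 0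

/-- `z` is in the order `ℤ + ℤ ω` -/
def Or (ω z : ℂ) : Prop := ∃ x y : ℤ, z = x + y * ω

/-- the usual generator of the ring of integers of `ℚ(√-D)`, `D` squarefree -/
noncomputable def om (D : ℕ) : ℂ :=
  if D % 4 = 3 then (1 + (Real.sqrt D : ℂ) * Complex.I) / 2 else (Real.sqrt D : ℂ) * Complex.I

/-- `z` is in the field `ℚ(√-D)` -/
def Fd (D : ℕ) (z : ℂ) : Prop := ∃ x y : ℚ, z = x + y * ((Real.sqrt D : ℂ) * Complex.I)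

/-- the complex number `w` of absolute value one has `2 re w = a / h` in lowest terms -/
def Den (w : ℂ) (h : ℕ) : Prop :=
  0 < h ∧ ∃ a : ℤ, IsCoprime a (h : ℤ) ∧ (h : ℂ) * w ^ 2 - a * w + h = 0

/-- the box `{(i + j ω) v : 0 ≤ i, j < N}` -/
noncomputable def box (ω v : ℂ) (N : ℕ) : Finset ℂ :=
  (range N ×ˢ range N).image (fun z => ((z.1 : ℂ) + z.2 * ω) * v)

open Classical in
/-- the points `q` of `Q` with `q - z ∈ (ℤ + ℤ ω) e` -/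
noncomputable def cls (ω e : ℂ) (Q : Finset ℂ) (z : ℂ) : Finset ℂ :=
  Q.filter (fun q => Or ω ((q - z) / e))

/-- `Q` is equidistributed: every class of `Q` modulo `(ℤ + ℤ ω) e` has the same number of points
in each of its `B²` classes modulo `B (ℤ + ℤ ω) e` -/
def Eqd (ω : ℂ) (B : ℕ) (e : ℂ) (Q : Finset ℂ) : Prop :=
  ∀ q ∈ Q, ∀ x y : ℤ,
    B ^ 2 * (cls ω (B * e) Q (q + (x + y * ω) * e)).card = (cls ω e Q q).card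

/-- `D` is a `K`-approximate group of about `|Q|` elements, `Q` is in `K` translates of `D` -/
def Lk (K : ℕ) (D Q : Finset ℂ) : Prop :=
  0 ∈ D ∧ -D = D ∧ D.card ≤ K * Q.card ∧ (∃ X : Finset ℂ, X.card ≤ K ∧ D + D ⊆ X + D) ∧
    ∃ Y : Finset ℂ, Y.card ≤ K ∧ Q ⊆ Y + D

open Classical in
/-- number of `(a, b, c) ∈ A × B × C` with `a - b = θ.1`, `a - c = θ.2` -/
noncomputable def rept (A B C : Finset ℂ) (θ : ℂ × ℂ) : ℕ :=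
  (A.filter (fun a => a - θ.1 ∈ B ∧ a - θ.2 ∈ C)).card

open Classical in
/-- `A`, `B`, `C` have about `s` elements, small difference sets, are on few lines parallel to `e`
and have few points on each such line -/
def Gd (K N : ℕ) (s : ℝ) (e : ℂ) (A B C : Finset ℂ) : Prop :=
  (s ≤ K * A.card ∧ s ≤ K * B.card ∧ s ≤ K * C.card) ∧
  (((A - B).card : ℝ) ≤ K * s ∧ ((A - C).card : ℝ) ≤ K * s ∧ ((B - C).card : ℝ) ≤ K * s) ∧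
  ∀ E ∈ ({A, B, C} : Finset (Finset ℂ)), (N : ℝ) * (E.image (fun z => (z / e).im)).card ≤ K * s ∧
    ∀ y : ℝ, (N : ℝ) * (E.filter (fun z => (z / e).im = y)).card ≤ K * s

/-- `z ∈ O + w O`, `O = ℤ + ℤ ω` -/
def Cg (ω w z : ℂ) : Prop := ∃ a b : ℂ, Or ω a ∧ Or ω b ∧ z = a + w * b

open Classical in
/-- the sum over all triples of pairs of `I × I` which are congruent with respect to `w` -/
noncomputable def keyS (ω w : ℂ) (I : Finset ℂ) (m : ℂ → ℝ) : ℝ :=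
  ∑ x ∈ I ×ˢ I, ∑ y ∈ I ×ˢ I, ∑ z ∈ I ×ˢ I,
    if Cg ω w ((x.2 - w * x.1) - (y.2 - w * y.1)) ∧ Cg ω w ((x.2 - w * x.1) - (z.2 - w * z.1))
    then (m x.1 * m x.2 * (m y.1 * m y.2) * (m z.1 * m z.2)) ^ (2 / 3 : ℝ) else 0

open Classical in
/-- multiplication by `w` and the classes modulo `B O` and `O`, `O = ℤ + ℤ ω` -/
def AR (ω : ℂ) (B h : ℕ) (w : ℂ) : Prop :=
  (∀ z : ℂ, Or ω z → Or ω (w * (B * z))) ∧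
  ∀ ζ : ℂ, h * ((range B ×ˢ range B).filter (fun z => Or ω (w * ((z.1 : ℂ) + z.2 * ω) - ζ))).card ≤
    B ^ 2

/-! ### Part T: the three kinds of sets -/

open Classical in
/-- TRI (from the blocks of MP_dc37f8_rf, with variable constants) -/
def Stmt_TRI : Prop :=
  ∀ ε η : ℝ, 0 < ε → 0 < η → ∃ L : ℕ, ∀ β : ℝ, 0 < β → ∃ n₀ : ℕ,
    ∀ (P : Finset ℂ) (𝒢 : Finset Gp), n₀ ≤ P.card →
    (∀ g ∈ 𝒢, IsDir g ∧ 2 ≤ (st P g).card) → CS P 𝒢 →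
    100 * (12 * ((TC P).card : ℝ)) ≤ 145 * (P.card : ℝ) ^ 2 →
    (∃ (c : ℂ) (ρ : ℝ), 0 < ρ ∧
      19 / 20 * (P.card : ℝ) ≤ ((P.filter (fun p => dist p c = ρ)).card : ℝ)) ∨
    ∃ Q W : Finset ℂ, Q ⊆ P \ Lam P β ∧ (1 - ε) * P.card ≤ (Q.card : ℝ) ∧ W.card ≤ L ∧
      (∀ w ∈ W, ‖w‖ = 1) ∧
      ∑ g ∈ 𝒢.filter (fun g => lp g ∉ W), ((st Q g).card : ℝ) ^ 3 ≤ η * (P.card : ℝ) ^ 4

/-! ### Part R: the structure of the poor sets -/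

open Classical in
/-- RED1: almost all points are moved into `Q` by many isometries which are rich for `Q₁` -/
def Stmt_RED1 : Prop :=
  ∀ K₁ θ : ℝ, 1 ≤ K₁ → 0 < θ → ∃ η : ℝ, 0 < η ∧ ∀ L : ℕ, ∃ (ε : ℝ) (n₀ : ℕ), 0 < ε ∧
    ∀ (P : Finset ℂ) (𝒢 : Finset Gp) (Q W Q₁ : Finset ℂ), n₀ ≤ P.card →
    (∀ g ∈ 𝒢, IsDir g) → CS P 𝒢 → 12 * ((TC P).card : ℝ) ≤ 2 * (P.card : ℝ) ^ 2 →
    Q ⊆ P → W.card ≤ L →
    ∑ g ∈ 𝒢.filter (fun g => lp g ∉ W), ((st Q g).card : ℝ) ^ 3 ≤ η * (P.card : ℝ) ^ 4 →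
    Q₁ ⊆ Q → (P.card : ℝ) ≤ K₁ * Q₁.card →
    ((Q.filter (fun p => ((𝒢.filter (fun g => lp g ∈ W ∧ ε * P.card ≤ ((st Q₁ g).card : ℝ) ∧
      g p ∈ Q)).card : ℝ) < η * P.card)).card : ℝ) ≤ θ * P.card

open Classical in
/-- RED2: points which are moved into `Q` by many rich isometries are in few translates of
`Q₁ - Q₁` -/
def Stmt_RED2 : Prop :=
  ∀ (K₁ η ε : ℝ) (L : ℕ), 1 ≤ K₁ → 0 < η → 0 < ε → ∃ K : ℕ,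
    ∀ (n : ℕ) (𝒢 : Finset Gp) (Q Q' W Q₁ : Finset ℂ), 0 < n → (∀ g ∈ 𝒢, IsDir g) →
    Q.card ≤ n → W.card ≤ L → (n : ℝ) ≤ K₁ * Q₁.card → ((Q₁ - Q₁).card : ℝ) ≤ K₁ * n →
    (∀ p ∈ Q', η * n ≤ ((𝒢.filter (fun g => lp g ∈ W ∧ ε * n ≤ ((st Q₁ g).card : ℝ) ∧
      g p ∈ Q)).card : ℝ)) →
    ∃ Y : Finset ℂ, Y.card ≤ K ∧ Q' ⊆ Y + (Q₁ - Q₁)

open Classical in
/-- RED: almost all points are in few translates of `Q₁ - Q₁` (from RED1, RED2) -/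
def Stmt_RED : Prop :=
  ∀ K₁ θ : ℝ, 1 ≤ K₁ → 0 < θ → ∃ η : ℝ, 0 < η ∧ ∀ L : ℕ, ∃ K n₀ : ℕ,
    ∀ (P : Finset ℂ) (𝒢 : Finset Gp) (Q W Q₁ : Finset ℂ), n₀ ≤ P.card →
    (∀ g ∈ 𝒢, IsDir g) → CS P 𝒢 → 12 * ((TC P).card : ℝ) ≤ 2 * (P.card : ℝ) ^ 2 →
    Q ⊆ P → W.card ≤ L →
    ∑ g ∈ 𝒢.filter (fun g => lp g ∉ W), ((st Q g).card : ℝ) ^ 3 ≤ η * (P.card : ℝ) ^ 4 →
    Q₁ ⊆ Q → (P.card : ℝ) ≤ K₁ * Q₁.card → ((Q₁ - Q₁).card : ℝ) ≤ K₁ * P.card →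
    ∃ Q' ⊆ Q, ((Q \ Q').card : ℝ) ≤ θ * P.card ∧
      ∃ Y : Finset ℂ, Y.card ≤ K ∧ Q' ⊆ Y + (Q₁ - Q₁)

/-- PIECE: a popular linear part gives a piece of small doubling (from Pool.BD.Stmt_ADD) -/
def Stmt_PIECE : Prop :=
  ∀ δ : ℝ, 0 < δ → ∃ K : ℝ, 1 ≤ K ∧ ∀ (Q : Finset ℂ) (w : ℂ) (n : ℕ), w ≠ 0 → Q.card ≤ n →
    0 < n → δ * (n : ℝ) ^ 4 ≤ SX Q w →
    ∃ Q₁ ⊆ Q, (n : ℝ) ≤ K * Q₁.card ∧ ((Q₁ - Q₁).card : ℝ) ≤ K * n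

/-- APG: `Q₁ - Q₁` is an approximate group -/
def Stmt_APG : Prop :=
  ∀ K : ℝ, 1 ≤ K → ∃ K' : ℕ, ∀ (Q₁ : Finset ℂ) (n : ℕ), 0 < n → (n : ℝ) ≤ K * Q₁.card →
    ((Q₁ - Q₁).card : ℝ) ≤ K * n →
    ∃ X : Finset ℂ, X.card ≤ K' ∧ (Q₁ - Q₁) + (Q₁ - Q₁) ⊆ X + (Q₁ - Q₁)

/-- LONG: a long progression in `D + D` -/
def Stmt_LONG : Prop :=
  ∀ K N : ℕ, ∃ n₀ : ℕ, ∀ D X : Finset ℂ, n₀ ≤ D.card → 0 ∈ D → -D = D → X.card ≤ K →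
    D + D ⊆ X + D → ∃ v : ℂ, v ≠ 0 ∧ ∀ j : ℤ, |j| ≤ N → (j : ℂ) * v ∈ D + D

/-- POPW: a popular linear part maps `D` into few translates of `D` -/
def Stmt_POPW : Prop :=
  ∀ (K : ℕ) (δ : ℝ), 0 < δ → ∃ K' : ℕ, ∀ (D Q : Finset ℂ) (w : ℂ), Q.Nonempty → Lk K D Q →
    w ≠ 0 → δ * (Q.card : ℝ) ^ 4 ≤ SX Q w →
    ∃ X : Finset ℂ, X.card ≤ K' ∧ D.image (fun z => w * z) ⊆ X + D

/-- DIG: sums of powers with small digits are different -/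
def Stmt_DIG : Prop :=
  ∀ (w : ℂ) (h : ℕ), ‖w‖ = 1 → Den w h → w ≠ 1 → w ≠ -1 → ∀ (m : ℕ) (c : ℕ → ℤ),
    (∀ k, |c k| < h) → ∑ k ∈ range m, (c k : ℂ) * w ^ k = 0 → ∀ k < m, c k = 0

/-- HGT: popular linear parts have bounded denominators (from LONG, DIG) -/
def Stmt_HGT : Prop :=
  ∀ K K' : ℕ, ∃ H n₀ : ℕ, ∀ (D X X' : Finset ℂ) (w : ℂ) (h : ℕ), n₀ ≤ D.card → 0 ∈ D →
    -D = D → X.card ≤ K → D + D ⊆ X + D → X'.card ≤ K' → D.image (fun z => w * z) ⊆ X' + D →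
    ‖w‖ = 1 → Den w h → h ≤ H

/-- BOX: `Q` is thick in the directions of a lattice (from LONG) -/
def Stmt_BOX : Prop :=
  ∀ K K' : ℕ, ∃ K'' : ℕ, ∀ H N : ℕ, ∃ n₀ : ℕ, ∀ (D Q X : Finset ℂ) (ω w : ℂ) (h : ℕ) (u f : ℤ),
    n₀ ≤ Q.card → Lk K D Q → X.card ≤ K' → D.image (fun z => w * z) ⊆ X + D →
    h ≤ H → |u| ≤ H → |f| ≤ H → f ≠ 0 → (h : ℂ) * w = u + f * ω →
    (Q - Q).card ≤ K'' * Q.card ∧ ∃ v : ℂ, v ≠ 0 ∧ (Q + box ω v N).card ≤ K'' * Q.card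

/-- ENT1: the entropy of `Q` modulo `M (ℤ + ℤ ω) v` is large if `Q` is thick -/
def Stmt_ENT1 : Prop :=
  ∀ (K M : ℕ) (Q : Finset ℂ) (ω v : ℂ), ω.im ≠ 0 → v ≠ 0 → 1 ≤ M → Q.Nonempty →
    (Q + box ω v M).card ≤ K * Q.card →
    ∑ q ∈ Q, Real.log ((M : ℝ) ^ 2 * (cls ω (M * v) Q q).card / (cls ω v Q q).card) ≤
      Q.card * Real.log K

open Classical in
/-- ENT2: small entropy defect gives equidistribution -/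
def Stmt_ENT2 : Prop :=
  ∀ (B : ℕ) (ε : ℝ) (Q : Finset ℂ) (ω e : ℂ), ω.im ≠ 0 → e ≠ 0 → 1 ≤ B → 0 ≤ ε → ε ≤ 1 →
    ε ^ 2 * ((Q.filter (fun q => ∃ x ∈ range B, ∃ y ∈ range B,
      (B : ℝ) ^ 2 * (cls ω (B * e) Q (q + (x + y * ω) * e)).card <
        (1 - ε) * (cls ω e Q q).card)).card : ℝ) ≤
      4 * (B : ℝ) ^ 2 *
        ∑ q ∈ Q, Real.log ((B : ℝ) ^ 2 * (cls ω (B * e) Q q).card / (cls ω e Q q).card)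

open Classical in
/-- LEVA: a level on which almost all classes are almost equidistributed (from ENT1, ENT2) -/
def Stmt_LEVA : Prop :=
  ∀ (K : ℕ) (ε : ℝ) (B : ℕ), 0 < ε → 1 ≤ B → ∃ M : ℕ, 1 ≤ M ∧ ∀ (Q : Finset ℂ) (ω v : ℂ),
    ω.im ≠ 0 → v ≠ 0 → Q.Nonempty → (Q + box ω v (B ^ M)).card ≤ K * Q.card →
    ∃ l < M, ((Q.filter (fun q => ∃ x ∈ range B, ∃ y ∈ range B,
      (B : ℝ) ^ 2 * (cls ω (B * ((B : ℂ) ^ l * v)) Q (q + (x + y * ω) * ((B : ℂ) ^ l * v))).card <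
        (1 - ε) * (cls ω ((B : ℂ) ^ l * v) Q q).card)).card : ℝ) ≤ ε * Q.card

/-- LEVEL: equidistribution on a suitable level (from LEVA) -/
def Stmt_LEVEL : Prop :=
  ∀ (K : ℕ) (ε : ℝ) (B N₁ : ℕ), 0 < ε → 1 ≤ B → ∃ N : ℕ, ∀ (Q : Finset ℂ) (ω v : ℂ),
    ω.im ≠ 0 → v ≠ 0 → Q.Nonempty → (Q + box ω v N).card ≤ K * Q.card →
    ∃ (e : ℂ) (Q' : Finset ℂ), e ≠ 0 ∧ Q' ⊆ Q ∧ (1 - ε) * Q.card ≤ (Q'.card : ℝ) ∧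
      Eqd ω B e Q' ∧ (Q' + box ω (B * e) N₁).card ≤ K * Q.card

open Classical in
/-- PAIRS: almost all triples of classes are good -/
def Stmt_PAIRS : Prop :=
  ∀ (K : ℕ) (ε : ℝ), 0 < ε → ∃ K₂ : ℕ, ∀ (N : ℕ) (Q : Finset ℂ) (ω e : ℂ), 1 ≤ N →
    ω.im ≠ 0 → e ≠ 0 → Q.Nonempty → (Q - Q).card ≤ K * Q.card →
    (Q + box ω e N).card ≤ K * Q.card →
    ∃ s : ℝ, 0 < s ∧ (1 - ε) * (Q.card : ℝ) ^ 3 ≤
      (((Q ×ˢ Q ×ˢ Q).filter (fun z =>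
        Gd K₂ N s e (cls ω e Q z.1) (cls ω e Q z.2.1) (cls ω e Q z.2.2))).card : ℝ)

/-! ### Part B: Brunn-Minkowski -/

open Classical in
/-- PATH: difference sets of sets on `p` and `q` horizontal lines -/
def Stmt_PATH : Prop :=
  ∀ X C : Finset ℂ, X.Nonempty → C.Nonempty →
    (((X.image Complex.im).card : ℝ) + (C.image Complex.im).card - 1) *
      ((X.card : ℝ) / (X.image Complex.im).card + (C.card : ℝ) / (C.image Complex.im).card - 1) ≤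
      ((X - C).card : ℝ)

open Classical in
/-- REM: arithmetic removal lemma (from Mathlib's triangle removal lemma) -/
def Stmt_REM : Prop :=
  ∀ (K : ℕ) (ε : ℝ), 0 < ε → ∃ τ : ℝ, 0 < τ ∧ ∀ (s : ℝ) (X C E : Finset ℂ), 0 < s →
    s ≤ K * X.card → s ≤ K * C.card → ((X - C).card : ℝ) ≤ K * s → E ⊆ X - C →
    (((X ×ˢ C).filter (fun z => z.1 - z.2 ∈ E)).card : ℝ) ≤ τ * s ^ 2 →
    ∃ X' ⊆ X, ∃ C' ⊆ C, ∃ E' ⊆ E, ((X \ X').card : ℝ) ≤ ε * s ∧ ((C \ C').card : ℝ) ≤ ε * s ∧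
      (E'.card : ℝ) ≤ ε * s ∧ ∀ x ∈ X', ∀ c ∈ C', x - c ∈ E → x - c ∈ E'

open Classical in
/-- BMLP: Brunn-Minkowski for popular differences (from PATH, REM) -/
def Stmt_BMLP : Prop :=
  ∀ (K : ℕ) (ε : ℝ), 0 < ε → ∃ (τ : ℝ) (N : ℕ), 0 < τ ∧ ∀ (s : ℝ) (X C : Finset ℂ), 0 < s →
    s ≤ K * X.card → s ≤ K * C.card → ((X - C).card : ℝ) ≤ K * s →
    (∀ E ∈ ({X, C} : Finset (Finset ℂ)), (N : ℝ) * (E.image Complex.im).card ≤ s ∧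
      ∀ y : ℝ, (N : ℝ) * (E.filter (fun z => z.im = y)).card ≤ s) →
    (Real.sqrt X.card + Real.sqrt C.card) ^ 2 - ε * s ≤
      (((X - C).filter (fun d => τ * s ≤ ((X.filter (fun x => x - d ∈ C)).card : ℝ))).card : ℝ)

open Classical in
/-- SQ1: the sum of the square roots of the numbers of representations, on one line -/
def Stmt_SQ1 : Prop :=
  ∀ (A B : Finset ℂ) (y z : ℝ) (M : ℕ), 1 ≤ M → (∀ a ∈ A, a.im = y) → (∀ b ∈ B, b.im = z) →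
    M ≤ A.card → M ≤ B.card →
    4 / 3 * (1 - 1 / M) * ((A.card : ℝ) * B.card) ^ (3 / 4 : ℝ) ≤
      ∑ d ∈ A - B, Real.sqrt ((A.filter (fun a => a - d ∈ B)).card)

open Classical in
/-- SQA: from the lines to the plane (from SQ1, Minkowski) -/
def Stmt_SQA : Prop :=
  ∀ (A B : Finset ℂ) (M : ℕ), 1 ≤ M →
    (∀ a ∈ A, M ≤ (A.filter (fun z => z.im = a.im)).card) →
    (∀ b ∈ B, M ≤ (B.filter (fun z => z.im = b.im)).card) →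
    4 / 3 * (1 - 1 / M) * ∑ δ ∈ A.image Complex.im - B.image Complex.im,
      Real.sqrt (∑ y ∈ (A.image Complex.im ×ˢ B.image Complex.im).filter
        (fun y => y.1 - y.2 = δ), (((A.filter (fun z => z.im = y.1)).card : ℝ) *
          (B.filter (fun z => z.im = y.2)).card) ^ (3 / 2 : ℝ)) ≤
      ∑ d ∈ A - B, Real.sqrt ((A.filter (fun a => a - d ∈ B)).card)

open Classical in
/-- SQB: an inequality for masses on two sets of numbers -/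
def Stmt_SQB : Prop :=
  ∀ (Y Z : Finset ℝ) (α β : ℝ → ℝ) (μ : ℝ), Y.Nonempty → Z.Nonempty → 0 ≤ μ → μ ≤ 1 →
    (∀ y ∈ Y, 0 < α y ∧ α y ≤ μ * ∑ y ∈ Y, α y) → (∀ z ∈ Z, 0 < β z ∧ β z ≤ μ * ∑ z ∈ Z, β z) →
    ((∑ y ∈ Y, α y) * ∑ z ∈ Z, β z) ^ (3 / 4 : ℝ) / Real.sqrt (8 / 9 + 3 * μ) ≤
      ∑ δ ∈ Y - Z, Real.sqrt (∑ y ∈ (Y ×ˢ Z).filter (fun y => y.1 - y.2 = δ),
        (α y.1 * β y.2) ^ (3 / 2 : ℝ))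

open Classical in
/-- SQR: the sum of the square roots of the numbers of representations (from SQA, SQB) -/
def Stmt_SQR : Prop :=
  ∀ (K : ℕ) (ε : ℝ), 0 < ε → ∃ N : ℕ, ∀ (s : ℝ) (A B : Finset ℂ), 0 < s →
    s ≤ K * A.card → s ≤ K * B.card →
    (∀ E ∈ ({A, B} : Finset (Finset ℂ)), (N : ℝ) * (E.image Complex.im).card ≤ s ∧
      ∀ y : ℝ, (N : ℝ) * (E.filter (fun z => z.im = y)).card ≤ s) →
    (Real.sqrt 2 - ε) * ((A.card : ℝ) * B.card) ^ (3 / 4 : ℝ) ≤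
      ∑ d ∈ A - B, Real.sqrt ((A.filter (fun a => a - d ∈ B)).card)

/-- POLY: an inequality for three numbers -/
def Stmt_POLY : Prop :=
  ∀ a b c : ℝ, 0 < a → 0 < b → 0 < c →
    7805 / 1000 * (a * b * c) ^ (2 / 3 : ℝ) ≤
      a * b + 4 * c * Real.sqrt (a * b) +
        2 * Real.sqrt 2 * Real.sqrt c * (a * b) ^ (3 / 4 : ℝ)

open Classical in
/-- BMP: the number of popular translation types (from BMLP, SQR, POLY) -/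
def Stmt_BMP : Prop :=
  ∀ K : ℕ, ∃ (τ : ℝ) (N : ℕ), 0 < τ ∧ ∀ (s : ℝ) (e : ℂ) (A B C : Finset ℂ), 0 < s → e ≠ 0 →
    Gd K N s e A B C →
    78 / 10 * ((A.card : ℝ) * B.card * C.card) ^ (2 / 3 : ℝ) ≤
      ((((A - B) ×ˢ (A - C)).filter (fun θ => θ.1 ≠ 0 ∧ θ.2 ≠ 0 ∧ θ.1 ≠ θ.2 ∧
        τ * ((A.card : ℝ) * B.card * C.card) ^ (1 / 3 : ℝ) ≤ (rept A B C θ : ℝ))).card : ℝ)

/-! ### Part C: Cauchy-Schwarz -/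

open Classical in
/-- CSF1: Cauchy-Schwarz with weights on the translation types -/
def Stmt_CSF1 : Prop :=
  ∀ (P Q W : Finset ℂ) (𝒢 : Finset Gp) (η M : ℝ) (Θ : Finset (ℂ × ℂ)) (t : ℂ × ℂ → ℝ),
    (∀ g ∈ 𝒢, IsDir g) → CS P 𝒢 → Q ⊆ P → 0 ≤ M →
    ∑ g ∈ 𝒢.filter (fun g => lp g ∉ W), ((st Q g).card : ℝ) ^ 3 ≤ η →
    (∀ θ ∈ Θ, θ.1 ≠ 0 ∧ θ.2 ≠ 0 ∧ θ.1 ≠ θ.2 ∧ 0 ≤ t θ ∧ t θ ≤ M * rept Q Q Q θ) →
    (∑ θ ∈ Θ, t θ) ^ 2 ≤ 12 * (TC P).card *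
      (∑ w ∈ W, ∑ θ ∈ Θ.filter (fun θ => (w * θ.1, w * θ.2) ∈ Θ), t θ * t (w * θ.1, w * θ.2) +
        M ^ 2 * η)

/-- the product of the numbers of points in the classes of the points of the triple `z` -/
noncomputable def mm (ω e : ℂ) (Q : Finset ℂ) (z : ℂ × ℂ × ℂ) : ℝ :=
  ((cls ω e Q z.1).card : ℝ) * (cls ω e Q z.2.1).card * (cls ω e Q z.2.2).card

/-- `T` is a union of classes of triples, `𝒟` is constant on the classes, the elements of `𝒟 z`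
are types in the class of the type of `z` -/
def Inv (ω e : ℂ) (Q : Finset ℂ) (T : Finset (ℂ × ℂ × ℂ))
    (𝒟 : ℂ × ℂ × ℂ → Finset (ℂ × ℂ)) : Prop :=
  T ⊆ Q ×ˢ Q ×ˢ Q ∧
  (∀ z ∈ T, ∀ z' ∈ Q ×ˢ Q ×ˢ Q, Or ω ((z'.1 - z.1) / e) → Or ω ((z'.2.1 - z.2.1) / e) →
    Or ω ((z'.2.2 - z.2.2) / e) → z' ∈ T ∧ 𝒟 z' = 𝒟 z) ∧
  (∀ z ∈ T, ∀ θ ∈ 𝒟 z, Or ω ((θ.1 - (z.1 - z.2.1)) / e) ∧ Or ω ((θ.2 - (z.1 - z.2.2)) / e))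

open Classical in
/-- the weights on the types -/
noncomputable def tt (ω e : ℂ) (B : ℕ) (Q : Finset ℂ) (T : Finset (ℂ × ℂ × ℂ))
    (𝒟 : ℂ × ℂ × ℂ → Finset (ℂ × ℂ)) (θ : ℂ × ℂ) : ℝ :=
  (B : ℝ) ^ 6 * ∑ z ∈ T.filter (fun z => θ ∈ 𝒟 z), (mm ω e Q z) ^ (-(2 / 3) : ℝ)

/-- the triples `z` and `z'` are congruent modulo `(ℤ + ℤ ω) e` -/
def Ce (ω e : ℂ) (z z' : ℂ × ℂ × ℂ) : Prop :=
  Or ω ((z.1 - z'.1) / e) ∧ Or ω ((z.2.1 - z'.2.1) / e) ∧ Or ω ((z.2.2 - z'.2.2) / e)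

open Classical in
/-- CNT: the pairs of types `θ`, `w θ` in two given coarse classes -/
def Stmt_CNT : Prop :=
  ∀ (ω e w : ℂ) (B h : ℕ) (Q : Finset ℂ) (c : ℝ) (T : Finset (ℂ × ℂ × ℂ))
    (𝒟 : ℂ × ℂ × ℂ → Finset (ℂ × ℂ)) (i i' : ℂ × ℂ × ℂ),
    ω.im ≠ 0 → e ≠ 0 → w ≠ 0 → 1 ≤ B → 1 ≤ h → AR ω B h w → Eqd ω B e Q → Inv ω (B * e) Q T 𝒟 →
    0 ≤ c → (∀ z ∈ T, ((𝒟 z).card : ℝ) ≤ c * (mm ω e Q z) ^ (2 / 3 : ℝ) / (B : ℝ) ^ 4) →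
    i ∈ Q ×ˢ Q ×ˢ Q → i' ∈ Q ×ˢ Q ×ˢ Q →
    ∑ z ∈ T.filter (fun z => Ce ω e z i), ∑ z' ∈ T.filter (fun z' => Ce ω e z' i'),
      (((𝒟 z).filter (fun θ => (w * θ.1, w * θ.2) ∈ 𝒟 z')).card : ℝ) ≤
      if Cg ω w (((i'.1 - w * i.1) - (i'.2.1 - w * i.2.1)) / e) ∧
        Cg ω w (((i'.1 - w * i.1) - (i'.2.2 - w * i.2.2)) / e)
      then c * (mm ω e Q i) ^ (5 / 3 : ℝ) * mm ω e Q i' / ((B : ℝ) ^ 8 * (h : ℝ) ^ 2) else 0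

open Classical in
/-- CSF2: the weights and the rotation `w` (from CNT for `w` and `w⁻¹`) -/
def Stmt_CSF2 : Prop :=
  ∀ (ω e w : ℂ) (B h : ℕ) (Q I : Finset ℂ) (c : ℝ) (T : Finset (ℂ × ℂ × ℂ))
    (𝒟 : ℂ × ℂ × ℂ → Finset (ℂ × ℂ)) (Θ : Finset (ℂ × ℂ)),
    ω.im ≠ 0 → e ≠ 0 → w ≠ 0 → 1 ≤ B → 1 ≤ h → AR ω B h w → AR ω B h w⁻¹ → Eqd ω B e Q →
    I ⊆ Q → (∀ q ∈ Q, ∃! i, i ∈ I ∧ Or ω ((q - i) / e)) → Inv ω (B * e) Q T 𝒟 → 0 ≤ c →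
    (∀ z ∈ T, ((𝒟 z).card : ℝ) ≤ c * (mm ω e Q z) ^ (2 / 3 : ℝ) / (B : ℝ) ^ 4) →
    ∑ θ ∈ Θ.filter (fun θ => (w * θ.1, w * θ.2) ∈ Θ),
      tt ω e B Q T 𝒟 θ * tt ω e B Q T 𝒟 (w * θ.1, w * θ.2) ≤
      c * (B : ℝ) ^ 4 / (h : ℝ) ^ 2 *
        keyS ω w (I.image (fun i => i / e)) (fun z => ((cls ω e Q (z * e)).card : ℝ))

open Classical in
/-- CSF: the lower bound for the number of triangles (from CSF1, CSF2) -/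
def Stmt_CSF : Prop :=
  ∀ (P Q W : Finset ℂ) (𝒢 : Finset Gp) (ω e : ℂ) (B : ℕ) (N : ℂ → ℕ) (η κ τ : ℝ),
    (∀ g ∈ 𝒢, IsDir g) → CS P 𝒢 → Q ⊆ P →
    ∑ g ∈ 𝒢.filter (fun g => lp g ∉ W), ((st Q g).card : ℝ) ^ 3 ≤ η →
    ω.im ≠ 0 → e ≠ 0 → 1 ≤ B → Eqd ω B e Q → 0 ≤ κ → 0 < τ →
    (∀ w ∈ W, w ≠ 0 ∧ 1 ≤ N w ∧ AR ω B (N w) w ∧ AR ω B (N w) w⁻¹) →
    (∀ (I : Finset ℂ) (m : ℂ → ℝ), (∀ i ∈ I, ∀ j ∈ I, Or ω (i - j) → i = j) → (∀ i, 0 ≤ m i) →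
      ∑ w ∈ W, keyS ω w I m / (N w : ℝ) ^ 2 ≤ κ * (∑ i ∈ I, m i) ^ 4) →
    (78 / 10 * (((Q ×ˢ Q ×ˢ Q).filter (fun z =>
      (10 : ℝ) ^ 6 ≤ mm ω (B * e) Q z ∧
      78 / 10 * (mm ω (B * e) Q z) ^ (2 / 3 : ℝ) ≤
        (((((cls ω (B * e) Q z.1) - (cls ω (B * e) Q z.2.1)) ×ˢ
          ((cls ω (B * e) Q z.1) - (cls ω (B * e) Q z.2.2))).filter (fun θ =>
            θ.1 ≠ 0 ∧ θ.2 ≠ 0 ∧ θ.1 ≠ θ.2 ∧ τ * (mm ω (B * e) Q z) ^ (1 / 3 : ℝ) ≤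
              (rept (cls ω (B * e) Q z.1) (cls ω (B * e) Q z.2.1)
                (cls ω (B * e) Q z.2.2) θ : ℝ))).card : ℝ))).card : ℝ)) ^ 2 ≤
      12 * (TC P).card * (7801 / 1000 * κ * (Q.card : ℝ) ^ 4 + η / τ ^ 2)

/-! ### Part K: the arithmetic and the key inequality -/

/-- FLD: elements of absolute value one of `ℚ(√-D)` -/
def Stmt_FLD : Prop :=
  ∀ D : ℕ, Squarefree D → ∀ w : ℂ, Fd D w → ‖w‖ = 1 → ∃ h : ℕ, Den w h ∧ Den w⁻¹ h ∧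
    ∃ u f : ℤ, (h : ℂ) * w = u + f * om D ∧ |u| ≤ 2 * h ∧ |f| ≤ 2 * h ∧
      (w ≠ 1 → w ≠ -1 → f ≠ 0)

/-- ARL: the arithmetic of the multiplication by `w` -/
def Stmt_ARL : Prop :=
  ∀ D : ℕ, Squarefree D → ∀ w : ℂ, Fd D w → ‖w‖ = 1 → ∀ h B : ℕ, Den w h → h ∣ B → 1 ≤ B →
    AR (om D) B h w

/-- KEY: the key inequality -/
def Stmt_KEY : Prop :=
  ∀ D : ℕ, Squarefree D → ∀ (W : Finset ℂ) (N : ℂ → ℕ),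
    (∀ w ∈ W, Fd D w ∧ ‖w‖ = 1 ∧ Den w (N w)) → ∀ (I : Finset ℂ) (m : ℂ → ℝ),
    (∀ i ∈ I, ∀ j ∈ I, Or (om D) (i - j) → i = j) → (∀ i, 0 ≤ m i) →
    ∑ w ∈ W, keyS (om D) w I m / (N w : ℝ) ^ 2 ≤ 777 / 100 * (∑ i ∈ I, m i) ^ 4

/-! ### Part M: the theorem -/

open Classical in
/-- MAINL: a large circle (from all the blocks) -/
def Stmt_MAINL : Prop :=
  ∃ δ₀ : ℝ, 0 < δ₀ ∧ ∀ β : ℝ, 0 < β → ∃ n₀ : ℕ, ∀ P : Finset ℂ, n₀ ≤ P.card →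
    (∃ D : ℕ, Squarefree D ∧ ∀ w : ℂ, ‖w‖ = 1 → ¬ Fd D w →
      (SX (P \ Lam P β) w : ℝ) ≤ δ₀ * (P.card : ℝ) ^ 4) →
    1000 * (12 * ((TC P).card : ℝ)) ≤ 1001 * (P.card : ℝ) ^ 2 →
    ∃ (c : ℂ) (ρ : ℝ), 0 < ρ ∧
      19 / 20 * (P.card : ℝ) ≤ ((P.filter (fun p => dist p c = ρ)).card : ℝ)

end Pool.RAT
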