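import Pool.Agent.Work.MP_dc37f8_rat.Interface

/-!
# MP_dc37f8_co: large sets whose popular rotations have rational cosine: sets of small doubling

The statements of the blocks of the first part of the reduction (from helper92's RInterface).
Proofs on paper: REDUCTION.md (helper92), BLUEPRINT.md.
-/

set_option autoImplicit false

open Finset
open scoped Pointwise

namespace Pool.RAT

open Pool.BK Pool.BD Pool.RF

open Classical in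
/-- the progression `{i v : 0 ≤ i < L}` -/
noncomputable def seg (v : ℂ) (L : ℕ) : Finset ℂ := (range L).image (fun i : ℕ => (i : ℂ) * v)

open Classical in
/-- SXP: popular rotations -/
def Stmt_SXP : Prop :=
  (∀ (P : Finset ℂ) (w : ℂ) (κ : ℝ), 0 < κ → w ≠ 0 → κ * (P.card : ℝ) ^ 4 ≤ SX P w →
    ∃ t : ℂ, κ * P.card ≤ ((P.filter (fun p => w * p + t ∈ P)).card : ℝ)) ∧
  (∀ (P : Finset ℂ) (w : ℂ), w ≠ 0 →
    (P.card : ℝ) ^ 6 ≤ SX P w * ((P - P.image (fun p => w * p)).card : ℝ) ^ 2)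

open Classical in
/-- FEWC: few points on a circle -/
def Stmt_FEWC : Prop :=
  ∀ (P : Finset ℂ) (v z : ℂ) (ρ : ℝ) (L : ℕ), v ≠ 0 →
    L * (P.filter (fun p => dist p z = ρ)).card ≤ 2 * (P + seg v L).card

open Classical in
/-- TAILR: the third moment over the isometries with unpopular linear part (from
Pool.RF.Stmt_TAIL, Stmt_SEL, Stmt_RB, Stmt_CENZ; see Pool.RF.stmt_NSUM, stmt_NEGC) -/
def Stmt_TAILR : Prop :=
  ∀ η : ℝ, 0 < η → ∃ (κ b : ℝ) (n₀ : ℕ), 0 < κ ∧ 0 < b ∧ ∀ (P : Finset ℂ) (𝒢 : Finset Gp),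
    n₀ ≤ P.card → (∀ g ∈ 𝒢, IsDir g ∧ 2 ≤ (st P g).card) →
    (∀ (z : ℂ) (ρ : ℝ), ((P.filter (fun p => dist p z = ρ)).card : ℝ) < b * P.card) →
    ∑ g ∈ 𝒢.filter (fun g => (SX P (g 1 - g 0) : ℝ) < κ * (P.card : ℝ) ^ 4),
      ((st P g).card : ℝ) ^ 3 ≤ η * (P.card : ℝ) ^ 4

open Classical in
/-- PROD: the product of two popular rotations is popular (from SXP) -/
def Stmt_PROD : Prop :=
  ∀ (K κ : ℝ), 0 < K → 0 < κ → ∃ κ' : ℝ, 0 < κ' ∧ ∀ (P : Finset ℂ) (w w' : ℂ), P.Nonempty →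
    ((P - P).card : ℝ) ≤ K * P.card → ‖w‖ = 1 → ‖w'‖ = 1 → κ * (P.card : ℝ) ^ 4 ≤ SX P w →
    κ * (P.card : ℝ) ^ 4 ≤ SX P w' → κ' * (P.card : ℝ) ^ 4 ≤ SX P (w * w')

/-- TRIG: a common field -/
def Stmt_TRIG : Prop :=
  ∀ (w w' : ℂ), ‖w‖ = 1 → ‖w'‖ = 1 → w.im ≠ 0 → (∃ q : ℚ, w.re = q) → (∃ q : ℚ, w'.re = q) →
    (∃ q : ℚ, (w * w').re = q) → ∃ a b : ℚ, w' = a + b * w

/-- FD0: the field of a rotation with rational cosine -/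
def Stmt_FD0 : Prop :=
  ∀ w : ℂ, ‖w‖ = 1 → w.im ≠ 0 → (∃ q : ℚ, w.re = q) → ∃ D : ℕ, Squarefree D ∧ Fd D w

open Classical in
/-- LAT: sets of small doubling with a popular rotation -/
def Stmt_LAT : Prop :=
  ∀ K : ℝ, 0 < K → ∃ (δ : ℝ) (n₀ : ℕ), 0 < δ ∧ ∀ P : Finset ℂ, n₀ ≤ P.card →
    ((P - P).card : ℝ) ≤ K * P.card →
    (∃ w : ℂ, ‖w‖ = 1 ∧ w ≠ 1 ∧ w ≠ -1 ∧ (P.card : ℝ) ^ 4 ≤ K * SX P w) →
    (∀ w : ℂ, ‖w‖ = 1 → Irrational w.re → (SX P w : ℝ) ≤ δ * (P.card : ℝ) ^ 4) →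
    1001 / 1000 * (P.card : ℝ) ^ 2 ≤ 12 * ((TC P).card : ℝ)

end Pool.RAT
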