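import Pool.Agent.Work.MP_dc37f8_rat.Interface
import Pool.Agent.Work.MP_dc37f8_rat.KeyFinal

/-!
# MP_dc37f8_co, rat: block KEY (from `StmtKEYFC (777/100)`)
-/

open Finset

namespace Pool.RAT.KEY

open Pool.Agent.Work.MP_dc37f8_rat (StmtKEYFC thD OD FD)

theorem or_iff (D : ℕ) (z : ℂ) : Or (om D) z ↔ z ∈ OD D := Iff.rfl

theorem mem_FD {D : ℕ} {z : ℂ} (h : Fd D z) : z ∈ FD D := by
  obtain ⟨x, y, rfl⟩ := h
  unfold FD thD
  split_ifs
  · refine ⟨x - y, 2 * y, ?_⟩
    push_cast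
    ring
  · exact ⟨x, y, rfl⟩

/-- `h w² - a w + h = 0` means `h (2 re w) = a` for `|w| = 1`. -/
theorem re_of_den {w : ℂ} (hw : ‖w‖ = 1) {h : ℕ} {a : ℤ}
    (h1 : (h : ℂ) * w ^ 2 - a * w + h = 0) : (h : ℝ) * (2 * w.re) = a := by
  have h2 : w * (starRingEnd ℂ) w = 1 := by
    rw [Complex.mul_conj, Complex.normSq_eq_norm_sq, hw]
    simp
  have h3 : (h : ℂ) * (w + (starRingEnd ℂ) w) = a := by
    have h4 : ((h : ℂ) * w ^ 2 - a * w + h) * (starRingEnd ℂ) w = 0 := by rw [h1, zero_mul]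
    linear_combination h4 + (-(h : ℂ) * w + a) * h2
  have h5 : w + (starRingEnd ℂ) w = ((2 * w.re : ℝ) : ℂ) := Complex.add_conj w
  rw [h5] at h3
  exact_mod_cast h3

end Pool.RAT.KEY

namespace Pool.RAT

open Pool.Agent.Work.MP_dc37f8_rat (StmtKEYFC thD OD FD)

open Classical in
/-- **KEY** from the key theorem. -/
theorem stmt_KEY_of (hK : StmtKEYFC (777 / 100)) : Stmt_KEY := by
  intro D hD W N hW I m hI hm
  have hD0 : 0 < D := Nat.pos_of_ne_zero hD.ne_zero
  have hf : ∀ z, 0 ≤ (fun z => m z ^ (2 / 3 : ℝ)) z := fun z => Real.rpow_nonneg (hm z) _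
  have key := hK D hD0 hD W N (fun ρ hρ => ?_) I (fun z hz z' hz' h => hI z hz z' hz' h)
    (fun z => m z ^ (2 / 3 : ℝ)) hf
  · have e1 : ∀ z, (m z ^ (2 / 3 : ℝ)) ^ (3 / 2 : ℝ) = m z := by
      intro z
      rw [← Real.rpow_mul (hm z)]
      norm_num
    simp only [e1] at key
    refine le_trans (le_of_eq ?_) key
    refine sum_congr rfl fun w _ => ?_
    rw [div_eq_inv_mul]
    congr 1
    unfold keyS
    refine sum_congr rfl fun x hx => ?_
    rw [sum_filter, pow_two, sum_mul_sum, mul_sum]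
    refine sum_congr rfl fun y hy => ?_
    rw [mul_sum]
    refine sum_congr rfl fun z hz => ?_
    have hsym : ∀ u v : ℂ, Cg (om D) w (u - v) ↔
        Pool.Agent.Work.MP_dc37f8_rat.Lk D w (v - u) := by
      intro u v
      constructor
      · rintro ⟨a, b, ha, hb, hab⟩
        refine ⟨-a, (OD D).neg_mem ha, -b, (OD D).neg_mem hb, ?_⟩
        linear_combination -hab
      · rintro ⟨a, ha, b, hb, hab⟩
        refine ⟨-a, -b, (OD D).neg_mem ha, (OD D).neg_mem hb, ?_⟩
        linear_combination -hab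
    simp only [hsym]
    have hp : ∀ a b : ℝ, 0 ≤ a → 0 ≤ b → (a * b) ^ (2 / 3 : ℝ) =
        a ^ (2 / 3 : ℝ) * b ^ (2 / 3 : ℝ) := fun a b ha hb => Real.mul_rpow ha hb
    by_cases c2 : Pool.Agent.Work.MP_dc37f8_rat.Lk D w ((y.2 - w * y.1) - (x.2 - w * x.1)) <;>
      by_cases c3 : Pool.Agent.Work.MP_dc37f8_rat.Lk D w ((z.2 - w * z.1) - (x.2 - w * x.1))
    · rw [if_pos ⟨c2, c3⟩, if_pos c2, if_pos c3]
      have := hm x.1; have := hm x.2; have := hm y.1; have := hm y.2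
      have := hm z.1; have := hm z.2
      rw [hp _ _ (by positivity) (by positivity), hp _ _ (by positivity) (by positivity),
        hp _ _ (by positivity) (by positivity), hp _ _ (by positivity) (by positivity),
        hp _ _ (by positivity) (by positivity)]
      ring
    · rw [if_neg (fun h => c3 h.2), if_neg c3]
      ring
    · rw [if_neg (fun h => c2 h.1), if_neg c2]
      ring
    · rw [if_neg (fun h => c2 h.1), if_neg c2]
      ring
  · obtain ⟨h1, h2, h3, a, h4, h5⟩ := hW ρ hρ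
    exact ⟨h2, KEY.mem_FD h1, h3, a, h4, KEY.re_of_den h2 h5⟩

end Pool.RAT
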