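import Mathlib

/-!
# MP_dc37f8_co: the discrete key inequality, abstract part

`HasWeights X S Q`: for all nonnegative functions `μ, ν` on the finite type `X` there are functions
`f p : X → X → ℝ`, `p ∈ S`, such that for every pair (relation `E` on `X`, exponents `e`) allowed
by `Q`,
`∑_{(b,c) ∈ E} √(μ(b) ν(c)) ∏_{p ∈ S} cosh (e(p) log p - f_p(b,c)) ≤ ∏_p p^|e(p)| √(|μ| |ν|)`.
-/

open Finset Real

namespace Pool.Agent.Work.MP_dc37f8_rat

variable {X Y A B : Type*}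

/-- See the file header. -/
def HasWeights (X : Type*) [Fintype X] (S : Finset ℕ)
    (Q : Finset (X × X) → (ℕ → ℤ) → Prop) : Prop :=
  ∀ μ ν : X → ℝ, (∀ x, 0 ≤ μ x) → (∀ x, 0 ≤ ν x) → ∃ f : ℕ → X → X → ℝ,
    ∀ (E : Finset (X × X)) (e : ℕ → ℤ), Q E e →
      ∑ z ∈ E, √(μ z.1 * ν z.2) * ∏ p ∈ S, cosh (e p * log p - f p z.1 z.2) ≤
        (∏ p ∈ S, (p : ℝ) ^ (e p).natAbs) * √((∑ x, μ x) * ∑ x, ν x)

theorem HasWeights.mono [Fintype X] {S : Finset ℕ} {Q Q' : Finset (X × X) → (ℕ → ℤ) → Prop}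
    (h : HasWeights X S Q) (hQ : ∀ E e, Q' E e → Q E e) : HasWeights X S Q' := by
  intro μ ν hμ hν
  obtain ⟨f, hf⟩ := h μ ν hμ hν
  exact ⟨f, fun E e hE => hf E e (hQ E e hE)⟩

/-- Passing to subsets of the relations. -/
theorem HasWeights.subset [Fintype X] {S : Finset ℕ} {Q : Finset (X × X) → (ℕ → ℤ) → Prop}
    (h : HasWeights X S Q) :
    HasWeights X S (fun E e => ∃ E', E ⊆ E' ∧ Q E' e) := by
  intro μ ν hμ hν
  obtain ⟨f, hf⟩ := h μ ν hμ hν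
  refine ⟨f, fun E e ⟨E', hE, hQ⟩ => le_trans ?_ (hf E' e hQ)⟩
  exact sum_le_sum_of_subset_of_nonneg hE fun z _ _ =>
    mul_nonneg (sqrt_nonneg _) (prod_nonneg fun p _ => (cosh_pos _).le)

/-- The trivial component: partial bijections. -/
theorem hasWeights_trivial [Fintype X] :
    HasWeights X ∅ (fun E _ => (∀ z ∈ E, ∀ z' ∈ E, z.1 = z'.1 → z = z') ∧
      (∀ z ∈ E, ∀ z' ∈ E, z.2 = z'.2 → z = z')) := by
  classical
  intro μ ν hμ hν
  refine ⟨fun _ _ _ => 0, fun E e ⟨h1, h2⟩ => ?_⟩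
  simp only [prod_empty, mul_one, one_mul]
  have key : ∑ z ∈ E, √(μ z.1 * ν z.2) ≤ √((∑ z ∈ E, μ z.1)) * √(∑ z ∈ E, ν z.2) := by
    refine le_trans (le_of_eq ?_) (Real.sum_sqrt_mul_sqrt_le E (f := fun z => μ z.1)
      (g := fun z => ν z.2) (fun z => hμ _) (fun z => hν _))
    exact sum_congr rfl fun z _ => by rw [sqrt_mul (hμ _)]
  refine key.trans ?_
  rw [sqrt_mul (sum_nonneg fun x _ => hμ x)]
  have e1 : ∑ z ∈ E, μ z.1 ≤ ∑ x, μ x := by
    rw [← sum_image (f := μ) (g := Prod.fst) (s := E) (fun z hz z' hz' h => h1 z hz z' hz' h)]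
    exact sum_le_sum_of_subset_of_nonneg (subset_univ _) fun x _ _ => hμ x
  have e2 : ∑ z ∈ E, ν z.2 ≤ ∑ x, ν x := by
    rw [← sum_image (f := ν) (g := Prod.snd) (s := E) (fun z hz z' hz' h => h2 z hz z' hz' h)]
    exact sum_le_sum_of_subset_of_nonneg (subset_univ _) fun x _ _ => hν x
  gcongr

/-- Transport along an equivalence. -/
theorem HasWeights.transport [Fintype X] [Fintype Y] (φ : X ≃ Y) {S : Finset ℕ}
    {Q : Finset (X × X) → (ℕ → ℤ) → Prop} (h : HasWeights X S Q) :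
    HasWeights Y S (fun E e => Q (E.map ((φ.symm.prodCongr φ.symm).toEmbedding)) e) := by
  intro μ ν hμ hν
  obtain ⟨f, hf⟩ := h (μ ∘ φ) (ν ∘ φ) (fun x => hμ _) (fun x => hν _)
  refine ⟨fun p b c => f p (φ.symm b) (φ.symm c), fun E e hE => ?_⟩
  have := hf _ e hE
  rw [sum_map] at this
  simp only [Equiv.coe_toEmbedding, Equiv.prodCongr_apply, Prod.map, Function.comp,
    Equiv.apply_symm_apply] at this
  rw [φ.sum_comp (fun y => μ y), φ.sum_comp (fun y => ν y)] at this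
  exact this

open Classical in
/-- The product of two components. -/
theorem HasWeights.prod [Fintype X] [Fintype Y] {S T : Finset ℕ} (hST : Disjoint S T)
    {Q : Finset (X × X) → (ℕ → ℤ) → Prop} {R : Finset (Y × Y) → (ℕ → ℤ) → Prop}
    (hX : HasWeights X S Q) (hY : HasWeights Y T R) :
    HasWeights (X × Y) (S ∪ T) (fun E e => ∃ E₁ E₂, Q E₁ e ∧ R E₂ e ∧
      ∀ z ∈ E, (z.1.1, z.2.1) ∈ E₁ ∧ (z.1.2, z.2.2) ∈ E₂) := by
  intro μ ν hμ hν
  obtain ⟨f, hf⟩ := hX (fun x => ∑ y, μ (x, y)) (fun x => ∑ y, ν (x, y))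
    (fun x => sum_nonneg fun y _ => hμ _) (fun x => sum_nonneg fun y _ => hν _)
  have hg : ∀ b₁ c₁ : X, ∃ g : ℕ → Y → Y → ℝ, ∀ (E : Finset (Y × Y)) (e : ℕ → ℤ), R E e →
      ∑ z ∈ E, √(μ (b₁, z.1) * ν (c₁, z.2)) * ∏ p ∈ T, cosh (e p * log p - g p z.1 z.2) ≤
        (∏ p ∈ T, (p : ℝ) ^ (e p).natAbs) * √((∑ y, μ (b₁, y)) * ∑ y, ν (c₁, y)) :=
    fun b₁ c₁ => hY (fun y => μ (b₁, y)) (fun y => ν (c₁, y)) (fun y => hμ _) (fun y => hν _)
  choose g hg using hg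
  refine ⟨fun p b c => if p ∈ S then f p b.1 c.1 else g b.1 c.1 p b.2 c.2, ?_⟩
  rintro E e ⟨E₁, E₂, hQ, hR, hE⟩
  have hprod : ∀ z : (X × Y) × (X × Y),
      ∏ p ∈ S ∪ T, cosh (e p * log p -
        (if p ∈ S then f p z.1.1 z.2.1 else g z.1.1 z.2.1 p z.1.2 z.2.2)) =
      (∏ p ∈ S, cosh (e p * log p - f p z.1.1 z.2.1)) *
      ∏ p ∈ T, cosh (e p * log p - g z.1.1 z.2.1 p z.1.2 z.2.2) := by
    intro z
    rw [prod_union hST]
    congr 1
    · exact prod_congr rfl fun p hp => by rw [if_pos hp]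
    · exact prod_congr rfl fun p hp => by rw [if_neg (disjoint_right.1 hST hp)]
  simp only [hprod]
  -- enlarge the relation
  have hbig : ∑ z ∈ E, √(μ z.1 * ν z.2) *
      ((∏ p ∈ S, cosh (e p * log p - f p z.1.1 z.2.1)) *
      ∏ p ∈ T, cosh (e p * log p - g z.1.1 z.2.1 p z.1.2 z.2.2)) ≤
      ∑ z₁ ∈ E₁, ∑ z₂ ∈ E₂, √(μ (z₁.1, z₂.1) * ν (z₁.2, z₂.2)) *
      ((∏ p ∈ S, cosh (e p * log p - f p z₁.1 z₁.2)) *
      ∏ p ∈ T, cosh (e p * log p - g z₁.1 z₁.2 p z₂.1 z₂.2)) := by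
    rw [← sum_product']
    let emb : (X × Y) × (X × Y) ↪ (X × X) × (Y × Y) :=
      ⟨fun z => ((z.1.1, z.2.1), (z.1.2, z.2.2)), fun z z' h => by
        simp only [Prod.mk.injEq] at h
        exact Prod.ext (Prod.ext h.1.1 h.2.1) (Prod.ext h.1.2 h.2.2)⟩
    rw [show (∑ z ∈ E, √(μ z.1 * ν z.2) *
      ((∏ p ∈ S, cosh (e p * log p - f p z.1.1 z.2.1)) *
      ∏ p ∈ T, cosh (e p * log p - g z.1.1 z.2.1 p z.1.2 z.2.2))) =
      ∑ w ∈ E.map emb, √(μ (w.1.1, w.2.1) * ν (w.1.2, w.2.2)) *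
      ((∏ p ∈ S, cosh (e p * log p - f p w.1.1 w.1.2)) *
      ∏ p ∈ T, cosh (e p * log p - g w.1.1 w.1.2 p w.2.1 w.2.2)) from by rw [sum_map]; rfl]
    refine sum_le_sum_of_subset_of_nonneg ?_ fun z _ _ => mul_nonneg (sqrt_nonneg _)
      (mul_nonneg (prod_nonneg fun p _ => (cosh_pos _).le)
        (prod_nonneg fun p _ => (cosh_pos _).le))
    intro w hw
    obtain ⟨z, hz, rfl⟩ := mem_map.1 hw
    exact mem_product.2 (hE z hz)
  refine hbig.trans ?_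
  have hN : 0 ≤ ∏ p ∈ T, (p : ℝ) ^ (e p).natAbs :=
    prod_nonneg fun p _ => pow_nonneg (Nat.cast_nonneg p) _
  calc ∑ z₁ ∈ E₁, ∑ z₂ ∈ E₂, √(μ (z₁.1, z₂.1) * ν (z₁.2, z₂.2)) *
      ((∏ p ∈ S, cosh (e p * log p - f p z₁.1 z₁.2)) *
      ∏ p ∈ T, cosh (e p * log p - g z₁.1 z₁.2 p z₂.1 z₂.2))
      = ∑ z₁ ∈ E₁, (∏ p ∈ S, cosh (e p * log p - f p z₁.1 z₁.2)) *
        ∑ z₂ ∈ E₂, √(μ (z₁.1, z₂.1) * ν (z₁.2, z₂.2)) *
          ∏ p ∈ T, cosh (e p * log p - g z₁.1 z₁.2 p z₂.1 z₂.2) := by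
        refine sum_congr rfl fun z₁ _ => ?_
        rw [mul_sum]
        exact sum_congr rfl fun z₂ _ => by ring
    _ ≤ ∑ z₁ ∈ E₁, (∏ p ∈ S, cosh (e p * log p - f p z₁.1 z₁.2)) *
        ((∏ p ∈ T, (p : ℝ) ^ (e p).natAbs) *
          √((∑ y, μ (z₁.1, y)) * ∑ y, ν (z₁.2, y))) :=
        sum_le_sum fun z₁ _ => mul_le_mul_of_nonneg_left (hg z₁.1 z₁.2 E₂ e hR)
          (prod_nonneg fun p _ => (cosh_pos _).le)
    _ = (∏ p ∈ T, (p : ℝ) ^ (e p).natAbs) *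
        ∑ z₁ ∈ E₁, √((∑ y, μ (z₁.1, y)) * ∑ y, ν (z₁.2, y)) *
          ∏ p ∈ S, cosh (e p * log p - f p z₁.1 z₁.2) := by
        rw [mul_sum]
        exact sum_congr rfl fun z₁ _ => by ring
    _ ≤ (∏ p ∈ T, (p : ℝ) ^ (e p).natAbs) * ((∏ p ∈ S, (p : ℝ) ^ (e p).natAbs) *
        √((∑ x, ∑ y, μ (x, y)) * ∑ x, ∑ y, ν (x, y))) :=
        mul_le_mul_of_nonneg_left (hf E₁ e hQ) hN
    _ = _ := by
        rw [prod_union hST, Fintype.sum_prod_type, Fintype.sum_prod_type]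
        ring

/-- One half of the pair component. -/
theorem pair_aux [Fintype A] [Fintype B] [DecidableEq A] [DecidableEq B]
    (μ ν : A × B → ℝ) (hμ : ∀ x, 0 ≤ μ x) (hν : ∀ x, 0 ≤ ν x)
    (EA : Finset (A × A)) (EB : Finset (B × B)) (dA dB : ℝ) (hdA : 0 ≤ dA)
    (hA : ∀ c : A, ((EA.filter (fun z => z.2 = c)).card : ℝ) ≤ dA)
    (hB : ∀ b : B, ((EB.filter (fun z => z.1 = b)).card : ℝ) ≤ dB) :
    ∑ zA ∈ EA, ∑ zB ∈ EB, (∑ a, μ (a, zB.1)) * (ν (zA.2, zB.2) / ∑ a, ν (a, zB.2)) ≤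
      dA * dB * ∑ x, μ x := by
  have hμB : ∀ b, 0 ≤ ∑ a, μ (a, b) := fun b => sum_nonneg fun a _ => hμ _
  have hνB : ∀ b, 0 ≤ ∑ a, ν (a, b) := fun b => sum_nonneg fun a _ => hν _
  have h1 : ∀ g : A → ℝ, (∀ a, 0 ≤ g a) → ∑ zA ∈ EA, g zA.2 ≤ dA * ∑ a, g a := by
    intro g hg
    rw [← sum_fiberwise_of_maps_to (s := EA) (t := univ) (g := Prod.snd)
      (fun z _ => mem_univ _), mul_sum]
    refine sum_le_sum fun c _ => ?_
    rw [sum_congr rfl (g := fun _ => g c) (fun z hz => by rw [(mem_filter.1 hz).2]),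
      sum_const, nsmul_eq_mul]
    exact mul_le_mul_of_nonneg_right (hA c) (hg c)
  have h2 : ∀ g : B → ℝ, (∀ b, 0 ≤ g b) → ∑ zB ∈ EB, g zB.1 ≤ dB * ∑ b, g b := by
    intro g hg
    rw [← sum_fiberwise_of_maps_to (s := EB) (t := univ) (g := Prod.fst)
      (fun z _ => mem_univ _), mul_sum]
    refine sum_le_sum fun c _ => ?_
    rw [sum_congr rfl (g := fun _ => g c) (fun z hz => by rw [(mem_filter.1 hz).2]),
      sum_const, nsmul_eq_mul]
    exact mul_le_mul_of_nonneg_right (hB c) (hg c)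
  rw [sum_comm]
  calc ∑ zB ∈ EB, ∑ zA ∈ EA, (∑ a, μ (a, zB.1)) * (ν (zA.2, zB.2) / ∑ a, ν (a, zB.2))
      ≤ ∑ zB ∈ EB, dA * ∑ a', (∑ a, μ (a, zB.1)) * (ν (a', zB.2) / ∑ a, ν (a, zB.2)) :=
        sum_le_sum fun zB _ => h1 (fun a' => (∑ a, μ (a, zB.1)) *
          (ν (a', zB.2) / ∑ a, ν (a, zB.2)))
          (fun a' => mul_nonneg (hμB _) (div_nonneg (hν _) (hνB _)))
    _ ≤ ∑ zB ∈ EB, dA * ∑ a, μ (a, zB.1) := by
        refine sum_le_sum fun zB _ => mul_le_mul_of_nonneg_left ?_ hdA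
        rw [← mul_sum, ← sum_div]
        exact mul_le_of_le_one_right (hμB _) (div_self_le_one _)
    _ = dA * ∑ zB ∈ EB, ∑ a, μ (a, zB.1) := by rw [mul_sum]
    _ ≤ dA * (dB * ∑ b, ∑ a, μ (a, b)) :=
        mul_le_mul_of_nonneg_left (h2 (fun b => ∑ a, μ (a, b)) hμB) hdA
    _ = _ := by rw [Fintype.sum_prod_type_right, mul_assoc]

open Classical in
/-- The degree conditions of a pair component: `e ≥ 0` with `N = p ^ e`: every `c_A` has at most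
one `b_A`, every `b_A` at most `N` values `c_A`, every `b_B` at most one `c_B`, every `c_B` at most
`N` values `b_B`; for `e ≤ 0` the roles of `b` and `c` are exchanged. -/
def PairRel (A B : Type*) (p : ℕ) (EA : Finset (A × A)) (EB : Finset (B × B)) (e : ℤ) : Prop :=
  (0 ≤ e ∧ (∀ c : A, (EA.filter (fun z => z.2 = c)).card ≤ 1) ∧
    (∀ b : A, (EA.filter (fun z => z.1 = b)).card ≤ p ^ e.natAbs) ∧
    (∀ b : B, (EB.filter (fun z => z.1 = b)).card ≤ 1) ∧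
    (∀ c : B, (EB.filter (fun z => z.2 = c)).card ≤ p ^ e.natAbs)) ∨
  (e ≤ 0 ∧ (∀ b : A, (EA.filter (fun z => z.1 = b)).card ≤ 1) ∧
    (∀ c : A, (EA.filter (fun z => z.2 = c)).card ≤ p ^ e.natAbs) ∧
    (∀ c : B, (EB.filter (fun z => z.2 = c)).card ≤ 1) ∧
    (∀ b : B, (EB.filter (fun z => z.1 = b)).card ≤ p ^ e.natAbs))

open Classical in
/-- The pair component. -/
theorem hasWeights_pair [Fintype A] [Fintype B] (p : ℕ) (hp : 0 < p) :
    HasWeights (A × B) {p} (fun E e => ∃ EA EB, PairRel A B p EA EB (e p) ∧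
      ∀ z ∈ E, (z.1.1, z.2.1) ∈ EA ∧ (z.1.2, z.2.2) ∈ EB) := by
  intro μ ν hμ hν
  set M : ℝ := ∑ x, μ x with hM
  set M' : ℝ := ∑ x, ν x with hM'
  have hM0 : 0 ≤ M := sum_nonneg fun x _ => hμ x
  have hM'0 : 0 ≤ M' := sum_nonneg fun x _ => hν x
  have hμB : ∀ b, 0 ≤ ∑ a, μ (a, b) := fun b => sum_nonneg fun a _ => hμ _
  have hνB : ∀ b, 0 ≤ ∑ a, ν (a, b) := fun b => sum_nonneg fun a _ => hν _
  let D1 : A × B → A × B → ℝ := fun b c => (∑ a, μ (a, b.2)) * (ν c / ∑ a, ν (a, c.2))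
  let D3 : A × B → A × B → ℝ := fun b c => (∑ a, ν (a, c.2)) * (μ b / ∑ a, μ (a, b.2))
  refine ⟨fun _ b c => -(1 / 2) * log (D1 b c * M' / (D3 b c * M)), ?_⟩
  rintro E e ⟨EA, EB, hrel, hE⟩
  simp only [prod_singleton]
  by_cases hMz : M = 0
  · have h0 : ∀ x, μ x = 0 := fun x =>
      (sum_eq_zero_iff_of_nonneg fun x _ => hμ x).1 hMz x (mem_univ x)
    rw [hMz]
    simp [h0]
  by_cases hMz' : M' = 0
  · have h0 : ∀ x, ν x = 0 := fun x =>
      (sum_eq_zero_iff_of_nonneg fun x _ => hν x).1 hMz' x (mem_univ x)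
    rw [hMz']
    simp [h0]
  have hMp : 0 < M := lt_of_le_of_ne hM0 (Ne.symm hMz)
  have hMp' : 0 < M' := lt_of_le_of_ne hM'0 (Ne.symm hMz')
  have hpR : (0 : ℝ) < p := by exact_mod_cast hp
  set P : ℝ := (p : ℝ) ^ (e p) with hP
  have hPp : 0 < P := zpow_pos hpR _
  have hexp : exp ((e p : ℝ) * log p) = P := by
    rw [mul_comm, exp_mul, exp_log hpR, rpow_intCast]
  -- the value of one term
  have hterm : ∀ b c : A × B, √(μ b * ν c) *
      cosh ((e p : ℝ) * log p - -(1 / 2) * log (D1 b c * M' / (D3 b c * M))) ≤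
      (1 / 2) * (P * √(M' / M) * D1 b c + P⁻¹ * √(M / M') * D3 b c) := by
    intro b c
    by_cases hb : μ b = 0
    · rw [hb]
      simp only [zero_mul, sqrt_zero]
      have : 0 ≤ D1 b c := mul_nonneg (hμB _) (div_nonneg (hν _) (hνB _))
      have : 0 ≤ D3 b c := mul_nonneg (hνB _) (div_nonneg (hμ _) (hμB _))
      positivity
    by_cases hc : ν c = 0
    · rw [hc]
      simp only [mul_zero, sqrt_zero, zero_mul]
      have : 0 ≤ D1 b c := mul_nonneg (hμB _) (div_nonneg (hν _) (hνB _))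
      have : 0 ≤ D3 b c := mul_nonneg (hνB _) (div_nonneg (hμ _) (hμB _))
      positivity
    have hbp : 0 < μ b := lt_of_le_of_ne (hμ b) (Ne.symm hb)
    have hcp : 0 < ν c := lt_of_le_of_ne (hν c) (Ne.symm hc)
    have hbB : 0 < ∑ a, μ (a, b.2) := lt_of_lt_of_le hbp
      (single_le_sum (f := fun a => μ (a, b.2)) (fun a _ => hμ _) (mem_univ b.1))
    have hcB : 0 < ∑ a, ν (a, c.2) := lt_of_lt_of_le hcp
      (single_le_sum (f := fun a => ν (a, c.2)) (fun a _ => hν _) (mem_univ c.1))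
    have hD1 : 0 < D1 b c := mul_pos hbB (div_pos hcp hcB)
    have hD3 : 0 < D3 b c := mul_pos hcB (div_pos hbp hbB)
    have hDD : μ b * ν c = D1 b c * D3 b c := by
      simp only [D1, D3]
      field_simp
    set x : ℝ := D1 b c * M' / (D3 b c * M) with hx
    have hxp : 0 < x := by positivity
    have hsx : exp (1 / 2 * log x) = √x := by
      rw [mul_comm, exp_mul, exp_log hxp, sqrt_eq_rpow]
    have e1 : exp ((e p : ℝ) * log p - -(1 / 2) * log x) = P * √x := by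
      rw [show (e p : ℝ) * log p - -(1 / 2) * log x = (e p : ℝ) * log p + 1 / 2 * log x by ring,
        exp_add, hexp, hsx]
    have e2 : exp (-((e p : ℝ) * log p - -(1 / 2) * log x)) = P⁻¹ * (√x)⁻¹ := by
      rw [exp_neg, e1, mul_inv]
    rw [cosh_eq, e1, e2, hDD]
    have s1 : √(D1 b c * D3 b c) * √x = √(M' / M) * D1 b c := by
      rw [← sqrt_mul (by positivity), hx,
        show D1 b c * D3 b c * (D1 b c * M' / (D3 b c * M)) = (M' / M) * (D1 b c) ^ 2 by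
          field_simp,
        sqrt_mul (by positivity), sqrt_sq hD1.le]
    have s2 : √(D1 b c * D3 b c) * (√x)⁻¹ = √(M / M') * D3 b c := by
      rw [← sqrt_inv, ← sqrt_mul (by positivity), hx,
        show D1 b c * D3 b c * (D1 b c * M' / (D3 b c * M))⁻¹ = (M / M') * (D3 b c) ^ 2 by
          field_simp,
        sqrt_mul (by positivity), sqrt_sq hD3.le]
    refine le_of_eq ?_
    calc √(D1 b c * D3 b c) * ((P * √x + P⁻¹ * (√x)⁻¹) / 2)
        = (1 / 2) * (P * (√(D1 b c * D3 b c) * √x) + P⁻¹ * (√(D1 b c * D3 b c) * (√x)⁻¹)) := by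
          ring
      _ = _ := by rw [s1, s2]; ring
  have hnn1 : ∀ b c, 0 ≤ D1 b c := fun b c => mul_nonneg (hμB _) (div_nonneg (hν _) (hνB _))
  have hnn3 : ∀ b c, 0 ≤ D3 b c := fun b c => mul_nonneg (hνB _) (div_nonneg (hμ _) (hμB _))
  -- sums of `D1` and `D3` over the relation
  have hsum : ∀ D : A × B → A × B → ℝ, (∀ b c, 0 ≤ D b c) →
      ∑ z ∈ E, D z.1 z.2 ≤ ∑ zA ∈ EA, ∑ zB ∈ EB, D (zA.1, zB.1) (zA.2, zB.2) := by
    intro D hD
    rw [← sum_product']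
    let emb : (A × B) × (A × B) ↪ (A × A) × (B × B) :=
      ⟨fun z => ((z.1.1, z.2.1), (z.1.2, z.2.2)), fun z z' h => by
        simp only [Prod.mk.injEq] at h
        exact Prod.ext (Prod.ext h.1.1 h.2.1) (Prod.ext h.1.2 h.2.2)⟩
    rw [show (∑ z ∈ E, D z.1 z.2) =
      ∑ w ∈ E.map emb, D (w.1.1, w.2.1) (w.1.2, w.2.2) from by rw [sum_map]; rfl]
    refine sum_le_sum_of_subset_of_nonneg ?_ fun z _ _ => hD _ _
    intro w hw
    obtain ⟨z, hz, rfl⟩ := mem_map.1 hw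
    exact mem_product.2 (hE z hz)
  have hS1 : ∀ dA dB : ℝ, 0 ≤ dA →
      (∀ c : A, ((EA.filter (fun z => z.2 = c)).card : ℝ) ≤ dA) →
      (∀ b : B, ((EB.filter (fun z => z.1 = b)).card : ℝ) ≤ dB) →
      ∑ z ∈ E, D1 z.1 z.2 ≤ dA * dB * M := fun dA dB h0 h1 h2 =>
    (hsum D1 hnn1).trans (pair_aux μ ν hμ hν EA EB dA dB h0 h1 h2)
  have hS3 : ∀ dA dB : ℝ, 0 ≤ dA →
      (∀ b : A, ((EA.filter (fun z => z.1 = b)).card : ℝ) ≤ dA) →
      (∀ c : B, ((EB.filter (fun z => z.2 = c)).card : ℝ) ≤ dB) →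
      ∑ z ∈ E, D3 z.1 z.2 ≤ dA * dB * M' := by
    intro dA dB h0 h1 h2
    refine (hsum D3 hnn3).trans ?_
    have := pair_aux ν μ hν hμ (EA.map (Equiv.prodComm A A).toEmbedding)
      (EB.map (Equiv.prodComm B B).toEmbedding) dA dB h0 ?_ ?_
    · rw [sum_map] at this
      simp only [sum_map] at this
      exact this
    · intro c
      rw [filter_map, card_map]
      exact h1 c
    · intro c
      rw [filter_map, card_map]
      exact h2 c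
  calc ∑ z ∈ E, √(μ z.1 * ν z.2) *
      cosh ((e p : ℝ) * log p - -(1 / 2) * log (D1 z.1 z.2 * M' / (D3 z.1 z.2 * M)))
      ≤ ∑ z ∈ E, (1 / 2) * (P * √(M' / M) * D1 z.1 z.2 + P⁻¹ * √(M / M') * D3 z.1 z.2) :=
        sum_le_sum fun z _ => hterm z.1 z.2
    _ = (1 / 2) * (P * √(M' / M) * ∑ z ∈ E, D1 z.1 z.2 +
          P⁻¹ * √(M / M') * ∑ z ∈ E, D3 z.1 z.2) := by
        rw [← mul_sum, sum_add_distrib, mul_sum, mul_sum]
    _ ≤ (p : ℝ) ^ (e p).natAbs * √(M * M') := ?_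
  have r1 : √(M' / M) * M = √(M * M') := by
    rw [← sqrt_sq hM0, ← sqrt_mul (by positivity), sqrt_sq hM0]
    congr 1
    field_simp
  have r2 : √(M / M') * M' = √(M * M') := by
    rw [← sqrt_sq hM'0, ← sqrt_mul (by positivity), sqrt_sq hM'0]
    congr 1
    field_simp
  rcases hrel with ⟨he, a1, a2, a3, a4⟩ | ⟨he, a1, a2, a3, a4⟩
  · have hz : (e p : ℤ) = ((e p).natAbs : ℤ) := (Int.natAbs_of_nonneg he).symm
    set n := (e p).natAbs with hn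
    have hPn : P = (p : ℝ) ^ n := by rw [hP, hz, zpow_natCast]
    have b1 := hS1 1 1 zero_le_one (fun c => by exact_mod_cast a1 c)
      (fun b => by exact_mod_cast a3 b)
    have b3 := hS3 ((p : ℝ) ^ n) ((p : ℝ) ^ n) (by positivity)
      (fun c => by exact_mod_cast a2 c) (fun b => by exact_mod_cast a4 b)
    rw [hPn]
    have hpn : (0 : ℝ) < (p : ℝ) ^ n := by positivity
    calc (1 / 2) * ((p : ℝ) ^ n * √(M' / M) * ∑ z ∈ E, D1 z.1 z.2 +
          ((p : ℝ) ^ n)⁻¹ * √(M / M') * ∑ z ∈ E, D3 z.1 z.2)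
        ≤ (1 / 2) * ((p : ℝ) ^ n * √(M' / M) * (1 * 1 * M) +
          ((p : ℝ) ^ n)⁻¹ * √(M / M') * ((p : ℝ) ^ n * (p : ℝ) ^ n * M')) := by gcongr
      _ = (1 / 2) * ((p : ℝ) ^ n * (√(M' / M) * M) + (p : ℝ) ^ n * (√(M / M') * M')) := by
          field_simp
      _ = _ := by rw [r1, r2]; ring
  · have hz : (e p : ℤ) = -((e p).natAbs : ℤ) := by
      rw [Int.ofNat_natAbs_of_nonpos he, neg_neg]
    set n := (e p).natAbs with hn
    have hPn : P = ((p : ℝ) ^ n)⁻¹ := by rw [hP, hz, zpow_neg, zpow_natCast]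
    have b1 := hS1 ((p : ℝ) ^ n) ((p : ℝ) ^ n) (by positivity)
      (fun c => by exact_mod_cast a2 c) (fun b => by exact_mod_cast a4 b)
    have b3 := hS3 1 1 zero_le_one (fun c => by exact_mod_cast a1 c)
      (fun b => by exact_mod_cast a3 b)
    rw [hPn, inv_inv]
    have hpn : (0 : ℝ) < (p : ℝ) ^ n := by positivity
    calc (1 / 2) * (((p : ℝ) ^ n)⁻¹ * √(M' / M) * ∑ z ∈ E, D1 z.1 z.2 +
          (p : ℝ) ^ n * √(M / M') * ∑ z ∈ E, D3 z.1 z.2)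
        ≤ (1 / 2) * (((p : ℝ) ^ n)⁻¹ * √(M' / M) * ((p : ℝ) ^ n * (p : ℝ) ^ n * M) +
          (p : ℝ) ^ n * √(M / M') * (1 * 1 * M')) := by gcongr
      _ = (1 / 2) * ((p : ℝ) ^ n * (√(M' / M) * M) + (p : ℝ) ^ n * (√(M / M') * M')) := by
          field_simp
      _ = _ := by rw [r1, r2]; ring

end Pool.Agent.Work.MP_dc37f8_rat
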