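import Pool.Agent.Work.MP_dc37f8_rat.KeyGlue

/-!
# MP_dc37f8_co: the key inequality for cosets in `ℂ` of a lattice of an imaginary quadratic field
-/

open Finset Real

namespace Pool.Agent.Work.MP_dc37f8_rat

open Classical in
/-- Expanding the cube. -/
theorem sum_cube {W κ : Type*} [Fintype W] (r : W → κ) (g : W → ℝ) :
    ∑ v ∈ univ.image r, (∑ w ∈ univ.filter (fun w => r w = v), g w) ^ 3 =
      ∑ w₁, ∑ w₂, ∑ w₃, if r w₂ = r w₁ ∧ r w₃ = r w₁ then g w₁ * g w₂ * g w₃ else 0 := by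
  have h1 : ∀ w₁, ∑ w₂, ∑ w₃, (if r w₂ = r w₁ ∧ r w₃ = r w₁ then g w₁ * g w₂ * g w₃ else 0) =
      g w₁ * (∑ w ∈ univ.filter (fun w => r w = r w₁), g w) ^ 2 := by
    intro w₁
    rw [sq, sum_mul_sum, mul_sum, sum_filter]
    refine sum_congr rfl fun w₂ _ => ?_
    by_cases h : r w₂ = r w₁
    · simp only [h, true_and, if_true]
      rw [← mul_sum, sum_filter, mul_sum, mul_sum]
      refine sum_congr rfl fun w₃ _ => ?_
      split_ifs <;> ring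
    · simp [h]
  simp only [h1]
  rw [← sum_fiberwise_of_maps_to (s := univ) (t := univ.image r) (g := r)
    (fun w _ => mem_image_of_mem r (mem_univ w))]
  refine sum_congr rfl fun v _ => ?_
  rw [pow_succ', sum_mul]
  refine sum_congr rfl fun w hw => ?_
  rw [(mem_filter.1 hw).2]

variable {X : Type*}

/-- A functional to `F` which is the identity on `F` and maps finitely many elements outside `O`
to elements outside `O`. -/
theorem exists_functional (F : Subfield ℂ) (O : AddSubgroup F)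
    (hO : ∀ x ∈ O, x ≠ 0 → 1 ≤ ‖(x : ℂ)‖) [Finite X] (v : X → ℂ)
    (hv : ∀ x, ∀ a ∈ O, v x ≠ (a : ℂ)) :
    ∃ L : ℂ →ₗ[F] F, (∀ a : F, L (a : ℂ) = a) ∧ ∀ x, L (v x) ∉ O := by
  classical
  let W : Submodule F ℂ := Submodule.span F {1}
  have hW : ∀ x : ℂ, x ∈ W ↔ ∃ a : F, (a : ℂ) = x := by
    intro x
    rw [Submodule.mem_span_singleton]
    refine exists_congr fun a => ?_
    rw [show (a • (1 : ℂ)) = (a : ℂ) * 1 from rfl, mul_one]
  obtain ⟨pj, hpj⟩ := Module.exists_dual_forall_apply_eq_one (K := F) (V := ℂ) (s := {(1 : ℂ)})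
    (v := id) (by
      rw [linearIndepOn_singleton_iff]
      exact one_ne_zero)
  have hpj1 : ∀ a : F, pj (a : ℂ) = a := by
    intro a
    have : (a : ℂ) = a • (1 : ℂ) := by
      rw [show (a • (1 : ℂ)) = (a : ℂ) * 1 from rfl, mul_one]
    rw [this, map_smul, show pj (1 : ℂ) = 1 from hpj 1 rfl, smul_eq_mul, mul_one]
  let ι := {x : X // v x ∉ W}
  obtain ⟨f, hf⟩ := Module.exists_dual_forall_apply_ne_zero (K := F)
    (fun i : ι => (Submodule.Quotient.mk (p := W) (v i.1)))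
    (fun i => by
      rw [Ne, Submodule.Quotient.mk_eq_zero]
      exact i.2)
  let g : ℂ →ₗ[F] F := f.comp W.mkQ
  have hg : ∀ a : F, g (a : ℂ) = 0 := by
    intro a
    have : W.mkQ (a : ℂ) = 0 := (Submodule.Quotient.mk_eq_zero W).2 ((hW _).2 ⟨a, rfl⟩)
    show f (W.mkQ (a : ℂ)) = 0
    rw [this, map_zero]
  -- a bound for the norms
  have hfin : Fintype ι := Fintype.ofFinite ι
  set B : ℝ := ∑ i : ι, ‖(g (v i.1) : ℂ)‖ with hB
  have hBi : ∀ i : ι, ‖(g (v i.1) : ℂ)‖ ≤ B := fun i =>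
    single_le_sum (f := fun i : ι => ‖(g (v i.1) : ℂ)‖) (fun i _ => norm_nonneg _) (mem_univ i)
  obtain ⟨Q0, hQ0⟩ := exists_nat_gt B
  -- the bad numbers
  have hex : ∃ q : ℕ, Q0 < q ∧ ∀ i : ι, pj (v i.1) + (1 / (q : F)) * g (v i.1) ∉ O := by
    by_contra hcon
    push Not at hcon
    have h1 : ∀ q : ℕ, ∃ i : ι,
        pj (v i.1) + (1 / ((Q0 + 1 + q : ℕ) : F)) * g (v i.1) ∈ O := fun q =>
      hcon _ (by omega)
    choose i hi using h1
    obtain ⟨q, q', hne, hqq⟩ := Finite.exists_ne_map_eq_of_infinite i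
    have h2 := O.sub_mem (hi q) (hi q')
    rw [hqq] at h2
    set a : F := g (v (i q').1) with ha
    have ha0 : a ≠ 0 := hf (i q')
    have hab : ‖(a : ℂ)‖ ≤ B := hBi (i q')
    have e1 : pj (v (i q').1) + (1 / ((Q0 + 1 + q : ℕ) : F)) * a -
        (pj (v (i q').1) + (1 / ((Q0 + 1 + q' : ℕ) : F)) * a) =
        (1 / ((Q0 + 1 + q : ℕ) : F) - 1 / ((Q0 + 1 + q' : ℕ) : F)) * a := by ring
    rw [e1] at h2
    have hq0 : ((Q0 + 1 + q : ℕ) : F) ≠ 0 := by exact_mod_cast (by omega : Q0 + 1 + q ≠ 0)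
    have hq0' : ((Q0 + 1 + q' : ℕ) : F) ≠ 0 := by exact_mod_cast (by omega : Q0 + 1 + q' ≠ 0)
    have hne0 : (1 / ((Q0 + 1 + q : ℕ) : F) - 1 / ((Q0 + 1 + q' : ℕ) : F)) * a ≠ 0 := by
      refine mul_ne_zero ?_ ha0
      rw [sub_ne_zero]
      intro h
      rw [div_eq_div_iff hq0 hq0', one_mul, one_mul] at h
      have : (Q0 + 1 + q' : ℕ) = Q0 + 1 + q := by exact_mod_cast h
      omega
    have h3 := hO _ h2 hne0
    have h4 : ‖(((1 / ((Q0 + 1 + q : ℕ) : F) - 1 / ((Q0 + 1 + q' : ℕ) : F)) * a : F) : ℂ)‖ < 1 := by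
      push_cast
      rw [norm_mul]
      have hr : (1 / ((Q0 : ℂ) + 1 + q) - 1 / ((Q0 : ℂ) + 1 + q')) =
          (((1 / ((Q0 : ℝ) + 1 + q) - 1 / ((Q0 : ℝ) + 1 + q')) : ℝ) : ℂ) := by push_cast; ring
      rw [hr, Complex.norm_real, norm_eq_abs]
      have hQB : B < (Q0 : ℝ) + 1 := by linarith
      have p1 : (0 : ℝ) < 1 / ((Q0 : ℝ) + 1 + q) := by positivity
      have p2 : (0 : ℝ) < 1 / ((Q0 : ℝ) + 1 + q') := by positivity
      have q1 : 1 / ((Q0 : ℝ) + 1 + q) ≤ 1 / ((Q0 : ℝ) + 1) :=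
        one_div_le_one_div_of_le (by positivity) (by linarith [(Nat.cast_nonneg q : (0:ℝ) ≤ q)])
      have q2 : 1 / ((Q0 : ℝ) + 1 + q') ≤ 1 / ((Q0 : ℝ) + 1) :=
        one_div_le_one_div_of_le (by positivity) (by linarith [(Nat.cast_nonneg q' : (0:ℝ) ≤ q')])
      have hab2 : |1 / ((Q0 : ℝ) + 1 + q) - 1 / ((Q0 : ℝ) + 1 + q')| ≤ 1 / ((Q0 : ℝ) + 1) := by
        rw [abs_le]
        constructor <;> linarith
      have hB0 : 0 ≤ B := (norm_nonneg _).trans hab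
      calc |1 / ((Q0 : ℝ) + 1 + q) - 1 / ((Q0 : ℝ) + 1 + q')| * ‖(a : ℂ)‖
          ≤ (1 / ((Q0 : ℝ) + 1)) * B := mul_le_mul hab2 hab (norm_nonneg _) (by positivity)
        _ < 1 := by
          rw [one_div, inv_mul_lt_iff₀ (by positivity), mul_one]
          exact hQB
    exact absurd h3 (not_le.2 h4)
  obtain ⟨q, -, hq⟩ := hex
  refine ⟨pj + (1 / (q : F)) • g, fun a => ?_, fun x => ?_⟩
  · rw [LinearMap.add_apply, LinearMap.smul_apply, hg, smul_zero, add_zero]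
    exact hpj1 a
  · by_cases hx : v x ∈ W
    · obtain ⟨a, ha⟩ := (hW _).1 hx
      rw [← ha, LinearMap.add_apply, LinearMap.smul_apply, hg, smul_zero, add_zero]
      intro h
      rw [show pj (a : ℂ) = a from hpj1 a] at h
      exact hv x a h ha.symm
    · exact hq ⟨x, hx⟩

open Classical in
/-- **Key inequality for cosets in `ℂ`.** -/
theorem key_complex [Fintype X] {F : Subfield ℂ} {S : Finset ℕ} {M : Finset F} {e : F → ℕ → ℤ}
    {U V : ℕ → ℤ → AddSubgroup F} {Λ' : AddSubgroup F} (hD : BallData S M e U V Λ')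
    (O : AddSubgroup F) (hO : ∀ x ∈ O, x ≠ 0 → 1 ≤ ‖(x : ℂ)‖)
    (hΛ : ∀ x, x ∈ O ↔ x ∈ Λ' ∧ ∀ p ∈ S, x ∈ U p 0 ∧ x ∈ V p 0)
    (C : ℝ) (hC : ∀ f : ℕ → ℝ,
      ∑ ρ ∈ M, ∏ p ∈ S, ((cosh (e ρ p * log p - f p)) ^ 2)⁻¹ ≤ C)
    (t : ℂ) (ht : t ≠ 0) (z : X → ℂ) (hz : ∀ x y, ∀ a ∈ O, z x - z y = t * (a : ℂ) → x = y)
    (s : X → ℝ) (hs : ∀ x, 0 ≤ s x) :
    ∑ ρ ∈ M, ((∏ p ∈ S, (p : ℝ) ^ (e ρ p).natAbs) ^ 2)⁻¹ *
        ∑ w₁ : X × X, ∑ w₂ : X × X, ∑ w₃ : X × X,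
          (if (∃ a ∈ O, ∃ b ∈ O, (z w₂.2 - ρ * z w₂.1) - (z w₁.2 - ρ * z w₁.1) =
              t * ((a : ℂ) + ρ * b)) ∧
            (∃ a ∈ O, ∃ b ∈ O, (z w₃.2 - ρ * z w₃.1) - (z w₁.2 - ρ * z w₁.1) =
              t * ((a : ℂ) + ρ * b)) then
            (s w₁.1 ^ 4 * s w₁.2 ^ 4) * (s w₂.1 ^ 4 * s w₂.2 ^ 4) * (s w₃.1 ^ 4 * s w₃.2 ^ 4)
          else 0) ≤
      C * (∑ x, s x ^ 6) ^ 4 := by
  obtain ⟨L, hL1, hL2⟩ := exists_functional F O hO
    (fun q : {q : X × X // q.1 ≠ q.2} => (z q.1.1 - z q.1.2) / t) (fun q a ha h => by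
      refine q.2 (hz _ _ a ha ?_)
      rw [div_eq_iff ht] at h
      rw [h, mul_comm])
  let z' : X → F := fun x => L (z x / t)
  have hz' : ∀ x y, z' x - z' y ∈ O → x = y := by
    intro x y h
    by_contra hne
    refine hL2 ⟨(x, y), hne⟩ ?_
    simp only [sub_div, map_sub]
    exact h
  have key := key_glue hD (fun _ => 0) (fun _ => 0) O hΛ z' hz' C hC s hs
  refine le_trans ?_ key
  refine sum_le_sum fun ρ hρ => mul_le_mul_of_nonneg_left ?_ (by positivity)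
  have hcube := sum_cube (relOf O z' ρ) (fun w => s w.1 ^ 4 * s w.2 ^ 4)
  refine le_trans ?_ (le_of_eq (hcube.symm.trans (by
    refine Finset.sum_congr (by ext v; simp only [mem_image]) fun v _ => ?_
    exact congrArg (fun x : ℝ => x ^ 3)
      (Finset.sum_congr (by ext w; simp only [mem_filter]) fun _ _ => rfl))))
  refine sum_le_sum fun w₁ _ => sum_le_sum fun w₂ _ => sum_le_sum fun w₃ _ => ?_
  have hrel : ∀ w w' : X × X, (∃ a ∈ O, ∃ b ∈ O, (z w.2 - ρ * z w.1) - (z w'.2 - ρ * z w'.1) =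
      t * ((a : ℂ) + ρ * b)) → relOf O z' ρ w = relOf O z' ρ w' := by
    rintro w w' ⟨a, ha, b, hb, hab⟩
    refine QuotientAddGroup.eq_iff_sub_mem.2 ?_
    have e1 : z' w.2 - ρ * z' w.1 - (z' w'.2 - ρ * z' w'.1) = a + ρ * b := by
      have e2 : (z w.2 / t) - ρ • (z w.1 / t) - ((z w'.2 / t) - ρ • (z w'.1 / t)) =
          ((a + ρ * b : F) : ℂ) := by
        rw [show ρ • (z w.1 / t) = (ρ : ℂ) * (z w.1 / t) from rfl,
          show ρ • (z w'.1 / t) = (ρ : ℂ) * (z w'.1 / t) from rfl]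
        push_cast
        field_simp
        linear_combination hab
      have e3 := congrArg L e2
      rw [hL1] at e3
      rw [← e3]
      simp only [map_sub, map_smul, smul_eq_mul, z']
    rw [e1]
    exact (O ⊔ O.map (AddMonoidHom.mulLeft ρ)).add_mem (AddSubgroup.mem_sup_left ha)
      (AddSubgroup.mem_sup_right ⟨b, hb, rfl⟩)
  have hnn : 0 ≤ (s w₁.1 ^ 4 * s w₁.2 ^ 4) * (s w₂.1 ^ 4 * s w₂.2 ^ 4) *
      (s w₃.1 ^ 4 * s w₃.2 ^ 4) := by
    have := hs w₁.1; have := hs w₁.2; have := hs w₂.1; have := hs w₂.2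
    have := hs w₃.1; have := hs w₃.2
    positivity
  by_cases h : (∃ a ∈ O, ∃ b ∈ O, (z w₂.2 - ρ * z w₂.1) - (z w₁.2 - ρ * z w₁.1) =
              t * ((a : ℂ) + ρ * b)) ∧
            (∃ a ∈ O, ∃ b ∈ O, (z w₃.2 - ρ * z w₃.1) - (z w₁.2 - ρ * z w₁.1) =
              t * ((a : ℂ) + ρ * b))
  · rw [if_pos h, if_pos ⟨hrel _ _ h.1, hrel _ _ h.2⟩]
  · rw [if_neg h]
    split_ifs
    · exact hnn
    · exact le_rfl

end Pool.Agent.Work.MP_dc37f8_rat
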