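import Pool.Agent.Work.MP_dc37f8_rat.KeyGlue

/-!
# MP_dc37f8_co: the overlap count `#{x ∈ Λ / m Λ : ρ x ∈ Λ} ≤ m² / N(ρ)`
-/

open Finset

namespace Pool.Agent.Work.MP_dc37f8_rat

open Classical in
/-- Counting classes modulo an intersection of subgroups. -/
theorem card_le_prod_of_sep {F ι : Type*} [Field F] (G : ι → AddSubgroup F) (n : ι → ℕ)
    (I : Finset ι) :
    ∀ T : Finset F, (∀ i ∈ I, ∀ T' ⊆ T, (∀ x ∈ T', ∀ y ∈ T', x - y ∈ G i → x = y) →
      T'.card ≤ n i) → (∀ x ∈ T, ∀ y ∈ T, (∀ i ∈ I, x - y ∈ G i) → x = y) →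
      T.card ≤ ∏ i ∈ I, n i := by
  induction I using Finset.induction_on with
  | empty =>
    intro T _ h
    rw [prod_empty, card_le_one]
    intro x hx y hy
    exact h x hx y hy (by simp)
  | insert i I hi ih =>
    intro T h1 h2
    obtain ⟨r, hr, -⟩ := exists_rep (F := F) (X := F) id (G i)
    have hfib : ∀ c ∈ T.image r, (T.filter (fun x => r x = c)).card ≤ ∏ j ∈ I, n j := by
      intro c _
      refine ih _ (fun j hj T' hT' => h1 j (mem_insert_of_mem hj) T'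
        (hT'.trans (filter_subset _ _))) ?_
      intro x hx y hy hxy
      obtain ⟨hx1, hx2⟩ := mem_filter.1 hx
      obtain ⟨hy1, hy2⟩ := mem_filter.1 hy
      refine h2 x hx1 y hy1 fun j hj => ?_
      rcases mem_insert.1 hj with rfl | hj
      · exact (hr x y).1 (hx2.trans hy2.symm)
      · exact hxy j hj
    have hcard := card_le_mul_card_image T _ hfib
    have hex : ∀ c ∈ T.image r, ∃ x ∈ T, r x = c := fun c hc => by
      obtain ⟨x, hx, h⟩ := mem_image.1 hc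
      exact ⟨x, hx, h⟩
    choose! g hg1 hg2 using hex
    have himg : (T.image r).card ≤ n i := by
      have e1 : (T.image r).card = ((T.image r).image g).card := by
        refine (card_image_of_injOn ?_).symm
        intro c hc c' hc' h
        rw [← hg2 c hc, ← hg2 c' hc', h]
      rw [e1]
      refine h1 i (mem_insert_self i I) _ ?_ ?_
      · intro x hx
        obtain ⟨c, hc, rfl⟩ := mem_image.1 hx
        exact hg1 c hc
      · intro x hx y hy hxy
        obtain ⟨c, hc, rfl⟩ := mem_image.1 hx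
        obtain ⟨c', hc', rfl⟩ := mem_image.1 hy
        have := (hr _ _).2 hxy
        rw [hg2 c hc, hg2 c' hc'] at this
        rw [this]
    rw [prod_insert hi]
    calc T.card ≤ (∏ j ∈ I, n j) * (T.image r).card := hcard
      _ ≤ (∏ j ∈ I, n j) * n i := Nat.mul_le_mul_left _ himg
      _ = _ := mul_comm _ _

variable {F : Type*} [Field F]

/-- **The overlap count.** `Λ₁ = Λ`, `Λ₂ = m Λ`, `m = ∏ p ^ a p`. -/
theorem overlap_count {S : Finset ℕ} {M : Finset F} {e : F → ℕ → ℤ}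
    {U V : ℕ → ℤ → AddSubgroup F} {Λ' : AddSubgroup F} (hD : BallData S M e U V Λ')
    (k l : ℕ → ℤ) (a : ℕ → ℕ) (Λ₁ Λ₂ : AddSubgroup F)
    (hΛ₁ : ∀ x, x ∈ Λ₁ ↔ x ∈ Λ' ∧ ∀ p ∈ S, x ∈ U p (k p) ∧ x ∈ V p (l p))
    (hΛ₂ : ∀ x, x ∈ Λ₂ ↔ x ∈ Λ' ∧ ∀ p ∈ S, x ∈ U p (k p + a p) ∧ x ∈ V p (l p + a p))
    (ρ : F) (hρ : ρ ∈ M) (ha : ∀ p ∈ S, (e ρ p).natAbs ≤ a p)
    (T : Finset F) (hT : ∀ x ∈ T, x ∈ Λ₁ ∧ ρ * x ∈ Λ₁)
    (hsep : ∀ x ∈ T, ∀ y ∈ T, x - y ∈ Λ₂ → x = y) :
    T.card * ∏ p ∈ S, p ^ (e ρ p).natAbs ≤ (∏ p ∈ S, p ^ a p) ^ 2 := by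
  classical
  let G : ℕ × Bool → AddSubgroup F := fun i =>
    if i.2 then U i.1 (k i.1 + a i.1) else V i.1 (l i.1 + a i.1)
  let n : ℕ × Bool → ℕ := fun i =>
    if i.2 then (if 0 ≤ e ρ i.1 then i.1 ^ (a i.1 - (e ρ i.1).natAbs) else i.1 ^ a i.1)
    else (if 0 ≤ e ρ i.1 then i.1 ^ a i.1 else i.1 ^ (a i.1 - (e ρ i.1).natAbs))
  have h1 := card_le_prod_of_sep G n (S ×ˢ univ) T ?_ ?_
  · have h2 : (∏ i ∈ S ×ˢ (univ : Finset Bool), n i) * ∏ p ∈ S, p ^ (e ρ p).natAbs =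
        (∏ p ∈ S, p ^ a p) ^ 2 := by
      rw [prod_product, ← prod_pow, ← prod_mul_distrib]
      refine prod_congr rfl fun p hp => ?_
      have h3 := ha p hp
      simp only [Fintype.prod_bool, n, if_true, Bool.false_eq_true, if_false]
      have h4 : p ^ (a p - (e ρ p).natAbs) * p ^ (e ρ p).natAbs = p ^ a p := by
        rw [← pow_add, Nat.sub_add_cancel h3]
      split_ifs
      · rw [mul_right_comm, h4, sq]
      · rw [mul_assoc, h4, sq]
    calc T.card * ∏ p ∈ S, p ^ (e ρ p).natAbs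
        ≤ (∏ i ∈ S ×ˢ (univ : Finset Bool), n i) * ∏ p ∈ S, p ^ (e ρ p).natAbs :=
          Nat.mul_le_mul_right _ h1
      _ = _ := h2
  · rintro ⟨p, b⟩ hi T' hT' hs'
    have hp : p ∈ S := (mem_product.1 hi).1
    have hap := ha p hp
    have hU : ∀ x ∈ T', x ∈ U p (k p) ∧ x ∈ V p (l p) := fun x hx =>
      ((hΛ₁ x).1 (hT x (hT' hx)).1).2 p hp
    have hU' : ∀ x ∈ T', ρ * x ∈ U p (k p) ∧ ρ * x ∈ V p (l p) := fun x hx =>
      ((hΛ₁ _).1 (hT x (hT' hx)).2).2 p hp
    cases b with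
    | true =>
      simp only [G, n, if_true] at hs' ⊢
      split_ifs with he
      · have hn : ((e ρ p).natAbs : ℤ) = e ρ p := Int.natAbs_of_nonneg he
        refine hD.idxU p hp (k p + e ρ p) _ T' (fun x hx => ?_) ?_
        · have := (hD.rotU ρ hρ p hp (k p + e ρ p) x).1
          rw [add_sub_cancel_right] at this
          exact this (hU' x hx).1
        · rw [show k p + e ρ p + ((a p - (e ρ p).natAbs : ℕ) : ℤ) = k p + a p by omega]
          exact hs'
      · exact hD.idxU p hp (k p) _ T' (fun x hx => (hU x hx).1) hs'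
    | false =>
      simp only [G, n, Bool.false_eq_true, if_false] at hs' ⊢
      split_ifs with he
      · exact hD.idxV p hp (l p) _ T' (fun x hx => (hU x hx).2) hs'
      · push Not at he
        have hn : ((e ρ p).natAbs : ℤ) = - e ρ p := Int.ofNat_natAbs_of_nonpos he.le
        refine hD.idxV p hp (l p - e ρ p) _ T' (fun x hx => ?_) ?_
        · have := (hD.rotV ρ hρ p hp (l p - e ρ p) x).1
          rw [sub_add_cancel] at this
          exact this (hU' x hx).2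
        · rw [show l p - e ρ p + ((a p - (e ρ p).natAbs : ℕ) : ℤ) = l p + a p by omega]
          exact hs'
  · intro x hx y hy hxy
    refine hsep x hx y hy ((hΛ₂ _).2 ⟨Λ'.sub_mem ((hΛ₁ x).1 (hT x hx).1).1
      ((hΛ₁ y).1 (hT y hy).1).1, fun p hp => ⟨?_, ?_⟩⟩)
    · have := hxy (p, true) (mem_product.2 ⟨hp, mem_univ _⟩)
      simpa only [G, if_true] using this
    · have := hxy (p, false) (mem_product.2 ⟨hp, mem_univ _⟩)
      simpa only [G, Bool.false_eq_true, if_false] using this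

end Pool.Agent.Work.MP_dc37f8_rat
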