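import Pool.Agent.Work.MP_dc37f8_rat.KeyComplex
import Pool.Agent.Work.MP_dc37f8_rat.KeyOverlap

/-!
# MP_dc37f8_co: the fields `ℚ(√-d)` and the arithmetic statement
-/

open Finset

namespace Pool.Agent.Work.MP_dc37f8_rat

/-- The number `√-d`. -/
noncomputable def sq (d : ℕ) : ℂ := (Real.sqrt d : ℂ) * Complex.I

theorem sq_sq (d : ℕ) : sq d * sq d = -(d : ℂ) := by
  have h : ((Real.sqrt d : ℝ) : ℂ) * ((Real.sqrt d : ℝ) : ℂ) = (d : ℂ) := by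
    rw [← Complex.ofReal_mul, Real.mul_self_sqrt (Nat.cast_nonneg d), Complex.ofReal_natCast]
  unfold sq
  linear_combination ((Real.sqrt d : ℝ) : ℂ) * ((Real.sqrt d : ℝ) : ℂ) * Complex.I_mul_I - h

/-- The imaginary quadratic field `ℚ(√-d) ⊂ ℂ`. -/
noncomputable def IQF (d : ℕ) : Subfield ℂ where
  carrier := {x | ∃ a b : ℚ, x = a + b * sq d}
  mul_mem' := by
    rintro _ _ ⟨a, b, rfl⟩ ⟨a', b', rfl⟩
    refine ⟨a * a' - d * (b * b'), a * b' + a' * b, ?_⟩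
    push_cast
    linear_combination (b : ℂ) * b' * sq_sq d
  one_mem' := ⟨1, 0, by simp⟩
  add_mem' := by
    rintro _ _ ⟨a, b, rfl⟩ ⟨a', b', rfl⟩
    refine ⟨a + a', b + b', ?_⟩
    push_cast
    ring
  zero_mem' := ⟨0, 0, by simp⟩
  neg_mem' := by
    rintro _ ⟨a, b, rfl⟩
    refine ⟨-a, -b, ?_⟩
    push_cast
    ring
  inv_mem' := by
    rintro _ ⟨a, b, rfl⟩
    refine ⟨a / (a ^ 2 + d * b ^ 2), -b / (a ^ 2 + d * b ^ 2), ?_⟩
    by_cases h : (a : ℂ) + b * sq d = 0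
    · have h2 : ((a ^ 2 + d * b ^ 2 : ℚ) : ℂ) = 0 := by
        push_cast
        have : ((a : ℂ) + b * sq d) * (a - b * sq d) = 0 := by rw [h, zero_mul]
        linear_combination this + (b : ℂ) ^ 2 * sq_sq d
      have h3 : (a ^ 2 + d * b ^ 2 : ℚ) = 0 := by exact_mod_cast h2
      rw [h, h3]
      simp
    · by_cases h3 : (a ^ 2 + d * b ^ 2 : ℚ) = 0
      · exfalso
        have ha : a = 0 := by
          have h4 : a ^ 2 ≤ 0 := by
            have : (0 : ℚ) ≤ d * b ^ 2 := by positivity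
            linarith
          exact pow_eq_zero_iff (two_ne_zero) |>.1 (le_antisymm h4 (sq_nonneg a))
        rw [ha] at h3
        have h5 : (d : ℚ) * b ^ 2 = 0 := by linarith
        rcases mul_eq_zero.1 h5 with h6 | h6
        · have : d = 0 := by exact_mod_cast h6
          apply h
          rw [ha, this]
          simp [sq]
        · have : b = 0 := pow_eq_zero_iff (two_ne_zero) |>.1 h6
          apply h
          rw [ha, this]
          simp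
      · refine inv_eq_of_mul_eq_one_right ?_
        have h8 : ((a ^ 2 + d * b ^ 2 : ℚ) : ℂ) ≠ 0 := by exact_mod_cast h3
        push_cast at h8 ⊢
        have h9 : ((a : ℂ) + b * sq d) * (a - b * sq d) = (a : ℂ) ^ 2 + d * (b : ℂ) ^ 2 := by
          linear_combination -(b : ℂ) ^ 2 * sq_sq d
        calc ((a : ℂ) + b * sq d) * (a / (a ^ 2 + d * b ^ 2) + -b / (a ^ 2 + d * b ^ 2) * sq d)
            = (((a : ℂ) + b * sq d) * (a - b * sq d)) / (a ^ 2 + d * b ^ 2) := by ring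
          _ = 1 := by rw [h9, div_self h8]

theorem mem_IQF {d : ℕ} {x : ℂ} : x ∈ IQF d ↔ ∃ a b : ℚ, x = a + b * sq d := Iff.rfl

/-- The integral elements of `ℚ(√-d)`. -/
noncomputable def OQ (d : ℕ) : AddSubgroup (IQF d) :=
  (integralClosure ℤ (IQF d)).toSubring.toAddSubgroup

theorem mem_OQ {d : ℕ} {x : IQF d} : x ∈ OQ d ↔ IsIntegral ℤ x := Iff.rfl

/-- **The arithmetic statement.** -/
def StmtArith : Prop :=
  ∀ d : ℕ, Squarefree d → ∀ M : Finset (IQF d), (∀ ρ ∈ M, ‖(ρ : ℂ)‖ = 1) →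
    ∃ (S : Finset ℕ) (e : IQF d → ℕ → ℤ) (U V : ℕ → ℤ → AddSubgroup (IQF d))
      (Λ' : AddSubgroup (IQF d)),
      (∀ p ∈ S, p.Prime) ∧ BallData S M e U V Λ' ∧
      (∀ x, x ∈ OQ d ↔ x ∈ Λ' ∧ ∀ p ∈ S, x ∈ U p 0 ∧ x ∈ V p 0) ∧
      -- scaling by the primes of `S`
      (∀ p ∈ S, ∀ q ∈ S, ∀ k x, (q : IQF d) * x ∈ U p (if q = p then k + 1 else k) ↔ x ∈ U p k) ∧
      (∀ p ∈ S, ∀ q ∈ S, ∀ k x, (q : IQF d) * x ∈ V p (if q = p then k + 1 else k) ↔ x ∈ V p k) ∧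
      (∀ q ∈ S, ∀ x, (q : IQF d) * x ∈ Λ' ↔ x ∈ Λ') ∧
      -- the exponents determine `ρ` up to units
      (∀ ρ ∈ M, ∀ ρ' ∈ M, (∀ p ∈ S, e ρ p = e ρ' p) → ρ / ρ' ∈ OQ d) ∧
      -- the primes of `S` split
      (∀ p ∈ S, ¬ p ∣ d ∧ ∃ x : ZMod p, x ^ 2 = -(d : ZMod p)) ∧
      (2 ∈ S → d % 8 = 7) ∧
      -- the denominator of the trace
      (∀ ρ ∈ M, ∃ n : ℤ, IsCoprime n (∏ p ∈ S, (p : ℤ) ^ (e ρ p).natAbs) ∧
        2 * (ρ : ℂ).re = n / ∏ p ∈ S, (p : ℝ) ^ (e ρ p).natAbs) ∧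
      -- the gaps at 2
      (∀ ρ ∈ M, ∀ ρ' ∈ M, (∀ p ∈ S, p ≠ 2 → e ρ p = e ρ' p) → 2 ∈ S → e ρ 2 ≠ e ρ' 2 →
        ∃ a f : ℤ, Odd a ∧ a ^ 2 + d * f ^ 2 = 4 ^ ((e ρ 2 - e ρ' 2).natAbs + 1))

end Pool.Agent.Work.MP_dc37f8_rat
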