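import Pool.Agent.Work.MP_dc37f8_rat.KeySum

/-!
# MP_dc37f8_co: the discrete key inequality for cosets of a lattice

`U p k`, `V p k` are the balls `{|α_p x| ≤ p^(-k)}`, `{|β_p x| ≤ p^(-k)}`; `Λ'` is the localisation
of the lattice `Λ` away from `S`.
-/

open Finset Real

namespace Pool.Agent.Work.MP_dc37f8_rat

variable {X : Type*}

open Classical in
/-- As `hasWeights_main`, with one more component on which the relations are partial bijections. -/
theorem hasWeights_main' [Fintype X] {A₀ : Type*} [Fintype A₀]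
    (A B : ℕ → Type*) [∀ p, Fintype (A p)] [∀ p, Fintype (B p)]
    (S : Finset ℕ) (hS : ∀ p ∈ S, 0 < p) (a₀ : X → A₀) (a : ∀ p, X → A p) (b : ∀ p, X → B p)
    (hinj : ∀ x y, a₀ x = a₀ y → (∀ p ∈ S, a p x = a p y ∧ b p x = b p y) → x = y) :
    HasWeights X S (fun E e => ((∀ z ∈ E, ∀ z' ∈ E, a₀ z.1 = a₀ z'.1 → a₀ z.2 = a₀ z'.2) ∧
      (∀ z ∈ E, ∀ z' ∈ E, a₀ z.2 = a₀ z'.2 → a₀ z.1 = a₀ z'.1)) ∧
      ∀ p ∈ S, ∃ EA EB, PairRel (A p) (B p) p EA EB (e p) ∧
      ∀ z ∈ E, (a p z.1, a p z.2) ∈ EA ∧ (b p z.1, b p z.2) ∈ EB) := by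
  let φ : X → A₀ × (∀ p : S, A p × B p) := fun x => (a₀ x, fun p => (a p x, b p x))
  have hφ : Function.Injective φ := by
    intro x y h
    simp only [φ, Prod.mk.injEq] at h
    refine hinj x y h.1 fun p hp => ?_
    have := congrFun h.2 ⟨p, hp⟩
    simp only [Prod.mk.injEq] at this
    exact this
  have h1 : HasWeights A₀ ∅ _ := hasWeights_trivial (X := A₀)
  have h2 := h1.prod (disjoint_empty_left S) (hasWeights_pi A B S hS)
  rw [empty_union] at h2
  refine (h2.comap φ hφ).mono ?_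
  rintro E e ⟨⟨hE1, hE2⟩, hE⟩
  refine ⟨E.image (fun z => (a₀ z.1, a₀ z.2)),
    E.image (fun z => (fun p : S => (a p z.1, b p z.1), fun p : S => (a p z.2, b p z.2))),
    ⟨?_, ?_⟩, ?_, ?_⟩
  · intro w hw w' hw' h
    obtain ⟨z, hz, rfl⟩ := mem_image.1 hw
    obtain ⟨z', hz', rfl⟩ := mem_image.1 hw'
    exact Prod.ext h (hE1 z hz z' hz' h)
  · intro w hw w' hw' h
    obtain ⟨z, hz, rfl⟩ := mem_image.1 hw
    obtain ⟨z', hz', rfl⟩ := mem_image.1 hw'
    exact Prod.ext (hE2 z hz z' hz' h) h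
  · intro p
    obtain ⟨EA, EB, hr, hz⟩ := hE p p.2
    refine ⟨EA, EB, hr, fun w hw => ?_⟩
    obtain ⟨z, hzE, rfl⟩ := mem_image.1 hw
    exact hz z hzE
  · intro w hw
    obtain ⟨z, hzE, rfl⟩ := mem_map.1 hw
    exact ⟨mem_image.2 ⟨z, hzE, rfl⟩, mem_image.2 ⟨z, hzE, rfl⟩⟩

/-- The relation `c - ρ b ≡ v` (for the class `v`). -/
noncomputable def relOf {F : Type*} [CommRing F] (Λ : AddSubgroup F) (z : X → F) (ρ : F)
    (ij : X × X) : F ⧸ (Λ ⊔ Λ.map (AddMonoidHom.mulLeft ρ)) :=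
  QuotientAddGroup.mk (z ij.2 - ρ * z ij.1)

section glue

variable {F : Type*} [Field F]

/-- The ball data at the primes of `S` for a set `M` of rotations. -/
structure BallData (S : Finset ℕ) (M : Finset F) (e : F → ℕ → ℤ)
    (U V : ℕ → ℤ → AddSubgroup F) (Λ' : AddSubgroup F) : Prop where
  pos : ∀ p ∈ S, 0 < p
  ne : ∀ ρ ∈ M, ρ ≠ 0
  antiU : ∀ p ∈ S, Antitone (U p)
  antiV : ∀ p ∈ S, Antitone (V p)
  idxU : ∀ p ∈ S, ∀ (k : ℤ) (n : ℕ) (T : Finset F), (∀ x ∈ T, x ∈ U p k) →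
    (∀ x ∈ T, ∀ y ∈ T, x - y ∈ U p (k + n) → x = y) → T.card ≤ p ^ n
  idxV : ∀ p ∈ S, ∀ (k : ℤ) (n : ℕ) (T : Finset F), (∀ x ∈ T, x ∈ V p k) →
    (∀ x ∈ T, ∀ y ∈ T, x - y ∈ V p (k + n) → x = y) → T.card ≤ p ^ n
  rotU : ∀ ρ ∈ M, ∀ p ∈ S, ∀ k x, ρ * x ∈ U p (k - e ρ p) ↔ x ∈ U p k
  rotV : ∀ ρ ∈ M, ∀ p ∈ S, ∀ k x, ρ * x ∈ V p (k + e ρ p) ↔ x ∈ V p k
  rotΛ : ∀ ρ ∈ M, ∀ x, ρ * x ∈ Λ' ↔ x ∈ Λ'

open Classical in
/-- Degrees of a coordinate relation: at most one `b` for each `c`. `W` is the ball of the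
coordinate, `W'` the ball in which `c - ρ b - v` lies. -/
theorem coord_rel [Fintype X] (z : X → F) (ρ : F) (W W' : AddSubgroup F)
    (r : X → X) (hr : ∀ x y, r x = r y ↔ z x - z y ∈ W) (hrr : ∀ x, r (r x) = r x)
    (E : Finset (X × X)) (hE : ∀ w ∈ E, ∀ w' ∈ E,
      (z w.2 - ρ * z w.1) - (z w'.2 - ρ * z w'.1) ∈ W') (hW : W ≤ W')
    (hρ : ∀ x, ρ * x ∈ W' ↔ x ∈ W) (N : ℕ)
    (hidx : ∀ T : Finset F, (∀ x ∈ T, x ∈ W') → (∀ x ∈ T, ∀ y ∈ T, x - y ∈ W → x = y) →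
      T.card ≤ N) :
    (∀ c : X, ((E.image fun w => (r w.1, r w.2)).filter (fun w => w.2 = c)).card ≤ 1) ∧
    (∀ b : X, ((E.image fun w => (r w.1, r w.2)).filter (fun w => w.1 = b)).card ≤ N) := by
  constructor
  · intro c
    rw [card_le_one]
    intro u hu u' hu'
    obtain ⟨hu1, hu2⟩ := mem_filter.1 hu
    obtain ⟨hu1', hu2'⟩ := mem_filter.1 hu'
    obtain ⟨w, hw, rfl⟩ := mem_image.1 hu1
    obtain ⟨w', hw', rfl⟩ := mem_image.1 hu1'
    have h1 : z w.2 - z w'.2 ∈ W := (hr _ _).1 (hu2.trans hu2'.symm)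
    have h2 := hE w hw w' hw'
    have h3 : ρ * (z w.1 - z w'.1) ∈ W' := by
      have : ρ * (z w.1 - z w'.1) = (z w.2 - z w'.2) -
          ((z w.2 - ρ * z w.1) - (z w'.2 - ρ * z w'.1)) := by ring
      rw [this]
      exact W'.sub_mem (hW h1) h2
    have h4 := (hr _ _).2 ((hρ _).1 h3)
    exact Prod.ext h4 (hu2.trans hu2'.symm)
  · intro b
    set G := (E.image fun w => (r w.1, r w.2)).filter (fun w => w.1 = b) with hG
    rcases G.eq_empty_or_nonempty with h0 | ⟨u0, hu0⟩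
    · rw [h0]; simp
    have hz : ∀ u ∈ G, ∀ u' ∈ G, z u.2 - z u'.2 ∈ W' := by
      intro u hu u' hu'
      obtain ⟨hu1, hu2⟩ := mem_filter.1 hu
      obtain ⟨hu1', hu2'⟩ := mem_filter.1 hu'
      obtain ⟨w, hw, rfl⟩ := mem_image.1 hu1
      obtain ⟨w', hw', rfl⟩ := mem_image.1 hu1'
      have h1 : z w.1 - z w'.1 ∈ W := (hr _ _).1 (hu2.trans hu2'.symm)
      have h2 := hE w hw w' hw'
      have h3 : z (r w.2) - z w.2 ∈ W := (hr _ _).1 (hrr _)
      have h4 : z (r w'.2) - z w'.2 ∈ W := (hr _ _).1 (hrr _)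
      have : z (r w.2) - z (r w'.2) = (z (r w.2) - z w.2) - (z (r w'.2) - z w'.2) +
          ρ * (z w.1 - z w'.1) + ((z w.2 - ρ * z w.1) - (z w'.2 - ρ * z w'.1)) := by ring
      show z (r w.2) - z (r w'.2) ∈ W'
      rw [this]
      exact W'.add_mem (W'.add_mem (W'.sub_mem (hW h3) (hW h4)) ((hρ _).2 h1)) h2
    have hcard : G.card = (G.image fun u => z u.2 - z u0.2).card := by
      rw [card_image_of_injOn]
      intro u hu u' hu' h
      have h' : z u.2 - z u'.2 ∈ W := by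
        have : z u.2 - z u'.2 = 0 := by
          simp only at h
          rw [sub_left_inj] at h
          rw [h, sub_self]
        rw [this]
        exact W.zero_mem
      obtain ⟨hu1, hu2⟩ := mem_filter.1 (mem_coe.1 hu)
      obtain ⟨hu1', hu2'⟩ := mem_filter.1 (mem_coe.1 hu')
      obtain ⟨w, hw, rfl⟩ := mem_image.1 hu1
      obtain ⟨w', hw', rfl⟩ := mem_image.1 hu1'
      have h3 := (hr _ _).2 h'
      rw [hrr, hrr] at h3
      exact Prod.ext (hu2.trans hu2'.symm) h3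
    rw [hcard]
    refine hidx _ ?_ ?_
    · intro x hx
      obtain ⟨u, hu, rfl⟩ := mem_image.1 hx
      exact hz u hu u0 hu0
    · intro x hx y hy hxy
      obtain ⟨u, hu, rfl⟩ := mem_image.1 hx
      obtain ⟨u', hu', rfl⟩ := mem_image.1 hy
      have h' : z u.2 - z u'.2 ∈ W := by
        have : z u.2 - z u0.2 - (z u'.2 - z u0.2) = z u.2 - z u'.2 := by ring
        rwa [this] at hxy
      obtain ⟨hu1, hu2⟩ := mem_filter.1 hu
      obtain ⟨hu1', hu2'⟩ := mem_filter.1 hu'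
      obtain ⟨w, hw, rfl⟩ := mem_image.1 hu1
      obtain ⟨w', hw', rfl⟩ := mem_image.1 hu1'
      have h3 := (hr _ _).2 h'
      rw [hrr, hrr] at h3
      simp only [h3]

open Classical in
/-- The mirror image: at most one `c` for each `b`. -/
theorem coord_rel' [Fintype X] (z : X → F) (ρ : F) (W W' : AddSubgroup F)
    (r : X → X) (hr : ∀ x y, r x = r y ↔ z x - z y ∈ W) (hrr : ∀ x, r (r x) = r x)
    (E : Finset (X × X)) (hE : ∀ w ∈ E, ∀ w' ∈ E,
      (z w.2 - ρ * z w.1) - (z w'.2 - ρ * z w'.1) ∈ W) (hW : W ≤ W')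
    (hρ : ∀ x, ρ * x ∈ W ↔ x ∈ W') (N : ℕ)
    (hidx : ∀ T : Finset F, (∀ x ∈ T, x ∈ W') → (∀ x ∈ T, ∀ y ∈ T, x - y ∈ W → x = y) →
      T.card ≤ N) :
    (∀ b : X, ((E.image fun w => (r w.1, r w.2)).filter (fun w => w.1 = b)).card ≤ 1) ∧
    (∀ c : X, ((E.image fun w => (r w.1, r w.2)).filter (fun w => w.2 = c)).card ≤ N) := by
  constructor
  · intro b
    rw [card_le_one]
    intro u hu u' hu'
    obtain ⟨hu1, hu2⟩ := mem_filter.1 hu
    obtain ⟨hu1', hu2'⟩ := mem_filter.1 hu'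
    obtain ⟨w, hw, rfl⟩ := mem_image.1 hu1
    obtain ⟨w', hw', rfl⟩ := mem_image.1 hu1'
    have h1 : z w.1 - z w'.1 ∈ W := (hr _ _).1 (hu2.trans hu2'.symm)
    have h2 := hE w hw w' hw'
    have h3 : z w.2 - z w'.2 ∈ W := by
      have : z w.2 - z w'.2 = ρ * (z w.1 - z w'.1) +
          ((z w.2 - ρ * z w.1) - (z w'.2 - ρ * z w'.1)) := by ring
      rw [this]
      exact W.add_mem ((hρ _).2 (hW h1)) h2
    have h4 := (hr _ _).2 h3
    exact Prod.ext (hu2.trans hu2'.symm) h4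
  · intro c
    set G := (E.image fun w => (r w.1, r w.2)).filter (fun w => w.2 = c) with hG
    rcases G.eq_empty_or_nonempty with h0 | ⟨u0, hu0⟩
    · rw [h0]; simp
    have hz : ∀ u ∈ G, ∀ u' ∈ G, z u.1 - z u'.1 ∈ W' := by
      intro u hu u' hu'
      obtain ⟨hu1, hu2⟩ := mem_filter.1 hu
      obtain ⟨hu1', hu2'⟩ := mem_filter.1 hu'
      obtain ⟨w, hw, rfl⟩ := mem_image.1 hu1
      obtain ⟨w', hw', rfl⟩ := mem_image.1 hu1'
      have h1 : z w.2 - z w'.2 ∈ W := (hr _ _).1 (hu2.trans hu2'.symm)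
      have h2 := hE w hw w' hw'
      have h3 : z (r w.1) - z w.1 ∈ W := (hr _ _).1 (hrr _)
      have h4 : z (r w'.1) - z w'.1 ∈ W := (hr _ _).1 (hrr _)
      have h5 : z w.1 - z w'.1 ∈ W' := by
        rw [← hρ]
        have : ρ * (z w.1 - z w'.1) = (z w.2 - z w'.2) -
            ((z w.2 - ρ * z w.1) - (z w'.2 - ρ * z w'.1)) := by ring
        rw [this]
        exact W.sub_mem h1 h2
      have : z (r w.1) - z (r w'.1) = (z (r w.1) - z w.1) - (z (r w'.1) - z w'.1) +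
          (z w.1 - z w'.1) := by ring
      show z (r w.1) - z (r w'.1) ∈ W'
      rw [this]
      exact W'.add_mem (W'.sub_mem (hW h3) (hW h4)) h5
    have hcard : G.card = (G.image fun u => z u.1 - z u0.1).card := by
      rw [card_image_of_injOn]
      intro u hu u' hu' h
      have h' : z u.1 - z u'.1 ∈ W := by
        have : z u.1 - z u'.1 = 0 := by
          simp only at h
          rw [sub_left_inj] at h
          rw [h, sub_self]
        rw [this]
        exact W.zero_mem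
      obtain ⟨hu1, hu2⟩ := mem_filter.1 (mem_coe.1 hu)
      obtain ⟨hu1', hu2'⟩ := mem_filter.1 (mem_coe.1 hu')
      obtain ⟨w, hw, rfl⟩ := mem_image.1 hu1
      obtain ⟨w', hw', rfl⟩ := mem_image.1 hu1'
      have h3 := (hr _ _).2 h'
      rw [hrr, hrr] at h3
      exact Prod.ext h3 (hu2.trans hu2'.symm)
    rw [hcard]
    refine hidx _ ?_ ?_
    · intro x hx
      obtain ⟨u, hu, rfl⟩ := mem_image.1 hx
      exact hz u hu u0 hu0
    · intro x hx y hy hxy
      obtain ⟨u, hu, rfl⟩ := mem_image.1 hx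
      obtain ⟨u', hu', rfl⟩ := mem_image.1 hy
      have h' : z u.1 - z u'.1 ∈ W := by
        have : z u.1 - z u0.1 - (z u'.1 - z u0.1) = z u.1 - z u'.1 := by ring
        rwa [this] at hxy
      obtain ⟨hu1, hu2⟩ := mem_filter.1 hu
      obtain ⟨hu1', hu2'⟩ := mem_filter.1 hu'
      obtain ⟨w, hw, rfl⟩ := mem_image.1 hu1
      obtain ⟨w', hw', rfl⟩ := mem_image.1 hu1'
      have h3 := (hr _ _).2 h'
      rw [hrr, hrr] at h3
      simp only [h3]

/-- A map to canonical representatives of the classes modulo `W`. -/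
theorem exists_rep (z : X → F) (W : AddSubgroup F) :
    ∃ r : X → X, (∀ x y, r x = r y ↔ z x - z y ∈ W) ∧ ∀ x, r (r x) = r x := by
  let s : Setoid X :=
    { r := fun x y => z x - z y ∈ W
      iseqv := ⟨fun x => by rw [sub_self]; exact W.zero_mem,
        fun {x y} h => by rw [← neg_sub]; exact W.neg_mem h,
        fun {x y w} h h' => by
          rw [show z x - z w = (z x - z y) + (z y - z w) by ring]
          exact W.add_mem h h'⟩ }
  refine ⟨fun x => (Quotient.mk s x).out, fun x y => ?_, fun x => ?_⟩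
  · rw [Quotient.out_inj]
    exact Quotient.eq (r := s)
  · simp only [Quotient.out_eq]

open Classical in
/-- **Key inequality for a lattice.** -/
theorem key_glue [Fintype X] {S : Finset ℕ} {M : Finset F} {e : F → ℕ → ℤ}
    {U V : ℕ → ℤ → AddSubgroup F} {Λ' : AddSubgroup F} (hD : BallData S M e U V Λ')
    (k l : ℕ → ℤ) (Λ : AddSubgroup F)
    (hΛ : ∀ x, x ∈ Λ ↔ x ∈ Λ' ∧ ∀ p ∈ S, x ∈ U p (k p) ∧ x ∈ V p (l p))
    (z : X → F) (hz : ∀ x y, z x - z y ∈ Λ → x = y)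
    (C : ℝ) (hC : ∀ f : ℕ → ℝ,
      ∑ ρ ∈ M, ∏ p ∈ S, ((cosh (e ρ p * log p - f p)) ^ 2)⁻¹ ≤ C)
    (s : X → ℝ) (hs : ∀ x, 0 ≤ s x) :
    ∑ ρ ∈ M, ((∏ p ∈ S, (p : ℝ) ^ (e ρ p).natAbs) ^ 2)⁻¹ *
        ∑ v ∈ univ.image (relOf Λ z ρ),
          (∑ w ∈ univ.filter (fun w => relOf Λ z ρ w = v), s w.1 ^ 4 * s w.2 ^ 4) ^ 3 ≤
      C * (∑ x, s x ^ 6) ^ 4 := by
  -- representatives
  obtain ⟨r₀, hr₀, hrr₀⟩ := exists_rep z Λ'
  choose rU hrU hrrU using fun p => exists_rep z (U p (k p))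
  choose rV hrV hrrV using fun p => exists_rep z (V p (l p))
  have hinj : ∀ x y, r₀ x = r₀ y → (∀ p ∈ S, rU p x = rU p y ∧ rV p x = rV p y) → x = y := by
    intro x y h0 h
    refine hz x y ((hΛ _).2 ⟨(hr₀ x y).1 h0, fun p hp => ⟨(hrU p x y).1 (h p hp).1,
      (hrV p x y).1 (h p hp).2⟩⟩)
  have hW := hasWeights_main' (fun _ => X) (fun _ => X) S hD.pos r₀ rU rV hinj
  let T : F → Type _ := fun ρ => F ⧸ (Λ ⊔ Λ.map (AddMonoidHom.mulLeft ρ))
  -- use representatives of the classes as a common index type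
  have hmap : ∀ ρ : F, ∀ v : T ρ, ∃ t : F, (QuotientAddGroup.mk t : T ρ) = v := fun ρ v =>
    QuotientAddGroup.mk_surjective v
  choose τ hτ using hmap
  have hτinj : ∀ ρ, Function.Injective (τ ρ) := fun ρ v v' h => by
    rw [← hτ ρ v, ← hτ ρ v', h]
  have key := key_sum hW M e (fun ρ => (univ.image (relOf Λ z ρ)).image (τ ρ))
    (fun ρ t => univ.filter (fun w => τ ρ (relOf Λ z ρ w) = t)) hD.pos ?_ ?_ C hC s hs
  · refine le_trans (le_of_eq ?_) key
    refine sum_congr rfl fun ρ _ => ?_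
    congr 1
    rw [sum_image (fun v _ v' _ h => hτinj ρ h)]
    refine sum_congr rfl fun v _ => ?_
    congr 2
    ext w
    simp only [mem_filter, mem_univ, true_and]
    exact (hτinj ρ).eq_iff.symm
  · intro ρ hρ t ht
    set E : Finset (X × X) := univ.filter (fun w => τ ρ (relOf Λ z ρ w) = t) with hEdef
    have hE : ∀ w ∈ E, ∀ w' ∈ E, (z w.2 - ρ * z w.1) - (z w'.2 - ρ * z w'.1) ∈
        Λ ⊔ Λ.map (AddMonoidHom.mulLeft ρ) := by
      intro w hw w' hw'
      have h1 := (mem_filter.1 hw).2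
      have h2 := (mem_filter.1 hw').2
      have h3 := hτinj ρ (h1.trans h2.symm)
      exact (QuotientAddGroup.eq_iff_sub_mem.1 h3)
    have hsup : ∀ G : AddSubgroup F, (∀ x ∈ Λ, x ∈ G) → (∀ x ∈ Λ, ρ * x ∈ G) →
        ∀ w ∈ E, ∀ w' ∈ E, (z w.2 - ρ * z w.1) - (z w'.2 - ρ * z w'.1) ∈ G := by
      intro G h1 h2 w hw w' hw'
      refine (sup_le (fun x hx => h1 x hx) ?_ : Λ ⊔ Λ.map (AddMonoidHom.mulLeft ρ) ≤ G)
        (hE w hw w' hw')
      rintro _ ⟨x, hx, rfl⟩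
      exact h2 x hx
    refine ⟨⟨?_, ?_⟩, ?_⟩
    · -- the component away from `S`
      intro w hw w' hw' h
      have h1 := hsup Λ' (fun x hx => ((hΛ x).1 hx).1)
        (fun x hx => (hD.rotΛ ρ hρ x).2 ((hΛ x).1 hx).1) w hw w' hw'
      rw [hr₀] at h ⊢
      have h2 := (hD.rotΛ ρ hρ _).2 h
      have : z w.2 - z w'.2 = ρ * (z w.1 - z w'.1) +
          ((z w.2 - ρ * z w.1) - (z w'.2 - ρ * z w'.1)) := by ring
      rw [this]
      exact Λ'.add_mem h2 h1
    · intro w hw w' hw' h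
      have h1 := hsup Λ' (fun x hx => ((hΛ x).1 hx).1)
        (fun x hx => (hD.rotΛ ρ hρ x).2 ((hΛ x).1 hx).1) w hw w' hw'
      rw [hr₀] at h ⊢
      rw [← hD.rotΛ ρ hρ]
      have : ρ * (z w.1 - z w'.1) = (z w.2 - z w'.2) -
          ((z w.2 - ρ * z w.1) - (z w'.2 - ρ * z w'.1)) := by ring
      rw [this]
      exact Λ'.sub_mem h h1
    · intro p hp
      refine ⟨E.image fun w => (rU p w.1, rU p w.2), E.image fun w => (rV p w.1, rV p w.2),
        ?_, fun w hw => ⟨mem_image_of_mem _ hw, mem_image_of_mem _ hw⟩⟩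
      have hU' : ∀ x ∈ Λ, x ∈ U p (k p) := fun x hx => (((hΛ x).1 hx).2 p hp).1
      have hV' : ∀ x ∈ Λ, x ∈ V p (l p) := fun x hx => (((hΛ x).1 hx).2 p hp).2
      rcases le_total 0 (e ρ p) with he | he
      · left
        have hn : ((e ρ p).natAbs : ℤ) = e ρ p := Int.natAbs_of_nonneg he
        have c1 := coord_rel z ρ (U p (k p)) (U p (k p - e ρ p)) (rU p) (hrU p) (hrrU p) E
          (hsup _ (fun x hx => hD.antiU p hp (by omega) (hU' x hx))
            (fun x hx => (hD.rotU ρ hρ p hp _ _).2 (hU' x hx)))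
          (hD.antiU p hp (by omega)) (fun x => hD.rotU ρ hρ p hp _ _) (p ^ (e ρ p).natAbs)
          (fun T h1 h2 => hD.idxU p hp (k p - e ρ p) (e ρ p).natAbs T h1 (by
            rw [hn, sub_add_cancel]; exact h2))
        have c2 := coord_rel' z ρ (V p (l p)) (V p (l p - e ρ p)) (rV p) (hrV p) (hrrV p) E
          (hsup _ (fun x hx => hV' x hx)
            (fun x hx => hD.antiV p hp (by omega) ((hD.rotV ρ hρ p hp _ _).2 (hV' x hx))))
          (hD.antiV p hp (by omega)) (fun x => by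
            have := hD.rotV ρ hρ p hp (l p - e ρ p) x
            rwa [sub_add_cancel] at this) (p ^ (e ρ p).natAbs)
          (fun T h1 h2 => hD.idxV p hp (l p - e ρ p) (e ρ p).natAbs T h1 (by
            rw [hn, sub_add_cancel]; exact h2))
        exact ⟨he, c1.1, c1.2, c2.1, c2.2⟩
      · right
        have hn : ((e ρ p).natAbs : ℤ) = - e ρ p := Int.ofNat_natAbs_of_nonpos he
        have c1 := coord_rel' z ρ (U p (k p)) (U p (k p + e ρ p)) (rU p) (hrU p) (hrrU p) E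
          (hsup _ (fun x hx => hU' x hx)
            (fun x hx => hD.antiU p hp (by omega) ((hD.rotU ρ hρ p hp _ _).2 (hU' x hx))))
          (hD.antiU p hp (by omega)) (fun x => by
            have := hD.rotU ρ hρ p hp (k p + e ρ p) x
            rwa [add_sub_cancel_right] at this) (p ^ (e ρ p).natAbs)
          (fun T h1 h2 => hD.idxU p hp (k p + e ρ p) (e ρ p).natAbs T h1 (by
            rw [hn, add_neg_cancel_right]; exact h2))
        have c2 := coord_rel z ρ (V p (l p)) (V p (l p + e ρ p)) (rV p) (hrV p) (hrrV p) E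
          (hsup _ (fun x hx => hD.antiV p hp (by omega) (hV' x hx))
            (fun x hx => (hD.rotV ρ hρ p hp _ _).2 (hV' x hx)))
          (hD.antiV p hp (by omega)) (fun x => hD.rotV ρ hρ p hp _ _) (p ^ (e ρ p).natAbs)
          (fun T h1 h2 => hD.idxV p hp (l p + e ρ p) (e ρ p).natAbs T h1 (by
            rw [hn, add_neg_cancel_right]; exact h2))
        exact ⟨he, c1.1, c1.2, c2.1, c2.2⟩
  · intro ρ hρ t ht t' ht' hne
    rw [disjoint_left]
    intro w hw hw'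
    exact hne ((mem_filter.1 hw).2.symm.trans (mem_filter.1 hw').2)

end glue

end Pool.Agent.Work.MP_dc37f8_rat
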