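import Pool.Agent.Work.MP_dc37f8_rat.KeyAbstract

/-!
# MP_dc37f8_co: the discrete key inequality, many primes and the sum over rotations
-/

open Finset Real

namespace Pool.Agent.Work.MP_dc37f8_rat

variable {X Y A B : Type*}

/-- Pulling back along an injection. -/
theorem HasWeights.comap [Fintype X] [Fintype Y] (φ : X → Y) (hφ : Function.Injective φ)
    {S : Finset ℕ} {Q : Finset (Y × Y) → (ℕ → ℤ) → Prop} (h : HasWeights Y S Q) :
    HasWeights X S (fun E e => Q (E.map ⟨Prod.map φ φ, hφ.prodMap hφ⟩) e) := by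
  classical
  intro μ ν hμ hν
  obtain ⟨f, hf⟩ := h (fun y => ∑ x with φ x = y, μ x) (fun y => ∑ x with φ x = y, ν x)
    (fun y => sum_nonneg fun x _ => hμ x) (fun y => sum_nonneg fun x _ => hν x)
  refine ⟨fun p b c => f p (φ b) (φ c), fun E e hE => ?_⟩
  have key := hf _ e hE
  have h1 : ∀ (g : X → ℝ) (x : X), ∑ x' with φ x' = φ x, g x' = g x := by
    intro g x
    rw [show (univ.filter fun x' => φ x' = φ x) = {x} by ext; simp [hφ.eq_iff], sum_singleton]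
  have h2 : ∀ g : X → ℝ, ∑ y, ∑ x with φ x = y, g x = ∑ x, g x := fun g =>
    sum_fiberwise_of_maps_to (s := univ) (t := univ) (g := φ) (fun x _ => mem_univ _) g
  rw [sum_map] at key
  simp only [Function.Embedding.coeFn_mk, Prod.map_fst, Prod.map_snd, h1, h2] at key
  exact key

/-- The chain over the primes: pi types. -/
theorem hasWeights_pi (A B : ℕ → Type*) [∀ p, Fintype (A p)] [∀ p, Fintype (B p)]
    (S : Finset ℕ) (hS : ∀ p ∈ S, 0 < p) :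
    HasWeights (∀ p : S, A p × B p) S (fun E e => ∀ p : S, ∃ EA EB, PairRel (A p) (B p) p EA EB (e p) ∧
      ∀ z ∈ E, ((z.1 p).1, (z.2 p).1) ∈ EA ∧ ((z.1 p).2, (z.2 p).2) ∈ EB) := by
  classical
  induction S using Finset.induction_on with
  | empty =>
    refine hasWeights_trivial.mono fun E e _ => ⟨fun z _ z' _ _ => ?_, fun z _ z' _ _ => ?_⟩
    · exact Prod.ext (Subsingleton.elim _ _) (Subsingleton.elim _ _)
    · exact Prod.ext (Subsingleton.elim _ _) (Subsingleton.elim _ _)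
  | insert p S hp ih =>
    have ih' := ih fun q hq => hS q (mem_insert_of_mem hq)
    have h1 := hasWeights_pair (A := A p) (B := B p) p (hS p (mem_insert_self p S))
    have h2 := h1.prod (disjoint_singleton_left.2 hp) ih'
    rw [← insert_eq] at h2
    let φ : (∀ q : (insert p S : Finset ℕ), A q × B q) → (A p × B p) × (∀ q : S, A q × B q) :=
      fun x => (x ⟨p, mem_insert_self p S⟩, fun q => x ⟨q, mem_insert_of_mem q.2⟩)
    have hφ : Function.Injective φ := by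
      intro x y h
      simp only [φ, Prod.mk.injEq] at h
      funext ⟨q, hq⟩
      rcases mem_insert.1 hq with rfl | hq'
      · exact h.1
      · exact congrFun h.2 ⟨q, hq'⟩
    refine (h2.comap φ hφ).mono fun E e hE => ?_
    have h3 := hE ⟨p, mem_insert_self p S⟩
    have h4 : ∀ q : S, _ := fun q => hE ⟨q, mem_insert_of_mem q.2⟩
    refine ⟨E.image (fun z => (z.1 ⟨p, mem_insert_self p S⟩, z.2 ⟨p, mem_insert_self p S⟩)),
      E.image (fun z => (fun q : S => z.1 ⟨q, mem_insert_of_mem q.2⟩,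
        fun q : S => z.2 ⟨q, mem_insert_of_mem q.2⟩)), ?_, ?_, ?_⟩
    · obtain ⟨EA, EB, hr, hz⟩ := h3
      refine ⟨EA, EB, hr, fun w hw => ?_⟩
      obtain ⟨z, hzE, rfl⟩ := mem_image.1 hw
      exact hz z hzE
    · intro q
      obtain ⟨EA, EB, hr, hz⟩ := h4 q
      refine ⟨EA, EB, hr, fun w hw => ?_⟩
      obtain ⟨z, hzE, rfl⟩ := mem_image.1 hw
      exact hz z hzE
    · intro w hw
      obtain ⟨z, hzE, rfl⟩ := mem_map.1 hw
      exact ⟨mem_image.2 ⟨z, hzE, rfl⟩, mem_image.2 ⟨z, hzE, rfl⟩⟩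

/-- The final form: a finite type with jointly injective coordinates. -/
theorem hasWeights_main [Fintype X] (A B : ℕ → Type*) [∀ p, Fintype (A p)] [∀ p, Fintype (B p)]
    (S : Finset ℕ) (hS : ∀ p ∈ S, 0 < p) (a : ∀ p, X → A p) (b : ∀ p, X → B p)
    (hinj : ∀ x y, (∀ p ∈ S, a p x = a p y ∧ b p x = b p y) → x = y) :
    HasWeights X S (fun E e => ∀ p ∈ S, ∃ EA EB, PairRel (A p) (B p) p EA EB (e p) ∧
      ∀ z ∈ E, (a p z.1, a p z.2) ∈ EA ∧ (b p z.1, b p z.2) ∈ EB) := by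
  let φ : X → ∀ p : S, A p × B p := fun x p => (a p x, b p x)
  have hφ : Function.Injective φ := by
    intro x y h
    refine hinj x y fun p hp => ?_
    have := congrFun h ⟨p, hp⟩
    simp only [φ, Prod.mk.injEq] at this
    exact this
  refine ((hasWeights_pi A B S hS).comap φ hφ).mono fun E e hE p => ?_
  obtain ⟨EA, EB, hr, hz⟩ := hE p p.2
  refine ⟨EA, EB, hr, fun w hw => ?_⟩
  obtain ⟨z, hzE, rfl⟩ := mem_map.1 hw
  exact hz z hzE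

/-- Hölder's inequality with a free weight. -/
theorem holder_weight {ι : Type*} (E : Finset ι) (x W : ι → ℝ) (hx : ∀ z ∈ E, 0 ≤ x z)
    (hW : ∀ z ∈ E, 0 < W z) :
    (∑ z ∈ E, x z ^ 4) ^ 3 ≤ (∑ z ∈ E, x z ^ 6 * ((W z) ^ 2)⁻¹) * (∑ z ∈ E, x z ^ 3 * W z) ^ 2 := by
  have hpq : (3 : ℝ).HolderConjugate (3 / 2) := by
    rw [Real.holderConjugate_iff]
    norm_num
  have h := Real.inner_le_Lp_mul_Lq_of_nonneg E
    (f := fun z => (x z ^ 6 * ((W z) ^ 2)⁻¹) ^ (1 / 3 : ℝ))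
    (g := fun z => (x z ^ 3 * W z) ^ (2 / 3 : ℝ)) hpq
    (fun z hz => rpow_nonneg (mul_nonneg (pow_nonneg (hx z hz) _) (by positivity)) _)
    (fun z hz => rpow_nonneg (mul_nonneg (pow_nonneg (hx z hz) _) (hW z hz).le) _)
  have e0 : ∀ z ∈ E, (x z ^ 6 * ((W z) ^ 2)⁻¹) ^ (1 / 3 : ℝ) * (x z ^ 3 * W z) ^ (2 / 3 : ℝ) =
      x z ^ 4 := by
    intro z hz
    have hx' := hx z hz
    have hW' := hW z hz
    have g1 : ∀ y : ℝ, 0 ≤ y → y ^ (2 / 3 : ℝ) = (y ^ 2) ^ (1 / 3 : ℝ) := by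
      intro y hy
      rw [← rpow_natCast y 2, ← rpow_mul hy]
      norm_num
    have g2 : ∀ y : ℝ, 0 ≤ y → (y ^ 3) ^ (1 / 3 : ℝ) = y := by
      intro y hy
      rw [← rpow_natCast y 3, ← rpow_mul hy]
      norm_num
    rw [g1 _ (by positivity), ← mul_rpow (by positivity) (by positivity),
      show x z ^ 6 * ((W z) ^ 2)⁻¹ * (x z ^ 3 * W z) ^ 2 = (x z ^ 4) ^ 3 by
        field_simp, g2 _ (by positivity)]
  have e2 : ∀ z ∈ E, ((x z ^ 6 * ((W z) ^ 2)⁻¹) ^ (1 / 3 : ℝ)) ^ (3 : ℝ) =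
      x z ^ 6 * ((W z) ^ 2)⁻¹ := by
    intro z hz
    have hx' := hx z hz
    have hW' := hW z hz
    rw [← rpow_mul (by positivity)]
    norm_num
  have e3 : ∀ z ∈ E, ((x z ^ 3 * W z) ^ (2 / 3 : ℝ)) ^ (3 / 2 : ℝ) = x z ^ 3 * W z := by
    intro z hz
    have hx' := hx z hz
    have hW' := hW z hz
    rw [← rpow_mul (by positivity)]
    norm_num
  rw [sum_congr rfl e0, sum_congr rfl e2, sum_congr rfl e3] at h
  have hA : 0 ≤ ∑ z ∈ E, x z ^ 6 * ((W z) ^ 2)⁻¹ := sum_nonneg fun z hz =>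
    mul_nonneg (pow_nonneg (hx z hz) _) (by positivity)
  have hB : 0 ≤ ∑ z ∈ E, x z ^ 3 * W z := sum_nonneg fun z hz =>
    mul_nonneg (pow_nonneg (hx z hz) _) (hW z hz).le
  have hL : 0 ≤ ∑ z ∈ E, x z ^ 4 := sum_nonneg fun z hz => pow_nonneg (hx z hz) _
  calc (∑ z ∈ E, x z ^ 4) ^ 3 ≤ ((∑ z ∈ E, x z ^ 6 * ((W z) ^ 2)⁻¹) ^ (1 / 3 : ℝ) *
        (∑ z ∈ E, x z ^ 3 * W z) ^ (1 / (3 / 2) : ℝ)) ^ 3 := pow_le_pow_left₀ hL h 3
    _ = _ := by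
        rw [mul_pow, ← rpow_natCast, ← rpow_natCast, ← rpow_natCast, ← rpow_mul hA, ← rpow_mul hB]
        norm_num

/-- **The discrete key inequality.** `J` is the set of rotations, `e ρ p` the exponents,
`E ρ t` (`t ∈ T ρ`) the relations `c - ρ b = t`. -/
theorem key_sum [Fintype X] {S : Finset ℕ} {Q : Finset (X × X) → (ℕ → ℤ) → Prop}
    (h : HasWeights X S Q) {ι κ : Type*} (J : Finset ι) (e : ι → ℕ → ℤ) (T : ι → Finset κ)
    (E : ι → κ → Finset (X × X)) (hS : ∀ p ∈ S, 0 < p)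
    (hQ : ∀ ρ ∈ J, ∀ t ∈ T ρ, Q (E ρ t) (e ρ))
    (hdis : ∀ ρ ∈ J, ∀ t ∈ T ρ, ∀ t' ∈ T ρ, t ≠ t' → Disjoint (E ρ t) (E ρ t'))
    (C : ℝ) (hC : ∀ f : ℕ → ℝ,
      ∑ ρ ∈ J, ∏ p ∈ S, ((cosh (e ρ p * log p - f p)) ^ 2)⁻¹ ≤ C)
    (s : X → ℝ) (hs : ∀ x, 0 ≤ s x) :
    ∑ ρ ∈ J, ((∏ p ∈ S, (p : ℝ) ^ (e ρ p).natAbs) ^ 2)⁻¹ *
        ∑ t ∈ T ρ, (∑ z ∈ E ρ t, s z.1 ^ 4 * s z.2 ^ 4) ^ 3 ≤
      C * (∑ x, s x ^ 6) ^ 4 := by
  classical
  obtain ⟨f, hf⟩ := h (fun x => s x ^ 6) (fun x => s x ^ 6) (fun x => pow_nonneg (hs x) _)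
    (fun x => pow_nonneg (hs x) _)
  set M : ℝ := ∑ x, s x ^ 6 with hM
  have hM0 : 0 ≤ M := sum_nonneg fun x _ => pow_nonneg (hs x) _
  let W : ι → X × X → ℝ := fun ρ z => ∏ p ∈ S, cosh (e ρ p * log p - f p z.1 z.2)
  have hW : ∀ ρ z, 0 < W ρ z := fun ρ z => prod_pos fun p _ => cosh_pos _
  have hstep : ∀ ρ ∈ J, ((∏ p ∈ S, (p : ℝ) ^ (e ρ p).natAbs) ^ 2)⁻¹ *
        ∑ t ∈ T ρ, (∑ z ∈ E ρ t, s z.1 ^ 4 * s z.2 ^ 4) ^ 3 ≤
      M ^ 2 * ∑ z : X × X, (s z.1 * s z.2) ^ 6 * ((W ρ z) ^ 2)⁻¹ := by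
    intro ρ hρ
    set N : ℝ := ∏ p ∈ S, (p : ℝ) ^ (e ρ p).natAbs with hN
    have hNp : 0 < N := prod_pos fun p hp => pow_pos (by exact_mod_cast hS p hp) _
    have h1 : ∀ t ∈ T ρ, (∑ z ∈ E ρ t, s z.1 ^ 4 * s z.2 ^ 4) ^ 3 ≤
        (∑ z ∈ E ρ t, (s z.1 * s z.2) ^ 6 * ((W ρ z) ^ 2)⁻¹) * (N * M) ^ 2 := by
      intro t ht
      have h2 := holder_weight (E ρ t) (fun z => s z.1 * s z.2) (W ρ)
        (fun z _ => mul_nonneg (hs _) (hs _)) (fun z _ => hW ρ z)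
      have h3 : ∑ z ∈ E ρ t, (s z.1 * s z.2) ^ 3 * W ρ z ≤ N * M := by
        have := hf (E ρ t) (e ρ) (hQ ρ hρ t ht)
        rw [sqrt_mul_self hM0] at this
        refine le_trans (le_of_eq ?_) this
        refine sum_congr rfl fun z _ => ?_
        rw [show s z.1 ^ 6 * s z.2 ^ 6 = ((s z.1 * s z.2) ^ 3) ^ 2 by ring,
          sqrt_sq (pow_nonneg (mul_nonneg (hs _) (hs _)) _)]
      have h4 : 0 ≤ ∑ z ∈ E ρ t, (s z.1 * s z.2) ^ 3 * W ρ z := sum_nonneg fun z _ =>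
        mul_nonneg (pow_nonneg (mul_nonneg (hs _) (hs _)) _) (hW ρ z).le
      have h5 : 0 ≤ ∑ z ∈ E ρ t, (s z.1 * s z.2) ^ 6 * ((W ρ z) ^ 2)⁻¹ :=
        sum_nonneg fun z _ => mul_nonneg (pow_nonneg (mul_nonneg (hs _) (hs _)) _)
          (by have := hW ρ z; positivity)
      calc (∑ z ∈ E ρ t, s z.1 ^ 4 * s z.2 ^ 4) ^ 3
          = (∑ z ∈ E ρ t, (s z.1 * s z.2) ^ 4) ^ 3 := by
            congr 1
            exact sum_congr rfl fun z _ => by ring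
        _ ≤ _ := h2
        _ ≤ _ := mul_le_mul_of_nonneg_left (pow_le_pow_left₀ h4 h3 2) h5
    have h6 : ∑ t ∈ T ρ, ∑ z ∈ E ρ t, (s z.1 * s z.2) ^ 6 * ((W ρ z) ^ 2)⁻¹ ≤
        ∑ z : X × X, (s z.1 * s z.2) ^ 6 * ((W ρ z) ^ 2)⁻¹ := by
      rw [← sum_biUnion (fun t ht t' ht' hne => hdis ρ hρ t ht t' ht' hne)]
      exact sum_le_sum_of_subset_of_nonneg (subset_univ _) fun z _ _ =>
        mul_nonneg (pow_nonneg (mul_nonneg (hs _) (hs _)) _)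
          (by have := hW ρ z; positivity)
    calc (N ^ 2)⁻¹ * ∑ t ∈ T ρ, (∑ z ∈ E ρ t, s z.1 ^ 4 * s z.2 ^ 4) ^ 3
        ≤ (N ^ 2)⁻¹ * ∑ t ∈ T ρ, ((∑ z ∈ E ρ t, (s z.1 * s z.2) ^ 6 * ((W ρ z) ^ 2)⁻¹) *
            (N * M) ^ 2) := by
          refine mul_le_mul_of_nonneg_left (sum_le_sum h1) (by positivity)
      _ = M ^ 2 * ∑ t ∈ T ρ, ∑ z ∈ E ρ t, (s z.1 * s z.2) ^ 6 * ((W ρ z) ^ 2)⁻¹ := by
          rw [← sum_mul]
          field_simp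
      _ ≤ _ := mul_le_mul_of_nonneg_left h6 (by positivity)
  calc _ ≤ ∑ ρ ∈ J, M ^ 2 * ∑ z : X × X, (s z.1 * s z.2) ^ 6 * ((W ρ z) ^ 2)⁻¹ :=
        sum_le_sum hstep
    _ = M ^ 2 * ∑ z : X × X, (s z.1 * s z.2) ^ 6 * ∑ ρ ∈ J, ((W ρ z) ^ 2)⁻¹ := by
        rw [← mul_sum, sum_comm]
        simp only [mul_sum]
    _ ≤ M ^ 2 * ∑ z : X × X, (s z.1 * s z.2) ^ 6 * C := by
        refine mul_le_mul_of_nonneg_left (sum_le_sum fun z _ => ?_) (by positivity)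
        refine mul_le_mul_of_nonneg_left ?_ (pow_nonneg (mul_nonneg (hs _) (hs _)) _)
        refine le_trans (le_of_eq ?_) (hC fun p => f p z.1 z.2)
        refine sum_congr rfl fun ρ _ => ?_
        simp only [W, ← prod_pow, prod_inv_distrib]
    _ = C * M ^ 4 := by
        rw [← sum_mul, Fintype.sum_prod_type]
        simp only [mul_pow]
        rw [← sum_mul_sum]
        ring

end Pool.Agent.Work.MP_dc37f8_rat
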