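import Pool.Agent.Work.MP_dc37f8_rat.KeyField

/-!
# MP_dc37f8_co: the integral elements of `ℚ(√-d)`: norms, a `ℤ`-basis, the units
-/

open Finset

namespace Pool.Agent.Work.MP_dc37f8_rat

theorem rat_int_of_isIntegral {q : ℚ} (h : IsIntegral ℤ ((q : ℂ))) : ∃ n : ℤ, q = n := by
  have h1 : IsIntegral ℤ q := by
    rw [show (q : ℂ) = algebraMap ℚ ℂ q from rfl] at h
    exact (isIntegral_algebraMap_iff (algebraMap ℚ ℂ).injective).1 h
  obtain ⟨n, hn⟩ := IsIntegrallyClosed.isIntegral_iff.1 h1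
  exact ⟨n, by rw [← hn]; rfl⟩

theorem isIntegral_coe_iff {d : ℕ} {x : IQF d} : x ∈ OQ d ↔ IsIntegral ℤ (x : ℂ) := by
  rw [mem_OQ]
  exact (isIntegral_algebraMap_iff (A := IQF d) (B := ℂ) (R := ℤ) (x := x)
    (algebraMap (IQF d) ℂ).injective).symm

/-- Traces and norms: `x = a + b √-d` integral gives `2a, 2b ∈ ℤ` and `a² + d b² ∈ ℤ`. -/
theorem coords_of_mem {d : ℕ} (hd : Squarefree d) {x : IQF d} (hx : x ∈ OQ d) :
    ∃ n c m : ℤ, (x : ℂ) = ((n / 2 : ℚ) : ℂ) + ((c / 2 : ℚ) : ℂ) * sq d ∧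
      n ^ 2 + d * c ^ 2 = 4 * m ∧ ‖(x : ℂ)‖ ^ 2 = m := by
  obtain ⟨a, b, hab⟩ := mem_IQF.1 x.2
  have hint := isIntegral_coe_iff.1 hx
  have hconj : (starRingEnd ℂ) (x : ℂ) = a - b * sq d := by
    rw [hab]
    simp [sq, sub_eq_add_neg]
  have hint' : IsIntegral ℤ ((starRingEnd ℂ) (x : ℂ)) :=
    hint.map ((starRingEnd ℂ).toIntAlgHom)
  -- the trace
  have h1 : IsIntegral ℤ (((2 * a : ℚ)) : ℂ) := by
    have := hint.add hint'
    rw [hconj, hab] at this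
    have e1 : (((2 * a : ℚ)) : ℂ) = (a : ℂ) + b * sq d + (a - b * sq d) := by
      push_cast
      ring
    rw [e1]
    exact this
  obtain ⟨n, hn⟩ := rat_int_of_isIntegral h1
  -- the norm
  have h2 : IsIntegral ℤ (((a ^ 2 + d * b ^ 2 : ℚ)) : ℂ) := by
    have := hint.mul hint'
    rw [hconj, hab] at this
    have e1 : (((a ^ 2 + d * b ^ 2 : ℚ)) : ℂ) = ((a : ℂ) + b * sq d) * (a - b * sq d) := by
      push_cast
      linear_combination (b : ℂ) ^ 2 * sq_sq d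
    rw [e1]
    exact this
  obtain ⟨m, hm⟩ := rat_int_of_isIntegral h2
  -- the coefficient of `√-d`
  have hd0 : (d : ℚ) ≠ 0 := by
    have := hd.ne_zero
    exact_mod_cast this
  have h3 : (d * (2 * b)) ^ 2 = (d * (4 * m - n ^ 2) : ℚ) := by
    rw [← hm, ← hn]
    ring
  have h4 : IsIntegral ℤ (((d * (2 * b) : ℚ)) : ℂ) := by
    refine IsIntegral.of_pow (n := 2) two_pos ?_
    have h5 : ((((d * (2 * b) : ℚ)) : ℂ)) ^ 2 = ((d * (4 * m - n ^ 2) : ℤ) : ℂ) := by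
      have := congrArg (fun q : ℚ => (q : ℂ)) h3
      push_cast at this ⊢
      exact this
    rw [h5]
    exact isIntegral_intCast _
  obtain ⟨k, hk⟩ := rat_int_of_isIntegral h4
  have h6 : k ^ 2 = d * (4 * m - n ^ 2) := by
    rw [hk] at h3
    exact_mod_cast h3
  have h7 : (d : ℤ) ∣ k := by
    have h8 : Squarefree (d : ℤ) := Int.squarefree_natCast.2 hd
    exact (h8.dvd_pow_iff_dvd two_ne_zero).1 ⟨_, h6⟩
  obtain ⟨c, hc⟩ := h7
  have hb : 2 * b = c := by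
    have : (d : ℚ) * (2 * b) = d * c := by
      rw [hk, hc]
      push_cast
      ring
    exact mul_left_cancel₀ hd0 this
  have ha' : a = n / 2 := by rw [← hn]; ring
  have hb' : b = c / 2 := by rw [← hb]; ring
  refine ⟨n, c, m, ?_, ?_, ?_⟩
  · rw [hab, ha', hb']
  · have : ((n : ℚ) ^ 2 + d * c ^ 2) = 4 * m := by
      rw [← hm, ← hn, ← hb]
      ring
    exact_mod_cast this
  · have h9 : ((‖(x : ℂ)‖ ^ 2 : ℝ) : ℂ) = ((m : ℝ) : ℂ) := by
      have h10 := Complex.mul_conj (x : ℂ)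
      rw [← Complex.sq_norm] at h10
      rw [← h10, hconj, hab]
      have := congrArg (fun q : ℚ => (q : ℂ)) hm
      push_cast at this ⊢
      rw [← this]
      linear_combination -(b : ℂ) ^ 2 * sq_sq d
    exact_mod_cast h9

/-- Nonzero integral elements have absolute value at least one. -/
theorem one_le_norm {d : ℕ} (hd : Squarefree d) (x : IQF d) (hx : x ∈ OQ d) (h0 : x ≠ 0) :
    1 ≤ ‖(x : ℂ)‖ := by
  obtain ⟨n, c, m, -, -, hm⟩ := coords_of_mem hd hx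
  have h1 : 0 < ‖(x : ℂ)‖ := norm_pos_iff.2 (by simpa using h0)
  have h2 : (0 : ℝ) < m := by rw [← hm]; positivity
  have h3 : (1 : ℝ) ≤ m := by
    have : (0 : ℤ) < m := by exact_mod_cast h2
    exact_mod_cast this
  rw [← hm] at h3
  nlinarith

theorem sq_mem_IQF (d : ℕ) : sq d ∈ IQF d := mem_IQF.2 ⟨0, 1, by simp⟩

theorem sq_mem_OQ (d : ℕ) : (⟨sq d, sq_mem_IQF d⟩ : IQF d) ∈ OQ d := by
  rw [isIntegral_coe_iff]
  refine IsIntegral.of_pow (n := 2) two_pos ?_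
  show IsIntegral ℤ (sq d ^ 2)
  rw [pow_two, sq_sq, show (-(d : ℂ)) = ((-(d : ℤ) : ℤ) : ℂ) by push_cast; ring]
  exact isIntegral_intCast _

theorem sq_im (d : ℕ) : (sq d).im = Real.sqrt d := by simp [sq]
theorem sq_re (d : ℕ) : (sq d).re = 0 := by simp [sq]

/-- `O = ℤ + ℤ ω`. -/
theorem exists_basis {d : ℕ} (hd : Squarefree d) :
    ∃ ω ∈ OQ d, 0 < (ω : ℂ).im ∧ ∀ x, x ∈ OQ d ↔ ∃ a b : ℤ, x = a + b * ω := by
  have hd0 : 0 < d := Nat.pos_of_ne_zero hd.ne_zero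
  have hsq : 0 < Real.sqrt d := Real.sqrt_pos.2 (by exact_mod_cast hd0)
  have hcast : ∀ (n c : ℤ) (x : IQF d), (x : ℂ) = ((n / 2 : ℚ) : ℂ) + ((c / 2 : ℚ) : ℂ) * sq d →
      (x : ℂ).im = (c / 2 : ℝ) * Real.sqrt d := by
    intro n c x h
    rw [h]
    have e1 : (((n / 2 : ℚ) : ℂ)) = (((n / 2 : ℝ)) : ℂ) := by push_cast; ring
    have e2 : (((c / 2 : ℚ) : ℂ)) = (((c / 2 : ℝ)) : ℂ) := by push_cast; ring
    rw [e1, e2, Complex.add_im, Complex.ofReal_im, Complex.im_ofReal_mul, sq_im, zero_add]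
  by_cases hodd : ∃ x ∈ OQ d, ∃ n c : ℤ, Odd c ∧
      (x : ℂ) = ((n / 2 : ℚ) : ℂ) + ((c / 2 : ℚ) : ℂ) * sq d
  · obtain ⟨x, hx, n, c, ⟨k, hk⟩, hxe⟩ := hodd
    set ω : IQF d := x - (k : IQF d) * ⟨sq d, sq_mem_IQF d⟩ with hω
    have hkO : (k : IQF d) * ⟨sq d, sq_mem_IQF d⟩ ∈ OQ d := by
      rw [mem_OQ]
      exact (isIntegral_intCast _).mul (mem_OQ.1 (sq_mem_OQ d))
    have hωO : ω ∈ OQ d := (OQ d).sub_mem hx hkO
    have hωe : (ω : ℂ) = ((n / 2 : ℚ) : ℂ) + ((1 / 2 : ℚ) : ℂ) * sq d := by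
      have : (ω : ℂ) = (x : ℂ) - k * sq d := by rw [hω]; push_cast; rfl
      rw [this, hxe, hk]
      push_cast
      ring
    have him := hcast n 1 ω (by rw [hωe]; push_cast; ring)
    refine ⟨ω, hωO, by rw [him]; push_cast; positivity, fun y => ⟨fun hy => ?_, ?_⟩⟩
    · obtain ⟨n', c', m', hye, -, -⟩ := coords_of_mem hd hy
      have h1 : y - (c' : IQF d) * ω ∈ OQ d := by
        refine (OQ d).sub_mem hy ?_
        rw [mem_OQ]
        exact (isIntegral_intCast _).mul (mem_OQ.1 hωO)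
      have h2 : ((y - (c' : IQF d) * ω : IQF d) : ℂ) = (((n' - c' * n) / 2 : ℚ) : ℂ) := by
        have : ((y - (c' : IQF d) * ω : IQF d) : ℂ) = (y : ℂ) - c' * (ω : ℂ) := by push_cast; rfl
        rw [this, hye, hωe]
        push_cast
        ring
      rw [isIntegral_coe_iff, h2] at h1
      obtain ⟨a, ha⟩ := rat_int_of_isIntegral h1
      refine ⟨a, c', ?_⟩
      apply Subtype.ext
      have h3 : (y : ℂ) = ((y - (c' : IQF d) * ω : IQF d) : ℂ) + c' * (ω : ℂ) := by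
        push_cast
        ring
      rw [h3, h2, ha]
      push_cast
      ring
    · rintro ⟨a, b, rfl⟩
      rw [mem_OQ]
      exact (isIntegral_intCast _).add ((isIntegral_intCast _).mul (mem_OQ.1 hωO))
  · push Not at hodd
    refine ⟨⟨sq d, sq_mem_IQF d⟩, sq_mem_OQ d, by rw [sq_im]; exact hsq, fun y => ⟨fun hy => ?_, ?_⟩⟩
    · obtain ⟨n', c', m', hye, -, -⟩ := coords_of_mem hd hy
      have hce : Even c' := by
        by_contra h
        rw [Int.not_even_iff_odd] at h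
        exact hodd y hy n' c' h hye
      obtain ⟨b, hb⟩ := hce
      have h1 : y - (b : IQF d) * ⟨sq d, sq_mem_IQF d⟩ ∈ OQ d := by
        refine (OQ d).sub_mem hy ?_
        rw [mem_OQ]
        exact (isIntegral_intCast _).mul (mem_OQ.1 (sq_mem_OQ d))
      have h2 : ((y - (b : IQF d) * ⟨sq d, sq_mem_IQF d⟩ : IQF d) : ℂ) = ((n' / 2 : ℚ) : ℂ) := by
        have : ((y - (b : IQF d) * ⟨sq d, sq_mem_IQF d⟩ : IQF d) : ℂ) = (y : ℂ) - b * sq d := by
          push_cast; rfl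
        rw [this, hye, hb]
        push_cast
        ring
      rw [isIntegral_coe_iff, h2] at h1
      obtain ⟨a, ha⟩ := rat_int_of_isIntegral h1
      refine ⟨a, b, ?_⟩
      apply Subtype.ext
      have h3 : (y : ℂ) = ((y - (b : IQF d) * ⟨sq d, sq_mem_IQF d⟩ : IQF d) : ℂ) +
          b * sq d := by
        push_cast
        ring
      rw [h3, h2, ha]
      push_cast
      ring
    · rintro ⟨a, b, rfl⟩
      rw [mem_OQ]
      exact (isIntegral_intCast _).add ((isIntegral_intCast _).mul (mem_OQ.1 (sq_mem_OQ d)))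

/-- The coordinates of a unit. -/
theorem unit_coords {d : ℕ} (hd : Squarefree d) {x : IQF d} (hx : x ∈ OQ d)
    (h1 : ‖(x : ℂ)‖ = 1) : ∃ n c : ℤ,
      (x : ℂ) = ((n / 2 : ℚ) : ℂ) + ((c / 2 : ℚ) : ℂ) * sq d ∧ n ^ 2 + d * c ^ 2 = 4 := by
  obtain ⟨n, c, m, h2, h3, h4⟩ := coords_of_mem hd hx
  have : m = 1 := by
    rw [h1] at h4
    have : (m : ℝ) = 1 := by rw [← h4]; norm_num
    exact_mod_cast this
  exact ⟨n, c, h2, by rw [h3, this]; norm_num⟩

end Pool.Agent.Work.MP_dc37f8_rat
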