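import Pool.Agent.Work.MP_dc37f8_rat.LEVEL

/-!
# MP_dc37f8_co, rat: block PAIRS (helper96)
-/

set_option autoImplicit false

open Finset

open scoped Pointwise

namespace Pool.RAT

namespace PAIRS

open ENT2 LEVEL

section
variable {ω e : ℂ} {Q : Finset ℂ}

open Classical in
/-- the set of the classes -/
noncomputable def CC (ω e : ℂ) (Q : Finset ℂ) : Finset (Finset ℂ) := Q.image (cls ω e Q)

theorem cls_mem {z : ℂ} (hz : z ∈ Q) : cls ω e Q z ∈ CC ω e Q := mem_image_of_mem _ hz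

theorem cls_of_mem {z : ℂ} {A : Finset ℂ} (hA : A ∈ CC ω e Q) (hz : z ∈ A) :
    cls ω e Q z = A := by
  classical
  rw [CC, mem_image] at hA
  obtain ⟨q, hq, rfl⟩ := hA
  exact cls_congr (mem_cls.1 hz).2

theorem mem_Q {z : ℂ} {A : Finset ℂ} (hA : A ∈ CC ω e Q) (hz : z ∈ A) : z ∈ Q := by
  classical
  rw [CC, mem_image] at hA
  obtain ⟨q, hq, rfl⟩ := hA
  exact (mem_cls.1 hz).1

theorem nonempty {A : Finset ℂ} (hA : A ∈ CC ω e Q) : A.Nonempty := by
  classical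
  rw [CC, mem_image] at hA
  obtain ⟨q, hq, rfl⟩ := hA
  exact ⟨q, self_mem hq⟩

open Classical in
/-- the number of points in the classes with a property -/
theorem count (p : Finset ℂ → Prop) :
    (Q.filter (fun z => p (cls ω e Q z))).card = ∑ A ∈ (CC ω e Q).filter p, A.card := by
  rw [card_eq_sum_card_image (cls ω e Q) (Q.filter (fun z => p (cls ω e Q z)))]
  have h1 : (Q.filter (fun z => p (cls ω e Q z))).image (cls ω e Q) = (CC ω e Q).filter p := by
    ext A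
    simp only [mem_image, mem_filter, CC]
    constructor
    · rintro ⟨z, ⟨hz, hp⟩, rfl⟩; exact ⟨⟨z, hz, rfl⟩, hp⟩
    · rintro ⟨⟨z, hz, rfl⟩, hp⟩; exact ⟨z, ⟨hz, hp⟩, rfl⟩
  rw [h1]
  refine sum_congr rfl fun A hA => ?_
  rw [mem_filter] at hA
  congr 1
  ext z
  rw [mem_filter, mem_filter]
  constructor
  · rintro ⟨⟨hz, _⟩, rfl⟩; exact self_mem hz
  · intro hz
    have h2 := cls_of_mem hA.1 hz
    refine ⟨⟨mem_Q hA.1 hz, by rw [h2]; exact hA.2⟩, h2⟩

/-- Markov -/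
theorem markov {g : Finset ℂ → ℕ} {M L T : ℝ} (hT : 0 < T) (hL : 0 ≤ L)
    (hg : ∑ A ∈ CC ω e Q, (g A : ℝ) ≤ M) (hA : ∀ A ∈ CC ω e Q, (A.card : ℝ) ≤ L) :
    (((Q.filter (fun z => T < (g (cls ω e Q z) : ℝ))).card : ℕ) : ℝ) ≤ L * (M / T) := by
  classical
  rw [count (fun A => T < (g A : ℝ))]
  push_cast
  have h1 : ∑ A ∈ (CC ω e Q).filter (fun A => T < (g A : ℝ)), (A.card : ℝ) ≤
      (((CC ω e Q).filter (fun A => T < (g A : ℝ))).card : ℝ) * L := by
    rw [← nsmul_eq_mul]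
    exact sum_le_card_nsmul _ _ _ fun A hA' => hA A (mem_filter.1 hA').1
  have h2 : (((CC ω e Q).filter (fun A => T < (g A : ℝ))).card : ℝ) * T ≤ M := by
    refine le_trans ?_ hg
    rw [← nsmul_eq_mul]
    refine (card_nsmul_le_sum _ _ _ fun A hA' => (mem_filter.1 hA').2.le).trans ?_
    exact sum_le_sum_of_subset_of_nonneg (filter_subset _ _) fun _ _ _ => by positivity
  have h3 : (((CC ω e Q).filter (fun A => T < (g A : ℝ))).card : ℝ) ≤ M / T := by
    rw [le_div_iff₀ hT]; exact h2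
  calc _ ≤ _ := h1
    _ ≤ (M / T) * L := by gcongr
    _ = L * (M / T) := by ring

/-- the difference sets of a class with all classes -/
theorem sum_diff {A : Finset ℂ} (hA : A ∈ CC ω e Q) :
    ∑ B ∈ CC ω e Q, (A - B).card ≤ (Q - Q).card := by
  classical
  rw [← card_biUnion]
  · apply card_le_card
    intro x hx
    rw [mem_biUnion] at hx
    obtain ⟨B, hB, hx⟩ := hx
    rw [mem_sub] at hx
    obtain ⟨a, ha, b, hb, rfl⟩ := hx
    exact sub_mem_sub (mem_Q hA ha) (mem_Q hB hb)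
  · intro B hB B' hB' hne
    rw [Function.onFun, disjoint_left]
    intro x hx hx'
    rw [mem_sub] at hx hx'
    obtain ⟨a, ha, b, hb, rfl⟩ := hx
    obtain ⟨a', ha', b', hb', he⟩ := hx'
    apply hne
    rw [← cls_of_mem hB hb, ← cls_of_mem hB' hb']
    apply cls_congr
    have h1 : Or ω ((a - a') / e) := by
      have h2 := cls_of_mem hA ha'
      rw [← h2] at ha
      exact (mem_cls.1 ha).2
    have h3 : b - b' = a - a' := by linear_combination he
    rw [h3]; exact h1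

/-- the class plus the box -/
theorem sum_box (he : e ≠ 0) (N : ℕ) :
    ∑ A ∈ CC ω e Q, (A + box ω e N).card ≤ (Q + box ω e N).card := by
  classical
  rw [← card_biUnion]
  · apply card_le_card
    intro x hx
    rw [mem_biUnion] at hx
    obtain ⟨B, hB, hx⟩ := hx
    rw [mem_add] at hx
    obtain ⟨a, ha, b, hb, rfl⟩ := hx
    exact add_mem_add (mem_Q hB ha) hb
  · intro B hB B' hB' hne
    rw [Function.onFun, disjoint_left]
    intro x hx hx'
    rw [mem_add] at hx hx'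
    obtain ⟨a, ha, b, hb, rfl⟩ := hx
    obtain ⟨a', ha', b', hb', hee⟩ := hx'
    apply hne
    rw [← cls_of_mem hB ha, ← cls_of_mem hB' ha']
    apply cls_congr
    have h1 : Or ω (b / e) := box_mem_or he hb
    have h2 : Or ω (b' / e) := box_mem_or he hb'
    have h3 : (a - a') / e = b' / e + -(b / e) := by
      have : a - a' = b' - b := by linear_combination -hee
      rw [this]; ring
    rw [h3]; exact ox_add h2 (ox_neg h1)

/-- many translates of the rows -/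
theorem rows_le (he : e ≠ 0) (N : ℕ) (hN : 1 ≤ N) (A : Finset ℂ) :
    N * (A.image (fun z => (z / e).im)).card ≤ (A + box ω e N).card := by
  classical
  have hex : ∀ y ∈ A.image (fun z => (z / e).im), ∃ z ∈ A, (z / e).im = y := by
    intro y hy
    rw [mem_image] at hy
    obtain ⟨z, hz, rfl⟩ := hy
    exact ⟨z, hz, rfl⟩
  choose! r hr hr' using hex
  rw [← card_range N, ← card_product]
  apply card_le_card_of_injOn (fun x => r x.2 + ((x.1 : ℂ) + ((0 : ℕ) : ℂ) * ω) * e)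
  · rintro ⟨i, y⟩ hx
    rw [mem_coe, mem_product] at hx
    rw [card_range]
    rw [mem_coe]
    refine add_mem_add (hr y hx.2) ?_
    rw [box, mem_image]
    exact ⟨(i, 0), mem_product.2 ⟨hx.1, mem_range.2 (by omega)⟩, rfl⟩
  · rintro ⟨i, y⟩ hx ⟨i', y'⟩ hx' heq
    rw [mem_coe, mem_product] at hx hx'
    simp only at heq
    have h1 : r y / e + (i : ℂ) = r y' / e + (i' : ℂ) := by
      have := congrArg (fun z => z / e) heq
      simp only [Nat.cast_zero, zero_mul, add_zero] at this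
      rw [add_div, add_div, mul_div_cancel_right₀ _ he, mul_div_cancel_right₀ _ he] at this
      exact this
    have h2 : y = y' := by
      have := congrArg Complex.im h1
      simp only [Complex.add_im, Complex.natCast_im, add_zero] at this
      rw [hr' y hx.2, hr' y' hx'.2] at this
      exact this
    subst h2
    have h3 : (i : ℂ) = (i' : ℂ) := add_left_cancel h1
    have h4 : i = i' := by exact_mod_cast h3
    rw [h4]

/-- many translates of one row -/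
theorem row_le (hω : ω.im ≠ 0) (he : e ≠ 0) (N : ℕ) (hN : 1 ≤ N) (A : Finset ℂ) (y : ℝ) :
    N * (A.filter (fun z => (z / e).im = y)).card ≤ (A + box ω e N).card := by
  classical
  rw [← card_range N, ← card_product]
  apply card_le_card_of_injOn (fun x => x.2 + (((0 : ℕ) : ℂ) + (x.1 : ℂ) * ω) * e)
  · rintro ⟨i, z⟩ hx
    rw [mem_coe, mem_product] at hx
    rw [card_range]
    rw [mem_coe]
    refine add_mem_add (mem_filter.1 hx.2).1 ?_
    rw [box, mem_image]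
    exact ⟨(0, i), mem_product.2 ⟨mem_range.2 (by omega), hx.1⟩, rfl⟩
  · rintro ⟨i, z⟩ hx ⟨i', z'⟩ hx' heq
    rw [mem_coe, mem_product, mem_filter] at hx hx'
    simp only at heq
    have h1 : z / e + (i : ℂ) * ω = z' / e + (i' : ℂ) * ω := by
      have := congrArg (fun z => z / e) heq
      simp only [Nat.cast_zero, zero_add] at this
      rw [add_div, add_div, mul_div_cancel_right₀ _ he, mul_div_cancel_right₀ _ he] at this
      exact this
    have h2 : i = i' := by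
      have := congrArg Complex.im h1
      simp only [Complex.add_im, Complex.mul_im, Complex.natCast_im, Complex.natCast_re, zero_mul,
        add_zero] at this
      rw [hx.2.2, hx'.2.2, add_right_inj] at this
      have h3 := mul_right_cancel₀ hω this
      exact_mod_cast h3
    subst h2
    have h3 : z / e = z' / e := add_right_cancel h1
    have h4 : z = z' := by
      field_simp at h3
      exact h3
    rw [h4]

end

end PAIRS

open ENT2 PAIRS

open Classical in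
/-- **PAIRS.** -/
theorem stmt_PAIRS : Stmt_PAIRS := by
  intro K ε hε
  obtain ⟨K₂, hK₂⟩ := exists_nat_gt ((9 * (K : ℝ) ^ 2 + 9) / ε)
  refine ⟨K₂, ?_⟩
  intro N Q ω e hN hω he hQ hd hb
  have hQ0 : (0 : ℝ) < Q.card := by exact_mod_cast hQ.card_pos
  have hK2 : (0 : ℝ) < K₂ := lt_of_le_of_lt (by positivity) hK₂
  obtain ⟨q₀, hq₀⟩ := hQ
  have hCC : (CC ω e Q).Nonempty := ⟨_, cls_mem (e := e) hq₀⟩
  obtain ⟨ν, hν⟩ : ∃ ν : ℝ, ν = ((CC ω e Q).card : ℝ) := ⟨_, rfl⟩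
  have hν0 : 0 < ν := by rw [hν]; exact_mod_cast hCC.card_pos
  obtain ⟨s, hs⟩ : ∃ s : ℝ, s = Q.card / ν := ⟨_, rfl⟩
  have hs0 : 0 < s := by rw [hs]; positivity
  have hsν : s * ν = Q.card := by rw [hs]; field_simp
  have hdr : ((Q - Q).card : ℝ) ≤ K * Q.card := by exact_mod_cast hd
  have hbr : ((Q + box ω e N).card : ℝ) ≤ K * Q.card := by exact_mod_cast hb
  -- the classes are small
  have hsmall : ∀ A ∈ CC ω e Q, (A.card : ℝ) ≤ K * s := by
    intro A hA
    have h1 : ∑ B ∈ CC ω e Q, A.card ≤ (Q - Q).card := by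
      refine le_trans ?_ (sum_diff hA)
      exact sum_le_sum fun B hB => by
        obtain ⟨b, hb⟩ := nonempty hB
        exact card_le_card_sub_right (s := A) ⟨b, hb⟩
    rw [sum_const, smul_eq_mul] at h1
    have h2 : ν * A.card ≤ K * Q.card := by
      rw [hν]
      refine le_trans ?_ hdr
      exact_mod_cast h1
    rw [← hsν] at h2
    have h3 : ν * A.card ≤ ν * (K * s) := by linarith
    exact le_of_mul_le_mul_left h3 hν0
  have hKs : (0 : ℝ) ≤ K * s := by positivity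
  have hT : 0 < K₂ * s := by positivity
  have hval : K * s * (K * Q.card / (K₂ * s)) = (K : ℝ) ^ 2 * Q.card / K₂ := by
    field_simp
  -- the exceptional points
  obtain ⟨Q1, hQ1⟩ : ∃ Q1, Q1 = Q.filter (fun z => (K₂ : ℝ) * (cls ω e Q z).card < s) := ⟨_, rfl⟩
  obtain ⟨Q2, hQ2⟩ : ∃ Q2, Q2 = Q.filter
    (fun z => (K₂ : ℝ) * s < ((cls ω e Q z + box ω e N).card : ℝ)) := ⟨_, rfl⟩
  obtain ⟨Q3, hQ3⟩ : ∃ Q3 : ℂ → Finset ℂ, Q3 = fun x => Q.filter
    (fun z => (K₂ : ℝ) * s < ((cls ω e Q x - cls ω e Q z).card : ℝ)) := ⟨_, rfl⟩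
  have c1 : (Q1.card : ℝ) ≤ 1 / K₂ * Q.card := by
    rw [hQ1, count (fun A => (K₂ : ℝ) * (A.card : ℝ) < s)]
    push_cast
    have h1 : ∑ A ∈ (CC ω e Q).filter (fun A => (K₂ : ℝ) * (A.card : ℝ) < s), (A.card : ℝ) ≤
        (((CC ω e Q).filter (fun A => (K₂ : ℝ) * (A.card : ℝ) < s)).card : ℝ) * (s / K₂) := by
      rw [← nsmul_eq_mul]
      refine sum_le_card_nsmul _ _ _ fun A hA' => ?_
      have := (mem_filter.1 hA').2
      rw [le_div_iff₀ hK2]
      linarith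
    refine h1.trans ?_
    have h2 : (((CC ω e Q).filter (fun A => (K₂ : ℝ) * (A.card : ℝ) < s)).card : ℝ) ≤ ν := by
      rw [hν]; exact_mod_cast card_le_card (filter_subset _ _)
    calc _ ≤ ν * (s / K₂) := by gcongr
      _ = 1 / K₂ * Q.card := by rw [← hsν]; ring
  have c2 : (Q2.card : ℝ) ≤ (K : ℝ) ^ 2 / K₂ * Q.card := by
    rw [hQ2]
    refine (markov (g := fun A => (A + box ω e N).card) hT hKs (M := K * Q.card) ?_ hsmall).trans
      (le_of_eq ?_)
    · refine le_trans ?_ hbr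
      exact_mod_cast sum_box he N
    · rw [hval]; ring
  have c3 : ∀ x ∈ Q, ((Q3 x).card : ℝ) ≤ (K : ℝ) ^ 2 / K₂ * Q.card := by
    intro x hx
    rw [hQ3]
    refine (markov (g := fun A => (cls ω e Q x - A).card) hT hKs (M := K * Q.card) ?_
      hsmall).trans (le_of_eq ?_)
    · refine le_trans ?_ hdr
      exact_mod_cast sum_diff (cls_mem hx)
    · rw [hval]; ring
  refine ⟨s, hs0, ?_⟩
  -- the bad triples
  obtain ⟨G, hG⟩ : ∃ G, G = (Q ×ˢ Q ×ˢ Q).filter (fun z =>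
    Gd K₂ N s e (cls ω e Q z.1) (cls ω e Q z.2.1) (cls ω e Q z.2.2)) := ⟨_, rfl⟩
  rw [← hG]
  obtain ⟨Q12, hQ12⟩ : ∃ Q12, Q12 = Q1 ∪ Q2 := ⟨_, rfl⟩
  have hcover : (Q ×ˢ Q ×ˢ Q) ⊆ G ∪ ((Q12 ×ˢ Q ×ˢ Q) ∪ ((Q ×ˢ Q12 ×ˢ Q) ∪ ((Q ×ˢ Q ×ˢ Q12) ∪
      (((Q ×ˢ Q).sigma (fun x => Q3 x.1)).image (fun x => (x.1.1, x.2, x.1.2)) ∪
      (((Q ×ˢ Q).sigma (fun x => Q3 x.1)).image (fun x => (x.1.1, x.1.2, x.2)) ∪
      ((Q ×ˢ Q).sigma (fun x => Q3 x.1)).image (fun x => (x.1.2, x.1.1, x.2))))))) := by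
    rintro ⟨x, y, z⟩ hz
    rw [mem_product, mem_product] at hz
    obtain ⟨hx, hy, hz⟩ := hz
    simp only at hx hy hz
    by_contra hcon
    simp only [mem_union, not_or] at hcon
    obtain ⟨n0, n1, n2, n3, n4, n5, n6⟩ := hcon
    apply n0
    rw [hG, mem_filter]
    refine ⟨mem_product.2 ⟨hx, mem_product.2 ⟨hy, hz⟩⟩, ?_⟩
    have a1 : x ∉ Q12 := fun h => n1 (mem_product.2 ⟨h, mem_product.2 ⟨hy, hz⟩⟩)
    have a2 : y ∉ Q12 := fun h => n2 (mem_product.2 ⟨hx, mem_product.2 ⟨h, hz⟩⟩)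
    have a3 : z ∉ Q12 := fun h => n3 (mem_product.2 ⟨hx, mem_product.2 ⟨hy, h⟩⟩)
    have a4 : y ∉ Q3 x := fun h => n4 (mem_image.2 ⟨⟨(x, z), y⟩,
      mem_sigma.2 ⟨mem_product.2 ⟨hx, hz⟩, h⟩, rfl⟩)
    have a5 : z ∉ Q3 x := fun h => n5 (mem_image.2 ⟨⟨(x, y), z⟩,
      mem_sigma.2 ⟨mem_product.2 ⟨hx, hy⟩, h⟩, rfl⟩)
    have a6 : z ∉ Q3 y := fun h => n6 (mem_image.2 ⟨⟨(y, x), z⟩,
      mem_sigma.2 ⟨mem_product.2 ⟨hy, hx⟩, h⟩, rfl⟩)
    have key : ∀ p ∈ Q, p ∉ Q12 → s ≤ K₂ * (cls ω e Q p).card ∧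
        ((cls ω e Q p + box ω e N).card : ℝ) ≤ K₂ * s := by
      intro p hp hn
      rw [hQ12, mem_union, not_or, hQ1, hQ2, mem_filter, mem_filter] at hn
      constructor
      · by_contra h; exact hn.1 ⟨hp, not_le.1 h⟩
      · by_contra h; exact hn.2 ⟨hp, not_le.1 h⟩
    have key3 : ∀ p ∈ Q, ∀ q ∈ Q, q ∉ Q3 p →
        ((cls ω e Q p - cls ω e Q q).card : ℝ) ≤ K₂ * s := by
      intro p hp q hq hn
      rw [hQ3] at hn
      by_contra h
      exact hn (mem_filter.2 ⟨hq, not_le.1 h⟩)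
    refine ⟨⟨(key x hx a1).1, (key y hy a2).1, (key z hz a3).1⟩,
      ⟨key3 x hx y hy a4, key3 x hx z hz a5, key3 y hy z hz a6⟩, ?_⟩
    intro E hE
    have hE' : ((E + box ω e N).card : ℝ) ≤ K₂ * s := by
      rw [mem_insert, mem_insert, mem_singleton] at hE
      rcases hE with rfl | rfl | rfl
      · exact (key x hx a1).2
      · exact (key y hy a2).2
      · exact (key z hz a3).2
    constructor
    · refine le_trans ?_ hE'
      exact_mod_cast rows_le (ω := ω) he N hN E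
    · intro t
      refine le_trans ?_ hE'
      exact_mod_cast row_le hω he N hN E t
  have hc12 : (Q12.card : ℝ) ≤ ((K : ℝ) ^ 2 + 1) / K₂ * Q.card := by
    have : (Q12.card : ℝ) ≤ Q1.card + Q2.card := by
      rw [hQ12]; exact_mod_cast card_union_le _ _
    calc _ ≤ _ := this
      _ ≤ 1 / K₂ * Q.card + (K : ℝ) ^ 2 / K₂ * Q.card := add_le_add c1 c2
      _ = _ := by ring
  have hc3 : ((((Q ×ˢ Q).sigma (fun x => Q3 x.1)).card : ℕ) : ℝ) ≤
      (K : ℝ) ^ 2 / K₂ * (Q.card : ℝ) ^ 3 := by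
    rw [card_sigma]
    push_cast
    calc _ ≤ ∑ _x ∈ Q ×ˢ Q, (K : ℝ) ^ 2 / K₂ * Q.card :=
          sum_le_sum fun x hx => c3 x.1 (mem_product.1 hx).1
      _ = _ := by rw [sum_const, nsmul_eq_mul, card_product]; push_cast; ring
  have htot : (Q.card : ℝ) ^ 3 ≤ G.card + (3 * (((K : ℝ) ^ 2 + 1) / K₂ * (Q.card : ℝ) ^ 3) +
      3 * ((K : ℝ) ^ 2 / K₂ * (Q.card : ℝ) ^ 3)) := by
    have h1 := card_le_card hcover
    have h2 : ((Q ×ˢ Q ×ˢ Q).card : ℝ) = (Q.card : ℝ) ^ 3 := by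
      rw [card_product, card_product]; push_cast; ring
    rw [← h2]
    have h3 : ((Q ×ˢ Q ×ˢ Q).card : ℝ) ≤ G.card + ((Q12 ×ˢ Q ×ˢ Q).card +
        ((Q ×ˢ Q12 ×ˢ Q).card + ((Q ×ˢ Q ×ˢ Q12).card +
        (((Q ×ˢ Q).sigma (fun x => Q3 x.1)).card + (((Q ×ˢ Q).sigma (fun x => Q3 x.1)).card +
        ((Q ×ˢ Q).sigma (fun x => Q3 x.1)).card))))) := by
      norm_cast
      refine h1.trans ((card_union_le _ _).trans ?_)
      refine Nat.add_le_add_left ((card_union_le _ _).trans ?_) _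
      refine Nat.add_le_add_left ((card_union_le _ _).trans ?_) _
      refine Nat.add_le_add_left ((card_union_le _ _).trans ?_) _
      refine Nat.add_le_add_left ((card_union_le _ _).trans ?_) _
      refine Nat.add_le_add card_image_le ((card_union_le _ _).trans ?_)
      exact Nat.add_le_add card_image_le card_image_le
    refine h3.trans ?_
    have h4 : ((Q12 ×ˢ Q ×ˢ Q).card : ℝ) ≤ ((K : ℝ) ^ 2 + 1) / K₂ * (Q.card : ℝ) ^ 3 := by
      rw [card_product, card_product]; push_cast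
      calc _ ≤ (((K : ℝ) ^ 2 + 1) / K₂ * Q.card) * ((Q.card : ℝ) * Q.card) := by gcongr
        _ = _ := by ring
    have h5 : ((Q ×ˢ Q12 ×ˢ Q).card : ℝ) ≤ ((K : ℝ) ^ 2 + 1) / K₂ * (Q.card : ℝ) ^ 3 := by
      rw [card_product, card_product]; push_cast
      calc _ ≤ (Q.card : ℝ) * ((((K : ℝ) ^ 2 + 1) / K₂ * Q.card) * Q.card) := by gcongr
        _ = _ := by ring
    have h6 : ((Q ×ˢ Q ×ˢ Q12).card : ℝ) ≤ ((K : ℝ) ^ 2 + 1) / K₂ * (Q.card : ℝ) ^ 3 := by
      rw [card_product, card_product]; push_cast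
      calc _ ≤ (Q.card : ℝ) * (Q.card * (((K : ℝ) ^ 2 + 1) / K₂ * Q.card)) := by gcongr
        _ = _ := by ring
    rw [h2]
    linarith
  have hfin : 3 * (((K : ℝ) ^ 2 + 1) / K₂ * (Q.card : ℝ) ^ 3) +
      3 * ((K : ℝ) ^ 2 / K₂ * (Q.card : ℝ) ^ 3) ≤ ε * (Q.card : ℝ) ^ 3 := by
    have h1 : (6 * (K : ℝ) ^ 2 + 3) / K₂ ≤ ε := by
      rw [div_le_iff₀ hK2]
      rw [div_lt_iff₀ hε] at hK₂
      nlinarith [sq_nonneg (K : ℝ)]
    calc _ = (6 * (K : ℝ) ^ 2 + 3) / K₂ * (Q.card : ℝ) ^ 3 := by ring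
      _ ≤ _ := by gcongr
  linarith

end Pool.RAT
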