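import Pool.Agent.Work.MP_dc37f8_rat.Interface

/-!
# Block RED1 (helper24)
-/

set_option autoImplicit false

open Finset

namespace Pool.RAT

open Pool.BK Pool.BD Pool.RF

open scoped Pointwise

namespace RED1

open Classical in
/-- triples of distinct points, the first one in `R`, the others in `Q₁` -/
noncomputable def X (R Q₁ : Finset ℂ) : Finset (ℂ × ℂ × ℂ) :=
  (R ×ˢ Q₁ ×ˢ Q₁).filter (fun z => z.1 ≠ z.2.1 ∧ z.2.1 ≠ z.2.2 ∧ z.1 ≠ z.2.2)

lemma mem_X {R Q₁ : Finset ℂ} {z : ℂ × ℂ × ℂ} : z ∈ X R Q₁ ↔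
    (z.1 ∈ R ∧ z.2.1 ∈ Q₁ ∧ z.2.2 ∈ Q₁) ∧ z.1 ≠ z.2.1 ∧ z.2.1 ≠ z.2.2 ∧ z.1 ≠ z.2.2 := by
  unfold X
  rw [Finset.mem_filter, Finset.mem_product, Finset.mem_product]

open Classical in
lemma card_X_ge (R Q₁ : Finset ℂ) (hq : 6 ≤ Q₁.card) :
    (R.card : ℝ) * ((Q₁.card : ℝ) ^ 2 / 2) ≤ ((X R Q₁).card : ℝ) := by
  have hsub : R ×ˢ Q₁ ×ˢ Q₁ ⊆ X R Q₁ ∪ ((R ×ˢ Q₁).image (fun z => (z.1, z.1, z.2)) ∪
      ((R ×ˢ Q₁).image (fun z => (z.1, z.2, z.2)) ∪
        (R ×ˢ Q₁).image (fun z => (z.1, z.2, z.1)))) := by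
    intro z hz
    rw [Finset.mem_product, Finset.mem_product] at hz
    by_cases h1 : z.1 = z.2.1
    · refine Finset.mem_union_right _ (Finset.mem_union_left _ ?_)
      refine Finset.mem_image.2 ⟨(z.1, z.2.2), Finset.mem_product.2 ⟨hz.1, hz.2.2⟩, ?_⟩
      exact Prod.ext rfl (Prod.ext h1 rfl)
    · by_cases h2 : z.2.1 = z.2.2
      · refine Finset.mem_union_right _ (Finset.mem_union_right _ (Finset.mem_union_left _ ?_))
        refine Finset.mem_image.2 ⟨(z.1, z.2.1), Finset.mem_product.2 ⟨hz.1, hz.2.1⟩, ?_⟩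
        exact Prod.ext rfl (Prod.ext rfl h2)
      · by_cases h3 : z.1 = z.2.2
        · refine Finset.mem_union_right _ (Finset.mem_union_right _ (Finset.mem_union_right _ ?_))
          refine Finset.mem_image.2 ⟨(z.1, z.2.1), Finset.mem_product.2 ⟨hz.1, hz.2.1⟩, ?_⟩
          exact Prod.ext rfl (Prod.ext rfl h3)
        · exact Finset.mem_union_left _ (mem_X.2 ⟨hz, h1, h2, h3⟩)
  have hc := Finset.card_le_card hsub
  have hu1 := Finset.card_union_le (X R Q₁) ((R ×ˢ Q₁).image (fun z => (z.1, z.1, z.2)) ∪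
      ((R ×ˢ Q₁).image (fun z => (z.1, z.2, z.2)) ∪
        (R ×ˢ Q₁).image (fun z => (z.1, z.2, z.1))))
  have hu2 := Finset.card_union_le ((R ×ˢ Q₁).image (fun z => (z.1, z.1, z.2)))
      ((R ×ˢ Q₁).image (fun z => (z.1, z.2, z.2)) ∪ (R ×ˢ Q₁).image (fun z => (z.1, z.2, z.1)))
  have hu3 := Finset.card_union_le ((R ×ˢ Q₁).image (fun z => (z.1, z.2, z.2)))
      ((R ×ˢ Q₁).image (fun z => (z.1, z.2, z.1)))
  have hi1 : ((R ×ˢ Q₁).image (fun z => (z.1, z.1, z.2))).card ≤ R.card * Q₁.card := by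
    refine Finset.card_image_le.trans ?_
    rw [Finset.card_product]
  have hi2 : ((R ×ˢ Q₁).image (fun z => (z.1, z.2, z.2))).card ≤ R.card * Q₁.card := by
    refine Finset.card_image_le.trans ?_
    rw [Finset.card_product]
  have hi3 : ((R ×ˢ Q₁).image (fun z => (z.1, z.2, z.1))).card ≤ R.card * Q₁.card := by
    refine Finset.card_image_le.trans ?_
    rw [Finset.card_product]
  rw [Finset.card_product, Finset.card_product] at hc
  have hN : R.card * (Q₁.card * Q₁.card) ≤ (X R Q₁).card + 3 * (R.card * Q₁.card) := by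
    omega
  have hR : (R.card : ℝ) * ((Q₁.card : ℝ) * Q₁.card) ≤
      ((X R Q₁).card : ℝ) + 3 * ((R.card : ℝ) * Q₁.card) := by exact_mod_cast hN
  have hq' : (6 : ℝ) ≤ Q₁.card := by exact_mod_cast hq
  have hR0 : (0 : ℝ) ≤ R.card := Nat.cast_nonneg _
  nlinarith [mul_nonneg hR0 (mul_nonneg (by linarith : (0 : ℝ) ≤ Q₁.card)
    (by linarith : (0 : ℝ) ≤ (Q₁.card : ℝ) - 6))]

lemma mem_st {P : Finset ℂ} {g : Gp} {p : ℂ} : p ∈ st P g ↔ p ∈ P ∧ g p ∈ P := by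
  unfold st
  rw [Finset.mem_filter]

open Classical in
lemma card_N_le (R Q₁ : Finset ℂ) (g : Gp) :
    ((X R Q₁).filter (fun x => act g x ∈ X R Q₁)).card ≤
      (st R g).card * ((st Q₁ g).card * (st Q₁ g).card) := by
  rw [← Finset.card_product, ← Finset.card_product]
  refine Finset.card_le_card ?_
  intro x hx
  rw [Finset.mem_filter] at hx
  have h1 := mem_X.1 hx.1
  have h2 := mem_X.1 hx.2
  rw [Finset.mem_product, Finset.mem_product, mem_st, mem_st, mem_st]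
  exact ⟨⟨h1.1.1, h2.1.1⟩, ⟨h1.1.2.1, h2.1.2.1⟩, ⟨h1.1.2.2, h2.1.2.2⟩⟩

lemma st_card_le {P Q : Finset ℂ} (h : P ⊆ Q) (g : Gp) : (st P g).card ≤ (st Q g).card := by
  refine Finset.card_le_card ?_
  intro p hp
  rw [mem_st] at hp ⊢
  exact ⟨h hp.1, h hp.2⟩

lemma st_card_le' (P : Finset ℂ) (g : Gp) : (st P g).card ≤ P.card := by
  unfold st
  exact Finset.card_filter_le _ _

lemma dir_val {g : Gp} (hg : IsDir g) (z : ℂ) : g z = lp g * z + g 0 := by
  obtain ⟨w, t, -, h⟩ := hg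
  unfold lp
  rw [h z, h 1, h 0]
  ring

lemma dir_ext {g g' : Gp} (hg : IsDir g) (hg' : IsDir g') (hl : lp g = lp g') {p : ℂ}
    (hp : g p = g' p) : g = g' := by
  have h0 : g 0 = g' 0 := by
    have h1 := dir_val hg p
    have h2 := dir_val hg' p
    rw [h1, h2, hl] at hp
    exact add_left_cancel hp
  refine Equiv.ext fun z => ?_
  rw [dir_val hg z, dir_val hg' z, hl, h0]

lemma sum_st_le {𝒢 : Finset Gp} {W P R : Finset ℂ} (hD : ∀ g ∈ 𝒢, IsDir g)
    (hW : ∀ g ∈ 𝒢, lp g ∈ W) (hR : R ⊆ P) :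
    ∑ g ∈ 𝒢, (st R g).card ≤ W.card * (P.card * P.card) := by
  rw [← Finset.card_sigma, ← Finset.card_product, ← Finset.card_product]
  refine Finset.card_le_card_of_injOn (fun z => (lp z.1, z.2, z.1 z.2)) ?_ ?_
  · intro z hz
    have hz' := Finset.mem_sigma.1 (Finset.mem_coe.1 hz)
    have h2 := mem_st.1 hz'.2
    exact Finset.mem_coe.2 (Finset.mem_product.2 ⟨hW _ hz'.1,
      Finset.mem_product.2 ⟨hR h2.1, hR h2.2⟩⟩)
  · rintro ⟨g, p⟩ hz ⟨g', p'⟩ hz' heq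
    have hg := (Finset.mem_sigma.1 (Finset.mem_coe.1 hz)).1
    have hg' := (Finset.mem_sigma.1 (Finset.mem_coe.1 hz')).1
    simp only [Prod.mk.injEq] at heq
    obtain ⟨h1, h2, h3⟩ := heq
    subst h2
    have := dir_ext (hD _ hg) (hD _ hg') h1 h3
    subst this
    rfl

open Classical in
lemma sum_st_eq {𝒢 : Finset Gp} {R : Finset ℂ} :
    ∑ g ∈ 𝒢, (st R g).card = ∑ p ∈ R, (𝒢.filter (fun g => g p ∈ R)).card := by
  have h1 : ∀ g ∈ 𝒢, (st R g).card = ∑ p ∈ R, if g p ∈ R then 1 else 0 := by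
    intro g _
    rw [← Finset.card_filter]
    refine congrArg Finset.card ?_
    ext p
    rw [mem_st, Finset.mem_filter]
  rw [Finset.sum_congr rfl h1, Finset.sum_comm]
  refine Finset.sum_congr rfl fun p _ => ?_
  rw [Finset.card_filter]

end RED1

open RED1

set_option maxHeartbeats 4000000 in
theorem stmt_RED1 : Stmt_RED1 := by
  classical
  intro K₁ θ hK hθ
  have hK0 : (0 : ℝ) < K₁ := by linarith
  refine ⟨θ ^ 2 / (24 * K₁ ^ 4), by positivity, ?_⟩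
  intro L
  set η : ℝ := θ ^ 2 / (24 * K₁ ^ 4) with hη
  have hη0 : 0 < η := by rw [hη]; positivity
  refine ⟨η / (L + 1), ⌈6 * K₁⌉₊, by positivity, ?_⟩
  set ε : ℝ := η / (L + 1) with hε
  have hε0 : 0 < ε := by rw [hε]; positivity
  intro P 𝒢 Q W Q₁ hn hD hCS hT hQP hWL hsum hQ₁ hPK
  set n : ℝ := (P.card : ℝ) with hndef
  set R : Finset ℂ := Q.filter (fun p => ((𝒢.filter (fun g => lp g ∈ W ∧
    ε * n ≤ ((st Q₁ g).card : ℝ) ∧ g p ∈ Q)).card : ℝ) < η * n) with hRdef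
  have hRQ : R ⊆ Q := Finset.filter_subset _ _
  by_contra hcon
  push Not at hcon
  have hcon' : θ * n < (R.card : ℝ) := hcon
  have hn6 : 6 * K₁ ≤ n := (Nat.le_ceil _).trans (by rw [hndef]; exact_mod_cast hn)
  have hn0 : 0 < n := by linarith
  have hq6 : (6 : ℝ) ≤ Q₁.card := by
    have h1 : 6 * K₁ ≤ K₁ * Q₁.card := hn6.trans hPK
    have h2 : K₁ * 6 ≤ K₁ * Q₁.card := by linarith
    exact le_of_mul_le_mul_left h2 hK0
  have hq6' : 6 ≤ Q₁.card := by exact_mod_cast hq6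
  have hX := card_X_ge R Q₁ hq6'
  have hRn : (R.card : ℝ) ≤ n := by
    rw [hndef]
    exact_mod_cast Finset.card_le_card (hRQ.trans hQP)
  have hQ₁n : (Q₁.card : ℝ) ≤ n := by
    rw [hndef]
    exact_mod_cast Finset.card_le_card (hQ₁.trans hQP)
  have hXT : X R Q₁ ⊆ E3.T3 P := by
    intro z hz
    have hz' := mem_X.1 hz
    exact E3.mem_T3.2 ⟨⟨hQP (hRQ hz'.1.1), hQP (hQ₁ hz'.1.2.1), hQP (hQ₁ hz'.1.2.2)⟩, hz'.2⟩
  have hcs := hCS (X R Q₁) hXT (fun _ => (1 : ℝ)) (fun _ => zero_le_one)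
  set S : ℝ := ∑ g ∈ 𝒢, (((X R Q₁).filter (fun x => act g x ∈ X R Q₁)).card : ℝ) with hS
  have hcs' : ((X R Q₁).card : ℝ) ^ 2 ≤ 12 * (TC P).card * S := by
    have e1 : (∑ x ∈ X R Q₁, (1 : ℝ)) = ((X R Q₁).card : ℝ) := by
      rw [Finset.sum_const, nsmul_eq_mul, mul_one]
    have e2 : (∑ g ∈ 𝒢, ∑ x ∈ (X R Q₁).filter (fun x => act g x ∈ X R Q₁),
        (1 : ℝ) * 1) = S := by
      rw [hS]
      refine Finset.sum_congr rfl fun g _ => ?_
      rw [Finset.sum_const, nsmul_eq_mul, mul_one, mul_one]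
    rw [e1, e2] at hcs
    exact hcs
  -- the three groups of isometries
  have hNg : ∀ g ∈ 𝒢, (((X R Q₁).filter (fun x => act g x ∈ X R Q₁)).card : ℝ) ≤
      (if lp g ∉ W then ((st Q g).card : ℝ) ^ 3 else 0) +
      (if lp g ∈ W then ε * n ^ 2 * ((st R g).card : ℝ) else 0) +
      (if lp g ∈ W ∧ ε * n ≤ ((st Q₁ g).card : ℝ) then n ^ 2 * ((st R g).card : ℝ) else 0) := by
    intro g _
    have h1 : (((X R Q₁).filter (fun x => act g x ∈ X R Q₁)).card : ℝ) ≤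
        ((st R g).card : ℝ) * (((st Q₁ g).card : ℝ) * (st Q₁ g).card) := by
      exact_mod_cast card_N_le R Q₁ g
    have hr0 : (0 : ℝ) ≤ ((st R g).card : ℝ) := Nat.cast_nonneg _
    have hq0 : (0 : ℝ) ≤ ((st Q₁ g).card : ℝ) := Nat.cast_nonneg _
    have hqn : ((st Q₁ g).card : ℝ) ≤ n := by
      have : ((st Q₁ g).card : ℝ) ≤ Q₁.card := by exact_mod_cast st_card_le' Q₁ g
      linarith
    by_cases hw : lp g ∈ W
    · by_cases hr : ε * n ≤ ((st Q₁ g).card : ℝ)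
      · rw [if_neg (by simpa using hw), if_pos hw, if_pos ⟨hw, hr⟩]
        have h2 : ((st R g).card : ℝ) * (((st Q₁ g).card : ℝ) * (st Q₁ g).card) ≤
            ((st R g).card : ℝ) * (n * n) :=
          mul_le_mul_of_nonneg_left (mul_le_mul hqn hqn hq0 hn0.le) hr0
        have h3 : 0 ≤ ε * n ^ 2 * ((st R g).card : ℝ) := by positivity
        nlinarith
      · push Not at hr
        rw [if_neg (by simpa using hw), if_pos hw, if_neg (by rintro ⟨-, h⟩; linarith)]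
        have h2 : ((st R g).card : ℝ) * (((st Q₁ g).card : ℝ) * (st Q₁ g).card) ≤
            ((st R g).card : ℝ) * ((ε * n) * n) :=
          mul_le_mul_of_nonneg_left (mul_le_mul hr.le hqn hq0 (by positivity)) hr0
        nlinarith
    · rw [if_pos hw, if_neg hw, if_neg (by rintro ⟨h, -⟩; exact hw h)]
      have ha : ((st R g).card : ℝ) ≤ (st Q g).card := by exact_mod_cast st_card_le hRQ g
      have hb : ((st Q₁ g).card : ℝ) ≤ (st Q g).card := by exact_mod_cast st_card_le hQ₁ g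
      have h2 : ((st R g).card : ℝ) * (((st Q₁ g).card : ℝ) * (st Q₁ g).card) ≤
          ((st Q g).card : ℝ) * (((st Q g).card : ℝ) * (st Q g).card) :=
        mul_le_mul ha (mul_le_mul hb hb hq0 (Nat.cast_nonneg _)) (by positivity)
          (Nat.cast_nonneg _)
      nlinarith
  have hS1 := Finset.sum_le_sum hNg
  rw [Finset.sum_add_distrib, Finset.sum_add_distrib] at hS1
  have hA : ∑ g ∈ 𝒢, (if lp g ∉ W then ((st Q g).card : ℝ) ^ 3 else 0) ≤ η * n ^ 4 := by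
    rw [← Finset.sum_filter]
    exact hsum
  have hB : ∑ g ∈ 𝒢, (if lp g ∈ W then ε * n ^ 2 * ((st R g).card : ℝ) else 0) ≤
      ε * n ^ 2 * (L * (n * n)) := by
    rw [← Finset.sum_filter, ← Finset.mul_sum]
    refine mul_le_mul_of_nonneg_left ?_ (by positivity)
    have h1 : ∑ g ∈ 𝒢.filter (fun g => lp g ∈ W), (st R g).card ≤
        W.card * (P.card * P.card) := by
      refine sum_st_le (fun g hg => hD g (Finset.mem_filter.1 hg).1)
        (fun g hg => (Finset.mem_filter.1 hg).2) (hRQ.trans hQP)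
    have h2 : (∑ g ∈ 𝒢.filter (fun g => lp g ∈ W), ((st R g).card : ℝ)) ≤
        (W.card : ℝ) * ((P.card : ℝ) * P.card) := by exact_mod_cast h1
    have h3 : (W.card : ℝ) ≤ L := by exact_mod_cast hWL
    calc (∑ g ∈ 𝒢.filter (fun g => lp g ∈ W), ((st R g).card : ℝ)) ≤
        (W.card : ℝ) * ((P.card : ℝ) * P.card) := h2
      _ ≤ (L : ℝ) * (n * n) := mul_le_mul_of_nonneg_right h3 (by positivity)
  have hC : ∑ g ∈ 𝒢, (if lp g ∈ W ∧ ε * n ≤ ((st Q₁ g).card : ℝ) then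
      n ^ 2 * ((st R g).card : ℝ) else 0) ≤ n ^ 2 * (n * (η * n)) := by
    rw [← Finset.sum_filter, ← Finset.mul_sum]
    refine mul_le_mul_of_nonneg_left ?_ (by positivity)
    have h1 : (∑ g ∈ 𝒢.filter (fun g => lp g ∈ W ∧ ε * n ≤ ((st Q₁ g).card : ℝ)),
        ((st R g).card : ℝ)) = ∑ p ∈ R, ((((𝒢.filter (fun g => lp g ∈ W ∧
          ε * n ≤ ((st Q₁ g).card : ℝ))).filter (fun g => g p ∈ R)).card : ℕ) : ℝ) := by
      exact_mod_cast sum_st_eq (𝒢 := 𝒢.filter (fun g => lp g ∈ W ∧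
        ε * n ≤ ((st Q₁ g).card : ℝ))) (R := R)
    rw [h1]
    have h2 : ∀ p ∈ R, ((((𝒢.filter (fun g => lp g ∈ W ∧
          ε * n ≤ ((st Q₁ g).card : ℝ))).filter (fun g => g p ∈ R)).card : ℕ) : ℝ) ≤ η * n := by
      intro p hp
      have hp' := (Finset.mem_filter.1 hp).2
      refine le_trans ?_ hp'.le
      have : ((𝒢.filter (fun g => lp g ∈ W ∧
          ε * n ≤ ((st Q₁ g).card : ℝ))).filter (fun g => g p ∈ R)).card ≤
          (𝒢.filter (fun g => lp g ∈ W ∧ ε * n ≤ ((st Q₁ g).card : ℝ) ∧ g p ∈ Q)).card := by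
        refine Finset.card_le_card ?_
        intro g hg
        rw [Finset.mem_filter, Finset.mem_filter] at hg
        rw [Finset.mem_filter]
        exact ⟨hg.1.1, hg.1.2.1, hg.1.2.2, hRQ hg.2⟩
      exact_mod_cast this
    refine (Finset.sum_le_sum h2).trans ?_
    rw [Finset.sum_const, nsmul_eq_mul]
    exact mul_le_mul_of_nonneg_right hRn (by positivity)
  have hεL : ε * L ≤ η := by
    rw [hε, div_mul_eq_mul_div, div_le_iff₀ (by positivity)]
    nlinarith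
  have hS2 : S ≤ 3 * η * n ^ 4 := by
    have h1 : S ≤ η * n ^ 4 + ε * n ^ 2 * (L * (n * n)) + n ^ 2 * (n * (η * n)) := by
      refine hS1.trans ?_
      linarith
    have h2 : ε * n ^ 2 * (L * (n * n)) = (ε * L) * n ^ 4 := by ring
    have h3 : n ^ 2 * (n * (η * n)) = η * n ^ 4 := by ring
    have h4 : (ε * L) * n ^ 4 ≤ η * n ^ 4 := mul_le_mul_of_nonneg_right hεL (by positivity)
    rw [h2, h3] at h1
    linarith
  have hS0 : 0 ≤ S := by
    rw [hS]
    exact Finset.sum_nonneg fun g _ => Nat.cast_nonneg _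
  have hfin : ((X R Q₁).card : ℝ) ^ 2 ≤ 2 * n ^ 2 * (3 * η * n ^ 4) := by
    refine hcs'.trans ?_
    calc 12 * ((TC P).card : ℝ) * S ≤ 2 * n ^ 2 * S := mul_le_mul_of_nonneg_right hT hS0
      _ ≤ 2 * n ^ 2 * (3 * η * n ^ 4) := mul_le_mul_of_nonneg_left hS2 (by positivity)
  -- lower bound
  have hlow : θ * n * ((n / K₁) ^ 2 / 2) < ((X R Q₁).card : ℝ) := by
    have hq : n / K₁ ≤ Q₁.card := by
      rw [div_le_iff₀ hK0]
      linarith
    have hnK : 0 < n / K₁ := by positivity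
    have h1 : (n / K₁) ^ 2 / 2 ≤ (Q₁.card : ℝ) ^ 2 / 2 := by
      have := pow_le_pow_left₀ hnK.le hq 2
      linarith
    have h0 : 0 < (n / K₁) ^ 2 / 2 := by positivity
    calc θ * n * ((n / K₁) ^ 2 / 2) < (R.card : ℝ) * ((n / K₁) ^ 2 / 2) :=
          mul_lt_mul_of_pos_right hcon' h0
      _ ≤ (R.card : ℝ) * ((Q₁.card : ℝ) ^ 2 / 2) :=
          mul_le_mul_of_nonneg_left h1 (Nat.cast_nonneg _)
      _ ≤ _ := hX
  have hl0 : 0 ≤ θ * n * ((n / K₁) ^ 2 / 2) := by positivity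
  have hsq : (θ * n * ((n / K₁) ^ 2 / 2)) ^ 2 < ((X R Q₁).card : ℝ) ^ 2 :=
    pow_lt_pow_left₀ hlow hl0 (by norm_num)
  have e1 : (θ * n * ((n / K₁) ^ 2 / 2)) ^ 2 = 2 * n ^ 2 * (3 * η * n ^ 4) := by
    rw [hη]
    field_simp
    ring
  rw [e1] at hsq
  linarith

end Pool.RAT
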