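import Pool.Agent.Work.MP_dc37f8_rat.InterfaceL
import Pool.Agent.Work.MP_dc37f8_rf.NSUM
import Pool.Agent.Work.MP_dc37f8_rf.NEGC

/-!
# MP_dc37f8_co, project rat: block TAILR
-/

set_option autoImplicit false

open Finset

namespace Pool.RAT

open Pool.BK Pool.BD Pool.RF

open Classical in
theorem TAILR.fibsum (𝒢 : Finset Gp) (𝒲 : Finset Gp) (𝒬 : Finset (ℂ × ℂ)) (f : Gp → ℝ)
    (hf : ∀ g, 0 ≤ f g) (A : Gp → Prop) (B : Gp → Gp → Prop) (C : Gp → ℂ × ℂ → Prop)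
    (h : ∀ g ∈ 𝒢, A g ∨ (∃ k ∈ 𝒲, B g k) ∨ ∃ z ∈ 𝒬, C g z) :
    ∑ g ∈ 𝒢, f g ≤ ∑ g ∈ 𝒢.filter A, f g + ∑ k ∈ 𝒲, ∑ g ∈ 𝒢.filter (fun g => B g k), f g +
      ∑ z ∈ 𝒬, ∑ g ∈ 𝒢.filter (fun g => C g z), f g := by
  have e1 : ∑ k ∈ 𝒲, ∑ g ∈ 𝒢.filter (fun g => B g k), f g =
      ∑ g ∈ 𝒢, ∑ k ∈ 𝒲, (if B g k then f g else 0) := by
    rw [Finset.sum_comm]
    exact Finset.sum_congr rfl fun k _ => Finset.sum_filter _ _
  have e2 : ∑ z ∈ 𝒬, ∑ g ∈ 𝒢.filter (fun g => C g z), f g =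
      ∑ g ∈ 𝒢, ∑ z ∈ 𝒬, (if C g z then f g else 0) := by
    rw [Finset.sum_comm]
    exact Finset.sum_congr rfl fun k _ => Finset.sum_filter _ _
  rw [e1, e2, Finset.sum_filter, ← Finset.sum_add_distrib, ← Finset.sum_add_distrib]
  refine Finset.sum_le_sum fun g hg => ?_
  have s0 : 0 ≤ (if A g then f g else 0) := by split_ifs <;> [exact hf g; exact le_rfl]
  have s1 : 0 ≤ ∑ k ∈ 𝒲, (if B g k then f g else 0) :=
    Finset.sum_nonneg fun k _ => by split_ifs <;> [exact hf g; exact le_rfl]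
  have s2 : 0 ≤ ∑ z ∈ 𝒬, (if C g z then f g else 0) :=
    Finset.sum_nonneg fun k _ => by split_ifs <;> [exact hf g; exact le_rfl]
  rcases h g hg with h | ⟨k, hk, h⟩ | ⟨z, hz, h⟩
  · rw [if_pos h]; linarith
  · have : f g ≤ ∑ k ∈ 𝒲, (if B g k then f g else 0) := by
      have := Finset.single_le_sum (f := fun k => if B g k then f g else 0)
        (fun k _ => by split_ifs <;> [exact hf g; exact le_rfl]) hk
      simpa [h] using this
    linarith
  · have : f g ≤ ∑ z ∈ 𝒬, (if C g z then f g else 0) := by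
      have := Finset.single_le_sum (f := fun z => if C g z then f g else 0)
        (fun k _ => by split_ifs <;> [exact hf g; exact le_rfl]) hz
      simpa [h] using this
    linarith

open Classical in
theorem stmt_TAILR (hTAIL : Pool.RF.Stmt_TAIL) (hSEL : Pool.RF.Stmt_SEL)
    (hRB : Pool.RF.Stmt_RB) (hCENZ : Pool.RF.Stmt_CENZ) : Stmt_TAILR := by
  intro η hη
  obtain ⟨δ, n₁, hδ, hT⟩ := hTAIL (η / 5) (by positivity)
  obtain ⟨L, n₂, hS⟩ := hSEL δ (η / 5) hδ (by positivity)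
  obtain ⟨C, n₃, hC, hR⟩ := hRB δ hδ
  obtain ⟨n₄, hn₄⟩ := exists_nat_gt (10 * (L * C + 1) / η)
  refine ⟨η / (5 * (L + 1)), η / (20 * (L + 1)), max (max n₁ n₂) (max n₃ (n₄ + 1)), by positivity,
    by positivity, ?_⟩
  intro P 𝒢 hn h𝒢 hcirc
  have hn₁ : n₁ ≤ P.card := (le_max_left _ _).trans ((le_max_left _ _).trans hn)
  have hn₂ : n₂ ≤ P.card := (le_max_right _ _).trans ((le_max_left _ _).trans hn)
  have hn₃ : n₃ ≤ P.card := (le_max_left _ _).trans ((le_max_right _ _).trans hn)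
  have hn₄' : n₄ + 1 ≤ P.card := (le_max_right _ _).trans ((le_max_right _ _).trans hn)
  set n : ℝ := (P.card : ℝ) with hndef
  have hL0 : (0 : ℝ) ≤ L := Nat.cast_nonneg _
  have hn4r : 10 * (L * C + 1) / η < n := by
    refine hn₄.trans_le ?_
    rw [hndef]; exact_mod_cast (by omega : n₄ ≤ P.card)
  have hn0 : (0 : ℝ) < n := lt_of_le_of_lt (by positivity) hn4r
  -- the rich isometries
  obtain ⟨𝒬, 𝒲, hQ, hW, hWd, hex⟩ := hS P hn₂
    (𝒢.filter (fun g => δ * P.card ≤ ((st P g).card : ℝ)))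
    (fun g hg => (h𝒢 g (Finset.mem_filter.1 hg).1).1)
    (fun g hg => (Finset.mem_filter.1 hg).2)
  have hcnt := hR P (𝒢.filter (fun g => δ * P.card ≤ ((st P g).card : ℝ))) hn₃
    (fun g hg => ⟨(h𝒢 g (Finset.mem_filter.1 hg).1).1, (Finset.mem_filter.1 hg).2⟩)
  have htail := hT P (𝒢.filter (fun g => ((st P g).card : ℝ) ≤ δ * P.card)) hn₁
    (fun g hg => ⟨(h𝒢 g (Finset.mem_filter.1 hg).1).1, (h𝒢 g (Finset.mem_filter.1 hg).1).2,
      (Finset.mem_filter.1 hg).2⟩)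
  set f : Gp → ℝ := fun g => ((st P g).card : ℝ) ^ 3 with hf
  have hf0 : ∀ g, 0 ≤ f g := fun g => by positivity
  have hfn : ∀ g, f g ≤ n ^ 3 := fun g => by
    apply pow_le_pow_left₀ (Nat.cast_nonneg _)
    rw [hndef]; exact_mod_cast NSUM.st_card_le P g
  set 𝒢' := 𝒢.filter (fun g => (SX P (g 1 - g 0) : ℝ) < η / (5 * (L + 1)) * n ^ 4) with h𝒢'
  have hsub : 𝒢' ⊆ 𝒢 := Finset.filter_subset _ _
  have hmain := TAILR.fibsum 𝒢' 𝒲 𝒬 f hf0
    (fun g => ((st P g).card : ℝ) ≤ δ * P.card ∨ (δ * P.card ≤ ((st P g).card : ℝ) ∧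
      (∀ z ∈ 𝒬, g z.1 ≠ z.2) ∧ ∀ h ∈ 𝒲, ¬ IsTr (g * h⁻¹)))
    (fun g k => IsTr (g * k⁻¹))
    (fun g z => δ * P.card ≤ ((st P g).card : ℝ) ∧ g z.1 = z.2) (by
      intro g hg
      by_cases h1 : ((st P g).card : ℝ) ≤ δ * P.card
      · exact Or.inl (Or.inl h1)
      · have h2 : δ * P.card ≤ ((st P g).card : ℝ) := (not_le.1 h1).le
        by_cases h3 : ∃ k ∈ 𝒲, IsTr (g * k⁻¹)
        · exact Or.inr (Or.inl h3)
        · by_cases h4 : ∃ z ∈ 𝒬, g z.1 = z.2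
          · obtain ⟨z, hz, h4⟩ := h4
            exact Or.inr (Or.inr ⟨z, hz, h2, h4⟩)
          · push Not at h3 h4
            exact Or.inl (Or.inr ⟨h2, h4, h3⟩))
  -- part 1
  have p1 : ∑ g ∈ 𝒢'.filter (fun g => ((st P g).card : ℝ) ≤ δ * P.card ∨
      (δ * P.card ≤ ((st P g).card : ℝ) ∧
      (∀ z ∈ 𝒬, g z.1 ≠ z.2) ∧ ∀ h ∈ 𝒲, ¬ IsTr (g * h⁻¹))), f g ≤ η / 5 * n ^ 4 + η / 5 * n ^ 4 := by
    have hcov := NSUM.sum_cover
      (𝒢'.filter (fun g => ((st P g).card : ℝ) ≤ δ * P.card ∨ (δ * P.card ≤ ((st P g).card : ℝ) ∧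
      (∀ z ∈ 𝒬, g z.1 ≠ z.2) ∧ ∀ h ∈ 𝒲, ¬ IsTr (g * h⁻¹))))
      (𝒢.filter (fun g => ((st P g).card : ℝ) ≤ δ * P.card))
      ((𝒢.filter (fun g => δ * P.card ≤ ((st P g).card : ℝ))).filter
        (fun g => (∀ z ∈ 𝒬, g z.1 ≠ z.2) ∧ ∀ h ∈ 𝒲, ¬ IsTr (g * h⁻¹)))
      f hf0 (by
        intro g hg
        obtain ⟨hg1, hg2⟩ := Finset.mem_filter.1 hg
        rcases hg2 with h | ⟨h, h'⟩
        · exact Or.inl (Finset.mem_filter.2 ⟨hsub hg1, h⟩)
        · exact Or.inr (Finset.mem_filter.2 ⟨Finset.mem_filter.2 ⟨hsub hg1, h⟩, h'⟩))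
    refine hcov.trans (add_le_add htail ?_)
    refine le_trans (Finset.sum_le_sum (g := fun _ => n ^ 3) fun g _ => hfn g) ?_
    rw [Finset.sum_const, nsmul_eq_mul]
    have h8 : (η / 5 * n ^ 4 : ℝ) = (η / 5 * n) * n ^ 3 := by ring
    rw [h8]
    apply mul_le_mul_of_nonneg_right _ (by positivity)
    refine le_trans (le_of_eq ?_) hex
    congr 2
    ext x
    simp only [Finset.mem_filter]
  -- part 2
  have p2 : ∑ k ∈ 𝒲, ∑ g ∈ 𝒢'.filter (fun g => IsTr (g * k⁻¹)), f g ≤ η / 5 * n ^ 4 := by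
    have hb : ∀ k ∈ 𝒲, ∑ g ∈ 𝒢'.filter (fun g => IsTr (g * k⁻¹)), f g ≤
        η / (5 * (L + 1)) * n ^ 4 := by
      intro k hk
      rcases (𝒢'.filter (fun g => IsTr (g * k⁻¹))).eq_empty_or_nonempty with he | ⟨g₀, hg₀⟩
      · rw [he, Finset.sum_empty]
        positivity
      · have h1 := NEGC.type_h P (k 1 - k 0) (𝒢'.filter (fun g => IsTr (g * k⁻¹))) (by
          intro g hg
          rw [Finset.mem_filter] at hg
          exact ⟨(h𝒢 g (hsub hg.1)).1, NEGC.lin_eq hg.2⟩)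
        refine h1.trans ?_
        rw [Finset.mem_filter] at hg₀
        have h2 := (Finset.mem_filter.1 hg₀.1).2
        rw [NEGC.lin_eq hg₀.2] at h2
        exact h2.le
    refine (Finset.sum_le_card_nsmul _ _ _ hb).trans ?_
    rw [nsmul_eq_mul]
    have hWr : (𝒲.card : ℝ) ≤ L := by exact_mod_cast hW
    have : (𝒲.card : ℝ) * (η / (5 * (L + 1)) * n ^ 4) ≤
        (L + 1) * (η / (5 * (L + 1)) * n ^ 4) := by
      apply mul_le_mul_of_nonneg_right _ (by positivity)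
      linarith
    refine this.trans (le_of_eq ?_)
    field_simp
  -- part 3
  have p3 : ∑ z ∈ 𝒬, ∑ g ∈ 𝒢'.filter (fun g => δ * P.card ≤ ((st P g).card : ℝ) ∧ g z.1 = z.2),
      f g ≤ L * (n ^ 2 * (2 * (η / (20 * (L + 1))) * n ^ 2 + C * n)) := by
    have hb : ∀ z ∈ 𝒬, ∑ g ∈ 𝒢'.filter (fun g => δ * P.card ≤ ((st P g).card : ℝ) ∧ g z.1 = z.2),
        f g ≤ n ^ 2 * (2 * (η / (20 * (L + 1))) * n ^ 2 + C * n) := by
      intro z hz
      set H := 𝒢'.filter (fun g => δ * P.card ≤ ((st P g).card : ℝ) ∧ g z.1 = z.2) with hH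
      have hHc : (H.card : ℝ) ≤ C * n := by
        refine le_trans ?_ hcnt
        have : H ⊆ 𝒢.filter (fun g => δ * P.card ≤ ((st P g).card : ℝ)) := by
          intro g hg
          rw [hH, Finset.mem_filter] at hg
          exact Finset.mem_filter.2 ⟨hsub hg.1, hg.2.1⟩
        exact_mod_cast Finset.card_le_card this
      have hcz := hCENZ P (η / (20 * (L + 1))) z.1 z.2 H (by positivity) (by
        intro g hg
        rw [hH, Finset.mem_filter] at hg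
        exact ⟨(h𝒢 g (hsub hg.1)).1, hg.2.2⟩)
      have hle : ∀ g ∈ H, f g ≤ n ^ 2 * (((st P g).filter (fun p =>
          ¬ (p ∈ UP.R P (η / (20 * (L + 1)) * P.card) z.1 ∧
            g p ∈ UP.R P (η / (20 * (L + 1)) * P.card) z.2))).card : ℝ) := by
        intro g hg
        have hs1' : ((st P g).card : ℝ) ≤ n := by
          rw [hndef]; exact_mod_cast NSUM.st_card_le P g
        have hs2 : (st P g).filter (fun p =>
            ¬ (p ∈ UP.R P (η / (20 * (L + 1)) * P.card) z.1 ∧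
              g p ∈ UP.R P (η / (20 * (L + 1)) * P.card) z.2)) = st P g := by
          refine Finset.filter_true_of_mem fun p hp => ?_
          rintro ⟨h1, -⟩
          have h2 := (Finset.mem_filter.1 h1).2.2
          exact absurd h2 (not_le.2 (hcirc z.1 (dist p z.1)))
        rw [hs2]
        have h0 : (0 : ℝ) ≤ ((st P g).card : ℝ) := Nat.cast_nonneg _
        calc f g = ((st P g).card : ℝ) ^ 2 * ((st P g).card : ℝ) := by
              show ((st P g).card : ℝ) ^ 3 = _; ring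
          _ ≤ n ^ 2 * _ := mul_le_mul (pow_le_pow_left₀ h0 hs1' 2) le_rfl h0 (by positivity)
      refine (Finset.sum_le_sum hle).trans ?_
      rw [← Finset.mul_sum]
      apply mul_le_mul_of_nonneg_left _ (by positivity)
      refine hcz.trans ?_
      linarith
    refine (Finset.sum_le_card_nsmul _ _ _ hb).trans ?_
    rw [nsmul_eq_mul]
    have hQr : (𝒬.card : ℝ) ≤ L := by exact_mod_cast hQ
    have hnn : 0 ≤ n ^ 2 * (2 * (η / (20 * (L + 1))) * n ^ 2 + C * n) := by positivity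
    exact mul_le_mul_of_nonneg_right hQr hnn
  have p4 : L * (n ^ 2 * (2 * (η / (20 * (L + 1))) * n ^ 2 + C * n)) ≤ η / 5 * n ^ 4 := by
    have h1 : (L : ℝ) * (2 * (η / (20 * (L + 1)))) ≤ η / 10 := by
      rw [show (L : ℝ) * (2 * (η / (20 * (L + 1)))) = (L / (L + 1)) * (η / 10) by
        field_simp; ring]
      have : (L : ℝ) / (L + 1) ≤ 1 := by
        rw [div_le_one (by positivity)]; linarith
      nlinarith
    have h2 : (L : ℝ) * C ≤ η / 10 * n := by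
      rw [div_lt_iff₀ hη] at hn4r
      nlinarith
    have e : (L : ℝ) * (n ^ 2 * (2 * (η / (20 * (L + 1))) * n ^ 2 + C * n)) =
        (L * (2 * (η / (20 * (L + 1))))) * n ^ 4 + (L * C) * n ^ 3 := by ring
    rw [e]
    have h3 := mul_le_mul_of_nonneg_right h1 (show (0 : ℝ) ≤ n ^ 4 by positivity)
    have h4 := mul_le_mul_of_nonneg_right h2 (show (0 : ℝ) ≤ n ^ 3 by positivity)
    nlinarith
  have hn4 : 0 ≤ n ^ 4 := by positivity
  have hfin : (η / 5 * n ^ 4 + η / 5 * n ^ 4) + η / 5 * n ^ 4 + η / 5 * n ^ 4 ≤ η * n ^ 4 := by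
    nlinarith
  refine hmain.trans (le_trans (add_le_add (add_le_add ?_ p2) ?_) hfin)
  · refine le_trans (le_of_eq ?_) p1
    refine Finset.sum_congr ?_ fun _ _ => rfl
    ext g
    simp only [Finset.mem_filter]
  · refine le_trans (le_of_eq ?_) (p3.trans p4)
    refine Finset.sum_congr rfl fun z _ => ?_
    refine Finset.sum_congr ?_ fun _ _ => rfl
    ext g
    simp only [Finset.mem_filter]

end Pool.RAT
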